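import Mathlib

/-!
# Powers of the Beurling transform on the angular class, `p = 4`: partial fractions (helper227)
-/

set_option autoImplicit false

namespace Pool.Agent.R227.BT

open Finset

/-- residues -/
noncomputable def r (n j : ℕ) : ℝ :=
  (-1) ^ (n + j) * ((n + j).factorial : ℝ) / ((j.factorial : ℝ) ^ 2 * ((n - 1 - j).factorial : ℝ))

/-- the symbol -/
noncomputable def m (n : ℕ) (s : ℝ) : ℝ := ∏ j ∈ range n, (s - j - 1) / (s + j)

lemma m_succ (n : ℕ) (s : ℝ) : m (n + 1) s = m n s * ((s - n - 1) / (s + n)) := by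
  unfold m; rw [prod_range_succ]

lemma r_rec {n j : ℕ} (hj : j < n) :
    r (n + 1) j = -r n j * ((n + j + 1) / ((n : ℝ) - j)) := by
  unfold r
  obtain ⟨k, rfl⟩ : ∃ k, n = j + 1 + k := ⟨n - j - 1, by omega⟩
  have e1 : j + 1 + k + 1 + j = (j + 1 + k + j) + 1 := by ring
  have e2 : j + 1 + k + 1 - 1 - j = k + 1 := by omega
  have e3 : j + 1 + k - 1 - j = k := by omega
  rw [e1, e2, e3, Nat.factorial_succ, Nat.factorial_succ k, pow_succ]
  have h1 : ((j.factorial : ℕ) : ℝ) ≠ 0 := by positivity
  have h2 : ((k.factorial : ℕ) : ℝ) ≠ 0 := by positivity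
  have h3 : ((k : ℝ) + 1) ≠ 0 := by positivity
  push_cast
  have h4 : ((j : ℝ) + 1 + k - j) ≠ 0 := by
    have : ((j : ℝ) + 1 + k - j) = k + 1 := by ring
    rw [this]; exact h3
  field_simp
  ring

lemma m_neg (n : ℕ) : m n (-(n : ℝ)) = ((2 * n).factorial : ℝ) / (n.factorial : ℝ) ^ 2 := by
  have h : ∀ k : ℕ, ∏ j ∈ range k, (-((n : ℝ) + k) - j - 1) / (-((n:ℝ) + k) + j)
      = ((n + 2 * k).factorial : ℝ) * (n.factorial : ℝ) / ((n + k).factorial : ℝ) ^ 2 := by
    intro k
    have h1 : ∏ j ∈ range k, (((n : ℝ) + k) + j + 1) = ((n + 2 * k).factorial : ℝ) / ((n + k).factorial : ℝ) := by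
      rw [eq_div_iff (by positivity)]
      have : ∀ i : ℕ, (∏ j ∈ range i, (((n : ℝ) + k) + j + 1)) * ((n + k).factorial : ℝ)
          = ((n + k + i).factorial : ℝ) := by
        intro i
        induction i with
        | zero => simp
        | succ i ih =>
          rw [prod_range_succ, mul_right_comm, ih, ← Nat.add_assoc, Nat.factorial_succ]
          push_cast
          ring
      rw [this k]
      congr 2
      ring
    have h2 : ∏ j ∈ range k, (((n : ℝ) + k) - j) = ((n + k).factorial : ℝ) / (n.factorial : ℝ) := by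
      rw [eq_div_iff (by positivity)]
      have : ∀ i : ℕ, i ≤ k → (∏ j ∈ range i, (((n : ℝ) + k) - j)) * ((n + k - i).factorial : ℝ)
          = ((n + k).factorial : ℝ) := by
        intro i
        induction i with
        | zero => simp
        | succ i ih =>
          intro hi
          rw [← ih (by omega), prod_range_succ]
          obtain ⟨q, hq⟩ : ∃ q, n + k - i = q + 1 := ⟨n + k - i - 1, by omega⟩
          have hq2 : n + k - (i + 1) = q := by omega
          have hq3 : ((n : ℝ) + k - i) = q + 1 := by
            have : n + k = q + 1 + i := by omega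
            have h5 : ((n : ℝ) + k) = (q : ℝ) + 1 + i := by exact_mod_cast this
            rw [h5]; ring
          rw [hq, hq2, Nat.factorial_succ, hq3]
          push_cast
          ring
      have := this k le_rfl
      rw [Nat.add_sub_cancel] at this
      exact this
    have h3 : ∏ j ∈ range k, (-((n : ℝ) + k) - j - 1) / (-((n:ℝ) + k) + j)
        = ∏ j ∈ range k, (((n : ℝ) + k) + j + 1) / (((n : ℝ) + k) - j) := by
      refine prod_congr rfl fun j _ => ?_
      rw [← neg_div_neg_eq]
      congr 1 <;> ring
    rw [h3, prod_div_distrib, h1, h2]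
    have : ((n + k).factorial : ℝ) ≠ 0 := by positivity
    have : ((n).factorial : ℝ) ≠ 0 := by positivity
    field_simp
  have h0 : ∀ n : ℕ, ∏ j ∈ range n, (-(n : ℝ) - j - 1) / (-(n:ℝ) + j)
      = ((2 * n).factorial : ℝ) / ((n).factorial : ℝ) ^ 2 := by
    intro n
    have h1 : ∏ j ∈ range n, ((n : ℝ) + j + 1) = ((2 * n).factorial : ℝ) / (n.factorial : ℝ) := by
      rw [eq_div_iff (by positivity)]
      have : ∀ i : ℕ, (∏ j ∈ range i, ((n : ℝ) + j + 1)) * (n.factorial : ℝ)
          = ((n + i).factorial : ℝ) := by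
        intro i
        induction i with
        | zero => simp
        | succ i ih =>
          rw [prod_range_succ, mul_right_comm, ih, ← Nat.add_assoc, Nat.factorial_succ]
          push_cast
          ring
      rw [this n]
      congr 2
      ring
    have h2 : ∏ j ∈ range n, ((n : ℝ) - j) = (n.factorial : ℝ) := by
      have : ∀ i : ℕ, i ≤ n → (∏ j ∈ range i, ((n : ℝ) - j)) * ((n - i).factorial : ℝ)
          = (n.factorial : ℝ) := by
        intro i
        induction i with
        | zero => simp
        | succ i ih =>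
          intro hi
          rw [← ih (by omega), prod_range_succ]
          obtain ⟨q, hq⟩ : ∃ q, n - i = q + 1 := ⟨n - i - 1, by omega⟩
          have hq2 : n - (i + 1) = q := by omega
          have hq3 : ((n : ℝ) - i) = q + 1 := by
            have : n = q + 1 + i := by omega
            have h5 : (n : ℝ) = (q : ℝ) + 1 + i := by exact_mod_cast this
            rw [h5]; ring
          rw [hq, hq2, Nat.factorial_succ, hq3]
          push_cast
          ring
      have := this n le_rfl
      simpa using this
    have h3 : ∏ j ∈ range n, (-(n : ℝ) - j - 1) / (-(n:ℝ) + j)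
        = ∏ j ∈ range n, ((n : ℝ) + j + 1) / ((n : ℝ) - j) := by
      refine prod_congr rfl fun j _ => ?_
      rw [← neg_div_neg_eq]
      congr 1 <;> ring
    rw [h3, prod_div_distrib, h1, h2, div_div, sq]
  unfold m
  exact h0 n

lemma r_last (n : ℕ) : r (n + 1) n = -(2 * n + 1) * m n (-(n : ℝ)) := by
  rw [m_neg]
  unfold r
  have e1 : n + 1 + n = 2 * n + 1 := by ring
  have e2 : n + 1 - 1 - n = 0 := by omega
  rw [e1, e2, Nat.factorial_succ, Nat.factorial_zero, pow_succ, pow_mul]
  push_cast
  norm_num
  ring

/-- partial fractions -/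
lemma pf (n : ℕ) : ∀ s : ℝ, (∀ j : ℕ, j < n → s + j ≠ 0) →
    1 + ∑ j ∈ range n, r n j / (s + j) = m n s := by
  induction n with
  | zero => intro s _; simp [m]
  | succ n ih =>
    intro s hs
    have h1 := ih s (fun j hj => hs j (by omega))
    have hn : s + n ≠ 0 := hs n (by omega)
    have h2 := ih (-(n : ℝ)) (fun j hj => by
      have : (j : ℝ) < n := by exact_mod_cast hj
      linarith [this] |> fun h => ne_of_lt h)
    rw [m_succ, sum_range_succ, r_last, ← h1, ← h2]
    have h3 : ∑ j ∈ range n, r (n + 1) j / (s + j)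
        = ∑ j ∈ range n, (r n j / (s + j) * ((s - n - 1) / (s + n))
            + (2 * n + 1) / (s + n) * (r n j / (-(n : ℝ) + j))) := by
      refine sum_congr rfl fun j hj => ?_
      have hj' := mem_range.1 hj
      rw [r_rec hj']
      have a1 : s + j ≠ 0 := hs j (by omega)
      have a2 : (n : ℝ) - j ≠ 0 := by
        have : (j : ℝ) < n := by exact_mod_cast hj'
        linarith [this] |> fun h => ne_of_gt h
      have a3 : -(n : ℝ) + j ≠ 0 := fun h => a2 (by linarith)
      have a4 : -(n : ℝ) + j = -((n : ℝ) - j) := by ring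
      rw [a4]
      field_simp
      ring
    rw [h3, sum_add_distrib, ← sum_mul, ← mul_sum]
    field_simp
    ring

end Pool.Agent.R227.BT
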