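import Pool.Agent.R227.BT4

/-!
# Powers of the Beurling transform on the angular class, `p = 4`: the weights (helper227)
-/

set_option autoImplicit false

namespace Pool.Agent.R227.BT

open Finset MeasureTheory Filter Topology

/-- the weight `u` -/
noncomputable def uu (v : ℝ) : ℝ := v ^ (1 / 5 : ℝ) + v ^ (-(1 / 5) : ℝ) - 8 / 5

/-- the weight `ω` -/
noncomputable def om (v : ℝ) : ℝ := v ^ (-(3 / 10) : ℝ) + v ^ (-(7 / 10) : ℝ) - 8 / 5 * v ^ (-(1 / 2) : ℝ)

lemma uu_pos {v : ℝ} (hv : 0 < v) : 0 < uu v := by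
  unfold uu
  rw [Real.rpow_neg hv.le]
  set w : ℝ := v ^ (1 / 5 : ℝ) with hw
  have hw0 : 0 < w := Real.rpow_pos_of_pos hv _
  have h1 : w + w⁻¹ - 8 / 5 = ((w - 4 / 5) ^ 2 + 9 / 25) / w := by
    field_simp
    ring
  rw [h1]
  positivity

lemma om_eq {v : ℝ} (hv : 0 < v) : om v * Real.sqrt v = uu v := by
  unfold om uu
  have h1 : v ^ (-(3 / 10) : ℝ) * v ^ (1 / 2 : ℝ) = v ^ (1 / 5 : ℝ) := by
    rw [← Real.rpow_add hv]; norm_num
  have h2 : v ^ (-(7 / 10) : ℝ) * v ^ (1 / 2 : ℝ) = v ^ (-(1 / 5) : ℝ) := by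
    rw [← Real.rpow_add hv]; norm_num
  have h3 : v ^ (-(1 / 2) : ℝ) * v ^ (1 / 2 : ℝ) = 1 := by
    rw [← Real.rpow_add hv]; norm_num
  rw [Real.sqrt_eq_rpow]
  linear_combination h1 + h2 - 8 / 5 * h3

lemma om_pos {v : ℝ} (hv : 0 < v) : 0 < om v := by
  have h1 := om_eq hv
  have h2 := uu_pos hv
  have h3 := Real.sqrt_pos.2 hv
  rw [← h1] at h2
  exact pos_of_mul_pos_left h2 h3.le

/-- the primitive of `1 / (v u(v))` -/
noncomputable def Arc (v : ℝ) : ℝ := 25 / 3 * Real.arctan ((v ^ (1 / 5 : ℝ) - 4 / 5) / (3 / 5))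

lemma Arc_deriv {v : ℝ} (hv : 0 < v) : HasDerivAt Arc (1 / (v * uu v)) v := by
  have h1 : HasDerivAt (fun v : ℝ => v ^ (1 / 5 : ℝ)) ((1 / 5 : ℝ) * v ^ ((1 / 5 : ℝ) - 1)) v :=
    Real.hasDerivAt_rpow_const (Or.inl hv.ne')
  have h2 := (((h1.sub_const (4 / 5)).div_const (3 / 5)).arctan).const_mul (25 / 3)
  refine h2.congr_deriv ?_
  unfold uu
  rw [Real.rpow_neg hv.le, Real.rpow_sub_one hv.ne']
  set w : ℝ := v ^ (1 / 5 : ℝ) with hw
  have hw0 : 0 < w := Real.rpow_pos_of_pos hv _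
  have h3 : w + w⁻¹ - 8 / 5 = ((w - 4 / 5) ^ 2 + 9 / 25) / w := by
    field_simp
    ring
  rw [h3]
  have h4 : 0 < (w - 4 / 5) ^ 2 + 9 / 25 := by positivity
  have h5 : 1 + ((w - 4 / 5) / (3 / 5)) ^ 2 = ((w - 4 / 5) ^ 2 + 9 / 25) * (25 / 9) := by ring
  rw [h5]
  field_simp
  ring

lemma Arc_cont : Continuous Arc := by
  unfold Arc
  have h1 : Continuous fun v : ℝ => v ^ (1 / 5 : ℝ) := Real.continuous_rpow_const (by norm_num)
  exact continuous_const.mul (Real.continuous_arctan.comp ((h1.sub continuous_const).div_const _))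

lemma Arc_mono {v : ℝ} (hv : 0 ≤ v) : Arc 0 ≤ Arc v := by
  unfold Arc
  have h1 : (0:ℝ) ^ (1 / 5 : ℝ) ≤ v ^ (1 / 5 : ℝ) := Real.rpow_le_rpow le_rfl hv (by norm_num)
  have h2 : Real.arctan (((0:ℝ) ^ (1 / 5 : ℝ) - 4 / 5) / (3 / 5)) ≤ Real.arctan ((v ^ (1 / 5 : ℝ) - 4 / 5) / (3 / 5)) := by
    apply Real.arctan_strictMono.monotone
    apply div_le_div_of_nonneg_right _ (by norm_num)
    linarith
  linarith

/-- half of the total weight -/
noncomputable def Wh : ℝ := Arc 1 - Arc 0

lemma Wh_nonneg : 0 ≤ Wh := sub_nonneg.2 (Arc_mono (by norm_num))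

lemma Wh_le : Wh ≤ 104129 / 10000 := by
  unfold Wh Arc
  rw [Real.one_rpow, Real.zero_rpow (by norm_num)]
  have e1 : ((1:ℝ) - 4 / 5) / (3 / 5) = 3⁻¹ := by norm_num
  have e2 : ((0:ℝ) - 4 / 5) / (3 / 5) = -((3 / 4 : ℝ)⁻¹) := by norm_num
  rw [e1, e2, Real.arctan_neg, Real.arctan_inv_of_pos (x := 3 / 4) (by norm_num)]
  have e3 : 2 * Real.arctan (3⁻¹ : ℝ) = Real.arctan (3 / 4) := by
    rw [Real.two_mul_arctan (by norm_num) (by norm_num)]
    norm_num
  have e4 := Real.two_mul_arctan_inv_3_add_arctan_inv_7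
  have e5 : Real.arctan (7⁻¹ : ℝ) ≤ 7⁻¹ := by
    have h1 : 0 < Real.arctan (7⁻¹ : ℝ) := Real.arctan_pos.2 (by norm_num)
    have h2 := Real.lt_tan h1 (Real.arctan_lt_pi_div_two _)
    rw [Real.tan_arctan] at h2
    exact h2.le
  have e6 := Real.pi_lt_d4
  have e7 : (7⁻¹ : ℝ) = 1 / 7 := by norm_num
  have e5' : Real.arctan (7⁻¹ : ℝ) ≤ 1 / 7 := by linarith
  clear e5
  set a := Real.arctan (3⁻¹ : ℝ)
  set b := Real.arctan (7⁻¹ : ℝ)
  set c := Real.arctan (3 / 4 : ℝ)
  norm_num at e6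
  linarith

/-- the first integral of the weight -/
lemma W1 {x R : ℝ} (hx : 0 < x) (hR : x < R) :
    IntervalIntegrable (fun y => 1 / (y * uu (x / y))) volume x R ∧
    ∫ y in x..R, 1 / (y * uu (x / y)) ≤ Wh := by
  have hd : ∀ y ∈ Set.uIcc x R, HasDerivAt (fun y => -Arc (x / y)) (1 / (y * uu (x / y))) y := by
    intro y hy
    rw [Set.uIcc_of_le hR.le] at hy
    have hy0 : 0 < y := lt_of_lt_of_le hx hy.1
    have h1 : HasDerivAt (fun y : ℝ => x / y) (-x / y ^ 2) y := by
      have := (hasDerivAt_inv hy0.ne').const_mul x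
      refine (this.congr_deriv ?_).congr_of_eventuallyEq (Eventually.of_forall fun z => ?_)
      · field_simp
      · simp only [div_eq_mul_inv]
    have h2 := ((Arc_deriv (div_pos hx hy0)).comp y h1).neg
    refine h2.congr_deriv ?_
    have := uu_pos (div_pos hx hy0)
    field_simp
  have hc : ContinuousOn (fun y => 1 / (y * uu (x / y))) (Set.uIcc x R) := by
    intro y hy
    rw [Set.uIcc_of_le hR.le] at hy
    have hy0 : 0 < y := lt_of_lt_of_le hx hy.1
    have hv := div_pos hx hy0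
    have h0 := uu_pos hv
    have h1 : ContinuousAt uu (x / y) := by
      unfold uu
      exact ((Real.continuousAt_rpow_const _ _ (Or.inl hv.ne')).add
        (Real.continuousAt_rpow_const _ _ (Or.inl hv.ne'))).sub continuousAt_const
    have h2 : ContinuousAt (fun y : ℝ => x / y) y := continuousAt_const.div continuousAt_id hy0.ne'
    have h3 : ContinuousAt (fun y : ℝ => uu (x / y)) y := ContinuousAt.comp (g := uu) h1 h2
    exact (continuousAt_const.div (continuousAt_id.mul h3) (mul_pos hy0 h0).ne').continuousWithinAt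
  have hi : IntervalIntegrable (fun y => 1 / (y * uu (x / y))) volume x R := hc.intervalIntegrable
  refine ⟨hi, ?_⟩
  rw [intervalIntegral.integral_eq_sub_of_hasDerivAt hd hi, div_self hx.ne']
  have := Arc_mono (v := x / R) (by have := hx.trans hR; positivity)
  unfold Wh
  linarith

/-- the second integral of the weight -/
lemma W2 {y : ℝ} (hy : 0 < y) :
    ∫⁻ x in Set.Ioo 0 y, ENNReal.ofReal (1 / (x * uu (x / y))) ≤ ENNReal.ofReal Wh := by
  have hcont : ContinuousOn (fun x => Arc (x / y)) (Set.Icc 0 y) :=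
    (Arc_cont.comp (continuous_id.div_const y)).continuousOn
  have hd : ∀ x ∈ Set.Ioo 0 y, HasDerivAt (fun x => Arc (x / y)) (1 / (x * uu (x / y))) x := by
    intro x hx
    have hv := div_pos hx.1 hy
    have h2 := (Arc_deriv hv).comp x ((hasDerivAt_id x).div_const y)
    refine h2.congr_deriv ?_
    have := uu_pos hv
    have hx0 := hx.1
    field_simp
  have hpos : ∀ x ∈ Set.Ioo 0 y, 0 ≤ 1 / (x * uu (x / y)) := by
    intro x hx
    have := uu_pos (div_pos hx.1 hy)
    have hx0 := hx.1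
    positivity
  have hi := intervalIntegral.integrableOn_deriv_of_nonneg hcont hd hpos
  have hii : IntervalIntegrable (fun x => 1 / (x * uu (x / y))) volume 0 y :=
    (intervalIntegrable_iff_integrableOn_Ioc_of_le hy.le).2 hi
  have h1 := intervalIntegral.integral_eq_sub_of_hasDerivAt_of_le hy.le hcont hd hii
  rw [div_self hy.ne', zero_div] at h1
  have h2 : IntegrableOn (fun x => 1 / (x * uu (x / y))) (Set.Ioo 0 y) := hi.mono_set Set.Ioo_subset_Ioc_self
  rw [← ofReal_integral_eq_lintegral_ofReal h2]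
  · apply ENNReal.ofReal_le_ofReal
    rw [← integral_Ioc_eq_integral_Ioo, ← intervalIntegral.integral_of_le hy.le, h1]
    rfl
  · exact (ae_restrict_iff' measurableSet_Ioo).2 (Eventually.of_forall hpos)

/-- Tonelli -/
lemma tonelli {G : ℝ → ℝ} (hG : Continuous G) (R : ℝ) :
    ∫⁻ x in Set.Ioo 0 R, ∫⁻ y in Set.Ioo x R, ENNReal.ofReal (G y) * ENNReal.ofReal (1 / (x * uu (x / y)))
      ≤ ENNReal.ofReal Wh * ∫⁻ y in Set.Ioo 0 R, ENNReal.ofReal (G y) := by
  set F : ℝ → ℝ → ENNReal := fun x y => ENNReal.ofReal (G y) * ENNReal.ofReal (1 / (x * uu (x / y))) with hF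
  set A : Set (ℝ × ℝ) := {p | 0 < p.1 ∧ p.1 < p.2 ∧ p.2 < R} with hA
  have hAm : MeasurableSet A := by
    apply MeasurableSet.inter (measurableSet_lt measurable_const measurable_fst)
    exact MeasurableSet.inter (measurableSet_lt measurable_fst measurable_snd)
      (measurableSet_lt measurable_snd measurable_const)
  have hFm : Measurable (Function.uncurry F) := by
    rw [hF]
    have hu : Measurable uu := by
      unfold uu
      exact ((measurable_id.pow_const _).add (measurable_id.pow_const _)).sub measurable_const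
    have h1 : Measurable fun p : ℝ × ℝ => ENNReal.ofReal (G p.2) :=
      (hG.measurable.comp measurable_snd).ennreal_ofReal
    have h2 : Measurable fun p : ℝ × ℝ => ENNReal.ofReal (1 / (p.1 * uu (p.1 / p.2))) :=
      (measurable_const.div (measurable_fst.mul (hu.comp (measurable_fst.div measurable_snd)))).ennreal_ofReal
    exact h1.mul h2
  have hΦm : Measurable (Function.uncurry fun x y => A.indicator (Function.uncurry F) (x, y)) :=
    hFm.indicator hAm
  have e1 : ∫⁻ x in Set.Ioo 0 R, ∫⁻ y in Set.Ioo x R, F x y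
      = ∫⁻ x, ∫⁻ y, A.indicator (Function.uncurry F) (x, y) := by
    rw [← lintegral_indicator measurableSet_Ioo]
    refine lintegral_congr fun x => ?_
    by_cases hx : x ∈ Set.Ioo 0 R
    · rw [Set.indicator_of_mem hx, ← lintegral_indicator measurableSet_Ioo]
      refine lintegral_congr fun y => ?_
      by_cases hy : y ∈ Set.Ioo x R
      · rw [Set.indicator_of_mem hy, Set.indicator_of_mem (show (x, y) ∈ A from ⟨hx.1, hy.1, hy.2⟩)]
        rfl
      · rw [Set.indicator_of_notMem hy, Set.indicator_of_notMem]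
        intro h
        exact hy ⟨h.2.1, h.2.2⟩
    · rw [Set.indicator_of_notMem hx]
      symm
      rw [lintegral_eq_zero_of_ae_eq_zero]
      refine Eventually.of_forall fun y => ?_
      show A.indicator (Function.uncurry F) (x, y) = 0
      rw [Set.indicator_of_notMem]
      intro h
      exact hx ⟨h.1, lt_trans h.2.1 h.2.2⟩
  have e2 : ∫⁻ y, ∫⁻ x, A.indicator (Function.uncurry F) (x, y)
      = ∫⁻ y in Set.Ioo 0 R, ∫⁻ x in Set.Ioo 0 y, F x y := by
    rw [← lintegral_indicator (s := Set.Ioo 0 R) measurableSet_Ioo]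
    refine lintegral_congr fun y => ?_
    by_cases hy : y ∈ Set.Ioo 0 R
    · rw [Set.indicator_of_mem hy, ← lintegral_indicator measurableSet_Ioo]
      refine lintegral_congr fun x => ?_
      by_cases hx : x ∈ Set.Ioo 0 y
      · rw [Set.indicator_of_mem hx, Set.indicator_of_mem (show (x, y) ∈ A from ⟨hx.1, hx.2, hy.2⟩)]
        rfl
      · rw [Set.indicator_of_notMem hx, Set.indicator_of_notMem]
        intro h
        exact hx ⟨h.1, h.2.1⟩
    · rw [Set.indicator_of_notMem hy]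
      rw [lintegral_eq_zero_of_ae_eq_zero]
      refine Eventually.of_forall fun x => ?_
      show A.indicator (Function.uncurry F) (x, y) = 0
      rw [Set.indicator_of_notMem]
      intro h
      exact hy ⟨lt_trans h.1 h.2.1, h.2.2⟩
  rw [e1, lintegral_lintegral_swap hΦm.aemeasurable, e2, ← lintegral_const_mul' _ _ ENNReal.ofReal_ne_top]
  refine setLIntegral_mono' measurableSet_Ioo fun y hy => ?_
  rw [hF]
  simp only
  rw [lintegral_const_mul' _ _ ENNReal.ofReal_ne_top, mul_comm]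
  exact mul_le_mul_left (W2 hy.1) _

end Pool.Agent.R227.BT
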