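import Pool.Agent.R227.BT9
import Pool.Agent.R227.BT10

/-!
# Powers of the Beurling transform on the angular class, `p = 4`: Cauchy-Schwarz (helper227)
-/

set_option autoImplicit false

namespace Pool.Agent.R227.BT

open Finset MeasureTheory Filter Topology

/-- the primitives of `v ^ k ω(v)` -/
noncomputable def be (k : ℕ) (v : ℝ) : ℝ := 1 / ((k : ℝ) + 7 / 10) * v ^ ((k : ℝ) + 7 / 10)
  + 1 / ((k : ℝ) + 3 / 10) * v ^ ((k : ℝ) + 3 / 10) - 8 / 5 * (1 / ((k : ℝ) + 1 / 2)) * v ^ ((k : ℝ) + 1 / 2)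

lemma be_one (k : ℕ) : be k 1 = bb k := by
  unfold be bb
  simp only [Real.one_rpow]
  ring

lemma be_zero (k : ℕ) : be k 0 = 0 := by
  unfold be
  have hk : (0:ℝ) ≤ k := Nat.cast_nonneg k
  rw [Real.zero_rpow (by positivity), Real.zero_rpow (by positivity), Real.zero_rpow (by positivity)]
  ring

lemma be_cont (k : ℕ) : Continuous (be k) := by
  unfold be
  have hk : (0:ℝ) ≤ k := Nat.cast_nonneg k
  exact ((continuous_const.mul (Real.continuous_rpow_const (by positivity))).add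
    (continuous_const.mul (Real.continuous_rpow_const (by positivity)))).sub
    (continuous_const.mul (Real.continuous_rpow_const (by positivity)))

lemma be_deriv (k : ℕ) {v : ℝ} (hv : 0 < v) : HasDerivAt (be k) (v ^ k * om v) v := by
  have hk : (0:ℝ) ≤ k := Nat.cast_nonneg k
  have h : ∀ q : ℝ, HasDerivAt (fun v : ℝ => v ^ q) (q * v ^ (q - 1)) v := fun q =>
    Real.hasDerivAt_rpow_const (Or.inl hv.ne')
  have h1 := (((h ((k : ℝ) + 7 / 10)).const_mul (1 / ((k : ℝ) + 7 / 10))).add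
    ((h ((k : ℝ) + 3 / 10)).const_mul (1 / ((k : ℝ) + 3 / 10)))).sub
    ((h ((k : ℝ) + 1 / 2)).const_mul (8 / 5 * (1 / ((k : ℝ) + 1 / 2))))
  refine h1.congr_deriv ?_
  unfold om
  have e1 : v ^ ((k : ℝ) + 7 / 10 - 1) = v ^ k * v ^ (-(3 / 10) : ℝ) := by
    rw [← Real.rpow_natCast v k, ← Real.rpow_add hv]; congr 1; ring
  have e2 : v ^ ((k : ℝ) + 3 / 10 - 1) = v ^ k * v ^ (-(7 / 10) : ℝ) := by
    rw [← Real.rpow_natCast v k, ← Real.rpow_add hv]; congr 1; ring
  have e3 : v ^ ((k : ℝ) + 1 / 2 - 1) = v ^ k * v ^ (-(1 / 2) : ℝ) := by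
    rw [← Real.rpow_natCast v k, ← Real.rpow_add hv]; congr 1; ring
  rw [e1, e2, e3]
  have a1 : (k : ℝ) + 7 / 10 ≠ 0 := by positivity
  have a2 : (k : ℝ) + 3 / 10 ≠ 0 := by positivity
  have a3 : (k : ℝ) + 1 / 2 ≠ 0 := by positivity
  field_simp

/-- the quadratic form in the coefficients -/
noncomputable def Bf (n : ℕ) (c : ℕ → ℝ) (v : ℝ) : ℝ := ∑ j ∈ range n, ∑ l ∈ range n, c j * c l * be (j + l) v

lemma Bf_cont (n : ℕ) (c : ℕ → ℝ) : Continuous (Bf n c) := by
  unfold Bf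
  exact continuous_finsetSum _ fun j _ => continuous_finsetSum _ fun l _ => continuous_const.mul (be_cont _)

lemma Bf_deriv (n : ℕ) (c : ℕ → ℝ) {v : ℝ} (hv : 0 < v) :
    HasDerivAt (Bf n c) ((∑ j ∈ range n, c j * v ^ j) ^ 2 * om v) v := by
  have h1 : HasDerivAt (Bf n c) (∑ j ∈ range n, ∑ l ∈ range n, c j * c l * (v ^ (j + l) * om v)) v := by
    have := HasDerivAt.fun_sum (u := range n) (A := fun j v => ∑ l ∈ range n, c j * c l * be (j + l) v)
      (A' := fun j => ∑ l ∈ range n, c j * c l * (v ^ (j + l) * om v)) (x := v) (fun j _ =>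
        HasDerivAt.fun_sum (u := range n) (A := fun l v => c j * c l * be (j + l) v)
          (A' := fun l => c j * c l * (v ^ (j + l) * om v)) (x := v) (fun l _ => (be_deriv (j + l) hv).const_mul _))
    exact this
  refine h1.congr_deriv ?_
  rw [sq, sum_mul_sum, sum_mul]
  refine sum_congr rfl fun j _ => ?_
  rw [sum_mul]
  refine sum_congr rfl fun l _ => ?_
  rw [pow_add]; ring

lemma Bf_nonneg (n : ℕ) (c : ℕ → ℝ) {v : ℝ} (hv : 0 ≤ v) : 0 ≤ Bf n c v := by
  have h0 : Bf n c 0 = 0 := by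
    unfold Bf
    simp [be_zero]
  have hm : MonotoneOn (Bf n c) (Set.Ici 0) := by
    apply monotoneOn_of_deriv_nonneg (convex_Ici 0) (Bf_cont n c).continuousOn
    · intro x hx
      rw [interior_Ici] at hx
      exact (Bf_deriv n c hx).differentiableAt.differentiableWithinAt
    · intro x hx
      rw [interior_Ici] at hx
      rw [(Bf_deriv n c hx).deriv]
      exact mul_nonneg (sq_nonneg _) (om_pos hx).le
  have := hm (Set.mem_Ici.2 le_rfl) (Set.mem_Ici.2 hv) hv
  rwa [h0] at this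

lemma om_contAt {v : ℝ} (hv : 0 < v) : ContinuousAt om v := by
  unfold om
  exact ((Real.continuousAt_rpow_const _ _ (Or.inl hv.ne')).add
    (Real.continuousAt_rpow_const _ _ (Or.inl hv.ne'))).sub
    (continuousAt_const.mul (Real.continuousAt_rpow_const _ _ (Or.inl hv.ne')))

lemma uu_contAt {v : ℝ} (hv : 0 < v) : ContinuousAt uu v := by
  unfold uu
  exact ((Real.continuousAt_rpow_const _ _ (Or.inl hv.ne')).add
    (Real.continuousAt_rpow_const _ _ (Or.inl hv.ne'))).sub continuousAt_const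

lemma ratio_deriv {x y : ℝ} (hy : 0 < y) : HasDerivAt (fun y : ℝ => x / y) (-x / y ^ 2) y := by
  have := (hasDerivAt_inv hy.ne').const_mul x
  refine (this.congr_deriv ?_).congr_of_eventuallyEq (Eventually.of_forall fun z => ?_)
  · field_simp
  · simp only [div_eq_mul_inv]

lemma Bf_int (n : ℕ) (c : ℕ → ℝ) {x R : ℝ} (hx : 0 < x) (hR : x < R) :
    IntervalIntegrable (fun y => (∑ j ∈ range n, c j * (x / y) ^ j) ^ 2 * om (x / y) * (x / y ^ 2)) volume x R ∧
    ∫ y in x..R, (∑ j ∈ range n, c j * (x / y) ^ j) ^ 2 * om (x / y) * (x / y ^ 2) ≤ Bf n c 1 := by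
  have hd : ∀ y ∈ Set.uIcc x R, HasDerivAt (fun y => -Bf n c (x / y))
      ((∑ j ∈ range n, c j * (x / y) ^ j) ^ 2 * om (x / y) * (x / y ^ 2)) y := by
    intro y hy
    rw [Set.uIcc_of_le hR.le] at hy
    have hy0 : 0 < y := lt_of_lt_of_le hx hy.1
    have h2 := ((Bf_deriv n c (div_pos hx hy0)).comp y (ratio_deriv (x := x) hy0)).neg
    refine h2.congr_deriv ?_
    ring
  have hc : ContinuousOn (fun y => (∑ j ∈ range n, c j * (x / y) ^ j) ^ 2 * om (x / y) * (x / y ^ 2)) (Set.uIcc x R) := by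
    intro y hy
    rw [Set.uIcc_of_le hR.le] at hy
    have hy0 : 0 < y := lt_of_lt_of_le hx hy.1
    have hv := div_pos hx hy0
    have h2 : ContinuousAt (fun y : ℝ => x / y) y := continuousAt_const.div continuousAt_id hy0.ne'
    have h3 : ContinuousAt (fun y : ℝ => om (x / y)) y := ContinuousAt.comp (g := om) (om_contAt hv) h2
    have h4 : ContinuousAt (fun y : ℝ => ∑ j ∈ range n, c j * (x / y) ^ j) y :=
      tendsto_finsetSum _ fun j _ => continuousAt_const.mul (h2.pow j)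
    exact (((h4.pow 2).mul h3).mul (continuousAt_const.div (continuousAt_id.pow 2)
      (pow_pos hy0 2).ne')).continuousWithinAt
  have hi : IntervalIntegrable (fun y => (∑ j ∈ range n, c j * (x / y) ^ j) ^ 2 * om (x / y) * (x / y ^ 2)) volume x R :=
    hc.intervalIntegrable
  refine ⟨hi, ?_⟩
  rw [intervalIntegral.integral_eq_sub_of_hasDerivAt hd hi, div_self hx.ne']
  have := Bf_nonneg n c (v := x / R) (by have := hx.trans hR; positivity)
  linarith

/-- the pointwise Young inequality -/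
lemma young {x y a b q lam : ℝ} (hx : 0 < x) (hxy : x < y) (hl : 0 < lam) :
    a * q * b / y ≤ lam / 2 * (q ^ 2 * om (x / y) * (x / y ^ 2))
      + 1 / (4 * lam) * (a ^ 4 * (1 / (y * uu (x / y))) + b ^ 4 * (1 / (x * uu (x / y)))) := by
  have hy : 0 < y := hx.trans hxy
  have hv : 0 < x / y := div_pos hx hy
  set v := x / y with hvd
  have h1 := om_eq hv
  have hU := uu_pos hv
  have hO := om_pos hv
  set s := Real.sqrt v with hs
  have hs0 : 0 < s := Real.sqrt_pos.2 hv
  have hs2 : s ^ 2 = v := Real.sq_sqrt hv.le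
  have hxv : x = s ^ 2 * y := by rw [hs2, hvd]; field_simp
  set U := uu v with hUd
  have hom : om v = U / s := by rw [eq_div_iff hs0.ne']; exact h1
  rw [hom, hxv]
  have e1 : lam / 2 * (q ^ 2 * (U / s) * (s ^ 2 * y / y ^ 2)) = lam / 2 * (q ^ 2 * U * s / y) := by
    field_simp
  have e2 : 1 / (4 * lam) * (a ^ 4 * (1 / (y * U)) + b ^ 4 * (1 / (s ^ 2 * y * U)))
      = 1 / (4 * lam * y * U * s ^ 2) * (a ^ 4 * s ^ 2 + b ^ 4) := by
    field_simp
  rw [e1, e2]
  have h2 : 2 * (a ^ 2 * s) * b ^ 2 ≤ a ^ 4 * s ^ 2 + b ^ 4 := by nlinarith [sq_nonneg (a ^ 2 * s - b ^ 2)]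
  have h3 : 1 / (4 * lam * y * U * s ^ 2) * (2 * (a ^ 2 * s) * b ^ 2) ≤ 1 / (4 * lam * y * U * s ^ 2) * (a ^ 4 * s ^ 2 + b ^ 4) :=
    mul_le_mul_of_nonneg_left h2 (by positivity)
  refine le_trans ?_ (add_le_add_right h3 _)
  have e3 : lam / 2 * (q ^ 2 * U * s / y) + 1 / (4 * lam * y * U * s ^ 2) * (2 * (a ^ 2 * s) * b ^ 2) - a * q * b / y
      = (lam * q * U * s - a * b) ^ 2 / (2 * lam * U * s * y) := by
    field_simp
    ring
  have h4 : 0 ≤ (lam * q * U * s - a * b) ^ 2 / (2 * lam * U * s * y) := by positivity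
  linarith

end Pool.Agent.R227.BT
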