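import Pool.Agent.R227.BT4

/-!
# Powers of the Beurling transform on the angular class, `p = 4`: numerical bounds (helper227)
-/

set_option autoImplicit false

namespace Pool.Agent.R227.BT

open Finset

/-- the telescoping sequence -/
noncomputable def TT (k : ℕ) : ℝ := (H k + 1 / 3) / k

lemma TT_pos {k : ℕ} (hk : 1 ≤ k) : 0 ≤ TT k := by
  unfold TT
  have := H_pos k
  positivity

lemma TT_step {k : ℕ} (hk : 1 ≤ k) : H k / (k * (k + 1)) ≤ TT k - TT (k + 1) := by
  unfold TT
  rw [H_succ]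
  have hk0 : (0:ℝ) < k := by exact_mod_cast hk
  push_cast
  have e1 : (H k + 1 / 3) / (k : ℝ) - (H k + 1 / (3 * (k : ℝ) + 4) + 1 / 3) / (k + 1)
      = (H k + 1 / 3 - k / (3 * k + 4)) / (k * (k + 1)) := by
    field_simp
    ring
  rw [e1]
  apply div_le_div_of_nonneg_right _ (by positivity)
  have : (k : ℝ) / (3 * k + 4) ≤ 1 / 3 := by
    rw [div_le_div_iff₀ (by positivity) (by norm_num)]
    linarith
  linarith

lemma e_hh {k : ℕ} (hk : 1 ≤ k) : e k * hh k ≤ 2 / 3 * (TT k - TT (k + 1)) := by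
  have h1 := TT_step hk
  have hH := H_pos k
  have hk0 : (0:ℝ) < k := by exact_mod_cast hk
  have h2 : e k * hh k ≤ 2 / 3 * (H k / (k * (k + 1))) := by
    unfold e hh
    have e1 : 2 / (3 * (k : ℝ) + 2) * H k * (1 / (k + 1 / 2)) = H k * (2 / ((3 * k + 2) * (k + 1 / 2))) := by
      field_simp
    have e2 : 2 / 3 * (H k / ((k : ℝ) * (k + 1))) = H k * (2 / (3 * (k * (k + 1)))) := by
      field_simp
    rw [e1, e2]
    apply mul_le_mul_of_nonneg_left _ hH.le
    apply div_le_div_of_nonneg_left (by norm_num) (by positivity)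
    nlinarith
  linarith

lemma e_bb {k : ℕ} (hk : 1 ≤ k) : e k * bb k ≤ 4 / 15 * (TT k - TT (k + 1)) := by
  have h1 := TT_step hk
  have hH := H_pos k
  have hk0 : (0:ℝ) < k := by exact_mod_cast hk
  have h2 : e k * bb k ≤ 4 / 15 * (H k / (k * (k + 1))) := by
    unfold e bb
    have e1 : 2 / (3 * (k : ℝ) + 2) * H k * (1 / ((k : ℝ) + 3 / 10) + 1 / (k + 7 / 10) - 8 / 5 * (1 / (k + 1 / 2)))
        = H k * (2 * (2 / 5 * ((k:ℝ) + 1/2) ^ 2 + 8 / 125) / ((3 * k + 2) * ((k + 3 / 10) * (k + 7 / 10) * (k + 1 / 2)))) := by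
      field_simp
      ring
    have e2 : 4 / 15 * (H k / ((k : ℝ) * (k + 1))) = H k * (4 / (15 * (k * (k + 1)))) := by
      field_simp
    rw [e1, e2]
    apply mul_le_mul_of_nonneg_left _ hH.le
    rw [div_le_div_iff₀ (by positivity) (by positivity)]
    nlinarith [mul_pos hk0 hk0, mul_pos hk0 (mul_pos hk0 hk0), mul_pos (mul_pos hk0 hk0) (mul_pos hk0 hk0)]
  linarith

lemma sum_ebb (N : ℕ) (hN : 10 ≤ N) : ∑ k ∈ range N, e k * bb k ≤ 19186 / 10000 := by
  have h1 : ∀ q : ℕ, ∑ k ∈ range (10 + q), e k * bb k ≤ ∑ k ∈ range 10, e k * bb k + 4 / 15 * (TT 10 - TT (10 + q)) := by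
    intro q
    induction q with
    | zero => simp
    | succ q ih =>
      rw [← Nat.add_assoc, sum_range_succ]
      have := e_bb (k := 10 + q) (by omega)
      linarith
  obtain ⟨q, rfl⟩ : ∃ q, N = 10 + q := ⟨N - 10, by omega⟩
  have h2 := h1 q
  have h3 := TT_pos (k := 10 + q) (by omega)
  have h4 : ∑ k ∈ range 10, e k * bb k + 4 / 15 * TT 10 ≤ 19186 / 10000 := by
    unfold TT e bb H
    simp only [sum_range_succ, range_zero, sum_empty]
    norm_num
  linarith

lemma loss_le {n : ℕ} (hn : 500 ≤ n) : loss n ≤ 4 / 3 * ((H n + 1 / 3) / n) := by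
  have hn0 : (0:ℝ) < n := by
    have : 0 < n := by omega
    exact_mod_cast this
  set K := n / 2 + 1 with hK
  have hK1 : 1 ≤ K := by omega
  have h1 : ∀ q : ℕ, ∑ k ∈ range (K + q), (if n < 2 * k then e k * hh k else 0)
      ≤ 2 / 3 * (TT K - TT (K + q)) := by
    intro q
    induction q with
    | zero =>
      rw [Nat.add_zero, sub_self, mul_zero]
      apply le_of_eq
      apply sum_eq_zero
      intro k hk
      rw [mem_range] at hk
      rw [if_neg (by omega)]
    | succ q ih =>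
      rw [← Nat.add_assoc, sum_range_succ, if_pos (by omega)]
      have := e_hh (k := K + q) (by omega)
      linarith
  have h2 := h1 (2 * n - K)
  have h3 : K + (2 * n - K) = 2 * n := by omega
  rw [h3] at h2
  have h4 := TT_pos (k := 2 * n) (by omega)
  have h5 : TT K ≤ 2 * ((H n + 1 / 3) / n) := by
    unfold TT
    have hKn : (n : ℝ) / 2 ≤ K := by
      have : n ≤ 2 * K := by omega
      have : (n : ℝ) ≤ 2 * K := by exact_mod_cast this
      linarith
    have hHm : H K ≤ H n := by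
      unfold H
      apply sum_le_sum_of_subset_of_nonneg
      · apply range_subset_range.2; omega
      · intro i _ _; positivity
    have hHp := H_pos K
    have hHn := H_pos n
    calc (H K + 1 / 3) / (K : ℝ) ≤ (H n + 1 / 3) / (K : ℝ) := by gcongr
      _ ≤ (H n + 1 / 3) / (n / 2) := by
        apply div_le_div_of_nonneg_left (by positivity) (by positivity) hKn
      _ = _ := by field_simp
  unfold loss
  linarith

lemma ph_le {n : ℕ} (hn : 1 ≤ n) : ph n / (n : ℝ) ^ 2 ≤ H n / n := by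
  have hn0 : (0:ℝ) < n := by exact_mod_cast hn
  unfold ph
  have h1 : ∑ j ∈ range n, A n (1 / 2) j ≤ H n := by
    unfold H
    rw [sum_range_succ]
    have : ∑ j ∈ range n, A n (1 / 2) j ≤ ∑ i ∈ range n, 1 / (3 * (i : ℝ) + 1) :=
      sum_le_sum fun j _ => A_half hn j
    have h2 : (0:ℝ) ≤ 1 / (3 * (n : ℝ) + 1) := by positivity
    linarith
  rw [div_le_div_iff₀ (by positivity) hn0]
  nlinarith [mul_le_mul_of_nonneg_left h1 (by positivity : (0:ℝ) ≤ n * n)]

lemma H_le {n : ℕ} (hn : 500 ≤ n) : H n ≤ 4 / 3 + (9 * Real.log 2 + (n : ℝ) / 512 - 1) / 3 := by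
  have h1 : H n ≤ 1 + 1 / 3 * ((harmonic n : ℚ) : ℝ) := by
    unfold H
    rw [sum_range_succ']
    have h2 : ∑ k ∈ range n, 1 / (3 * ((k + 1 : ℕ) : ℝ) + 1) ≤ 1 / 3 * ((harmonic n : ℚ) : ℝ) := by
      rw [harmonic]
      push_cast
      rw [mul_sum]
      apply sum_le_sum
      intro k _
      rw [← one_div, div_mul_div_comm, one_mul]
      apply div_le_div_of_nonneg_left (by norm_num) (by positivity)
      linarith
    simp only [Nat.cast_zero, mul_zero, zero_add, div_one]
    linarith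
  have h2 := harmonic_le_one_add_log n
  have hn0 : (0:ℝ) < n := by
    have : 0 < n := by omega
    exact_mod_cast this
  have h3 : Real.log n ≤ 9 * Real.log 2 + (n / 512 - 1) := by
    have e1 : (n : ℝ) = 2 ^ 9 * (n / 512) := by norm_num; ring
    have e2 : Real.log n = 9 * Real.log 2 + Real.log (n / 512) := by
      rw [e1, Real.log_mul (by positivity) (by positivity), Real.log_pow]
      norm_num
    rw [e2]
    have := Real.log_le_sub_one_of_pos (x := (n : ℝ) / 512) (by positivity)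
    linarith
  linarith

lemma E_le {n : ℕ} (hn : 500 ≤ n) :
    2 * ∑ k ∈ range (2 * n), e k * bb k + 12 / 5 * (ph n / (n : ℝ) ^ 2) + 16 / 5 * loss n ≤ 38876 / 10000 := by
  have h1 := sum_ebb (2 * n) (by omega)
  have h2 := ph_le (n := n) (by omega)
  have h3 := loss_le hn
  have h4 := H_le hn
  have h5 := Real.log_two_lt_d9
  have hn1 : (500 : ℝ) ≤ n := by exact_mod_cast hn
  have hn0 : (0:ℝ) < n := by linarith
  have h6 : 12 / 5 * (H n / n) + 16 / 5 * (4 / 3 * ((H n + 1 / 3) / n)) ≤ 484 / 10000 := by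
    have e1 : 12 / 5 * (H n / n) + 16 / 5 * (4 / 3 * ((H n + 1 / 3) / n)) = (20 / 3 * H n + 64 / 45) / n := by
      field_simp
      ring
    rw [e1, div_le_iff₀ hn0]
    nlinarith
  linarith

end Pool.Agent.R227.BT
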