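import Pool.Agent.R227.BT11
import Pool.Agent.R227.BT12

/-!
# Powers of the Beurling transform on the angular class, `p = 4`: the bilinear bound (helper227)
-/

set_option autoImplicit false

namespace Pool.Agent.R227.BT

open Finset MeasureTheory Filter Topology

lemma real_le {μ : Measure ℝ} {φ : ℝ → ℝ} {K : ℝ} (hφ : Integrable φ μ) (hK : 0 ≤ K)
    (h : ∫⁻ x, ENNReal.ofReal (φ x) ∂μ ≤ ENNReal.ofReal K) : ∫ x, φ x ∂μ ≤ K := by
  rw [integral_eq_lintegral_pos_part_sub_lintegral_neg_part hφ]
  have h1 : (∫⁻ x, ENNReal.ofReal (φ x) ∂μ).toReal ≤ K := by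
    calc _ ≤ (ENNReal.ofReal K).toReal := ENNReal.toReal_mono ENNReal.ofReal_ne_top h
      _ = K := ENNReal.toReal_ofReal hK
  have h2 : 0 ≤ (∫⁻ x, ENNReal.ofReal (-φ x) ∂μ).toReal := ENNReal.toReal_nonneg
  linarith

/-- `g = x ^ n h^(n)` -/
noncomputable def gg (h : ℝ → ℝ) (n : ℕ) (x : ℝ) : ℝ := x ^ n * iteratedDeriv n h x

/-- the function `Θ` -/
noncomputable def Th (H h : ℝ → ℝ) (R : ℝ) (n : ℕ) (x : ℝ) : ℝ := ∑ j ∈ range n, r n j * (S H n j x * vv h R n j x)

section

variable {H : ℝ → ℝ} {R : ℝ} (hH : Hyp H R) {h : ℝ → ℝ} (hh : ContDiff ℝ (⊤ : ℕ∞) h)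
include hH hh

omit hH in
lemma gg_cont (n : ℕ) : Continuous (gg h n) := (continuous_pow n).mul (iter_cont hh n)

omit hH hh in
lemma vint {n j : ℕ} (hj : j < n) {x : ℝ} (hx : 0 < x) (hR : x < R) :
    vv h R n j x = ∫ y in x..R, (x / y) ^ j * gg h n y / y := by
  unfold vv M
  rw [← intervalIntegral.integral_const_mul]
  refine intervalIntegral.integral_congr fun y hy => ?_
  rw [Set.uIcc_of_le hR.le] at hy
  have hy0 : 0 < y := lt_of_lt_of_le hx hy.1
  unfold gg
  have e1 : y ^ n = y ^ (n - 1 - j) * (y ^ j * y) := by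
    rw [← pow_succ, ← pow_add]; congr 1; omega
  rw [e1, div_pow]
  field_simp

omit hH in
lemma theta {n : ℕ} {x : ℝ} (hx : 0 < x) (hR : x < R) :
    gg h n x * Th H h R n x
      = ∫ y in x..R, gg h n x * (∑ j ∈ range n, (r n j * S H n j x) * (x / y) ^ j) * gg h n y / y := by
  have hc : ∀ j, IntervalIntegrable (fun y => gg h n x * ((r n j * S H n j x) * ((x / y) ^ j * gg h n y / y))) volume x R := by
    intro j
    apply ContinuousOn.intervalIntegrable
    intro y hy
    rw [Set.uIcc_of_le hR.le] at hy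
    have hy0 : 0 < y := lt_of_lt_of_le hx hy.1
    have h2 : ContinuousAt (fun y : ℝ => x / y) y := continuousAt_const.div continuousAt_id hy0.ne'
    exact (continuousAt_const.mul (continuousAt_const.mul (((h2.pow j).mul (gg_cont hh n).continuousAt).div
      continuousAt_id hy0.ne'))).continuousWithinAt
  have e1 : ∀ y, gg h n x * (∑ j ∈ range n, (r n j * S H n j x) * (x / y) ^ j) * gg h n y / y
      = ∑ j ∈ range n, gg h n x * ((r n j * S H n j x) * ((x / y) ^ j * gg h n y / y)) := by
    intro y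
    rw [mul_sum, sum_mul, sum_div]
    exact sum_congr rfl fun j _ => by ring
  simp_rw [e1]
  rw [intervalIntegral.integral_finsetSum fun j _ => hc j]
  unfold Th
  rw [mul_sum]
  refine sum_congr rfl fun j hj => ?_
  rw [intervalIntegral.integral_const_mul, intervalIntegral.integral_const_mul, vint (mem_range.1 hj) hx hR]
  ring

omit hH in
lemma T_int {n : ℕ} {x : ℝ} (hx : 0 < x) (hR : x < R) :
    IntervalIntegrable (fun y => gg h n y ^ 4 * (1 / (x * uu (x / y)))) volume x R := by
  apply ContinuousOn.intervalIntegrable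
  intro y hy
  rw [Set.uIcc_of_le hR.le] at hy
  have hy0 : 0 < y := lt_of_lt_of_le hx hy.1
  have hv := div_pos hx hy0
  have h0 := uu_pos hv
  have h2 : ContinuousAt (fun y : ℝ => x / y) y := continuousAt_const.div continuousAt_id hy0.ne'
  have h3 : ContinuousAt (fun y : ℝ => uu (x / y)) y := ContinuousAt.comp (g := uu) (uu_contAt hv) h2
  exact (((gg_cont hh n).continuousAt.pow 4).mul (continuousAt_const.div (continuousAt_const.mul h3)
    (mul_pos hx h0).ne')).continuousWithinAt

omit hH in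
lemma pt {n : ℕ} {x lam : ℝ} (hx : 0 < x) (hR : x < R) (hl : 0 < lam) :
    gg h n x * Th H h R n x ≤ lam / 2 * Bf n (fun j => r n j * S H n j x) 1
      + 1 / (4 * lam) * (gg h n x ^ 4 * Wh + ∫ y in x..R, gg h n y ^ 4 * (1 / (x * uu (x / y)))) := by
  rw [theta hh hx hR]
  set c : ℕ → ℝ := fun j => r n j * S H n j x with hc
  obtain ⟨b1, b2⟩ := Bf_int n c hx hR
  obtain ⟨w1, w2⟩ := W1 hx hR
  have t1 := T_int hh (n := n) hx hR
  have i1 : IntervalIntegrable (fun y => lam / 2 * ((∑ j ∈ range n, c j * (x / y) ^ j) ^ 2 * om (x / y) * (x / y ^ 2))) volume x R :=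
    b1.const_mul _
  have i2 : IntervalIntegrable (fun y => 1 / (4 * lam) * (gg h n x ^ 4 * (1 / (y * uu (x / y))) + gg h n y ^ 4 * (1 / (x * uu (x / y))))) volume x R :=
    ((w1.const_mul _).add t1).const_mul _
  have i3 : IntervalIntegrable (fun y => gg h n x ^ 4 * (1 / (y * uu (x / y)))) volume x R := w1.const_mul _
  have h1 : ∫ y in x..R, gg h n x * (∑ j ∈ range n, c j * (x / y) ^ j) * gg h n y / y
      ≤ ∫ y in x..R, (lam / 2 * ((∑ j ∈ range n, c j * (x / y) ^ j) ^ 2 * om (x / y) * (x / y ^ 2))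
        + 1 / (4 * lam) * (gg h n x ^ 4 * (1 / (y * uu (x / y))) + gg h n y ^ 4 * (1 / (x * uu (x / y))))) := by
    apply intervalIntegral.integral_mono_on_of_le_Ioo hR.le
    · apply ContinuousOn.intervalIntegrable
      intro y hy
      rw [Set.uIcc_of_le hR.le] at hy
      have hy0 : 0 < y := lt_of_lt_of_le hx hy.1
      have h2 : ContinuousAt (fun y : ℝ => x / y) y := continuousAt_const.div continuousAt_id hy0.ne'
      have h4 : ContinuousAt (fun y : ℝ => ∑ j ∈ range n, c j * (x / y) ^ j) y :=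
        tendsto_finsetSum _ fun j _ => continuousAt_const.mul (h2.pow j)
      exact (((continuousAt_const.mul h4).mul (gg_cont hh n).continuousAt).div
        continuousAt_id hy0.ne').continuousWithinAt
    · exact i1.add i2
    · intro y hy
      exact young hx hy.1 hl
  rw [intervalIntegral.integral_add i1 i2, intervalIntegral.integral_const_mul, intervalIntegral.integral_const_mul,
    intervalIntegral.integral_add i3 t1, intervalIntegral.integral_const_mul] at h1
  refine h1.trans ?_
  have hg : 0 ≤ gg h n x ^ 4 := by positivity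
  have a1 := mul_le_mul_of_nonneg_left b2 (by positivity : 0 ≤ lam / 2)
  have a2 := mul_le_mul_of_nonneg_left w2 hg
  have a3 : 1 / (4 * lam) * (gg h n x ^ 4 * (∫ y in x..R, 1 / (y * uu (x / y))) + ∫ y in x..R, gg h n y ^ 4 * (1 / (x * uu (x / y))))
      ≤ 1 / (4 * lam) * (gg h n x ^ 4 * Wh + ∫ y in x..R, gg h n y ^ 4 * (1 / (x * uu (x / y)))) := by
    apply mul_le_mul_of_nonneg_left _ (by positivity)
    linarith
  exact add_le_add a1 a3

lemma Th_int (n : ℕ) : IntervalIntegrable (fun x => gg h n x * Th H h R n x) volume 0 R := by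
  have hgc := gg_cont hh n
  have hvc : ∀ j, Continuous (vv h R n j) := fun j => vv_cont hh n j
  have hHc := hH.cont
  have e2 : (fun x => gg h n x * Th H h R n x)
      = fun x => ∑ j ∈ range n, r n j * (H x * gg h n x * vv h R n j x)
        + ∑ i ∈ range n, ∑ j ∈ range n, r n i * r n j * (J H (i + j) x * gg h n x * vv h R n j x) := by
    funext x
    unfold Th S
    rw [sum_comm (f := fun i j => r n i * r n j * (J H (i + j) x * gg h n x * vv h R n j x)), mul_sum, ← sum_add_distrib]
    refine sum_congr rfl fun j _ => ?_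
    have a1 : ∑ i ∈ range n, r n i * r n j * (J H (i + j) x * gg h n x * vv h R n j x)
        = r n j * gg h n x * vv h R n j x * ∑ i ∈ range n, r n i * J H (i + j) x := by
      rw [mul_sum]; exact sum_congr rfl fun i _ => by ring
    rw [a1]; ring
  rw [e2]
  have s2 : IntervalIntegrable (fun x => ∑ j ∈ range n, r n j * (H x * gg h n x * vv h R n j x)) volume 0 R :=
    isum _ fun j _ => (continuous_const.mul ((hHc.mul hgc).mul (hvc j))).intervalIntegrable _ _
  have s4 : IntervalIntegrable (fun x => ∑ i ∈ range n, ∑ j ∈ range n, r n i * r n j * (J H (i + j) x * gg h n x * vv h R n j x)) volume 0 R :=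
    isum _ fun i hi => isum _ fun j _ => (JG_int hH hh (mem_range.1 hi)).const_mul _
  exact s2.add s4

omit hh in
lemma BB_int (n : ℕ) : IntegrableOn (fun x => Bf n (fun j => r n j * S H n j x) 1) (Set.Ioi 0) ∧
    ∫ x in Set.Ioi 0, Bf n (fun j => r n j * S H n j x) 1 = 1 / 2 * Lin n (Rf H 1) (rho H) := by
  have e1 : (fun x => Bf n (fun j => r n j * S H n j x) 1)
      = fun x => ∑ j ∈ range n, ∑ l ∈ range n, (r n j * r n l * bb (j + l)) * (S H n j x * S H n l x) := by
    funext x
    unfold Bf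
    refine sum_congr rfl fun j _ => sum_congr rfl fun l _ => ?_
    rw [be_one]; ring
  rw [e1]
  constructor
  · exact integrable_finsetSum _ fun j _ => integrable_finsetSum _ fun l _ => (SSint hH n j l).const_mul _
  · rw [integral_finsetSum _ fun j _ => integrable_finsetSum _ fun l _ => (SSint hH n j l).const_mul _]
    unfold Lin
    rw [← mul_assoc]
    norm_num
    refine sum_congr rfl fun j _ => ?_
    rw [integral_finsetSum _ fun l _ => (SSint hH n j l).const_mul _]
    refine sum_congr rfl fun l _ => ?_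
    rw [integral_const_mul, SS_eq hH]

lemma CS (n : ℕ) {lam : ℝ} (hl : 0 < lam) :
    ∫ x in (0:ℝ)..R, gg h n x * Th H h R n x ≤ lam / 4 * Lin n (Rf H 1) (rho H)
      + 1 / (2 * lam) * (Wh * ∫ x in (0:ℝ)..R, gg h n x ^ 4) := by
  have hR := hH.pos
  set b : ℝ := ∫ x in (0:ℝ)..R, gg h n x ^ 4 with hb
  have hb0 : 0 ≤ b := intervalIntegral.integral_nonneg hR.le fun x _ => by positivity
  have hW := Wh_nonneg
  obtain ⟨q1, q2⟩ := BB_int hH n
  set BB : ℝ → ℝ := fun x => Bf n (fun j => r n j * S H n j x) 1 with hBB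
  have hg4 : Continuous fun x => gg h n x ^ 4 := (gg_cont hh n).pow 4
  have g4i : IntegrableOn (fun x => gg h n x ^ 4) (Set.Ioo 0 R) :=
    (hg4.integrableOn_Icc (a := 0) (b := R)).mono_set Set.Ioo_subset_Icc_self
  have hb' : ∫ x in Set.Ioo 0 R, gg h n x ^ 4 = b := by
    rw [hb, intervalIntegral.integral_of_le hR.le, integral_Ioc_eq_integral_Ioo]
  have hsub : Set.Ioo 0 R ⊆ Set.Ioi 0 := fun x hx => hx.1
  have fi : IntegrableOn (fun x => gg h n x * Th H h R n x) (Set.Ioo 0 R) :=
    ((intervalIntegrable_iff_integrableOn_Ioc_of_le hR.le).1 (Th_int hH hh n)).mono_set Set.Ioo_subset_Ioc_self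
  set A1 : ℝ → ℝ := fun x => lam / 2 * BB x + 1 / (4 * lam) * (gg h n x ^ 4 * Wh) with hA1
  have a1 : IntegrableOn (fun x => lam / 2 * BB x) (Set.Ioo 0 R) := (q1.mono_set hsub).const_mul _
  have a2 : IntegrableOn (fun x => 1 / (4 * lam) * (gg h n x ^ 4 * Wh)) (Set.Ioo 0 R) := (g4i.mul_const _).const_mul _
  have A1i : IntegrableOn A1 (Set.Ioo 0 R) := a1.add a2
  have hφi : IntegrableOn (fun x => gg h n x * Th H h R n x - A1 x) (Set.Ioo 0 R) := fi.sub A1i
  have hlin : ∫⁻ x in Set.Ioo 0 R, ENNReal.ofReal (gg h n x * Th H h R n x - A1 x)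
      ≤ ENNReal.ofReal (1 / (4 * lam) * (Wh * b)) := by
    calc ∫⁻ x in Set.Ioo 0 R, ENNReal.ofReal (gg h n x * Th H h R n x - A1 x)
        ≤ ∫⁻ x in Set.Ioo 0 R, ENNReal.ofReal (1 / (4 * lam)) * ∫⁻ y in Set.Ioo x R,
          ENNReal.ofReal (gg h n y ^ 4) * ENNReal.ofReal (1 / (x * uu (x / y))) := by
          refine setLIntegral_mono' measurableSet_Ioo fun x hx => ?_
          have h1 := pt (H := H) hh (n := n) hx.1 hx.2 hl
          have h2 : gg h n x * Th H h R n x - A1 x ≤ 1 / (4 * lam) * ∫ y in x..R, gg h n y ^ 4 * (1 / (x * uu (x / y))) := by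
            rw [hA1]; simp only
            rw [hBB]; simp only
            linarith
          refine (ENNReal.ofReal_le_ofReal h2).trans ?_
          rw [ENNReal.ofReal_mul (by positivity)]
          apply le_of_eq
          congr 1
          have t1 := T_int hh (n := n) hx.1 hx.2
          rw [intervalIntegral.integral_of_le hx.2.le, integral_Ioc_eq_integral_Ioo, ofReal_integral_eq_lintegral_ofReal]
          · refine lintegral_congr fun y => ?_
            rw [ENNReal.ofReal_mul (by positivity)]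
          · exact ((intervalIntegrable_iff_integrableOn_Ioc_of_le hx.2.le).1 t1).mono_set Set.Ioo_subset_Ioc_self
          · refine (ae_restrict_iff' measurableSet_Ioo).2 (Eventually.of_forall fun y hy => ?_)
            have hy0 : 0 < y := hx.1.trans hy.1
            have := uu_pos (div_pos hx.1 hy0)
            have hx0 := hx.1
            simp only [Pi.zero_apply]
            positivity
      _ = ENNReal.ofReal (1 / (4 * lam)) * ∫⁻ x in Set.Ioo 0 R, ∫⁻ y in Set.Ioo x R,
          ENNReal.ofReal (gg h n y ^ 4) * ENNReal.ofReal (1 / (x * uu (x / y))) := by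
          rw [lintegral_const_mul' _ _ ENNReal.ofReal_ne_top]
      _ ≤ ENNReal.ofReal (1 / (4 * lam)) * (ENNReal.ofReal Wh * ∫⁻ y in Set.Ioo 0 R, ENNReal.ofReal (gg h n y ^ 4)) := by
          gcongr
          exact tonelli hg4 R
      _ = ENNReal.ofReal (1 / (4 * lam) * (Wh * b)) := by
          rw [ENNReal.ofReal_mul (by positivity), ENNReal.ofReal_mul hW, ← hb', ofReal_integral_eq_lintegral_ofReal g4i]
          exact Eventually.of_forall fun x => by simp only [Pi.zero_apply]; positivity
  have h3 := real_le (μ := volume.restrict (Set.Ioo 0 R)) hφi (by positivity) hlin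
  rw [integral_sub fi A1i] at h3
  have h4 : ∫ x in Set.Ioo 0 R, A1 x = lam / 2 * (∫ x in Set.Ioo 0 R, BB x) + 1 / (4 * lam) * (b * Wh) := by
    rw [← hb', ← integral_mul_const, ← integral_const_mul, ← integral_const_mul]
    exact integral_add a1 a2
  have h5 : ∫ x in Set.Ioo 0 R, BB x ≤ 1 / 2 * Lin n (Rf H 1) (rho H) := by
    rw [← q2]
    apply setIntegral_mono_set q1
    · exact Eventually.of_forall fun x => Bf_nonneg n _ (by norm_num)
    · exact hsub.eventuallyLE
  have h6 : ∫ x in (0:ℝ)..R, gg h n x * Th H h R n x = ∫ x in Set.Ioo 0 R, gg h n x * Th H h R n x := by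
    rw [intervalIntegral.integral_of_le hR.le, integral_Ioc_eq_integral_Ioo]
  rw [h6]
  rw [h4] at h3
  have h7 := mul_le_mul_of_nonneg_left h5 (by positivity : 0 ≤ lam / 2)
  have h8 : 1 / (2 * lam) * (Wh * b) = 1 / (4 * lam) * (Wh * b) + 1 / (4 * lam) * (b * Wh) := by
    field_simp
    ring
  rw [h8]
  linarith

end

end Pool.Agent.R227.BT
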