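import Pool.Agent.R227.BT13
import Pool.Agent.Y282.RB.Stm

/-!
# Powers of the Beurling transform on the angular class, `p = 4`: the half-line inequality (helper227)
-/

set_option autoImplicit false

namespace Pool.Agent.R227.BT

open Finset MeasureTheory Filter Topology

lemma ioi_eq {f : ℝ → ℝ} {R : ℝ} (hR : 0 < R) (hf : ∀ x, R ≤ x → f x = 0) :
    ∫ x in Set.Ioi 0, f x = ∫ x in (0:ℝ)..R, f x := by
  rw [intervalIntegral.integral_of_le hR.le]
  refine (setIntegral_eq_of_subset_of_forall_sdiff_eq_zero measurableSet_Ioi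
    (fun x hx => hx.1) fun x hx => ?_)
  have h1 : R < x := by
    by_contra hcon
    exact hx.2 ⟨hx.1, not_lt.1 hcon⟩
  exact hf x h1.le

/-- the inequality with fourth powers -/
lemma main_real {n : ℕ} (hn : 500 ≤ n) {h : ℝ → ℝ} (hh : ContDiff ℝ (⊤ : ℕ∞) h) {R : ℝ} (hR : 0 < R)
    (hv : ∀ x, R ≤ x → ∀ n, iteratedDeriv n h x = 0)
    (hv2 : ∀ x, R ≤ x → iteratedDeriv n (fun t => t ^ n * h t) x = 0) :
    ∫ x in (0:ℝ)..R, (iteratedDeriv n (fun t => t ^ n * h t) x) ^ 4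
      ≤ 81 * (n : ℝ) ^ 2 * ∫ x in (0:ℝ)..R, gg h n x ^ 4 := by
  set G : ℝ → ℝ := iteratedDeriv n (fun t => t ^ n * h t) with hG
  have hGs : ContDiff ℝ (⊤ : ℕ∞) (fun t : ℝ => t ^ n * h t) := (contDiff_id.pow n).mul hh
  have hGc : Continuous G := iter_cont hGs n
  have hgc := gg_cont hh n
  have hH : Hyp (fun x => G x ^ 2) R :=
    { cont := hGc.pow 2
      nn := fun x => sq_nonneg _
      van := fun x hx => by rw [hv2 x hx]; norm_num
      pos := hR }
  set H : ℝ → ℝ := fun x => G x ^ 2 with hHd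
  set a : ℝ := ∫ x in (0:ℝ)..R, G x ^ 4 with ha
  set b : ℝ := ∫ x in (0:ℝ)..R, gg h n x ^ 4 with hb
  have hrep := rep hh R (fun k => hv R le_rfl k) n
  have hbil := bilin hH hh (R := R) n
  have ha0 : 0 ≤ a := intervalIntegral.integral_nonneg hR.le fun x _ => by positivity
  have hb0 : 0 ≤ b := intervalIntegral.integral_nonneg hR.le fun x _ => by positivity
  have hRf : Rf H 1 = a := by
    rw [← HH_eq, ioi_eq hR]
    · rw [ha]
      refine intervalIntegral.integral_congr fun x _ => ?_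
      rw [hHd]; ring
    · intro x hx
      rw [hH.van x hx, zero_mul]
  have e1 : ∫ x in (0:ℝ)..R, H x * (x ^ n * iteratedDeriv n h x + ∑ j ∈ range n, r n j * vv h R n j x) ^ 2 = a := by
    rw [ha]
    refine intervalIntegral.integral_congr fun x _ => ?_
    have h1 : x ^ n * iteratedDeriv n h x + ∑ j ∈ range n, r n j * vv h R n j x = G x := by
      rw [hG, hrep x]
      rfl
    rw [h1, hHd]
    ring
  rw [e1] at hbil
  have hn1 : (500 : ℝ) ≤ n := by exact_mod_cast hn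
  have hn0 : (0 : ℝ) < n := by linarith
  have e2 : ∫ x in (0:ℝ)..R, H x * (x ^ n * iteratedDeriv n h x) ^ 2 ≤ 1 / (18 * (n : ℝ)) * a + 9 * n / 2 * b := by
    have h1 : ∫ x in (0:ℝ)..R, H x * (x ^ n * iteratedDeriv n h x) ^ 2
        ≤ ∫ x in (0:ℝ)..R, (1 / (18 * (n : ℝ)) * G x ^ 4 + 9 * n / 2 * gg h n x ^ 4) := by
      apply intervalIntegral.integral_mono_on hR.le
      · exact (hH.cont.mul (hgc.pow 2)).intervalIntegrable _ _
      · exact ((continuous_const.mul (hGc.pow 4)).add (continuous_const.mul (hgc.pow 4))).intervalIntegrable _ _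
      · intro x _
        have h2 : 1 / (18 * (n : ℝ)) * G x ^ 4 + 9 * n / 2 * gg h n x ^ 4 - G x ^ 2 * gg h n x ^ 2
            = (G x ^ 2 - 9 * n * gg h n x ^ 2) ^ 2 / (18 * n) := by
          field_simp
          ring
        have h3 : 0 ≤ (G x ^ 2 - 9 * n * gg h n x ^ 2) ^ 2 / (18 * (n : ℝ)) := by positivity
        have h4 : H x * (x ^ n * iteratedDeriv n h x) ^ 2 = G x ^ 2 * gg h n x ^ 2 := rfl
        rw [h4]
        linarith
    have i1 : IntervalIntegrable (fun x => 1 / (18 * (n : ℝ)) * G x ^ 4) volume 0 R :=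
      (continuous_const.mul (hGc.pow 4)).intervalIntegrable _ _
    have i2 : IntervalIntegrable (fun x => 9 * (n : ℝ) / 2 * gg h n x ^ 4) volume 0 R :=
      (continuous_const.mul (hgc.pow 4)).intervalIntegrable _ _
    rw [intervalIntegral.integral_add i1 i2, intervalIntegral.integral_const_mul, intervalIntegral.integral_const_mul] at h1
    exact h1
  have hl : (0:ℝ) < 58 / 225 / (n : ℝ) ^ 2 := by positivity
  have e3 := CS hH hh n hl
  have e3' : ∫ x in (0:ℝ)..R, (x ^ n * iteratedDeriv n h x) * ∑ j ∈ range n, r n j * (S H n j x * vv h R n j x)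
      ≤ 58 / 225 / (n : ℝ) ^ 2 / 4 * Lin n (Rf H 1) (rho H) + 1 / (2 * (58 / 225 / (n : ℝ) ^ 2)) * (Wh * b) := e3
  have hK := KB hH n (by omega)
  have hF := form_bound hn (Rf H 1) (rho H) (rho_nonneg hH) (rho_le hH) hK
  have hE := E_le hn
  rw [hRf] at hF e3'
  have hF2 : Lin n a (rho H) ≤ (n : ℝ) ^ 2 * a * (38876 / 10000) :=
    hF.trans (mul_le_mul_of_nonneg_left hE (by positivity))
  have hW := Wh_le
  have e4 : 58 / 225 / (n : ℝ) ^ 2 / 4 * Lin n a (rho H) ≤ 58 / 900 * (38876 / 10000) * a := by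
    calc 58 / 225 / (n : ℝ) ^ 2 / 4 * Lin n a (rho H)
        ≤ 58 / 225 / (n : ℝ) ^ 2 / 4 * ((n : ℝ) ^ 2 * a * (38876 / 10000)) := by gcongr
      _ = _ := by field_simp; ring
  have e5 : 1 / (2 * (58 / 225 / (n : ℝ) ^ 2)) * (Wh * b) ≤ 225 / 116 * (104129 / 10000) * (n : ℝ) ^ 2 * b := by
    have h1 : 1 / (2 * (58 / 225 / (n : ℝ) ^ 2)) = 225 / 116 * (n : ℝ) ^ 2 := by
      field_simp
      norm_num
    rw [h1]
    have := mul_le_mul_of_nonneg_right hW (by positivity : 0 ≤ 225 / 116 * (n : ℝ) ^ 2 * b)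
    linarith
  have e6 : 1 / (18 * (n : ℝ)) * a ≤ 1 / 9000 * a := by
    apply mul_le_mul_of_nonneg_right _ ha0
    apply one_div_le_one_div_of_le (by norm_num)
    linarith
  have e7 : 9 * (n : ℝ) / 2 * b ≤ 9 / 1000 * (n : ℝ) ^ 2 * b := by
    apply mul_le_mul_of_nonneg_right _ hb0
    nlinarith
  have hnb : 0 ≤ (n : ℝ) ^ 2 * b := by positivity
  nlinarith

end Pool.Agent.R227.BT
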