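import Pool.Agent.R227.BT14

/-!
# Powers of the Beurling transform on the angular class, `p = 4`: the one-dimensional inequality (helper227)
-/

set_option autoImplicit false

namespace Pool.Agent.R227.BT

open Finset MeasureTheory Filter Topology

lemma abs_four (y : ℝ) : |y| ^ (4 : ℝ) = y ^ 4 := by
  have h : (4 : ℝ) = ((4 : ℕ) : ℝ) := by norm_num
  rw [h, Real.rpow_natCast]
  exact Even.pow_abs (by decide) y

/-- the one-dimensional inequality with constant `3 √n` -/
theorem oneD {n : ℕ} (hn : 500 ≤ n) : Y282.RB.OneD n 4 (3 * Real.sqrt n) := by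
  intro h hh hR
  obtain ⟨R, hR⟩ := hR
  set R' : ℝ := max R 0 + 1 with hR'
  have hlt : ∀ x, R' ≤ x → R < x := fun x hx => by
    have h1 : R ≤ max R 0 := le_max_left _ _
    linarith
  have hpos : 0 < R' := by
    have h1 : (0:ℝ) ≤ max R 0 := le_max_right _ _
    linarith
  have hv : ∀ x, R' ≤ x → ∀ n, iteratedDeriv n h x = 0 := fun x hx n =>
    van_iter (R := R) (fun x hx => hR x hx.le) n x (hlt x hx)
  have hv2 : ∀ x, R' ≤ x → iteratedDeriv n (fun t => t ^ n * h t) x = 0 := fun x hx =>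
    van_iter (R := R) (f := fun t => t ^ n * h t) (fun x hx => by simp [hR x hx.le]) n x (hlt x hx)
  have hmain := main_real hn hh hpos hv hv2
  have e1 : ∫ x in Set.Ioi (0 : ℝ), |iteratedDeriv n (fun t => t ^ n * h t) x| ^ (4 : ℝ)
      = ∫ x in (0:ℝ)..R', (iteratedDeriv n (fun t => t ^ n * h t) x) ^ 4 := by
    rw [← ioi_eq hpos]
    · refine integral_congr_ae (Eventually.of_forall fun x => ?_)
      exact abs_four _
    · intro x hx
      rw [hv2 x hx]
      norm_num
  have e2 : ∫ x in Set.Ioi (0 : ℝ), |x ^ n * iteratedDeriv n h x| ^ (4 : ℝ)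
      = ∫ x in (0:ℝ)..R', gg h n x ^ 4 := by
    rw [← ioi_eq hpos]
    · refine integral_congr_ae (Eventually.of_forall fun x => ?_)
      exact abs_four _
    · intro x hx
      show (x ^ n * iteratedDeriv n h x) ^ 4 = 0
      rw [hv x hx n]
      norm_num
  have e3 : (3 * Real.sqrt n) ^ (4 : ℝ) = 81 * (n : ℝ) ^ 2 := by
    have h : (4 : ℝ) = ((4 : ℕ) : ℝ) := by norm_num
    rw [h, Real.rpow_natCast, mul_pow]
    have h2 : Real.sqrt n ^ 4 = (n : ℝ) ^ 2 := by
      have h3 : Real.sqrt (n : ℝ) ^ 2 = n := Real.sq_sqrt (Nat.cast_nonneg n)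
      calc Real.sqrt (n : ℝ) ^ 4 = (Real.sqrt (n : ℝ) ^ 2) ^ 2 := by ring
        _ = (n : ℝ) ^ 2 := by rw [h3]
    rw [h2]
    norm_num
  rw [e1, e2, e3]
  exact hmain

end Pool.Agent.R227.BT
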