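import Pool.Agent.R227.BT15
import Pool.Agent.Y282.RB.A
import Pool.Agent.Y282.RB.A1
import Pool.Agent.Y282.RB.A2
import Pool.Agent.Y282.RB.A3
import Pool.Agent.Y282.RB.A4
import Pool.Agent.Y282.RB.K

/-!
# Powers of the Beurling transform on the angular class, `p = 4`: the plane (helper227)
-/

set_option autoImplicit false

namespace Pool.Agent.R227.BT

open MeasureTheory

theorem schw4 {n : ℕ} (hn : 500 ≤ n) (f : SchwartzMap ℂ ℂ) (hf : Y282.RB.Ang n f) :
    eLpNorm (Y282.RB.Tn n f) (ENNReal.ofReal 4) (volume : Measure ℂ)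
      ≤ ENNReal.ofReal (3 * Real.sqrt n) * eLpNorm (⇑f) (ENNReal.ofReal 4) (volume : Measure ℂ) :=
  Y282.RB.K.main n 4 (3 * Real.sqrt n) (by omega) (by norm_num) (by positivity)
    (fun g hg hs => Y282.RB.A.main Y282.RB.A1.main Y282.RB.A2.main Y282.RB.A3.main Y282.RB.A4.main
      n 4 (3 * Real.sqrt n) (by norm_num) (by positivity) (oneD hn) g hg hs) f hf

end Pool.Agent.R227.BT
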