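import Pool.Agent.Y282.RB.Stm

/-!
# Powers of the Beurling transform on the angular class, `p = 4`: the constant (helper227)
-/

set_option autoImplicit false

namespace Pool.Agent.R227.BT

open Finset

lemma Cn_succ (n : ℕ) : Y282.RB.Cn 4 (n + 1) = Y282.RB.Cn 4 n * ((4 * (n : ℝ) + 3) / (4 * n + 1)) := by
  unfold Y282.RB.Cn
  rw [prod_range_succ]
  congr 1
  have h : (4 * (n : ℝ) + 1) ≠ 0 := by positivity
  have h2 : ((n : ℝ) + 1 / 4) ≠ 0 := by positivity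
  field_simp
  ring

lemma Cn_four : Y282.RB.Cn 4 4 = 77 / 13 := by
  unfold Y282.RB.Cn
  simp only [prod_range_succ, range_zero, prod_empty]
  norm_num

lemma Cn_nonneg (n : ℕ) : 0 ≤ Y282.RB.Cn 4 n := by
  unfold Y282.RB.Cn
  refine prod_nonneg fun j _ => ?_
  have h3 : (0 : ℝ) ≤ (j : ℝ) := Nat.cast_nonneg j
  apply div_nonneg <;> linarith

lemma Cn_sq {n : ℕ} (hn : 4 ≤ n) : 874 / 100 * ((n : ℝ) + 1 / 72) ≤ Y282.RB.Cn 4 n ^ 2 := by
  induction n, hn using Nat.le_induction with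
  | base => rw [Cn_four]; norm_num
  | succ n hn ih =>
    rw [Cn_succ, mul_pow]
    have hn4 : (4 : ℝ) ≤ n := by exact_mod_cast hn
    have h1 : 874 / 100 * ((n : ℝ) + 1 / 72) * ((4 * (n : ℝ) + 3) / (4 * n + 1)) ^ 2
        ≤ Y282.RB.Cn 4 n ^ 2 * ((4 * (n : ℝ) + 3) / (4 * n + 1)) ^ 2 :=
      mul_le_mul_of_nonneg_right ih (by positivity)
    refine le_trans ?_ h1
    rw [div_pow, ← mul_div_assoc, le_div_iff₀ (by positivity)]
    push_cast
    nlinarith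

/-- `3 √n ≤ 1.015 K(n, 4)` -/
lemma three_le {n : ℕ} (hn : 4 ≤ n) : 3 * Real.sqrt n ≤ 203 / 200 * Y282.RB.Cn 4 n := by
  have h1 := Cn_sq hn
  have h2 := Cn_nonneg n
  have h3 : Real.sqrt n ^ 2 = n := Real.sq_sqrt (Nat.cast_nonneg n)
  have hn4 : (4 : ℝ) ≤ n := by exact_mod_cast hn
  apply le_of_sq_le_sq _ (by positivity)
  rw [mul_pow, mul_pow, h3]
  nlinarith

end Pool.Agent.R227.BT
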