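import Pool.Agent.R227.BT14

/-!
# Powers of the Beurling transform on the angular class, `p = 4`: a sharper constant for large `n` (helper227)
-/

set_option autoImplicit false

namespace Pool.Agent.R227.BT

open Finset MeasureTheory Filter Topology

lemma H_le2 {n : ℕ} (hn : 10000 ≤ n) : H n ≤ 4 / 3 + (13 * Real.log 2 + (n : ℝ) / 8192 - 1) / 3 := by
  have h1 : H n ≤ 1 + 1 / 3 * ((harmonic n : ℚ) : ℝ) := by
    unfold H
    rw [sum_range_succ']
    have h2 : ∑ k ∈ range n, 1 / (3 * ((k + 1 : ℕ) : ℝ) + 1) ≤ 1 / 3 * ((harmonic n : ℚ) : ℝ) := by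
      rw [harmonic]
      push_cast
      rw [mul_sum]
      apply sum_le_sum
      intro k _
      rw [← one_div, div_mul_div_comm, one_mul]
      apply div_le_div_of_nonneg_left (by norm_num) (by positivity)
      linarith
    simp only [Nat.cast_zero, mul_zero, zero_add, div_one]
    linarith
  have h2 := harmonic_le_one_add_log n
  have hn0 : (0:ℝ) < n := by
    have : 0 < n := by omega
    exact_mod_cast this
  have h3 : Real.log n ≤ 13 * Real.log 2 + (n / 8192 - 1) := by
    have e1 : (n : ℝ) = 2 ^ 13 * (n / 8192) := by norm_num; ring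
    have e2 : Real.log n = 13 * Real.log 2 + Real.log (n / 8192) := by
      rw [e1, Real.log_mul (by positivity) (by positivity), Real.log_pow]
      norm_num
    rw [e2]
    have := Real.log_le_sub_one_of_pos (x := (n : ℝ) / 8192) (by positivity)
    linarith
  linarith

lemma E_le2 {n : ℕ} (hn : 10000 ≤ n) :
    2 * ∑ k ∈ range (2 * n), e k * bb k + 12 / 5 * (ph n / (n : ℝ) ^ 2) + 16 / 5 * loss n ≤ 384029 / 100000 := by
  have h1 := sum_ebb (2 * n) (by omega)
  have h2 := ph_le (n := n) (by omega)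
  have h3 := loss_le (n := n) (by omega)
  have h4 := H_le2 hn
  have h5 := Real.log_two_lt_d9
  have hn1 : (10000 : ℝ) ≤ n := by exact_mod_cast hn
  have hn0 : (0:ℝ) < n := by linarith
  have h6 : 12 / 5 * (H n / n) + 16 / 5 * (4 / 3 * ((H n + 1 / 3) / n)) ≤ 309 / 100000 := by
    have e1 : 12 / 5 * (H n / n) + 16 / 5 * (4 / 3 * ((H n + 1 / 3) / n)) = (20 / 3 * H n + 64 / 45) / n := by
      field_simp
      ring
    rw [e1, div_le_iff₀ hn0]
    nlinarith
  linarith

/-- the inequality with fourth powers -/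
lemma main_real2 {n : ℕ} (hn : 10000 ≤ n) {h : ℝ → ℝ} (hh : ContDiff ℝ (⊤ : ℕ∞) h) {R : ℝ} (hR : 0 < R)
    (hv : ∀ x, R ≤ x → ∀ n, iteratedDeriv n h x = 0)
    (hv2 : ∀ x, R ≤ x → iteratedDeriv n (fun t => t ^ n * h t) x = 0) :
    ∫ x in (0:ℝ)..R, (iteratedDeriv n (fun t => t ^ n * h t) x) ^ 4
      ≤ (89432 / 10000) ^ 2 * (n : ℝ) ^ 2 * ∫ x in (0:ℝ)..R, gg h n x ^ 4 := by
  set G : ℝ → ℝ := iteratedDeriv n (fun t => t ^ n * h t) with hG
  have hGs : ContDiff ℝ (⊤ : ℕ∞) (fun t : ℝ => t ^ n * h t) := (contDiff_id.pow n).mul hh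
  have hGc : Continuous G := iter_cont hGs n
  have hgc := gg_cont hh n
  have hH : Hyp (fun x => G x ^ 2) R :=
    { cont := hGc.pow 2
      nn := fun x => sq_nonneg _
      van := fun x hx => by rw [hv2 x hx]; norm_num
      pos := hR }
  set H : ℝ → ℝ := fun x => G x ^ 2 with hHd
  set a : ℝ := ∫ x in (0:ℝ)..R, G x ^ 4 with ha
  set b : ℝ := ∫ x in (0:ℝ)..R, gg h n x ^ 4 with hb
  have hrep := rep hh R (fun k => hv R le_rfl k) n
  have hbil := bilin hH hh (R := R) n
  have ha0 : 0 ≤ a := intervalIntegral.integral_nonneg hR.le fun x _ => by positivity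
  have hb0 : 0 ≤ b := intervalIntegral.integral_nonneg hR.le fun x _ => by positivity
  have hRf : Rf H 1 = a := by
    rw [← HH_eq, ioi_eq hR]
    · rw [ha]
      refine intervalIntegral.integral_congr fun x _ => ?_
      rw [hHd]; ring
    · intro x hx
      rw [hH.van x hx, zero_mul]
  have e1 : ∫ x in (0:ℝ)..R, H x * (x ^ n * iteratedDeriv n h x + ∑ j ∈ range n, r n j * vv h R n j x) ^ 2 = a := by
    rw [ha]
    refine intervalIntegral.integral_congr fun x _ => ?_
    have h1 : x ^ n * iteratedDeriv n h x + ∑ j ∈ range n, r n j * vv h R n j x = G x := by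
      rw [hG, hrep x]
      rfl
    rw [h1, hHd]
    ring
  rw [e1] at hbil
  have hn1 : (10000 : ℝ) ≤ n := by exact_mod_cast hn
  have hn0 : (0 : ℝ) < n := by linarith
  have e2 : ∫ x in (0:ℝ)..R, H x * (x ^ n * iteratedDeriv n h x) ^ 2 ≤ 1 / (2 * (89432 / 10000) * (n : ℝ)) * a + (89432 / 10000) * n / 2 * b := by
    have h1 : ∫ x in (0:ℝ)..R, H x * (x ^ n * iteratedDeriv n h x) ^ 2
        ≤ ∫ x in (0:ℝ)..R, (1 / (2 * (89432 / 10000) * (n : ℝ)) * G x ^ 4 + (89432 / 10000) * n / 2 * gg h n x ^ 4) := by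
      apply intervalIntegral.integral_mono_on hR.le
      · exact (hH.cont.mul (hgc.pow 2)).intervalIntegrable _ _
      · exact ((continuous_const.mul (hGc.pow 4)).add (continuous_const.mul (hgc.pow 4))).intervalIntegrable _ _
      · intro x _
        have h2 : 1 / (2 * (89432 / 10000) * (n : ℝ)) * G x ^ 4 + (89432 / 10000) * n / 2 * gg h n x ^ 4 - G x ^ 2 * gg h n x ^ 2
            = (G x ^ 2 - (89432 / 10000) * n * gg h n x ^ 2) ^ 2 / (2 * (89432 / 10000) * n) := by
          field_simp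
          ring
        have h3 : 0 ≤ (G x ^ 2 - (89432 / 10000) * n * gg h n x ^ 2) ^ 2 / (2 * (89432 / 10000) * (n : ℝ)) := by positivity
        have h4 : H x * (x ^ n * iteratedDeriv n h x) ^ 2 = G x ^ 2 * gg h n x ^ 2 := rfl
        rw [h4]
        linarith
    have i1 : IntervalIntegrable (fun x => 1 / (2 * (89432 / 10000) * (n : ℝ)) * G x ^ 4) volume 0 R :=
      (continuous_const.mul (hGc.pow 4)).intervalIntegrable _ _
    have i2 : IntervalIntegrable (fun x => (89432 / 10000) * (n : ℝ) / 2 * gg h n x ^ 4) volume 0 R :=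
      (continuous_const.mul (hgc.pow 4)).intervalIntegrable _ _
    rw [intervalIntegral.integral_add i1 i2, intervalIntegral.integral_const_mul, intervalIntegral.integral_const_mul] at h1
    exact h1
  have hl : (0:ℝ) < 651 / 2500 / (n : ℝ) ^ 2 := by positivity
  have e3 := CS hH hh n hl
  have e3' : ∫ x in (0:ℝ)..R, (x ^ n * iteratedDeriv n h x) * ∑ j ∈ range n, r n j * (S H n j x * vv h R n j x)
      ≤ 651 / 2500 / (n : ℝ) ^ 2 / 4 * Lin n (Rf H 1) (rho H) + 1 / (2 * (651 / 2500 / (n : ℝ) ^ 2)) * (Wh * b) := e3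
  have hK := KB hH n (by omega)
  have hF := form_bound (n := n) (by omega) (Rf H 1) (rho H) (rho_nonneg hH) (rho_le hH) hK
  have hE := E_le2 hn
  rw [hRf] at hF e3'
  have hF2 : Lin n a (rho H) ≤ (n : ℝ) ^ 2 * a * (384029 / 100000) :=
    hF.trans (mul_le_mul_of_nonneg_left hE (by positivity))
  have hW := Wh_le
  have e4 : 651 / 2500 / (n : ℝ) ^ 2 / 4 * Lin n a (rho H) ≤ 651 / 10000 * (384029 / 100000) * a := by
    calc 651 / 2500 / (n : ℝ) ^ 2 / 4 * Lin n a (rho H)
        ≤ 651 / 2500 / (n : ℝ) ^ 2 / 4 * ((n : ℝ) ^ 2 * a * (384029 / 100000)) := by gcongr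
      _ = _ := by field_simp; ring
  have e5 : 1 / (2 * (651 / 2500 / (n : ℝ) ^ 2)) * (Wh * b) ≤ 2500 / 1302 * (104129 / 10000) * (n : ℝ) ^ 2 * b := by
    have h1 : 1 / (2 * (651 / 2500 / (n : ℝ) ^ 2)) = 2500 / 1302 * (n : ℝ) ^ 2 := by
      field_simp
      norm_num
    rw [h1]
    have := mul_le_mul_of_nonneg_right hW (by positivity : 0 ≤ 2500 / 1302 * (n : ℝ) ^ 2 * b)
    linarith
  have e6 : 1 / (2 * (89432 / 10000) * (n : ℝ)) * a ≤ 1 / 178864 * a := by
    apply mul_le_mul_of_nonneg_right _ ha0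
    apply one_div_le_one_div_of_le (by norm_num)
    linarith
  have e7 : (89432 / 10000) * (n : ℝ) / 2 * b ≤ (89432 / 200000000) * (n : ℝ) ^ 2 * b := by
    apply mul_le_mul_of_nonneg_right _ hb0
    nlinarith
  have hnb : 0 ≤ (n : ℝ) ^ 2 * b := by positivity
  nlinarith

end Pool.Agent.R227.BT
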