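import Pool.Agent.R227.BT1

/-!
# Powers of the Beurling transform on the angular class, `p = 4`: coefficients (helper227)
-/

set_option autoImplicit false

namespace Pool.Agent.R227.BT

open Finset

lemma r_rec' {n j : ℕ} (hj : j < n) :
    r (n + 1) j = r n j + (2 * n + 1) * (r n j / (-(n : ℝ) + j)) := by
  rw [r_rec hj]
  have a2 : (n : ℝ) - j ≠ 0 := by
    have : (j : ℝ) < n := by exact_mod_cast hj
    intro h; linarith
  have a4 : -(n : ℝ) + j = -((n : ℝ) - j) := by ring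
  rw [a4]
  field_simp
  ring

lemma neg_ne {n j : ℕ} (hj : j < n) : -(n : ℝ) + j ≠ 0 := by
  have : (j : ℝ) < n := by exact_mod_cast hj
  intro h; linarith

lemma sum_r (n : ℕ) : ∑ j ∈ range n, r n j = -(n : ℝ) ^ 2 := by
  induction n with
  | zero => simp
  | succ n ih =>
    have h2 := pf n (-(n : ℝ)) (fun j hj => neg_ne hj)
    rw [sum_range_succ, r_last, ← h2]
    have h3 : ∑ j ∈ range n, r (n + 1) j
        = ∑ j ∈ range n, (r n j + (2 * n + 1) * (r n j / (-(n : ℝ) + j))) :=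
      sum_congr rfl fun j hj => r_rec' (mem_range.1 hj)
    rw [h3, sum_add_distrib, ← mul_sum, ih]
    push_cast
    ring

lemma pf_pos (n : ℕ) {s : ℝ} (hs : 0 < s) : 1 + ∑ j ∈ range n, r n j / (s + j) = m n s :=
  pf n s (fun j _ => by positivity)

lemma m_shift (n : ℕ) {x : ℝ} (hx : 0 < x) :
    m n (x + 1) * ((x - n) * (x + n)) = m n x * x ^ 2 := by
  induction n with
  | zero => simp [m]; ring
  | succ n ih =>
    rw [m_succ, m_succ]
    have h1 : x + n ≠ 0 := by positivity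
    have h2 : x + 1 + n ≠ 0 := by positivity
    push_cast
    have h3 : m n (x + 1) * ((x + 1 - n - 1) / (x + 1 + n)) * ((x - (n + 1)) * (x + (n + 1)))
        = (m n (x + 1) * ((x - n) * (x + n))) * ((x - (n + 1)) / (x + n)) := by
      field_simp
      ring
    rw [h3, ih]
    field_simp
    ring

/-- the modulus of the symbol -/
noncomputable def mu (n : ℕ) (s : ℝ) : ℝ := ∏ j ∈ range n, ((j + 1 - s) / (s + j))

lemma m_eq_mu (n : ℕ) (s : ℝ) : m n s = (-1) ^ n * mu n s := by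
  unfold m mu
  induction n with
  | zero => simp
  | succ n ih =>
    rw [prod_range_succ, prod_range_succ, ih, pow_succ]
    ring

lemma mu_mul (n : ℕ) {s : ℝ} (h0 : 0 < s) (h1 : s < 1) : mu n s * mu n (1 - s) = 1 := by
  unfold mu
  rw [← prod_mul_distrib]
  refine prod_eq_one fun j _ => ?_
  have a1 : s + j ≠ 0 := by positivity
  have a2 : 1 - s + j ≠ 0 := by
    have : (0 : ℝ) ≤ j := Nat.cast_nonneg j
    intro h; linarith
  have e1 : ((j : ℝ) + 1 - s) = 1 - s + j := by ring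
  have e2 : ((j : ℝ) + 1 - (1 - s)) = s + j := by ring
  rw [e1, e2, div_mul_div_comm]
  field_simp

/-- normalised coefficients -/
noncomputable def A (n : ℕ) (s : ℝ) (j : ℕ) : ℝ :=
  ∏ i ∈ range j, ((s + i) ^ 2 * ((n : ℝ) ^ 2 - (i + 1) ^ 2) / ((i + 1) ^ 2 * ((n : ℝ) ^ 2 - (s + i) ^ 2)))

lemma A_zero (n : ℕ) (s : ℝ) : A n s 0 = 1 := by simp [A]

lemma A_succ (n : ℕ) (s : ℝ) (j : ℕ) : A n s (j + 1) = A n s j *
    ((s + j) ^ 2 * ((n : ℝ) ^ 2 - (j + 1) ^ 2) / ((j + 1) ^ 2 * ((n : ℝ) ^ 2 - (s + j) ^ 2))) := by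
  unfold A; rw [prod_range_succ]

lemma A_big (n : ℕ) (hn : 1 ≤ n) (s : ℝ) (j : ℕ) (hj : n ≤ j) : A n s j = 0 := by
  unfold A
  refine prod_eq_zero (i := n - 1) (mem_range.2 (by omega)) ?_
  have : ((n - 1 : ℕ) : ℝ) + 1 = n := by
    rw [Nat.cast_sub hn]; push_cast; ring
  rw [this]
  simp

lemma r_step {n j : ℕ} (hj : j + 1 < n) :
    r n (j + 1) * ((j : ℝ) + 1) ^ 2 = -r n j * ((n : ℝ) ^ 2 - (j + 1) ^ 2) := by
  unfold r
  obtain ⟨k, rfl⟩ : ∃ k, n = j + 2 + k := ⟨n - j - 2, by omega⟩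
  have e1 : j + 2 + k + (j + 1) = (j + 2 + k + j) + 1 := by ring
  have e2 : j + 2 + k - 1 - j = k + 1 := by omega
  have e3 : j + 2 + k - 1 - (j + 1) = k := by omega
  rw [e1, e2, e3, Nat.factorial_succ, Nat.factorial_succ k, Nat.factorial_succ j, pow_succ]
  have h1 : ((j.factorial : ℕ) : ℝ) ≠ 0 := by positivity
  have h2 : ((k.factorial : ℕ) : ℝ) ≠ 0 := by positivity
  have h3 : ((k : ℝ) + 1) ≠ 0 := by positivity
  have h4 : ((j : ℝ) + 1) ≠ 0 := by positivity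
  push_cast
  field_simp
  ring

lemma r_zero {n : ℕ} (hn : 1 ≤ n) : r n 0 = (-1) ^ n * n := by
  unfold r
  obtain ⟨k, rfl⟩ : ∃ k, n = k + 1 := ⟨n - 1, by omega⟩
  simp only [add_zero, Nat.factorial_zero, Nat.cast_one, one_pow, one_mul, Nat.add_sub_cancel,
    Nat.sub_zero]
  rw [Nat.factorial_succ]
  have h2 : ((k.factorial : ℕ) : ℝ) ≠ 0 := by positivity
  push_cast
  field_simp

lemma coef {n : ℕ} (hn : 1 ≤ n) {s : ℝ} (h0 : 0 < s) (h1 : s < 1) (j : ℕ) (hj : j < n) :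
    r n j * m n (s + j) = n * mu n s * A n s j := by
  induction j with
  | zero =>
    rw [A_zero, r_zero hn, Nat.cast_zero, add_zero, m_eq_mu]
    have : ((-1 : ℝ) ^ n) * ((-1) ^ n) = 1 := by
      rw [← mul_pow]; norm_num
    linear_combination (n * mu n s) * this
  | succ j ih =>
    have hj' : (j : ℝ) + 1 < n := by exact_mod_cast hj
    have hj0 : (0 : ℝ) ≤ j := Nat.cast_nonneg j
    have ih := ih (by omega)
    have hx : 0 < s + j := by positivity
    have h2 := m_shift n hx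
    have h3 := r_step hj
    have hne : (n : ℝ) ^ 2 - (s + j) ^ 2 ≠ 0 := by
      have : (s + j) ^ 2 < (n : ℝ) ^ 2 := by
        apply pow_lt_pow_left₀ (by linarith) hx.le (by norm_num)
      intro h; linarith
    have hj1 : (j : ℝ) + 1 ≠ 0 := by positivity
    rw [A_succ, ← mul_assoc, ← ih]
    push_cast
    have e : s + ((j : ℝ) + 1) = s + j + 1 := by ring
    rw [e]
    rw [← mul_div_assoc, eq_div_iff (by positivity)]
    have h4 : r n (j + 1) * m n (s + j + 1) * ((j + 1) ^ 2 * ((n : ℝ) ^ 2 - (s + j) ^ 2))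
        = -(r n (j + 1) * (j + 1) ^ 2) * (m n (s + j + 1) * ((s + j - n) * (s + j + n))) := by ring
    rw [h4, h2, h3]
    ring

lemma A_nonneg {n : ℕ} (hn : 1 ≤ n) {s : ℝ} (h0 : 0 < s) (h1 : s < 1) (j : ℕ) : 0 ≤ A n s j := by
  rcases Nat.lt_or_ge j n with h | h
  · unfold A
    refine prod_nonneg fun i hi => ?_
    have hi' : i + 1 ≤ j := mem_range.1 hi
    have : (i : ℝ) + 1 ≤ n := by
      have : i + 1 ≤ n := by omega
      exact_mod_cast this
    have hi0 : (0 : ℝ) ≤ i := Nat.cast_nonneg i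
    apply div_nonneg
    · apply mul_nonneg (sq_nonneg _)
      have := pow_le_pow_left₀ (by positivity) this 2
      linarith
    · apply mul_nonneg (sq_nonneg _)
      have := pow_le_pow_left₀ (by positivity) (by linarith : s + i ≤ n) 2
      linarith
  · rw [A_big n hn s j h]

lemma A_half {n : ℕ} (hn : 1 ≤ n) (j : ℕ) : A n (1 / 2) j ≤ 1 / (3 * j + 1) := by
  rcases Nat.lt_or_ge j n with h | h
  · induction j with
    | zero => rw [A_zero]; norm_num
    | succ j ih =>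
      have ih := ih (by omega)
      have hj' : (j : ℝ) + 1 < n := by exact_mod_cast h
      have hj0 : (0 : ℝ) ≤ j := Nat.cast_nonneg j
      rw [A_succ]
      have h1 : (0 : ℝ) < (n : ℝ) ^ 2 - (1 / 2 + j) ^ 2 := by nlinarith
      have h2 : ((1 / 2 + (j : ℝ)) ^ 2 * ((n : ℝ) ^ 2 - (j + 1) ^ 2) / ((j + 1) ^ 2 * ((n : ℝ) ^ 2 - (1 / 2 + j) ^ 2)))
          ≤ (1 / 2 + (j : ℝ)) ^ 2 / (j + 1) ^ 2 := by
        rw [div_le_div_iff₀ (by positivity) (by positivity)]
        have h3 : (0:ℝ) ≤ (1 / 2 + (j : ℝ)) ^ 2 * (j + 1) ^ 2 := by positivity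
        have h4 : ((n : ℝ) ^ 2 - (j + 1) ^ 2) ≤ ((n : ℝ) ^ 2 - (1 / 2 + j) ^ 2) := by nlinarith
        nlinarith [mul_le_mul_of_nonneg_left h4 h3]
      have hA := A_nonneg hn (s := 1 / 2) (by norm_num) (by norm_num) j
      calc _ ≤ A n (1 / 2) j * ((1 / 2 + (j : ℝ)) ^ 2 / (j + 1) ^ 2) := mul_le_mul_of_nonneg_left h2 hA
        _ ≤ 1 / (3 * j + 1) * ((1 / 2 + (j : ℝ)) ^ 2 / (j + 1) ^ 2) := by
          apply mul_le_mul_of_nonneg_right ih; positivity
        _ ≤ _ := by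
          push_cast
          rw [div_mul_div_comm, one_mul, div_le_div_iff₀ (by positivity) (by positivity)]
          nlinarith [mul_nonneg hj0 hj0]
  · rw [A_big n hn _ j h]; positivity

/-- the coefficients for `n = ∞`, `s = 7 / 10` -/
noncomputable def F (j : ℕ) : ℝ := ∏ i ∈ range j, ((7 / 10 + (i : ℝ)) / (1 + i)) ^ 2

lemma F_succ (j : ℕ) : F (j + 1) = F j * ((7 / 10 + (j : ℝ)) / (1 + j)) ^ 2 := by
  unfold F; rw [prod_range_succ]

lemma F_pos (j : ℕ) : 0 < F j := by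
  unfold F
  exact prod_pos fun i _ => by positivity

lemma A_low {n : ℕ} (j : ℕ) (hj : 2 * j ≤ n) (hn : 1 ≤ n) :
    (1 - 4 / 10 * ((j : ℝ) ^ 2 + 7 / 10 * j) / (n : ℝ) ^ 2) * F j ≤ A n (7 / 10) j := by
  have hn0 : (0 : ℝ) < n := by exact_mod_cast hn
  induction j with
  | zero => simp [A_zero, F]
  | succ j ih =>
    have ih := ih (by omega)
    have hj0 : (0 : ℝ) ≤ j := Nat.cast_nonneg j
    have hj2 : 2 * (j : ℝ) + 2 ≤ n := by
      have : 2 * j + 2 ≤ n := by omega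
      exact_mod_cast this
    rw [A_succ, F_succ]
    have hd : 3 / 4 * (n : ℝ) ^ 2 ≤ (n : ℝ) ^ 2 - (7 / 10 + j) ^ 2 := by nlinarith
    have hd0 : (0 : ℝ) < (n : ℝ) ^ 2 - (7 / 10 + j) ^ 2 := by nlinarith
    set b : ℝ := 4 / 10 * (2 * j + 17 / 10) / (n : ℝ) ^ 2 with hb
    have hb0 : 0 ≤ b := by positivity
    have hb1 : b ≤ 1 := by
      rw [hb, div_le_one (by positivity)]; nlinarith
    have h1 : ((7 / 10 + (j : ℝ)) / (1 + j)) ^ 2 * (1 - b)
        ≤ ((7 / 10 + (j : ℝ)) ^ 2 * ((n : ℝ) ^ 2 - (j + 1) ^ 2) / ((j + 1) ^ 2 * ((n : ℝ) ^ 2 - (7 / 10 + j) ^ 2))) := by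
      have e1 : ((7 / 10 + (j : ℝ)) ^ 2 * ((n : ℝ) ^ 2 - (j + 1) ^ 2) / ((j + 1) ^ 2 * ((n : ℝ) ^ 2 - (7 / 10 + j) ^ 2)))
          = ((7 / 10 + (j : ℝ)) / (1 + j)) ^ 2 * (((n : ℝ) ^ 2 - (j + 1) ^ 2) / ((n : ℝ) ^ 2 - (7 / 10 + j) ^ 2)) := by
        field_simp
        ring
      rw [e1]
      apply mul_le_mul_of_nonneg_left _ (by positivity)
      rw [le_div_iff₀ hd0]
      have h2 : b * (3 / 4 * (n : ℝ) ^ 2) = 3 / 10 * (2 * j + 17 / 10) := by
        rw [hb]; field_simp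
      have h3 := mul_le_mul_of_nonneg_left hd hb0
      nlinarith
    have hF := F_pos j
    set a : ℝ := 4 / 10 * ((j : ℝ) ^ 2 + 7 / 10 * j) / (n : ℝ) ^ 2 with ha
    have ha0 : 0 ≤ a := by positivity
    have hab : 4 / 10 * (((j + 1 : ℕ) : ℝ) ^ 2 + 7 / 10 * ((j + 1 : ℕ) : ℝ)) / (n : ℝ) ^ 2 = a + b := by
      rw [ha, hb]; push_cast; field_simp; ring
    rw [hab]
    have ha1 : a ≤ 1 := by
      rw [ha, div_le_one (by positivity)]; nlinarith
    have h5 : 1 - (a + b) ≤ (1 - a) * (1 - b) := by nlinarith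
    set q : ℝ := ((7 / 10 + (j : ℝ)) / (1 + j)) ^ 2 with hq
    have hq0 : 0 ≤ q := by positivity
    calc (1 - (a + b)) * (F j * q) ≤ ((1 - a) * (1 - b)) * (F j * q) := by
          apply mul_le_mul_of_nonneg_right h5; positivity
      _ = ((1 - a) * F j) * (q * (1 - b)) := by ring
      _ ≤ A n (7 / 10) j * (q * (1 - b)) := by
          apply mul_le_mul_of_nonneg_right ih
          apply mul_nonneg hq0; linarith
      _ ≤ _ := by
          apply mul_le_mul_of_nonneg_left h1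
          exact A_nonneg hn (by norm_num) (by norm_num) j

/-- harmonic-type sums -/
noncomputable def H (k : ℕ) : ℝ := ∑ i ∈ range (k + 1), 1 / (3 * (i : ℝ) + 1)

lemma H_succ (k : ℕ) : H (k + 1) = H k + 1 / (3 * (k : ℝ) + 4) := by
  unfold H
  rw [sum_range_succ _ (k + 1)]
  push_cast
  ring_nf

lemma H_mono {k : ℕ} (hk : 1 ≤ k) : 5 / 4 ≤ H k := by
  induction k with
  | zero => omega
  | succ k ih =>
    rw [H_succ]
    rcases Nat.eq_zero_or_pos k with rfl | h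
    · simp [H]; norm_num
    · have := ih h
      have : (0 : ℝ) ≤ 1 / (3 * (k : ℝ) + 4) := by positivity
      linarith

lemma H_pos (k : ℕ) : 0 < H k := by
  unfold H
  apply sum_pos
  · intro i _; positivity
  · exact ⟨0, by simp⟩

/-- `e_k = 2 H_k / (3 k + 2)` -/
noncomputable def e (k : ℕ) : ℝ := 2 / (3 * (k : ℝ) + 2) * H k

lemma e_pos (k : ℕ) : 0 < e k := by
  unfold e; have := H_pos k; positivity

lemma F_ge (k : ℕ) (hk : 1 ≤ k) : 9 / 10 * e k ≤ F k := by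
  induction k with
  | zero => omega
  | succ k ih =>
    rcases Nat.eq_zero_or_pos k with rfl | h
    · have : H 1 = 5 / 4 := by unfold H; simp [sum_range_succ]; norm_num
      have h2 : F 1 = 49 / 100 := by unfold F; simp; norm_num
      rw [zero_add, h2]
      unfold e
      rw [this]
      norm_num
    · have ih := ih h
      have hH := H_mono h
      have hk0 : (0 : ℝ) ≤ k := Nat.cast_nonneg k
      have hk1 : (1 : ℝ) ≤ k := by exact_mod_cast h
      rw [F_succ]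
      have h1 : e (k + 1) ≤ e k * ((7 / 10 + (k : ℝ)) / (1 + k)) ^ 2 := by
        unfold e
        rw [H_succ]
        push_cast
        have h3 : 1 / (3 * (k : ℝ) + 4) ≤ 4 / 5 / (3 * (k : ℝ) + 4) * H k := by
          rw [div_mul_eq_mul_div]
          apply div_le_div_of_nonneg_right _ (by positivity)
          linarith
        calc 2 / (3 * ((k : ℝ) + 1) + 2) * (H k + 1 / (3 * k + 4))
            ≤ 2 / (3 * ((k : ℝ) + 1) + 2) * (H k + 4 / 5 / (3 * (k : ℝ) + 4) * H k) := by gcongr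
          _ = H k * (2 / (3 * (k : ℝ) + 5) * (1 + 4 / 5 / (3 * (k : ℝ) + 4))) := by ring
          _ ≤ H k * (2 / (3 * (k : ℝ) + 2) * ((7 / 10 + (k : ℝ)) / (1 + k)) ^ 2) := by
            apply mul_le_mul_of_nonneg_left _ (H_pos k).le
            rw [div_pow, div_mul_div_comm]
            have e1 : 2 / (3 * (k : ℝ) + 5) * (1 + 4 / 5 / (3 * (k : ℝ) + 4))
                = 2 * (15 * k + 24) / (5 * ((3 * k + 5) * (3 * k + 4))) := by
              field_simp
              ring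
            rw [e1, div_le_div_iff₀ (by positivity) (by positivity)]
            obtain ⟨t, ht⟩ : ∃ t : ℝ, (k : ℝ) = 1 + t := ⟨k - 1, by ring⟩
            have ht0 : 0 ≤ t := by linarith
            rw [ht]
            nlinarith [mul_nonneg ht0 ht0, mul_nonneg ht0 (mul_nonneg ht0 ht0),
              mul_nonneg (mul_nonneg ht0 ht0) (mul_nonneg ht0 ht0)]
          _ = _ := by ring
      calc 9 / 10 * e (k + 1) ≤ 9 / 10 * (e k * ((7 / 10 + (k : ℝ)) / (1 + k)) ^ 2) := by gcongr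
        _ = (9 / 10 * e k) * ((7 / 10 + (k : ℝ)) / (1 + k)) ^ 2 := by ring
        _ ≤ _ := by gcongr

lemma conv_e (k : ℕ) : ∑ x ∈ antidiagonal k, 1 / (3 * (x.1 : ℝ) + 1) * (1 / (3 * (x.2 : ℝ) + 1)) = e k := by
  have h1 : ∀ x ∈ antidiagonal k, 1 / (3 * (x.1 : ℝ) + 1) * (1 / (3 * (x.2 : ℝ) + 1))
      = 1 / (3 * (k : ℝ) + 2) * (1 / (3 * (x.1 : ℝ) + 1) + 1 / (3 * (x.2 : ℝ) + 1)) := by
    intro x hx
    have : x.1 + x.2 = k := mem_antidiagonal.1 hx
    have : (k : ℝ) = x.1 + x.2 := by rw [← this]; push_cast; ring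
    rw [this]
    field_simp
    ring
  rw [sum_congr rfl h1, ← mul_sum, sum_add_distrib]
  have h2 : ∑ x ∈ antidiagonal k, 1 / (3 * (x.1 : ℝ) + 1) = H k := by
    rw [Finset.Nat.sum_antidiagonal_eq_sum_range_succ_mk]
    rfl
  have h3 : ∑ x ∈ antidiagonal k, 1 / (3 * (x.2 : ℝ) + 1) = H k := by
    rw [← h2, ← Finset.Nat.sum_antidiagonal_swap]
    rfl
  rw [h2, h3]
  unfold e
  ring

end Pool.Agent.R227.BT
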