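import Pool.Agent.R227.BT2

/-!
# Powers of the Beurling transform on the angular class, `p = 4`: the quadratic form (helper227)
-/

set_option autoImplicit false

namespace Pool.Agent.R227.BT

open Finset

/-- product formula for the symbol -/
lemma pf2 (n : ℕ) {x y : ℝ} (hx : 0 < x) (hy : 0 < y) :
    m n x * m n y = 1 + ∑ l ∈ range n, r n l * m n (x + y + l) * (1 / (x + l) + 1 / (y + l)) := by
  have h1 : ∀ l : ℕ, m n (x + y + l) = 1 + ∑ k ∈ range n, r n k / (x + y + l + k) := fun l =>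
    (pf_pos n (by positivity)).symm
  have hL : ∑ l ∈ range n, r n l * m n (x + y + l) * (1 / (x + l) + 1 / (y + l))
      = ∑ l ∈ range n, r n l / (x + l) + ∑ l ∈ range n, r n l / (y + l)
        + ∑ l ∈ range n, ∑ k ∈ range n, r n l * r n k * (1 / (x + y + l + k)) * (1 / (x + l))
        + ∑ l ∈ range n, ∑ k ∈ range n, r n l * r n k * (1 / (x + y + l + k)) * (1 / (y + l)) := by
    rw [← sum_add_distrib, ← sum_add_distrib, ← sum_add_distrib]
    refine sum_congr rfl fun l _ => ?_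
    rw [h1]
    have e1 : ∑ k ∈ range n, r n l * r n k * (1 / (x + y + l + k)) * (1 / (x + l))
        = r n l * (1 / (x + l)) * ∑ k ∈ range n, r n k / (x + y + l + k) := by
      rw [mul_sum]; exact sum_congr rfl fun k _ => by ring
    have e2 : ∑ k ∈ range n, r n l * r n k * (1 / (x + y + l + k)) * (1 / (y + l))
        = r n l * (1 / (y + l)) * ∑ k ∈ range n, r n k / (x + y + l + k) := by
      rw [mul_sum]; exact sum_congr rfl fun k _ => by ring
    rw [e1, e2]
    ring
  have hS : ∑ l ∈ range n, ∑ k ∈ range n, r n l * r n k * (1 / (x + y + l + k)) * (1 / (x + l))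
        + ∑ l ∈ range n, ∑ k ∈ range n, r n l * r n k * (1 / (x + y + l + k)) * (1 / (y + l))
      = (∑ l ∈ range n, r n l / (x + l)) * ∑ k ∈ range n, r n k / (y + k) := by
    rw [sum_comm (f := fun l k => r n l * r n k * (1 / (x + y + l + k)) * (1 / (y + l))), ← sum_add_distrib,
      sum_mul_sum]
    refine sum_congr rfl fun l _ => ?_
    rw [← sum_add_distrib]
    refine sum_congr rfl fun k _ => ?_
    have a1 : x + l ≠ 0 := by positivity
    have a2 : y + k ≠ 0 := by positivity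
    have a3 : x + y + l + k ≠ 0 := by positivity
    have a4 : x + y + k + l ≠ 0 := by positivity
    have a5 : x + y + k + l = x + y + l + k := by ring
    rw [a5]
    field_simp
    ring
  rw [hL, ← pf_pos n hx, ← pf_pos n hy]
  linear_combination -hS

/-- the inner products of the functions `S_j` -/
noncomputable def SS (n : ℕ) (R : ℝ) (ρ : ℕ → ℝ) (j l : ℕ) : ℝ :=
  R + ∑ i ∈ range n, r n i * ρ (i + j) * m n ((i : ℝ) + j + l + 1)
    + ∑ i ∈ range n, r n i * ρ (i + l) * m n ((i : ℝ) + j + l + 1)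

lemma alg (n : ℕ) {a b : ℝ} (ha : 0 < a) (hb : 0 < b) (hab : a + b = 1) (R : ℝ) (ρ : ℕ → ℝ) :
    ∑ j ∈ range n, ∑ l ∈ range n, r n j * r n l * (1 / ((j : ℝ) + l + a) + 1 / ((j : ℝ) + l + b)) * SS n R ρ j l
      = R * ∑ j ∈ range n, ∑ l ∈ range n, r n j * r n l * (1 / ((j : ℝ) + l + a) + 1 / ((j : ℝ) + l + b))
        + 2 * ∑ i ∈ range n, ∑ j ∈ range n, r n i * r n j * ρ (i + j) * (m n (a + i) * m n (b + j) - 1) := by
  set c : ℕ → ℕ → ℝ := fun j l => 1 / ((j : ℝ) + l + a) + 1 / ((j : ℝ) + l + b) with hc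
  have hcs : ∀ j l, c j l = c l j := fun j l => by rw [hc]; simp only; rw [add_comm (j : ℝ) l]
  -- triple sums
  have h1 : ∑ j ∈ range n, ∑ l ∈ range n, r n j * r n l * c j l * SS n R ρ j l
      = R * ∑ j ∈ range n, ∑ l ∈ range n, r n j * r n l * c j l
        + ∑ j ∈ range n, ∑ l ∈ range n, r n j * r n l * c j l *
            ∑ i ∈ range n, r n i * ρ (i + j) * m n ((i : ℝ) + j + l + 1)
        + ∑ j ∈ range n, ∑ l ∈ range n, r n j * r n l * c j l *
            ∑ i ∈ range n, r n i * ρ (i + l) * m n ((i : ℝ) + j + l + 1) := by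
    rw [mul_sum, ← sum_add_distrib, ← sum_add_distrib]
    refine sum_congr rfl fun j _ => ?_
    rw [mul_sum, ← sum_add_distrib, ← sum_add_distrib]
    refine sum_congr rfl fun l _ => ?_
    unfold SS
    ring
  have h2 : ∑ j ∈ range n, ∑ l ∈ range n, r n j * r n l * c j l *
            ∑ i ∈ range n, r n i * ρ (i + l) * m n ((i : ℝ) + j + l + 1)
      = ∑ j ∈ range n, ∑ l ∈ range n, r n j * r n l * c j l *
            ∑ i ∈ range n, r n i * ρ (i + j) * m n ((i : ℝ) + j + l + 1) := by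
    rw [sum_comm]
    refine sum_congr rfl fun j _ => sum_congr rfl fun l _ => ?_
    rw [hcs l j, mul_comm (r n l)]
    congr 1
    refine sum_congr rfl fun i _ => ?_
    have : (i : ℝ) + l + j + 1 = i + j + l + 1 := by ring
    rw [this]
  -- the sums over `l`
  set T : ℝ → ℕ → ℕ → ℝ := fun x i j => ∑ l ∈ range n, r n l * m n ((i : ℝ) + j + l + 1) / (x + i + l) with hT
  have h3 : ∑ j ∈ range n, ∑ l ∈ range n, r n j * r n l * c j l *
            ∑ i ∈ range n, r n i * ρ (i + j) * m n ((i : ℝ) + j + l + 1)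
      = ∑ i ∈ range n, ∑ j ∈ range n, r n i * r n j * ρ (i + j) * (T a j i + T b j i) := by
    have e1 : ∀ j ∈ range n, ∑ l ∈ range n, r n j * r n l * c j l *
            ∑ i ∈ range n, r n i * ρ (i + j) * m n ((i : ℝ) + j + l + 1)
        = ∑ i ∈ range n, r n i * r n j * ρ (i + j) * (T a j i + T b j i) := by
      intro j _
      simp_rw [mul_sum]
      rw [sum_comm]
      refine sum_congr rfl fun i _ => ?_
      rw [hT]
      simp only
      rw [← sum_add_distrib, mul_sum]
      refine sum_congr rfl fun l _ => ?_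
      have e2 : (j : ℝ) + i + l + 1 = i + j + l + 1 := by ring
      rw [e2, hc]
      simp only
      have e3 : (j : ℝ) + l + a = a + j + l := by ring
      have e4 : (j : ℝ) + l + b = b + j + l := by ring
      rw [e3, e4]
      ring
    rw [sum_congr rfl e1, sum_comm]
  have h4 : ∀ i j : ℕ, m n (a + i) * m n (b + j) - 1 = T a i j + T b j i := by
    intro i j
    rw [pf2 n (by positivity : 0 < a + i) (by positivity : 0 < b + j), add_sub_cancel_left, hT]
    simp only
    rw [← sum_add_distrib]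
    refine sum_congr rfl fun l _ => ?_
    have e1 : a + i + (b + j) + l = (i : ℝ) + j + l + 1 := by linear_combination hab
    have e2 : (j : ℝ) + i + l + 1 = i + j + l + 1 := by ring
    rw [e1, e2]
    ring
  have h5 : ∑ i ∈ range n, ∑ j ∈ range n, r n i * r n j * ρ (i + j) * (m n (a + i) * m n (b + j) - 1)
      = ∑ i ∈ range n, ∑ j ∈ range n, r n i * r n j * ρ (i + j) * (T a j i + T b j i) := by
    have e1 : ∑ i ∈ range n, ∑ j ∈ range n, r n i * r n j * ρ (i + j) * (m n (a + i) * m n (b + j) - 1)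
        = ∑ i ∈ range n, ∑ j ∈ range n, r n i * r n j * ρ (i + j) * T a i j
          + ∑ i ∈ range n, ∑ j ∈ range n, r n i * r n j * ρ (i + j) * T b j i := by
      rw [← sum_add_distrib]
      refine sum_congr rfl fun i _ => ?_
      rw [← sum_add_distrib]
      refine sum_congr rfl fun j _ => ?_
      rw [h4]; ring
    rw [e1, sum_comm (f := fun i j => r n i * r n j * ρ (i + j) * T a i j), ← sum_add_distrib]
    refine sum_congr rfl fun i _ => ?_
    rw [← sum_add_distrib]
    refine sum_congr rfl fun j _ => ?_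
    rw [add_comm j i]; ring
  rw [h1, h2, h3, h5]
  ring

/-- the weights `b_k` -/
noncomputable def bb (k : ℕ) : ℝ := 1 / ((k : ℝ) + 3 / 10) + 1 / (k + 7 / 10) - 8 / 5 * (1 / (k + 1 / 2))

/-- the quadratic form -/
noncomputable def Lin (n : ℕ) (R : ℝ) (ρ : ℕ → ℝ) : ℝ :=
  2 * ∑ j ∈ range n, ∑ l ∈ range n, r n j * r n l * bb (j + l) * SS n R ρ j l

lemma Lin_eq (n : ℕ) (R : ℝ) (ρ : ℕ → ℝ) :
    Lin n R ρ = R * (2 * ∑ j ∈ range n, ∑ l ∈ range n, r n j * r n l * bb (j + l))
      + 4 * ∑ i ∈ range n, ∑ j ∈ range n, r n i * r n j * ρ (i + j) *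
        (m n (3 / 10 + i) * m n (7 / 10 + j) - 4 / 5 * (m n (1 / 2 + i) * m n (1 / 2 + j)) - 1 / 5) := by
  have h1 := alg n (a := 3 / 10) (b := 7 / 10) (by norm_num) (by norm_num) (by norm_num) R ρ
  have h2 := alg n (a := 1 / 2) (b := 1 / 2) (by norm_num) (by norm_num) (by norm_num) R ρ
  have e1 : Lin n R ρ = 2 * ∑ j ∈ range n, ∑ l ∈ range n, r n j * r n l * (1 / ((j : ℝ) + l + 3 / 10) + 1 / ((j : ℝ) + l + 7 / 10)) * SS n R ρ j l
      - 8 / 5 * ∑ j ∈ range n, ∑ l ∈ range n, r n j * r n l * (1 / ((j : ℝ) + l + 1 / 2) + 1 / ((j : ℝ) + l + 1 / 2)) * SS n R ρ j l := by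
    unfold Lin
    rw [mul_sum, mul_sum, mul_sum, ← sum_sub_distrib]
    refine sum_congr rfl fun j _ => ?_
    rw [mul_sum, mul_sum, mul_sum, ← sum_sub_distrib]
    refine sum_congr rfl fun l _ => ?_
    unfold bb; push_cast; ring
  have e2 : 2 * ∑ j ∈ range n, ∑ l ∈ range n, r n j * r n l * bb (j + l)
      = 2 * ∑ j ∈ range n, ∑ l ∈ range n, r n j * r n l * (1 / ((j : ℝ) + l + 3 / 10) + 1 / ((j : ℝ) + l + 7 / 10))
      - 8 / 5 * ∑ j ∈ range n, ∑ l ∈ range n, r n j * r n l * (1 / ((j : ℝ) + l + 1 / 2) + 1 / ((j : ℝ) + l + 1 / 2)) := by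
    rw [mul_sum, mul_sum, mul_sum, ← sum_sub_distrib]
    refine sum_congr rfl fun j _ => ?_
    rw [mul_sum, mul_sum, mul_sum, ← sum_sub_distrib]
    refine sum_congr rfl fun l _ => ?_
    unfold bb; push_cast; ring
  have e3 : 4 * ∑ i ∈ range n, ∑ j ∈ range n, r n i * r n j * ρ (i + j) *
        (m n (3 / 10 + i) * m n (7 / 10 + j) - 4 / 5 * (m n (1 / 2 + i) * m n (1 / 2 + j)) - 1 / 5)
      = 4 * ∑ i ∈ range n, ∑ j ∈ range n, r n i * r n j * ρ (i + j) * (m n (3 / 10 + i) * m n (7 / 10 + j) - 1)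
        - 16 / 5 * ∑ i ∈ range n, ∑ j ∈ range n, r n i * r n j * ρ (i + j) * (m n (1 / 2 + i) * m n (1 / 2 + j) - 1) := by
    rw [mul_sum, mul_sum, mul_sum, ← sum_sub_distrib]
    refine sum_congr rfl fun i _ => ?_
    rw [mul_sum, mul_sum, mul_sum, ← sum_sub_distrib]
    refine sum_congr rfl fun j _ => ?_
    ring
  rw [e1, e2, e3, h1, h2]
  ring

end Pool.Agent.R227.BT
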