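import Pool.Agent.R227.BT3

/-!
# Powers of the Beurling transform on the angular class, `p = 4`: the bound of the form (helper227)
-/

set_option autoImplicit false

namespace Pool.Agent.R227.BT

open Finset

lemma regroup (n : ℕ) (f : ℕ → ℕ → ℝ) (hf : ∀ i j, (n ≤ i ∨ n ≤ j) → f i j = 0) :
    ∑ i ∈ range n, ∑ j ∈ range n, f i j
      = ∑ k ∈ range (2 * n), ∑ x ∈ antidiagonal k, f x.1 x.2 := by
  rw [← sum_product' (range n) (range n) f,
    ← sum_fiberwise_of_maps_to (g := fun x : ℕ × ℕ => x.1 + x.2) (t := range (2 * n))]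
  · refine sum_congr rfl fun k _ => ?_
    refine sum_subset ?_ ?_
    · intro x hx
      rw [HasAntidiagonal.mem_antidiagonal]
      exact (mem_filter.1 hx).2
    · intro x hx hx2
      apply hf
      by_contra hcon
      push Not at hcon
      apply hx2
      rw [mem_filter, mem_product, mem_range, mem_range]
      exact ⟨⟨hcon.1, hcon.2⟩, HasAntidiagonal.mem_antidiagonal.1 hx⟩
  · intro x hx
    rw [mem_product, mem_range, mem_range] at hx
    rw [mem_range]
    omega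

/-- the coefficients `C_k` -/
noncomputable def C (n k : ℕ) : ℝ := ∑ x ∈ antidiagonal k,
  (A n (3 / 10) x.1 * A n (7 / 10) x.2 - 4 / 5 * (A n (1 / 2) x.1 * A n (1 / 2) x.2))

/-- the numbers `1 / (k + 1/2)` -/
noncomputable def hh (k : ℕ) : ℝ := 1 / ((k : ℝ) + 1 / 2)

/-- `φ` -/
noncomputable def ph (n : ℕ) : ℝ := n * ∑ j ∈ range n, A n (1 / 2) j

lemma mu_half (n : ℕ) : mu n (1 / 2) = 1 := by
  unfold mu
  refine prod_eq_one fun j _ => ?_
  have : (j : ℝ) + 1 - 1 / 2 = 1 / 2 + j := by ring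
  rw [this]
  exact div_self (by positivity)

lemma coef_prod {n : ℕ} (hn : 1 ≤ n) {i j : ℕ} (hi : i < n) (hj : j < n) :
    r n i * r n j * (m n (3 / 10 + i) * m n (7 / 10 + j) - 4 / 5 * (m n (1 / 2 + i) * m n (1 / 2 + j)))
      = (n : ℝ) ^ 2 * (A n (3 / 10) i * A n (7 / 10) j - 4 / 5 * (A n (1 / 2) i * A n (1 / 2) j)) := by
  have h1 := coef hn (s := 3 / 10) (by norm_num) (by norm_num) i hi
  have h2 := coef hn (s := 7 / 10) (by norm_num) (by norm_num) j hj
  have h3 := coef hn (s := 1 / 2) (by norm_num) (by norm_num) i hi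
  have h4 := coef hn (s := 1 / 2) (by norm_num) (by norm_num) j hj
  have h5 := mu_mul n (s := 3 / 10) (by norm_num) (by norm_num)
  have e1 : (1 : ℝ) - 3 / 10 = 7 / 10 := by norm_num
  rw [e1] at h5
  rw [mu_half, mul_one] at h3 h4
  have h6 : r n i * r n j * (m n (3 / 10 + i) * m n (7 / 10 + j) - 4 / 5 * (m n (1 / 2 + i) * m n (1 / 2 + j)))
      = (r n i * m n (3 / 10 + i)) * (r n j * m n (7 / 10 + j))
        - 4 / 5 * ((r n i * m n (1 / 2 + i)) * (r n j * m n (1 / 2 + j))) := by ring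
  rw [h6, h1, h2, h3, h4]
  linear_combination ((n : ℝ) ^ 2 * A n (3 / 10) i * A n (7 / 10) j) * h5

lemma C_zero (n : ℕ) : C n 0 = 1 / 5 := by
  unfold C
  simp [A_zero]
  norm_num

lemma C_lower {n : ℕ} (hn : 1 ≤ n) (k : ℕ) : -(4 / 5 * e k) ≤ C n k := by
  unfold C
  rw [← conv_e k, mul_sum, ← sum_neg_distrib]
  refine sum_le_sum fun x _ => ?_
  have h1 := A_nonneg hn (s := 3 / 10) (by norm_num) (by norm_num) x.1
  have h2 := A_nonneg hn (s := 7 / 10) (by norm_num) (by norm_num) x.2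
  have h3 := A_nonneg hn (s := 1 / 2) (by norm_num) (by norm_num) x.1
  have h4 := A_nonneg hn (s := 1 / 2) (by norm_num) (by norm_num) x.2
  have h5 := A_half hn x.1
  have h6 := A_half hn x.2
  have h7 : A n (1 / 2) x.1 * A n (1 / 2) x.2 ≤ 1 / (3 * (x.1 : ℝ) + 1) * (1 / (3 * (x.2 : ℝ) + 1)) :=
    mul_le_mul h5 h6 h4 (by positivity)
  have h8 := mul_nonneg h1 h2
  linarith

lemma C_nonneg {n : ℕ} (hn : 500 ≤ n) (k : ℕ) (hk : 1 ≤ k) (hk2 : 2 * k ≤ n) : 0 ≤ C n k := by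
  have hn1 : 1 ≤ n := by omega
  have hn0 : (500 : ℝ) ≤ n := by exact_mod_cast hn
  have h1 : A n (7 / 10) k - 4 / 5 * e k ≤ C n k := by
    unfold C
    rw [sum_sub_distrib, ← mul_sum]
    have h2 : A n (7 / 10) k ≤ ∑ x ∈ antidiagonal k, A n (3 / 10) x.1 * A n (7 / 10) x.2 := by
      have h3 : A n (7 / 10) k = (fun x : ℕ × ℕ => A n (3 / 10) x.1 * A n (7 / 10) x.2) (0, k) := by
        simp [A_zero]
      rw [h3]
      apply single_le_sum (f := fun x : ℕ × ℕ => A n (3 / 10) x.1 * A n (7 / 10) x.2)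
      · intro x _
        exact mul_nonneg (A_nonneg hn1 (by norm_num) (by norm_num) _) (A_nonneg hn1 (by norm_num) (by norm_num) _)
      · simp
    have h4 : ∑ x ∈ antidiagonal k, A n (1 / 2) x.1 * A n (1 / 2) x.2 ≤ e k := by
      rw [← conv_e k]
      refine sum_le_sum fun x _ => ?_
      exact mul_le_mul (A_half hn1 x.1) (A_half hn1 x.2) (A_nonneg hn1 (by norm_num) (by norm_num) _) (by positivity)
    linarith
  have h2 := A_low (n := n) k hk2 hn1
  have h3 := F_ge k hk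
  have hF := F_pos k
  have hk2' : 2 * (k : ℝ) ≤ n := by exact_mod_cast hk2
  have hk0 : (0 : ℝ) ≤ k := Nat.cast_nonneg k
  have h4 : 4 / 10 * ((k : ℝ) ^ 2 + 7 / 10 * k) / (n : ℝ) ^ 2 ≤ 1 / 9 := by
    rw [div_le_iff₀ (by positivity)]
    nlinarith
  have h5 : (8 / 9) * F k ≤ (1 - 4 / 10 * ((k : ℝ) ^ 2 + 7 / 10 * k) / (n : ℝ) ^ 2) * F k := by
    apply mul_le_mul_of_nonneg_right _ hF.le
    linarith
  linarith

lemma sum_ph {n : ℕ} (hn : 1 ≤ n) :
    ∑ i ∈ range n, ∑ j ∈ range n, r n i * r n j * hh (i + j) = (n : ℝ) ^ 2 + ph n := by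
  have h1 : ∀ i ∈ range n, ∑ j ∈ range n, r n i * r n j * hh (i + j) = r n i * m n (1 / 2 + i) - r n i := by
    intro i _
    have h2 := pf_pos n (s := 1 / 2 + i) (by positivity)
    rw [← h2, mul_add, mul_one, add_sub_cancel_left, mul_sum]
    refine sum_congr rfl fun j _ => ?_
    unfold hh
    push_cast
    have : (i : ℝ) + j + 1 / 2 = 1 / 2 + i + j := by ring
    rw [this]; ring
  rw [sum_congr rfl h1, sum_sub_distrib, sum_r]
  have h3 : ∑ i ∈ range n, r n i * m n (1 / 2 + i) = ph n := by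
    unfold ph
    rw [mul_sum]
    refine sum_congr rfl fun i hi => ?_
    rw [coef hn (by norm_num) (by norm_num) i (mem_range.1 hi), mu_half, mul_one]
  rw [h3]; ring

lemma SS_hh (n : ℕ) (j l : ℕ) : SS n 1 hh j l = m n (1 / 2 + j) * m n (1 / 2 + l) := by
  rw [pf2 n (by positivity : (0:ℝ) < 1 / 2 + j) (by positivity : (0:ℝ) < 1 / 2 + l)]
  unfold SS
  rw [add_assoc, ← sum_add_distrib]
  congr 1
  refine sum_congr rfl fun i _ => ?_
  unfold hh
  push_cast
  have e1 : (1 : ℝ) / 2 + j + (1 / 2 + l) + i = i + j + l + 1 := by ring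
  have e2 : (i : ℝ) + j + 1 / 2 = 1 / 2 + j + i := by ring
  have e3 : (i : ℝ) + l + 1 / 2 = 1 / 2 + l + i := by ring
  rw [e1, e2, e3]
  ring

lemma bb_nonneg (k : ℕ) : 0 ≤ bb k := by
  unfold bb
  have hk : (0 : ℝ) ≤ k := Nat.cast_nonneg k
  have e1 : 1 / ((k : ℝ) + 3 / 10) + 1 / (k + 7 / 10) - 8 / 5 * (1 / (k + 1 / 2))
      = (2 / 5 * ((k:ℝ) + 1/2) ^ 2 + 8 / 125) / ((k + 3 / 10) * (k + 7 / 10) * (k + 1 / 2)) := by
    field_simp
    ring
  rw [e1]
  positivity

lemma Lin_hh {n : ℕ} (hn : 1 ≤ n) :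
    Lin n 1 hh ≤ (n : ℝ) ^ 2 * (2 * ∑ k ∈ range (2 * n), e k * bb k) := by
  have h1 : Lin n 1 hh = (n : ℝ) ^ 2 * (2 * ∑ i ∈ range n, ∑ j ∈ range n, A n (1 / 2) i * A n (1 / 2) j * bb (i + j)) := by
    unfold Lin
    rw [mul_sum, mul_sum, mul_sum]
    refine sum_congr rfl fun i hi => ?_
    rw [mul_sum, mul_sum, mul_sum]
    refine sum_congr rfl fun j hj => ?_
    rw [SS_hh]
    have h3 := coef hn (s := 1 / 2) (by norm_num) (by norm_num) i (mem_range.1 hi)
    have h4 := coef hn (s := 1 / 2) (by norm_num) (by norm_num) j (mem_range.1 hj)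
    rw [mu_half, mul_one] at h3 h4
    have h6 : 2 * (r n i * r n j * bb (i + j) * (m n (1 / 2 + i) * m n (1 / 2 + j)))
      = 2 * ((r n i * m n (1 / 2 + i)) * (r n j * m n (1 / 2 + j)) * bb (i + j)) := by ring
    rw [h6, h3, h4]
    ring
  rw [h1]
  have h2 : ∑ i ∈ range n, ∑ j ∈ range n, A n (1 / 2) i * A n (1 / 2) j * bb (i + j)
      ≤ ∑ k ∈ range (2 * n), e k * bb k := by
    rw [regroup n (fun i j => A n (1 / 2) i * A n (1 / 2) j * bb (i + j))]
    · refine sum_le_sum fun k _ => ?_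
      rw [← conv_e k, sum_mul]
      refine sum_le_sum fun x hx => ?_
      rw [HasAntidiagonal.mem_antidiagonal.1 hx]
      apply mul_le_mul_of_nonneg_right _ (bb_nonneg k)
      exact mul_le_mul (A_half hn x.1) (A_half hn x.2) (A_nonneg hn (by norm_num) (by norm_num) _) (by positivity)
    · intro i j hij
      rcases hij with h | h
      · rw [A_big n hn _ i h]; ring
      · rw [A_big n hn _ j h]; ring
  have hn2 : (0 : ℝ) ≤ (n : ℝ) ^ 2 := by positivity
  nlinarith [mul_le_mul_of_nonneg_left h2 hn2]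

/-- the loss terms -/
noncomputable def loss (n : ℕ) : ℝ := ∑ k ∈ range (2 * n), if n < 2 * k then e k * hh k else 0

lemma form_bound {n : ℕ} (hn : 500 ≤ n) (R : ℝ) (ρ : ℕ → ℝ)
    (h0 : ∀ k, 0 ≤ ρ k) (h1 : ∀ k, ρ k ≤ R * hh k)
    (hK : ((n : ℝ) ^ 2 + ph n) * (ρ 0 - R) - ph n * R ≤ ∑ i ∈ range n, ∑ j ∈ range n, r n i * r n j * ρ (i + j)) :
    Lin n R ρ ≤ (n : ℝ) ^ 2 * R * (2 * ∑ k ∈ range (2 * n), e k * bb k + 12 / 5 * (ph n / (n : ℝ) ^ 2)
      + 16 / 5 * loss n) := by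
  have hn1 : 1 ≤ n := by omega
  have hn0 : (0 : ℝ) < n := by exact_mod_cast hn1
  have hR : 0 ≤ R := by
    have := (h0 0).trans (h1 0)
    unfold hh at this
    norm_num at this
    linarith
  have hph : 0 ≤ ph n := by
    unfold ph
    apply mul_nonneg hn0.le
    exact sum_nonneg fun j _ => A_nonneg hn1 (by norm_num) (by norm_num) j
  have e1 : Lin n R ρ = R * Lin n 1 hh - 4 * ∑ i ∈ range n, ∑ j ∈ range n,
      r n i * r n j * (m n (3 / 10 + i) * m n (7 / 10 + j) - 4 / 5 * (m n (1 / 2 + i) * m n (1 / 2 + j)) - 1 / 5)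
        * (R * hh (i + j) - ρ (i + j)) := by
    rw [Lin_eq n R ρ, Lin_eq n 1 hh]
    have : ∑ i ∈ range n, ∑ j ∈ range n,
      r n i * r n j * (m n (3 / 10 + i) * m n (7 / 10 + j) - 4 / 5 * (m n (1 / 2 + i) * m n (1 / 2 + j)) - 1 / 5)
        * (R * hh (i + j) - ρ (i + j))
      = R * ∑ i ∈ range n, ∑ j ∈ range n, r n i * r n j * hh (i + j) *
        (m n (3 / 10 + i) * m n (7 / 10 + j) - 4 / 5 * (m n (1 / 2 + i) * m n (1 / 2 + j)) - 1 / 5)
        - ∑ i ∈ range n, ∑ j ∈ range n, r n i * r n j * ρ (i + j) *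
        (m n (3 / 10 + i) * m n (7 / 10 + j) - 4 / 5 * (m n (1 / 2 + i) * m n (1 / 2 + j)) - 1 / 5) := by
      rw [mul_sum, ← sum_sub_distrib]
      refine sum_congr rfl fun i _ => ?_
      rw [mul_sum, ← sum_sub_distrib]
      refine sum_congr rfl fun j _ => ?_
      ring
    rw [this]
    ring
  have e2 : ∑ i ∈ range n, ∑ j ∈ range n,
      r n i * r n j * (m n (3 / 10 + i) * m n (7 / 10 + j) - 4 / 5 * (m n (1 / 2 + i) * m n (1 / 2 + j)) - 1 / 5)
        * (R * hh (i + j) - ρ (i + j))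
      = (n : ℝ) ^ 2 * ∑ k ∈ range (2 * n), C n k * (R * hh k - ρ k)
        - 1 / 5 * (R * ((n : ℝ) ^ 2 + ph n) - ∑ i ∈ range n, ∑ j ∈ range n, r n i * r n j * ρ (i + j)) := by
    have e3 : ∑ k ∈ range (2 * n), C n k * (R * hh k - ρ k)
        = ∑ i ∈ range n, ∑ j ∈ range n, (A n (3 / 10) i * A n (7 / 10) j
          - 4 / 5 * (A n (1 / 2) i * A n (1 / 2) j)) * (R * hh (i + j) - ρ (i + j)) := by
      rw [regroup n (fun i j => (A n (3 / 10) i * A n (7 / 10) j
          - 4 / 5 * (A n (1 / 2) i * A n (1 / 2) j)) * (R * hh (i + j) - ρ (i + j)))]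
      · refine sum_congr rfl fun k _ => ?_
        unfold C
        rw [sum_mul]
        refine sum_congr rfl fun x hx => ?_
        rw [HasAntidiagonal.mem_antidiagonal.1 hx]
      · intro i j hij
        rcases hij with h | h
        · rw [A_big n hn1 _ i h, A_big n hn1 _ i h]; ring
        · rw [A_big n hn1 _ j h, A_big n hn1 _ j h]; ring
    rw [← sum_ph hn1, e3, mul_sum, mul_sum, ← sum_sub_distrib, mul_sum, ← sum_sub_distrib]
    refine sum_congr rfl fun i hi => ?_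
    rw [mul_sum, mul_sum, ← sum_sub_distrib, mul_sum, ← sum_sub_distrib]
    refine sum_congr rfl fun j hj => ?_
    have := coef_prod hn1 (mem_range.1 hi) (mem_range.1 hj)
    linear_combination (R * hh (i + j) - ρ (i + j)) * this
  have e4 : C n 0 * (R * hh 0 - ρ 0) - 4 / 5 * R * loss n ≤ ∑ k ∈ range (2 * n), C n k * (R * hh k - ρ k) := by
    have h5 : ∀ k ∈ range (2 * n), (if k = 0 then C n 0 * (R * hh 0 - ρ 0) else 0)
        - 4 / 5 * R * (if n < 2 * k then e k * hh k else 0) ≤ C n k * (R * hh k - ρ k) := by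
      intro k _
      have hd0 : 0 ≤ R * hh k - ρ k := by linarith [h1 k]
      have hd1 : R * hh k - ρ k ≤ R * hh k := by linarith [h0 k]
      have hhk : 0 ≤ hh k := by unfold hh; positivity
      split_ifs with hk hk2 hk2
      · subst hk; omega
      · subst hk; simp
      · have h6 := C_lower hn1 k
        have h7 := e_pos k
        have h8 : -(4 / 5 * e k) * (R * hh k - ρ k) ≤ C n k * (R * hh k - ρ k) :=
          mul_le_mul_of_nonneg_right h6 hd0
        have h9 : 4 / 5 * e k * (R * hh k - ρ k) ≤ 4 / 5 * e k * (R * hh k) :=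
          mul_le_mul_of_nonneg_left hd1 (by positivity)
        linarith
      · have h6 := C_nonneg hn k (by omega) (by omega)
        have := mul_nonneg h6 hd0
        linarith
    have h6 := sum_le_sum h5
    rw [sum_sub_distrib, ← mul_sum, sum_ite_eq' (range (2 * n)) 0 (fun _ => C n 0 * (R * hh 0 - ρ 0)),
      if_pos (mem_range.2 (by omega))] at h6
    exact h6
  have hL := Lin_hh hn1
  have e5 : hh 0 = 2 := by unfold hh; norm_num
  rw [C_zero, e5] at e4
  have hρ0 := h0 0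
  have e6 : (n : ℝ) ^ 2 * R * (2 * ∑ k ∈ range (2 * n), e k * bb k + 12 / 5 * (ph n / (n : ℝ) ^ 2)
      + 16 / 5 * loss n) = R * ((n : ℝ) ^ 2 * (2 * ∑ k ∈ range (2 * n), e k * bb k))
        + 12 / 5 * ph n * R + 16 / 5 * (n : ℝ) ^ 2 * R * loss n := by
    field_simp
  rw [e6, e1, e2]
  have h7 := mul_le_mul_of_nonneg_left hL hR
  have h8 := mul_le_mul_of_nonneg_left e4 (by positivity : (0:ℝ) ≤ 4 * (n : ℝ) ^ 2)
  have h9 := mul_nonneg hph hρ0
  nlinarith

end Pool.Agent.R227.BT
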