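import Pool.Agent.R227.BT2

/-!
# Powers of the Beurling transform on the angular class, `p = 4`: kernel representation (helper227)
-/

set_option autoImplicit false

namespace Pool.Agent.R227.BT

open Finset MeasureTheory

lemma smooth_deriv {f : ℝ → ℝ} (hf : ContDiff ℝ (⊤ : ℕ∞) f) : ContDiff ℝ (⊤ : ℕ∞) (deriv f) := by
  have h : ContDiff ℝ ((⊤ : ℕ∞) + 1 : WithTop ℕ∞) f := by
    have e : ((⊤ : ℕ∞) + 1 : WithTop ℕ∞) = ((⊤ : ℕ∞) : WithTop ℕ∞) := rfl
    rw [e]
    exact hf
  exact (contDiff_succ_iff_deriv.1 h).2.2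

lemma smooth_iter {f : ℝ → ℝ} (hf : ContDiff ℝ (⊤ : ℕ∞) f) (j : ℕ) :
    ContDiff ℝ (⊤ : ℕ∞) (iteratedDeriv j f) := by
  induction j with
  | zero => rwa [iteratedDeriv_zero]
  | succ j ih =>
    rw [iteratedDeriv_succ]
    exact smooth_deriv ih

lemma iter_hasDeriv {f : ℝ → ℝ} (hf : ContDiff ℝ (⊤ : ℕ∞) f) (j : ℕ) (x : ℝ) :
    HasDerivAt (iteratedDeriv j f) (iteratedDeriv (j + 1) f x) x := by
  rw [iteratedDeriv_succ]
  exact ((smooth_iter hf j).differentiable (by norm_num)).differentiableAt.hasDerivAt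

lemma iter_cont {f : ℝ → ℝ} (hf : ContDiff ℝ (⊤ : ℕ∞) f) (j : ℕ) : Continuous (iteratedDeriv j f) :=
  (smooth_iter hf j).continuous

lemma van_iter {f : ℝ → ℝ} {R : ℝ} (h : ∀ x, R < x → f x = 0) (j : ℕ) :
    ∀ x, R < x → iteratedDeriv j f x = 0 := by
  induction j with
  | zero => rwa [iteratedDeriv_zero]
  | succ j ih =>
    rw [iteratedDeriv_succ]
    intro x hx
    have h1 : iteratedDeriv j f =ᶠ[nhds x] fun _ => (0 : ℝ) := by
      filter_upwards [Ioi_mem_nhds hx] with y hy using ih y hy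
    rw [h1.deriv_eq]
    simp

lemma iter_mul_id {f : ℝ → ℝ} (hf : ContDiff ℝ (⊤ : ℕ∞) f) (k : ℕ) (x : ℝ) :
    iteratedDeriv (k + 1) (fun t => t * f t) x
      = x * iteratedDeriv (k + 1) f x + (k + 1) * iteratedDeriv k f x := by
  induction k generalizing x with
  | zero =>
    rw [iteratedDeriv_one]
    have h1 := (hasDerivAt_id x).mul (iter_hasDeriv hf 0 x)
    simp only [iteratedDeriv_zero] at h1
    rw [show (fun t => t * f t) = (id * f) from rfl, h1.deriv]
    simp
    ring
  | succ k ih =>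
    rw [iteratedDeriv_succ]
    have h0 : iteratedDeriv (k + 1) (fun t => t * f t)
        = fun x => x * iteratedDeriv (k + 1) f x + (k + 1) * iteratedDeriv k f x := funext ih
    rw [h0]
    have h1 := ((hasDerivAt_id x).mul (iter_hasDeriv hf (k + 1) x)).add
      ((iter_hasDeriv hf k x).const_mul ((k : ℝ) + 1))
    have h2 : deriv (fun x => x * iteratedDeriv (k + 1) f x + (k + 1) * iteratedDeriv k f x) x
        = 1 * iteratedDeriv (k + 1) f x + id x * iteratedDeriv (k + 1 + 1) f x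
          + (k + 1) * iteratedDeriv (k + 1) f x := h1.deriv
    rw [h2]
    simp only [id]
    push_cast
    ring

/-- the partial primitives -/
noncomputable def M (h : ℝ → ℝ) (R : ℝ) (n j : ℕ) (x : ℝ) : ℝ :=
  ∫ y in x..R, y ^ (n - 1 - j) * iteratedDeriv n h y

lemma M_hasDeriv {h : ℝ → ℝ} (hh : ContDiff ℝ (⊤ : ℕ∞) h) (R : ℝ) (n j : ℕ) (x : ℝ) :
    HasDerivAt (M h R n j) (-(x ^ (n - 1 - j) * iteratedDeriv n h x)) x := by
  have hc : Continuous fun y : ℝ => y ^ (n - 1 - j) * iteratedDeriv n h y :=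
    (continuous_pow _).mul (iter_cont hh n)
  have h1 := (hc.integral_hasStrictDerivAt R x).hasDerivAt.neg
  have h2 : M h R n j = -fun u => ∫ y in R..u, y ^ (n - 1 - j) * iteratedDeriv n h y := by
    funext u
    unfold M
    rw [intervalIntegral.integral_symm]
    rfl
  rw [h2]
  exact h1

lemma M_cont {h : ℝ → ℝ} (hh : ContDiff ℝ (⊤ : ℕ∞) h) (R : ℝ) (n j : ℕ) : Continuous (M h R n j) :=
  continuous_iff_continuousAt.2 fun x => (M_hasDeriv hh R n j x).continuousAt

lemma M_end (h : ℝ → ℝ) (R : ℝ) (n j : ℕ) : M h R n j R = 0 := by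
  unfold M; simp

lemma M_step {h : ℝ → ℝ} (hh : ContDiff ℝ (⊤ : ℕ∞) h) (R : ℝ) (hR : ∀ n, iteratedDeriv n h R = 0)
    {n j : ℕ} (hj : j < n) (x : ℝ) :
    M h R (n + 1) j x = -(x ^ (n - j) * iteratedDeriv n h x) - (n - j) * M h R n j x := by
  obtain ⟨k, rfl⟩ : ∃ k, n = j + 1 + k := ⟨n - j - 1, by omega⟩
  unfold M
  have e1 : j + 1 + k + 1 - 1 - j = k + 1 := by omega
  have e2 : j + 1 + k - 1 - j = k := by omega
  have e3 : j + 1 + k - j = k + 1 := by omega
  rw [e1, e2, e3]
  set n := j + 1 + k with hn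
  have h1 : ∀ y ∈ Set.uIcc x R, HasDerivAt (fun y => y ^ (k + 1) * iteratedDeriv n h y)
      ((k + 1 : ℕ) * y ^ (k + 1 - 1) * iteratedDeriv n h y + y ^ (k + 1) * iteratedDeriv (n + 1) h y) y :=
    fun y _ => (hasDerivAt_pow (k + 1) y).mul (iter_hasDeriv hh n y)
  have hc1 : Continuous fun y : ℝ => ((k + 1 : ℕ) : ℝ) * y ^ (k + 1 - 1) * iteratedDeriv n h y :=
    (continuous_const.mul (continuous_pow _)).mul (iter_cont hh n)
  have hc2 : Continuous fun y : ℝ => y ^ (k + 1) * iteratedDeriv (n + 1) h y :=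
    (continuous_pow _).mul (iter_cont hh (n + 1))
  have h2 := intervalIntegral.integral_eq_sub_of_hasDerivAt h1 ((hc1.add hc2).intervalIntegrable _ _)
  rw [intervalIntegral.integral_add (hc1.intervalIntegrable _ _) (hc2.intervalIntegrable _ _), hR n] at h2
  have h3 : ∫ y in x..R, ((k + 1 : ℕ) : ℝ) * y ^ (k + 1 - 1) * iteratedDeriv n h y
      = (k + 1) * ∫ y in x..R, y ^ k * iteratedDeriv n h y := by
    rw [← intervalIntegral.integral_const_mul]
    refine intervalIntegral.integral_congr fun y _ => ?_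
    simp only [Nat.add_sub_cancel]
    push_cast
    ring
  rw [h3] at h2
  have e4 : ((n : ℝ) - j) = k + 1 := by rw [hn]; push_cast; ring
  rw [e4]
  linarith

lemma M_last {h : ℝ → ℝ} (hh : ContDiff ℝ (⊤ : ℕ∞) h) (R : ℝ) (hR : ∀ n, iteratedDeriv n h R = 0)
    (n : ℕ) (x : ℝ) : M h R (n + 1) n x = -iteratedDeriv n h x := by
  unfold M
  have e1 : n + 1 - 1 - n = 0 := by omega
  rw [e1]
  have h1 : ∀ y ∈ Set.uIcc x R, HasDerivAt (iteratedDeriv n h) (iteratedDeriv (n + 1) h y) y :=
    fun y _ => iter_hasDeriv hh n y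
  have h2 := intervalIntegral.integral_eq_sub_of_hasDerivAt h1 ((iter_cont hh (n + 1)).intervalIntegrable _ _)
  rw [hR n, zero_sub] at h2
  rw [← h2]
  refine intervalIntegral.integral_congr fun y _ => ?_
  simp

lemma mul_pow_sub (j : ℕ) (x : ℝ) : x * ((j : ℝ) * x ^ (j - 1)) = j * x ^ j := by
  rcases j with _ | j
  · simp
  · rw [Nat.add_sub_cancel, pow_succ]; ring

/-- the kernel representation -/
lemma rep {h : ℝ → ℝ} (hh : ContDiff ℝ (⊤ : ℕ∞) h) (R : ℝ) (hR : ∀ n, iteratedDeriv n h R = 0) (n : ℕ) :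
    ∀ x, iteratedDeriv n (fun t => t ^ n * h t) x
      = x ^ n * iteratedDeriv n h x + ∑ j ∈ range n, r n j * (x ^ j * M h R n j x) := by
  induction n with
  | zero => intro x; simp
  | succ n ih =>
    intro x
    have hs : ContDiff ℝ (⊤ : ℕ∞) (fun t : ℝ => t ^ n * h t) := (contDiff_id.pow n).mul hh
    have e0 : (fun t : ℝ => t ^ (n + 1) * h t) = fun t => t * (t ^ n * h t) := by
      funext t; rw [pow_succ]; ring
    rw [e0, iter_mul_id hs n x, iteratedDeriv_succ]
    have e1 : iteratedDeriv n (fun t => t ^ n * h t) = fun x => x ^ n * iteratedDeriv n h x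
        + ∑ j ∈ range n, r n j * (x ^ j * M h R n j x) := funext ih
    rw [ih x, e1]
    have hd : HasDerivAt (fun x => x ^ n * iteratedDeriv n h x
        + ∑ j ∈ range n, r n j * (x ^ j * M h R n j x))
        ((n : ℝ) * x ^ (n - 1) * iteratedDeriv n h x + x ^ n * iteratedDeriv (n + 1) h x
          + ∑ j ∈ range n, r n j * ((j : ℝ) * x ^ (j - 1) * M h R n j x
            + x ^ j * -(x ^ (n - 1 - j) * iteratedDeriv n h x))) x := by
      refine ((hasDerivAt_pow n x).mul (iter_hasDeriv hh n x)).add ?_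
      have := HasDerivAt.fun_sum (u := range n) (A := fun j x => r n j * (x ^ j * M h R n j x))
        (A' := fun j => r n j * ((j : ℝ) * x ^ (j - 1) * M h R n j x
            + x ^ j * -(x ^ (n - 1 - j) * iteratedDeriv n h x))) (x := x) (fun j _ =>
          ((hasDerivAt_pow j x).mul (M_hasDeriv hh R n j x)).const_mul (r n j))
      exact this
    rw [hd.deriv, sum_range_succ, M_last hh R hR n x]
    set D := iteratedDeriv n h x with hD
    set D' := iteratedDeriv (n + 1) h x with hD'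
    have h3 : x * ∑ j ∈ range n, r n j * ((j : ℝ) * x ^ (j - 1) * M h R n j x
            + x ^ j * -(x ^ (n - 1 - j) * D))
        = ∑ j ∈ range n, r n j * (j * (x ^ j * M h R n j x)) - x ^ n * D * ∑ j ∈ range n, r n j := by
      rw [mul_sum, mul_sum, ← sum_sub_distrib]
      refine sum_congr rfl fun j hj => ?_
      have hj' := mem_range.1 hj
      have e5 : x ^ n = x * (x ^ j * x ^ (n - 1 - j)) := by
        rw [← pow_add, ← pow_succ']
        congr 1
        omega
      rw [e5]
      have e6 := mul_pow_sub j x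
      linear_combination (r n j * M h R n j x) * e6
    have h4 : ∑ j ∈ range n, r (n + 1) j * (x ^ j * M h R (n + 1) j x)
        = -(x ^ n * D) * ∑ j ∈ range n, r (n + 1) j
          + ∑ j ∈ range n, r n j * ((n + j + 1) * (x ^ j * M h R n j x)) := by
      rw [mul_sum, ← sum_add_distrib]
      refine sum_congr rfl fun j hj => ?_
      have hj' := mem_range.1 hj
      have a2 : (n : ℝ) - j ≠ 0 := by
        have : (j : ℝ) < n := by exact_mod_cast hj'
        intro h; linarith
      have e5 : x ^ n = x ^ j * x ^ (n - j) := by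
        rw [← pow_add]; congr 1; omega
      rw [M_step hh R hR hj', e5]
      have e6 : r (n + 1) j * (n - j) = -r n j * (n + j + 1) := by
        rw [r_rec hj']
        field_simp
      linear_combination -(x ^ j * M h R n j x) * e6
    have h5 := sum_r (n + 1)
    rw [sum_range_succ] at h5
    have h6 := sum_r n
    have h7 : ∑ j ∈ range n, r n j * ((n + j + 1) * (x ^ j * M h R n j x))
        = ∑ j ∈ range n, r n j * (j * (x ^ j * M h R n j x)) + (n + 1) * ∑ j ∈ range n, r n j * (x ^ j * M h R n j x) := by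
      rw [mul_sum, ← sum_add_distrib]
      exact sum_congr rfl fun j _ => by ring
    rw [h4, h7]
    have h8 : x * ((n : ℝ) * x ^ (n - 1) * D) = n * x ^ n * D := by
      have := mul_pow_sub n x
      linear_combination D * this
    have h9 : x * ((n : ℝ) * x ^ (n - 1) * D + x ^ n * D' + ∑ j ∈ range n, r n j * ((j : ℝ) * x ^ (j - 1) * M h R n j x
            + x ^ j * -(x ^ (n - 1 - j) * D)))
        = n * x ^ n * D + x ^ (n + 1) * D' + (∑ j ∈ range n, r n j * (j * (x ^ j * M h R n j x)) - x ^ n * D * ∑ j ∈ range n, r n j) := by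
      rw [← h3, pow_succ]
      linear_combination h8
    rw [h9, h6]
    have h10 : ∑ j ∈ range n, r (n + 1) j = -((n + 1 : ℕ) : ℝ) ^ 2 - r (n + 1) n := by linarith
    rw [h10]
    push_cast
    ring

end Pool.Agent.R227.BT
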