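import Pool.Agent.R227.BT4

/-!
# Powers of the Beurling transform on the angular class, `p = 4`: autocorrelations (helper227)
-/

set_option autoImplicit false

namespace Pool.Agent.R227.BT

open Finset MeasureTheory

/-- nonnegative continuous functions vanishing from `R` on -/
structure Hyp (H : ℝ → ℝ) (R : ℝ) : Prop where
  cont : Continuous H
  nn : ∀ x, 0 ≤ H x
  van : ∀ x, R ≤ x → H x = 0
  pos : 0 < R

lemma intg {f : ℝ → ℝ} (hf : Continuous f) (c : ℝ) (hv : ∀ x, c ≤ x → f x = 0) :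
    IntegrableOn f (Set.Ioi 0) := by
  have h1 : IntegrableOn f (Set.Icc 0 c) := hf.integrableOn_Icc
  have h2 : IntegrableOn f (Set.Ioi c) :=
    (integrableOn_zero).congr_fun (fun x hx => (hv x (le_of_lt hx)).symm) measurableSet_Ioi
  refine (h1.union h2).mono_set fun x hx => ?_
  by_cases h : x ≤ c
  · exact Or.inl ⟨le_of_lt hx, h⟩
  · exact Or.inr (not_le.1 h)

/-- the inner products of the dilates -/
noncomputable def ip (H : ℝ → ℝ) (a b : ℝ) : ℝ := ∫ x in Set.Ioi 0, H (a * x) * H (b * x)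

/-- the autocorrelation -/
noncomputable def Rf (H : ℝ → ℝ) (σ : ℝ) : ℝ := ip H σ 1

section

variable {H : ℝ → ℝ} {R : ℝ} (hH : Hyp H R)
include hH

lemma ip_int {a b : ℝ} (ha : 0 < a) :
    IntegrableOn (fun x => H (a * x) * H (b * x)) (Set.Ioi 0) := by
  refine intg ((hH.cont.comp (continuous_const.mul continuous_id)).mul
    (hH.cont.comp (continuous_const.mul continuous_id))) (R / a) fun x hx => ?_
  have : R ≤ a * x := by
    rw [div_le_iff₀ ha] at hx; linarith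
  rw [hH.van _ this, zero_mul]

omit hH in
lemma ip_comm (a b : ℝ) : ip H a b = ip H b a := by
  unfold ip
  refine integral_congr_ae (Filter.Eventually.of_forall fun x => ?_)
  simp only; ring

lemma ip_nonneg (a b : ℝ) : 0 ≤ ip H a b :=
  integral_nonneg fun x => mul_nonneg (hH.nn _) (hH.nn _)

omit hH in
lemma ip_scale {a b : ℝ} (hb : 0 < b) : ip H a b = Rf H (a / b) / b := by
  unfold Rf ip
  have h1 := integral_comp_mul_left_Ioi (fun x => H (a / b * x) * H (1 * x)) 0 hb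
  rw [mul_zero, smul_eq_mul] at h1
  rw [div_eq_inv_mul, ← h1]
  refine integral_congr_ae (Filter.Eventually.of_forall fun x => ?_)
  simp only
  have : a / b * (b * x) = a * x := by field_simp
  rw [this, one_mul]

lemma psd (k : ℕ) (c α : Fin k → ℝ) (hα : ∀ i, 0 < α i) :
    0 ≤ ∑ i, ∑ j, c i * c j * ip H (α i) (α j) := by
  have h1 : ∑ i, ∑ j, c i * c j * ip H (α i) (α j)
      = ∫ x in Set.Ioi 0, (∑ i, c i * H (α i * x)) ^ 2 := by
    have e1 : ∀ x : ℝ, (∑ i, c i * H (α i * x)) ^ 2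
        = ∑ i, ∑ j, c i * c j * (H (α i * x) * H (α j * x)) := by
      intro x
      rw [sq, sum_mul_sum]
      refine sum_congr rfl fun i _ => sum_congr rfl fun j _ => ?_
      ring
    simp_rw [e1]
    rw [integral_finsetSum]
    · refine sum_congr rfl fun i _ => ?_
      rw [integral_finsetSum]
      · refine sum_congr rfl fun j _ => ?_
        rw [integral_const_mul]
        rfl
      · intro j _
        exact (ip_int hH (hα i)).const_mul _
    · intro i _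
      exact integrable_finsetSum _ fun j _ => (ip_int hH (hα i)).const_mul _
  rw [h1]
  exact integral_nonneg fun x => sq_nonneg _

lemma Rf_nonneg (σ : ℝ) : 0 ≤ Rf H σ := ip_nonneg hH _ _

lemma Rf_le {s : ℝ} (hs : 0 < s) : s * Rf H (s ^ 2) ≤ Rf H 1 := by
  have h1 := psd hH 2 ![1, -s] ![1, s ^ 2] (by intro i; fin_cases i <;> simp <;> positivity)
  simp only [Fin.sum_univ_two, Matrix.cons_val_zero, Matrix.cons_val_one] at h1
  have e1 : ip H 1 1 = Rf H 1 := rfl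
  have e2 : ip H (s ^ 2) 1 = Rf H (s ^ 2) := rfl
  have e3 : ip H 1 (s ^ 2) = Rf H (s ^ 2) := by rw [ip_comm]; rfl
  have e4 : ip H (s ^ 2) (s ^ 2) = Rf H 1 / s ^ 2 := by
    rw [ip_scale (by positivity), div_self (by positivity)]
  rw [e1, e2, e3, e4] at h1
  have e5 : -s * -s * (Rf H 1 / s ^ 2) = Rf H 1 := by field_simp
  rw [e5] at h1
  linarith

lemma four {s τ : ℝ} (hs : 0 < s) (hτ : 0 < τ) :
    τ * (2 * Rf H (τ ^ 2) + s * Rf H (s ^ 2 * τ ^ 2) + s * ip H (τ ^ 2) (s ^ 2))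
      ≤ 2 * Rf H 1 + 2 * s * Rf H (s ^ 2) := by
  have h1 := psd hH 4 ![1, s, -τ, -(τ * s)] ![1, s ^ 2, τ ^ 2, s ^ 2 * τ ^ 2]
    (by intro i; fin_cases i <;> simp <;> positivity)
  simp only [Fin.sum_univ_four, Matrix.cons_val_zero, Matrix.cons_val_one, Matrix.cons_val] at h1
  have e11 : ip H 1 1 = Rf H 1 := rfl
  have e21 : ip H (s ^ 2) 1 = Rf H (s ^ 2) := rfl
  have e12 : ip H 1 (s ^ 2) = Rf H (s ^ 2) := by rw [ip_comm]; rfl
  have e31 : ip H (τ ^ 2) 1 = Rf H (τ ^ 2) := rfl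
  have e13 : ip H 1 (τ ^ 2) = Rf H (τ ^ 2) := by rw [ip_comm]; rfl
  have e41 : ip H (s ^ 2 * τ ^ 2) 1 = Rf H (s ^ 2 * τ ^ 2) := rfl
  have e14 : ip H 1 (s ^ 2 * τ ^ 2) = Rf H (s ^ 2 * τ ^ 2) := by rw [ip_comm]; rfl
  have e22 : ip H (s ^ 2) (s ^ 2) = Rf H 1 / s ^ 2 := by
    rw [ip_scale (by positivity), div_self (by positivity)]
  have e33 : ip H (τ ^ 2) (τ ^ 2) = Rf H 1 / τ ^ 2 := by
    rw [ip_scale (by positivity), div_self (by positivity)]
  have e44 : ip H (s ^ 2 * τ ^ 2) (s ^ 2 * τ ^ 2) = Rf H 1 / (s ^ 2 * τ ^ 2) := by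
    rw [ip_scale (by positivity), div_self (by positivity)]
  have e23 : ip H (s ^ 2) (τ ^ 2) = ip H (τ ^ 2) (s ^ 2) := ip_comm _ _
  have e42 : ip H (s ^ 2 * τ ^ 2) (s ^ 2) = Rf H (τ ^ 2) / s ^ 2 := by
    rw [ip_scale (by positivity)]
    congr 2
    field_simp
  have e24 : ip H (s ^ 2) (s ^ 2 * τ ^ 2) = Rf H (τ ^ 2) / s ^ 2 := by rw [ip_comm, e42]
  have e43 : ip H (s ^ 2 * τ ^ 2) (τ ^ 2) = Rf H (s ^ 2) / τ ^ 2 := by
    rw [ip_scale (by positivity)]
    congr 2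
    field_simp
  have e34 : ip H (τ ^ 2) (s ^ 2 * τ ^ 2) = Rf H (s ^ 2) / τ ^ 2 := by rw [ip_comm, e43]
  rw [e11, e21, e12, e31, e13, e41, e14, e22, e33, e44, e23, e42, e24, e43, e34] at h1
  have h2 : (1 * 1 * Rf H 1 + 1 * s * Rf H (s ^ 2) + 1 * -τ * Rf H (τ ^ 2) + 1 * -(τ * s) * Rf H (s ^ 2 * τ ^ 2) +
      (s * 1 * Rf H (s ^ 2) + s * s * (Rf H 1 / s ^ 2) + s * -τ * ip H (τ ^ 2) (s ^ 2) + s * -(τ * s) * (Rf H (τ ^ 2) / s ^ 2)) +
      (-τ * 1 * Rf H (τ ^ 2) + -τ * s * ip H (τ ^ 2) (s ^ 2) + -τ * -τ * (Rf H 1 / τ ^ 2) + -τ * -(τ * s) * (Rf H (s ^ 2) / τ ^ 2)) +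
      (-(τ * s) * 1 * Rf H (s ^ 2 * τ ^ 2) + -(τ * s) * s * (Rf H (τ ^ 2) / s ^ 2) + -(τ * s) * -τ * (Rf H (s ^ 2) / τ ^ 2)
        + -(τ * s) * -(τ * s) * (Rf H 1 / (s ^ 2 * τ ^ 2))))
      = 2 * (2 * Rf H 1 + 2 * s * Rf H (s ^ 2)
        - τ * (2 * Rf H (τ ^ 2) + s * Rf H (s ^ 2 * τ ^ 2) + s * ip H (τ ^ 2) (s ^ 2))) := by
    field_simp
    ring
  rw [h2] at h1
  linarith

lemma Rf_eq (σ : ℝ) : Rf H σ = ∫ x in (0:ℝ)..R, H (σ * x) * H x := by
  unfold Rf ip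
  rw [intervalIntegral.integral_of_le hH.pos.le]
  simp only [one_mul]
  refine (setIntegral_eq_of_subset_of_forall_sdiff_eq_zero measurableSet_Ioi
    (fun x hx => hx.1) fun x hx => ?_)
  have h1 : R < x := by
    by_contra hcon
    exact hx.2 ⟨hx.1, not_lt.1 hcon⟩
  rw [hH.van x h1.le, mul_zero]

lemma Rf_cont : Continuous (Rf H) := by
  have h1 : Rf H = fun σ => ∫ x in (0:ℝ)..R, H (σ * x) * H x := funext (Rf_eq hH)
  rw [h1]
  apply intervalIntegral.continuous_parametric_intervalIntegral_of_continuous'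
  exact (hH.cont.comp (continuous_fst.mul continuous_snd)).mul (hH.cont.comp continuous_snd)

end

/-- the moments of the autocorrelation -/
noncomputable def rho (H : ℝ → ℝ) (k : ℕ) : ℝ := ∫ σ in (0:ℝ)..1, σ ^ k * Rf H σ

section

variable {H : ℝ → ℝ} {R : ℝ} (hH : Hyp H R)
include hH

lemma rho_nonneg (k : ℕ) : 0 ≤ rho H k := by
  unfold rho
  apply intervalIntegral.integral_nonneg (by norm_num)
  intro u hu
  exact mul_nonneg (pow_nonneg hu.1 _) (Rf_nonneg hH u)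

lemma Rf_le' {σ : ℝ} (hσ : 0 < σ) : Rf H σ ≤ Rf H 1 * σ ^ (-(1 / 2) : ℝ) := by
  have h1 := Rf_le hH (Real.sqrt_pos.2 hσ)
  rw [Real.sq_sqrt hσ.le] at h1
  rw [Real.rpow_neg hσ.le, ← Real.sqrt_eq_rpow, ← div_eq_mul_inv, le_div_iff₀ (Real.sqrt_pos.2 hσ)]
  linarith

lemma rho_le (k : ℕ) : rho H k ≤ Rf H 1 * hh k := by
  have h1 : ∫ σ in (0:ℝ)..1, Rf H 1 * σ ^ ((k : ℝ) - 1 / 2) = Rf H 1 * hh k := by
    rw [intervalIntegral.integral_const_mul, integral_rpow (Or.inl (by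
      have : (0 : ℝ) ≤ k := Nat.cast_nonneg k
      linarith))]
    congr 1
    unfold hh
    have hk : (k : ℝ) - 1 / 2 + 1 ≠ 0 := by
      have : (0 : ℝ) ≤ k := Nat.cast_nonneg k
      intro h; linarith
    rw [Real.one_rpow, Real.zero_rpow hk]
    have : (k : ℝ) - 1 / 2 + 1 = k + 1 / 2 := by ring
    rw [this]; ring
  rw [← h1]
  unfold rho
  apply intervalIntegral.integral_mono_on_of_le_Ioo (by norm_num)
  · exact ((continuous_pow k).mul (Rf_cont hH)).intervalIntegrable _ _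
  · apply IntervalIntegrable.const_mul
    apply intervalIntegral.intervalIntegrable_rpow'
    have : (0 : ℝ) ≤ k := Nat.cast_nonneg k
    linarith
  · intro x hx
    have h2 := Rf_le' hH hx.1
    have h3 : x ^ ((k : ℝ) - 1 / 2) = x ^ k * x ^ (-(1 / 2) : ℝ) := by
      rw [sub_eq_add_neg, Real.rpow_add hx.1, Real.rpow_natCast]
    rw [h3]
    have := mul_le_mul_of_nonneg_left h2 (pow_nonneg hx.1.le k)
    linarith

/-- lower bound for the autocorrelation -/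
lemma key {s : ℝ} (hs : 0 < s) (hs1 : s ≤ 1) :
    rho H 0 - (2 - s) * Rf H 1 ≤ s * Rf H (s ^ 2) := by
  set K0 : ℝ := 2 * Rf H 1 + 2 * s * Rf H (s ^ 2) with hK0
  have hc := Rf_cont hH
  have hσ : (0:ℝ) < s ^ 2 := by positivity
  have hσ1 : s ^ 2 ≤ 1 := pow_le_one₀ hs.le hs1
  have hi : ∀ a b : ℝ, IntervalIntegrable (fun t : ℝ => t ^ (-(1 / 2) : ℝ) * K0) volume a b := fun a b =>
    (intervalIntegral.intervalIntegrable_rpow' (by norm_num)).mul_const _
  have hc1 : Continuous fun t : ℝ => 2 * Rf H t + s * Rf H (s ^ 2 * t) :=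
    (continuous_const.mul hc).add (continuous_const.mul (hc.comp (continuous_const.mul continuous_id)))
  have hc2 : Continuous fun t : ℝ => s⁻¹ * Rf H (t / s ^ 2) :=
    continuous_const.mul (hc.comp (continuous_id.div_const _))
  have hpt : ∀ t : ℝ, 0 < t → 2 * Rf H t + s * Rf H (s ^ 2 * t) + s * ip H t (s ^ 2) ≤ t ^ (-(1 / 2) : ℝ) * K0 := by
    intro t ht
    have h1 := four hH hs (Real.sqrt_pos.2 ht)
    rw [Real.sq_sqrt ht.le] at h1
    rw [Real.rpow_neg ht.le, ← Real.sqrt_eq_rpow, inv_mul_eq_div, le_div_iff₀ (Real.sqrt_pos.2 ht)]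
    linarith
  have hA : ∫ t in (0:ℝ)..s ^ 2, ((2 * Rf H t + s * Rf H (s ^ 2 * t)) + s⁻¹ * Rf H (t / s ^ 2))
      ≤ ∫ t in (0:ℝ)..s ^ 2, t ^ (-(1 / 2) : ℝ) * K0 := by
    apply intervalIntegral.integral_mono_on_of_le_Ioo hσ.le ((hc1.add hc2).intervalIntegrable _ _) (hi _ _)
    intro t ht
    have h1 := hpt t ht.1
    rw [ip_scale hσ] at h1
    have e1 : s * (Rf H (t / s ^ 2) / s ^ 2) = s⁻¹ * Rf H (t / s ^ 2) := by
      field_simp
    rw [e1] at h1
    exact h1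
  have hB : ∫ t in (s ^ 2)..1, (2 * Rf H t + s * Rf H (s ^ 2 * t))
      ≤ ∫ t in (s ^ 2)..1, t ^ (-(1 / 2) : ℝ) * K0 := by
    apply intervalIntegral.integral_mono_on_of_le_Ioo hσ1 (hc1.intervalIntegrable _ _) (hi _ _)
    intro t ht
    have ht0 : 0 < t := lt_trans hσ ht.1
    have h1 := hpt t ht0
    have h2 := mul_nonneg hs.le (ip_nonneg hH t (s ^ 2))
    linarith
  have hI : ∫ t in (0:ℝ)..1, t ^ (-(1 / 2) : ℝ) * K0 = 2 * K0 := by
    rw [intervalIntegral.integral_mul_const, integral_rpow (Or.inl (by norm_num))]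
    norm_num
  have hsplit := intervalIntegral.integral_add_adjacent_intervals (hi 0 (s ^ 2)) (hi (s ^ 2) 1)
  rw [intervalIntegral.integral_add (hc1.intervalIntegrable _ _) (hc2.intervalIntegrable _ _)] at hA
  have hsplit2 := intervalIntegral.integral_add_adjacent_intervals
    (hc1.intervalIntegrable (μ := volume) 0 (s ^ 2)) (hc1.intervalIntegrable (μ := volume) (s ^ 2) 1)
  have hC : ∫ t in (0:ℝ)..1, (2 * Rf H t + s * Rf H (s ^ 2 * t))
      = 2 * rho H 0 + s⁻¹ * ∫ t in (0:ℝ)..(s ^ 2), Rf H t := by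
    have ha1 : IntervalIntegrable (fun t : ℝ => 2 * Rf H t) volume 0 1 :=
      (continuous_const.mul hc).intervalIntegrable _ _
    have ha2 : IntervalIntegrable (fun t : ℝ => s * Rf H (s ^ 2 * t)) volume 0 1 :=
      (continuous_const.mul (hc.comp (continuous_const.mul continuous_id))).intervalIntegrable _ _
    rw [intervalIntegral.integral_add ha1 ha2,
      intervalIntegral.integral_const_mul, intervalIntegral.integral_const_mul]
    have h1 : ∫ t in (0:ℝ)..1, Rf H (s ^ 2 * t) = (s ^ 2)⁻¹ * ∫ t in (0:ℝ)..(s ^ 2), Rf H t := by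
      rw [intervalIntegral.integral_comp_mul_left _ hσ.ne', mul_zero, mul_one, smul_eq_mul]
    rw [h1]
    unfold rho
    simp only [pow_zero, one_mul]
    have h2 : s * ((s ^ 2)⁻¹ * ∫ t in (0:ℝ)..(s ^ 2), Rf H t) = s⁻¹ * ∫ t in (0:ℝ)..(s ^ 2), Rf H t := by
      field_simp
    rw [h2]
  have hD : ∫ t in (0:ℝ)..(s ^ 2), s⁻¹ * Rf H (t / s ^ 2) = s * rho H 0 := by
    rw [intervalIntegral.integral_const_mul, intervalIntegral.integral_comp_div _ hσ.ne', zero_div,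
      div_self hσ.ne', smul_eq_mul]
    unfold rho
    simp only [pow_zero, one_mul]
    field_simp
  have hE : ∫ t in (s ^ 2)..1, Rf H t ≤ 2 * (1 - s) * Rf H 1 := by
    have h1 : ∫ t in (s ^ 2)..1, Rf H 1 * t ^ (-(1 / 2) : ℝ) = 2 * (1 - s) * Rf H 1 := by
      rw [intervalIntegral.integral_const_mul, integral_rpow (Or.inl (by norm_num))]
      have h2 : (s ^ 2 : ℝ) ^ ((-(1 / 2) : ℝ) + 1) = s := by
        have : (-(1 / 2) : ℝ) + 1 = 1 / 2 := by norm_num
        rw [this, ← Real.sqrt_eq_rpow, Real.sqrt_sq hs.le]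
      rw [h2, Real.one_rpow]
      norm_num
      ring
    rw [← h1]
    apply intervalIntegral.integral_mono_on_of_le_Ioo hσ1 (hc.intervalIntegrable _ _)
    · exact (intervalIntegral.intervalIntegrable_rpow' (by norm_num)).const_mul _
    · intro t ht
      exact Rf_le' hH (lt_trans hσ ht.1)
  have hF := intervalIntegral.integral_add_adjacent_intervals
    (hc.intervalIntegrable (μ := volume) 0 (s ^ 2)) (hc.intervalIntegrable (μ := volume) (s ^ 2) 1)
  have hG : ∫ t in (0:ℝ)..1, Rf H t = rho H 0 := by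
    unfold rho; simp
  rw [hG] at hF
  have hP : 0 ≤ ∫ t in (0:ℝ)..(s ^ 2), Rf H t :=
    intervalIntegral.integral_nonneg hσ.le fun u _ => Rf_nonneg hH u
  have hs2 : 1 ≤ s⁻¹ := (one_le_inv₀ hs).2 hs1
  have hQ : ∫ t in (0:ℝ)..(s ^ 2), Rf H t ≤ s⁻¹ * ∫ t in (0:ℝ)..(s ^ 2), Rf H t := by
    nlinarith
  have h0 := rho_le hH 0
  have hh0 : hh 0 = 2 := by unfold hh; norm_num
  rw [hh0] at h0
  have hR1 := Rf_nonneg hH 1
  have hfin : 3 * rho H 0 - 2 * (1 - s) * Rf H 1 + s * rho H 0 ≤ 2 * K0 := by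
    linarith
  rw [hK0] at hfin
  nlinarith

end

end Pool.Agent.R227.BT
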