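import Pool.Agent.R227.BT6

/-!
# Powers of the Beurling transform on the angular class, `p = 4`: the functions `S_j` (helper227)
-/

set_option autoImplicit false

namespace Pool.Agent.R227.BT

open Finset MeasureTheory

lemma isum {a b : ℝ} (s : Finset ℕ) {f : ℕ → ℝ → ℝ} (h : ∀ i ∈ s, IntervalIntegrable (f i) volume a b) :
    IntervalIntegrable (fun x => ∑ i ∈ s, f i x) volume a b := by
  have h1 := IntervalIntegrable.sum s h
  have e : (∑ i ∈ s, f i) = fun x => ∑ i ∈ s, f i x := by
    funext x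
    rw [Finset.sum_apply]
  rwa [e] at h1

/-- the symbol vanishes at `1, ..., n` -/
lemma m_int {n i : ℕ} (hi : i < n) : m n ((i : ℝ) + 1) = 0 := by
  unfold m
  refine prod_eq_zero (i := i) (mem_range.2 hi) ?_
  have : (i : ℝ) + 1 - i - 1 = 0 := by ring
  rw [this, zero_div]

lemma sum_one (n : ℕ) : ∑ i ∈ range n, ∑ j ∈ range n, r n i * r n j * (1 / ((i : ℝ) + j + 1)) = (n : ℝ) ^ 2 := by
  have h1 : ∀ i ∈ range n, ∑ j ∈ range n, r n i * r n j * (1 / ((i : ℝ) + j + 1)) = - r n i := by
    intro i hi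
    have h2 := pf_pos n (s := (i : ℝ) + 1) (by positivity)
    rw [m_int (mem_range.1 hi)] at h2
    have h3 : ∑ j ∈ range n, r n i * r n j * (1 / ((i : ℝ) + j + 1))
        = r n i * ∑ j ∈ range n, r n j / ((i : ℝ) + 1 + j) := by
      rw [mul_sum]
      refine sum_congr rfl fun j _ => ?_
      have : (i : ℝ) + j + 1 = i + 1 + j := by ring
      rw [this]; ring
    rw [h3]
    linear_combination (r n i) * h2
  rw [sum_congr rfl h1, sum_neg_distrib, sum_r]
  ring

/-- the polynomial kernel -/
noncomputable def kp (n : ℕ) (σ : ℝ) : ℝ := ∑ j ∈ range n, r n j * σ ^ j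

lemma kp_sq (n : ℕ) (σ : ℝ) : kp n σ ^ 2 = ∑ i ∈ range n, ∑ j ∈ range n, r n i * r n j * σ ^ (i + j) := by
  unfold kp
  rw [sq, sum_mul_sum]
  refine sum_congr rfl fun i _ => sum_congr rfl fun j _ => ?_
  rw [pow_add]; ring

lemma kp_cont (n : ℕ) : Continuous (kp n) := by
  unfold kp
  exact continuous_finsetSum _ fun j _ => continuous_const.mul (continuous_pow _)

section

variable {H : ℝ → ℝ} {R : ℝ} (hH : Hyp H R)
include hH

lemma KB (n : ℕ) (hn : 1 ≤ n) : ((n : ℝ) ^ 2 + ph n) * (rho H 0 - Rf H 1) - ph n * Rf H 1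
    ≤ ∑ i ∈ range n, ∑ j ∈ range n, r n i * r n j * rho H (i + j) := by
  have hc := Rf_cont hH
  have h1 : ∑ i ∈ range n, ∑ j ∈ range n, r n i * r n j * rho H (i + j)
      = ∫ σ in (0:ℝ)..1, kp n σ ^ 2 * Rf H σ := by
    simp_rw [kp_sq, sum_mul]
    rw [intervalIntegral.integral_finsetSum]
    · refine sum_congr rfl fun i _ => ?_
      rw [intervalIntegral.integral_finsetSum]
      · refine sum_congr rfl fun j _ => ?_
        unfold rho
        rw [← intervalIntegral.integral_const_mul]
        refine intervalIntegral.integral_congr fun σ _ => ?_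
        ring
      · intro j _
        exact ((continuous_const.mul (continuous_pow _)).mul hc).intervalIntegrable _ _
    · intro i _
      exact (continuous_finsetSum _ fun j _ => (continuous_const.mul (continuous_pow _)).mul hc).intervalIntegrable _ _
  have hpw : ∀ (i : ℕ) (c : ℝ), -1 < c → ∫ σ in (0:ℝ)..1, σ ^ i * σ ^ c = 1 / ((i : ℝ) + c + 1) := by
    intro i c hc
    have e1 : ∫ σ in (0:ℝ)..1, σ ^ i * σ ^ c = ∫ σ in (0:ℝ)..1, σ ^ ((i : ℝ) + c) := by
      apply intervalIntegral.integral_congr_ae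
      refine Filter.Eventually.of_forall fun x hx => ?_
      rw [Set.uIoc_of_le (by norm_num)] at hx
      rw [Real.rpow_add hx.1, Real.rpow_natCast]
    have hi : (0 : ℝ) ≤ i := Nat.cast_nonneg i
    rw [e1, integral_rpow (Or.inl (by linarith)), Real.one_rpow, Real.zero_rpow (by intro h; linarith), sub_zero]
  have hint : ∀ c : ℝ, -1 < c → IntervalIntegrable (fun σ : ℝ => kp n σ ^ 2 * σ ^ c) volume 0 1 := by
    intro c hc
    exact (intervalIntegral.intervalIntegrable_rpow' hc).continuousOn_mul ((kp_cont n).pow 2).continuousOn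
  have hval : ∀ c : ℝ, -1 < c → ∫ σ in (0:ℝ)..1, kp n σ ^ 2 * σ ^ c
      = ∑ i ∈ range n, ∑ j ∈ range n, r n i * r n j * (1 / ((i : ℝ) + j + (c + 1))) := by
    intro c hc
    have hii : ∀ k : ℕ, IntervalIntegrable (fun σ : ℝ => σ ^ k * σ ^ c) volume 0 1 := fun k =>
      (intervalIntegral.intervalIntegrable_rpow' hc).continuousOn_mul (continuous_pow k).continuousOn
    simp_rw [kp_sq, sum_mul]
    rw [intervalIntegral.integral_finsetSum]
    · refine sum_congr rfl fun i _ => ?_
      rw [intervalIntegral.integral_finsetSum]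
      · refine sum_congr rfl fun j _ => ?_
        have e1 := hpw (i + j) c hc
        have e2 : ∫ σ in (0:ℝ)..1, r n i * r n j * σ ^ (i + j) * σ ^ c
            = r n i * r n j * ∫ σ in (0:ℝ)..1, σ ^ (i + j) * σ ^ c := by
          rw [← intervalIntegral.integral_const_mul]
          refine intervalIntegral.integral_congr fun σ _ => ?_
          ring
        rw [e2, e1]
        push_cast
        rw [add_assoc ((i : ℝ) + j)]
      · intro j _
        have := (hii (i + j)).const_mul (r n i * r n j)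
        exact this.congr fun x _ => by ring
    · intro i _
      apply isum
      intro j _
      have := (hii (i + j)).const_mul (r n i * r n j)
      exact this.congr fun x _ => by ring
  have e1 := hval (-(1 / 2)) (by norm_num)
  have e2 := hval 0 (by norm_num)
  have e3 : ∑ i ∈ range n, ∑ j ∈ range n, r n i * r n j * (1 / ((i : ℝ) + j + (-(1 / 2) + 1))) = (n : ℝ) ^ 2 + ph n := by
    rw [← sum_ph hn]
    refine sum_congr rfl fun i _ => sum_congr rfl fun j _ => ?_
    unfold hh
    push_cast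
    norm_num
  have e4 : ∑ i ∈ range n, ∑ j ∈ range n, r n i * r n j * (1 / ((i : ℝ) + j + (0 + 1))) = (n : ℝ) ^ 2 := by
    rw [← sum_one n]
    simp
  rw [e3] at e1
  rw [e4] at e2
  have h2 : ∫ σ in (0:ℝ)..1, (kp n σ ^ 2 * σ ^ (-(1 / 2) : ℝ) * (rho H 0 - 2 * Rf H 1) + kp n σ ^ 2 * σ ^ (0 : ℝ) * Rf H 1)
      ≤ ∫ σ in (0:ℝ)..1, kp n σ ^ 2 * Rf H σ := by
    apply intervalIntegral.integral_mono_on_of_le_Ioo (by norm_num)
    · exact ((hint _ (by norm_num)).mul_const _).add ((hint 0 (by norm_num)).mul_const _)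
    · exact (((kp_cont n).pow 2).mul hc).intervalIntegrable _ _
    · intro σ hσ
      have hs : 0 < Real.sqrt σ := Real.sqrt_pos.2 hσ.1
      have hs1 : Real.sqrt σ ≤ 1 := Real.sqrt_le_one.2 hσ.2.le
      have hk := key hH hs hs1
      rw [Real.sq_sqrt hσ.1.le] at hk
      rw [Real.rpow_zero, Real.rpow_neg hσ.1.le, ← Real.sqrt_eq_rpow, mul_one]
      have e5 : kp n σ ^ 2 * (Real.sqrt σ)⁻¹ * (rho H 0 - 2 * Rf H 1) + kp n σ ^ 2 * Rf H 1
          = kp n σ ^ 2 * ((rho H 0 - (2 - Real.sqrt σ) * Rf H 1) / Real.sqrt σ) := by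
        field_simp
        ring
      rw [e5]
      apply mul_le_mul_of_nonneg_left _ (sq_nonneg _)
      rw [div_le_iff₀ hs]
      linarith
  rw [intervalIntegral.integral_add ((hint _ (by norm_num)).mul_const _) ((hint 0 (by norm_num)).mul_const _),
    intervalIntegral.integral_mul_const, intervalIntegral.integral_mul_const, e1, e2, ← h1] at h2
  linarith

end

end Pool.Agent.R227.BT
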