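import Pool.Agent.R227.BT7

/-!
# Powers of the Beurling transform on the angular class, `p = 4`: inner products (helper227)
-/

set_option autoImplicit false

namespace Pool.Agent.R227.BT

open Finset MeasureTheory Filter Topology

/-- the averages -/
noncomputable def J (H : ℝ → ℝ) (k : ℕ) (x : ℝ) : ℝ := (∫ z in (0:ℝ)..x, z ^ k * H z) / x ^ (k + 1)

/-- the functions `S_j` -/
noncomputable def S (H : ℝ → ℝ) (n j : ℕ) (x : ℝ) : ℝ := H x + ∑ i ∈ range n, r n i * J H (i + j) x

section

variable {H : ℝ → ℝ} {R : ℝ} (hH : Hyp H R)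
include hH

lemma zH_cont (k : ℕ) : Continuous fun z : ℝ => z ^ k * H z := (continuous_pow k).mul hH.cont

lemma J_hasDeriv (k : ℕ) {x : ℝ} (hx : 0 < x) :
    HasDerivAt (J H k) ((H x - (k + 1) * J H k x) / x) x := by
  have h1 : HasDerivAt (fun u => ∫ z in (0:ℝ)..u, z ^ k * H z) (x ^ k * H x) x :=
    ((zH_cont hH k).integral_hasStrictDerivAt 0 x).hasDerivAt
  have h2 := h1.div (hasDerivAt_pow (k + 1) x) (by positivity)
  refine h2.congr_deriv ?_
  unfold J
  rw [Nat.add_sub_cancel]
  have hx' : x ≠ 0 := hx.ne'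
  field_simp
  push_cast
  ring

lemma J_nonneg (k : ℕ) {x : ℝ} (hx : 0 < x) : 0 ≤ J H k x := by
  unfold J
  apply div_nonneg _ (by positivity)
  exact intervalIntegral.integral_nonneg hx.le fun u hu => mul_nonneg (pow_nonneg hu.1 _) (hH.nn _)

lemma H_bdd : ∃ B : ℝ, 0 ≤ B ∧ ∀ x, 0 ≤ x → H x ≤ B := by
  obtain ⟨B, hB⟩ := (isCompact_Icc (a := (0:ℝ)) (b := R)).exists_bound_of_continuousOn hH.cont.continuousOn
  refine ⟨max B 0, le_max_right _ _, fun x hx => ?_⟩
  rcases le_total x R with h | h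
  · have := hB x ⟨hx, h⟩
    rw [Real.norm_eq_abs] at this
    exact ((le_abs_self _).trans this).trans (le_max_left _ _)
  · rw [hH.van x h]; exact le_max_right _ _

lemma J_bdd : ∃ C : ℝ, 0 ≤ C ∧ ∀ (k : ℕ) (x : ℝ), 0 < x → J H k x ≤ C ∧ x * J H k x ≤ C := by
  obtain ⟨B, hB0, hB⟩ := H_bdd hH
  set C1 : ℝ := B * R with hC1
  have hC10 : 0 ≤ C1 := mul_nonneg hB0 hH.pos.le
  have hint : ∀ x : ℝ, 0 < x → ∫ z in (0:ℝ)..x, H z ≤ C1 := by
    intro x hx
    rcases le_total x R with h | h
    · have h1 : ∫ z in (0:ℝ)..x, H z ≤ ∫ z in (0:ℝ)..x, B := by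
        apply intervalIntegral.integral_mono_on hx.le (hH.cont.intervalIntegrable _ _)
          (continuous_const.intervalIntegrable _ _)
        intro z hz
        exact hB z hz.1
      rw [intervalIntegral.integral_const, smul_eq_mul, sub_zero] at h1
      refine h1.trans ?_
      rw [hC1, mul_comm]
      exact mul_le_mul_of_nonneg_left h hB0
    · have h0 := intervalIntegral.integral_add_adjacent_intervals
        (hH.cont.intervalIntegrable (μ := volume) 0 R) (hH.cont.intervalIntegrable (μ := volume) R x)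
      have h2 : ∫ z in R..x, H z = 0 := by
        rw [intervalIntegral.integral_congr (g := fun _ => (0:ℝ))]
        · simp
        · intro z hz
          rw [Set.uIcc_of_le h] at hz
          exact hH.van z hz.1
      rw [h2, add_zero] at h0
      rw [← h0]
      have h1 : ∫ z in (0:ℝ)..R, H z ≤ ∫ z in (0:ℝ)..R, B := by
        apply intervalIntegral.integral_mono_on hH.pos.le (hH.cont.intervalIntegrable _ _)
          (continuous_const.intervalIntegrable _ _)
        intro z hz
        exact hB z hz.1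
      rw [intervalIntegral.integral_const, smul_eq_mul, sub_zero] at h1
      rw [hC1, mul_comm]
      exact h1
  refine ⟨max B C1, le_max_of_le_left hB0, fun k x hx => ⟨?_, ?_⟩⟩
  · refine le_trans ?_ (le_max_left _ _)
    unfold J
    rw [div_le_iff₀ (by positivity)]
    have h1 : ∫ z in (0:ℝ)..x, z ^ k * H z ≤ ∫ z in (0:ℝ)..x, x ^ k * B := by
      apply intervalIntegral.integral_mono_on hx.le ((zH_cont hH k).intervalIntegrable _ _)
        (continuous_const.intervalIntegrable _ _)
      intro z hz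
      exact mul_le_mul (pow_le_pow_left₀ hz.1 hz.2 k) (hB z hz.1) (hH.nn z) (by positivity)
    rw [intervalIntegral.integral_const, smul_eq_mul, sub_zero] at h1
    refine h1.trans (le_of_eq ?_)
    rw [pow_succ]; ring
  · refine le_trans ?_ (le_max_right _ _)
    have h1 : ∫ z in (0:ℝ)..x, z ^ k * H z ≤ ∫ z in (0:ℝ)..x, x ^ k * H z := by
      apply intervalIntegral.integral_mono_on hx.le ((zH_cont hH k).intervalIntegrable _ _)
        ((continuous_const.mul hH.cont).intervalIntegrable _ _)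
      intro z hz
      exact mul_le_mul_of_nonneg_right (pow_le_pow_left₀ hz.1 hz.2 k) (hH.nn z)
    rw [intervalIntegral.integral_const_mul] at h1
    have h2 := mul_le_mul_of_nonneg_left (hint x hx) (by positivity : (0:ℝ) ≤ x ^ k)
    unfold J
    rw [mul_div_assoc', div_le_iff₀ (by positivity), pow_succ]
    nlinarith

lemma J_contOn (k : ℕ) : ContinuousOn (J H k) (Set.Ioi 0) := fun x hx =>
  (J_hasDeriv hH k hx).continuousAt.continuousWithinAt

lemma JJ_int (k l : ℕ) : IntegrableOn (fun x => J H k x * J H l x) (Set.Ioi 0) := by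
  obtain ⟨C, hC0, hC⟩ := J_bdd hH
  have h1 : IntegrableOn (fun x : ℝ => 2 * C ^ 2 * (1 + x ^ 2)⁻¹) (Set.Ioi 0) :=
    (integrable_inv_one_add_sq.const_mul _).integrableOn
  refine h1.mono' (((J_contOn hH k).mul (J_contOn hH l)).aestronglyMeasurable measurableSet_Ioi) ?_
  refine (ae_restrict_iff' measurableSet_Ioi).2 (Eventually.of_forall fun x hx => ?_)
  have hx0 : (0:ℝ) < x := hx
  obtain ⟨a1, a2⟩ := hC k x hx
  obtain ⟨b1, b2⟩ := hC l x hx
  have a0 := J_nonneg hH k hx
  have b0 := J_nonneg hH l hx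
  rw [Real.norm_eq_abs, abs_of_nonneg (mul_nonneg a0 b0), ← div_eq_mul_inv, le_div_iff₀ (by positivity)]
  have h2 : J H k x * J H l x ≤ C * C := mul_le_mul a1 b1 b0 hC0
  have h3 : (x * J H k x) * (x * J H l x) ≤ C * C := mul_le_mul a2 b2 (by positivity) hC0
  nlinarith

lemma HJ_int (k : ℕ) : IntegrableOn (fun x => H x * J H k x) (Set.Ioi 0) := by
  obtain ⟨C, hC0, hC⟩ := J_bdd hH
  have h1 : IntegrableOn (fun x : ℝ => C * H x) (Set.Ioi 0) :=
    (intg hH.cont R hH.van).const_mul _
  refine h1.mono' ((hH.cont.continuousOn.mul (J_contOn hH k)).aestronglyMeasurable measurableSet_Ioi) ?_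
  refine (ae_restrict_iff' measurableSet_Ioi).2 (Eventually.of_forall fun x hx => ?_)
  obtain ⟨a1, a2⟩ := hC k x hx
  have a0 := J_nonneg hH k hx
  rw [Real.norm_eq_abs, abs_of_nonneg (mul_nonneg (hH.nn x) a0)]
  nlinarith [mul_le_mul_of_nonneg_left a1 (hH.nn x)]

/-- the moments through the averages -/
lemma HJ_rho (k : ℕ) : ∫ x in Set.Ioi 0, H x * J H k x = rho H k := by
  have h1 : ∫ x in Set.Ioi 0, H x * J H k x = ∫ x in (0:ℝ)..R, H x * J H k x := by
    rw [intervalIntegral.integral_of_le hH.pos.le]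
    refine (setIntegral_eq_of_subset_of_forall_sdiff_eq_zero measurableSet_Ioi
      (fun x hx => hx.1) fun x hx => ?_)
    have h1 : R < x := by
      by_contra hcon
      exact hx.2 ⟨hx.1, not_lt.1 hcon⟩
    rw [hH.van x h1.le, zero_mul]
  have h2 : ∫ x in (0:ℝ)..R, H x * J H k x
      = ∫ x in (0:ℝ)..R, ∫ σ in (0:ℝ)..1, σ ^ k * (H (σ * x) * H x) := by
    apply intervalIntegral.integral_congr_ae
    refine Eventually.of_forall fun x hx => ?_
    rw [Set.uIoc_of_le hH.pos.le] at hx
    have hx0 : (0:ℝ) < x := hx.1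
    have h3 := intervalIntegral.integral_comp_mul_right (a := 0) (b := 1) (fun z => z ^ k * H z) hx0.ne'
    rw [zero_mul, one_mul, smul_eq_mul] at h3
    have h4 : ∫ σ in (0:ℝ)..1, σ ^ k * (H (σ * x) * H x)
        = (H x / x ^ k) * ∫ σ in (0:ℝ)..1, (σ * x) ^ k * H (σ * x) := by
      rw [← intervalIntegral.integral_const_mul]
      refine intervalIntegral.integral_congr fun σ _ => ?_
      rw [mul_pow]
      field_simp
    rw [h4, h3]
    unfold J
    rw [pow_succ]
    field_simp
  have h3 : ∫ x in (0:ℝ)..R, ∫ σ in (0:ℝ)..1, σ ^ k * (H (σ * x) * H x)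
      = ∫ σ in (0:ℝ)..1, ∫ x in (0:ℝ)..R, σ ^ k * (H (σ * x) * H x) := by
    apply intervalIntegral_intervalIntegral_swap
    have hc : Continuous (Function.uncurry fun (x σ : ℝ) => σ ^ k * (H (σ * x) * H x)) :=
      (continuous_snd.pow k).mul ((hH.cont.comp (continuous_snd.mul continuous_fst)).mul
        (hH.cont.comp continuous_fst))
    have hK : IsCompact (Set.Icc (0:ℝ) R ×ˢ Set.Icc (0:ℝ) 1) := isCompact_Icc.prod isCompact_Icc
    refine (hc.continuousOn.integrableOn_compact hK).mono_set ?_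
    rw [Set.uIoc_of_le hH.pos.le, Set.uIoc_of_le (by norm_num)]
    exact Set.prod_mono Set.Ioc_subset_Icc_self Set.Ioc_subset_Icc_self
  rw [h1, h2, h3]
  unfold rho
  refine intervalIntegral.integral_congr fun σ _ => ?_
  rw [Rf_eq hH, intervalIntegral.integral_const_mul]

lemma JJ_eq (k l : ℕ) : ∫ x in Set.Ioi 0, J H k x * J H l x = (rho H k + rho H l) / ((k : ℝ) + l + 1) := by
  obtain ⟨C, hC0, hC⟩ := J_bdd hH
  set F : ℝ → ℝ := fun x => x * (J H k x * J H l x) with hF
  set F' : ℝ → ℝ := fun x => (H x * J H l x + H x * J H k x) - ((k : ℝ) + l + 1) * (J H k x * J H l x) with hF'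
  have hd : ∀ x ∈ Set.Ioi (0:ℝ), HasDerivAt F (F' x) x := by
    intro x hx
    have hx0 : x ≠ 0 := ne_of_gt hx
    have h1 := (hasDerivAt_id x).mul ((J_hasDeriv hH k hx).mul (J_hasDeriv hH l hx))
    refine h1.congr_deriv ?_
    rw [hF']
    simp only [id, Pi.mul_apply]
    field_simp
    ring
  have hb : ∀ x : ℝ, 0 < x → |F x| ≤ x * C ^ 2 ∧ |F x| ≤ C ^ 2 / x := by
    intro x hx
    obtain ⟨a1, a2⟩ := hC k x hx
    obtain ⟨b1, b2⟩ := hC l x hx
    have a0 := J_nonneg hH k hx
    have b0 := J_nonneg hH l hx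
    have h0 : 0 ≤ F x := by rw [hF]; positivity
    rw [abs_of_nonneg h0, hF]
    simp only
    constructor
    · apply mul_le_mul_of_nonneg_left _ hx.le
      rw [sq]; exact mul_le_mul a1 b1 b0 hC0
    · rw [le_div_iff₀ hx]
      have h3 : (x * J H k x) * (x * J H l x) ≤ C * C := mul_le_mul a2 b2 (by positivity) hC0
      nlinarith
  have hcont : ContinuousWithinAt F (Set.Ici 0) 0 := by
    have hF0 : F 0 = 0 := by rw [hF]; simp
    rw [ContinuousWithinAt, hF0]
    have h1 : Tendsto (fun x : ℝ => x * C ^ 2) (𝓝[Set.Ici 0] 0) (𝓝 0) := by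
      have : Tendsto (fun x : ℝ => x * C ^ 2) (𝓝 0) (𝓝 (0 * C ^ 2)) :=
        (continuous_id.mul continuous_const).tendsto 0
      rw [zero_mul] at this
      exact this.mono_left nhdsWithin_le_nhds
    refine squeeze_zero_norm' ?_ h1
    filter_upwards [self_mem_nhdsWithin] with x hx
    rcases (Set.mem_Ici.1 hx).eq_or_lt with h | h
    · rw [← h, hF0]; simp
    · rw [Real.norm_eq_abs]; exact (hb x h).1
  have htop : Tendsto F atTop (𝓝 0) := by
    have h1 : Tendsto (fun x : ℝ => C ^ 2 / x) atTop (𝓝 0) := tendsto_const_nhds.div_atTop tendsto_id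
    refine squeeze_zero_norm' ?_ h1
    filter_upwards [eventually_gt_atTop 0] with x hx
    rw [Real.norm_eq_abs]; exact (hb x hx).2
  have hi1 := HJ_int hH k
  have hi2 := HJ_int hH l
  have hi3 := JJ_int hH k l
  have hFi : IntegrableOn F' (Set.Ioi 0) := (hi2.add hi1).sub (hi3.const_mul _)
  have h1 := integral_Ioi_of_hasDerivAt_of_tendsto hcont hd hFi htop
  have hF0 : F 0 = 0 := by rw [hF]; simp
  rw [hF0, sub_zero] at h1
  have hi4 : IntegrableOn (fun x => H x * J H l x + H x * J H k x) (Set.Ioi 0) := hi2.add hi1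
  have hi5 : IntegrableOn (fun x => ((k : ℝ) + l + 1) * (J H k x * J H l x)) (Set.Ioi 0) := hi3.const_mul _
  have h2 : ∫ x in Set.Ioi 0, F' x = (rho H l + rho H k) - ((k : ℝ) + l + 1) * ∫ x in Set.Ioi 0, J H k x * J H l x := by
    rw [← HJ_rho hH k, ← HJ_rho hH l, ← integral_add hi2 hi1, ← integral_const_mul]
    exact integral_sub hi4 hi5
  rw [h2] at h1
  rw [eq_div_iff (by positivity)]
  linarith

lemma HH_int : IntegrableOn (fun x => H x * H x) (Set.Ioi 0) :=
  intg (hH.cont.mul hH.cont) R fun x hx => by rw [hH.van x hx, zero_mul]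

omit hH in
lemma HH_eq : ∫ x in Set.Ioi 0, H x * H x = Rf H 1 := by
  unfold Rf ip
  simp

omit hH in
lemma S_expand (n j l : ℕ) (x : ℝ) : S H n j x * S H n l x
    = H x * H x + (∑ i ∈ range n, r n i * (H x * J H (i + j) x) + (∑ i ∈ range n, r n i * (H x * J H (i + l) x)
      + ∑ i ∈ range n, ∑ k ∈ range n, r n i * r n k * (J H (i + j) x * J H (k + l) x))) := by
  unfold S
  have e1 : ∑ i ∈ range n, ∑ k ∈ range n, r n i * r n k * (J H (i + j) x * J H (k + l) x)
      = (∑ i ∈ range n, r n i * J H (i + j) x) * ∑ k ∈ range n, r n k * J H (k + l) x := by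
    rw [sum_mul_sum]
    exact sum_congr rfl fun i _ => sum_congr rfl fun k _ => by ring
  have e2 : ∑ i ∈ range n, r n i * (H x * J H (i + j) x) = H x * ∑ i ∈ range n, r n i * J H (i + j) x := by
    rw [mul_sum]; exact sum_congr rfl fun i _ => by ring
  have e3 : ∑ i ∈ range n, r n i * (H x * J H (i + l) x) = H x * ∑ i ∈ range n, r n i * J H (i + l) x := by
    rw [mul_sum]; exact sum_congr rfl fun i _ => by ring
  rw [e1, e2, e3]
  ring

lemma SSint (n j l : ℕ) : IntegrableOn (fun x => S H n j x * S H n l x) (Set.Ioi 0) := by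
  have e : (fun x => S H n j x * S H n l x) = fun x => H x * H x + (∑ i ∈ range n, r n i * (H x * J H (i + j) x) + (∑ i ∈ range n, r n i * (H x * J H (i + l) x)
      + ∑ i ∈ range n, ∑ k ∈ range n, r n i * r n k * (J H (i + j) x * J H (k + l) x))) :=
    funext (S_expand n j l)
  rw [e]
  refine (HH_int hH).add (Integrable.add ?_ (Integrable.add ?_ ?_))
  · exact integrable_finsetSum _ fun i _ => (HJ_int hH _).const_mul _
  · exact integrable_finsetSum _ fun i _ => (HJ_int hH _).const_mul _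
  · exact integrable_finsetSum _ fun i _ => integrable_finsetSum _ fun k _ => (JJ_int hH _ _).const_mul _

lemma SS_eq (n j l : ℕ) : ∫ x in Set.Ioi 0, S H n j x * S H n l x = SS n (Rf H 1) (rho H) j l := by
  have i1 : IntegrableOn (fun x => ∑ i ∈ range n, r n i * (H x * J H (i + j) x)) (Set.Ioi 0) :=
    integrable_finsetSum _ fun i _ => (HJ_int hH _).const_mul _
  have i2 : IntegrableOn (fun x => ∑ i ∈ range n, r n i * (H x * J H (i + l) x)) (Set.Ioi 0) :=
    integrable_finsetSum _ fun i _ => (HJ_int hH _).const_mul _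
  have i3 : IntegrableOn (fun x => ∑ i ∈ range n, ∑ k ∈ range n, r n i * r n k * (J H (i + j) x * J H (k + l) x)) (Set.Ioi 0) :=
    integrable_finsetSum _ fun i _ => integrable_finsetSum _ fun k _ => (JJ_int hH _ _).const_mul _
  have i23 : IntegrableOn (fun x => ∑ i ∈ range n, r n i * (H x * J H (i + l) x)
      + ∑ i ∈ range n, ∑ k ∈ range n, r n i * r n k * (J H (i + j) x * J H (k + l) x)) (Set.Ioi 0) := i2.add i3
  have i123 : IntegrableOn (fun x => ∑ i ∈ range n, r n i * (H x * J H (i + j) x)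
      + (∑ i ∈ range n, r n i * (H x * J H (i + l) x)
      + ∑ i ∈ range n, ∑ k ∈ range n, r n i * r n k * (J H (i + j) x * J H (k + l) x))) (Set.Ioi 0) := i1.add i23
  simp_rw [S_expand n j l]
  rw [integral_add (HH_int hH) i123, integral_add i1 i23, integral_add i2 i3, HH_eq]
  have e1 : ∀ q : ℕ, ∫ x in Set.Ioi 0, ∑ i ∈ range n, r n i * (H x * J H (i + q) x) = ∑ i ∈ range n, r n i * rho H (i + q) := by
    intro q
    rw [integral_finsetSum _ (fun i _ => (HJ_int hH _).const_mul _)]
    refine sum_congr rfl fun i _ => ?_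
    rw [integral_const_mul, HJ_rho hH]
  have e2 : ∫ x in Set.Ioi 0, ∑ i ∈ range n, ∑ k ∈ range n, r n i * r n k * (J H (i + j) x * J H (k + l) x)
      = ∑ i ∈ range n, ∑ k ∈ range n, r n i * r n k * ((rho H (i + j) + rho H (k + l)) / (((i + j : ℕ) : ℝ) + ((k + l : ℕ) : ℝ) + 1)) := by
    rw [integral_finsetSum _ (fun i _ => integrable_finsetSum _ fun k _ => (JJ_int hH _ _).const_mul _)]
    refine sum_congr rfl fun i _ => ?_
    rw [integral_finsetSum _ (fun k _ => (JJ_int hH _ _).const_mul _)]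
    refine sum_congr rfl fun k _ => ?_
    rw [integral_const_mul, JJ_eq hH]
  rw [e1, e1, e2]
  unfold SS
  have e3 : ∀ i : ℕ, m n ((i : ℝ) + j + l + 1) = 1 + ∑ k ∈ range n, r n k / ((i : ℝ) + j + l + 1 + k) := fun i =>
    (pf_pos n (by positivity)).symm
  have e4 : ∑ i ∈ range n, ∑ k ∈ range n, r n i * r n k * ((rho H (i + j) + rho H (k + l)) / (((i + j : ℕ) : ℝ) + ((k + l : ℕ) : ℝ) + 1))
      = ∑ i ∈ range n, r n i * rho H (i + j) * ∑ k ∈ range n, r n k / ((i : ℝ) + j + l + 1 + k)
        + ∑ i ∈ range n, r n i * rho H (i + l) * ∑ k ∈ range n, r n k / ((i : ℝ) + j + l + 1 + k) := by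
    have a1 : ∑ i ∈ range n, ∑ k ∈ range n, r n i * r n k * ((rho H (i + j) + rho H (k + l)) / (((i + j : ℕ) : ℝ) + ((k + l : ℕ) : ℝ) + 1))
        = ∑ i ∈ range n, ∑ k ∈ range n, r n i * rho H (i + j) * (r n k / ((i : ℝ) + j + l + 1 + k))
          + ∑ i ∈ range n, ∑ k ∈ range n, r n k * rho H (k + l) * (r n i / ((k : ℝ) + j + l + 1 + i)) := by
      rw [← sum_add_distrib]
      refine sum_congr rfl fun i _ => ?_
      rw [← sum_add_distrib]
      refine sum_congr rfl fun k _ => ?_
      push_cast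
      have b1 : (i : ℝ) + j + (k + l) + 1 = i + j + l + 1 + k := by ring
      have b2 : (k : ℝ) + j + l + 1 + i = i + j + l + 1 + k := by ring
      rw [b1, b2]
      ring
    rw [a1, sum_comm (f := fun i k => r n k * rho H (k + l) * (r n i / ((k : ℝ) + j + l + 1 + i)))]
    congr 1
    · exact sum_congr rfl fun i _ => by rw [mul_sum]
    · exact sum_congr rfl fun i _ => by rw [mul_sum]
  rw [e4]
  simp_rw [e3, mul_add, mul_one, sum_add_distrib]
  ring

end

end Pool.Agent.R227.BT
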