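import Pool.Agent.R227.BT8
import Pool.Agent.R227.BT5

/-!
# Powers of the Beurling transform on the angular class, `p = 4`: the bilinear identity (helper227)
-/

set_option autoImplicit false

namespace Pool.Agent.R227.BT

open Finset MeasureTheory Filter Topology

/-- the truncated Hardy-type averages of `g(y) = y ^ n h^(n)(y)` -/
noncomputable def vv (h : ℝ → ℝ) (R : ℝ) (n j : ℕ) (x : ℝ) : ℝ := x ^ j * M h R n j x

section

variable {H : ℝ → ℝ} {R : ℝ} (hH : Hyp H R) {h : ℝ → ℝ} (hh : ContDiff ℝ (⊤ : ℕ∞) h)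
  (hR : ∀ n, iteratedDeriv n h R = 0)
include hH hh

omit hH in
lemma vv_cont (n j : ℕ) : Continuous (vv h R n j) := (continuous_pow j).mul (M_cont hh R n j)

/-- `∫ H v_i v_j` -/
lemma Hvv {n i j : ℕ} (hi : i < n) (hj : j < n) :
    ∫ x in (0:ℝ)..R, H x * (vv h R n i x * vv h R n j x)
      = ∫ x in (0:ℝ)..R, J H (i + j) x * (x ^ n * iteratedDeriv n h x) * (vv h R n i x + vv h R n j x) := by
  set D : ℝ → ℝ := iteratedDeriv n h with hD
  have hDc : Continuous D := iter_cont hh n
  set K : ℝ → ℝ := fun x => ∫ z in (0:ℝ)..x, z ^ (i + j) * H z with hK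
  have hKd : ∀ x, HasDerivAt K (x ^ (i + j) * H x) x := fun x =>
    ((zH_cont hH (i + j)).integral_hasStrictDerivAt 0 x).hasDerivAt
  have hKc : Continuous K := continuous_iff_continuousAt.2 fun x => (hKd x).continuousAt
  have hMi := M_hasDeriv hh R n i
  have hMj := M_hasDeriv hh R n j
  have hci := M_cont hh R n i
  have hcj := M_cont hh R n j
  have hd : ∀ x ∈ Set.uIcc 0 R, HasDerivAt (fun x => K x * (M h R n i x * M h R n j x))
      (x ^ (i + j) * H x * (M h R n i x * M h R n j x) + K x * (-(x ^ (n - 1 - i) * D x) * M h R n j x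
        + M h R n i x * -(x ^ (n - 1 - j) * D x))) x := fun x _ =>
    (hKd x).mul ((hMi x).mul (hMj x))
  have hc1 : Continuous fun x => x ^ (i + j) * H x * (M h R n i x * M h R n j x) :=
    ((continuous_pow _).mul hH.cont).mul (hci.mul hcj)
  have hc2 : Continuous fun x => K x * (-(x ^ (n - 1 - i) * D x) * M h R n j x
        + M h R n i x * -(x ^ (n - 1 - j) * D x)) := by fun_prop
  have h1 := intervalIntegral.integral_eq_sub_of_hasDerivAt hd ((hc1.add hc2).intervalIntegrable _ _)
  rw [intervalIntegral.integral_add (hc1.intervalIntegrable _ _) (hc2.intervalIntegrable _ _), M_end, M_end] at h1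
  have hK0 : K 0 = 0 := by rw [hK]; simp
  rw [hK0] at h1
  have e1 : ∫ x in (0:ℝ)..R, H x * (vv h R n i x * vv h R n j x)
      = ∫ x in (0:ℝ)..R, x ^ (i + j) * H x * (M h R n i x * M h R n j x) := by
    refine intervalIntegral.integral_congr fun x _ => ?_
    unfold vv
    rw [pow_add]; ring
  have e2 : ∫ x in (0:ℝ)..R, J H (i + j) x * (x ^ n * D x) * (vv h R n i x + vv h R n j x)
      = -∫ x in (0:ℝ)..R, K x * (-(x ^ (n - 1 - i) * D x) * M h R n j x
        + M h R n i x * -(x ^ (n - 1 - j) * D x)) := by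
    rw [← intervalIntegral.integral_neg]
    apply intervalIntegral.integral_congr_ae
    refine Eventually.of_forall fun x hx => ?_
    rw [Set.uIoc_of_le hH.pos.le] at hx
    have hx0 : x ≠ 0 := ne_of_gt hx.1
    unfold vv J
    have a1 : x ^ n = x ^ (n - 1 - i) * x ^ (i + 1) := by
      rw [← pow_add]; congr 1; omega
    have a2 : x ^ n = x ^ (n - 1 - j) * x ^ (j + 1) := by
      rw [← pow_add]; congr 1; omega
    have b1 : K x / x ^ (i + j + 1) * (x ^ n * D x) * (x ^ i * M h R n i x)
        = K x * (M h R n i x * (x ^ (n - 1 - j) * D x)) := by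
      rw [a2, pow_succ, pow_add, pow_succ]
      field_simp
    have b2 : K x / x ^ (i + j + 1) * (x ^ n * D x) * (x ^ j * M h R n j x)
        = K x * ((x ^ (n - 1 - i) * D x) * M h R n j x) := by
      rw [a1, pow_succ, pow_add, pow_succ]
      field_simp
    rw [hK] at b1 b2 ⊢
    simp only at b1 b2 ⊢
    rw [mul_add, b1, b2]
    ring
  rw [e1, e2]
  linarith

/-- the functions `J` times `x ^ n` have no singularity -/
lemma JG_int {n i j : ℕ} (hi : i < n) :
    IntervalIntegrable (fun x => J H (i + j) x * (x ^ n * iteratedDeriv n h x) * vv h R n j x) volume 0 R := by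
  have hc : Continuous fun x => (∫ z in (0:ℝ)..x, z ^ (i + j) * H z) * ((x ^ (n - 1 - i) * iteratedDeriv n h x) * M h R n j x) := by
    have hKc : Continuous fun x => ∫ z in (0:ℝ)..x, z ^ (i + j) * H z :=
      continuous_iff_continuousAt.2 fun x =>
        (((zH_cont hH (i + j)).integral_hasStrictDerivAt 0 x).hasDerivAt).continuousAt
    exact hKc.mul (((continuous_pow _).mul (iter_cont hh n)).mul (M_cont hh R n j))
  refine (hc.intervalIntegrable 0 R).congr_ae ?_
  refine (ae_restrict_iff' measurableSet_uIoc).2 (Eventually.of_forall fun x hx => ?_)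
  rw [Set.uIoc_of_le hH.pos.le] at hx
  have hx0 : x ≠ 0 := ne_of_gt hx.1
  unfold vv J
  have a1 : x ^ n = x ^ (n - 1 - i) * x ^ (i + 1) := by
    rw [← pow_add]; congr 1; omega
  simp only
  rw [a1, pow_succ, pow_add, pow_succ]
  field_simp

lemma bilin (n : ℕ) :
    ∫ x in (0:ℝ)..R, H x * (x ^ n * iteratedDeriv n h x + ∑ j ∈ range n, r n j * vv h R n j x) ^ 2
      = (∫ x in (0:ℝ)..R, H x * (x ^ n * iteratedDeriv n h x) ^ 2)
        + 2 * ∫ x in (0:ℝ)..R, (x ^ n * iteratedDeriv n h x) * ∑ j ∈ range n, r n j * (S H n j x * vv h R n j x) := by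
  set g : ℝ → ℝ := fun x => x ^ n * iteratedDeriv n h x with hg
  have hgc : Continuous g := (continuous_pow n).mul (iter_cont hh n)
  have hvc : ∀ j, Continuous (vv h R n j) := fun j => vv_cont hh n j
  have hHc := hH.cont
  have i1 : IntervalIntegrable (fun x => H x * g x ^ 2) volume 0 R :=
    (hHc.mul (hgc.pow 2)).intervalIntegrable _ _
  have i2 : ∀ j, IntervalIntegrable (fun x => r n j * (H x * g x * vv h R n j x)) volume 0 R := fun j =>
    (continuous_const.mul ((hHc.mul hgc).mul (hvc j))).intervalIntegrable _ _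
  have i3 : ∀ i j, IntervalIntegrable (fun x => r n i * r n j * (H x * (vv h R n i x * vv h R n j x))) volume 0 R :=
    fun i j => (continuous_const.mul (hHc.mul ((hvc i).mul (hvc j)))).intervalIntegrable _ _
  have e1 : ∀ x, H x * (g x + ∑ j ∈ range n, r n j * vv h R n j x) ^ 2
      = H x * g x ^ 2 + (2 * ∑ j ∈ range n, r n j * (H x * g x * vv h R n j x)
        + ∑ i ∈ range n, ∑ j ∈ range n, r n i * r n j * (H x * (vv h R n i x * vv h R n j x))) := by
    intro x
    have a1 : ∑ i ∈ range n, ∑ j ∈ range n, r n i * r n j * (H x * (vv h R n i x * vv h R n j x))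
        = H x * ((∑ j ∈ range n, r n j * vv h R n j x) * ∑ j ∈ range n, r n j * vv h R n j x) := by
      rw [sum_mul_sum, mul_sum]
      refine sum_congr rfl fun i _ => ?_
      rw [mul_sum]
      exact sum_congr rfl fun j _ => by ring
    have a2 : ∑ j ∈ range n, r n j * (H x * g x * vv h R n j x) = H x * g x * ∑ j ∈ range n, r n j * vv h R n j x := by
      rw [mul_sum]; exact sum_congr rfl fun j _ => by ring
    rw [a1, a2]; ring
  have e2 : ∀ x, g x * ∑ j ∈ range n, r n j * (S H n j x * vv h R n j x)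
      = ∑ j ∈ range n, r n j * (H x * g x * vv h R n j x)
        + ∑ i ∈ range n, ∑ j ∈ range n, r n i * r n j * (J H (i + j) x * g x * vv h R n j x) := by
    intro x
    unfold S
    rw [sum_comm (f := fun i j => r n i * r n j * (J H (i + j) x * g x * vv h R n j x)), mul_sum, ← sum_add_distrib]
    refine sum_congr rfl fun j _ => ?_
    have a1 : ∑ i ∈ range n, r n i * r n j * (J H (i + j) x * g x * vv h R n j x)
        = r n j * g x * vv h R n j x * ∑ i ∈ range n, r n i * J H (i + j) x := by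
      rw [mul_sum]; exact sum_congr rfl fun i _ => by ring
    rw [a1]; ring
  have i4 : ∀ i ∈ range n, ∀ j, IntervalIntegrable (fun x => r n i * r n j * (J H (i + j) x * g x * vv h R n j x)) volume 0 R :=
    fun i hi j => (JG_int hH hh (mem_range.1 hi)).const_mul _
  have s2 : IntervalIntegrable (fun x => ∑ j ∈ range n, r n j * (H x * g x * vv h R n j x)) volume 0 R :=
    isum _ fun j _ => i2 j
  have s3 : IntervalIntegrable (fun x => ∑ i ∈ range n, ∑ j ∈ range n, r n i * r n j * (H x * (vv h R n i x * vv h R n j x))) volume 0 R :=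
    isum _ fun i _ => isum _ fun j _ => i3 i j
  have s4 : IntervalIntegrable (fun x => ∑ i ∈ range n, ∑ j ∈ range n, r n i * r n j * (J H (i + j) x * g x * vv h R n j x)) volume 0 R :=
    isum _ fun i hi => isum _ fun j _ => i4 i hi j
  have L1 : ∫ x in (0:ℝ)..R, H x * (x ^ n * iteratedDeriv n h x + ∑ j ∈ range n, r n j * vv h R n j x) ^ 2
      = ∫ x in (0:ℝ)..R, (H x * g x ^ 2 + (2 * ∑ j ∈ range n, r n j * (H x * g x * vv h R n j x)
        + ∑ i ∈ range n, ∑ j ∈ range n, r n i * r n j * (H x * (vv h R n i x * vv h R n j x)))) :=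
    intervalIntegral.integral_congr fun x _ => e1 x
  have L2 : ∫ x in (0:ℝ)..R, H x * (x ^ n * iteratedDeriv n h x) ^ 2 = ∫ x in (0:ℝ)..R, H x * g x ^ 2 := rfl
  have L3 : ∫ x in (0:ℝ)..R, (x ^ n * iteratedDeriv n h x) * ∑ j ∈ range n, r n j * (S H n j x * vv h R n j x)
      = ∫ x in (0:ℝ)..R, (∑ j ∈ range n, r n j * (H x * g x * vv h R n j x)
        + ∑ i ∈ range n, ∑ j ∈ range n, r n i * r n j * (J H (i + j) x * g x * vv h R n j x)) :=
    intervalIntegral.integral_congr fun x _ => e2 x
  rw [L1, L2, L3]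
  rw [intervalIntegral.integral_add i1 ((s2.const_mul 2).add s3), intervalIntegral.integral_add (s2.const_mul 2) s3,
    intervalIntegral.integral_add s2 s4, intervalIntegral.integral_const_mul]
  have k1 : ∫ x in (0:ℝ)..R, ∑ i ∈ range n, ∑ j ∈ range n, r n i * r n j * (H x * (vv h R n i x * vv h R n j x))
      = ∑ i ∈ range n, ∑ j ∈ range n, r n i * r n j * ∫ x in (0:ℝ)..R, H x * (vv h R n i x * vv h R n j x) := by
    rw [intervalIntegral.integral_finsetSum fun i _ => isum _ fun j _ => i3 i j]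
    refine sum_congr rfl fun i _ => ?_
    rw [intervalIntegral.integral_finsetSum fun j _ => i3 i j]
    refine sum_congr rfl fun j _ => ?_
    rw [intervalIntegral.integral_const_mul]
  have k2 : ∫ x in (0:ℝ)..R, ∑ i ∈ range n, ∑ j ∈ range n, r n i * r n j * (J H (i + j) x * g x * vv h R n j x)
      = ∑ i ∈ range n, ∑ j ∈ range n, r n i * r n j * ∫ x in (0:ℝ)..R, J H (i + j) x * g x * vv h R n j x := by
    rw [intervalIntegral.integral_finsetSum fun i hi => isum _ fun j _ => i4 i hi j]
    refine sum_congr rfl fun i hi => ?_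
    rw [intervalIntegral.integral_finsetSum fun j _ => i4 i hi j]
    refine sum_congr rfl fun j _ => ?_
    rw [intervalIntegral.integral_const_mul]
  have k3 : ∀ i ∈ range n, ∀ j ∈ range n, ∫ x in (0:ℝ)..R, H x * (vv h R n i x * vv h R n j x)
      = (∫ x in (0:ℝ)..R, J H (j + i) x * g x * vv h R n i x) + ∫ x in (0:ℝ)..R, J H (i + j) x * g x * vv h R n j x := by
    intro i hi j hj
    rw [Hvv hH hh (mem_range.1 hi) (mem_range.1 hj)]
    have a1 := JG_int hH hh (n := n) (i := j) (j := i) (mem_range.1 hj)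
    have a2 := JG_int hH hh (n := n) (i := i) (j := j) (mem_range.1 hi)
    rw [← intervalIntegral.integral_add a1 a2]
    refine intervalIntegral.integral_congr fun x _ => ?_
    rw [add_comm j i]
    ring
  have k4 : ∑ i ∈ range n, ∑ j ∈ range n, r n i * r n j * ∫ x in (0:ℝ)..R, H x * (vv h R n i x * vv h R n j x)
      = 2 * ∑ i ∈ range n, ∑ j ∈ range n, r n i * r n j * ∫ x in (0:ℝ)..R, J H (i + j) x * g x * vv h R n j x := by
    have a1 : ∑ i ∈ range n, ∑ j ∈ range n, r n i * r n j * ∫ x in (0:ℝ)..R, H x * (vv h R n i x * vv h R n j x)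
        = ∑ i ∈ range n, ∑ j ∈ range n, r n i * r n j * (∫ x in (0:ℝ)..R, J H (j + i) x * g x * vv h R n i x)
          + ∑ i ∈ range n, ∑ j ∈ range n, r n i * r n j * ∫ x in (0:ℝ)..R, J H (i + j) x * g x * vv h R n j x := by
      rw [← sum_add_distrib]
      refine sum_congr rfl fun i hi => ?_
      rw [← sum_add_distrib]
      refine sum_congr rfl fun j hj => ?_
      rw [k3 i hi j hj]; ring
    rw [a1, sum_comm (f := fun i j => r n i * r n j * ∫ x in (0:ℝ)..R, J H (j + i) x * g x * vv h R n i x)]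
    have a2 : ∑ j ∈ range n, ∑ i ∈ range n, r n i * r n j * (∫ x in (0:ℝ)..R, J H (j + i) x * g x * vv h R n i x)
        = ∑ i ∈ range n, ∑ j ∈ range n, r n i * r n j * ∫ x in (0:ℝ)..R, J H (i + j) x * g x * vv h R n j x := by
      refine sum_congr rfl fun i _ => sum_congr rfl fun j _ => ?_
      rw [mul_comm (r n j) (r n i)]
    rw [a2]; ring
  rw [k1, k2, k4]
  ring

end

end Pool.Agent.R227.BT
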