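import Mathlib

set_option autoImplicit false

open MeasureTheory Set
open scoped Topology ContDiff

namespace Pool.Agent.R227.Curve

/-- the primitive in the first variable -/
noncomputable def prim (g : ℝ × ℝ → ℂ) (p : ℝ × ℝ) : ℂ := ∫ τ in (0:ℝ)..1, p.1 • g (p.1 * τ, p.2)

lemma prim_eq (g : ℝ × ℝ → ℂ) (x y : ℝ) : prim g (x, y) = ∫ u in (0:ℝ)..x, g (u, y) := by
  unfold prim
  simp only
  rw [intervalIntegral.integral_smul, intervalIntegral.smul_integral_comp_mul_left
    (fun u => g (u, y)) x]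
  simp

/-- the linear map `(x, y) ↦ (x τ, y)` -/
noncomputable def scl (τ : ℝ) : ℝ × ℝ →L[ℝ] ℝ × ℝ :=
  τ • ((ContinuousLinearMap.fst ℝ ℝ ℝ).prod 0) +
    ((0 : ℝ × ℝ →L[ℝ] ℝ).prod (ContinuousLinearMap.snd ℝ ℝ ℝ))

lemma scl_apply (τ : ℝ) (p : ℝ × ℝ) : scl τ p = (p.1 * τ, p.2) := by
  simp [scl, mul_comm]

/-- derivative of the integrand -/
noncomputable def dI (g : ℝ × ℝ → ℂ) (p : ℝ × ℝ) (τ : ℝ) : ℝ × ℝ →L[ℝ] ℂ :=
  p.1 • ((fderiv ℝ g (p.1 * τ, p.2)).comp (scl τ))
    + (ContinuousLinearMap.fst ℝ ℝ ℝ).smulRight (g (p.1 * τ, p.2))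

lemma hasFDerivAt_I {g : ℝ × ℝ → ℂ} (hg : ContDiff ℝ 1 g) (p : ℝ × ℝ) (τ : ℝ) :
    HasFDerivAt (fun p : ℝ × ℝ => p.1 • g (p.1 * τ, p.2)) (dI g p τ) p := by
  have h1 : HasFDerivAt (fun p : ℝ × ℝ => g (p.1 * τ, p.2))
      ((fderiv ℝ g (p.1 * τ, p.2)).comp (scl τ)) p := by
    have h2 : HasFDerivAt g (fderiv ℝ g (scl τ p)) (scl τ p) :=
      (hg.differentiable (by simp) _).hasFDerivAt
    have h3 := h2.comp p (scl τ).hasFDerivAt
    rw [scl_apply] at h3
    refine h3.congr_of_eventuallyEq ?_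
    refine Filter.Eventually.of_forall fun q => ?_
    simp [scl_apply]
  exact (hasFDerivAt_fst (p := p)).smul h1

lemma continuous_dI {g : ℝ × ℝ → ℂ} (hg : ContDiff ℝ 1 g) :
    Continuous (fun q : (ℝ × ℝ) × ℝ => dI g q.1 q.2) := by
  unfold dI
  have h1 : Continuous (fun q : (ℝ × ℝ) × ℝ => (q.1.1 * q.2, q.1.2)) := by fun_prop
  have h2 : Continuous (fderiv ℝ g) := hg.continuous_fderiv (by simp)
  have h3 : Continuous (fun q : (ℝ × ℝ) × ℝ => scl q.2) := by
    unfold scl
    fun_prop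
  have h4 : Continuous (fun q : (ℝ × ℝ) × ℝ => (fderiv ℝ g (q.1.1 * q.2, q.1.2)).comp (scl q.2)) :=
    (h2.comp h1).clm_comp h3
  have h5 : Continuous (fun q : (ℝ × ℝ) × ℝ => g (q.1.1 * q.2, q.1.2)) := hg.continuous.comp h1
  have h6 : Continuous (fun q : (ℝ × ℝ) × ℝ =>
      (ContinuousLinearMap.fst ℝ ℝ ℝ).smulRight (g (q.1.1 * q.2, q.1.2))) := by
    have : (fun q : (ℝ × ℝ) × ℝ =>
      (ContinuousLinearMap.fst ℝ ℝ ℝ).smulRight (g (q.1.1 * q.2, q.1.2)))
      = fun q => ContinuousLinearMap.smulRightL ℝ (ℝ × ℝ) ℂ (ContinuousLinearMap.fst ℝ ℝ ℝ)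
        (g (q.1.1 * q.2, q.1.2)) := rfl
    rw [this]
    fun_prop
  have h7 : Continuous (fun q : (ℝ × ℝ) × ℝ => q.1.1) := by fun_prop
  exact (h7.smul h4).add h6

/-- the total derivative of `prim g`. -/
noncomputable def dprim (g : ℝ × ℝ → ℂ) (p : ℝ × ℝ) : ℝ × ℝ →L[ℝ] ℂ :=
  ∫ τ in (0:ℝ)..1, dI g p τ

lemma hasFDerivAt_prim {g : ℝ × ℝ → ℂ} (hg : ContDiff ℝ 1 g) (p : ℝ × ℝ) :
    HasFDerivAt (prim g) (dprim g p) p := by
  have hc := continuous_dI hg
  obtain ⟨M, hM⟩ : ∃ M, ∀ q ∈ (Metric.closedBall p 1) ×ˢ (Icc (0:ℝ) 1), ‖dI g q.1 q.2‖ ≤ M := by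
    have hK : IsCompact ((Metric.closedBall p 1) ×ˢ (Icc (0:ℝ) 1)) :=
      (isCompact_closedBall p 1).prod isCompact_Icc
    obtain ⟨M, hM⟩ := hK.exists_bound_of_continuousOn hc.continuousOn
    exact ⟨M, hM⟩
  apply intervalIntegral.hasFDerivAt_integral_of_dominated_of_fderiv_le
    (bound := fun _ => M) (s := Metric.closedBall p 1)
  · exact Metric.closedBall_mem_nhds p one_pos
  · refine Filter.Eventually.of_forall fun q => ?_
    have : Continuous (fun τ : ℝ => q.1 • g (q.1 * τ, q.2)) := by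
      have := hg.continuous
      fun_prop
    exact this.aestronglyMeasurable
  · have : Continuous (fun τ : ℝ => p.1 • g (p.1 * τ, p.2)) := by
      have := hg.continuous
      fun_prop
    exact this.intervalIntegrable _ _
  · have : Continuous (fun τ : ℝ => dI g p τ) := hc.comp (by fun_prop : Continuous fun τ : ℝ => (p, τ))
    exact this.aestronglyMeasurable
  · refine Filter.Eventually.of_forall fun τ hτ q hq => ?_
    rw [uIoc_of_le zero_le_one] at hτ
    exact hM (q, τ) ⟨hq, hτ.1.le, hτ.2⟩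
  · exact intervalIntegrable_const
  · exact Filter.Eventually.of_forall fun τ hτ q hq => hasFDerivAt_I hg q τ

lemma continuous_dprim {g : ℝ × ℝ → ℂ} (hg : ContDiff ℝ 1 g) : Continuous (dprim g) := by
  have hc := continuous_dI hg
  unfold dprim
  exact intervalIntegral.continuous_parametric_intervalIntegral_of_continuous' hc 0 1

lemma dprim_fst {g : ℝ × ℝ → ℂ} (hg : ContDiff ℝ 1 g) (p : ℝ × ℝ) : dprim g p (1, 0) = g p := by
  obtain ⟨x, y⟩ := p
  have h1 := hasFDerivAt_prim hg (x, y)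
  have h2 : HasDerivAt (fun u : ℝ => ((u, y) : ℝ × ℝ)) (1, 0) x :=
    (hasDerivAt_id x).prodMk (hasDerivAt_const x y)
  have h3 : HasDerivAt (fun u : ℝ => prim g (u, y)) (dprim g (x, y) (1, 0)) x :=
    HasFDerivAt.comp_hasDerivAt (f := fun u : ℝ => ((u, y) : ℝ × ℝ)) x h1 h2
  have h4 : HasDerivAt (fun u : ℝ => prim g (u, y)) (g (x, y)) x := by
    simp_rw [prim_eq]
    have hgc : Continuous (fun u : ℝ => g (u, y)) := by
      have := hg.continuous
      fun_prop
    exact intervalIntegral.integral_hasDerivAt_right (hgc.intervalIntegrable _ _)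
      (hgc.stronglyMeasurableAtFilter _ _) hgc.continuousAt
  exact h3.unique h4

/-- data of an arc between two level points -/
structure Arc (X Y X' Y' : ℝ → ℝ) (α β y0 : ℝ) (S : Set ℝ) : Prop where
  hab : α < β
  cX : Continuous X
  cY : Continuous Y
  mX : Measurable X'
  mY : Measurable Y'
  bX : ∀ t, |X' t| ≤ 1
  bY : ∀ t, |Y' t| ≤ 1
  hS : S.Countable
  dX : ∀ t ∈ Ioo α β \ S, HasDerivAt X (X' t) t
  dY : ∀ t ∈ Ioo α β \ S, HasDerivAt Y (Y' t) t
  eα : Y α = y0
  eβ : Y β = y0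

section arc

variable {X Y X' Y' : ℝ → ℝ} {α β y0 : ℝ} {S : Set ℝ}

lemma norm_clm_pair_le (L : ℝ × ℝ →L[ℝ] ℂ) {a b : ℝ} (ha : |a| ≤ 1) (hb : |b| ≤ 1) :
    ‖L (a, b)‖ ≤ ‖L‖ := by
  calc ‖L (a, b)‖ ≤ ‖L‖ * ‖(a, b)‖ := L.le_opNorm _
    _ ≤ ‖L‖ * 1 := by
      gcongr
      rw [Prod.norm_def]
      exact max_le ha hb
    _ = ‖L‖ := mul_one _

/-- the key double integral reduces to boundary terms. -/
lemma Arc.double_eq (h : Arc X Y X' Y' α β y0 S) {g : ℝ × ℝ → ℂ} (hg : ContDiff ℝ 1 g) :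
    ∫ p : ℝ × ℝ, ((X' p.1 * Y' p.2 - Y' p.1 * X' p.2 : ℝ) : ℂ) * g (X p.1 - X p.2, Y p.1 - Y p.2)
      ∂((volume.restrict (Ioc α β)).prod (volume.restrict (Ioc α β)))
    = (∫ s in Ioc α β, (Y' s : ℂ) * (prim g (X β - X s, Y β - Y s) - prim g (X α - X s, Y α - Y s)))
      + ∫ t in Ioc α β, (Y' t : ℂ) * (prim g (X t - X β, Y t - Y β) - prim g (X t - X α, Y t - Y α)) := by
  set ν := volume.restrict (Ioc α β) with hν
  set z : ℝ × ℝ → ℝ × ℝ := fun p => (X p.1 - X p.2, Y p.1 - Y p.2) with hz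
  have cX := h.cX
  have cY := h.cY
  have mX := h.mX
  have mY := h.mY
  have hzc : Continuous z := by fun_prop
  have hD : Continuous (fun p => dprim g (z p)) := (continuous_dprim hg).comp hzc
  obtain ⟨M, hM⟩ : ∃ M, ∀ p ∈ (Icc α β) ×ˢ (Icc α β), ‖dprim g (z p)‖ ≤ M :=
    (isCompact_Icc.prod isCompact_Icc).exists_bound_of_continuousOn hD.continuousOn
  have hae : ∀ᵐ p ∂(ν.prod ν), p ∈ (Icc α β) ×ˢ (Icc α β) := by
    rw [hν, Measure.prod_restrict]
    refine (ae_restrict_mem (measurableSet_Ioc.prod measurableSet_Ioc)).mono ?_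
    intro p hp
    exact ⟨Ioc_subset_Icc_self hp.1, Ioc_subset_Icc_self hp.2⟩
  have hm1 : Measurable (fun p : ℝ × ℝ => dprim g (z p) (X' p.1, Y' p.1)) := by
    have e : (fun p : ℝ × ℝ => dprim g (z p) (X' p.1, Y' p.1))
      = fun p => (X' p.1 : ℂ) * dprim g (z p) (1, 0) + (Y' p.1 : ℂ) * dprim g (z p) (0, 1) := by
      ext p
      have : ((X' p.1, Y' p.1) : ℝ × ℝ) = X' p.1 • ((1:ℝ), (0:ℝ)) + Y' p.1 • ((0:ℝ), (1:ℝ)) := by simp
      rw [this, map_add, map_smul, map_smul]
      simp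
    rw [e]
    have c1 : Continuous (fun p => dprim g (z p) (1, 0)) := hD.clm_apply continuous_const
    have c2 : Continuous (fun p => dprim g (z p) (0, 1)) := hD.clm_apply continuous_const
    have := c1.measurable
    have := c2.measurable
    fun_prop
  have hm2 : Measurable (fun p : ℝ × ℝ => dprim g (z p) (X' p.2, Y' p.2)) := by
    have e : (fun p : ℝ × ℝ => dprim g (z p) (X' p.2, Y' p.2))
      = fun p => (X' p.2 : ℂ) * dprim g (z p) (1, 0) + (Y' p.2 : ℂ) * dprim g (z p) (0, 1) := by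
      ext p
      have : ((X' p.2, Y' p.2) : ℝ × ℝ) = X' p.2 • ((1:ℝ), (0:ℝ)) + Y' p.2 • ((0:ℝ), (1:ℝ)) := by simp
      rw [this, map_add, map_smul, map_smul]
      simp
    rw [e]
    have c1 : Continuous (fun p => dprim g (z p) (1, 0)) := hD.clm_apply continuous_const
    have c2 : Continuous (fun p => dprim g (z p) (0, 1)) := hD.clm_apply continuous_const
    have := c1.measurable
    have := c2.measurable
    fun_prop
  have hk1 : Integrable (fun p : ℝ × ℝ => (Y' p.2 : ℂ) * dprim g (z p) (X' p.1, Y' p.1)) (ν.prod ν) := by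
    apply Integrable.of_bound (C := M)
    · have : Measurable (fun p : ℝ × ℝ => (Y' p.2 : ℂ)) := by fun_prop
      exact (this.mul hm1).aestronglyMeasurable
    · filter_upwards [hae] with p hp
      rw [norm_mul, Complex.norm_real, Real.norm_eq_abs]
      calc |Y' p.2| * ‖dprim g (z p) (X' p.1, Y' p.1)‖ ≤ 1 * M := by
            gcongr
            · exact h.bY _
            · exact (norm_clm_pair_le _ (h.bX _) (h.bY _)).trans (hM p hp)
        _ = M := one_mul _
  have hk2 : Integrable (fun p : ℝ × ℝ => (Y' p.1 : ℂ) * dprim g (z p) (X' p.2, Y' p.2)) (ν.prod ν) := by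
    apply Integrable.of_bound (C := M)
    · have : Measurable (fun p : ℝ × ℝ => (Y' p.1 : ℂ)) := by fun_prop
      exact (this.mul hm2).aestronglyMeasurable
    · filter_upwards [hae] with p hp
      rw [norm_mul, Complex.norm_real, Real.norm_eq_abs]
      calc |Y' p.1| * ‖dprim g (z p) (X' p.2, Y' p.2)‖ ≤ 1 * M := by
            gcongr
            · exact h.bY _
            · exact (norm_clm_pair_le _ (h.bX _) (h.bY _)).trans (hM p hp)
        _ = M := one_mul _
  have epoint : ∀ p : ℝ × ℝ, ((X' p.1 * Y' p.2 - Y' p.1 * X' p.2 : ℝ) : ℂ) * g (z p)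
      = (Y' p.2 : ℂ) * dprim g (z p) (X' p.1, Y' p.1) - (Y' p.1 : ℂ) * dprim g (z p) (X' p.2, Y' p.2) := by
    intro p
    have e1 : ∀ a b : ℝ, dprim g (z p) (a, b) = (a : ℂ) * g (z p) + (b : ℂ) * dprim g (z p) (0, 1) := by
      intro a b
      have : ((a, b) : ℝ × ℝ) = a • ((1:ℝ), (0:ℝ)) + b • ((0:ℝ), (1:ℝ)) := by simp
      rw [this, map_add, map_smul, map_smul, dprim_fst hg]
      simp
    rw [e1 (X' p.1) (Y' p.1), e1 (X' p.2) (Y' p.2)]
    push_cast
    ring
  have hpc : Continuous (prim g) :=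
    continuous_iff_continuousAt.mpr fun p => (hasFDerivAt_prim hg p).continuousAt
  have hder1 : ∀ s ∈ Ioc α β, ∫ t in Ioc α β, dprim g (z (t, s)) (X' t, Y' t)
      = prim g (X β - X s, Y β - Y s) - prim g (X α - X s, Y α - Y s) := by
    intro s hs
    rw [← intervalIntegral.integral_of_le h.hab.le]
    have := integral_eq_of_hasDerivAt_off_countable_of_le (fun t => prim g (X t - X s, Y t - Y s))
      (fun t => dprim g (z (t, s)) (X' t, Y' t)) h.hab.le h.hS
    apply this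
    · exact (hpc.comp (by fun_prop : Continuous fun t => (X t - X s, Y t - Y s))).continuousOn
    · intro t ht
      have hd : HasDerivAt (fun t => (X t - X s, Y t - Y s)) (X' t, Y' t) t :=
        ((h.dX t ht).sub_const _).prodMk ((h.dY t ht).sub_const _)
      exact HasFDerivAt.comp_hasDerivAt (f := fun t => (X t - X s, Y t - Y s)) t
        (hasFDerivAt_prim hg _) hd
    · rw [intervalIntegrable_iff, uIoc_of_le h.hab.le]
      apply Integrable.of_bound (C := M)
      · exact (hm1.comp (by fun_prop : Measurable fun t : ℝ => (t, s))).aestronglyMeasurable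
      · refine (ae_restrict_mem measurableSet_Ioc).mono fun t ht => ?_
        exact (norm_clm_pair_le _ (h.bX _) (h.bY _)).trans
          (hM (t, s) ⟨Ioc_subset_Icc_self ht, Ioc_subset_Icc_self hs⟩)
  have hder2 : ∀ t ∈ Ioc α β, ∫ s in Ioc α β, dprim g (z (t, s)) (X' s, Y' s)
      = -(prim g (X t - X β, Y t - Y β) - prim g (X t - X α, Y t - Y α)) := by
    intro t ht
    rw [← intervalIntegral.integral_of_le h.hab.le, ← neg_inj, ← intervalIntegral.integral_neg, neg_neg]
    have := integral_eq_of_hasDerivAt_off_countable_of_le (fun s => prim g (X t - X s, Y t - Y s))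
      (fun s => -dprim g (z (t, s)) (X' s, Y' s)) h.hab.le h.hS
    apply this
    · exact (hpc.comp (by fun_prop : Continuous fun s => (X t - X s, Y t - Y s))).continuousOn
    · intro s hs
      have hd : HasDerivAt (fun s => (X t - X s, Y t - Y s)) (-X' s, -Y' s) s :=
        ((h.dX s hs).const_sub _).prodMk ((h.dY s hs).const_sub _)
      have h5 := HasFDerivAt.comp_hasDerivAt (f := fun s => (X t - X s, Y t - Y s)) s
        (hasFDerivAt_prim hg _) hd
      have e : dprim g (z (t, s)) (-X' s, -Y' s) = - dprim g (z (t, s)) (X' s, Y' s) := by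
        rw [← map_neg]; simp
      change HasDerivAt _ (-dprim g (z (t, s)) (X' s, Y' s)) s
      rw [← e]
      exact h5
    · rw [intervalIntegrable_iff, uIoc_of_le h.hab.le]
      apply Integrable.of_bound (C := M)
      · exact (hm2.comp (by fun_prop : Measurable fun s : ℝ => (t, s))).neg.aestronglyMeasurable
      · refine (ae_restrict_mem measurableSet_Ioc).mono fun s hs => ?_
        rw [norm_neg]
        exact (norm_clm_pair_le _ (h.bX _) (h.bY _)).trans
          (hM (t, s) ⟨Ioc_subset_Icc_self ht, Ioc_subset_Icc_self hs⟩)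
  change ∫ p : ℝ × ℝ, ((X' p.1 * Y' p.2 - Y' p.1 * X' p.2 : ℝ) : ℂ) * g (z p) ∂(ν.prod ν) = _
  simp_rw [epoint]
  rw [integral_sub hk1 hk2, integral_prod_symm _ hk1, integral_prod _ hk2, sub_eq_add_neg,
    ← integral_neg]
  congr 1
  · rw [hν]
    apply setIntegral_congr_fun measurableSet_Ioc
    intro s hs
    simp only
    rw [integral_const_mul, hder1 s hs]
  · rw [hν]
    apply setIntegral_congr_fun measurableSet_Ioc
    intro t ht
    simp only
    rw [integral_const_mul, hder2 t ht]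
    ring

end arc

end Pool.Agent.R227.Curve
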