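import Pool.Agent.R227.Curve9

set_option autoImplicit false

open MeasureTheory Set Real FourierTransform SchwartzMap
open scoped Topology ContDiff ComplexConjugate

namespace Pool.Agent.R227.Curve

variable {γ γ' : ℝ → ℂ} {L : ℝ} {S : Set ℝ}

lemma lower_wt_MM (hγ : Continuous γ) (hL : 0 < L) (hlip : ∀ s t, ‖γ s - γ t‖ ≤ |s - t|) :
    ∃ c > 0, ∀ ε, 0 < ε → ε ≤ L / 2 → c / ε ≤ ∫ τ, wt ε τ * MM γ L τ := by
  refine ⟨π / 2 * (L / 2 * Real.exp (-(π ^ 2) / 2)), by positivity, fun ε hε hεL => ?_⟩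
  have hb : 0 < 2 * ε ^ 2 := by positivity
  have hwi : Integrable (fun τ => wt ε τ * MM γ L τ) := by
    refine ((integrable_wt hε).mul_const (L ^ 2)).mono' ?_ ?_
    · exact ((continuous_wt ε).mul (continuous_MM hγ L)).aestronglyMeasurable
    · refine Filter.Eventually.of_forall fun τ => ?_
      rw [Real.norm_eq_abs, abs_of_nonneg (mul_nonneg (wt_pos ε τ).le (MM_nonneg γ L τ))]
      exact mul_le_mul_of_nonneg_left (MM_le γ hL τ) (wt_pos ε τ).le
  have hle : ∀ τ : ℂ, Real.exp (-(2 * ε ^ 2) * ‖τ‖ ^ 2) * MM γ L τ ≤ wt ε τ * MM γ L τ := by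
    intro τ
    apply mul_le_mul_of_nonneg_right _ (MM_nonneg γ L τ)
    unfold wt
    rw [show -(2 * ε ^ 2) * ‖τ‖ ^ 2 = -(2 * (ε ^ 2 * ‖τ‖ ^ 2)) by ring, Real.exp_neg]
    apply inv_anti₀ (by positivity)
    have h1 := Real.add_one_le_exp (ε ^ 2 * ‖τ‖ ^ 2)
    calc (1 + ε ^ 2 * ‖τ‖ ^ 2) ^ 2 ≤ (Real.exp (ε ^ 2 * ‖τ‖ ^ 2)) ^ 2 := by gcongr; linarith
      _ = Real.exp (2 * (ε ^ 2 * ‖τ‖ ^ 2)) := by
        rw [← Real.exp_nat_mul]; norm_num
  have h1 : ∫ τ : ℂ, Real.exp (-(2 * ε ^ 2) * ‖τ‖ ^ 2) * MM γ L τ ≤ ∫ τ, wt ε τ * MM γ L τ := by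
    apply integral_mono_of_nonneg
    · exact Filter.Eventually.of_forall fun τ => mul_nonneg (Real.exp_pos _).le (MM_nonneg γ L τ)
    · exact hwi
    · exact Filter.Eventually.of_forall hle
  refine le_trans ?_ h1
  rw [gauss_MM hγ hb, integral_const_mul]
  -- lower bound for the double integral
  set F : ℝ × ℝ → ℝ := fun p => Real.exp (-(π ^ 2 * ‖γ p.1 - γ p.2‖ ^ 2) / (2 * ε ^ 2)) with hF
  have hFc : Continuous F := by
    simp only [hF]; fun_prop
  have hFi : Integrable F (nn 0 L) := by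
    apply Integrable.of_bound (C := 1) hFc.aestronglyMeasurable
    refine Filter.Eventually.of_forall fun p => ?_
    rw [Real.norm_eq_abs, abs_of_pos (Real.exp_pos _)]
    apply Real.exp_le_one_iff.mpr
    rw [neg_div]
    have : 0 ≤ π ^ 2 * ‖γ p.1 - γ p.2‖ ^ 2 / (2 * ε ^ 2) := by positivity
    linarith
  have hF0 : ∀ p, 0 ≤ F p := fun p => (Real.exp_pos _).le
  have hint : ∫ p, F p ∂(nn 0 L) = ∫ t in Ioc 0 L, ∫ s in Ioc 0 L, F (t, s) := by
    unfold nn at hFi ⊢
    exact integral_prod _ hFi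
  have hinner : ∀ t ∈ Ioc 0 (L / 2), ε * Real.exp (-(π ^ 2) / 2) ≤ ∫ s in Ioc 0 L, F (t, s) := by
    intro t ht
    have hc : Continuous (fun s => F (t, s)) := hFc.comp (by fun_prop)
    have hio : ∀ a b : ℝ, IntegrableOn (fun s => F (t, s)) (Ioc a b) := fun a b =>
      (hc.integrableOn_Icc).mono_set Ioc_subset_Icc_self
    have hsub : Ioc t (t + ε) ⊆ Ioc 0 L := by
      intro s hs
      exact ⟨by linarith [hs.1, ht.1], by linarith [hs.2, ht.2]⟩
    calc ε * Real.exp (-(π ^ 2) / 2) = ∫ s in Ioc t (t + ε), Real.exp (-(π ^ 2) / 2) := by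
          simp [hε.le]
      _ ≤ ∫ s in Ioc t (t + ε), F (t, s) := by
          apply setIntegral_mono_on (integrable_const _) (hio _ _) measurableSet_Ioc
          intro s hs
          simp only [hF]
          apply Real.exp_le_exp.mpr
          have h2 : ‖γ t - γ s‖ ≤ ε := by
            refine (hlip t s).trans ?_
            rw [abs_le]
            constructor <;> linarith [hs.1, hs.2]
          have h3 : ‖γ t - γ s‖ ^ 2 ≤ ε ^ 2 := by gcongr
          rw [neg_div, neg_div, neg_le_neg_iff, div_le_div_iff₀ hb (by norm_num)]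
          have : 0 ≤ π ^ 2 := sq_nonneg _
          nlinarith
      _ ≤ ∫ s in Ioc 0 L, F (t, s) := by
          apply setIntegral_mono_set (hio _ _)
          · exact Filter.Eventually.of_forall fun s => hF0 _
          · exact hsub.eventuallyLE
  have houter : L / 2 * (ε * Real.exp (-(π ^ 2) / 2)) ≤ ∫ t in Ioc 0 L, ∫ s in Ioc 0 L, F (t, s) := by
    have hgi : IntegrableOn (fun t => ∫ s in Ioc 0 L, F (t, s)) (Ioc 0 L) := by
      unfold nn at hFi
      exact hFi.integral_prod_left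
    have hsub : Ioc 0 (L / 2) ⊆ Ioc 0 L := Ioc_subset_Ioc_right (by linarith)
    calc L / 2 * (ε * Real.exp (-(π ^ 2) / 2))
        = ∫ t in Ioc 0 (L / 2), ε * Real.exp (-(π ^ 2) / 2) := by
          rw [setIntegral_const]
          simp
          left
          linarith
      _ ≤ ∫ t in Ioc 0 (L / 2), ∫ s in Ioc 0 L, F (t, s) := by
          apply setIntegral_mono_on (integrable_const _) (hgi.mono_set hsub) measurableSet_Ioc
          exact hinner
      _ ≤ ∫ t in Ioc 0 L, ∫ s in Ioc 0 L, F (t, s) := by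
          apply setIntegral_mono_set hgi
          · exact Filter.Eventually.of_forall fun t => integral_nonneg fun s => hF0 _
          · exact hsub.eventuallyLE
  calc π / 2 * (L / 2 * Real.exp (-(π ^ 2) / 2)) / ε
      = π / (2 * ε ^ 2) * (L / 2 * (ε * Real.exp (-(π ^ 2) / 2))) := by field_simp
    _ ≤ π / (2 * ε ^ 2) * ∫ p, F p ∂(nn 0 L) := by
        rw [hint]
        exact mul_le_mul_of_nonneg_left houter (by positivity)

/-- the one-dimensional counting bound -/
theorem count_bound {ι : Type*} {lam : ι → ℂ} {A : ℝ} (hT : Tight lam γ L A)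
    (hA : 0 ≤ A) (hγ : Continuous γ) (hL : 0 < L) (hlip : ∀ s t, ‖γ s - γ t‖ ≤ |s - t|) :
    ∃ C > 0, ∀ ε, 0 < ε → ε ≤ L / 2 → ∀ (ζ : ℂ) (u : Finset ι),
      ∑ i ∈ u, wt ε (lam i - ζ) ≤ C / ε := by
  obtain ⟨c, hc, hlow⟩ := lower_wt_MM hγ hL hlip
  set I0 := ∫ η, wt 1 η with hI0
  have hI0pos : 0 ≤ I0 := integral_nonneg fun η => (wt_pos 1 η).le
  refine ⟨4 * (A * L * I0) / c + 1, by positivity, fun ε hε hεL ζ u => ?_⟩
  have hwi := integrable_wt hε
  have hMc := continuous_MM hγ L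
  have hsum : ∀ ξ, ∑ i ∈ u, MM γ L (lam i - ξ) ≤ A * L := by
    intro ξ
    have h1 := tight_arc hT hγ (c := fun _ => 1) measurable_const (by simp) le_rfl le_rfl ξ (α := 0) (β := L)
    have h2 : (A * ∫ t in Ioc 0 L, ‖(1:ℂ)‖ ^ 2) = A * L := by simp [hL.le]
    rw [h2] at h1
    exact sum_le_hasSum u (fun i _ => MM_nonneg _ _ _) h1
  have hint : ∀ i, Integrable (fun ξ => wt ε (ξ - ζ) * MM γ L (lam i - ξ)) := by
    intro i
    refine (((integrable_wt hε).comp_sub_right ζ).mul_const (L ^ 2)).mono' ?_ ?_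
    · exact (((continuous_wt ε).comp (by fun_prop)).mul (hMc.comp (by fun_prop))).aestronglyMeasurable
    · refine Filter.Eventually.of_forall fun τ => ?_
      rw [Real.norm_eq_abs, abs_of_nonneg (mul_nonneg (wt_pos ε _).le (MM_nonneg γ L _))]
      exact mul_le_mul_of_nonneg_left (MM_le γ hL _) (wt_pos ε _).le
  have hup : ∑ i ∈ u, ∫ ξ, wt ε (ξ - ζ) * MM γ L (lam i - ξ) ≤ A * L * ((ε ^ 2)⁻¹ * I0) := by
    rw [← integral_finsetSum u (fun i _ => hint i)]
    calc ∫ ξ, ∑ i ∈ u, wt ε (ξ - ζ) * MM γ L (lam i - ξ)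
        ≤ ∫ ξ, wt ε (ξ - ζ) * (A * L) := by
          apply integral_mono (integrable_finsetSum u (fun i _ => hint i))
          · exact (hwi.comp_sub_right ζ).mul_const _
          · intro ξ
            simp only
            rw [← Finset.mul_sum]
            exact mul_le_mul_of_nonneg_left (hsum ξ) (wt_pos ε _).le
      _ = A * L * ((ε ^ 2)⁻¹ * I0) := by
          rw [integral_mul_const, integral_sub_right_eq_self (wt ε) ζ, integral_wt hε]
          ring
  have hlo : ∀ i, wt ε (lam i - ζ) / 4 * (c / ε) ≤ ∫ ξ, wt ε (ξ - ζ) * MM γ L (lam i - ξ) := by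
    intro i
    have e : ∫ ξ, wt ε (ξ - ζ) * MM γ L (lam i - ξ) = ∫ τ, wt ε ((lam i - ζ) - τ) * MM γ L τ := by
      rw [← integral_sub_left_eq_self (fun τ => wt ε ((lam i - ζ) - τ) * MM γ L τ) volume (lam i)]
      congr 1
      ext ξ
      congr 2
      ring
    rw [e]
    have hwi2 : Integrable (fun τ => wt ε τ * MM γ L τ) := by
      refine ((integrable_wt hε).mul_const (L ^ 2)).mono' ?_ ?_
      · exact ((continuous_wt ε).mul hMc).aestronglyMeasurable
      · refine Filter.Eventually.of_forall fun τ => ?_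
        rw [Real.norm_eq_abs, abs_of_nonneg (mul_nonneg (wt_pos ε τ).le (MM_nonneg γ L τ))]
        exact mul_le_mul_of_nonneg_left (MM_le γ hL τ) (wt_pos ε τ).le
    have hwi3 : Integrable (fun τ => wt ε ((lam i - ζ) - τ) * MM γ L τ) := by
      refine ((hwi.comp_sub_left (lam i - ζ)).mul_const (L ^ 2)).mono' ?_ ?_
      · exact (((continuous_wt ε).comp (by fun_prop)).mul hMc).aestronglyMeasurable
      · refine Filter.Eventually.of_forall fun τ => ?_
        rw [Real.norm_eq_abs, abs_of_nonneg (mul_nonneg (wt_pos ε _).le (MM_nonneg γ L τ))]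
        exact mul_le_mul_of_nonneg_left (MM_le γ hL τ) (wt_pos ε _).le
    calc wt ε (lam i - ζ) / 4 * (c / ε) ≤ wt ε (lam i - ζ) / 4 * ∫ τ, wt ε τ * MM γ L τ :=
          mul_le_mul_of_nonneg_left (hlow ε hε hεL) (by have := wt_pos ε (lam i - ζ); positivity)
      _ = ∫ τ, wt ε (lam i - ζ) / 4 * (wt ε τ * MM γ L τ) := by rw [integral_const_mul]
      _ ≤ ∫ τ, wt ε ((lam i - ζ) - τ) * MM γ L τ := by
          apply integral_mono (hwi2.const_mul _) hwi3
          intro τ
          simp only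
          have := wt_sub ε (lam i - ζ) τ
          have h0 := MM_nonneg γ L τ
          calc wt ε (lam i - ζ) / 4 * (wt ε τ * MM γ L τ)
              = (wt ε (lam i - ζ) * wt ε τ / 4) * MM γ L τ := by ring
            _ ≤ _ := mul_le_mul_of_nonneg_right this h0
  have h1 : (∑ i ∈ u, wt ε (lam i - ζ)) * (c / (4 * ε)) ≤ A * L * ((ε ^ 2)⁻¹ * I0) := by
    rw [Finset.sum_mul]
    refine le_trans (Finset.sum_le_sum fun i _ => ?_) hup
    have := hlo i
    calc wt ε (lam i - ζ) * (c / (4 * ε)) = wt ε (lam i - ζ) / 4 * (c / ε) := by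
          field_simp
      _ ≤ _ := this
  have h2 : (∑ i ∈ u, wt ε (lam i - ζ)) ≤ (4 * (A * L * I0) / c) / ε := by
    rw [← le_div_iff₀ (by positivity)] at h1
    refine h1.trans (le_of_eq ?_)
    field_simp
  refine h2.trans ?_
  gcongr
  linarith

end Pool.Agent.R227.Curve
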