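import Pool.Agent.R227.Curve10

set_option autoImplicit false

open MeasureTheory Set Real FourierTransform SchwartzMap
open scoped Topology ContDiff ComplexConjugate

namespace Pool.Agent.R227.Curve

variable {γ γ' : ℝ → ℂ} {L : ℝ} {S : Set ℝ}

/-- the Fourier transform of a product of Schwartz functions -/
lemma fourier_mul_eq (g χ k : 𝓢(ℂ, ℂ)) (hk : ∀ z, k z = g z * χ z) (l : ℂ) :
    𝓕 k l = ∫ ζ, 𝓕 g ζ * 𝓕 χ (l - ζ) := by
  have hinv : ∀ z, g z = ∫ ξ, ch (-(ip ξ z)) * 𝓕 g ξ := by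
    intro z
    have h1 := fourierInv_eq_ch (𝓕 g : 𝓢(ℂ, ℂ)) z
    rw [← h1, ← SchwartzMap.fourierInv_coe]
    have h2 : 𝓕⁻ (𝓕 g) = g := FourierTransform.fourierInv_fourier_eq (F := 𝓢(ℂ, ℂ)) g
    rw [h2]
  rw [SchwartzMap.fourier_coe, fourier_eq_ch]
  have e1 : ∀ z, ch (ip l z) * k z = ∫ ζ, 𝓕 g ζ * (ch (ip (l - ζ) z) * χ z) := by
    intro z
    rw [hk, hinv z, ← integral_mul_const, ← integral_const_mul]
    congr 1
    ext ξ
    rw [ip_sub_left l ξ, sub_eq_add_neg (ip l _), ch_add]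
    ring
  simp_rw [e1]
  rw [integral_integral_swap]
  · congr 1
    ext ζ
    rw [integral_const_mul, SchwartzMap.fourier_coe χ, fourier_eq_ch]
  · have hmaj : Integrable (fun q : ℂ × ℂ => ‖χ q.1‖ * ‖𝓕 g q.2‖) (volume.prod volume) :=
      χ.integrable.norm.mul_prod (𝓕 g).integrable.norm
    refine hmaj.mono' ?_ ?_
    · have h2 : Continuous (fun q : ℂ × ℂ => ch (ip (l - q.2) q.1)) :=
        continuous_ch.comp (continuous_ip.comp (by fun_prop :
          Continuous fun q : ℂ × ℂ => ((l - q.2, q.1) : ℂ × ℂ)))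
      have h3 : Continuous (fun q : ℂ × ℂ => 𝓕 g q.2) := (𝓕 g).continuous.comp continuous_snd
      have h4 : Continuous (fun q : ℂ × ℂ => χ q.1) := χ.continuous.comp continuous_fst
      exact (h3.mul (h2.mul h4)).aestronglyMeasurable
    · refine Filter.Eventually.of_forall fun q => ?_
      simp only [Function.uncurry]
      rw [norm_mul, norm_mul, norm_ch, one_mul, mul_comm]

/-- decay of Fourier transforms of dilated functions. -/
lemma fourier_dilate_bound (χ : 𝓢(ℂ, ℂ)) : ∃ C > 0, ∀ ε, 0 < ε → ∀ χε : 𝓢(ℂ, ℂ),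
    (∀ z, χε z = χ (ε⁻¹ • z)) → ∀ η, ‖𝓕 χε η‖ ≤ C * ε ^ 2 * wt ε η := by
  obtain ⟨C, hC, hdec⟩ : ∃ C > 0, ∀ y : ℂ, ‖𝓕 χ y‖ ≤ C * wt 1 y := by
    have h := SchwartzMap.one_add_le_sup_seminorm_apply (𝕜 := ℝ) (m := (4, 0)) (k := 4) (n := 0)
      le_rfl le_rfl (𝓕 χ)
    refine ⟨2 ^ 4 * (((Finset.Iic ((4 : ℕ), (0 : ℕ))).sup fun m => SchwartzMap.seminorm ℝ m.1 m.2) (𝓕 χ)) + 1,
      by positivity, fun y => ?_⟩
    have h1 : (1 + ‖y‖) ^ 4 * ‖𝓕 χ y‖ ≤ 2 ^ 4 *
        (((Finset.Iic ((4 : ℕ), (0 : ℕ))).sup fun m => SchwartzMap.seminorm ℝ m.1 m.2) (𝓕 χ)) := by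
      have h1 := h y
      rw [norm_iteratedFDeriv_zero] at h1
      exact h1
    unfold wt
    rw [one_pow, one_mul, ← div_eq_mul_inv, le_div_iff₀ (by positivity)]
    have h2 : (1 + ‖y‖ ^ 2) ^ 2 ≤ (1 + ‖y‖) ^ 4 := by
      have : 1 + ‖y‖ ^ 2 ≤ (1 + ‖y‖) ^ 2 := by nlinarith [norm_nonneg y]
      calc (1 + ‖y‖ ^ 2) ^ 2 ≤ ((1 + ‖y‖) ^ 2) ^ 2 := by gcongr
        _ = _ := by ring
    calc ‖𝓕 χ y‖ * (1 + ‖y‖ ^ 2) ^ 2 ≤ ‖𝓕 χ y‖ * (1 + ‖y‖) ^ 4 := by gcongr
      _ = (1 + ‖y‖) ^ 4 * ‖𝓕 χ y‖ := by ring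
      _ ≤ _ := h1
      _ ≤ _ := by linarith
  refine ⟨C, hC, fun ε hε χε hχ η => ?_⟩
  have e : 𝓕 χε η = (ε ^ 2 : ℝ) • 𝓕 χ (ε • η) := by
    rw [SchwartzMap.fourier_coe, fourier_eq_ch, SchwartzMap.fourier_coe χ, fourier_eq_ch]
    have e1 : ∀ z, ch (ip η z) * χε z = (fun w => ch (ip (ε • η) w) * χ w) (ε⁻¹ • z) := by
      intro z
      simp only
      rw [hχ]
      congr 2
      simp only [ip_eq, Complex.real_smul, Complex.re_ofReal_mul, Complex.im_ofReal_mul]
      field_simp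
    simp_rw [e1]
    rw [Measure.integral_comp_smul volume (fun w => ch (ip (ε • η) w) * χ w) ε⁻¹]
    simp only [Complex.finrank_real_complex]
    rw [abs_of_pos (by positivity), inv_pow, inv_inv]
  rw [e, norm_smul, Real.norm_eq_abs, abs_of_pos (by positivity)]
  have h1 := hdec (ε • η)
  have h2 : wt 1 (ε • η) = wt ε η := by
    unfold wt
    rw [norm_smul, Real.norm_eq_abs, mul_pow, sq_abs]
    ring_nf
  rw [h2] at h1
  calc ε ^ 2 * ‖𝓕 χ (ε • η)‖ ≤ ε ^ 2 * (C * wt ε η) := by gcongr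
    _ = _ := by ring

/-- there is no tight frame for a closed planar curve: core statement. -/
theorem no_tight {ι : Type*} [Countable ι] {lam : ι → ℂ} {A : ℝ} (h : CCurve γ γ' L S)
    (hA : 0 < A) (hT : Tight lam γ L A) : False := by
  classical
  have hL := h.hL
  obtain ⟨r, hr, hpun⟩ := punctured h hT
  obtain ⟨C, hC, hcount⟩ := count_bound hT hA.le h.cont hL h.lip
  -- the index set is nonempty
  obtain ⟨i0⟩ : Nonempty ι := by
    by_contra hne
    rw [not_nonempty_iff] at hne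
    have h1 := tight_arc hT h.cont (c := fun _ => 1) measurable_const (by simp) le_rfl le_rfl 0
      (α := 0) (β := L)
    have h2 : (A * ∫ t in Ioc 0 L, ‖(1:ℂ)‖ ^ 2) = A * L := by simp [hL.le]
    rw [h2] at h1
    have h3 := h1.unique hasSum_empty
    have : 0 < A * L := by positivity
    linarith
  -- the bump
  let f : ContDiffBump (0 : ℂ) := ⟨r / 8, r / 4, by positivity, by linarith⟩
  have hfs : ContDiff ℝ ∞ (fun z => ((f z : ℝ) : ℂ)) := Complex.ofRealCLM.contDiff.comp f.contDiff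
  have hfc : HasCompactSupport (fun z => ((f z : ℝ) : ℂ)) :=
    f.hasCompactSupport.comp_left (g := fun x : ℝ => (x : ℂ)) (by simp)
  let φ : 𝓢(ℂ, ℂ) := hfc.toSchwartzMap hfs
  have hφa : ∀ z, φ z = ((f z : ℝ) : ℂ) := fun z => rfl
  have hφsupp : Function.support φ ⊆ Metric.ball 0 (r / 4) := by
    intro z hz
    have h1 : f z ≠ 0 := by
      intro h0
      apply hz
      rw [hφa, h0]; simp
    have h2 : z ∈ Function.support f := h1
    rwa [f.support_eq] at h2
  have hreal : ∀ ξ, conj (𝓕 φ ξ) = 𝓕 φ ξ := by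
    intro ξ
    rw [SchwartzMap.fourier_coe, fourier_eq_ch, ← integral_conj]
    rw [← integral_neg_eq_self (fun z => ch (ip ξ z) * φ z) volume]
    congr 1
    ext z
    rw [map_mul, conj_ch]
    have e1 : ip ξ (-z) = -ip ξ z := by simp only [ip_eq, Complex.neg_re, Complex.neg_im]; ring
    have e2 : f (-z) = f z := by
      have := f.sub z
      simpa using this
    rw [e1, hφa, hφa, Complex.conj_ofReal, e2]
  let ψ : 𝓢(ℂ, ℂ) := SchwartzMap.convolution (ContinuousLinearMap.mul ℂ ℂ) φ φ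
  have hψF : ∀ ξ, 𝓕 ψ ξ = 𝓕 φ ξ * 𝓕 φ ξ := by
    intro ξ
    rw [SchwartzMap.fourier_convolution_apply, Real.fourier_mul_convolution_eq φ.integrable φ.integrable]
    rfl
  have hψsupp : Function.support ψ ⊆ Metric.ball 0 (r / 2) := by
    intro z hz
    have h1 : z ∈ Function.support (fun z => (convolution φ φ (ContinuousLinearMap.mul ℂ ℂ) volume) z) := by
      intro h0
      apply hz
      rw [SchwartzMap.convolution_apply]
      exact h0
    have h2 := support_convolution_subset (ContinuousLinearMap.mul ℂ ℂ) h1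
    obtain ⟨x, hx, y, hy, hxy⟩ := h2
    have hx' := hφsupp hx
    have hy' := hφsupp hy
    rw [Metric.mem_ball, dist_zero_right] at hx' hy' ⊢
    rw [← hxy]
    calc ‖x + y‖ ≤ ‖x‖ + ‖y‖ := norm_add_le _ _
      _ < r / 2 := by linarith
  have hψts : tsupport ψ ⊆ Metric.closedBall 0 (r / 2) :=
    closure_minimal (hψsupp.trans Metric.ball_subset_closedBall) Metric.isClosed_closedBall
  have hψc : HasCompactSupport ψ :=
    (isCompact_closedBall (0:ℂ) (r / 2)).of_isClosed_subset (isClosed_tsupport _) hψts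
  -- modulation
  have hmod : ContDiff ℝ ∞ (fun z => ψ z * ch (-(ip (lam i0) z))) := by
    have a1 : ContDiff ℝ ∞ (fun z : ℂ => ip (lam i0) z) := by
      simp only [ip_eq]
      have b1 : ContDiff ℝ ∞ (fun z : ℂ => z.re) := Complex.reCLM.contDiff
      have b2 : ContDiff ℝ ∞ (fun z : ℂ => z.im) := Complex.imCLM.contDiff
      fun_prop
    exact (ψ.smooth ⊤).mul (contDiff_ch.comp a1.neg)
  have hmodc : HasCompactSupport (fun z => ψ z * ch (-(ip (lam i0) z))) := hψc.mul_right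
  let g : 𝓢(ℂ, ℂ) := hmodc.toSchwartzMap hmod
  have hga : ∀ z, g z = ψ z * ch (-(ip (lam i0) z)) := fun z => rfl
  have hgts : tsupport g ⊆ Metric.closedBall 0 (r / 2) := by
    refine (closure_mono ?_).trans hψts
    intro z hz h0
    apply hz
    rw [hga, h0, zero_mul]
  have hgF : ∀ l, 𝓕 g l = (𝓕 φ (l - lam i0)) * (𝓕 φ (l - lam i0)) := by
    intro l
    rw [← hψF, SchwartzMap.fourier_coe, fourier_eq_ch, SchwartzMap.fourier_coe ψ, fourier_eq_ch]
    congr 1
    ext z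
    rw [hga, ip_sub_left l, sub_eq_add_neg (ip l _), ch_add]
    ring
  have hgFre : ∀ l, 0 ≤ (𝓕 g l).re := by
    intro l
    rw [hgF]
    have h1 := hreal (l - lam i0)
    have h2 : (𝓕 φ (l - lam i0)).im = 0 := Complex.conj_eq_iff_im.mp h1
    rw [Complex.mul_re, h2]
    nlinarith [sq_nonneg (𝓕 φ (l - lam i0)).re]
  set m : ℝ := (𝓕 g (lam i0)).re with hm
  have hmpos : 0 < m := by
    rw [hm, hgF, sub_self]
    have h1 : 𝓕 φ 0 = ((∫ z, f z : ℝ) : ℂ) := by
      rw [SchwartzMap.fourier_coe, fourier_eq_ch]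
      have : ∀ z, ch (ip 0 z) * φ z = ((f z : ℝ) : ℂ) := by
        intro z
        have : ip 0 z = 0 := by simp [ip_eq]
        rw [this, ch_zero, one_mul, hφa]
      simp_rw [this]
      exact integral_complex_ofReal
    have h2 : 0 < ∫ z, f z := f.integral_pos
    rw [h1, ← Complex.ofReal_mul, Complex.ofReal_re]
    positivity
  -- the cutoff
  let b : ContDiffBump (0 : ℂ) := ⟨1 / 2, 1, by positivity, by norm_num⟩
  have hbs : ContDiff ℝ ∞ (fun z => ((b z : ℝ) : ℂ)) := Complex.ofRealCLM.contDiff.comp b.contDiff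
  have hbc : HasCompactSupport (fun z => ((b z : ℝ) : ℂ)) :=
    b.hasCompactSupport.comp_left (g := fun x : ℝ => (x : ℂ)) (by simp)
  let χ : 𝓢(ℂ, ℂ) := hbc.toSchwartzMap hbs
  have hχa : ∀ z, χ z = ((b z : ℝ) : ℂ) := fun z => rfl
  obtain ⟨Cχ, hCχ, hdil⟩ := fourier_dilate_bound χ
  set I1 : ℝ := ∫ ζ, ‖𝓕 g ζ‖ with hI1
  have hI1n : 0 ≤ I1 := integral_nonneg fun _ => norm_nonneg _
  have main : ∀ ε, 0 < ε → ε ≤ L / 2 → m ≤ I1 * Cχ * C * ε := by
    intro ε hε hεL
    have hεi : ε⁻¹ ≠ 0 := by positivity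
    have hsm : ContDiff ℝ ∞ (fun z : ℂ => χ (ε⁻¹ • z)) := (χ.smooth ⊤).comp (contDiff_const_smul _)
    have hcs : HasCompactSupport (fun z : ℂ => χ (ε⁻¹ • z)) := hbc.comp_smul hεi
    let χε : 𝓢(ℂ, ℂ) := hcs.toSchwartzMap hsm
    have hχεa : ∀ z, χε z = χ (ε⁻¹ • z) := fun z => rfl
    have hk1s : ContDiff ℝ ∞ (fun z : ℂ => g z * χε z) := (g.smooth ⊤).mul (χε.smooth ⊤)
    have hk1c : HasCompactSupport (fun z : ℂ => g z * χε z) := hmodc.mul_right
    let k1 : 𝓢(ℂ, ℂ) := hk1c.toSchwartzMap hk1s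
    have hk1a : ∀ z, k1 z = g z * χε z := fun z => rfl
    let k2 : 𝓢(ℂ, ℂ) := g - k1
    have hk2a : ∀ z, k2 z = g z * (1 - χε z) := by
      intro z
      change g z - k1 z = _
      rw [hk1a]; ring
    have hk2g : tsupport k2 ⊆ tsupport g := by
      apply closure_mono
      intro z hz h0
      apply hz
      rw [hk2a, h0, zero_mul]
    have hk2c : HasCompactSupport k2 :=
      (isCompact_closedBall (0:ℂ) (r / 2)).of_isClosed_subset (isClosed_tsupport _) (hk2g.trans hgts)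
    have hk20 : (0 : ℂ) ∉ tsupport k2 := by
      rw [notMem_tsupport_iff_eventuallyEq]
      filter_upwards [Metric.ball_mem_nhds (0 : ℂ) (show 0 < ε / 2 by positivity)] with z hz
      rw [hk2a, hχεa, hχa, b.one_of_mem_closedBall]
      · simp
      · rw [Metric.mem_closedBall, dist_zero_right, norm_smul, norm_inv, Real.norm_eq_abs, abs_of_pos hε]
        rw [Metric.mem_ball, dist_zero_right] at hz
        change ε⁻¹ * ‖z‖ ≤ 1 / 2
        rw [inv_mul_le_iff₀ hε]
        linarith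
    have hk2s : tsupport k2 ⊆ Metric.ball 0 r \ {0} := by
      intro z hz
      refine ⟨?_, fun h0 => hk20 (by rw [mem_singleton_iff] at h0; rwa [h0] at hz)⟩
      have := hgts (hk2g hz)
      rw [Metric.mem_closedBall, dist_zero_right] at this
      rw [Metric.mem_ball, dist_zero_right]
      linarith
    have hs2 := hpun k2 hk2c hk2s
    -- bound of the first part
    have hb1 : ∀ u : Finset ι, ∑ i ∈ u, ‖𝓕 k1 (lam i)‖ ≤ I1 * Cχ * C * ε := by
      intro u
      have hle : ∀ i, ‖𝓕 k1 (lam i)‖ ≤ ∫ ζ, ‖𝓕 g ζ‖ * (Cχ * ε ^ 2 * wt ε (lam i - ζ)) := by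
        intro i
        rw [fourier_mul_eq g χε k1 hk1a]
        refine norm_integral_le_of_norm_le ?_ ?_
        · refine ((𝓕 g).integrable.norm.mul_const (Cχ * ε ^ 2)).mono' ?_ ?_
          · have c1 : Continuous (fun ζ : ℂ => wt ε (lam i - ζ)) := (continuous_wt ε).comp (by fun_prop)
            exact ((𝓕 g).continuous.norm.mul (continuous_const.mul c1)).aestronglyMeasurable
          · refine Filter.Eventually.of_forall fun ζ => ?_
            have hw := wt_pos ε (lam i - ζ)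
            rw [Real.norm_eq_abs, abs_of_nonneg (by positivity)]
            have := wt_le_one ε (lam i - ζ)
            apply mul_le_mul_of_nonneg_left _ (norm_nonneg _)
            calc Cχ * ε ^ 2 * wt ε (lam i - ζ) ≤ Cχ * ε ^ 2 * 1 := by gcongr
              _ = _ := mul_one _
        · refine Filter.Eventually.of_forall fun ζ => ?_
          rw [norm_mul]
          exact mul_le_mul_of_nonneg_left (hdil ε hε χε hχεa _) (norm_nonneg _)
      have hint : ∀ i, Integrable (fun ζ => ‖𝓕 g ζ‖ * (Cχ * ε ^ 2 * wt ε (lam i - ζ))) := by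
        intro i
        refine ((𝓕 g).integrable.norm.mul_const (Cχ * ε ^ 2)).mono' ?_ ?_
        · have c1 : Continuous (fun ζ : ℂ => wt ε (lam i - ζ)) := (continuous_wt ε).comp (by fun_prop)
          exact ((𝓕 g).continuous.norm.mul (continuous_const.mul c1)).aestronglyMeasurable
        · refine Filter.Eventually.of_forall fun ζ => ?_
          have hw := wt_pos ε (lam i - ζ)
          rw [Real.norm_eq_abs, abs_of_nonneg (by positivity)]
          have := wt_le_one ε (lam i - ζ)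
          apply mul_le_mul_of_nonneg_left _ (norm_nonneg _)
          calc Cχ * ε ^ 2 * wt ε (lam i - ζ) ≤ Cχ * ε ^ 2 * 1 := by gcongr
            _ = _ := mul_one _
      calc ∑ i ∈ u, ‖𝓕 k1 (lam i)‖ ≤ ∑ i ∈ u, ∫ ζ, ‖𝓕 g ζ‖ * (Cχ * ε ^ 2 * wt ε (lam i - ζ)) :=
            Finset.sum_le_sum fun i _ => hle i
        _ = ∫ ζ, ∑ i ∈ u, ‖𝓕 g ζ‖ * (Cχ * ε ^ 2 * wt ε (lam i - ζ)) :=
            (integral_finsetSum u (fun i _ => hint i)).symm
        _ ≤ ∫ ζ, ‖𝓕 g ζ‖ * (Cχ * ε ^ 2 * (C / ε)) := by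
            apply integral_mono (integrable_finsetSum u (fun i _ => hint i))
              ((𝓕 g).integrable.norm.mul_const _)
            intro ζ
            simp only
            rw [← Finset.mul_sum, ← Finset.mul_sum]
            have := hcount ε hε hεL ζ u
            gcongr
        _ = I1 * Cχ * C * ε := by
            rw [integral_mul_const, hI1]
            field_simp
    -- conclusion
    have hlim : Filter.Tendsto (fun u : Finset ι => I1 * Cχ * C * ε + ‖∑ i ∈ u, 𝓕 k2 (lam i)‖)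
        Filter.atTop (𝓝 (I1 * Cχ * C * ε + ‖(0:ℂ)‖)) := by
      have h2 : Filter.Tendsto (fun u : Finset ι => ∑ i ∈ u, 𝓕 k2 (lam i)) Filter.atTop (𝓝 0) := hs2
      exact tendsto_const_nhds.add h2.norm
    rw [norm_zero, add_zero] at hlim
    apply ge_of_tendsto hlim
    filter_upwards [Filter.eventually_ge_atTop {i0}] with u hu
    have hi0u : i0 ∈ u := hu (Finset.mem_singleton_self i0)
    have hsplit : ∀ i, 𝓕 g (lam i) = 𝓕 k1 (lam i) + 𝓕 k2 (lam i) := by
      intro i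
      have : g = k1 + k2 := by
        ext z
        change g z = k1 z + (g z - k1 z)
        ring
      conv_lhs => rw [this]
      rw [FourierTransform.fourier_add]
      rfl
    calc m ≤ ∑ i ∈ u, (𝓕 g (lam i)).re :=
          Finset.single_le_sum (f := fun i => (𝓕 g (lam i)).re) (fun i _ => hgFre _) hi0u
      _ = (∑ i ∈ u, 𝓕 g (lam i)).re := by rw [Complex.re_sum]
      _ ≤ ‖∑ i ∈ u, 𝓕 g (lam i)‖ := Complex.re_le_norm _
      _ = ‖(∑ i ∈ u, 𝓕 k1 (lam i)) + ∑ i ∈ u, 𝓕 k2 (lam i)‖ := by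
          rw [← Finset.sum_add_distrib]
          simp_rw [hsplit]
      _ ≤ ‖∑ i ∈ u, 𝓕 k1 (lam i)‖ + ‖∑ i ∈ u, 𝓕 k2 (lam i)‖ := norm_add_le _ _
      _ ≤ I1 * Cχ * C * ε + ‖∑ i ∈ u, 𝓕 k2 (lam i)‖ := by
          gcongr
          exact (norm_sum_le _ _).trans (hb1 u)
  -- choose a small scale
  have hK : 0 ≤ I1 * Cχ * C := by positivity
  set ε := min (L / 2) (m / (2 * (I1 * Cχ * C + 1))) with hε
  have hεp : 0 < ε := lt_min (by positivity) (by positivity)
  have h1 := main ε hεp (min_le_left _ _)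
  have h2 : I1 * Cχ * C * ε ≤ m / 2 := by
    calc I1 * Cχ * C * ε ≤ (I1 * Cχ * C + 1) * (m / (2 * (I1 * Cχ * C + 1))) := by
          apply mul_le_mul (by linarith) (min_le_right _ _) hεp.le (by linarith)
      _ = m / 2 := by field_simp
  linarith

end Pool.Agent.R227.Curve
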