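import Pool.Agent.R227.Curve11

set_option autoImplicit false

open MeasureTheory Set Real
open scoped Topology ContDiff ComplexConjugate

namespace Pool.Agent.R227.Curve

/-- Given a curve that is injective off a countable set, every bounded measurable function of the
parameter is a bounded Borel function of the point, almost everywhere. -/
lemma exists_pull {E : Type*} [NormedAddCommGroup E] [InnerProductSpace ℝ E] [FiniteDimensional ℝ E]
    [MeasurableSpace E] [BorelSpace E] {γ : ℝ → E} {L : ℝ} (hc : ContinuousOn γ (Icc 0 L))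
    (hinj : {t ∈ Ico 0 L | ∃ s ∈ Ico 0 L, s ≠ t ∧ γ s = γ t}.Countable)
    (a : ℝ → ℂ) (ha : Measurable a) (M : ℝ) (hM : ∀ t, ‖a t‖ ≤ M) :
    ∃ f : E → ℂ, Measurable f ∧ (∀ x, ‖f x‖ ≤ M) ∧
      ∀ᵐ t ∂(volume.restrict (Icc 0 L)), f (γ t) = a t := by
  set N := {t ∈ Ico 0 L | ∃ s ∈ Ico 0 L, s ≠ t ∧ γ s = γ t} with hN
  set K : Set ℝ := Ioo 0 L \ N with hK
  have hKm : MeasurableSet K := measurableSet_Ioo.diff hinj.measurableSet
  have hKs : StandardBorelSpace K := hKm.standardBorel
  let gK : K → E := fun k => γ k
  have hgc : Continuous gK := by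
    have : ContinuousOn γ K := hc.mono fun t ht => Ioo_subset_Icc_self ht.1
    exact this.domRestrict
  have hgi : Function.Injective gK := by
    intro s t hst
    by_contra hne
    have hne' : (s : ℝ) ≠ t := fun h => hne (Subtype.ext h)
    exact t.2.2 ⟨Ioo_subset_Ico_self t.2.1, s, Ioo_subset_Ico_self s.2.1, hne', hst⟩
  have hem : MeasurableEmbedding gK := hgc.measurable.measurableEmbedding hgi
  have hM0 : 0 ≤ M := (norm_nonneg _).trans (hM 0)
  refine ⟨Function.extend gK (fun k => a k) (fun _ => 0), ?_, ?_, ?_⟩
  · exact hem.measurable_extend (ha.comp measurable_subtype_coe) measurable_const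
  · intro x
    by_cases hx : ∃ k, gK k = x
    · obtain ⟨k, rfl⟩ := hx
      rw [hgi.extend_apply]
      exact hM _
    · rw [Function.extend_apply' _ _ _ hx, norm_zero]
      exact hM0
  · have hnull : volume (Icc 0 L \ K) = 0 := by
      have hsub : Icc 0 L \ K ⊆ N ∪ {0, L} := by
        intro t ht
        by_cases h0 : t = 0
        · right; left; exact h0
        by_cases hL : t = L
        · right; right; exact hL
        left
        by_contra htN
        apply ht.2
        exact ⟨⟨lt_of_le_of_ne ht.1.1 (Ne.symm h0), lt_of_le_of_ne ht.1.2 hL⟩, htN⟩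
      refine measure_mono_null hsub ?_
      exact (hinj.union (by simp)).measure_zero volume
    have h1 : ∀ᵐ t ∂(volume.restrict (Icc 0 L)), t ∉ Icc 0 L \ K := by
      have := measure_eq_zero_iff_ae_notMem.mp hnull
      exact ae_restrict_of_ae this
    filter_upwards [h1, ae_restrict_mem measurableSet_Icc] with t ht htI
    have htK : t ∈ K := by
      by_contra hcon
      exact ht ⟨htI, hcon⟩
    exact hgi.extend_apply (fun k => a k) (fun _ => 0) ⟨t, htK⟩

end Pool.Agent.R227.Curve
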