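import Pool.Agent.R227.Curve1

set_option autoImplicit false

open MeasureTheory Set
open scoped Topology ContDiff

namespace Pool.Agent.R227.Curve

/-- thin truncated sector around the positive real axis -/
def Sec (r c : ℝ) : Set (ℝ × ℝ) := {p | 0 < p.1 ∧ p.1 < r ∧ |p.2| < c * p.1}

/-- integral over a full horizontal line -/
noncomputable def pinf (g : ℝ × ℝ → ℂ) (r : ℝ) (y : ℝ) : ℂ := ∫ u in (0:ℝ)..r, g (u, y)

section prim

variable {g : ℝ × ℝ → ℂ} {r c : ℝ}

lemma prim_zero_of_slope (hsupp : ∀ p, g p ≠ 0 → p ∈ Sec r c) (hc : 0 < c) {x y : ℝ}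
    (hxy : c * x ≤ |y|) : prim g (x, y) = 0 := by
  rw [prim_eq]
  apply intervalIntegral.integral_zero_ae
  refine Filter.Eventually.of_forall fun u hu => ?_
  by_contra hne
  obtain ⟨h1, h2, h3⟩ := hsupp _ hne
  simp only at h1 h2 h3
  rcases le_total 0 x with hx | hx
  · rw [uIoc_of_le hx] at hu
    have : c * u ≤ c * x := mul_le_mul_of_nonneg_left hu.2 hc.le
    linarith
  · rw [uIoc_of_ge hx] at hu
    linarith [hu.2]

lemma prim_far (hsupp : ∀ p, g p ≠ 0 → p ∈ Sec r c) (hg : Continuous g) {x y : ℝ} (hx : r ≤ x) :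
    prim g (x, y) = pinf g r y := by
  rw [prim_eq, pinf]
  have hgc : Continuous (fun u : ℝ => g (u, y)) := by fun_prop
  rw [← intervalIntegral.integral_add_adjacent_intervals (hgc.intervalIntegrable 0 r)
    (hgc.intervalIntegrable r x)]
  rw [intervalIntegral.integral_zero_ae (a := r) (b := x), add_zero]
  refine Filter.Eventually.of_forall fun u hu => ?_
  by_contra hne
  obtain ⟨h1, h2, h3⟩ := hsupp _ hne
  simp only at h1 h2 h3
  rw [uIoc_of_le hx] at hu
  linarith [hu.1]

lemma prim_zero_of_high (hsupp : ∀ p, g p ≠ 0 → p ∈ Sec r c) (hc : 0 < c) {x y : ℝ}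
    (hy : c * r ≤ |y|) : prim g (x, y) = 0 := by
  rw [prim_eq]
  apply intervalIntegral.integral_zero_ae
  refine Filter.Eventually.of_forall fun u hu => ?_
  by_contra hne
  obtain ⟨h1, h2, h3⟩ := hsupp _ hne
  simp only at h1 h2 h3
  have : c * u ≤ c * r := mul_le_mul_of_nonneg_left h2.le hc.le
  linarith

lemma pinf_zero_of_high (hsupp : ∀ p, g p ≠ 0 → p ∈ Sec r c) (hc : 0 < c) {y : ℝ}
    (hy : c * r ≤ |y|) : pinf g r y = 0 := by
  have := prim_zero_of_high (x := r) hsupp hc hy
  rwa [prim_eq] at this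

lemma continuous_pinf (hg : Continuous g) : Continuous (pinf g r) := by
  unfold pinf
  exact intervalIntegral.continuous_parametric_intervalIntegral_of_continuous' (by fun_prop) 0 r

/-- the total integral -/
lemma integral_eq_pinf (hsupp : ∀ p, g p ≠ 0 → p ∈ Sec r c) (hg : Continuous g) (hr : 0 < r)
    (hc : 0 < c) {η : ℝ} (hη : c * r ≤ η) :
    ∫ p, g p = ∫ y in (0:ℝ)..η, (pinf g r y + pinf g r (-y)) := by
  have hη0 : 0 < η := lt_of_lt_of_le (by positivity) hη
  have hcs : HasCompactSupport g := by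
    apply HasCompactSupport.intro (K := (Icc 0 r) ×ˢ (Icc (-η) η)) (isCompact_Icc.prod isCompact_Icc)
    intro p hp
    by_contra hne
    apply hp
    obtain ⟨h1, h2, h3⟩ := hsupp _ hne
    have h4 : c * p.1 ≤ c * r := mul_le_mul_of_nonneg_left h2.le hc.le
    have h5 : |p.2| ≤ η := by linarith
    exact ⟨⟨h1.le, h2.le⟩, abs_le.mp h5⟩
  have hint : Integrable g := hg.integrable_of_hasCompactSupport hcs
  have e1 : ∫ p, g p = ∫ y, ∫ x, g (x, y) := by
    rw [Measure.volume_eq_prod] at hint ⊢
    exact integral_prod_symm _ hint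
  have e2 : ∀ y, ∫ x, g (x, y) = pinf g r y := by
    intro y
    rw [pinf, intervalIntegral.integral_of_le hr.le]
    symm
    apply setIntegral_eq_integral_of_forall_compl_eq_zero
    intro x hx
    by_contra hne
    apply hx
    obtain ⟨h1, h2, h3⟩ := hsupp _ hne
    exact ⟨h1, h2.le⟩
  have e3 : ∫ y, pinf g r y = ∫ y in (-η)..η, pinf g r y := by
    rw [intervalIntegral.integral_of_le (by linarith)]
    symm
    have hz : ∀ y, y ∉ Icc (-η) η → pinf g r y = 0 := by
      intro y hy
      apply pinf_zero_of_high hsupp hc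
      by_contra hlt
      push Not at hlt
      exact hy (abs_le.mp (by linarith))
    rw [← integral_Icc_eq_integral_Ioc]
    exact setIntegral_eq_integral_of_forall_compl_eq_zero hz
  rw [e1]
  simp_rw [e2]
  rw [e3]
  have hpc : Continuous (pinf g r) := continuous_pinf hg
  have hpn : Continuous (fun y => pinf g r (-y)) := hpc.comp continuous_neg
  rw [← intervalIntegral.integral_add_adjacent_intervals (b := 0) (hpc.intervalIntegrable _ _)
    (hpc.intervalIntegrable _ _), intervalIntegral.integral_add (hpc.intervalIntegrable _ _)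
    (hpn.intervalIntegrable _ _), add_comm]
  congr 1
  have := intervalIntegral.integral_comp_neg (a := 0) (b := η) (pinf g r)
  simp only [neg_zero] at this
  exact this.symm

end prim

section arc

variable {X Y X' Y' : ℝ → ℝ} {α β y0 : ℝ} {S : Set ℝ}

/-- substitution along the arc -/
lemma Arc.subst (h : Arc X Y X' Y' α β y0 S) {φ : ℝ → ℂ} (hφ : Continuous φ) {a b : ℝ}
    (hab : a ≤ b) (ha : α ≤ a) (hb : b ≤ β) :
    ∫ s in Ioc a b, (Y' s : ℂ) * φ (Y s - y0)
      = (∫ u in (0:ℝ)..(Y b - y0), φ u) - ∫ u in (0:ℝ)..(Y a - y0), φ u := by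
  rw [← intervalIntegral.integral_of_le hab]
  have cY := h.cY
  have mY := h.mY
  have hprim : ∀ y : ℝ, HasDerivAt (fun y => ∫ u in (0:ℝ)..y, φ u) (φ y) y := fun y =>
    intervalIntegral.integral_hasDerivAt_right (hφ.intervalIntegrable _ _)
      (hφ.stronglyMeasurableAtFilter _ _) hφ.continuousAt
  have hpc : Continuous (fun y => ∫ u in (0:ℝ)..y, φ u) :=
    continuous_iff_continuousAt.mpr fun y => (hprim y).continuousAt
  have := integral_eq_of_hasDerivAt_off_countable_of_le (fun s => ∫ u in (0:ℝ)..(Y s - y0), φ u)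
    (fun s => (Y' s : ℂ) * φ (Y s - y0)) hab h.hS
  apply this
  · exact (hpc.comp (by fun_prop : Continuous fun s => Y s - y0)).continuousOn
  · intro s hs
    have h1 : HasDerivAt (fun s => Y s - y0) (Y' s) s :=
      (h.dY s ⟨⟨lt_of_le_of_lt ha hs.1.1, lt_of_lt_of_le hs.1.2 hb⟩, hs.2⟩).sub_const _
    have h2 := (hprim (Y s - y0)).scomp s h1
    rw [Complex.real_smul] at h2
    exact h2
  · rw [intervalIntegrable_iff, uIoc_of_le hab]
    have hc2 : Continuous (fun s => φ (Y s - y0)) := by fun_prop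
    obtain ⟨M, hM⟩ := isCompact_Icc.exists_bound_of_continuousOn (s := Icc a b) hc2.continuousOn
    apply Integrable.of_bound (C := M)
    · have : Measurable (fun s => (Y' s : ℂ)) := by fun_prop
      exact (this.mul hc2.measurable).aestronglyMeasurable
    · refine (ae_restrict_mem measurableSet_Ioc).mono fun s hs => ?_
      rw [norm_mul, Complex.norm_real, Real.norm_eq_abs]
      calc |Y' s| * ‖φ (Y s - y0)‖ ≤ 1 * M := by
            gcongr
            · exact h.bY s
            · exact hM s (Ioc_subset_Icc_self hs)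
        _ = M := one_mul _

/-- transversality data at the two ends of the arc. -/
structure Trans (X Y : ℝ → ℝ) (α β y0 m η k l : ℝ) : Prop where
  hm1 : α < m
  hm2 : m < β
  hη : 0 < η
  hk : 0 < k
  hl : 0 < l
  hYm : η ≤ Y m - y0
  left : ∀ t ∈ Icc α m, η ≤ Y t - y0 ∨ (k * |X t - X α| ≤ Y t - y0 ∧ |X t - X α| ≤ l)
  right : ∀ t ∈ Icc m β, η ≤ Y t - y0 ∨ (k * |X t - X β| ≤ Y t - y0 ∧ |X t - X β| ≤ l)
  sep : 2 * l ≤ |X β - X α|

theorem Arc.sector_identity (h : Arc X Y X' Y' α β y0 S) {m η k l : ℝ}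
    (ht : Trans X Y α β y0 m η k l) {r c : ℝ} (hr : 0 < r) (hc : 0 < c) (hrl : r ≤ l)
    (hcr : c * r ≤ η) (hck : c ≤ k)
    {g : ℝ × ℝ → ℂ} (hg : ContDiff ℝ 1 g) (hsupp : ∀ p, g p ≠ 0 → p ∈ Sec r c) :
    ∫ p : ℝ × ℝ, ((X' p.1 * Y' p.2 - Y' p.1 * X' p.2 : ℝ) : ℂ) * g (X p.1 - X p.2, Y p.1 - Y p.2)
      ∂((volume.restrict (Ioc α β)).prod (volume.restrict (Ioc α β))) = ∫ p, g p := by
  have hgc : Continuous g := hg.continuous
  have hpinf : Continuous (pinf g r) := continuous_pinf hgc
  rw [h.double_eq hg]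
  have hm1 := ht.hm1
  have hm2 := ht.hm2
  have hηm := ht.hYm
  have hη := ht.hη
  have hk := ht.hk
  have hl := ht.hl
  have hYnn : ∀ t ∈ Icc α β, 0 ≤ Y t - y0 := by
    intro t htt
    rcases le_total t m with htm | htm
    · rcases ht.left t ⟨htt.1, htm⟩ with h1 | h1
      · linarith
      · have := abs_nonneg (X t - X α)
        nlinarith [h1.1]
    · rcases ht.right t ⟨htm, htt.2⟩ with h1 | h1
      · linarith
      · have := abs_nonneg (X t - X β)
        nlinarith [h1.1]
  -- reflect-free total: both cases give the same sum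
  have hfin : ∀ φ : ℝ → ℂ, Continuous φ →
      (∫ s in Ioc α m, (Y' s : ℂ) * φ (Y s - y0)) = ∫ u in (0:ℝ)..(Y m - y0), φ u := by
    intro φ hφ
    rw [h.subst hφ hm1.le le_rfl hm2.le, h.eα, sub_self, intervalIntegral.integral_same, sub_zero]
  have hfin2 : ∀ φ : ℝ → ℂ, Continuous φ →
      (∫ s in Ioc m β, (Y' s : ℂ) * φ (Y s - y0)) = - ∫ u in (0:ℝ)..(Y m - y0), φ u := by
    intro φ hφ
    rw [h.subst hφ hm2.le hm1.le le_rfl, h.eβ, sub_self, intervalIntegral.integral_same, zero_sub]
  have htot : ∫ p, g p = (∫ u in (0:ℝ)..(Y m - y0), pinf g r u)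
      + ∫ u in (0:ℝ)..(Y m - y0), pinf g r (-u) := by
    have hpn : Continuous (fun y => pinf g r (-y)) := hpinf.comp continuous_neg
    rw [integral_eq_pinf hsupp hgc hr hc (hcr.trans hηm), intervalIntegral.integral_add
      (hpinf.intervalIntegrable _ _) (hpn.intervalIntegrable _ _)]
  -- values of the primitive
  have habs : ∀ t ∈ Icc α β, |Y α - Y t| = Y t - y0 ∧ |Y β - Y t| = Y t - y0 := by
    intro t htt
    have := hYnn t htt
    rw [h.eα, h.eβ, abs_sub_comm, abs_of_nonneg this]
    exact ⟨rfl, rfl⟩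
  have hYα : ∀ s, Y α - Y s = -(Y s - y0) := fun s => by rw [h.eα]; ring
  have hYβ : ∀ s, Y β - Y s = -(Y s - y0) := fun s => by rw [h.eβ]; ring
  have hYα' : ∀ s, Y s - Y α = Y s - y0 := fun s => by rw [h.eα]
  have hYβ' : ∀ s, Y s - Y β = Y s - y0 := fun s => by rw [h.eβ]
  have high : ∀ t, η ≤ Y t - y0 → ∀ x, prim g (x, Y t - y0) = 0 ∧ prim g (x, -(Y t - y0)) = 0 := by
    intro t hh x
    constructor
    · apply prim_zero_of_high hsupp hc
      exact hcr.trans (hh.trans (le_abs_self _))
    · apply prim_zero_of_high hsupp hc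
      rw [abs_neg]
      exact hcr.trans (hh.trans (le_abs_self _))
  have highp : ∀ t, η ≤ Y t - y0 → pinf g r (Y t - y0) = 0 ∧ pinf g r (-(Y t - y0)) = 0 := by
    intro t hh
    constructor
    · apply pinf_zero_of_high hsupp hc
      exact hcr.trans (hh.trans (le_abs_self _))
    · apply pinf_zero_of_high hsupp hc
      rw [abs_neg]
      exact hcr.trans (hh.trans (le_abs_self _))
  have slope : ∀ t ∈ Icc α β, ∀ x x' : ℝ, k * |x'| ≤ Y t - y0 → x ≤ |x'| →
      prim g (x, Y t - y0) = 0 ∧ prim g (x, -(Y t - y0)) = 0 := by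
    intro t htt x x' h1 h2
    have h3 : c * x ≤ |Y t - y0| := by
      calc c * x ≤ c * |x'| := mul_le_mul_of_nonneg_left h2 hc.le
        _ ≤ k * |x'| := mul_le_mul_of_nonneg_right hck (abs_nonneg _)
        _ ≤ Y t - y0 := h1
        _ ≤ |Y t - y0| := le_abs_self _
    constructor
    · exact prim_zero_of_slope hsupp hc h3
    · exact prim_zero_of_slope hsupp hc (by rwa [abs_neg])
  have neg : ∀ x y : ℝ, x ≤ 0 → prim g (x, y) = 0 := by
    intro x y hx
    apply prim_zero_of_slope hsupp hc
    have := abs_nonneg y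
    nlinarith
  -- left half
  have L1 : ∀ s ∈ Ioc α m, prim g (X α - X s, Y α - Y s) = 0 := by
    intro s hs
    rw [hYα]
    rcases ht.left s (Ioc_subset_Icc_self hs) with h1 | h1
    · exact (high s h1 _).2
    · exact (slope s ⟨hs.1.le, hs.2.trans hm2.le⟩ _ _ h1.1 (by rw [abs_sub_comm]; exact le_abs_self _)).2
  have L2 : ∀ s ∈ Ioc α m, prim g (X s - X α, Y s - Y α) = 0 := by
    intro s hs
    rw [hYα']
    rcases ht.left s (Ioc_subset_Icc_self hs) with h1 | h1
    · exact (high s h1 _).1
    · exact (slope s ⟨hs.1.le, hs.2.trans hm2.le⟩ _ _ h1.1 (le_abs_self _)).1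
  have R1 : ∀ s ∈ Ioc m β, prim g (X β - X s, Y β - Y s) = 0 := by
    intro s hs
    rw [hYβ]
    rcases ht.right s (Ioc_subset_Icc_self hs) with h1 | h1
    · exact (high s h1 _).2
    · exact (slope s ⟨hm1.le.trans hs.1.le, hs.2⟩ _ _ h1.1 (by rw [abs_sub_comm]; exact le_abs_self _)).2
  have R2 : ∀ s ∈ Ioc m β, prim g (X s - X β, Y s - Y β) = 0 := by
    intro s hs
    rw [hYβ']
    rcases ht.right s (Ioc_subset_Icc_self hs) with h1 | h1
    · exact (high s h1 _).1
    · exact (slope s ⟨hm1.le.trans hs.1.le, hs.2⟩ _ _ h1.1 (le_abs_self _)).1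
  have hcont : ∀ ψ : ℝ → ℂ, Continuous ψ → ∀ a b : ℝ, IntegrableOn (fun s => (Y' s : ℂ) * ψ s) (Ioc a b) := by
    intro ψ hψ a b
    obtain ⟨M, hM⟩ := isCompact_Icc.exists_bound_of_continuousOn (s := Icc a b) hψ.continuousOn
    have mY := h.mY
    apply Integrable.of_bound (C := M)
    · have : Measurable (fun s => (Y' s : ℂ)) := by fun_prop
      exact (this.mul hψ.measurable).aestronglyMeasurable
    · refine (ae_restrict_mem measurableSet_Ioc).mono fun s hs => ?_
      rw [norm_mul, Complex.norm_real, Real.norm_eq_abs]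
      calc |Y' s| * ‖ψ s‖ ≤ 1 * M := by
            gcongr
            · exact h.bY s
            · exact hM s (Ioc_subset_Icc_self hs)
        _ = M := one_mul _
  have hpc : Continuous (prim g) :=
    continuous_iff_continuousAt.mpr fun p => (hasFDerivAt_prim hg p).continuousAt
  have cX := h.cX
  have cY := h.cY
  have hψ1 : Continuous (fun s => prim g (X β - X s, Y β - Y s) - prim g (X α - X s, Y α - Y s)) := by
    fun_prop
  have hψ2 : Continuous (fun t => prim g (X t - X β, Y t - Y β) - prim g (X t - X α, Y t - Y α)) := by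
    fun_prop
  have hsplit : ∀ ψ : ℝ → ℂ, Continuous ψ → ∫ s in Ioc α β, (Y' s : ℂ) * ψ s
      = (∫ s in Ioc α m, (Y' s : ℂ) * ψ s) + ∫ s in Ioc m β, (Y' s : ℂ) * ψ s := by
    intro ψ hψ
    rw [← Ioc_union_Ioc_eq_Ioc hm1.le hm2.le]
    exact setIntegral_union (Ioc_disjoint_Ioc_of_le le_rfl) measurableSet_Ioc (hcont ψ hψ _ _)
      (hcont ψ hψ _ _)
  rw [hsplit _ hψ1, hsplit _ hψ2]
  have hpn : Continuous (fun y => pinf g r (-y)) := hpinf.comp continuous_neg
  have F1 := hfin _ hpinf
  have F2 := hfin _ hpn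
  have F3 := hfin2 _ hpinf
  have F4 := hfin2 _ hpn
  rcases lt_or_ge (X α) (X β) with hlt | hge
  · -- case A
    have hsep : 2 * l ≤ X β - X α := by
      have := ht.sep
      rwa [abs_of_pos (by linarith)] at this
    have A1 : ∀ s ∈ Ioc α m, prim g (X β - X s, Y β - Y s) = pinf g r (-(Y s - y0)) := by
      intro s hs
      rw [hYβ]
      rcases ht.left s (Ioc_subset_Icc_self hs) with h1 | h1
      · rw [(high s h1 _).2, (highp s h1).2]
      · apply prim_far hsupp hgc
        have := (abs_le.mp h1.2).2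
        linarith
    have A2 : ∀ s ∈ Ioc α m, prim g (X s - X β, Y s - Y β) = 0 := by
      intro s hs
      rw [hYβ']
      rcases ht.left s (Ioc_subset_Icc_self hs) with h1 | h1
      · exact (high s h1 _).1
      · apply neg
        have := (abs_le.mp h1.2).2
        linarith
    have A3 : ∀ s ∈ Ioc m β, prim g (X s - X α, Y s - Y α) = pinf g r (Y s - y0) := by
      intro s hs
      rw [hYα']
      rcases ht.right s (Ioc_subset_Icc_self hs) with h1 | h1
      · rw [(high s h1 _).1, (highp s h1).1]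
      · apply prim_far hsupp hgc
        have := (abs_le.mp h1.2).1
        linarith
    have A4 : ∀ s ∈ Ioc m β, prim g (X α - X s, Y α - Y s) = 0 := by
      intro s hs
      rw [hYα]
      rcases ht.right s (Ioc_subset_Icc_self hs) with h1 | h1
      · exact (high s h1 _).2
      · apply neg
        have := (abs_le.mp h1.2).1
        linarith
    have I1 : ∫ s in Ioc α m, (Y' s : ℂ) * (prim g (X β - X s, Y β - Y s) - prim g (X α - X s, Y α - Y s))
        = ∫ s in Ioc α m, (Y' s : ℂ) * pinf g r (-(Y s - y0)) := by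
      apply setIntegral_congr_fun measurableSet_Ioc
      intro s hs
      simp only
      rw [A1 s hs, L1 s hs, sub_zero]
    have I2 : ∫ s in Ioc m β, (Y' s : ℂ) * (prim g (X β - X s, Y β - Y s) - prim g (X α - X s, Y α - Y s))
        = 0 := by
      apply setIntegral_eq_zero_of_forall_eq_zero
      intro s hs
      rw [R1 s hs, A4 s hs, sub_zero, mul_zero]
    have I3 : ∫ t in Ioc α m, (Y' t : ℂ) * (prim g (X t - X β, Y t - Y β) - prim g (X t - X α, Y t - Y α))
        = 0 := by
      apply setIntegral_eq_zero_of_forall_eq_zero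
      intro s hs
      rw [A2 s hs, L2 s hs, sub_zero, mul_zero]
    have I4 : ∫ t in Ioc m β, (Y' t : ℂ) * (prim g (X t - X β, Y t - Y β) - prim g (X t - X α, Y t - Y α))
        = - ∫ t in Ioc m β, (Y' t : ℂ) * pinf g r (Y t - y0) := by
      rw [← integral_neg]
      apply setIntegral_congr_fun measurableSet_Ioc
      intro s hs
      simp only
      rw [R2 s hs, A3 s hs]
      ring
    rw [I1, I2, I3, I4, F2, F3, htot]
    ring
  · have hne : X β < X α := by
      rcases hge.eq_or_lt with h1 | h1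
      · exfalso
        have := ht.sep
        rw [h1, sub_self, abs_zero] at this
        linarith
      · exact h1
    have hsep : 2 * l ≤ X α - X β := by
      have := ht.sep
      rwa [abs_of_neg (by linarith), neg_sub] at this
    have A1 : ∀ s ∈ Ioc α m, prim g (X β - X s, Y β - Y s) = 0 := by
      intro s hs
      rw [hYβ]
      rcases ht.left s (Ioc_subset_Icc_self hs) with h1 | h1
      · exact (high s h1 _).2
      · apply neg
        have := (abs_le.mp h1.2).1
        linarith
    have A2 : ∀ s ∈ Ioc α m, prim g (X s - X β, Y s - Y β) = pinf g r (Y s - y0) := by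
      intro s hs
      rw [hYβ']
      rcases ht.left s (Ioc_subset_Icc_self hs) with h1 | h1
      · rw [(high s h1 _).1, (highp s h1).1]
      · apply prim_far hsupp hgc
        have := (abs_le.mp h1.2).1
        linarith
    have A3 : ∀ s ∈ Ioc m β, prim g (X s - X α, Y s - Y α) = 0 := by
      intro s hs
      rw [hYα']
      rcases ht.right s (Ioc_subset_Icc_self hs) with h1 | h1
      · exact (high s h1 _).1
      · apply neg
        have := (abs_le.mp h1.2).2
        linarith
    have A4 : ∀ s ∈ Ioc m β, prim g (X α - X s, Y α - Y s) = pinf g r (-(Y s - y0)) := by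
      intro s hs
      rw [hYα]
      rcases ht.right s (Ioc_subset_Icc_self hs) with h1 | h1
      · rw [(high s h1 _).2, (highp s h1).2]
      · apply prim_far hsupp hgc
        have := (abs_le.mp h1.2).2
        linarith
    have I1 : ∫ s in Ioc α m, (Y' s : ℂ) * (prim g (X β - X s, Y β - Y s) - prim g (X α - X s, Y α - Y s))
        = 0 := by
      apply setIntegral_eq_zero_of_forall_eq_zero
      intro s hs
      rw [A1 s hs, L1 s hs, sub_zero, mul_zero]
    have I2 : ∫ s in Ioc m β, (Y' s : ℂ) * (prim g (X β - X s, Y β - Y s) - prim g (X α - X s, Y α - Y s))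
        = - ∫ s in Ioc m β, (Y' s : ℂ) * pinf g r (-(Y s - y0)) := by
      rw [← integral_neg]
      apply setIntegral_congr_fun measurableSet_Ioc
      intro s hs
      simp only
      rw [R1 s hs, A4 s hs]
      ring
    have I3 : ∫ t in Ioc α m, (Y' t : ℂ) * (prim g (X t - X β, Y t - Y β) - prim g (X t - X α, Y t - Y α))
        = ∫ t in Ioc α m, (Y' t : ℂ) * pinf g r (Y t - y0) := by
      apply setIntegral_congr_fun measurableSet_Ioc
      intro s hs
      simp only
      rw [A2 s hs, L2 s hs, sub_zero]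
    have I4 : ∫ t in Ioc m β, (Y' t : ℂ) * (prim g (X t - X β, Y t - Y β) - prim g (X t - X α, Y t - Y α))
        = 0 := by
      apply setIntegral_eq_zero_of_forall_eq_zero
      intro s hs
      rw [R2 s hs, A3 s hs, sub_zero, mul_zero]
    rw [I1, I2, I3, I4, F1, F4, htot]
    ring

end arc

end Pool.Agent.R227.Curve
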