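import Pool.Agent.R227.Curve2

set_option autoImplicit false

open MeasureTheory Set
open scoped Topology ContDiff

namespace Pool.Agent.R227.Curve

/-- critical values are null -/
lemma null_critical {Y Y' : ℝ → ℝ} {A : Set ℝ} (hd : ∀ t ∈ A, HasDerivAt Y (Y' t) t)
    (h0 : ∀ t ∈ A, Y' t = 0) : volume (Y '' A) = 0 := by
  apply addHaar_image_eq_zero_of_det_fderivWithin_eq_zero volume
    (f' := fun t => (ContinuousLinearMap.smulRight (1 : ℝ →L[ℝ] ℝ) (Y' t)))
  · intro t ht
    exact (hd t ht).hasFDerivAt.hasFDerivWithinAt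
  · intro t ht
    rw [h0 t ht]
    simp

/-- the geometric input -/
structure Plane (X Y X' Y' : ℝ → ℝ) (L : ℝ) (S : Set ℝ) : Prop where
  hL : 0 < L
  cX : Continuous X
  cY : Continuous Y
  mX : Measurable X'
  mY : Measurable Y'
  bX : ∀ t, |X' t| ≤ 1
  bY : ∀ t, |Y' t| ≤ 1
  lX : ∀ s t, |X s - X t| ≤ |s - t|
  hS : S.Countable
  dX : ∀ t ∈ Ioo 0 L \ S, HasDerivAt X (X' t) t
  dY : ∀ t ∈ Ioo 0 L \ S, HasDerivAt Y (Y' t) t
  perX : X 0 = X L
  perY : Y 0 = Y L
  inj : {t ∈ Ico 0 L | ∃ s ∈ Ico 0 L, s ≠ t ∧ X s = X t ∧ Y s = Y t}.Countable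

lemma one_sided_pos {Y : ℝ → ℝ} {d α y0 : ℝ} (hd : HasDerivAt Y d α) (h0 : Y α = y0) (hd0 : 0 < d) :
    ∃ δ > 0, ∀ t ∈ Icc α (α + δ), d / 2 * (t - α) ≤ Y t - y0 := by
  have h1 := hd.isLittleO
  rw [Asymptotics.isLittleO_iff] at h1
  have h2 := h1 (half_pos hd0)
  rw [Metric.eventually_nhds_iff] at h2
  obtain ⟨ε, hε, h3⟩ := h2
  refine ⟨ε / 2, by linarith, fun t ht => ?_⟩
  have h4 := h3 (y := t) (by rw [Real.dist_eq, abs_of_nonneg (by linarith [ht.1])]; linarith [ht.2])
  rw [Real.norm_eq_abs, Real.norm_eq_abs, abs_of_nonneg (a := t - α) (by linarith [ht.1])] at h4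
  have h5 := (abs_le.mp h4).1
  simp only [smul_eq_mul] at h5
  rw [← h0]
  linarith

lemma one_sided_neg {Y : ℝ → ℝ} {d β y0 : ℝ} (hd : HasDerivAt Y d β) (h0 : Y β = y0) (hd0 : d < 0) :
    ∃ δ > 0, ∀ t ∈ Icc (β - δ) β, (-d) / 2 * (β - t) ≤ Y t - y0 := by
  have h1 := hd.isLittleO
  rw [Asymptotics.isLittleO_iff] at h1
  have h2 := h1 (c := (-d) / 2) (by linarith)
  rw [Metric.eventually_nhds_iff] at h2
  obtain ⟨ε, hε, h3⟩ := h2
  refine ⟨ε / 2, by linarith, fun t ht => ?_⟩
  have h4 := h3 (y := t) (by rw [Real.dist_eq, abs_of_nonpos (by linarith [ht.2])]; linarith [ht.1])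
  rw [Real.norm_eq_abs, Real.norm_eq_abs, abs_of_nonpos (a := t - β) (by linarith [ht.2])] at h4
  have h5 := (abs_le.mp h4).1
  simp only [smul_eq_mul] at h5
  rw [← h0]
  linarith

theorem Plane.exists_arc {X Y X' Y' : ℝ → ℝ} {L : ℝ} {S : Set ℝ} (h : Plane X Y X' Y' L S)
    {tM : ℝ} (htM : tM ∈ Ioo 0 L) (hgt : Y 0 < Y tM) :
    ∃ α β y0 m η k l, 0 < α ∧ β < L ∧ Arc X Y X' Y' α β y0 S ∧ Trans X Y α β y0 m η k l := by
  classical
  set N := {t ∈ Ico 0 L | ∃ s ∈ Ico 0 L, s ≠ t ∧ X s = X t ∧ Y s = Y t} with hN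
  have cX := h.cX
  have cY := h.cY
  -- regular value
  obtain ⟨y0, hy0, hreg⟩ : ∃ y0 ∈ Ioo (Y 0) (Y tM), y0 ∉ Y '' (S ∪ N) ∧
      y0 ∉ Y '' {t | t ∈ Ioo 0 L \ S ∧ Y' t = 0} := by
    have hnull : volume (Y '' (S ∪ N) ∪ Y '' {t | t ∈ Ioo 0 L \ S ∧ Y' t = 0}) = 0 := by
      apply measure_union_null
      · exact ((h.hS.union h.inj).image Y).measure_zero volume
      · exact null_critical (fun t ht => h.dY t ht.1) (fun t ht => ht.2)
    by_contra hcon
    push Not at hcon
    have hsub : Ioo (Y 0) (Y tM) ⊆ (Y '' (S ∪ N) ∪ Y '' {t | t ∈ Ioo 0 L \ S ∧ Y' t = 0}) := by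
      intro y hy
      by_cases h1 : y ∈ Y '' (S ∪ N)
      · exact Or.inl h1
      · exact Or.inr (hcon y hy h1)
    have := measure_mono_null hsub hnull
    rw [Real.volume_Ioo, ENNReal.ofReal_eq_zero] at this
    linarith
  -- left endpoint
  set A : Set ℝ := {t ∈ Icc 0 tM | Y t ≤ y0} with hA
  have hAne : A.Nonempty := ⟨0, ⟨le_rfl, htM.1.le⟩, hy0.1.le⟩
  have hAb : BddAbove A := ⟨tM, fun t ht => ht.1.2⟩
  have hAc : IsClosed A := (isClosed_Icc.inter (isClosed_le cY continuous_const))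
  set α := sSup A with hα
  have hαA : α ∈ A := hAc.csSup_mem hAne hAb
  have hα1 : ∀ t, α < t → t ≤ tM → y0 < Y t := by
    intro t h1 h2
    by_contra h3
    push Not at h3
    have : t ∈ A := ⟨⟨hαA.1.1.trans h1.le, h2⟩, h3⟩
    exact absurd (le_csSup hAb this) (not_le.mpr h1)
  have hαtM : α < tM := by
    rcases hαA.1.2.eq_or_lt with h1 | h1
    · exfalso
      have := hαA.2
      rw [h1] at this
      linarith [hy0.2]
    · exact h1
  have hYα : Y α = y0 := by
    apply le_antisymm hαA.2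
    have h1 : Filter.Tendsto Y (𝓝[>] α) (𝓝 (Y α)) := cY.continuousWithinAt
    apply ge_of_tendsto h1
    filter_upwards [Ioc_mem_nhdsGT hαtM] with t ht
    exact (hα1 t ht.1 ht.2).le
  have hα0 : 0 < α := by
    rcases hαA.1.1.eq_or_lt with h1 | h1
    · exfalso
      rw [← h1] at hYα
      linarith [hy0.1]
    · exact h1
  -- right endpoint
  set B : Set ℝ := {t ∈ Icc tM L | Y t ≤ y0} with hB
  have hBne : B.Nonempty := ⟨L, ⟨htM.2.le, le_rfl⟩, by rw [← h.perY]; exact hy0.1.le⟩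
  have hBb : BddBelow B := ⟨tM, fun t ht => ht.1.1⟩
  have hBc : IsClosed B := (isClosed_Icc.inter (isClosed_le cY continuous_const))
  set β := sInf B with hβ
  have hβB : β ∈ B := hBc.csInf_mem hBne hBb
  have hβ1 : ∀ t, t < β → tM ≤ t → y0 < Y t := by
    intro t h1 h2
    by_contra h3
    push Not at h3
    have : t ∈ B := ⟨⟨h2, h1.le.trans hβB.1.2⟩, h3⟩
    exact absurd (csInf_le hBb this) (not_le.mpr h1)
  have htMβ : tM < β := by
    rcases hβB.1.1.eq_or_lt with h1 | h1
    · exfalso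
      have := hβB.2
      rw [← h1] at this
      linarith [hy0.2]
    · exact h1
  have hYβ : Y β = y0 := by
    apply le_antisymm hβB.2
    have h1 : Filter.Tendsto Y (𝓝[<] β) (𝓝 (Y β)) := cY.continuousWithinAt
    apply ge_of_tendsto h1
    filter_upwards [Ico_mem_nhdsLT htMβ] with t ht
    exact (hβ1 t ht.2 ht.1).le
  have hβL : β < L := by
    rcases hβB.1.2.eq_or_lt with h1 | h1
    · exfalso
      rw [h1, ← h.perY] at hYβ
      linarith [hy0.1]
    · exact h1
  have hpos : ∀ t ∈ Ioo α β, y0 < Y t := by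
    intro t ht
    rcases le_total t tM with h1 | h1
    · exact hα1 t ht.1 h1
    · exact hβ1 t ht.2 h1
  have hαS : α ∉ S ∪ N := fun h1 => hreg.1 ⟨α, h1, hYα⟩
  have hβS : β ∉ S ∪ N := fun h1 => hreg.1 ⟨β, h1, hYβ⟩
  have hαI : α ∈ Ioo 0 L \ S := ⟨⟨hα0, by linarith⟩, fun h1 => hαS (Or.inl h1)⟩
  have hβI : β ∈ Ioo 0 L \ S := ⟨⟨by linarith, hβL⟩, fun h1 => hβS (Or.inl h1)⟩
  have hdα := h.dY α hαI
  have hdβ := h.dY β hβI
  have hdα0 : Y' α ≠ 0 := fun h1 => hreg.2 ⟨α, ⟨hαI, h1⟩, hYα⟩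
  have hdβ0 : Y' β ≠ 0 := fun h1 => hreg.2 ⟨β, ⟨hβI, h1⟩, hYβ⟩
  have hdαpos : 0 < Y' α := by
    rcases lt_or_gt_of_ne hdα0 with h1 | h1
    · exfalso
      have hneg : HasDerivAt (fun t => -Y t) (-(Y' α)) α := hdα.neg
      obtain ⟨δ, hδ, h2⟩ := one_sided_pos hneg (y0 := -y0) (by rw [hYα]) (by linarith)
      set t := min (α + δ) tM with ht
      have ht1 : α < t := lt_min (by linarith) hαtM
      have h3 := h2 t ⟨ht1.le, min_le_left _ _⟩
      have h4 := hα1 t ht1 (min_le_right _ _)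
      have h5 : 0 < -(Y' α) / 2 * (t - α) := mul_pos (by linarith) (by linarith)
      linarith
    · exact h1
  have hdβneg : Y' β < 0 := by
    rcases lt_or_gt_of_ne hdβ0 with h1 | h1
    · exact h1
    · exfalso
      have hneg : HasDerivAt (fun t => -Y t) (-(Y' β)) β := hdβ.neg
      obtain ⟨δ, hδ, h2⟩ := one_sided_neg hneg (y0 := -y0) (by rw [hYβ]) (by linarith)
      set t := max (β - δ) tM with ht
      have ht1 : t < β := max_lt (by linarith) htMβ
      have h3 := h2 t ⟨le_max_left _ _, ht1.le⟩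
      have h4 := hβ1 t ht1 (le_max_right _ _)
      have h5 : 0 < -(-(Y' β)) / 2 * (β - t) := mul_pos (by linarith) (by linarith)
      linarith
  have hXne : X α ≠ X β := by
    intro h1
    apply hαS
    right
    refine ⟨⟨hα0.le, by linarith⟩, β, ⟨by linarith, hβL⟩, by linarith, h1.symm, ?_⟩
    rw [hYα, hYβ]
  obtain ⟨δ1, hδ1, hsl1⟩ := one_sided_pos hdα hYα hdαpos
  obtain ⟨δ2, hδ2, hsl2⟩ := one_sided_neg hdβ hYβ hdβneg
  have hl0 : 0 < |X β - X α| := abs_pos.mpr (sub_ne_zero.mpr (Ne.symm hXne))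
  set l := |X β - X α| / 2 with hl
  have hl1 : 0 < l := by positivity
  obtain ⟨η1, hη1, hmin1⟩ : ∃ η > 0, ∀ t ∈ Icc (α + min δ1 l) tM, η ≤ Y t - y0 := by
    rcases lt_or_ge tM (α + min δ1 l) with hc | hc
    · exact ⟨1, one_pos, fun t ht => by linarith [ht.1, ht.2]⟩
    · obtain ⟨t0, ht0, hmin⟩ := isCompact_Icc.exists_isMinOn (nonempty_Icc.mpr hc)
        (f := fun t => Y t - y0) (by fun_prop : Continuous fun t => Y t - y0).continuousOn
      refine ⟨Y t0 - y0, ?_, fun t ht => hmin ht⟩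
      have : 0 < min δ1 l := lt_min hδ1 hl1
      have := hα1 t0 (by linarith [ht0.1]) ht0.2
      linarith
  obtain ⟨η2, hη2, hmin2⟩ : ∃ η > 0, ∀ t ∈ Icc tM (β - min δ2 l), η ≤ Y t - y0 := by
    rcases lt_or_ge (β - min δ2 l) tM with hc | hc
    · exact ⟨1, one_pos, fun t ht => by linarith [ht.1, ht.2]⟩
    · obtain ⟨t0, ht0, hmin⟩ := isCompact_Icc.exists_isMinOn (nonempty_Icc.mpr hc)
        (f := fun t => Y t - y0) (by fun_prop : Continuous fun t => Y t - y0).continuousOn
      refine ⟨Y t0 - y0, ?_, fun t ht => hmin ht⟩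
      have : 0 < min δ2 l := lt_min hδ2 hl1
      have := hβ1 t0 (by linarith [ht0.2]) ht0.1
      linarith
  refine ⟨α, β, y0, tM, min (min η1 η2) (Y tM - y0), min (Y' α / 2) (-(Y' β) / 2), l, hα0, hβL,
    ?_, ?_⟩
  · exact
      { hab := hαtM.trans htMβ
        cX := cX
        cY := cY
        mX := h.mX
        mY := h.mY
        bX := h.bX
        bY := h.bY
        hS := h.hS
        dX := fun t ht => h.dX t ⟨⟨hα0.trans ht.1.1, ht.1.2.trans hβL⟩, ht.2⟩
        dY := fun t ht => h.dY t ⟨⟨hα0.trans ht.1.1, ht.1.2.trans hβL⟩, ht.2⟩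
        eα := hYα
        eβ := hYβ }
  · exact
      { hm1 := hαtM
        hm2 := htMβ
        hη := lt_min (lt_min hη1 hη2) (by linarith [hy0.2])
        hk := lt_min (by linarith) (by linarith)
        hl := hl1
        hYm := min_le_right _ _
        left := by
          intro t ht
          rcases le_total t (α + min δ1 l) with h1 | h1
          · right
            have hX := h.lX t α
            rw [abs_of_nonneg (a := t - α) (by linarith [ht.1])] at hX
            constructor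
            · have h2 := hsl1 t ⟨ht.1, h1.trans (by linarith [min_le_left δ1 l])⟩
              calc min (Y' α / 2) (-(Y' β) / 2) * |X t - X α| ≤ (Y' α / 2) * (t - α) := by
                    apply mul_le_mul (min_le_left _ _) hX (abs_nonneg _) (by linarith)
                _ ≤ Y t - y0 := h2
            · linarith [min_le_right δ1 l]
          · left
            have := hmin1 t ⟨h1, ht.2⟩
            exact ((min_le_left _ _).trans (min_le_left _ _)).trans this
        right := by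
          intro t ht
          rcases le_total (β - min δ2 l) t with h1 | h1
          · right
            have hX := h.lX t β
            rw [abs_of_nonpos (a := t - β) (by linarith [ht.2])] at hX
            constructor
            · have h2 := hsl2 t ⟨by linarith [min_le_left δ2 l], ht.2⟩
              calc min (Y' α / 2) (-(Y' β) / 2) * |X t - X β| ≤ (-(Y' β) / 2) * (-(t - β)) := by
                    apply mul_le_mul (min_le_right _ _) hX (abs_nonneg _) (by linarith)
                _ ≤ Y t - y0 := by linarith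
            · linarith [min_le_right δ2 l]
          · left
            have := hmin2 t ⟨ht.1, h1⟩
            exact ((min_le_left _ _).trans (min_le_right _ _)).trans this
        sep := by rw [hl]; linarith }

end Pool.Agent.R227.Curve
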