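import Pool.Agent.R227.Curve3

set_option autoImplicit false

open MeasureTheory Set Real FourierTransform SchwartzMap
open scoped Topology ContDiff ComplexConjugate

namespace Pool.Agent.R227.Curve

/-- the character `x ↦ e^{-2 π i x}` -/
noncomputable def ch (x : ℝ) : ℂ := Complex.exp (-(2 * π * x * Complex.I))

lemma ch_add (x y : ℝ) : ch (x + y) = ch x * ch y := by
  unfold ch
  rw [← Complex.exp_add]
  congr 1
  push_cast
  ring

lemma ch_zero : ch 0 = 1 := by simp [ch]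

lemma norm_ch (x : ℝ) : ‖ch x‖ = 1 := by
  unfold ch
  have : (-(2 * π * x * Complex.I) : ℂ) = ((-(2 * π * x) : ℝ) : ℂ) * Complex.I := by
    push_cast; ring
  rw [this, Complex.norm_exp_ofReal_mul_I]

lemma conj_ch (x : ℝ) : conj (ch x) = ch (-x) := by
  unfold ch
  rw [← Complex.exp_conj]
  congr 1
  simp only [map_neg, map_mul, Complex.conj_I, Complex.conj_ofReal, Complex.conj_ofNat]
  push_cast
  ring

lemma continuous_ch : Continuous ch := by unfold ch; fun_prop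

lemma contDiff_ch : ContDiff ℝ ∞ ch := by
  unfold ch
  have : ContDiff ℝ ∞ (fun x : ℝ => (x : ℂ)) := Complex.ofRealCLM.contDiff
  exact Complex.contDiff_exp.comp ((contDiff_const.mul this).mul contDiff_const).neg

/-- real inner product on `ℂ` -/
noncomputable def ip (w z : ℂ) : ℝ := inner ℝ w z

lemma ip_eq (w z : ℂ) : ip w z = w.re * z.re + w.im * z.im := by
  unfold ip
  rw [Complex.inner]
  simp [Complex.mul_re]
  ring

lemma fourier_eq_ch (g : ℂ → ℂ) (w : ℂ) : 𝓕 g w = ∫ z, ch (ip w z) * g z := by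
  rw [Real.fourier_eq']
  congr 1
  ext z
  rw [smul_eq_mul]
  congr 1
  unfold ch
  congr 1
  have : ip w z = inner ℝ z w := by unfold ip; rw [real_inner_comm]
  rw [this]
  push_cast
  ring

lemma fourierInv_eq_ch (g : ℂ → ℂ) (z : ℂ) : 𝓕⁻ g z = ∫ w, ch (-(ip w z)) * g w := by
  rw [Real.fourierInv_eq']
  congr 1
  ext w
  rw [smul_eq_mul]
  congr 1
  unfold ch
  congr 1
  have : ip w z = inner ℝ w z := by unfold ip; rfl
  rw [this]
  push_cast
  ring

/-- curve data -/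
structure CCurve (γ γ' : ℝ → ℂ) (L : ℝ) (S : Set ℝ) : Prop where
  hL : 0 < L
  cont : Continuous γ
  meas : Measurable γ'
  bd : ∀ t, ‖γ' t‖ ≤ 1
  lip : ∀ s t, ‖γ s - γ t‖ ≤ |s - t|
  hS : S.Countable
  der : ∀ t ∈ Ioo 0 L \ S, HasDerivAt γ (γ' t) t
  per : γ 0 = γ L
  inj : {t ∈ Ico 0 L | ∃ s ∈ Ico 0 L, s ≠ t ∧ γ s = γ t}.Countable

/-- tight frame hypothesis in parametric form -/
def Tight {ι : Type*} (lam : ι → ℂ) (γ : ℝ → ℂ) (L A : ℝ) : Prop :=
  ∀ a : ℝ → ℂ, Measurable a → (∃ M, ∀ t, ‖a t‖ ≤ M) →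
    HasSum (fun i => ‖∫ t in Ioc 0 L, ch (ip (lam i) (γ t)) * a t‖ ^ 2)
      (A * ∫ t in Ioc 0 L, ‖a t‖ ^ 2)

/-- `∫ c(t) e^{-2πi⟨η, γ t⟩}` over an arc -/
noncomputable def Ah (γ c : ℝ → ℂ) (α β : ℝ) (η : ℂ) : ℂ :=
  ∫ t in Ioc α β, ch (ip η (γ t)) * c t

/-- area-type kernel -/
noncomputable def TT (γ' : ℝ → ℂ) (p : ℝ × ℝ) : ℝ :=
  (γ' p.1).re * (γ' p.2).im - (γ' p.1).im * (γ' p.2).re

noncomputable def WW (γ γ' : ℝ → ℂ) (α β : ℝ) (η : ℂ) : ℂ :=
  ∫ p : ℝ × ℝ, (TT γ' p : ℂ) * ch (ip η (γ p.1 - γ p.2))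
    ∂((volume.restrict (Ioc α β)).prod (volume.restrict (Ioc α β)))

lemma ip_sub_right (w z z' : ℂ) : ip w (z - z') = ip w z - ip w z' := by
  simp only [ip_eq, Complex.sub_re, Complex.sub_im]; ring

lemma ip_sub_left (w w' z : ℂ) : ip (w - w') z = ip w z - ip w' z := by
  simp only [ip_eq, Complex.sub_re, Complex.sub_im]; ring

lemma continuous_ip : Continuous (fun p : ℂ × ℂ => ip p.1 p.2) := by
  simp only [ip_eq]; fun_prop

section curve

variable {γ γ' : ℝ → ℂ} {L : ℝ} {S : Set ℝ}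

lemma normsq_Ah (c : ℝ → ℂ) (α β : ℝ) (η : ℂ) :
    ((‖Ah γ c α β η‖ ^ 2 : ℝ) : ℂ)
      = ∫ p : ℝ × ℝ, (c p.1 * conj (c p.2)) * ch (ip η (γ p.1 - γ p.2))
        ∂((volume.restrict (Ioc α β)).prod (volume.restrict (Ioc α β))) := by
  have h1 : ((‖Ah γ c α β η‖ ^ 2 : ℝ) : ℂ) = Ah γ c α β η * conj (Ah γ c α β η) := by
    rw [Complex.mul_conj, Complex.normSq_eq_norm_sq]
  rw [h1]
  unfold Ah
  rw [← integral_conj, ← integral_prod_mul]
  congr 1
  ext p
  rw [map_mul, conj_ch, ip_sub_right, sub_eq_add_neg, ch_add]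
  ring

lemma WW_eq (hγ : Continuous γ) (hc : Measurable γ') (hb : ∀ t, ‖γ' t‖ ≤ 1) (α β : ℝ) (η : ℂ) :
    2 * Complex.I * WW γ γ' α β η
      = ((‖Ah γ (fun t => conj (γ' t)) α β η‖ ^ 2 - ‖Ah γ γ' α β η‖ ^ 2 : ℝ) : ℂ) := by
  push_cast
  rw [← Complex.ofReal_pow, ← Complex.ofReal_pow, normsq_Ah, normsq_Ah, WW, ← integral_const_mul,
    ← integral_sub]
  · congr 1
    ext p
    have e : (2 * Complex.I * (TT γ' p : ℂ)) = conj (γ' p.1) * conj (conj (γ' p.2)) - γ' p.1 * conj (γ' p.2) := by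
      apply Complex.ext
      · simp [TT]
      · simp [TT]; ring
    rw [← sub_mul, ← e]
    ring
  · apply Integrable.of_bound (C := 1)
    · have h1 : Measurable (fun p : ℝ × ℝ => ch (ip η (γ p.1 - γ p.2))) := by
        have : Continuous (fun p : ℝ × ℝ => ch (ip η (γ p.1 - γ p.2))) :=
          continuous_ch.comp (continuous_ip.comp
            (by fun_prop : Continuous fun p : ℝ × ℝ => ((η, γ p.1 - γ p.2) : ℂ × ℂ)))
        exact this.measurable
      have h2 : Measurable (fun p : ℝ × ℝ => conj (γ' p.1) * conj (conj (γ' p.2))) := by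
        have : Measurable (fun z : ℂ => conj z) := Complex.continuous_conj.measurable
        fun_prop
      exact (h2.mul h1).aestronglyMeasurable
    · refine Filter.Eventually.of_forall fun p => ?_
      rw [norm_mul, norm_mul, norm_ch, mul_one, RCLike.norm_conj, RCLike.norm_conj, RCLike.norm_conj]
      exact mul_le_one₀ (hb _) (norm_nonneg _) (hb _)
  · apply Integrable.of_bound (C := 1)
    · have h1 : Measurable (fun p : ℝ × ℝ => ch (ip η (γ p.1 - γ p.2))) := by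
        have : Continuous (fun p : ℝ × ℝ => ch (ip η (γ p.1 - γ p.2))) :=
          continuous_ch.comp (continuous_ip.comp
            (by fun_prop : Continuous fun p : ℝ × ℝ => ((η, γ p.1 - γ p.2) : ℂ × ℂ)))
        exact this.measurable
      have h2 : Measurable (fun p : ℝ × ℝ => (γ' p.1) * conj ((γ' p.2))) := by
        have : Measurable (fun z : ℂ => conj z) := Complex.continuous_conj.measurable
        fun_prop
      exact (h2.mul h1).aestronglyMeasurable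
    · refine Filter.Eventually.of_forall fun p => ?_
      rw [norm_mul, norm_mul, norm_ch, mul_one, RCLike.norm_conj]
      exact mul_le_one₀ (hb _) (norm_nonneg _) (hb _)

lemma tight_arc {ι : Type*} {lam : ι → ℂ} {A : ℝ} (hT : Tight lam γ L A) (hγ : Continuous γ)
    {c : ℝ → ℂ} (hc : Measurable c) (hb : ∀ t, ‖c t‖ ≤ 1) {α β : ℝ} (hα : 0 ≤ α) (hβ : β ≤ L)
    (ξ : ℂ) :
    HasSum (fun i => ‖Ah γ c α β (lam i - ξ)‖ ^ 2) (A * ∫ t in Ioc α β, ‖c t‖ ^ 2) := by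
  have hsub : Ioc α β ⊆ Ioc 0 L := Ioc_subset_Ioc hα hβ
  have hcc : Continuous (fun t => ch (-(ip ξ (γ t)))) :=
    continuous_ch.comp (continuous_ip.comp (by fun_prop : Continuous fun t => ((ξ, γ t) : ℂ × ℂ))).neg
  have h := hT ((Ioc α β).indicator (fun t => c t * ch (-(ip ξ (γ t)))))
    ((hc.mul hcc.measurable).indicator measurableSet_Ioc) ⟨1, fun t => by
      refine (norm_indicator_le_norm_self _ _).trans ?_
      rw [norm_mul, norm_ch, mul_one]
      exact hb t⟩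
  have e1 : ∀ i, ∫ t in Ioc 0 L, ch (ip (lam i) (γ t)) * (Ioc α β).indicator (fun t => c t * ch (-(ip ξ (γ t)))) t
      = Ah γ c α β (lam i - ξ) := by
    intro i
    have : ∀ t, ch (ip (lam i) (γ t)) * (Ioc α β).indicator (fun t => c t * ch (-(ip ξ (γ t)))) t
        = (Ioc α β).indicator (fun t => ch (ip (lam i - ξ) (γ t)) * c t) t := by
      intro t
      by_cases ht : t ∈ Ioc α β
      · rw [indicator_of_mem ht, indicator_of_mem ht, ip_sub_left, sub_eq_add_neg, ch_add]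
        ring
      · rw [indicator_of_notMem ht, indicator_of_notMem ht, mul_zero]
    simp_rw [this]
    rw [setIntegral_indicator measurableSet_Ioc, inter_eq_self_of_subset_right hsub]
    rfl
  have e2 : ∫ t in Ioc 0 L, ‖(Ioc α β).indicator (fun t => c t * ch (-(ip ξ (γ t)))) t‖ ^ 2
      = ∫ t in Ioc α β, ‖c t‖ ^ 2 := by
    have : ∀ t, ‖(Ioc α β).indicator (fun t => c t * ch (-(ip ξ (γ t)))) t‖ ^ 2
        = (Ioc α β).indicator (fun t => ‖c t‖ ^ 2) t := by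
      intro t
      by_cases ht : t ∈ Ioc α β
      · rw [indicator_of_mem ht, indicator_of_mem ht, norm_mul, norm_ch, mul_one]
      · rw [indicator_of_notMem ht, indicator_of_notMem ht, norm_zero]; simp
    simp_rw [this]
    rw [setIntegral_indicator measurableSet_Ioc, inter_eq_self_of_subset_right hsub]
  simp_rw [e1, e2] at h
  exact h

/-- sums of `W` vanish and are absolutely bounded. -/
lemma hasSum_WW {ι : Type*} {lam : ι → ℂ} {A : ℝ} (hT : Tight lam γ L A) (hγ : Continuous γ)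
    (hc : Measurable γ') (hb : ∀ t, ‖γ' t‖ ≤ 1) {α β : ℝ} (hα : 0 ≤ α) (hβ : β ≤ L) (ξ : ℂ) :
    HasSum (fun i => WW γ γ' α β (lam i - ξ)) 0 ∧
    Summable (fun i => ‖WW γ γ' α β (lam i - ξ)‖) ∧
    ∑' i, ‖WW γ γ' α β (lam i - ξ)‖ ≤ A * ∫ t in Ioc α β, ‖γ' t‖ ^ 2 := by
  have hcc : Measurable (fun t => conj (γ' t)) := Complex.continuous_conj.measurable.comp hc
  have hbb : ∀ t, ‖conj (γ' t)‖ ≤ 1 := fun t => by rw [RCLike.norm_conj]; exact hb t
  have h1 := tight_arc hT hγ hc hb hα hβ ξ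
  have h2 := tight_arc hT hγ hcc hbb hα hβ ξ
  simp only [RCLike.norm_conj] at h2
  have hI : (2 * Complex.I : ℂ) ≠ 0 := by simp
  have hW : ∀ i, WW γ γ' α β (lam i - ξ) = (2 * Complex.I)⁻¹ *
      ((‖Ah γ (fun t => conj (γ' t)) α β (lam i - ξ)‖ ^ 2 - ‖Ah γ γ' α β (lam i - ξ)‖ ^ 2 : ℝ) : ℂ) := by
    intro i
    rw [← WW_eq hγ hc hb, ← mul_assoc, inv_mul_cancel₀ hI, one_mul]
  have hn : ∀ i, ‖WW γ γ' α β (lam i - ξ)‖
      ≤ (‖Ah γ (fun t => conj (γ' t)) α β (lam i - ξ)‖ ^ 2 + ‖Ah γ γ' α β (lam i - ξ)‖ ^ 2) / 2 := by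
    intro i
    rw [hW i, norm_mul, Complex.norm_real, norm_inv, norm_mul, Complex.norm_I, Real.norm_eq_abs]
    simp only [Complex.norm_ofNat, mul_one]
    have : |‖Ah γ (fun t => conj (γ' t)) α β (lam i - ξ)‖ ^ 2 - ‖Ah γ γ' α β (lam i - ξ)‖ ^ 2|
        ≤ ‖Ah γ (fun t => conj (γ' t)) α β (lam i - ξ)‖ ^ 2 + ‖Ah γ γ' α β (lam i - ξ)‖ ^ 2 := by
      rw [abs_le]
      constructor <;> nlinarith [sq_nonneg ‖Ah γ (fun t => conj (γ' t)) α β (lam i - ξ)‖,
        sq_nonneg ‖Ah γ γ' α β (lam i - ξ)‖]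
    linarith
  have hs : HasSum (fun i => (‖Ah γ (fun t => conj (γ' t)) α β (lam i - ξ)‖ ^ 2
      + ‖Ah γ γ' α β (lam i - ξ)‖ ^ 2) / 2) (A * ∫ t in Ioc α β, ‖γ' t‖ ^ 2) := by
    have := (h2.add h1).div_const 2
    have e : (A * ∫ t in Ioc α β, ‖γ' t‖ ^ 2) = (A * (∫ t in Ioc α β, ‖γ' t‖ ^ 2)
      + A * ∫ t in Ioc α β, ‖γ' t‖ ^ 2) / 2 := by ring
    rw [e]
    exact this
  have hsum : Summable (fun i => ‖WW γ γ' α β (lam i - ξ)‖) :=
    Summable.of_nonneg_of_le (fun i => norm_nonneg _) hn hs.summable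
  refine ⟨?_, hsum, ?_⟩
  · have h3 := (h2.sub h1)
    rw [sub_self] at h3
    have h4 := (Complex.hasSum_ofReal.mpr h3).mul_left (2 * Complex.I)⁻¹
    simp only [Complex.ofReal_zero, mul_zero] at h4
    have e : (fun i => WW γ γ' α β (lam i - ξ)) = fun i => (2 * Complex.I)⁻¹ *
      ((‖Ah γ (fun t => conj (γ' t)) α β (lam i - ξ)‖ ^ 2 - ‖Ah γ γ' α β (lam i - ξ)‖ ^ 2 : ℝ) : ℂ) := by
      funext i
      exact hW i
    rw [e]
    exact h4
  · exact (hsum.tsum_le_tsum hn hs.summable).trans hs.tsum_eq.le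

end curve

end Pool.Agent.R227.Curve
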