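import Pool.Agent.R227.Curve4

set_option autoImplicit false

open MeasureTheory Set Real FourierTransform SchwartzMap
open scoped Topology ContDiff ComplexConjugate

namespace Pool.Agent.R227.Curve

variable {γ γ' : ℝ → ℂ} {L : ℝ} {S : Set ℝ}

lemma abs_TT_le (hb : ∀ t, ‖γ' t‖ ≤ 1) (p : ℝ × ℝ) : |TT γ' p| ≤ 1 := by
  have e : TT γ' p = (conj (γ' p.1) * γ' p.2).im := by
    simp [TT, Complex.mul_im]; ring
  rw [e]
  calc |(conj (γ' p.1) * γ' p.2).im| ≤ ‖conj (γ' p.1) * γ' p.2‖ := Complex.abs_im_le_norm _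
    _ = ‖γ' p.1‖ * ‖γ' p.2‖ := by rw [norm_mul, RCLike.norm_conj]
    _ ≤ 1 := mul_le_one₀ (hb _) (norm_nonneg _) (hb _)

lemma measurable_TT (hc : Measurable γ') : Measurable (TT γ') := by
  unfold TT
  have h1 : Measurable (fun z : ℂ => z.re) := Complex.measurable_re
  have h2 : Measurable (fun z : ℂ => z.im) := Complex.measurable_im
  fun_prop

/-- product measure on the arc square -/
noncomputable def nn (α β : ℝ) : Measure (ℝ × ℝ) :=
  (volume.restrict (Ioc α β)).prod (volume.restrict (Ioc α β))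

instance (α β : ℝ) : IsFiniteMeasure (nn α β) := by unfold nn; infer_instance

lemma continuous_chz (hγ : Continuous γ) (η : ℂ) :
    Continuous (fun p : ℝ × ℝ => ch (ip η (γ p.1 - γ p.2))) :=
  continuous_ch.comp (continuous_ip.comp
            (by fun_prop : Continuous fun p : ℝ × ℝ => ((η, γ p.1 - γ p.2) : ℂ × ℂ)))

lemma continuous_WW (hγ : Continuous γ) (hc : Measurable γ') (hb : ∀ t, ‖γ' t‖ ≤ 1) (α β : ℝ) :
    Continuous (WW γ γ' α β) := by
  change Continuous (fun η => ∫ p : ℝ × ℝ, (TT γ' p : ℂ) * ch (ip η (γ p.1 - γ p.2)) ∂(nn α β))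
  apply continuous_of_dominated (bound := fun _ => 1)
  · intro η
    exact (((Complex.measurable_ofReal.comp (measurable_TT hc))).mul
      (continuous_chz hγ η).measurable).aestronglyMeasurable
  · intro η
    refine Filter.Eventually.of_forall fun p => ?_
    rw [norm_mul, norm_ch, mul_one, Complex.norm_real, Real.norm_eq_abs]
    exact abs_TT_le hb p
  · exact integrable_const _
  · refine Filter.Eventually.of_forall fun p => ?_
    exact continuous_const.mul (continuous_ch.comp (continuous_ip.comp (by fun_prop :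
      Continuous fun η : ℂ => ((η, γ p.1 - γ p.2) : ℂ × ℂ))))

/-- the double integral of `g` times a character -/
noncomputable def JJ (γ γ' : ℝ → ℂ) (α β : ℝ) (g : 𝓢(ℂ, ℂ)) (l : ℂ) : ℂ :=
  ∫ p : ℝ × ℝ, (TT γ' p : ℂ) * (ch (ip l (γ p.1 - γ p.2)) * g (γ p.1 - γ p.2)) ∂(nn α β)

lemma JJ_eq (hγ : Continuous γ) (hc : Measurable γ') (hb : ∀ t, ‖γ' t‖ ≤ 1) (α β : ℝ)
    (g : 𝓢(ℂ, ℂ)) (l : ℂ) :
    JJ γ γ' α β g l = ∫ ξ, 𝓕 g ξ * WW γ γ' α β (l - ξ) := by
  have hinv : ∀ z, g z = ∫ ξ, ch (-(ip ξ z)) * 𝓕 g ξ := by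
    intro z
    have h1 := fourierInv_eq_ch (𝓕 g : 𝓢(ℂ, ℂ)) z
    rw [← h1, ← SchwartzMap.fourierInv_coe]
    have h2 : 𝓕⁻ (𝓕 g) = g := FourierTransform.fourierInv_fourier_eq (F := 𝓢(ℂ, ℂ)) g
    rw [h2]
  unfold JJ
  have e1 : ∀ p : ℝ × ℝ, (TT γ' p : ℂ) * (ch (ip l (γ p.1 - γ p.2)) * g (γ p.1 - γ p.2))
      = ∫ ξ, 𝓕 g ξ * ((TT γ' p : ℂ) * ch (ip (l - ξ) (γ p.1 - γ p.2))) := by
    intro p
    rw [hinv (γ p.1 - γ p.2), ← integral_const_mul, ← integral_const_mul]
    congr 1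
    ext ξ
    rw [ip_sub_left l ξ, sub_eq_add_neg (ip l _), ch_add]
    ring
  simp_rw [e1]
  rw [integral_integral_swap]
  · congr 1
    ext ξ
    rw [integral_const_mul]
    rfl
  · have hmaj : Integrable (fun q : (ℝ × ℝ) × ℂ => (1 : ℝ) * ‖𝓕 g q.2‖) ((nn α β).prod volume) :=
      (integrable_const (1:ℝ)).mul_prod (𝓕 g).integrable.norm
    refine hmaj.mono' ?_ ?_
    · have h1 : Measurable (fun q : (ℝ × ℝ) × ℂ => (TT γ' q.1 : ℂ)) :=
        Complex.measurable_ofReal.comp ((measurable_TT hc).comp measurable_fst)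
      have h2 : Continuous (fun q : (ℝ × ℝ) × ℂ => ch (ip (l - q.2) (γ q.1.1 - γ q.1.2))) :=
        continuous_ch.comp (continuous_ip.comp (by fun_prop :
          Continuous fun q : (ℝ × ℝ) × ℂ => ((l - q.2, γ q.1.1 - γ q.1.2) : ℂ × ℂ)))
      have h3 : Continuous (fun q : (ℝ × ℝ) × ℂ => 𝓕 g q.2) := (𝓕 g).continuous.comp continuous_snd
      exact (h3.measurable.mul (h1.mul h2.measurable)).aestronglyMeasurable
    · refine Filter.Eventually.of_forall fun q => ?_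
      simp only [Function.uncurry]
      rw [norm_mul, norm_mul, norm_ch, mul_one, Complex.norm_real, Real.norm_eq_abs, mul_comm]
      exact mul_le_mul_of_nonneg_right (abs_TT_le hb _) (norm_nonneg _)

lemma hasSum_JJ {ι : Type*} [Countable ι] {lam : ι → ℂ} {A : ℝ} (hT : Tight lam γ L A)
    (hγ : Continuous γ) (hc : Measurable γ') (hb : ∀ t, ‖γ' t‖ ≤ 1) {α β : ℝ} (hα : 0 ≤ α)
    (hβ : β ≤ L) (g : 𝓢(ℂ, ℂ)) :
    HasSum (fun i => JJ γ γ' α β g (lam i)) 0 := by
  simp_rw [JJ_eq hγ hc hb]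
  set C := A * ∫ t in Ioc α β, ‖γ' t‖ ^ 2 with hC
  have hWc := continuous_WW hγ hc hb α β
  have hWb : ∀ (i : ι) (ξ : ℂ), ‖WW γ γ' α β (lam i - ξ)‖ ≤ C := by
    intro i ξ
    obtain ⟨h1, h2, h3⟩ := hasSum_WW hT hγ hc hb hα hβ ξ
    exact (h2.le_tsum i (fun j _ => norm_nonneg _)).trans h3
  have hFint : ∀ i : ι, Integrable (fun ξ => 𝓕 g ξ * WW γ γ' α β (lam i - ξ)) := by
    intro i
    refine ((𝓕 g).integrable.norm.mul_const C).mono' ?_ ?_
    · exact ((𝓕 g).continuous.mul (hWc.comp (by fun_prop))).aestronglyMeasurable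
    · refine Filter.Eventually.of_forall fun ξ => ?_
      rw [norm_mul]
      exact mul_le_mul_of_nonneg_left (hWb i ξ) (norm_nonneg _)
  have hsum : Summable (fun i : ι => ∫ ξ, ‖𝓕 g ξ * WW γ γ' α β (lam i - ξ)‖) := by
    apply summable_of_sum_le (c := ∫ ξ, ‖𝓕 g ξ‖ * C)
    · intro i
      exact integral_nonneg fun ξ => norm_nonneg _
    · intro u
      rw [← integral_finsetSum u (fun i _ => (hFint i).norm)]
      apply integral_mono
      · exact integrable_finsetSum u (fun i _ => (hFint i).norm)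
      · exact (𝓕 g).integrable.norm.mul_const C
      · intro ξ
        simp only [norm_mul]
        rw [← Finset.mul_sum]
        apply mul_le_mul_of_nonneg_left _ (norm_nonneg _)
        obtain ⟨h1, h2, h3⟩ := hasSum_WW hT hγ hc hb hα hβ ξ
        exact (h2.sum_le_tsum u (fun j _ => norm_nonneg _)).trans h3
  have h := hasSum_integral_of_summable_integral_norm hFint hsum
  have e0 : ∀ ξ, ∑' i, 𝓕 g ξ * WW γ γ' α β (lam i - ξ) = 0 := by
    intro ξ
    obtain ⟨h1, h2, h3⟩ := hasSum_WW hT hγ hc hb hα hβ ξ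
    have := (h1.mul_left (𝓕 g ξ)).tsum_eq
    rw [this, mul_zero]
  simp_rw [e0] at h
  simpa using h

end Pool.Agent.R227.Curve
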