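import Pool.Agent.R227.Curve5

set_option autoImplicit false

open MeasureTheory Set Real FourierTransform SchwartzMap
open scoped Topology ContDiff ComplexConjugate

namespace Pool.Agent.R227.Curve

variable {γ γ' : ℝ → ℂ} {L : ℝ} {S : Set ℝ}

lemma CCurve.plane (h : CCurve γ γ' L S) (W : ℂ ≃ₗᵢ[ℝ] ℂ) :
    Plane (fun t => (W (γ t)).re) (fun t => (W (γ t)).im) (fun t => (W (γ' t)).re)
      (fun t => (W (γ' t)).im) L S := by
  have hW : Continuous W := W.continuous
  have hder : ∀ t ∈ Ioo 0 L \ S, HasDerivAt (fun t => W (γ t)) (W (γ' t)) t := by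
    intro t ht
    exact (W.toContinuousLinearEquiv : ℂ →L[ℝ] ℂ).hasFDerivAt.comp_hasDerivAt t (h.der t ht)
  exact
  { hL := h.hL
    cX := Complex.continuous_re.comp (hW.comp h.cont)
    cY := Complex.continuous_im.comp (hW.comp h.cont)
    mX := Complex.measurable_re.comp (hW.measurable.comp h.meas)
    mY := Complex.measurable_im.comp (hW.measurable.comp h.meas)
    bX := fun t => (Complex.abs_re_le_norm _).trans (by rw [W.norm_map]; exact h.bd t)
    bY := fun t => (Complex.abs_im_le_norm _).trans (by rw [W.norm_map]; exact h.bd t)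
    lX := by
      intro s t
      rw [← Complex.sub_re, ← map_sub]
      exact (Complex.abs_re_le_norm _).trans (by rw [W.norm_map]; exact h.lip s t)
    hS := h.hS
    dX := fun t ht => Complex.reCLM.hasFDerivAt.comp_hasDerivAt t (hder t ht)
    dY := fun t ht => Complex.imCLM.hasFDerivAt.comp_hasDerivAt t (hder t ht)
    perX := by simp only [h.per]
    perY := by simp only [h.per]
    inj := by
      refine h.inj.mono ?_
      rintro t ⟨ht, s, hs, hst, h1, h2⟩
      refine ⟨ht, s, hs, hst, ?_⟩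
      exact W.injective (Complex.ext h1 h2) }

lemma integral_iso (W : ℂ ≃ₗᵢ[ℝ] ℂ) (F : ℂ → ℂ) :
    ∫ p : ℝ × ℝ, F (W.symm (⟨p.1, p.2⟩ : ℂ)) = ∫ z, F z := by
  have h1 : ∫ z : ℂ, F (W.symm z) = ∫ z, F z :=
    (W.symm.measurePreserving).integral_comp (W.symm.toHomeomorph.measurableEmbedding) F
  rw [← h1]
  have h2 := (Complex.volume_preserving_equiv_real_prod.symm).integral_comp
    (Complex.measurableEquivRealProd.symm.measurableEmbedding) (fun z => F (W.symm z))
  rw [← h2]
  rfl

theorem sector_of_iso {ι : Type*} [Countable ι] {lam : ι → ℂ} {A : ℝ} (h : CCurve γ γ' L S)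
    (hT : Tight lam γ L A) (W : ℂ ≃ₗᵢ[ℝ] ℂ) (σ : ℝ)
    (hTT : ∀ p, TT (fun t => W (γ' t)) p = σ * TT γ' p) {tM : ℝ} (htM : tM ∈ Ioo 0 L)
    (hgt : (W (γ 0)).im < (W (γ tM)).im) :
    ∃ r > 0, ∃ c > 0, ∀ g : 𝓢(ℂ, ℂ), (∀ z, g z ≠ 0 → ((W z).re, (W z).im) ∈ Sec r c) →
      HasSum (fun i => 𝓕 g (lam i)) 0 := by
  obtain ⟨α, β, y0, m, η, k, l, hα, hβ, harc, htr⟩ := (h.plane W).exists_arc htM hgt
  have hk := htr.hk
  have hl := htr.hl
  have hη := htr.hη
  refine ⟨min l (η / k), lt_min hl (by positivity), k, hk, fun g hg => ?_⟩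
  have hJ := hasSum_JJ hT h.cont h.meas h.bd hα.le hβ.le g
  have key : ∀ i, 𝓕 g (lam i) = (σ : ℂ) * JJ γ γ' α β g (lam i) := by
    intro i
    rw [SchwartzMap.fourier_coe, fourier_eq_ch]
    set F : ℂ → ℂ := fun z => ch (ip (lam i) z) * g z with hF
    rw [← integral_iso W F]
    have hFs : ContDiff ℝ 1 (fun p : ℝ × ℝ => F (W.symm (⟨p.1, p.2⟩ : ℂ))) := by
      have h1 : ContDiff ℝ 1 F := by
        have a1 : ContDiff ℝ 1 (fun z : ℂ => ch (ip (lam i) z)) := by
          have : ContDiff ℝ 1 (fun z : ℂ => ip (lam i) z) := by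
            simp only [ip_eq]
            have b1 : ContDiff ℝ 1 (fun z : ℂ => z.re) := Complex.reCLM.contDiff
            have b2 : ContDiff ℝ 1 (fun z : ℂ => z.im) := Complex.imCLM.contDiff
            fun_prop
          exact (contDiff_ch.of_le (by simp)).comp this
        exact a1.mul (g.smooth 1)
      have h2 : ContDiff ℝ 1 (fun p : ℝ × ℝ => W.symm (⟨p.1, p.2⟩ : ℂ)) := by
        have e : (fun p : ℝ × ℝ => W.symm (⟨p.1, p.2⟩ : ℂ))
          = fun p => W.symm ((p.1 : ℂ) + (p.2 : ℂ) * Complex.I) := by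
          ext p
          rw [Complex.mk_eq_add_mul_I]
        rw [e]
        have b1 : ContDiff ℝ 1 (fun p : ℝ × ℝ => (p.1 : ℂ)) :=
          Complex.ofRealCLM.contDiff.comp contDiff_fst
        have b2 : ContDiff ℝ 1 (fun p : ℝ × ℝ => (p.2 : ℂ)) :=
          Complex.ofRealCLM.contDiff.comp contDiff_snd
        exact W.symm.contDiff.comp (b1.add (b2.mul contDiff_const))
      exact h1.comp h2
    have hsupp : ∀ p : ℝ × ℝ, F (W.symm (⟨p.1, p.2⟩ : ℂ)) ≠ 0 → p ∈ Sec (min l (η / k)) k := by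
      intro p hp
      have : g (W.symm (⟨p.1, p.2⟩ : ℂ)) ≠ 0 := by
        intro h0
        apply hp
        simp only [hF, h0, mul_zero]
      have := hg _ this
      simpa using this
    have := harc.sector_identity htr (r := min l (η / k)) (c := k) (lt_min hl (by positivity)) hk
      (min_le_left _ _) (by
        calc k * min l (η / k) ≤ k * (η / k) := mul_le_mul_of_nonneg_left (min_le_right _ _) hk.le
          _ = η := by field_simp) le_rfl hFs hsupp
    rw [← this, JJ, ← integral_const_mul, nn]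
    congr 1
    ext p
    have e1 : (⟨(W (γ p.1)).re - (W (γ p.2)).re, (W (γ p.1)).im - (W (γ p.2)).im⟩ : ℂ)
        = W (γ p.1 - γ p.2) := by
      rw [map_sub]
      apply Complex.ext <;> simp
    have e2 := hTT p
    unfold TT at e2
    simp only at e2
    rw [e2]
    simp only
    rw [e1, LinearIsometryEquiv.symm_apply_apply]
    simp only [hF, TT]
    push_cast
    ring
  simp_rw [key]
  have := hJ.mul_left (σ : ℂ)
  rwa [mul_zero] at this

end Pool.Agent.R227.Curve
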