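import Pool.Agent.R227.Curve6

set_option autoImplicit false

open MeasureTheory Set Real FourierTransform SchwartzMap
open scoped Topology ContDiff ComplexConjugate Manifold

namespace Pool.Agent.R227.Curve

variable {γ γ' : ℝ → ℂ} {L : ℝ} {S : Set ℝ}

/-- a closed curve with countably many self-intersections is not contained in a line. -/
lemma CCurve.nonconst (h : CCurve γ γ' L S) (v : ℂ) (hv : ‖v‖ = 1) :
    ∃ t ∈ Ioo 0 L, (conj v * γ t).im ≠ (conj v * γ 0).im := by
  by_contra hcon
  push Not at hcon
  set N := {t ∈ Ico 0 L | ∃ s ∈ Ico 0 L, s ≠ t ∧ γ s = γ t} with hN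
  have hL := h.hL
  have hγ := h.cont
  set X : ℝ → ℝ := fun t => (conj v * γ t).re with hX
  have hXc : Continuous X := by
    simp only [hX]
    exact Complex.continuous_re.comp (continuous_const.mul hγ)
  have hv0 : conj v ≠ 0 := by
    intro h0
    rw [map_eq_zero] at h0
    rw [h0] at hv
    simp at hv
  have heq : ∀ s ∈ Ico 0 L, ∀ t ∈ Ico 0 L, X s = X t → γ s = γ t := by
    intro s hs t ht hst
    have him : ∀ t ∈ Ico 0 L, (conj v * γ t).im = (conj v * γ 0).im := by
      intro t ht
      rcases ht.1.eq_or_lt with h0 | h0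
      · rw [← h0]
      · exact hcon t ⟨h0, ht.2⟩
    have : conj v * γ s = conj v * γ t := Complex.ext hst (by rw [him s hs, him t ht])
    exact mul_left_cancel₀ hv0 this
  by_cases hc : ∀ t ∈ Ioo 0 L, X t = X 0
  · -- everything coincides
    have hsub : Ioo 0 L ⊆ N := by
      intro t ht
      exact ⟨⟨ht.1.le, ht.2⟩, 0, ⟨le_rfl, hL⟩, ht.1.ne, heq 0 ⟨le_rfl, hL⟩ t ⟨ht.1.le, ht.2⟩ (hc t ht).symm⟩
    have h1 := (h.inj.mono hsub).measure_zero volume
    rw [Real.volume_Ioo, ENNReal.ofReal_eq_zero] at h1
    linarith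
  · push Not at hc
    obtain ⟨t1, ht1, hne⟩ := hc
    have hper : X L = X 0 := by simp only [hX, h.per]
    -- all intermediate values are taken twice
    have hsub : ∀ y, (y ∈ Ioo (X 0) (X t1) ∨ y ∈ Ioo (X t1) (X 0)) → y ∈ X '' N := by
      intro y hy
      have h1 : y ∈ X '' (Ioo 0 t1) := by
        rcases hy with hy | hy
        · exact intermediate_value_Ioo ht1.1.le hXc.continuousOn hy
        · exact intermediate_value_Ioo' ht1.1.le hXc.continuousOn hy
      have h2 : y ∈ X '' (Ioo t1 L) := by
        rcases hy with hy | hy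
        · apply intermediate_value_Ioo' ht1.2.le hXc.continuousOn
          rw [hper]; exact hy
        · apply intermediate_value_Ioo ht1.2.le hXc.continuousOn
          rw [hper]; exact hy
      obtain ⟨s, hs, hsy⟩ := h1
      obtain ⟨s', hs', hsy'⟩ := h2
      have m1 : s ∈ Ico 0 L := ⟨hs.1.le, hs.2.trans ht1.2⟩
      have m2 : s' ∈ Ico 0 L := ⟨(ht1.1.trans hs'.1).le, hs'.2⟩
      refine ⟨s, ⟨m1, s', m2, (hs.2.trans hs'.1).ne', heq s' m2 s m1 (by rw [hsy, hsy'])⟩, hsy⟩
    have hnull : volume (X '' N) = 0 := (h.inj.image X).measure_zero volume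
    rcases lt_or_gt_of_ne hne with h1 | h1
    · have := measure_mono_null (fun y hy => hsub y (Or.inr hy)) hnull
      change volume (Ioo (X t1) (X 0)) = 0 at this
      rw [Real.volume_Ioo, ENNReal.ofReal_eq_zero] at this
      linarith
    · have := measure_mono_null (fun y hy => hsub y (Or.inl hy)) hnull
      change volume (Ioo (X 0) (X t1)) = 0 at this
      rw [Real.volume_Ioo, ENNReal.ofReal_eq_zero] at this
      linarith

/-- the sector about the direction `v` -/
def SecV (v : ℂ) (r c : ℝ) : Set ℂ := {z | ((conj v * z).re, (conj v * z).im) ∈ Sec r c}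

theorem sector_vanish {ι : Type*} [Countable ι] {lam : ι → ℂ} {A : ℝ} (h : CCurve γ γ' L S)
    (hT : Tight lam γ L A) (v : ℂ) (hv : ‖v‖ = 1) :
    ∃ r > 0, ∃ c > 0, ∀ g : 𝓢(ℂ, ℂ), (∀ z, g z ≠ 0 → z ∈ SecV v r c) →
      HasSum (fun i => 𝓕 g (lam i)) 0 := by
  obtain ⟨tM, htM, hne⟩ := h.nonconst v hv
  have hv' : ‖conj v‖ = 1 := by rw [RCLike.norm_conj]; exact hv
  set u : Circle := ⟨conj v, by rw [Submonoid.unitSphere, Submonoid.mem_mk, Subsemigroup.mem_mk]; simpa using hv'⟩ with hu
  set R : ℂ ≃ₗᵢ[ℝ] ℂ := rotation u with hR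
  have hRa : ∀ z, R z = conj v * z := by
    intro z
    rw [hR, rotation_apply]
  rcases lt_or_gt_of_ne hne with h1 | h1
  · -- use the reflected curve
    obtain ⟨r, hr, c, hc, hg⟩ := sector_of_iso h hT (R.trans Complex.conjLIE) (-1)
      (by
        intro p
        simp only [TT, LinearIsometryEquiv.trans_apply, hRa, Complex.conjLIE_apply, Complex.conj_re,
          Complex.conj_im, Complex.mul_re, Complex.mul_im]
        have hn : v.re ^ 2 + v.im ^ 2 = 1 := by
          have := Complex.sq_norm v
          rw [hv, Complex.normSq_apply] at this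
          nlinarith
        linear_combination (-((γ' p.1).re * (γ' p.2).im - (γ' p.1).im * (γ' p.2).re)) * hn) htM
      (by
        simp only [LinearIsometryEquiv.trans_apply, hRa, Complex.conjLIE_apply, Complex.conj_im]
        linarith)
    refine ⟨r, hr, c, hc, fun g hz => hg g fun z hgz => ?_⟩
    have := hz z hgz
    simp only [LinearIsometryEquiv.trans_apply, hRa, Complex.conjLIE_apply, Complex.conj_im, Complex.conj_re]
    obtain ⟨a1, a2, a3⟩ := this
    refine ⟨a1, a2, ?_⟩
    change |-(conj v * z).im| < _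
    rw [abs_neg]
    exact a3
  · obtain ⟨r, hr, c, hc, hg⟩ := sector_of_iso h hT R 1
      (by
        intro p
        simp only [TT, hRa, Complex.conj_re,
          Complex.conj_im, Complex.mul_re, Complex.mul_im]
        have hn : v.re ^ 2 + v.im ^ 2 = 1 := by
          have := Complex.sq_norm v
          rw [hv, Complex.normSq_apply] at this
          nlinarith
        linear_combination (((γ' p.1).re * (γ' p.2).im - (γ' p.1).im * (γ' p.2).re)) * hn) htM
      (by
        simp only [hRa]
        linarith)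
    refine ⟨r, hr, c, hc, fun g hz => hg g fun z hgz => ?_⟩
    have := hz z hgz
    simp only [hRa]
    exact this

end Pool.Agent.R227.Curve
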