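import Pool.Agent.R227.Curve7

set_option autoImplicit false

open MeasureTheory Set Real FourierTransform SchwartzMap
open scoped Topology ContDiff ComplexConjugate Manifold

namespace Pool.Agent.R227.Curve

variable {γ γ' : ℝ → ℂ} {L : ℝ} {S : Set ℝ}

lemma isOpen_SecV (v : ℂ) (r c : ℝ) : IsOpen (SecV v r c) := by
  have h1 : IsOpen (Sec r c) := by
    have : Sec r c = {p : ℝ × ℝ | 0 < p.1} ∩ ({p | p.1 < r} ∩ {p | |p.2| < c * p.1}) := by
      ext p; rfl
    rw [this]
    refine (isOpen_lt continuous_const continuous_fst).inter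
      ((isOpen_lt continuous_fst continuous_const).inter (isOpen_lt ?_ ?_)) <;> fun_prop
  have h2 : Continuous (fun z : ℂ => ((conj v * z).re, (conj v * z).im)) := by
    have h3 : Continuous (fun z : ℂ => conj v * z) := by fun_prop
    exact (Complex.continuous_re.comp h3).prodMk (Complex.continuous_im.comp h3)
  exact h1.preimage h2

theorem punctured {ι : Type*} [Countable ι] {lam : ι → ℂ} {A : ℝ} (h : CCurve γ γ' L S)
    (hT : Tight lam γ L A) :
    ∃ r > 0, ∀ g : 𝓢(ℂ, ℂ), HasCompactSupport g → tsupport g ⊆ Metric.ball 0 r \ {0} →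
      HasSum (fun i => 𝓕 g (lam i)) 0 := by
  classical
  choose! r hr c hc hg using fun v (hv : ‖v‖ = 1) => sector_vanish h hT v hv
  -- cover the unit circle
  obtain ⟨T, hT1, hT2⟩ := (isCompact_sphere (0 : ℂ) 1).elim_nhds_subcover
    (fun v => {z : ℂ | 0 < (conj v * z).re ∧ |(conj v * z).im| < c v * (conj v * z).re}) (by
      intro v hv
      have hv1 : ‖v‖ = 1 := by simpa using hv
      have h3 : Continuous (fun z : ℂ => conj v * z) := by fun_prop
      have h4 := Complex.continuous_re.comp h3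
      have h5 := Complex.continuous_im.comp h3
      have ho : IsOpen {z : ℂ | 0 < (conj v * z).re ∧ |(conj v * z).im| < c v * (conj v * z).re} := by
        have o1 : IsOpen {z : ℂ | 0 < (conj v * z).re} := isOpen_lt continuous_const h4
        have o2 : IsOpen {z : ℂ | |(conj v * z).im| < c v * (conj v * z).re} :=
          isOpen_lt h5.abs (continuous_const.mul h4)
        exact o1.inter o2
      apply ho.mem_nhds
      have e : conj v * v = 1 := by
        rw [mul_comm, Complex.mul_conj, Complex.normSq_eq_norm_sq, hv1]; simp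
      simp only [mem_ofPred_eq, e, Complex.one_re, Complex.one_im, abs_zero, mul_one]
      exact ⟨one_pos, hc v hv1⟩)
  have hTn : ∀ v ∈ T, ‖v‖ = 1 := fun v hv => by simpa using hT1 v hv
  obtain ⟨ρ, hρ, hρT⟩ : ∃ ρ > 0, ∀ v ∈ T, ρ ≤ r v := by
    by_cases hTe : T.Nonempty
    · obtain ⟨v0, hv0, hmin⟩ := T.exists_min_image r hTe
      exact ⟨r v0, hr v0 (hTn v0 hv0), hmin⟩
    · exact ⟨1, one_pos, fun v hv => absurd ⟨v, hv⟩ hTe⟩
  have hcover : Metric.ball (0 : ℂ) ρ \ {0} ⊆ ⋃ v : T, SecV v (r v) (c v) := by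
    intro z hz
    have hz0 : z ≠ 0 := hz.2
    have hzn : 0 < ‖z‖ := norm_pos_iff.mpr hz0
    have hzρ : ‖z‖ < ρ := by simpa using hz.1
    have hsph : (‖z‖⁻¹ : ℂ) * z ∈ Metric.sphere (0 : ℂ) 1 := by
      simp [hzn.ne']
    obtain ⟨v, hv, hzv⟩ := mem_iUnion₂.mp (hT2 hsph)
    have hv1 := hTn v hv
    have e : conj v * ((‖z‖⁻¹ : ℂ) * z) = ((‖z‖⁻¹ : ℝ) : ℂ) * (conj v * z) := by push_cast; ring
    simp only [mem_ofPred_eq, e, Complex.re_ofReal_mul, Complex.im_ofReal_mul] at hzv
    obtain ⟨h1, h2⟩ := hzv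
    have hinv : 0 < ‖z‖⁻¹ := inv_pos.mpr hzn
    have h3 : 0 < (conj v * z).re := (mul_pos_iff_of_pos_left hinv).mp h1
    have h4 : |(conj v * z).im| < c v * (conj v * z).re := by
      rw [abs_mul, abs_of_pos hinv] at h2
      have : ‖z‖⁻¹ * |(conj v * z).im| < ‖z‖⁻¹ * (c v * (conj v * z).re) := by linarith
      exact lt_of_mul_lt_mul_left this hinv.le
    refine mem_iUnion.mpr ⟨⟨v, hv⟩, h3, ?_, h4⟩
    calc (conj v * z).re ≤ ‖conj v * z‖ := Complex.re_le_norm _
      _ = ‖z‖ := by rw [norm_mul, RCLike.norm_conj, hv1, one_mul]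
      _ < ρ := hzρ
      _ ≤ r v := hρT v hv
  refine ⟨ρ, hρ, fun g hgc hgs => ?_⟩
  obtain ⟨f, hf⟩ := SmoothPartitionOfUnity.exists_isSubordinate 𝓘(ℝ, ℂ) (s := tsupport g)
    (isClosed_tsupport g) (fun v : T => SecV v (r v) (c v)) (fun v => isOpen_SecV _ _ _)
    (hgs.trans hcover)
  have hfs : ∀ v : T, ContDiff ℝ ∞ (fun z => ((f v z : ℝ) : ℂ) * g z) := by
    intro v
    have h1 : ContDiff ℝ ∞ (f v) := (f v).contMDiff.contDiff
    exact (Complex.ofRealCLM.contDiff.comp h1).mul (g.smooth ⊤)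
  have hfc : ∀ v : T, HasCompactSupport (fun z => ((f v z : ℝ) : ℂ) * g z) := by
    intro v
    exact hgc.mul_left
  set gv : T → 𝓢(ℂ, ℂ) := fun v => (hfc v).toSchwartzMap (hfs v) with hgv
  have hgva : ∀ v z, gv v z = ((f v z : ℝ) : ℂ) * g z := fun v z => rfl
  have hsumg : g = ∑ v : T, gv v := by
    ext z
    rw [sum_apply]
    simp only [hgva]
    rw [← Finset.sum_mul]
    by_cases hz : z ∈ tsupport g
    · have := f.sum_eq_one hz
      rw [finsum_eq_sum_of_fintype] at this
      rw [← Complex.ofReal_sum, this]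
      simp
    · rw [image_eq_zero_of_notMem_tsupport hz, mul_zero]
  have hv : ∀ v : T, HasSum (fun i => 𝓕 (gv v) (lam i)) 0 := by
    intro v
    apply hg v (hTn v v.2)
    intro z hz
    rw [hgva] at hz
    have : f v z ≠ 0 := by
      intro h0
      apply hz
      rw [h0]; simp
    exact hf v (subset_tsupport _ this)
  have h1 := hasSum_sum (s := Finset.univ) (fun v _ => hv v)
  simp only [Finset.sum_const_zero] at h1
  have e : ∀ i, 𝓕 g (lam i) = ∑ v : T, 𝓕 (gv v) (lam i) := by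
    intro i
    conv_lhs => rw [hsumg]
    rw [FourierTransform.fourier_sum, sum_apply]
  simp_rw [e]
  exact h1

end Pool.Agent.R227.Curve
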