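import Pool.Agent.R227.Curve8

set_option autoImplicit false

open MeasureTheory Set Real FourierTransform SchwartzMap
open scoped Topology ContDiff ComplexConjugate

namespace Pool.Agent.R227.Curve

variable {γ γ' : ℝ → ℂ} {L : ℝ} {S : Set ℝ}

/-- polynomial weight at scale `1/ε` -/
noncomputable def wt (ε : ℝ) (η : ℂ) : ℝ := ((1 + ε ^ 2 * ‖η‖ ^ 2) ^ 2)⁻¹

lemma wt_pos (ε : ℝ) (η : ℂ) : 0 < wt ε η := by unfold wt; positivity

lemma wt_le_one (ε : ℝ) (η : ℂ) : wt ε η ≤ 1 := by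
  unfold wt
  apply inv_le_one_of_one_le₀
  have : 0 ≤ ε ^ 2 * ‖η‖ ^ 2 := by positivity
  nlinarith

lemma continuous_wt (ε : ℝ) : Continuous (wt ε) := by
  unfold wt
  apply Continuous.inv₀ (by fun_prop)
  intro η
  positivity

lemma wt_sub (ε : ℝ) (a b : ℂ) : wt ε a * wt ε b / 4 ≤ wt ε (a - b) := by
  unfold wt
  have h1 : ‖a - b‖ ^ 2 ≤ 2 * (‖a‖ ^ 2 + ‖b‖ ^ 2) := by
    have := norm_sub_le a b
    have h2 : ‖a - b‖ ^ 2 ≤ (‖a‖ + ‖b‖) ^ 2 := by gcongr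
    nlinarith [sq_nonneg (‖a‖ - ‖b‖)]
  have h3 : 1 + ε ^ 2 * ‖a - b‖ ^ 2 ≤ 2 * ((1 + ε ^ 2 * ‖a‖ ^ 2) * (1 + ε ^ 2 * ‖b‖ ^ 2)) := by
    have h4 : ε ^ 2 * ‖a - b‖ ^ 2 ≤ ε ^ 2 * (2 * (‖a‖ ^ 2 + ‖b‖ ^ 2)) :=
      mul_le_mul_of_nonneg_left h1 (sq_nonneg _)
    have h5 : 0 ≤ (ε ^ 2 * ‖a‖ ^ 2) * (ε ^ 2 * ‖b‖ ^ 2) := by positivity
    nlinarith
  have h6 : (1 + ε ^ 2 * ‖a - b‖ ^ 2) ^ 2 ≤ 4 * ((1 + ε ^ 2 * ‖a‖ ^ 2) ^ 2 * (1 + ε ^ 2 * ‖b‖ ^ 2) ^ 2) := by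
    calc (1 + ε ^ 2 * ‖a - b‖ ^ 2) ^ 2 ≤ (2 * ((1 + ε ^ 2 * ‖a‖ ^ 2) * (1 + ε ^ 2 * ‖b‖ ^ 2))) ^ 2 := by
          gcongr
      _ = _ := by ring
  rw [← mul_inv, div_eq_mul_inv, ← mul_inv]
  apply inv_anti₀ (by positivity)
  linarith

lemma integrable_wt {ε : ℝ} (hε : 0 < ε) : Integrable (wt ε) := by
  have h1 : Integrable (fun η : ℂ => (1 + ‖η‖ ^ 2) ^ (-(4:ℝ) / 2)) :=
    integrable_rpow_neg_one_add_norm_sq (by simp; norm_num)
  have h2 : Integrable (fun η : ℂ => (1 + ‖ε • η‖ ^ 2) ^ (-(4:ℝ) / 2)) :=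
    (integrable_comp_smul_iff volume (fun η : ℂ => (1 + ‖η‖ ^ 2) ^ (-(4:ℝ) / 2)) hε.ne').mpr h1
  refine h2.congr ?_
  refine Filter.Eventually.of_forall fun η => ?_
  simp only [wt]
  rw [norm_smul, mul_pow, Real.norm_eq_abs, sq_abs, show (-(4:ℝ) / 2) = -2 by norm_num, Real.rpow_neg (by positivity)]
  norm_num

/-- `∫ w_ε = ε^{-2} ∫ w_1`. -/
lemma integral_wt {ε : ℝ} (hε : 0 < ε) : ∫ η, wt ε η = (ε ^ 2)⁻¹ * ∫ η, wt 1 η := by
  have e : ∀ η : ℂ, wt ε η = wt 1 (ε • η) := by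
    intro η
    unfold wt
    rw [norm_smul, Real.norm_eq_abs, mul_pow, sq_abs]
    ring_nf
  simp_rw [e]
  rw [Measure.integral_comp_smul volume (fun η : ℂ => wt 1 η) ε]
  simp only [Complex.finrank_real_complex, smul_eq_mul]
  rw [abs_of_pos (by positivity)]

/-- squared transform of arc length -/
noncomputable def MM (γ : ℝ → ℂ) (L : ℝ) (η : ℂ) : ℝ := ‖Ah γ (fun _ => 1) 0 L η‖ ^ 2

lemma MM_nonneg (γ : ℝ → ℂ) (L : ℝ) (η : ℂ) : 0 ≤ MM γ L η := by unfold MM; positivity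

lemma MM_complex (γ : ℝ → ℂ) (L : ℝ) (η : ℂ) :
    (MM γ L η : ℂ) = ∫ p : ℝ × ℝ, ch (ip η (γ p.1 - γ p.2)) ∂(nn 0 L) := by
  have := normsq_Ah (γ := γ) (fun _ => 1) 0 L η
  unfold MM
  rw [this]
  simp [nn]

lemma continuous_MM (hγ : Continuous γ) (L : ℝ) : Continuous (MM γ L) := by
  have h1 : Continuous (fun η => Ah γ (fun _ => 1) 0 L η) := by
    unfold Ah
    apply continuous_of_dominated (bound := fun _ => 1)
    · intro η
      have : Continuous (fun t => ch (ip η (γ t)) * 1) :=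
        (continuous_ch.comp (continuous_ip.comp (by fun_prop :
          Continuous fun t => ((η, γ t) : ℂ × ℂ)))).mul continuous_const
      exact this.aestronglyMeasurable
    · intro η
      refine Filter.Eventually.of_forall fun t => ?_
      rw [mul_one, norm_ch]
    · exact integrable_const _
    · refine Filter.Eventually.of_forall fun t => ?_
      exact (continuous_ch.comp (continuous_ip.comp (by fun_prop :
          Continuous fun η : ℂ => ((η, γ t) : ℂ × ℂ)))).mul continuous_const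
  unfold MM
  fun_prop

lemma MM_le (γ : ℝ → ℂ) {L : ℝ} (hL : 0 < L) (η : ℂ) : MM γ L η ≤ L ^ 2 := by
  unfold MM Ah
  have : ‖∫ t in Ioc 0 L, ch (ip η (γ t)) * 1‖ ≤ L := by
    refine (norm_setIntegral_le_of_norm_le_const (C := 1) (by simp) ?_).trans ?_
    · intro t _
      rw [mul_one, norm_ch]
    · simp [hL.le]
  gcongr

lemma gauss_int {b : ℝ} (hb : 0 < b) (z : ℂ) :
    ∫ τ : ℂ, ((Real.exp (-b * ‖τ‖ ^ 2) : ℝ) : ℂ) * ch (ip τ z)
      = ((π / b * Real.exp (-(π ^ 2 * ‖z‖ ^ 2) / b) : ℝ) : ℂ) := by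
  have h := GaussianFourier.integral_cexp_neg_mul_sq_norm_add (V := ℂ) (b := (b : ℂ))
    (by simpa using hb) (-(2 * π * Complex.I)) z
  have e1 : ∀ τ : ℂ, ((Real.exp (-b * ‖τ‖ ^ 2) : ℝ) : ℂ) * ch (ip τ z)
      = Complex.exp (-(b : ℂ) * (‖τ‖ : ℂ) ^ 2 + (-(2 * π * Complex.I)) * ((inner ℝ z τ : ℝ) : ℂ)) := by
    intro τ
    rw [Complex.exp_add, ch]
    congr 1
    · push_cast; rfl
    · congr 1
      have : ip τ z = inner ℝ z τ := by unfold ip; rw [real_inner_comm]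
      rw [this]
      ring
  simp_rw [e1]
  rw [h]
  simp only [Complex.finrank_real_complex, Nat.cast_ofNat]
  have e2 : ((2:ℂ) / 2) = 1 := by norm_num
  rw [e2, Complex.cpow_one]
  push_cast
  congr 2
  rw [neg_sq, mul_pow, mul_pow, Complex.I_sq]
  have hb' : (b : ℂ) ≠ 0 := by exact_mod_cast hb.ne'
  field_simp
  ring

lemma gauss_MM (hγ : Continuous γ) {b : ℝ} (hb : 0 < b) :
    ∫ τ : ℂ, Real.exp (-b * ‖τ‖ ^ 2) * MM γ L τ
      = ∫ p : ℝ × ℝ, π / b * Real.exp (-(π ^ 2 * ‖γ p.1 - γ p.2‖ ^ 2) / b) ∂(nn 0 L) := by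
  have hgi : Integrable (fun τ : ℂ => Real.exp (-b * ‖τ‖ ^ 2)) := by
    have := GaussianFourier.integrable_cexp_neg_mul_sq_norm_add (V := ℂ) (b := (b : ℂ))
      (by simpa using hb) 0 0
    have h2 := this.norm
    refine h2.congr ?_
    refine Filter.Eventually.of_forall fun τ => ?_
    simp only [zero_mul, add_zero]
    rw [Complex.norm_exp]
    congr 1
    have : (-(b:ℂ) * (‖τ‖ : ℂ) ^ 2) = ((-b * ‖τ‖ ^ 2 : ℝ) : ℂ) := by push_cast; ring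
    rw [this, Complex.ofReal_re]
  apply Complex.ofRealLI.injective
  simp only [Complex.ofRealLI_apply]
  rw [← integral_complex_ofReal, ← integral_complex_ofReal]
  have e1 : ∀ τ : ℂ, ((Real.exp (-b * ‖τ‖ ^ 2) * MM γ L τ : ℝ) : ℂ)
      = ∫ p : ℝ × ℝ, ((Real.exp (-b * ‖τ‖ ^ 2) : ℝ) : ℂ) * ch (ip τ (γ p.1 - γ p.2)) ∂(nn 0 L) := by
    intro τ
    rw [integral_const_mul, ← MM_complex]
    push_cast
    ring
  simp_rw [e1]
  rw [integral_integral_swap]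
  · congr 1
    ext p
    exact gauss_int hb _
  · have hmaj : Integrable (fun q : ℂ × (ℝ × ℝ) => Real.exp (-b * ‖q.1‖ ^ 2) * (1:ℝ))
        (volume.prod (nn 0 L)) := hgi.mul_prod (integrable_const (1:ℝ))
    refine hmaj.mono' ?_ ?_
    · have h2 : Continuous (fun q : ℂ × (ℝ × ℝ) => ch (ip q.1 (γ q.2.1 - γ q.2.2))) :=
        continuous_ch.comp (continuous_ip.comp (by fun_prop :
          Continuous fun q : ℂ × (ℝ × ℝ) => ((q.1, γ q.2.1 - γ q.2.2) : ℂ × ℂ)))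
      have h1 : Continuous (fun q : ℂ × (ℝ × ℝ) => ((Real.exp (-b * ‖q.1‖ ^ 2) : ℝ) : ℂ)) := by
        fun_prop
      exact (h1.mul h2).aestronglyMeasurable
    · refine Filter.Eventually.of_forall fun q => ?_
      simp only [Function.uncurry]
      rw [norm_mul, norm_ch, Complex.norm_real, Real.norm_eq_abs, abs_of_pos (Real.exp_pos _)]

end Pool.Agent.R227.Curve
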