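import Pool.Agent.R227.IT1
import Pool.Agent.Y282.RB.A1
import Pool.Agent.Y282.RB.A4

/-!
# Interpolation on the half-line: bumps and primitives (helper227)
-/

set_option autoImplicit false

namespace Pool.Agent.R227.IT

open Finset MeasureTheory Filter Topology

lemma intg {f : ℝ → ℝ} (hf : Continuous f) (c : ℝ) (hv : ∀ x, c ≤ x → f x = 0) :
    IntegrableOn f (Set.Ioi 0) := by
  have h1 : IntegrableOn f (Set.Icc 0 c) := hf.integrableOn_Icc
  have h2 : IntegrableOn f (Set.Ioi c) :=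
    (integrableOn_zero).congr_fun (fun x hx => (hv x (le_of_lt hx)).symm) measurableSet_Ioi
  refine (h1.union h2).mono_set fun x hx => ?_
  by_cases h : x ≤ c
  · exact Or.inl ⟨le_of_lt hx, h⟩
  · exact Or.inr (not_le.1 h)

lemma ioi_eq {f : ℝ → ℝ} {R : ℝ} (hR : 0 < R) (hf : ∀ x, R ≤ x → f x = 0) :
    ∫ x in Set.Ioi 0, f x = ∫ x in (0:ℝ)..R, f x := by
  rw [intervalIntegral.integral_of_le hR.le]
  refine (setIntegral_eq_of_subset_of_forall_sdiff_eq_zero measurableSet_Ioi
    (fun x hx => hx.1) fun x hx => ?_)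
  have h1 : R < x := by
    by_contra hcon
    exact hx.2 ⟨hx.1, not_lt.1 hcon⟩
  exact hf x h1.le

/-- bumps -/
noncomputable def bp (δ : ℝ) (i : ℕ) (x : ℝ) : ℝ :=
  Real.smoothTransition (x / δ - 1 - i) - Real.smoothTransition (x / δ - 2 - i)

lemma bp_nonneg (δ : ℝ) (i : ℕ) (x : ℝ) : 0 ≤ bp δ i x :=
  sub_nonneg.2 (Real.smoothTransition.monotone (by linarith))

lemma bp_sum (δ : ℝ) (K : ℕ) (x : ℝ) : ∑ i ∈ range K, bp δ i x
    = Real.smoothTransition (x / δ - 1) - Real.smoothTransition (x / δ - 1 - K) := by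
  induction K with
  | zero => simp
  | succ K ih =>
    rw [sum_range_succ, ih]
    unfold bp
    have e : x / δ - 2 - (K : ℝ) = x / δ - 1 - ((K + 1 : ℕ) : ℝ) := by push_cast; ring
    rw [e]
    ring

lemma bp_sum_le (δ : ℝ) (K : ℕ) (x : ℝ) : ∑ i ∈ range K, bp δ i x ≤ 1 := by
  rw [bp_sum]
  have h1 := Real.smoothTransition.le_one (x / δ - 1)
  have h2 := Real.smoothTransition.nonneg (x / δ - 1 - K)
  linarith

lemma bp_left {δ : ℝ} (hδ : 0 < δ) {i : ℕ} {x : ℝ} (hx : x ≤ (i + 1) * δ) : bp δ i x = 0 := by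
  have h : x / δ ≤ i + 1 := by rw [div_le_iff₀ hδ]; exact hx
  unfold bp
  rw [Real.smoothTransition.zero_of_nonpos (by linarith), Real.smoothTransition.zero_of_nonpos (by linarith), sub_zero]

lemma bp_right {δ : ℝ} (hδ : 0 < δ) {i : ℕ} {x : ℝ} (hx : (i + 3) * δ ≤ x) : bp δ i x = 0 := by
  have h : (i : ℝ) + 3 ≤ x / δ := by rw [le_div_iff₀ hδ]; exact hx
  unfold bp
  rw [Real.smoothTransition.one_of_one_le (by linarith), Real.smoothTransition.one_of_one_le (by linarith), sub_self]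

lemma bp_smooth (δ : ℝ) (i : ℕ) : ContDiff ℝ (⊤ : ℕ∞) (bp δ i) := by
  unfold bp
  have h : ∀ c : ℝ, ContDiff ℝ (⊤ : ℕ∞) fun x : ℝ => Real.smoothTransition (x / δ - c - i) := by
    intro c
    have h1 : ContDiff ℝ (⊤ : ℕ∞) fun x : ℝ => x / δ - c - i :=
      ((contDiff_id.div_const δ).sub contDiff_const).sub contDiff_const
    exact Real.smoothTransition.contDiff.comp h1
  exact (h 1).sub (h 2)

lemma bp_cont (δ : ℝ) (i : ℕ) : Continuous (bp δ i) := (bp_smooth δ i).continuous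

lemma bp_integral {δ : ℝ} (hδ : 0 < δ) (i : ℕ) : ∫ x in Set.Ioi 0, bp δ i x ≤ δ := by
  have hi : (0 : ℝ) ≤ i := Nat.cast_nonneg i
  set T : ℝ := (i + 3) * δ with hT
  have hT0 : 0 < T := by positivity
  rw [ioi_eq hT0 fun x hx => bp_right hδ hx]
  set f : ℝ → ℝ := fun x => Real.smoothTransition (x / δ - 1 - i) with hf
  have hfc : Continuous f :=
    Real.smoothTransition.continuous.comp (((continuous_id.div_const δ).sub continuous_const).sub continuous_const)
  have hfi : ∀ a b : ℝ, IntervalIntegrable f volume a b := fun a b => hfc.intervalIntegrable _ _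
  have e1 : ∀ x, bp δ i x = f x - f (x - δ) := by
    intro x
    rw [hf]
    unfold bp
    have : (x - δ) / δ - 1 - i = x / δ - 2 - i := by
      rw [sub_div, div_self hδ.ne']; ring
    simp only
    rw [this]
  simp_rw [e1]
  have hfi2 : IntervalIntegrable (fun x => f (x - δ)) volume 0 T :=
    (hfc.comp (continuous_id.sub continuous_const)).intervalIntegrable _ _
  rw [intervalIntegral.integral_sub (hfi 0 T) hfi2, intervalIntegral.integral_comp_sub_right f δ]
  have h1 := intervalIntegral.integral_add_adjacent_intervals (hfi 0 (T - δ)) (hfi (T - δ) T)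
  have h2 := intervalIntegral.integral_add_adjacent_intervals (hfi (0 - δ) 0) (hfi 0 (T - δ))
  have h3 : ∫ x in (T - δ)..T, f x ≤ ∫ x in (T - δ)..T, (1:ℝ) :=
    intervalIntegral.integral_mono_on (by linarith) (hfi _ _) (continuous_const.intervalIntegrable _ _)
      fun x _ => Real.smoothTransition.le_one _
  rw [intervalIntegral.integral_const, smul_eq_mul, mul_one] at h3
  have h4 : 0 ≤ ∫ x in (0 - δ)..0, f x :=
    intervalIntegral.integral_nonneg (by linarith) fun x _ => Real.smoothTransition.nonneg _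
  linarith

/-- Jensen -/
lemma jen (K : ℕ) (w z : ℕ → ℝ) (hw : ∀ i, 0 ≤ w i) (hw1 : ∑ i ∈ range K, w i ≤ 1) (hz : ∀ i, 0 ≤ z i)
    {r : ℝ} (hr : 1 ≤ r) : (∑ i ∈ range K, w i * z i) ^ r ≤ ∑ i ∈ range K, w i * z i ^ r := by
  have h := Real.rpow_arith_mean_le_arith_mean_rpow (range (K + 1))
    (fun i => if i < K then w i else 1 - ∑ i ∈ range K, w i) (fun i => if i < K then z i else 0)
    (fun i _ => by
      split_ifs
      · exact hw i
      · linarith)
    (by
      rw [sum_range_succ, if_neg (lt_irrefl K)]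
      rw [sum_congr rfl (fun i hi => if_pos (mem_range.1 hi))]
      ring)
    (fun i _ => by
      split_ifs
      · exact hz i
      · exact le_rfl) hr
  rw [sum_range_succ, sum_range_succ, if_neg (lt_irrefl K), if_neg (lt_irrefl K), mul_zero, add_zero,
    Real.zero_rpow (by linarith), mul_zero, add_zero] at h
  have e1 : ∑ i ∈ range K, (if i < K then w i else 1 - ∑ i ∈ range K, w i) * (if i < K then z i else 0)
      = ∑ i ∈ range K, w i * z i :=
    sum_congr rfl fun i hi => by rw [if_pos (mem_range.1 hi), if_pos (mem_range.1 hi)]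
  have e2 : ∑ i ∈ range K, (if i < K then w i else 1 - ∑ i ∈ range K, w i) * (if i < K then z i else 0) ^ r
      = ∑ i ∈ range K, w i * z i ^ r :=
    sum_congr rfl fun i hi => by rw [if_pos (mem_range.1 hi), if_pos (mem_range.1 hi)]
  rwa [e1, e2] at h

lemma comb_pt (δ : ℝ) (K : ℕ) (a : ℕ → ℂ) {r : ℝ} (hr : 1 ≤ r) (x : ℝ) :
    ‖∑ i ∈ range K, a i * (bp δ i x : ℂ)‖ ^ r ≤ ∑ i ∈ range K, bp δ i x * ‖a i‖ ^ r := by
  have h1 : ‖∑ i ∈ range K, a i * (bp δ i x : ℂ)‖ ≤ ∑ i ∈ range K, bp δ i x * ‖a i‖ := by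
    refine (norm_sum_le _ _).trans (le_of_eq (sum_congr rfl fun i _ => ?_))
    rw [norm_mul, Complex.norm_real, Real.norm_of_nonneg (bp_nonneg δ i x), mul_comm]
  exact (Real.rpow_le_rpow (norm_nonneg _) h1 (by linarith)).trans
    (jen K _ _ (fun i => bp_nonneg δ i x) (bp_sum_le δ K x) (fun i => norm_nonneg _) hr)

lemma comb_int {δ : ℝ} (hδ : 0 < δ) (K : ℕ) (a : ℕ → ℂ) {r : ℝ} (hr : 1 ≤ r) :
    ∫ x in Set.Ioi 0, ‖∑ i ∈ range K, a i * (bp δ i x : ℂ)‖ ^ r ≤ δ * ∑ i ∈ range K, ‖a i‖ ^ r := by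
  have hv : ∀ i ∈ range K, ∀ x : ℝ, (K + 3) * δ ≤ x → bp δ i x = 0 := by
    intro i hi x hx
    apply bp_right hδ
    have : (i : ℝ) ≤ K := by exact_mod_cast (mem_range.1 hi).le
    nlinarith
  have i1 : IntegrableOn (fun x => ‖∑ i ∈ range K, a i * (bp δ i x : ℂ)‖ ^ r) (Set.Ioi 0) := by
    apply intg _ ((K + 3) * δ)
    · intro x hx
      have : ∑ i ∈ range K, a i * (bp δ i x : ℂ) = 0 := sum_eq_zero fun i hi => by
        rw [hv i hi x hx]; simp
      rw [this, norm_zero, Real.zero_rpow (by linarith)]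
    · apply Continuous.rpow_const
      · apply Continuous.norm
        exact continuous_finsetSum _ fun i _ => continuous_const.mul (Complex.continuous_ofReal.comp (bp_cont δ i))
      · intro x; right; linarith
  have i2 : ∀ i ∈ range K, IntegrableOn (fun x => bp δ i x * ‖a i‖ ^ r) (Set.Ioi 0) := by
    intro i hi
    exact intg ((bp_cont δ i).mul continuous_const) ((K + 3) * δ) fun x hx => by rw [hv i hi x hx, zero_mul]
  have h1 : ∫ x in Set.Ioi 0, ‖∑ i ∈ range K, a i * (bp δ i x : ℂ)‖ ^ r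
      ≤ ∫ x in Set.Ioi 0, ∑ i ∈ range K, bp δ i x * ‖a i‖ ^ r :=
    integral_mono i1 (integrable_finsetSum _ i2) fun x => comb_pt δ K a hr x
  refine h1.trans ?_
  rw [integral_finsetSum _ i2, mul_sum]
  refine sum_le_sum fun i _ => ?_
  rw [integral_mul_const]
  exact mul_le_mul_of_nonneg_right (bp_integral hδ i) (by positivity)

lemma prim (n : ℕ) (hn : 1 ≤ n) {δ : ℝ} (hδ : 0 < δ) (i : ℕ) :
    ∃ h : ℝ → ℂ, ContDiff ℝ (⊤ : ℕ∞) h ∧ (∃ R : ℝ, ∀ x, R ≤ x → h x = 0) ∧
      ∀ x : ℝ, (x : ℂ) ^ n * iteratedDeriv n h x = (bp δ i x : ℂ) := by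
  set g : ℝ → ℂ := fun x => (bp δ i x : ℂ) * ((x : ℂ) ^ n)⁻¹ with hg
  have hi : (0 : ℝ) ≤ i := Nat.cast_nonneg i
  have hgs : ContDiff ℝ (⊤ : ℕ∞) g := by
    rw [contDiff_iff_contDiffAt]
    intro x
    rcases lt_or_ge x ((i + 1) * δ) with h | h
    · have h1 : g =ᶠ[𝓝 x] fun _ => 0 := by
        filter_upwards [Iio_mem_nhds h] with y hy
        rw [hg]
        simp only
        rw [bp_left hδ (le_of_lt hy)]
        simp
      exact contDiffAt_const.congr_of_eventuallyEq h1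
    · have hx : x ≠ 0 := by
        have h0 : 0 < (i + 1) * δ := by positivity
        exact ne_of_gt (lt_of_lt_of_le h0 h)
      have h1 : ContDiffAt ℝ (⊤ : ℕ∞) (fun x : ℝ => (bp δ i x : ℂ)) x :=
        (Complex.ofRealCLM.contDiff.comp (bp_smooth δ i)).contDiffAt
      have h2 : ContDiffAt ℝ (⊤ : ℕ∞) (fun x : ℝ => (x : ℂ) ^ n) x :=
        (Complex.ofRealCLM.contDiff.pow n).contDiffAt
      exact h1.mul (h2.inv (pow_ne_zero _ (by exact_mod_cast hx)))
  have hgc : HasCompactSupport g := by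
    apply HasCompactSupport.intro (isCompact_Icc (a := (0:ℝ)) (b := (i + 3) * δ))
    intro x hx
    rw [hg]
    simp only
    by_cases h : x ≤ (i + 1) * δ
    · rw [bp_left hδ h]; simp
    · have h2 : (i + 3) * δ ≤ x := by
        by_contra hcon
        apply hx
        push Not at h hcon
        have : 0 < (i + 1) * δ := by positivity
        exact ⟨by linarith, hcon.le⟩
      rw [bp_right hδ h2]; simp
  obtain ⟨h, h1, h2, h3⟩ := Y282.RB.A1.main n g hgs hgc
  refine ⟨h, h1, h2, fun x => ?_⟩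
  rw [h3, hg]
  simp only
  rcases eq_or_ne x 0 with rfl | hx
  · rw [bp_left hδ (by positivity)]
    simp
  · have : (x : ℂ) ^ n ≠ 0 := pow_ne_zero _ (by exact_mod_cast hx)
    field_simp

end Pool.Agent.R227.IT
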