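import Pool.Agent.R227.IT2

/-!
# Interpolation on the half-line: discretisation of the output (helper227)
-/

set_option autoImplicit false

namespace Pool.Agent.R227.IT

open Finset MeasureTheory Filter Topology

/-- averages over the intervals of a grid -/
noncomputable def av (ε : ℝ) (u : ℝ → ℂ) (m : ℕ) : ℂ :=
  (ε : ℂ)⁻¹ * ∫ x in ((m : ℝ) * ε)..(((m + 1 : ℕ) : ℝ) * ε), u x

lemma avj {ε : ℝ} (hε : 0 < ε) {u : ℝ → ℂ} (hu : Continuous u) (m : ℕ) {r : ℝ} (hr : 1 ≤ r) :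
    ε * ‖av ε u m‖ ^ r ≤ ∫ x in ((m : ℝ) * ε)..(((m + 1 : ℕ) : ℝ) * ε), ‖u x‖ ^ r := by
  set a : ℝ := (m : ℝ) * ε with ha
  set b : ℝ := ((m + 1 : ℕ) : ℝ) * ε with hb
  have hba : b - a = ε := by rw [ha, hb]; push_cast; ring
  have hab : a ≤ b := by linarith
  have hvol : (volume : Measure ℝ).real (Set.Ioc a b) = ε := by
    rw [Real.volume_real_Ioc_of_le hab, hba]
  have hf : IntegrableOn (fun x => ‖u x‖) (Set.Ioc a b) :=
    (hu.norm.integrableOn_Icc).mono_set Set.Ioc_subset_Icc_self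
  have hg : IntegrableOn ((fun x : ℝ => x ^ r) ∘ fun x => ‖u x‖) (Set.Ioc a b) :=
    ((hu.norm.rpow_const (fun x => Or.inr (by linarith))).integrableOn_Icc).mono_set Set.Ioc_subset_Icc_self
  have h0 : (volume : Measure ℝ) (Set.Ioc a b) ≠ 0 := by
    rw [Real.volume_Ioc, hba]
    simpa using hε
  have h1 : (volume : Measure ℝ) (Set.Ioc a b) ≠ ⊤ := by
    rw [Real.volume_Ioc]; exact ENNReal.ofReal_ne_top
  have key := (convexOn_rpow hr).map_set_average_le (μ := volume) (t := Set.Ioc a b) (f := fun x => ‖u x‖)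
    ((Real.continuous_rpow_const (by linarith)).continuousOn) isClosed_Ici h0 h1
    (Eventually.of_forall fun x => norm_nonneg _) hf hg
  rw [setAverage_eq, setAverage_eq, hvol, smul_eq_mul, smul_eq_mul] at key
  have h2 : ‖av ε u m‖ ≤ ε⁻¹ * ∫ x in Set.Ioc a b, ‖u x‖ := by
    unfold av
    rw [norm_mul, norm_inv, Complex.norm_real, Real.norm_of_nonneg hε.le]
    apply mul_le_mul_of_nonneg_left _ (by positivity)
    rw [← ha, ← hb, intervalIntegral.integral_of_le hab]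
    exact norm_integral_le_integral_norm _
  have h3 : ‖av ε u m‖ ^ r ≤ ε⁻¹ * ∫ x in Set.Ioc a b, ‖u x‖ ^ r :=
    (Real.rpow_le_rpow (norm_nonneg _) h2 (by linarith)).trans key
  rw [intervalIntegral.integral_of_le hab]
  calc ε * ‖av ε u m‖ ^ r ≤ ε * (ε⁻¹ * ∫ x in Set.Ioc a b, ‖u x‖ ^ r) :=
        mul_le_mul_of_nonneg_left h3 hε.le
    _ = _ := by rw [← mul_assoc, mul_inv_cancel₀ hε.ne', one_mul]

lemma av_comb (ε : ℝ) {u : ℕ → ℝ → ℂ} (hu : ∀ i, Continuous (u i)) (K : ℕ) (a : ℕ → ℂ) (m : ℕ) :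
    av ε (fun x => ∑ i ∈ range K, a i * u i x) m = ∑ i ∈ range K, a i * av ε (u i) m := by
  have h1 : ∫ x in ((m : ℝ) * ε)..(((m + 1 : ℕ) : ℝ) * ε), ∑ i ∈ range K, a i * u i x
      = ∑ i ∈ range K, ∫ x in ((m : ℝ) * ε)..(((m + 1 : ℕ) : ℝ) * ε), a i * u i x :=
    intervalIntegral.integral_finsetSum fun i _ => (continuous_const.mul (hu i)).intervalIntegrable _ _
  unfold av
  rw [show (∫ x in ((m : ℝ) * ε)..(((m + 1 : ℕ) : ℝ) * ε), (fun x => ∑ i ∈ range K, a i * u i x) x)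
      = ∫ x in ((m : ℝ) * ε)..(((m + 1 : ℕ) : ℝ) * ε), ∑ i ∈ range K, a i * u i x from rfl, h1, mul_sum]
  refine sum_congr rfl fun i _ => ?_
  rw [intervalIntegral.integral_const_mul]
  ring

lemma grid_sum {T : ℝ} {M : ℕ} (hM : 0 < M) {f : ℝ → ℝ} (hf : Continuous f) :
    ∑ m ∈ range M, ∫ x in ((m : ℝ) * (T / M))..(((m + 1 : ℕ) : ℝ) * (T / M)), f x = ∫ x in (0:ℝ)..T, f x := by
  have h := intervalIntegral.sum_integral_adjacent_intervals (f := f) (μ := volume) (a := fun k : ℕ => (k : ℝ) * (T / M)) (n := M)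
    fun k _ => hf.intervalIntegrable _ _
  rw [h]
  have hM' : (M : ℝ) ≠ 0 := by exact_mod_cast hM.ne'
  have e1 : (M : ℝ) * (T / M) = T := by field_simp
  simp only [Nat.cast_zero, zero_mul, e1]

lemma disc1 {p₀ p p₁ : ℝ} (hp0 : 1 < p₀) (h01 : p₀ < p) (h12 : p < p₁) {C₀ C₁ D T : ℝ} (hC0 : 0 ≤ C₀)
    (hC1 : 0 ≤ C₁) (hD : 0 ≤ D) (hT : 0 < T) {u : ℕ → ℝ → ℂ} (hu : ∀ i, Continuous (u i)) {K : ℕ}
    (H0 : ∀ a : ℕ → ℂ, ∫ x in (0:ℝ)..T, ‖∑ i ∈ range K, a i * u i x‖ ^ p₀ ≤ C₀ ^ p₀ * (D * ∑ i ∈ range K, ‖a i‖ ^ p₀))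
    (H1 : ∀ a : ℕ → ℂ, ∫ x in (0:ℝ)..T, ‖∑ i ∈ range K, a i * u i x‖ ^ p₁ ≤ C₁ ^ p₁ * (D * ∑ i ∈ range K, ‖a i‖ ^ p₁))
    {s : ℝ} (hs : s = (1 / p - 1 / p₁) / (1 / p₀ - 1 / p₁)) (a : ℕ → ℂ) {M : ℕ} (hM : 0 < M) :
    (T / M) * ∑ m ∈ range M, ‖av (T / M) (fun x => ∑ i ∈ range K, a i * u i x) m‖ ^ p
      ≤ (C₁ ^ (1 - s) * C₀ ^ s) ^ p * (D * ∑ i ∈ range K, ‖a i‖ ^ p) := by
  have hM' : (0:ℝ) < M := by exact_mod_cast hM
  set ε : ℝ := T / M with hεd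
  have hε : 0 < ε := div_pos hT hM'
  have hDε : 0 ≤ D / ε := div_nonneg hD hε.le
  have HH : ∀ (r C : ℝ), 1 < r → 0 ≤ C →
      (∀ a : ℕ → ℂ, ∫ x in (0:ℝ)..T, ‖∑ i ∈ range K, a i * u i x‖ ^ r ≤ C ^ r * (D * ∑ i ∈ range K, ‖a i‖ ^ r)) →
      ∀ a : ℕ → ℂ, ∑ m ∈ range M, ‖∑ i ∈ range K, a i * av ε (u i) m‖ ^ r
        ≤ (C * (D / ε) ^ (1 / r)) ^ r * ∑ i ∈ range K, ‖a i‖ ^ r := by
    intro r C hr hC hH a
    have hr0 : r ≠ 0 := by linarith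
    have hc : Continuous fun x => ∑ i ∈ range K, a i * u i x :=
      continuous_finsetSum _ fun i _ => continuous_const.mul (hu i)
    have h1 : ε * ∑ m ∈ range M, ‖∑ i ∈ range K, a i * av ε (u i) m‖ ^ r
        ≤ C ^ r * (D * ∑ i ∈ range K, ‖a i‖ ^ r) := by
      refine le_trans ?_ (hH a)
      rw [← grid_sum hM (hc.norm.rpow_const (fun x => Or.inr (by linarith))), mul_sum]
      refine sum_le_sum fun m _ => ?_
      rw [← av_comb ε hu K a m]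
      exact avj hε hc m hr.le
    rw [Real.mul_rpow hC (by positivity), ← Real.rpow_mul hDε, one_div_mul_cancel hr0, Real.rpow_one]
    have h2 : ε * (C ^ r * (D / ε) * ∑ i ∈ range K, ‖a i‖ ^ r) = C ^ r * (D * ∑ i ∈ range K, ‖a i‖ ^ r) := by
      field_simp
    exact le_of_mul_le_mul_left (h1.trans (le_of_eq h2.symm)) hε
  have hp1 : 1 < p₁ := by linarith
  have G0 := HH p₀ C₀ hp0 hC0 H0
  have G1 := HH p₁ C₁ hp1 hC1 H1
  set emb : ℕ ↪ ℤ := Nat.castEmbedding with hemb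
  have hz : ∀ (r C : ℝ), (∀ a : ℕ → ℂ, ∑ m ∈ range M, ‖∑ i ∈ range K, a i * av ε (u i) m‖ ^ r
        ≤ C ^ r * ∑ i ∈ range K, ‖a i‖ ^ r) →
      ∀ b : ℤ → ℂ, ∑ m ∈ (range M).map emb, ‖∑ i ∈ (range K).map emb, b i * av ε (u i.toNat) m.toNat‖ ^ r
        ≤ C ^ r * ∑ i ∈ (range K).map emb, ‖b i‖ ^ r := by
    intro r C h b
    simp only [sum_map]
    have := h (fun i => b (emb i))
    simpa [hemb] using this
  have key := rt2 p₀ p₁ p _ _ hp0 h01 h12 (by positivity : 0 ≤ C₀ * (D / ε) ^ (1 / p₀))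
    (by positivity : 0 ≤ C₁ * (D / ε) ^ (1 / p₁)) _ _ _ (hz _ _ G0) (hz _ _ G1) s hs (fun z => a z.toNat)
  simp only [sum_map] at key
  have key2 : ∑ m ∈ range M, ‖∑ i ∈ range K, a i * av ε (u i) m‖ ^ p
      ≤ ((C₁ * (D / ε) ^ (1 / p₁)) ^ (1 - s) * (C₀ * (D / ε) ^ (1 / p₀)) ^ s) ^ p * ∑ i ∈ range K, ‖a i‖ ^ p := by
    simpa [hemb] using key
  have hp' : 0 < p := by linarith
  have hl : (0:ℝ) < 1 / p₁ := by positivity
  have hlp : 1 / p₁ < 1 / p := one_div_lt_one_div_of_lt hp' h12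
  have hpu : 1 / p < 1 / p₀ := one_div_lt_one_div_of_lt (by linarith) h01
  have hul : 0 < 1 / p₀ - 1 / p₁ := by linarith
  have hs0 : 0 ≤ s := by rw [hs]; exact div_nonneg (by linarith) hul.le
  have hs1 : 0 ≤ 1 - s := by
    have : s ≤ 1 := by rw [hs]; exact (div_le_one hul).2 (by linarith)
    linarith
  have hsl : 1 / p₁ * (1 - s) + 1 / p₀ * s = 1 / p := by
    have : s * (1 / p₀ - 1 / p₁) = 1 / p - 1 / p₁ := by rw [hs]; exact div_mul_cancel₀ _ hul.ne'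
    linarith
  have e1 : ((C₁ * (D / ε) ^ (1 / p₁)) ^ (1 - s) * (C₀ * (D / ε) ^ (1 / p₀)) ^ s) ^ p
      = (C₁ ^ (1 - s) * C₀ ^ s) ^ p * (D / ε) := by
    rw [Real.mul_rpow hC1 (by positivity), Real.mul_rpow hC0 (by positivity), ← Real.rpow_mul hDε, ← Real.rpow_mul hDε]
    have e2 : C₁ ^ (1 - s) * (D / ε) ^ (1 / p₁ * (1 - s)) * (C₀ ^ s * (D / ε) ^ (1 / p₀ * s))
        = (C₁ ^ (1 - s) * C₀ ^ s) * (D / ε) ^ (1 / p) := by
      rw [← hsl, Real.rpow_add_of_nonneg hDε (by positivity) (by positivity)]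
      ring
    rw [e2, Real.mul_rpow (by positivity) (by positivity), ← Real.rpow_mul hDε, one_div_mul_cancel hp'.ne', Real.rpow_one]
  rw [e1] at key2
  have e3 : ∑ m ∈ range M, ‖av ε (fun x => ∑ i ∈ range K, a i * u i x) m‖ ^ p
      = ∑ m ∈ range M, ‖∑ i ∈ range K, a i * av ε (u i) m‖ ^ p :=
    sum_congr rfl fun m _ => by rw [av_comb ε hu K a m]
  rw [e3]
  calc ε * ∑ m ∈ range M, ‖∑ i ∈ range K, a i * av ε (u i) m‖ ^ p
      ≤ ε * ((C₁ ^ (1 - s) * C₀ ^ s) ^ p * (D / ε) * ∑ i ∈ range K, ‖a i‖ ^ p) :=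
        mul_le_mul_of_nonneg_left key2 hε.le
    _ = _ := by field_simp

end Pool.Agent.R227.IT
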