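import Pool.Agent.R227.IT3

/-!
# Interpolation on the half-line: the limit in the output grid (helper227)
-/

set_option autoImplicit false

namespace Pool.Agent.R227.IT

open Finset MeasureTheory Filter Topology

lemma grid_lim {U : ℝ → ℂ} (hU : Continuous U) {T p L : ℝ} (hT : 0 < T) (hp : 0 < p)
    (h : ∀ M : ℕ, 0 < M → (T / M) * ∑ m ∈ range M, ‖av (T / M) U m‖ ^ p ≤ L) :
    ∫ x in (0:ℝ)..T, ‖U x‖ ^ p ≤ L := by
  have hmain : ∀ η : ℝ, 0 < η → ∫ x in (0:ℝ)..T, ‖U x‖ ^ p ≤ L + T * η := by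
    intro η hη
    obtain ⟨B, hB⟩ := (isCompact_Icc (a := (0:ℝ)) (b := T)).exists_bound_of_continuousOn hU.continuousOn
    have hB0 : 0 ≤ B := (norm_nonneg _).trans (hB 0 ⟨le_rfl, hT.le⟩)
    have hφc : ContinuousOn (fun s : ℝ => s ^ p) (Set.Icc 0 (B + 1)) :=
      (Real.continuous_rpow_const hp.le).continuousOn
    have hφ := isCompact_Icc.uniformContinuousOn_of_continuous hφc
    rw [Metric.uniformContinuousOn_iff] at hφ
    obtain ⟨ω₀, hω₀, hφ⟩ := hφ η hη
    set ω : ℝ := min ω₀ 1 with hω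
    have hω0 : 0 < ω := lt_min hω₀ one_pos
    have hUu := isCompact_Icc.uniformContinuousOn_of_continuous (hU.continuousOn (s := Set.Icc (0:ℝ) T))
    rw [Metric.uniformContinuousOn_iff] at hUu
    obtain ⟨ρ, hρ, hUu⟩ := hUu (ω / 2) (by positivity)
    obtain ⟨M, hM⟩ := exists_nat_gt (T / ρ)
    have hM0' : (0:ℝ) < M := lt_trans (by positivity) hM
    have hM0 : 0 < M := by exact_mod_cast hM0'
    set ε : ℝ := T / M with hεd
    have hε : 0 < ε := div_pos hT hM0'
    have hερ : ε < ρ := by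
      rw [hεd, div_lt_iff₀ hM0']
      rwa [div_lt_iff₀ hρ, mul_comm] at hM
    have hcont : Continuous fun x => ‖U x‖ ^ p := hU.norm.rpow_const (fun x => Or.inr hp.le)
    have hpt : ∀ m ∈ range M, ∫ x in ((m : ℝ) * ε)..(((m + 1 : ℕ) : ℝ) * ε), ‖U x‖ ^ p
        ≤ ε * ‖av ε U m‖ ^ p + ε * η := by
      intro m hm
      have hm' : (m : ℝ) + 1 ≤ M := by exact_mod_cast mem_range.1 hm
      have hm0 : (0:ℝ) ≤ m := Nat.cast_nonneg m
      set a : ℝ := (m : ℝ) * ε with ha
      set b : ℝ := ((m + 1 : ℕ) : ℝ) * ε with hb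
      have hba : b - a = ε := by rw [ha, hb]; push_cast; ring
      have hab : a ≤ b := by linarith
      have ha0 : 0 ≤ a := by positivity
      have hbT : b ≤ T := by
        have e1 : (M : ℝ) * ε = T := by rw [hεd]; field_simp
        rw [hb, ← e1]
        push_cast
        exact mul_le_mul_of_nonneg_right hm' hε.le
      have hin : ∀ x ∈ Set.Icc a b, x ∈ Set.Icc (0:ℝ) T := fun x hx => ⟨ha0.trans hx.1, hx.2.trans hbT⟩
      have hclose : ∀ x ∈ Set.Icc a b, ‖av ε U m - U x‖ ≤ ω / 2 := by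
        intro x hx
        have e1 : av ε U m - U x = (ε : ℂ)⁻¹ * ∫ y in a..b, (U y - U x) := by
          rw [intervalIntegral.integral_sub (hU.intervalIntegrable _ _) (continuous_const.intervalIntegrable _ _),
            intervalIntegral.integral_const, hba]
          unfold av
          rw [← ha, ← hb, mul_sub, Complex.real_smul]
          have : (ε : ℂ) ≠ 0 := by exact_mod_cast hε.ne'
          field_simp
        rw [e1, norm_mul, norm_inv, Complex.norm_real, Real.norm_of_nonneg hε.le]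
        have e2 : ‖∫ y in a..b, (U y - U x)‖ ≤ ω / 2 * |b - a| := by
          apply intervalIntegral.norm_integral_le_of_norm_le_const
          intro y hy
          rw [Set.uIoc_of_le hab] at hy
          have hy' : y ∈ Set.Icc a b := ⟨hy.1.le, hy.2⟩
          have hd : dist y x < ρ := by
            rw [Real.dist_eq]
            apply lt_of_le_of_lt _ hερ
            rw [abs_le]
            constructor <;> linarith [hx.1, hx.2, hy'.1, hy'.2]
          have := hUu y (hin y hy') x (hin x hx) hd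
          rw [dist_eq_norm] at this
          exact this.le
        rw [hba, abs_of_pos hε] at e2
        calc ε⁻¹ * ‖∫ y in a..b, (U y - U x)‖ ≤ ε⁻¹ * (ω / 2 * ε) := mul_le_mul_of_nonneg_left e2 (by positivity)
          _ = ω / 2 := by field_simp
      have hle : ∀ x ∈ Set.Icc a b, ‖U x‖ ^ p ≤ ‖av ε U m‖ ^ p + η := by
        intro x hx
        have h1 := hclose x hx
        have h2 : |‖av ε U m‖ - ‖U x‖| ≤ ω / 2 := (abs_norm_sub_norm_le _ _).trans h1
        have h3 := hB x (hin x hx)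
        have h4 : ω ≤ 1 := min_le_right _ _
        have h5 : ω ≤ ω₀ := min_le_left _ _
        rw [abs_le] at h2
        have h6 := hφ ‖U x‖ ⟨norm_nonneg _, by linarith⟩ ‖av ε U m‖ ⟨norm_nonneg _, by linarith [h2.2]⟩
          (by rw [Real.dist_eq]; apply lt_of_le_of_lt (b := ω / 2) _ (by linarith); rw [abs_le]; constructor <;> linarith [h2.1, h2.2])
        rw [Real.dist_eq] at h6
        have := le_abs_self (‖U x‖ ^ p - ‖av ε U m‖ ^ p)
        linarith
      have h7 : ∫ x in a..b, ‖U x‖ ^ p ≤ ∫ x in a..b, (‖av ε U m‖ ^ p + η) :=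
        intervalIntegral.integral_mono_on hab (hcont.intervalIntegrable _ _)
          (continuous_const.intervalIntegrable _ _) hle
      rw [intervalIntegral.integral_const, hba, smul_eq_mul, mul_add] at h7
      exact h7
    have h8 := sum_le_sum hpt
    rw [grid_sum hM0 hcont, sum_add_distrib, ← mul_sum, sum_const, card_range, nsmul_eq_mul] at h8
    have h9 := h M hM0
    have e1 : (M : ℝ) * (ε * η) = T * η := by rw [hεd]; field_simp
    rw [e1] at h8
    linarith
  refine le_of_forall_pos_le_add fun η hη => ?_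
  have := hmain (η / T) (by positivity)
  have e1 : T * (η / T) = η := by field_simp
  rwa [e1] at this

lemma disc2 {p₀ p p₁ : ℝ} (hp0 : 1 < p₀) (h01 : p₀ < p) (h12 : p < p₁) {C₀ C₁ D T : ℝ} (hC0 : 0 ≤ C₀)
    (hC1 : 0 ≤ C₁) (hD : 0 ≤ D) (hT : 0 < T) {u : ℕ → ℝ → ℂ} (hu : ∀ i, Continuous (u i)) {K : ℕ}
    (H0 : ∀ a : ℕ → ℂ, ∫ x in (0:ℝ)..T, ‖∑ i ∈ range K, a i * u i x‖ ^ p₀ ≤ C₀ ^ p₀ * (D * ∑ i ∈ range K, ‖a i‖ ^ p₀))
    (H1 : ∀ a : ℕ → ℂ, ∫ x in (0:ℝ)..T, ‖∑ i ∈ range K, a i * u i x‖ ^ p₁ ≤ C₁ ^ p₁ * (D * ∑ i ∈ range K, ‖a i‖ ^ p₁))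
    {s : ℝ} (hs : s = (1 / p - 1 / p₁) / (1 / p₀ - 1 / p₁)) (a : ℕ → ℂ) :
    ∫ x in (0:ℝ)..T, ‖∑ i ∈ range K, a i * u i x‖ ^ p
      ≤ (C₁ ^ (1 - s) * C₀ ^ s) ^ p * (D * ∑ i ∈ range K, ‖a i‖ ^ p) :=
  grid_lim (U := fun x => ∑ i ∈ range K, a i * u i x)
    (continuous_finsetSum _ fun i _ => continuous_const.mul (hu i)) hT (by linarith)
    fun _ hM => disc1 hp0 h01 h12 hC0 hC1 hD hT hu H0 H1 hs a hM

end Pool.Agent.R227.IT
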