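import Pool.Agent.R227.IT4
import Pool.Agent.Y282.RB.A

/-!
# Interpolation on the half-line: the operator `x ^ n h^(n) ↦ (x ^ n h)^(n)` (helper227)
-/

set_option autoImplicit false

namespace Pool.Agent.R227.IT

open Finset MeasureTheory Filter Topology

noncomputable def UU (n : ℕ) (h : ℝ → ℂ) : ℝ → ℂ := iteratedDeriv n (fun t : ℝ => (t : ℂ) ^ n * h t)

noncomputable def GG (n : ℕ) (h : ℝ → ℂ) (x : ℝ) : ℂ := (x : ℂ) ^ n * iteratedDeriv n h x

lemma pow_smooth (n : ℕ) : ContDiff ℝ (⊤ : ℕ∞) (fun x : ℝ => (x : ℂ) ^ n) := Complex.ofRealCLM.contDiff.pow n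

lemma iter_cont {f : ℝ → ℂ} (hf : ContDiff ℝ (⊤ : ℕ∞) f) (j : ℕ) : Continuous (iteratedDeriv j f) :=
  hf.continuous_iteratedDeriv j (by exact_mod_cast le_top)

lemma UU_cont {n : ℕ} {h : ℝ → ℂ} (hh : ContDiff ℝ (⊤ : ℕ∞) h) : Continuous (UU n h) :=
  iter_cont ((pow_smooth n).mul hh) n

lemma GG_cont {n : ℕ} {h : ℝ → ℂ} (hh : ContDiff ℝ (⊤ : ℕ∞) h) : Continuous (GG n h) :=
  (pow_smooth n).continuous.mul (iter_cont hh n)

lemma iter_hd {f : ℝ → ℂ} (hf : ContDiff ℝ (⊤ : ℕ∞) f) (j : ℕ) (x : ℝ) :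
    HasDerivAt (iteratedDeriv j f) (iteratedDeriv (j + 1) f x) x := by
  rw [iteratedDeriv_succ]
  exact ((hf.differentiable_iteratedDeriv j (by exact_mod_cast ENat.coe_lt_top j)).differentiableAt).hasDerivAt

lemma iter_comb (K : ℕ) (a : ℕ → ℂ) {F : ℕ → ℝ → ℂ} (hF : ∀ i, ContDiff ℝ (⊤ : ℕ∞) (F i)) (n : ℕ) :
    iteratedDeriv n (fun x => ∑ i ∈ range K, a i * F i x) = fun x => ∑ i ∈ range K, a i * iteratedDeriv n (F i) x := by
  induction n with
  | zero => simp [iteratedDeriv_zero]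
  | succ n ih =>
    rw [iteratedDeriv_succ, ih]
    funext x
    exact (HasDerivAt.fun_sum fun i _ => (iter_hd (hF i) n x).const_mul (a i)).deriv

lemma iter_sub {f g : ℝ → ℂ} (hf : ContDiff ℝ (⊤ : ℕ∞) f) (hg : ContDiff ℝ (⊤ : ℕ∞) g) (n : ℕ) :
    iteratedDeriv n (fun x => f x - g x) = fun x => iteratedDeriv n f x - iteratedDeriv n g x := by
  induction n with
  | zero => simp [iteratedDeriv_zero]
  | succ n ih =>
    rw [iteratedDeriv_succ, ih]
    funext x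
    exact ((iter_hd hf n x).sub (iter_hd hg n x)).deriv

lemma UU_comb (n K : ℕ) (a : ℕ → ℂ) {H : ℕ → ℝ → ℂ} (hH : ∀ i, ContDiff ℝ (⊤ : ℕ∞) (H i)) (x : ℝ) :
    UU n (fun x => ∑ i ∈ range K, a i * H i x) x = ∑ i ∈ range K, a i * UU n (H i) x := by
  unfold UU
  have e1 : (fun t : ℝ => (t : ℂ) ^ n * ∑ i ∈ range K, a i * H i t)
      = fun t : ℝ => ∑ i ∈ range K, a i * ((t : ℂ) ^ n * H i t) := by
    funext t
    rw [mul_sum]
    exact sum_congr rfl fun i _ => by ring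
  rw [e1, iter_comb K a (fun i => (pow_smooth n).mul (hH i)) n]

lemma GG_comb (n K : ℕ) (a : ℕ → ℂ) {H : ℕ → ℝ → ℂ} (hH : ∀ i, ContDiff ℝ (⊤ : ℕ∞) (H i)) (x : ℝ) :
    GG n (fun x => ∑ i ∈ range K, a i * H i x) x = ∑ i ∈ range K, a i * GG n (H i) x := by
  unfold GG
  rw [iter_comb K a hH n, mul_sum]
  exact sum_congr rfl fun i _ => by ring

lemma UU_sub (n : ℕ) {f g : ℝ → ℂ} (hf : ContDiff ℝ (⊤ : ℕ∞) f) (hg : ContDiff ℝ (⊤ : ℕ∞) g) (x : ℝ) :
    UU n (fun x => f x - g x) x = UU n f x - UU n g x := by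
  unfold UU
  have e1 : (fun t : ℝ => (t : ℂ) ^ n * (f t - g t)) = fun t : ℝ => (t : ℂ) ^ n * f t - (t : ℂ) ^ n * g t := by
    funext t; ring
  rw [e1, iter_sub ((pow_smooth n).mul hf) ((pow_smooth n).mul hg) n]

lemma GG_sub (n : ℕ) {f g : ℝ → ℂ} (hf : ContDiff ℝ (⊤ : ℕ∞) f) (hg : ContDiff ℝ (⊤ : ℕ∞) g) (x : ℝ) :
    GG n (fun x => f x - g x) x = GG n f x - GG n g x := by
  unfold GG
  rw [iter_sub hf hg n]
  ring

lemma UU_van {n : ℕ} {h : ℝ → ℂ} {R : ℝ} (hR : ∀ x, R ≤ x → h x = 0) : ∀ x, R + 1 ≤ x → UU n h x = 0 :=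
  fun x hx => Y282.RB.A.iter_zero (f := fun t : ℝ => (t : ℂ) ^ n * h t) (R := R)
    (fun y hy => by rw [hR y hy, mul_zero]) n x hx

lemma GG_van {n : ℕ} {h : ℝ → ℂ} {R : ℝ} (hR : ∀ x, R ≤ x → h x = 0) : ∀ x, R + 1 ≤ x → GG n h x = 0 :=
  fun x hx => by unfold GG; rw [Y282.RB.A.iter_zero hR n x hx, mul_zero]

lemma cintg {f : ℝ → ℂ} (hf : Continuous f) (c : ℝ) (hv : ∀ x, c ≤ x → f x = 0) {r : ℝ} (hr : 0 < r) :
    IntegrableOn (fun x => ‖f x‖ ^ r) (Set.Ioi 0) :=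
  intg (hf.norm.rpow_const (fun x => Or.inr hr.le)) c fun x hx => by
    rw [hv x hx, norm_zero, Real.zero_rpow hr.ne']

lemma fam (n : ℕ) (hn : 1 ≤ n) {δ : ℝ} (hδ : 0 < δ) (K : ℕ) :
    ∃ (H : ℕ → ℝ → ℂ) (T : ℝ), 0 < T ∧ (∀ i, ContDiff ℝ (⊤ : ℕ∞) (H i)) ∧
      (∀ i x, GG n (H i) x = (bp δ i x : ℂ)) ∧ (∀ i ∈ range K, ∀ x, T ≤ x → H i x = 0) := by
  choose H h1 h2 h3 using fun i => prim n hn hδ i
  choose R hR using h2
  refine ⟨H, ∑ i ∈ range K, |R i| + 1, by positivity, h1, h3, fun i hi x hx => hR i x ?_⟩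
  have h4 : |R i| ≤ ∑ i ∈ range K, |R i| := single_le_sum (f := fun i => |R i|) (fun _ _ => abs_nonneg _) hi
  have := le_abs_self (R i)
  linarith

lemma endp {n : ℕ} {r C : ℝ} (hr : 1 < r) (hC : 0 ≤ C) (O : Y282.RB.OneD n r C) {δ T : ℝ} (hδ : 0 < δ) (hT : 0 < T)
    {K : ℕ} {H : ℕ → ℝ → ℂ} (hH : ∀ i, ContDiff ℝ (⊤ : ℕ∞) (H i)) (hG : ∀ i x, GG n (H i) x = (bp δ i x : ℂ))
    (hv : ∀ i ∈ range K, ∀ x, T ≤ x → H i x = 0) (a : ℕ → ℂ) :
    ∫ x in (0:ℝ)..(T + 1), ‖∑ i ∈ range K, a i * UU n (H i) x‖ ^ r ≤ C ^ r * (δ * ∑ i ∈ range K, ‖a i‖ ^ r) := by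
  set h : ℝ → ℂ := fun x => ∑ i ∈ range K, a i * H i x with hh
  have hs : ContDiff ℝ (⊤ : ℕ∞) h := by
    rw [hh]
    exact ContDiff.sum fun i _ => contDiff_const.mul (hH i)
  have hv' : ∀ x, T ≤ x → h x = 0 := fun x hx => sum_eq_zero fun i hi => by rw [hv i hi x hx, mul_zero]
  have h1 := Y282.RB.A4.main n r C hr.le hC O h hs ⟨T, hv'⟩
  have e1 : ∀ x, iteratedDeriv n (fun t : ℝ => (t : ℂ) ^ n * h t) x = ∑ i ∈ range K, a i * UU n (H i) x :=
    fun x => UU_comb n K a hH x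
  have e2 : ∀ x : ℝ, (x : ℂ) ^ n * iteratedDeriv n h x = ∑ i ∈ range K, a i * (bp δ i x : ℂ) := by
    intro x
    have := GG_comb n K a hH x
    simp_rw [hG] at this
    exact this
  simp_rw [e1, e2] at h1
  have h2 := comb_int hδ K a hr.le
  rw [← ioi_eq (by linarith : 0 < T + 1)]
  · exact h1.trans (mul_le_mul_of_nonneg_left h2 (by positivity))
  · intro x hx
    rw [← e1 x, show iteratedDeriv n (fun t : ℝ => (t : ℂ) ^ n * h t) x = UU n h x from rfl, UU_van hv' x hx,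
      norm_zero, Real.zero_rpow (by linarith)]

/-- approximation by bumps -/
lemma approx {g : ℝ → ℂ} (hg : Continuous g) (hg0 : g 0 = 0) {R : ℝ} (hR : 0 < R) (hv : ∀ x, R ≤ x → g x = 0)
    {p : ℝ} (hp : 0 < p) {ω : ℝ} (hω : 0 < ω) :
    ∃ (δ : ℝ) (K : ℕ) (a : ℕ → ℂ), 0 < δ ∧
      (∀ x, 0 < x → ‖g x - ∑ i ∈ range K, a i * (bp δ i x : ℂ)‖ ≤ ω) ∧
      (∀ x, R + 1 ≤ x → g x - ∑ i ∈ range K, a i * (bp δ i x : ℂ) = 0) ∧
      δ * ∑ i ∈ range K, ‖a i‖ ^ p ≤ (∫ x in Set.Ioi 0, ‖g x‖ ^ p) + (R + 1) * ω := by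
  have hgu := isCompact_Icc.uniformContinuousOn_of_continuous (hg.continuousOn (s := Set.Icc (0:ℝ) (R + 1)))
  rw [Metric.uniformContinuousOn_iff] at hgu
  obtain ⟨ρ₁, hρ₁, hgu⟩ := hgu ω hω
  have hφc : Continuous fun x => ‖g x‖ ^ p := hg.norm.rpow_const (fun x => Or.inr hp.le)
  have hφ := isCompact_Icc.uniformContinuousOn_of_continuous (hφc.continuousOn (s := Set.Icc (0:ℝ) (R + 1)))
  rw [Metric.uniformContinuousOn_iff] at hφ
  obtain ⟨ρ₂, hρ₂, hφ⟩ := hφ ω hω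
  set ρ : ℝ := min (min ρ₁ ρ₂) 1 with hρd
  have hρ : 0 < ρ := lt_min (lt_min hρ₁ hρ₂) one_pos
  have hρ1 : ρ ≤ ρ₁ := (min_le_left _ _).trans (min_le_left _ _)
  have hρ2 : ρ ≤ ρ₂ := (min_le_left _ _).trans (min_le_right _ _)
  have hρ3 : ρ ≤ 1 := min_le_right _ _
  obtain ⟨K, hK⟩ := exists_nat_gt (2 * R / ρ)
  have hK0 : (0:ℝ) ≤ K := Nat.cast_nonneg K
  set δ : ℝ := R / (K + 1) with hδd
  have hδ : 0 < δ := by positivity
  have hδρ : 2 * δ < ρ := by
    rw [hδd, mul_div_assoc', div_lt_iff₀ (by positivity)]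
    rw [div_lt_iff₀ hρ] at hK
    nlinarith
  have hKδ : ((K : ℝ) + 1) * δ = R := by rw [hδd]; field_simp
  set a : ℕ → ℂ := fun i => g ((i + 2) * δ) with ha
  have hiK : ∀ i ∈ range K, ((i : ℝ) + 2) * δ ≤ R := by
    intro i hi
    have h1 : (i : ℝ) + 1 ≤ K := by exact_mod_cast mem_range.1 hi
    rw [← hKδ]
    apply mul_le_mul_of_nonneg_right _ hδ.le
    linarith
  refine ⟨δ, K, a, hδ, ?_, ?_, ?_⟩
  · intro x hx
    have e1 : g x - ∑ i ∈ range K, a i * (bp δ i x : ℂ)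
        = ∑ i ∈ range K, (bp δ i x : ℂ) * (g x - a i) + ((1 - ∑ i ∈ range K, bp δ i x : ℝ) : ℂ) * g x := by
      simp_rw [mul_sub]
      rw [sum_sub_distrib, ← sum_mul]
      push_cast
      have : ∑ i ∈ range K, a i * (bp δ i x : ℂ) = ∑ i ∈ range K, (bp δ i x : ℂ) * a i :=
        sum_congr rfl fun i _ => mul_comm _ _
      rw [this]
      ring
    rw [e1]
    have hS := bp_sum_le δ K x
    have c1 : ∀ i ∈ range K, ‖(bp δ i x : ℂ) * (g x - a i)‖ ≤ bp δ i x * ω := by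
      intro i hi
      rw [norm_mul, Complex.norm_real, Real.norm_of_nonneg (bp_nonneg δ i x)]
      have hi0 : (0:ℝ) ≤ i := Nat.cast_nonneg i
      have hiR := hiK i hi
      by_cases h1 : x ≤ (i + 1) * δ
      · rw [bp_left hδ h1]; simp
      by_cases h2 : (i + 3) * δ ≤ x
      · rw [bp_right hδ h2]; simp
      push Not at h1 h2
      apply mul_le_mul_of_nonneg_left _ (bp_nonneg δ i x)
      have h3 := hgu x ⟨hx.le, by nlinarith⟩ ((i + 2) * δ) ⟨by positivity, by linarith⟩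
        (by
          rw [Real.dist_eq]
          apply lt_of_lt_of_le (b := 2 * δ) _ (by linarith)
          rw [abs_lt]
          constructor <;> nlinarith)
      rw [dist_eq_norm] at h3
      exact h3.le
    have c2 : ‖((1 - ∑ i ∈ range K, bp δ i x : ℝ) : ℂ) * g x‖ ≤ (1 - ∑ i ∈ range K, bp δ i x) * ω := by
      rw [norm_mul, Complex.norm_real, Real.norm_of_nonneg (by linarith)]
      rcases lt_or_ge x (2 * δ) with h1 | h1
      · apply mul_le_mul_of_nonneg_left _ (by linarith)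
        have h3 := hgu x ⟨hx.le, by linarith⟩ 0 ⟨le_rfl, by linarith⟩
          (by
            rw [Real.dist_eq, sub_zero, abs_of_pos hx]
            linarith)
        rw [dist_eq_norm, hg0, sub_zero] at h3
        exact h3.le
      · rcases lt_or_ge x R with h2 | h2
        · have h3 : ∑ i ∈ range K, bp δ i x = 1 := by
            rw [bp_sum, Real.smoothTransition.one_of_one_le, Real.smoothTransition.zero_of_nonpos, sub_zero]
            · have : x / δ ≤ K + 1 := by rw [div_le_iff₀ hδ, hKδ]; exact h2.le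
              linarith
            · have : 2 ≤ x / δ := by rw [le_div_iff₀ hδ]; exact h1
              linarith
          rw [h3]; simp
        · rw [hv x h2, norm_zero, mul_zero]
          exact mul_nonneg (by linarith) hω.le
    refine (norm_add_le _ _).trans ?_
    have c3 : ‖∑ i ∈ range K, (bp δ i x : ℂ) * (g x - a i)‖ ≤ ∑ i ∈ range K, bp δ i x * ω :=
      (norm_sum_le _ _).trans (sum_le_sum c1)
    rw [← sum_mul] at c3
    have e2 : (∑ i ∈ range K, bp δ i x) * ω + (1 - ∑ i ∈ range K, bp δ i x) * ω = ω := by ring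
    linarith
  · intro x hx
    rw [hv x (by linarith), zero_sub, neg_eq_zero]
    refine sum_eq_zero fun i hi => ?_
    rw [bp_right hδ]
    · simp
    · have := hiK i hi
      nlinarith
  · have hc : Continuous fun x => ‖g x‖ ^ p + ω := hφc.add continuous_const
    have h1 : ∀ i ∈ range K, δ * ‖a i‖ ^ p ≤ ∫ x in (((i : ℕ) : ℝ) + 2) * δ..(((i + 1 : ℕ) : ℝ) + 2) * δ, (‖g x‖ ^ p + ω) := by
      intro i hi
      have hi0 : (0:ℝ) ≤ i := Nat.cast_nonneg i
      have hiR := hiK i hi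
      have hle : (((i : ℕ) : ℝ) + 2) * δ ≤ (((i + 1 : ℕ) : ℝ) + 2) * δ := by
        apply mul_le_mul_of_nonneg_right _ hδ.le
        push_cast; linarith
      have h2 : ∫ x in (((i : ℕ) : ℝ) + 2) * δ..(((i + 1 : ℕ) : ℝ) + 2) * δ, ‖a i‖ ^ p
          ≤ ∫ x in (((i : ℕ) : ℝ) + 2) * δ..(((i + 1 : ℕ) : ℝ) + 2) * δ, (‖g x‖ ^ p + ω) := by
        apply intervalIntegral.integral_mono_on hle (continuous_const.intervalIntegrable _ _) (hc.intervalIntegrable _ _)
        intro x hx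
        push_cast at hx
        have h3 := hφ ((i + 2) * δ) ⟨by positivity, by linarith⟩ x ⟨by nlinarith [hx.1], by nlinarith [hx.2]⟩
          (by
            rw [Real.dist_eq]
            apply lt_of_lt_of_le (b := 2 * δ) _ (by linarith)
            rw [abs_lt]
            constructor <;> nlinarith [hx.1, hx.2])
        rw [Real.dist_eq] at h3
        have := le_abs_self (‖g ((i + 2) * δ)‖ ^ p - ‖g x‖ ^ p)
        show ‖g ((i + 2) * δ)‖ ^ p ≤ _
        linarith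
      rw [intervalIntegral.integral_const, smul_eq_mul] at h2
      have e1 : (((i + 1 : ℕ) : ℝ) + 2) * δ - (((i : ℕ) : ℝ) + 2) * δ = δ := by push_cast; ring
      rwa [e1] at h2
    have h2 := sum_le_sum h1
    have h3 := intervalIntegral.sum_integral_adjacent_intervals (f := fun x => ‖g x‖ ^ p + ω) (μ := volume)
      (a := fun k : ℕ => ((k : ℝ) + 2) * δ) (n := K) fun k _ => hc.intervalIntegrable _ _
    rw [h3, ← mul_sum] at h2
    refine h2.trans ?_
    have h4 : ∫ x in (((0 : ℕ) : ℝ) + 2) * δ..((K : ℝ) + 2) * δ, (‖g x‖ ^ p + ω) ≤ ∫ x in (0:ℝ)..(R + 1), (‖g x‖ ^ p + ω) := by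
      apply intervalIntegral.integral_mono_interval
      · push_cast; positivity
      · apply mul_le_mul_of_nonneg_right _ hδ.le
        push_cast; linarith
      · nlinarith
      · exact Eventually.of_forall fun x => by positivity
      · exact hc.intervalIntegrable _ _
    refine h4.trans ?_
    rw [intervalIntegral.integral_add (hφc.intervalIntegrable _ _) (continuous_const.intervalIntegrable _ _),
      intervalIntegral.integral_const, smul_eq_mul, sub_zero, ioi_eq (by linarith : 0 < R + 1)]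
    intro x hx
    rw [hv x (by linarith), norm_zero, Real.zero_rpow hp.ne']

end Pool.Agent.R227.IT
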