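import Pool.Agent.R227.IT5

/-!
# Interpolation on the half-line: the theorem (helper227)
-/

set_option autoImplicit false

namespace Pool.Agent.R227.IT

open Finset MeasureTheory Filter Topology

lemma rpow_le_add {y p₀ p p₁ : ℝ} (hy : 0 ≤ y) (hp0 : 0 < p₀) (h01 : p₀ < p) (h12 : p < p₁) :
    y ^ p ≤ y ^ p₀ + y ^ p₁ := by
  rcases le_total y 1 with h | h
  · have h1 : y ^ p ≤ y ^ p₀ := Real.rpow_le_rpow_of_exponent_ge' hy h hp0.le h01.le
    have h2 : 0 ≤ y ^ p₁ := Real.rpow_nonneg hy _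
    linarith
  · have h1 : y ^ p ≤ y ^ p₁ := Real.rpow_le_rpow_of_exponent_le h h12.le
    have h2 : 0 ≤ y ^ p₀ := Real.rpow_nonneg hy _
    linarith

lemma two_split {a b τ p : ℝ} (ha : 0 ≤ a) (hb : 0 ≤ b) (hτ : 0 < τ) (hp : 1 ≤ p) :
    (a + b) ^ p ≤ (1 + τ) ^ (p - 1) * a ^ p + ((1 + τ) / τ) ^ (p - 1) * b ^ p := by
  have h1 : (0:ℝ) < 1 + τ := by linarith
  have h2 : (0:ℝ) < (1 + τ) / τ := by positivity
  have m1 : (1 + τ) * a ∈ Set.Ici (0:ℝ) := by show (0:ℝ) ≤ _; positivity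
  have m2 : (1 + τ) / τ * b ∈ Set.Ici (0:ℝ) := by show (0:ℝ) ≤ _; positivity
  have m3 : (0:ℝ) ≤ 1 / (1 + τ) := by positivity
  have m4 : (0:ℝ) ≤ τ / (1 + τ) := by positivity
  have m5 : 1 / (1 + τ) + τ / (1 + τ) = 1 := by field_simp
  have key := (convexOn_rpow hp).2 m1 m2 m3 m4 m5
  simp only [smul_eq_mul] at key
  have e1 : 1 / (1 + τ) * ((1 + τ) * a) + τ / (1 + τ) * ((1 + τ) / τ * b) = a + b := by
    field_simp
  rw [e1, Real.mul_rpow h1.le ha, Real.mul_rpow h2.le hb] at key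
  refine key.trans (le_of_eq ?_)
  rw [Real.rpow_sub_one h1.ne', Real.rpow_sub_one h2.ne']
  have e2 : τ / (1 + τ) = 1 / ((1 + τ) / τ) := by field_simp
  rw [e2]
  ring

lemma lim0 {X : ℝ} {φ : ℝ → ℝ} (hφ : ContinuousAt φ 0) (h : ∀ ω, 0 < ω → ω < 1 → X ≤ φ ω) : X ≤ φ 0 := by
  have h1 : Tendsto φ (𝓝[>] 0) (𝓝 (φ 0)) := hφ.tendsto.mono_left nhdsWithin_le_nhds
  refine ge_of_tendsto h1 ?_
  filter_upwards [Ioo_mem_nhdsGT (zero_lt_one' ℝ)] with ω hω using h ω hω.1 hω.2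

theorem interpC {n : ℕ} (hn : 1 ≤ n) {p₀ p p₁ C₀ C₁ : ℝ} (hp0 : 1 < p₀) (h01 : p₀ < p) (h12 : p < p₁)
    (hC0 : 0 ≤ C₀) (hC1 : 0 ≤ C₁) (O0 : Y282.RB.OneD n p₀ C₀) (O1 : Y282.RB.OneD n p₁ C₁)
    {s : ℝ} (hs : s = (1 / p - 1 / p₁) / (1 / p₀ - 1 / p₁)) {h : ℝ → ℂ} (hh : ContDiff ℝ (⊤ : ℕ∞) h)
    (hR : ∃ R : ℝ, ∀ x, R ≤ x → h x = 0) :
    ∫ x in Set.Ioi 0, ‖UU n h x‖ ^ p ≤ (C₁ ^ (1 - s) * C₀ ^ s) ^ p * ∫ x in Set.Ioi 0, ‖GG n h x‖ ^ p := by
  obtain ⟨R₀, hR₀⟩ := hR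
  have hvh : ∀ x, |R₀| ≤ x → h x = 0 := fun x hx => hR₀ x ((le_abs_self _).trans hx)
  set R : ℝ := |R₀| + 1 with hRd
  have hRpos : 0 < R := by positivity
  have hgv : ∀ x, R ≤ x → GG n h x = 0 := GG_van hvh
  have huv : ∀ x, R ≤ x → UU n h x = 0 := UU_van hvh
  have hg0 : GG n h 0 = 0 := by
    unfold GG
    rw [Complex.ofReal_zero, zero_pow (by omega), zero_mul]
  set Cp : ℝ := C₁ ^ (1 - s) * C₀ ^ s with hCp
  have hCp0 : 0 ≤ Cp := by positivity
  set G : ℝ := ∫ x in Set.Ioi 0, ‖GG n h x‖ ^ p with hG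
  set X : ℝ := ∫ x in Set.Ioi 0, ‖UU n h x‖ ^ p with hX
  have hp' : 0 < p := by linarith
  have hp1' : 1 < p₁ := by linarith
  have main : ∀ τ, 0 < τ → ∀ ω, 0 < ω → ω < 1 → X ≤ (1 + τ) ^ (p - 1) * (Cp ^ p * (G + (R + 1) * ω))
      + ((1 + τ) / τ) ^ (p - 1) * (C₀ ^ p₀ * (ω ^ p₀ * (R + 1)) + C₁ ^ p₁ * (ω ^ p₁ * (R + 1))) := by
    intro τ hτ ω hω _
    obtain ⟨δ, K, a, hδ, A1, A2, A3⟩ := approx (GG_cont hh) hg0 hRpos hgv hp' hω
    obtain ⟨H, T, hT, F1, F2, F3⟩ := fam n hn hδ K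
    set ha : ℝ → ℂ := fun x => ∑ i ∈ range K, a i * H i x with hha
    have has : ContDiff ℝ (⊤ : ℕ∞) ha := by
      rw [hha]
      exact ContDiff.sum fun i _ => contDiff_const.mul (F1 i)
    have hav : ∀ x, T ≤ x → ha x = 0 := fun x hx => sum_eq_zero fun i hi => by rw [F3 i hi x hx, mul_zero]
    set e : ℝ → ℂ := fun x => h x - ha x with he
    have hes : ContDiff ℝ (⊤ : ℕ∞) e := hh.sub has
    have hev : ∀ x, |R₀| + T ≤ x → e x = 0 := by
      intro x hx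
      rw [he]
      simp only
      rw [hvh x (by linarith), hav x (by linarith [abs_nonneg R₀]), sub_zero]
    -- the main part
    have hu : ∀ i, Continuous (UU n (H i)) := fun i => UU_cont (F1 i)
    have D := disc2 hp0 h01 h12 hC0 hC1 hδ.le (by linarith : 0 < T + 1) hu
      (fun a => endp hp0 hC0 O0 hδ hT F1 F2 F3 a) (fun a => endp hp1' hC1 O1 hδ hT F1 F2 F3 a) hs a
    have hA : ∫ x in Set.Ioi 0, ‖UU n ha x‖ ^ p ≤ Cp ^ p * (G + (R + 1) * ω) := by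
      rw [ioi_eq (by linarith : 0 < T + 1)]
      · have e1 : ∫ x in (0:ℝ)..(T + 1), ‖UU n ha x‖ ^ p
            = ∫ x in (0:ℝ)..(T + 1), ‖∑ i ∈ range K, a i * UU n (H i) x‖ ^ p := by
          refine intervalIntegral.integral_congr fun x _ => ?_
          rw [hha, UU_comb n K a F1 x]
        rw [e1]
        exact D.trans (mul_le_mul_of_nonneg_left A3 (by positivity))
      · intro x hx
        rw [UU_van hav x hx, norm_zero, Real.zero_rpow hp'.ne']
    -- the error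
    have hE : ∀ r C : ℝ, 1 < r → 0 ≤ C → Y282.RB.OneD n r C →
        ∫ x in Set.Ioi 0, ‖UU n e x‖ ^ r ≤ C ^ r * (ω ^ r * (R + 1)) := by
      intro r C hr hC O
      have h1 : ∫ x in Set.Ioi 0, ‖UU n e x‖ ^ r ≤ C ^ r * ∫ x in Set.Ioi 0, ‖GG n e x‖ ^ r :=
        Y282.RB.A4.main n r C hr.le hC O e hes ⟨_, hev⟩
      have e1 : ∀ x, GG n e x = GG n h x - ∑ i ∈ range K, a i * (bp δ i x : ℂ) := by
        intro x
        rw [he, GG_sub n hh has x, hha, GG_comb n K a F1 x]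
        simp_rw [F2]
      refine h1.trans (mul_le_mul_of_nonneg_left ?_ (by positivity))
      rw [ioi_eq (by linarith : 0 < R + 1)]
      · have h2 : ∫ x in (0:ℝ)..(R + 1), ‖GG n e x‖ ^ r ≤ ∫ x in (0:ℝ)..(R + 1), ω ^ r := by
          apply intervalIntegral.integral_mono_on_of_le_Ioo (by linarith)
          · exact ((GG_cont hes).norm.rpow_const (fun x => Or.inr (by linarith))).intervalIntegrable _ _
          · exact continuous_const.intervalIntegrable _ _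
          · intro x hx
            apply Real.rpow_le_rpow (norm_nonneg _) _ (by linarith)
            rw [e1]
            exact A1 x hx.1
        rw [intervalIntegral.integral_const, smul_eq_mul, sub_zero] at h2
        linarith
      · intro x hx
        rw [e1, A2 x hx, norm_zero, Real.zero_rpow (by linarith)]
    have hE0 := hE p₀ C₀ hp0 hC0 O0
    have hE1 := hE p₁ C₁ hp1' hC1 O1
    have ie : ∀ r : ℝ, 0 < r → IntegrableOn (fun x => ‖UU n e x‖ ^ r) (Set.Ioi 0) := fun r hr =>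
      cintg (UU_cont hes) _ (UU_van hev) hr
    have ia : IntegrableOn (fun x => ‖UU n ha x‖ ^ p) (Set.Ioi 0) := cintg (UU_cont has) _ (UU_van hav) hp'
    have ih : IntegrableOn (fun x => ‖UU n h x‖ ^ p) (Set.Ioi 0) := cintg (UU_cont hh) _ huv hp'
    have hEp : ∫ x in Set.Ioi 0, ‖UU n e x‖ ^ p ≤ C₀ ^ p₀ * (ω ^ p₀ * (R + 1)) + C₁ ^ p₁ * (ω ^ p₁ * (R + 1)) := by
      have h1 : ∫ x in Set.Ioi 0, ‖UU n e x‖ ^ p ≤ ∫ x in Set.Ioi 0, (‖UU n e x‖ ^ p₀ + ‖UU n e x‖ ^ p₁) :=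
        integral_mono (ie p hp') ((ie p₀ (by linarith)).add (ie p₁ (by linarith)))
          fun x => rpow_le_add (norm_nonneg _) (by linarith) h01 h12
      rw [integral_add (ie p₀ (by linarith)) (ie p₁ (by linarith))] at h1
      linarith
    have hpt : ∀ x, ‖UU n h x‖ ^ p ≤ (1 + τ) ^ (p - 1) * ‖UU n ha x‖ ^ p + ((1 + τ) / τ) ^ (p - 1) * ‖UU n e x‖ ^ p := by
      intro x
      have h1 : UU n h x = UU n ha x + UU n e x := by
        rw [he, UU_sub n hh has x]; ring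
      have h2 : ‖UU n h x‖ ≤ ‖UU n ha x‖ + ‖UU n e x‖ := by rw [h1]; exact norm_add_le _ _
      exact (Real.rpow_le_rpow (norm_nonneg _) h2 hp'.le).trans
        (two_split (norm_nonneg _) (norm_nonneg _) hτ (by linarith))
    have i1 : IntegrableOn (fun x => (1 + τ) ^ (p - 1) * ‖UU n ha x‖ ^ p) (Set.Ioi 0) := ia.const_mul _
    have i2 : IntegrableOn (fun x => ((1 + τ) / τ) ^ (p - 1) * ‖UU n e x‖ ^ p) (Set.Ioi 0) := (ie p hp').const_mul _
    have h3 : X ≤ ∫ x in Set.Ioi 0, ((1 + τ) ^ (p - 1) * ‖UU n ha x‖ ^ p + ((1 + τ) / τ) ^ (p - 1) * ‖UU n e x‖ ^ p) :=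
      integral_mono ih (i1.add i2) hpt
    rw [integral_add i1 i2, integral_const_mul, integral_const_mul] at h3
    have h4 := mul_le_mul_of_nonneg_left hA (by positivity : (0:ℝ) ≤ (1 + τ) ^ (p - 1))
    have h5 := mul_le_mul_of_nonneg_left hEp (by positivity : (0:ℝ) ≤ ((1 + τ) / τ) ^ (p - 1))
    linarith
  have step1 : ∀ τ, 0 < τ → X ≤ (1 + τ) ^ (p - 1) * (Cp ^ p * G) := by
    intro τ hτ
    have h1 := lim0 (X := X) (φ := fun ω => (1 + τ) ^ (p - 1) * (Cp ^ p * (G + (R + 1) * ω))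
      + ((1 + τ) / τ) ^ (p - 1) * (C₀ ^ p₀ * (ω ^ p₀ * (R + 1)) + C₁ ^ p₁ * (ω ^ p₁ * (R + 1)))) (by
        apply Continuous.continuousAt
        have c0 : Continuous fun ω : ℝ => ω ^ p₀ := Real.continuous_rpow_const (by linarith)
        have c1 : Continuous fun ω : ℝ => ω ^ p₁ := Real.continuous_rpow_const (by linarith)
        exact (continuous_const.mul (continuous_const.mul (continuous_const.add (continuous_const.mul continuous_id)))).add
          (continuous_const.mul ((continuous_const.mul (c0.mul continuous_const)).add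
            (continuous_const.mul (c1.mul continuous_const))))) (main τ hτ)
    rw [Real.zero_rpow (by linarith), Real.zero_rpow (by linarith)] at h1
    simpa using h1
  have h2 := lim0 (X := X) (φ := fun τ => (1 + τ) ^ (p - 1) * (Cp ^ p * G)) (by
    have c0 : Continuous fun τ : ℝ => (1 + τ) ^ (p - 1) :=
      (Real.continuous_rpow_const (by linarith)).comp (continuous_const.add continuous_id)
    exact (c0.mul continuous_const).continuousAt) (fun τ hτ _ => step1 τ hτ)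
  rw [add_zero, Real.one_rpow, one_mul] at h2
  exact h2

/-- cast of iterated derivatives -/
lemma iter_cast {f : ℝ → ℝ} (hf : ContDiff ℝ (⊤ : ℕ∞) f) (n : ℕ) :
    iteratedDeriv n (fun x : ℝ => (f x : ℂ)) = fun x : ℝ => ((iteratedDeriv n f x : ℝ) : ℂ) := by
  induction n with
  | zero => simp [iteratedDeriv_zero]
  | succ n ih =>
    rw [iteratedDeriv_succ, ih]
    funext x
    have h1 : HasDerivAt (iteratedDeriv n f) (iteratedDeriv (n + 1) f x) x := by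
      rw [iteratedDeriv_succ]
      exact ((hf.differentiable_iteratedDeriv n (by exact_mod_cast ENat.natCast_lt_top n)).differentiableAt).hasDerivAt
    exact h1.ofReal_comp.deriv

/-- interpolation of the one-dimensional inequalities -/
theorem interp {n : ℕ} (hn : 1 ≤ n) {p₀ p p₁ C₀ C₁ : ℝ} (hp0 : 1 < p₀) (h01 : p₀ < p) (h12 : p < p₁)
    (hC0 : 0 ≤ C₀) (hC1 : 0 ≤ C₁) (O0 : Y282.RB.OneD n p₀ C₀) (O1 : Y282.RB.OneD n p₁ C₁)
    {s : ℝ} (hs : s = (1 / p - 1 / p₁) / (1 / p₀ - 1 / p₁)) :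
    Y282.RB.OneD n p (C₁ ^ (1 - s) * C₀ ^ s) := by
  intro h hh hR
  obtain ⟨R, hR⟩ := hR
  have hhc : ContDiff ℝ (⊤ : ℕ∞) fun x : ℝ => (h x : ℂ) := Complex.ofRealCLM.contDiff.comp hh
  have key := interpC hn hp0 h01 h12 hC0 hC1 O0 O1 hs hhc ⟨R, fun x hx => by rw [hR x hx, Complex.ofReal_zero]⟩
  have e1 : ∀ x, UU n (fun x : ℝ => (h x : ℂ)) x = ((iteratedDeriv n (fun t => t ^ n * h t) x : ℝ) : ℂ) := by
    intro x
    unfold UU
    have e2 : (fun t : ℝ => (t : ℂ) ^ n * (h t : ℂ)) = fun t : ℝ => ((t ^ n * h t : ℝ) : ℂ) := by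
      funext t; push_cast; rfl
    have hf : ContDiff ℝ (⊤ : ℕ∞) (fun t : ℝ => t ^ n * h t) := (contDiff_id.pow n).mul hh
    rw [e2, iter_cast hf n]
  have e3 : ∀ x, GG n (fun x : ℝ => (h x : ℂ)) x = ((x ^ n * iteratedDeriv n h x : ℝ) : ℂ) := by
    intro x
    unfold GG
    rw [iter_cast hh n]
    push_cast
    rfl
  simp_rw [e1, e3, Complex.norm_real, Real.norm_eq_abs] at key
  exact key

end Pool.Agent.R227.IT
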