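import Pool.Agent.R227.IT6
import Pool.Agent.R227.BT15
import Pool.Agent.Y282.RB.B1
import Pool.Agent.Y282.RB.B2

/-!
# Powers of the Beurling transform on the angular class: `2 ≤ p ≤ 4` (helper227)
-/

set_option autoImplicit false

namespace Pool.Agent.R227.IT

open Finset MeasureTheory Filter Topology

lemma star_two (n : ℕ) : Y282.RB.Star n 2 := by
  intro γ
  have e1 : (2:ℝ) / 2 - 1 = 0 := by norm_num
  rw [e1, Real.rpow_zero, mul_one]
  have h2 : ∀ y : ℝ, |y| ^ (2:ℝ) = y ^ 2 := by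
    intro y
    rw [Real.rpow_two, sq_abs]
  rw [h2, h2]
  have e2 : ∀ j ∈ range n, Y282.RB.yy (1 / 2) γ j * (γ j - γ (j + 1)) = 1 / 2 * (γ j ^ 2 - γ (j + 1) ^ 2) := by
    intro j _
    unfold Y282.RB.yy
    have e3 : Y282.RB.th (1 / 2) j = 1 / 2 := by
      unfold Y282.RB.th
      have : (2 * (j : ℝ) + 1) ≠ 0 := by positivity
      field_simp
      ring
    rw [e3]
    ring
  rw [sum_congr rfl e2, ← mul_sum, sum_range_sub' (fun j => γ j ^ 2)]
  linarith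

lemma Cn_two (n : ℕ) : Y282.RB.Cn 2 n = 1 := by
  unfold Y282.RB.Cn
  refine prod_eq_one fun j _ => ?_
  have e1 : (j : ℝ) + 1 - 1 / 2 = j + 1 / 2 := by ring
  rw [e1]
  exact div_self (by positivity)

lemma oneD_two {n : ℕ} (hn : 1 ≤ n) : Y282.RB.OneD n 2 1 := by
  have := Y282.RB.B2.main Y282.RB.B1.main n 2 hn le_rfl (star_two n)
  rwa [Cn_two] at this

/-- interpolation between `2` and `4` -/
theorem oneD_up {n : ℕ} (hn : 1 ≤ n) {c : ℝ} (hc : 0 ≤ c) (O : Y282.RB.OneD n 4 (Real.sqrt c)) {p : ℝ}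
    (hp2 : 2 ≤ p) (hp4 : p ≤ 4) : Y282.RB.OneD n p (c ^ (1 - 2 / p)) := by
  rcases hp2.eq_or_lt with rfl | h2
  · have e1 : (1:ℝ) - 2 / 2 = 0 := by norm_num
    rw [e1, Real.rpow_zero]
    exact oneD_two hn
  rcases hp4.eq_or_lt with rfl | h4
  · have e1 : (1:ℝ) - 2 / 4 = 1 / 2 := by norm_num
    rw [e1, ← Real.sqrt_eq_rpow]
    exact O
  have hp0 : 0 < p := by linarith
  have key := interp hn (p₀ := 2) (p := p) (p₁ := 4) (C₀ := 1) (C₁ := Real.sqrt c) (by norm_num) h2 h4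
    (by norm_num) (Real.sqrt_nonneg c) (oneD_two hn) O (s := 4 / p - 1) (by field_simp; ring)
  rw [Real.one_rpow, mul_one, Real.sqrt_eq_rpow, ← Real.rpow_mul hc] at key
  have e2 : 1 / 2 * (1 - (4 / p - 1)) = 1 - 2 / p := by ring
  rwa [e2] at key

theorem oneD_nine {n : ℕ} (hn : 500 ≤ n) {p : ℝ} (hp2 : 2 ≤ p) (hp4 : p ≤ 4) :
    Y282.RB.OneD n p ((9 * (n : ℝ)) ^ (1 - 2 / p)) := by
  apply oneD_up (by omega) (by positivity) _ hp2 hp4
  have e1 : Real.sqrt (9 * (n : ℝ)) = 3 * Real.sqrt n := by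
    rw [Real.sqrt_mul (by norm_num)]
    congr 1
    rw [show (9:ℝ) = 3 ^ 2 by norm_num, Real.sqrt_sq (by norm_num)]
  rw [e1]
  exact BT.oneD hn

end Pool.Agent.R227.IT
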