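import Pool.Agent.Y282.RB.Stm

/-!
# Powers of the Beurling transform on the angular class: numerical comparison of constants (helper227)
-/

set_option autoImplicit false

namespace Pool.Agent.R227.IT

open Finset

lemma artanh_ge {z : ℝ} (h0 : 0 ≤ z) (h1 : z < 1) : 2 * z + 2 / 3 * z ^ 3 ≤ Real.log (1 + z) - Real.log (1 - z) := by
  have h := Real.hasSum_log_sub_log_of_abs_lt_one (x := z) (by rw [abs_of_nonneg h0]; exact h1)
  have h2 := sum_le_hasSum (range 2) (fun k _ => by positivity) h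
  rw [sum_range_succ, sum_range_one] at h2
  norm_num at h2
  linarith

lemma artanh_ge' {z : ℝ} (h0 : 0 ≤ z) (h1 : z < 1) : 2 * z ≤ Real.log (1 + z) - Real.log (1 - z) := by
  have h := artanh_ge h0 h1
  have : 0 ≤ 2 / 3 * z ^ 3 := by positivity
  linarith

lemma log_step {n : ℝ} (hn : 0 < n) :
    Real.log ((n + 1) / n) ≤ 1 / (n + 1 / 2) + 1 / 16 * (1 / n ^ 2 - 1 / (n + 1) ^ 2) := by
  set q : ℝ := (n + 1) / n with hq
  have hq1 : 1 < q := by rw [hq, lt_div_iff₀ hn]; linarith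
  set y : ℝ := Real.sqrt q with hy
  have hy2 : y ^ 2 = q := Real.sq_sqrt (by linarith)
  have hy0 : 0 < y := Real.sqrt_pos.2 (by linarith)
  have hy1 : 1 ≤ y := by
    rw [hy]
    exact Real.one_le_sqrt.2 hq1.le
  have h1 : Real.log q = 2 * Real.log y := by rw [← hy2, Real.log_pow]; norm_num
  have h2 : Real.log y ≤ (y - y⁻¹) / 2 := by
    rw [← Real.sinh_log hy0]
    exact Real.self_le_sinh_iff.2 (Real.log_nonneg hy1)
  set m : ℝ := n + 1 / 2 with hm
  have hm0 : 0 < m := by positivity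
  set N : ℝ := n * (n + 1) with hN
  have hN0 : 0 < N := by positivity
  have hmN : m ^ 2 = N + 1 / 4 := by rw [hm, hN]; ring
  set r : ℝ := 1 / m + 1 / 16 * (1 / n ^ 2 - 1 / (n + 1) ^ 2) with hr
  have hr1 : r = 1 / m + m / (8 * N ^ 2) := by
    rw [hr, hN, hm]
    field_simp
    ring
  have hr0 : 0 < r := by rw [hr1]; positivity
  have h4 : 1 / N ≤ r ^ 2 := by
    have e1 : r ^ 2 = 1 / m ^ 2 + 1 / (4 * N ^ 2) + (m / (8 * N ^ 2)) ^ 2 := by
      rw [hr1]
      field_simp
      ring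
    have e2 : 1 / N ≤ 1 / m ^ 2 + 1 / (4 * N ^ 2) := by
      rw [hmN, div_add_div _ _ (by positivity) (by positivity), div_le_div_iff₀ hN0 (by positivity)]
      nlinarith [hN0, mul_pos hN0 hN0]
    have e3 : 0 ≤ (m / (8 * N ^ 2)) ^ 2 := by positivity
    linarith
  have h3 : y - y⁻¹ ≤ r := by
    have e : y - y⁻¹ = (1 / n) / y := by
      have : y - y⁻¹ = (y ^ 2 - 1) / y := by field_simp
      rw [this, hy2, hq]
      congr 1
      field_simp
      ring
    rw [e, div_le_iff₀ hy0]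
    have e5 : (1 / n) ^ 2 ≤ (r * y) ^ 2 := by
      rw [mul_pow, hy2, hq]
      have : (1 / n) ^ 2 = 1 / N * ((n + 1) / n) := by rw [hN]; field_simp
      rw [this]
      exact mul_le_mul_of_nonneg_right h4 (by positivity)
    exact le_of_sq_le_sq e5 (by positivity)
  rw [h1]
  linarith

lemma fac {p : ℝ} (hp2 : 2 ≤ p) (n : ℕ) :
    (1 - 2 / p) / ((n : ℝ) + 1 / 2) ≤ Real.log (((n : ℝ) + 1 - 1 / p) / ((n : ℝ) + 1 / p)) := by
  have hp0 : 0 < p := by linarith
  have hn : (0:ℝ) ≤ n := Nat.cast_nonneg n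
  have hx0 : 0 ≤ 1 - 2 / p := by
    rw [sub_nonneg, div_le_one hp0]; exact hp2
  have hx1 : 1 - 2 / p < 1 := by
    have : 0 < 2 / p := by positivity
    linarith
  set z : ℝ := (1 - 2 / p) / (2 * n + 1) with hz
  have hz0 : 0 ≤ z := by positivity
  have hz1 : z < 1 := by
    rw [hz, div_lt_one (by positivity)]
    linarith
  have h := artanh_ge' hz0 hz1
  rw [← Real.log_div (by linarith) (by linarith)] at h
  have e1 : (1 + z) / (1 - z) = ((n : ℝ) + 1 - 1 / p) / ((n : ℝ) + 1 / p) := by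
    have hd : (2 * (n : ℝ) + 1) ≠ 0 := by positivity
    have hd2 : (n : ℝ) + 1 / p ≠ 0 := by positivity
    have hd3 : 1 - z ≠ 0 := (by linarith : (0:ℝ) < 1 - z).ne'
    rw [div_eq_div_iff hd3 hd2, hz]
    field_simp
    ring
  rw [e1] at h
  refine le_trans (le_of_eq ?_) h
  rw [hz]
  have hd : (2 * (n : ℝ) + 1) ≠ 0 := by positivity
  field_simp

lemma Cn_succ' (p : ℝ) (n : ℕ) : Y282.RB.Cn p (n + 1) = Y282.RB.Cn p n * (((n : ℝ) + 1 - 1 / p) / ((n : ℝ) + 1 / p)) := by
  unfold Y282.RB.Cn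
  rw [prod_range_succ]

lemma Cn_pos {p : ℝ} (hp2 : 2 ≤ p) (n : ℕ) : 0 < Y282.RB.Cn p n := by
  unfold Y282.RB.Cn
  refine prod_pos fun j _ => ?_
  have h1 : (1 : ℝ) / p < 1 := by rw [div_lt_one (by linarith)]; linarith
  have h2 : (0 : ℝ) < 1 / p := by positivity
  have h3 : (0 : ℝ) ≤ (j : ℝ) := Nat.cast_nonneg j
  apply div_pos <;> linarith

lemma logK {p : ℝ} (hp2 : 2 ≤ p) {n : ℕ} (hn : 2 ≤ n) :
    Real.log (p - 1) + (1 - 2 / p) * (2 / 3 + Real.log n - Real.log 2 - 1 / 16 * (1 / 4 - 1 / (n : ℝ) ^ 2))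
      ≤ Real.log (Y282.RB.Cn p n) := by
  have hp0 : 0 < p := by linarith
  have hx0 : 0 ≤ 1 - 2 / p := by
    rw [sub_nonneg, div_le_one hp0]; exact hp2
  induction n, hn using Nat.le_induction with
  | base =>
    have h1 : Y282.RB.Cn p 2 = (p - 1) * (((1 : ℕ) : ℝ) + 1 - 1 / p) / (((1 : ℕ) : ℝ) + 1 / p) := by
      rw [Cn_succ' p 1, Cn_succ' p 0]
      unfold Y282.RB.Cn
      rw [prod_range_zero]
      push_cast
      field_simp
      ring
    have h2 := fac hp2 1
    have h3 : (0:ℝ) < (((1 : ℕ) : ℝ) + 1 - 1 / p) := by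
      have : (1 : ℝ) / p < 1 := by rw [div_lt_one (by linarith)]; linarith
      push_cast; linarith
    have h4 : (0:ℝ) < (((1 : ℕ) : ℝ) + 1 / p) := by positivity
    rw [h1, mul_div_assoc, Real.log_mul (by linarith) (by positivity)]
    push_cast at h2 ⊢
    have e1 : (1 - 2 / p) * (2 / 3 + Real.log 2 - Real.log 2 - 1 / 16 * (1 / 4 - 1 / 2 ^ 2)) = (1 - 2 / p) / (1 + 1 / 2) := by
      norm_num
      ring
    rw [e1]
    linarith
  | succ n hn ih =>
    have hn0 : (0:ℝ) < n := by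
      have : 0 < n := by omega
      exact_mod_cast this
    have h1 := fac hp2 n
    have h2 := log_step hn0
    have h3 : (0:ℝ) < ((n : ℝ) + 1 - 1 / p) / ((n : ℝ) + 1 / p) := by
      have : (1 : ℝ) / p < 1 := by rw [div_lt_one (by linarith)]; linarith
      apply div_pos
      · linarith
      · positivity
    rw [Cn_succ', Real.log_mul (Cn_pos hp2 n).ne' h3.ne']
    rw [Real.log_div (by positivity) hn0.ne'] at h2
    push_cast
    have h4 := mul_le_mul_of_nonneg_left h2 hx0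
    have e1 : (1 - 2 / p) / ((n : ℝ) + 1 / 2) = (1 - 2 / p) * (1 / ((n : ℝ) + 1 / 2)) := by ring
    rw [e1] at h1
    nlinarith

lemma log_nine : Real.log 9 ≤ 219780 / 100000 := by
  have h1 : (9:ℝ) ^ 41 ≤ 2 ^ 130 := by norm_num
  have h2 := Real.log_le_log (by positivity) h1
  rw [Real.log_pow, Real.log_pow] at h2
  have h3 := Real.log_two_lt_d9
  push_cast at h2
  linarith

lemma log_ratio {c : ℝ} (hc : 0 ≤ c) : 2 * (c / (2 + c)) ≤ Real.log (1 + c) := by
  have h1 : c / (2 + c) < 1 := by rw [div_lt_one (by linarith)]; linarith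
  have h := artanh_ge' (z := c / (2 + c)) (by positivity) h1
  rw [← Real.log_div (by positivity) (by linarith)] at h
  have e1 : (1 + c / (2 + c)) / (1 - c / (2 + c)) = 1 + c := by
    have hd : (2 + c) ≠ 0 := (by linarith : (0:ℝ) < 2 + c).ne'
    have hd3 : 1 - c / (2 + c) ≠ 0 := (by linarith : (0:ℝ) < 1 - c / (2 + c)).ne'
    rw [div_eq_iff hd3]
    field_simp
    ring
  rwa [e1] at h

lemma log_pm {p : ℝ} (hp2 : 2 ≤ p) : 2 * (1 - 2 / p) + 2 / 3 * (1 - 2 / p) ^ 3 ≤ Real.log (p - 1) := by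
  have hp0 : 0 < p := by linarith
  have hx0 : 0 ≤ 1 - 2 / p := by
    rw [sub_nonneg, div_le_one hp0]; exact hp2
  have hx1 : 1 - 2 / p < 1 := by
    have : 0 < 2 / p := by positivity
    linarith
  have h := artanh_ge hx0 hx1
  rw [← Real.log_div (by linarith) (by linarith)] at h
  have e1 : (1 + (1 - 2 / p)) / (1 - (1 - 2 / p)) = p - 1 := by
    field_simp
    ring
  rwa [e1] at h

lemma x_le {p : ℝ} (hp2 : 2 ≤ p) (hp4 : p ≤ 4) : 1 - 2 / p ≤ 1 / 2 := by
  have hp0 : 0 < p := by linarith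
  have : 2 / 4 ≤ 2 / p := div_le_div_of_nonneg_left (by norm_num) hp0 hp4
  linarith

/-- comparison with the constant of the question on `n ^ (1 - 2/p) (p - 1)` -/
lemma N1 {p : ℝ} (hp2 : 2 ≤ p) {n : ℕ} (hn : 1 ≤ n) :
    (9 * (n : ℝ)) ^ (1 - 2 / p) ≤ 1.043 * ((n : ℝ) ^ (1 - 2 / p) * (p - 1)) := by
  have hp0 : 0 < p := by linarith
  have hx0 : 0 ≤ 1 - 2 / p := by
    rw [sub_nonneg, div_le_one hp0]; exact hp2
  have hn0 : (0:ℝ) < n := by exact_mod_cast hn
  rw [Real.mul_rpow (by norm_num) hn0.le]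
  have key : (9:ℝ) ^ (1 - 2 / p) ≤ 1.043 * (p - 1) := by
    have hpos : 0 < 1.043 * (p - 1) := by nlinarith
    rw [← Real.log_le_log_iff (by positivity) hpos, Real.log_rpow (by norm_num),
      Real.log_mul (by norm_num) (by linarith)]
    have h1 := log_pm hp2
    have h2 := log_nine
    have h3 := log_ratio (c := 0.043) (by norm_num)
    norm_num at h3 ⊢
    set x := 1 - 2 / p with hx
    have h4 := mul_le_mul_of_nonneg_left h2 hx0
    nlinarith [mul_nonneg (sq_nonneg (x - 3145 / 10000)) (by linarith : 0 ≤ x + 6290 / 10000)]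
  have h5 := mul_le_mul_of_nonneg_right key (by positivity : 0 ≤ (n : ℝ) ^ (1 - 2 / p))
  linarith

/-- comparison with the Pochhammer quotient -/
lemma N3 {p : ℝ} (hp2 : 2 ≤ p) {n : ℕ} (hn : 2 ≤ n) :
    (9 * (n : ℝ)) ^ (1 - 2 / p) ≤ 1.06 * Y282.RB.Cn p n := by
  have hp0 : 0 < p := by linarith
  have hx0 : 0 ≤ 1 - 2 / p := by
    rw [sub_nonneg, div_le_one hp0]; exact hp2
  have hn0 : (0:ℝ) < n := by
    have : 0 < n := by omega
    exact_mod_cast this
  have hC := Cn_pos hp2 n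
  have hpos : 0 < 1.06 * Y282.RB.Cn p n := by positivity
  rw [← Real.log_le_log_iff (by positivity) hpos, Real.log_rpow (by positivity),
    Real.log_mul (by norm_num) hn0.ne', Real.log_mul (by norm_num) hC.ne']
  have h1 := log_pm hp2
  have h2 := log_nine
  have h3 := log_ratio (c := 0.06) (by norm_num)
  have h4 := logK hp2 hn
  have h5 := Real.log_two_lt_d9
  norm_num at h3 ⊢
  set x := 1 - 2 / p with hx
  have h6 : 0 ≤ x * (1 / 16 * (1 / (n : ℝ) ^ 2)) := by positivity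
  have h7 := mul_le_mul_of_nonneg_left h2 hx0
  have h8 := mul_le_mul_of_nonneg_left h5.le hx0
  nlinarith [mul_nonneg (sq_nonneg (x - 3463 / 10000)) (by linarith : 0 ≤ x + 6926 / 10000)]

/-- comparison near `p = 4` -/
lemma N2 {p : ℝ} (hp2 : 395 / 100 ≤ p) (hp4 : p ≤ 4) {n : ℕ} (hn : 1 ≤ n) :
    ((89432 / 10000) * (n : ℝ)) ^ (1 - 2 / p) ≤ (n : ℝ) ^ (1 - 2 / p) * (p - 1) := by
  have hp0 : 0 < p := by linarith
  have hx0 : 0 ≤ 1 - 2 / p := by
    rw [sub_nonneg, div_le_one hp0]; linarith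
  have hn0 : (0:ℝ) < n := by exact_mod_cast hn
  rw [Real.mul_rpow (by norm_num) hn0.le, mul_comm]
  apply mul_le_mul_of_nonneg_left _ (by positivity)
  rw [← Real.log_le_log_iff (by positivity) (by linarith), Real.log_rpow (by norm_num)]
  set c : ℝ := Real.log (89432 / 10000) with hc
  have hc9 : c ≤ 219780 / 100000 := by
    refine le_trans (Real.log_le_log (by norm_num) (by norm_num)) log_nine
  have hc0 : 0 ≤ c := Real.log_nonneg (by norm_num)
  have h1 : 39 * c ≤ 79 * Real.log (295 / 100) := by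
    have h1 : ((89432 : ℝ) / 10000) ^ 39 ≤ (295 / 100) ^ 79 := by norm_num
    have h2 := Real.log_le_log (by positivity) h1
    rw [Real.log_pow, Real.log_pow] at h2
    push_cast at h2
    exact h2
  have h2 : Real.log (295 / 100) + (p - 395 / 100) / 3 ≤ Real.log (p - 1) := by
    have e1 : p - 1 = 295 / 100 * ((p - 1) / (295 / 100)) := by field_simp
    have e2 : Real.log (p - 1) = Real.log (295 / 100) + Real.log ((p - 1) / (295 / 100)) := by
      conv_lhs => rw [e1]
      rw [Real.log_mul (by norm_num)]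
      have : 0 < (p - 1) / (295 / 100) := by apply div_pos <;> linarith
      exact this.ne'
    have e3 := Real.one_sub_inv_le_log_of_pos (x := (p - 1) / (295 / 100)) (by apply div_pos <;> linarith)
    have e4 : 1 - ((p - 1) / (295 / 100))⁻¹ = (p - 395 / 100) / (p - 1) := by
      have : p - 1 ≠ 0 := (by linarith : (0:ℝ) < p - 1).ne'
      rw [inv_div]
      field_simp
      ring
    have e5 : (p - 395 / 100) / 3 ≤ (p - 395 / 100) / (p - 1) :=
      div_le_div_of_nonneg_left (by linarith) (by linarith) (by linarith)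
    rw [e4] at e3
    linarith
  have h3 : 1 - 2 / p ≤ 39 / 79 + 2 * (p - 395 / 100) / (395 / 100) ^ 2 := by
    have e1 : 1 - 2 / p = 39 / 79 + 2 * (p - 395 / 100) / (395 / 100 * p) := by
      field_simp
      ring
    rw [e1]
    have : 2 * (p - 395 / 100) / (395 / 100 * p) ≤ 2 * (p - 395 / 100) / (395 / 100) ^ 2 := by
      apply div_le_div_of_nonneg_left (by linarith) (by positivity)
      nlinarith
    linarith
  have h4 := mul_le_mul_of_nonneg_right h3 hc0
  have h5 : 2 * (p - 395 / 100) / (395 / 100) ^ 2 * c ≤ (p - 395 / 100) / 3 := by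
    have e1 : 2 * (p - 395 / 100) / (395 / 100) ^ 2 * c = (p - 395 / 100) * (2 / (395 / 100) ^ 2 * c) := by ring
    rw [e1]
    have e2 : 2 / (395 / 100) ^ 2 * c ≤ 1 / 3 := by norm_num at hc9 ⊢; linarith
    have := mul_le_mul_of_nonneg_left e2 (by linarith : 0 ≤ p - 395 / 100)
    linarith
  linarith

end Pool.Agent.R227.IT
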