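import Pool.Agent.R227.IT7
import Pool.Agent.R227.IT8
import Pool.Agent.R227.BT17
import Pool.Agent.R227.BT19
import Pool.Agent.Y282.RB.A
import Pool.Agent.Y282.RB.A1
import Pool.Agent.Y282.RB.A2
import Pool.Agent.Y282.RB.A3
import Pool.Agent.Y282.RB.A4
import Pool.Agent.Y282.RB.K

/-!
# Powers of the Beurling transform on the angular class, `2 ≤ p ≤ 4`: the plane (helper227)
-/

set_option autoImplicit false

namespace Pool.Agent.R227.IT

open MeasureTheory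

/-- from the half-line to all Schwartz functions of angular type `2 n` -/
theorem schw_of {n : ℕ} (hn : 1 ≤ n) {p C : ℝ} (hp : 2 ≤ p) (hC : 0 ≤ C) (O : Y282.RB.OneD n p C)
    (f : SchwartzMap ℂ ℂ) (hf : Y282.RB.Ang n f) :
    eLpNorm (Y282.RB.Tn n f) (ENNReal.ofReal p) (volume : Measure ℂ)
      ≤ ENNReal.ofReal C * eLpNorm (⇑f) (ENNReal.ofReal p) (volume : Measure ℂ) :=
  Y282.RB.K.main n p C hn hp hC
    (fun g hg hs => Y282.RB.A.main Y282.RB.A1.main Y282.RB.A2.main Y282.RB.A3.main Y282.RB.A4.main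
      n p C (by linarith) hC O g hg hs) f hf

theorem schw_nine {n : ℕ} (hn : 500 ≤ n) {p : ℝ} (hp2 : 2 ≤ p) (hp4 : p ≤ 4)
    (f : SchwartzMap ℂ ℂ) (hf : Y282.RB.Ang n f) :
    eLpNorm (Y282.RB.Tn n f) (ENNReal.ofReal p) (volume : Measure ℂ)
      ≤ ENNReal.ofReal ((9 * (n : ℝ)) ^ (1 - 2 / p)) * eLpNorm (⇑f) (ENNReal.ofReal p) (volume : Measure ℂ) :=
  schw_of (by omega) hp2 (by positivity) (oneD_nine hn hp2 hp4) f hf

theorem schw_large {n : ℕ} (hn : 10000 ≤ n) {p : ℝ} (hp2 : 2 ≤ p) (hp4 : p ≤ 4)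
    (f : SchwartzMap ℂ ℂ) (hf : Y282.RB.Ang n f) :
    eLpNorm (Y282.RB.Tn n f) (ENNReal.ofReal p) (volume : Measure ℂ)
      ≤ ENNReal.ofReal (((89432 / 10000) * (n : ℝ)) ^ (1 - 2 / p))
        * eLpNorm (⇑f) (ENNReal.ofReal p) (volume : Measure ℂ) :=
  schw_of (by omega) hp2 (by positivity)
    (oneD_up (by omega) (by positivity) (BT.oneD2 hn) hp2 hp4) f hf

end Pool.Agent.R227.IT
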