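import Mathlib

set_option autoImplicit false

open MeasureTheory Set
open scoped Topology ENNReal NNReal

namespace Pool.Agent.R227.LP

/-- logarithmic kernel -/
noncomputable def lk (x y : ℂ) : ℝ := -Real.log ‖x - y‖

/-- square integrable, vanishing outside the ball of radius `R` -/
structure Nice (R : ℝ) (u : ℂ → ℝ) : Prop where
  mem : MemLp u 2 volume
  van : ∀ x, R ≤ ‖x‖ → u x = 0

/-- logarithmic potential -/
noncomputable def pot (u : ℂ → ℝ) (x : ℂ) : ℝ := ∫ y, lk x y * u y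

lemma lk_comm (x y : ℂ) : lk x y = lk y x := by unfold lk; rw [norm_sub_rev]

lemma log_bound {a : ℝ} (ha : 0 ≤ a) : (Real.log a) ^ 2 ≤ 2 * a ^ 2 + 8 * a⁻¹ := by
  rcases ha.eq_or_lt with h | h
  · rw [← h]; simp
  · have h1 : Real.log a ≤ a := by have := Real.log_le_sub_one_of_pos h; linarith
    set s := Real.sqrt a with hs
    have hs0 : 0 < s := Real.sqrt_pos.mpr h
    have hsa : s ^ 2 = a := Real.sq_sqrt ha
    have h2 : -Real.log a ≤ 2 * s⁻¹ := by
      have h3 := Real.log_le_sub_one_of_pos (inv_pos.mpr hs0)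
      rw [Real.log_inv, hs, Real.log_sqrt ha] at h3
      rw [hs]
      linarith
    have h4 : |Real.log a| ≤ a + 2 * s⁻¹ := by
      rw [abs_le]
      have : 0 < s⁻¹ := inv_pos.mpr hs0
      constructor <;> linarith
    have h5 : (Real.log a) ^ 2 ≤ (a + 2 * s⁻¹) ^ 2 := by
      rw [← sq_abs]
      exact pow_le_pow_left₀ (abs_nonneg _) h4 2
    have h6 : (s⁻¹) ^ 2 = a⁻¹ := by rw [inv_pow, hsa]
    nlinarith [sq_nonneg (a - 2 * s⁻¹)]

lemma log_diff {a b : ℝ} (ha : 0 < a) (hb : 0 < b) :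
    |Real.log a - Real.log b| ≤ 2 * Real.sqrt |a - b| * ((Real.sqrt a)⁻¹ + (Real.sqrt b)⁻¹) := by
  wlog hab : b ≤ a generalizing a b
  · have := this hb ha (le_of_lt (not_le.mp hab))
    rw [abs_sub_comm, abs_sub_comm a b, add_comm (Real.sqrt a)⁻¹]
    exact this
  have h1 : 0 ≤ Real.log a - Real.log b := by
    have := Real.log_le_log hb hab
    linarith
  rw [abs_of_nonneg h1, abs_of_nonneg (by linarith : 0 ≤ a - b)]
  set s := Real.sqrt a with hs
  set t := Real.sqrt b with ht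
  have hs0 : 0 < s := Real.sqrt_pos.mpr ha
  have ht0 : 0 < t := Real.sqrt_pos.mpr hb
  have h2 : Real.log a - Real.log b = 2 * Real.log (s / t) := by
    rw [Real.log_div hs0.ne' ht0.ne', hs, ht, Real.log_sqrt ha.le, Real.log_sqrt hb.le]
    ring
  have h3 := Real.log_le_sub_one_of_pos (div_pos hs0 ht0)
  have h4 : s ≤ Real.sqrt (a - b) + t := by
    rw [hs]
    apply Real.sqrt_le_iff.mpr
    refine ⟨by positivity, ?_⟩
    have e1 := Real.sq_sqrt (by linarith : 0 ≤ a - b)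
    have e2 : t ^ 2 = b := Real.sq_sqrt hb.le
    nlinarith [Real.sqrt_nonneg (a - b)]
  have h5 : s / t - 1 ≤ Real.sqrt (a - b) * t⁻¹ := by
    rw [div_sub_one ht0.ne', div_eq_mul_inv]
    apply mul_le_mul_of_nonneg_right _ (inv_pos.mpr ht0).le
    linarith
  rw [h2]
  have h6 : 0 ≤ Real.sqrt (a - b) * s⁻¹ := by positivity
  nlinarith

lemma vol_real_ball : volume.real (Metric.ball (0 : ℂ) 1) = Real.pi := by
  rw [Measure.real, Complex.volume_ball]
  simp

/-- the integral of `1/|z|` over a disc -/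
lemma inv_norm_ball {D : ℝ} (hD : 0 < D) :
    Integrable (fun z : ℂ => (Metric.ball (0 : ℂ) D).indicator (fun z => ‖z‖⁻¹) z) ∧
    ∫ z : ℂ, (Metric.ball (0 : ℂ) D).indicator (fun z => ‖z‖⁻¹) z = 2 * Real.pi * D := by
  set f : ℝ → ℝ := fun ρ => if ρ < D then ρ⁻¹ else 0 with hf
  have hfint : IntegrableOn (fun y : ℝ => y ^ (Module.finrank ℝ ℂ - 1) • f y) (Ioi 0) ∧
      ∫ y in Ioi (0 : ℝ), y ^ (Module.finrank ℝ ℂ - 1) • f y = D := by
    have e1 : EqOn (fun y : ℝ => y ^ (Module.finrank ℝ ℂ - 1) • f y)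
        ((Iio D).indicator fun _ => (1:ℝ)) (Ioi 0) := by
      intro y hy
      simp only [Complex.finrank_real_complex, smul_eq_mul, hf, indicator, mem_Iio]
      have hy0 : y ≠ 0 := (mem_Ioi.mp hy).ne'
      split_ifs with h
      · simp [hy0]
      · simp
    constructor
    · rw [integrableOn_congr_fun e1 measurableSet_Ioi]
      rw [integrableOn_indicator_iff measurableSet_Iio]
      refine integrableOn_const ?_
      rw [inter_comm, Ioi_inter_Iio]
      simp
    · rw [setIntegral_congr_fun measurableSet_Ioi e1, setIntegral_indicator measurableSet_Iio,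
        Ioi_inter_Iio]
      simp [hD.le]
  have hI : Integrable (fun z : ℂ => f ‖z‖) := (integrable_fun_norm_addHaar volume).mpr hfint.1
  have hIv : ∫ z : ℂ, f ‖z‖ = 2 * Real.pi * D := by
    rw [integral_fun_norm_addHaar volume f, hfint.2, vol_real_ball]
    simp
    ring
  have e : (fun z : ℂ => (Metric.ball (0 : ℂ) D).indicator (fun z => ‖z‖⁻¹) z) = fun z => f ‖z‖ := by
    ext z
    simp only [indicator, Metric.mem_ball, dist_zero_right, hf]
  rw [e]
  exact ⟨hI, hIv⟩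

/-- the integral of `1/|x-y|` over `|x-y| < D` -/
lemma inv_norm_ball' (x : ℂ) {D : ℝ} (hD : 0 < D) :
    Integrable (fun y : ℂ => (Metric.ball x D).indicator (fun y => ‖x - y‖⁻¹) y) ∧
    ∫ y : ℂ, (Metric.ball x D).indicator (fun y => ‖x - y‖⁻¹) y = 2 * Real.pi * D := by
  have h := inv_norm_ball hD
  have e : (fun y : ℂ => (Metric.ball x D).indicator (fun y => ‖x - y‖⁻¹) y)
      = fun y => (fun z : ℂ => (Metric.ball (0 : ℂ) D).indicator (fun z => ‖z‖⁻¹) z) (x - y) := by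
    ext y
    simp only [indicator, Metric.mem_ball, dist_eq_norm, norm_sub_rev y x, sub_zero]
  rw [e]
  exact ⟨h.1.comp_sub_left x, by rw [integral_sub_left_eq_self (fun z : ℂ =>
    (Metric.ball (0 : ℂ) D).indicator (fun z => ‖z‖⁻¹) z) volume x]; exact h.2⟩

lemma ball_sub (x : ℂ) (R : ℝ) : Metric.ball (0 : ℂ) R ⊆ Metric.ball x (‖x‖ + R) := by
  intro y hy
  rw [Metric.mem_ball, dist_zero_right] at hy
  rw [Metric.mem_ball, dist_eq_norm]
  calc ‖y - x‖ ≤ ‖y‖ + ‖x‖ := norm_sub_le _ _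
    _ < ‖x‖ + R := by linarith

/-- integral of `1/|x-y|` over `|y| < R` -/
lemma inv_int (x : ℂ) {R : ℝ} (hR : 0 < R) :
    IntegrableOn (fun y : ℂ => ‖x - y‖⁻¹) (Metric.ball 0 R) ∧
    ∫ y in Metric.ball (0 : ℂ) R, ‖x - y‖⁻¹ ≤ 2 * Real.pi * (‖x‖ + R) := by
  have hD : 0 < ‖x‖ + R := by positivity
  have h := inv_norm_ball' x hD
  have h1 : IntegrableOn (fun y : ℂ => ‖x - y‖⁻¹) (Metric.ball x (‖x‖ + R)) :=
    (integrable_indicator_iff measurableSet_ball).mp h.1
  refine ⟨h1.mono_set (ball_sub x R), ?_⟩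
  rw [← h.2, integral_indicator measurableSet_ball]
  apply setIntegral_mono_set h1
  · exact Filter.Eventually.of_forall fun y => by positivity
  · exact (ball_sub x R).eventuallyLE

lemma meas_lk (x : ℂ) : Measurable (fun y => lk x y) := by
  unfold lk
  fun_prop

/-- the kernel slice is in `L²` of a ball -/
lemma lk_memLp (x : ℂ) {R : ℝ} (hR : 0 < R) :
    MemLp ((Metric.ball (0 : ℂ) R).indicator (fun y => lk x y)) 2 volume ∧
    ∫ y, ((Metric.ball (0 : ℂ) R).indicator (fun y => lk x y) y) ^ 2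
      ≤ 2 * Real.pi * (‖x‖ + R) ^ 2 * R ^ 2 + 16 * Real.pi * (‖x‖ + R) := by
  have hD : 0 < ‖x‖ + R := by positivity
  have hm : Measurable ((Metric.ball (0 : ℂ) R).indicator (fun y => lk x y)) :=
    (meas_lk x).indicator measurableSet_ball
  have hi := inv_int x hR
  have hfin : volume (Metric.ball (0 : ℂ) R) ≠ ⊤ := measure_ball_lt_top.ne
  have hvol : volume.real (Metric.ball (0 : ℂ) R) = Real.pi * R ^ 2 := by
    rw [Measure.real, Complex.volume_ball]
    rw [ENNReal.toReal_mul, ENNReal.toReal_pow, ENNReal.toReal_ofReal hR.le]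
    simp
    ring
  have hb : ∀ y ∈ Metric.ball (0 : ℂ) R, (lk x y) ^ 2 ≤ 2 * (‖x‖ + R) ^ 2 + 8 * ‖x - y‖⁻¹ := by
    intro y hy
    unfold lk
    rw [neg_sq]
    have h1 := log_bound (norm_nonneg (x - y))
    have h2 : ‖x - y‖ ≤ ‖x‖ + R := by
      rw [Metric.mem_ball, dist_zero_right] at hy
      exact (norm_sub_le _ _).trans (by linarith)
    nlinarith [norm_nonneg (x - y)]
  have hI : IntegrableOn (fun y => 2 * (‖x‖ + R) ^ 2 + 8 * ‖x - y‖⁻¹) (Metric.ball (0 : ℂ) R) :=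
    (integrableOn_const hfin).add (hi.1.const_mul 8)
  have hI2 : IntegrableOn (fun y => (lk x y) ^ 2) (Metric.ball (0 : ℂ) R) := by
    refine hI.mono' ((meas_lk x).pow_const 2).aestronglyMeasurable ?_
    filter_upwards [ae_restrict_mem measurableSet_ball] with y hy
    rw [Real.norm_eq_abs, abs_of_nonneg (sq_nonneg _)]
    exact hb y hy
  have e : (fun y => ((Metric.ball (0 : ℂ) R).indicator (fun y => lk x y) y) ^ 2)
      = (Metric.ball (0 : ℂ) R).indicator (fun y => (lk x y) ^ 2) := by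
    ext y
    simp only [indicator]
    split_ifs <;> simp
  constructor
  · rw [memLp_two_iff_integrable_sq hm.aestronglyMeasurable, e,
      integrable_indicator_iff measurableSet_ball]
    exact hI2
  · rw [e, integral_indicator measurableSet_ball]
    calc ∫ y in Metric.ball (0 : ℂ) R, (lk x y) ^ 2
        ≤ ∫ y in Metric.ball (0 : ℂ) R, (2 * (‖x‖ + R) ^ 2 + 8 * ‖x - y‖⁻¹) :=
          setIntegral_mono_on hI2 hI measurableSet_ball hb
      _ = 2 * (‖x‖ + R) ^ 2 * (Real.pi * R ^ 2) + 8 * ∫ y in Metric.ball (0 : ℂ) R, ‖x - y‖⁻¹ := by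
          have hc : Integrable (fun _ : ℂ => 2 * (‖x‖ + R) ^ 2) (volume.restrict (Metric.ball (0 : ℂ) R)) :=
            integrableOn_const hfin
          rw [integral_add hc (hi.1.const_mul 8), setIntegral_const,
            integral_const_mul, hvol, smul_eq_mul]
          ring
      _ ≤ 2 * (‖x‖ + R) ^ 2 * (Real.pi * R ^ 2) + 8 * (2 * Real.pi * (‖x‖ + R)) := by
          linarith [hi.2]
      _ = _ := by ring

lemma Nice.eq_ind {R : ℝ} {u : ℂ → ℝ} (hu : Nice R u) (x y : ℂ) :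
    lk x y * u y = (Metric.ball (0 : ℂ) R).indicator (fun y => lk x y) y * u y := by
  by_cases hy : y ∈ Metric.ball (0 : ℂ) R
  · rw [indicator_of_mem hy]
  · rw [hu.van y (by simpa using hy)]; simp

lemma Nice.int {R : ℝ} (hR : 0 < R) {u : ℂ → ℝ} (hu : Nice R u) (x : ℂ) :
    Integrable (fun y => lk x y * u y) := by
  have h := (lk_memLp x hR).1.integrable_mul hu.mem
  refine h.congr (Filter.Eventually.of_forall fun y => ?_)
  exact (hu.eq_ind x y).symm

lemma Nice.int_sq {R : ℝ} {u : ℂ → ℝ} (hu : Nice R u) : Integrable (fun y => u y ^ 2) :=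
  (memLp_two_iff_integrable_sq hu.mem.1).mp hu.mem

lemma Nice.integrable {R : ℝ} {u : ℂ → ℝ} (hu : Nice R u) : Integrable u := by
  have h1 : IntegrableOn u (Metric.ball 0 R) := by
    have : IsFiniteMeasure (volume.restrict (Metric.ball (0:ℂ) R)) :=
      ⟨by rw [Measure.restrict_apply_univ]; exact measure_ball_lt_top⟩
    exact (hu.mem.restrict _).integrable (by norm_num)
  have h2 : u = (Metric.ball (0:ℂ) R).indicator u := by
    ext y
    by_cases hy : y ∈ Metric.ball (0 : ℂ) R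
    · rw [indicator_of_mem hy]
    · rw [indicator_of_notMem hy, hu.van y (by simpa using hy)]
  rw [h2, integrable_indicator_iff measurableSet_ball]
  exact h1

/-- bound for `∫ |x-y|^{-1/2} |u(y)| dy` -/
lemma Nice.half {R : ℝ} (hR : 0 < R) {u : ℂ → ℝ} (hu : Nice R u) (x : ℂ) :
    Integrable (fun y => (Real.sqrt ‖x - y‖)⁻¹ * |u y|) ∧
    ∫ y, (Real.sqrt ‖x - y‖)⁻¹ * |u y| ≤ Real.pi * (‖x‖ + R) + ∫ y, u y ^ 2 := by
  have hi := inv_int x hR
  have hi' : Integrable ((Metric.ball (0 : ℂ) R).indicator (fun y => ‖x - y‖⁻¹)) :=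
    (integrable_indicator_iff measurableSet_ball).mpr hi.1
  have hb : ∀ y, (Real.sqrt ‖x - y‖)⁻¹ * |u y| ≤
      (1 / 2) * (Metric.ball (0 : ℂ) R).indicator (fun y => ‖x - y‖⁻¹) y + (1 / 2) * u y ^ 2 := by
    intro y
    by_cases hy : y ∈ Metric.ball (0 : ℂ) R
    · rw [indicator_of_mem hy]
      have h1 : ((Real.sqrt ‖x - y‖)⁻¹) ^ 2 = ‖x - y‖⁻¹ := by
        rw [inv_pow, Real.sq_sqrt (norm_nonneg _)]
      rw [← h1, ← sq_abs (u y)]
      nlinarith [sq_nonneg ((Real.sqrt ‖x - y‖)⁻¹ - |u y|)]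
    · rw [indicator_of_notMem hy, hu.van y (by simpa using hy)]; simp
  have hI : Integrable (fun y => (1 / 2) * (Metric.ball (0 : ℂ) R).indicator (fun y => ‖x - y‖⁻¹) y
      + (1 / 2) * u y ^ 2) := (hi'.const_mul _).add (hu.int_sq.const_mul _)
  have hm : AEStronglyMeasurable (fun y => (Real.sqrt ‖x - y‖)⁻¹ * |u y|) volume := by
    apply AEStronglyMeasurable.mul
    · exact (by fun_prop : Measurable (fun y : ℂ => (Real.sqrt ‖x - y‖)⁻¹)).aestronglyMeasurable
    · exact hu.mem.1.norm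
  have hI2 : Integrable (fun y => (Real.sqrt ‖x - y‖)⁻¹ * |u y|) := by
    refine hI.mono' hm (Filter.Eventually.of_forall fun y => ?_)
    rw [Real.norm_eq_abs, abs_of_nonneg (by positivity)]
    exact hb y
  refine ⟨hI2, ?_⟩
  calc ∫ y, (Real.sqrt ‖x - y‖)⁻¹ * |u y|
      ≤ ∫ y, ((1 / 2) * (Metric.ball (0 : ℂ) R).indicator (fun y => ‖x - y‖⁻¹) y
      + (1 / 2) * u y ^ 2) := integral_mono hI2 hI hb
    _ = (1 / 2) * (∫ y in Metric.ball (0 : ℂ) R, ‖x - y‖⁻¹) + (1 / 2) * ∫ y, u y ^ 2 := by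
        rw [integral_add (hi'.const_mul _) (hu.int_sq.const_mul _), integral_const_mul,
          integral_const_mul, integral_indicator measurableSet_ball]
    _ ≤ Real.pi * (‖x‖ + R) + ∫ y, u y ^ 2 := by
        have : 0 ≤ ∫ y, u y ^ 2 := integral_nonneg fun y => sq_nonneg _
        nlinarith [hi.2]

/-- a local bound for the potential, absolute version -/
lemma Nice.pot_abs {R : ℝ} (hR : 0 < R) {u : ℂ → ℝ} (hu : Nice R u) (x : ℂ) :
    ∫ y, |lk x y * u y| ≤ Real.pi * (‖x‖ + R) ^ 2 * R ^ 2 + 8 * Real.pi * (‖x‖ + R) + ∫ y, u y ^ 2 := by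
  have h := lk_memLp x hR
  have h1 : Integrable (fun y => ((Metric.ball (0 : ℂ) R).indicator (fun y => lk x y) y) ^ 2) :=
    (memLp_two_iff_integrable_sq h.1.1).mp h.1
  have hI : Integrable (fun y => (1 / 2) * ((Metric.ball (0 : ℂ) R).indicator (fun y => lk x y) y) ^ 2
      + (1 / 2) * u y ^ 2) := (h1.const_mul _).add (hu.int_sq.const_mul _)
  calc ∫ y, |lk x y * u y|
      ≤ ∫ y, ((1 / 2) * ((Metric.ball (0 : ℂ) R).indicator (fun y => lk x y) y) ^ 2
        + (1 / 2) * u y ^ 2) := by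
        apply integral_mono (hu.int hR x).norm hI
        intro y
        simp only
        rw [hu.eq_ind, Real.norm_eq_abs, abs_mul]
        rw [← sq_abs (u y), ← sq_abs ((Metric.ball (0 : ℂ) R).indicator (fun y => lk x y) y)]
        nlinarith [sq_nonneg (|(Metric.ball (0 : ℂ) R).indicator (fun y => lk x y) y| - |u y|)]
    _ = (1 / 2) * (∫ y, ((Metric.ball (0 : ℂ) R).indicator (fun y => lk x y) y) ^ 2)
        + (1 / 2) * ∫ y, u y ^ 2 := by
        rw [integral_add (h1.const_mul _) (hu.int_sq.const_mul _), integral_const_mul,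
          integral_const_mul]
    _ ≤ _ := by
        have : 0 ≤ ∫ y, u y ^ 2 := integral_nonneg fun y => sq_nonneg _
        nlinarith [h.2]

/-- potentials are Hölder continuous -/
lemma Nice.holder {R : ℝ} (hR : 0 < R) {u : ℂ → ℝ} (hu : Nice R u) (x x' : ℂ) :
    |pot u x - pot u x'| ≤ 2 * Real.sqrt ‖x - x'‖ *
      (Real.pi * (‖x‖ + R) + Real.pi * (‖x'‖ + R) + 2 * ∫ y, u y ^ 2) := by
  unfold pot
  rw [← integral_sub (hu.int hR x) (hu.int hR x')]
  have h1 := hu.half hR x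
  have h2 := hu.half hR x'
  have hI : Integrable (fun y => 2 * Real.sqrt ‖x - x'‖ * ((Real.sqrt ‖x - y‖)⁻¹ * |u y| + (Real.sqrt ‖x' - y‖)⁻¹ * |u y|)) :=
    (h1.1.add h2.1).const_mul _
  calc |∫ y, (lk x y * u y - lk x' y * u y)|
      ≤ ∫ y, |lk x y * u y - lk x' y * u y| := abs_integral_le_integral_abs
    _ ≤ ∫ y, 2 * Real.sqrt ‖x - x'‖ * ((Real.sqrt ‖x - y‖)⁻¹ * |u y| + (Real.sqrt ‖x' - y‖)⁻¹ * |u y|) := by
        apply integral_mono_ae ((hu.int hR x).sub (hu.int hR x')).norm hI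
        have n1 : ∀ᵐ y : ℂ, y ≠ x := by
          rw [ae_iff]; simp
        have n2 : ∀ᵐ y : ℂ, y ≠ x' := by
          rw [ae_iff]; simp
        filter_upwards [n1, n2] with y hy1 hy2
        simp only [Real.norm_eq_abs, Pi.sub_apply]
        rw [← sub_mul, abs_mul, ← add_mul, ← mul_assoc]
        apply mul_le_mul_of_nonneg_right _ (abs_nonneg _)
        have p1 : 0 < ‖x - y‖ := norm_pos_iff.mpr (sub_ne_zero.mpr hy1.symm)
        have p2 : 0 < ‖x' - y‖ := norm_pos_iff.mpr (sub_ne_zero.mpr hy2.symm)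
        have h3 := log_diff p1 p2
        have h4 : |‖x - y‖ - ‖x' - y‖| ≤ ‖x - x'‖ := by
          have := abs_norm_sub_norm_le (x - y) (x' - y)
          simpa using this
        unfold lk
        rw [neg_sub_neg, abs_sub_comm]
        refine h3.trans ?_
        gcongr
    _ = 2 * Real.sqrt ‖x - x'‖ * ((∫ y, (Real.sqrt ‖x - y‖)⁻¹ * |u y|) + ∫ y, (Real.sqrt ‖x' - y‖)⁻¹ * |u y|) := by
        rw [integral_const_mul, integral_add h1.1 h2.1]
    _ ≤ _ := by
        apply mul_le_mul_of_nonneg_left _ (by positivity)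
        linarith [h1.2, h2.2]

lemma Nice.continuous {R : ℝ} (hR : 0 < R) {u : ℂ → ℝ} (hu : Nice R u) : Continuous (pot u) := by
  rw [continuous_iff_continuousAt]
  intro x
  rw [ContinuousAt, tendsto_iff_norm_sub_tendsto_zero]
  have h1 : Filter.Tendsto (fun y : ℂ => 2 * Real.sqrt ‖y - x‖ *
      (Real.pi * (‖y‖ + R) + Real.pi * (‖x‖ + R) + 2 * ∫ z, u z ^ 2)) (𝓝 x) (𝓝 0) := by
    have hc : Continuous (fun y : ℂ => 2 * Real.sqrt ‖y - x‖ *
      (Real.pi * (‖y‖ + R) + Real.pi * (‖x‖ + R) + 2 * ∫ z, u z ^ 2)) := by fun_prop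
    have := hc.tendsto x
    simpa using this
  refine squeeze_zero (fun y => norm_nonneg _) (fun y => ?_) h1
  rw [Real.norm_eq_abs]
  exact hu.holder hR y x

end Pool.Agent.R227.LP
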