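import Pool.Agent.R227.LP10

set_option autoImplicit false

open MeasureTheory Set
open scoped Topology ENNReal NNReal

namespace Pool.Agent.R227.LP

/-- product over ordered pairs -/
noncomputable def WW {n : ℕ} (z : Fin n → ℂ) : ℝ := ∏ i, ∏ j, if i = j then 1 else ‖z i - z j‖

lemma WW_nonneg {n : ℕ} (z : Fin n → ℂ) : 0 ≤ WW z := by
  unfold WW
  refine Finset.prod_nonneg fun i _ => Finset.prod_nonneg fun j _ => ?_
  split_ifs
  · norm_num
  · exact norm_nonneg _

lemma WW_eq {n : ℕ} (z : Fin n → ℂ) : WW z = (∏ i, ∏ j ∈ Finset.Ioi i, ‖z i - z j‖) ^ 2 := by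
  have h1 : ∀ i, ∏ j ∈ Finset.Ioi i, ‖z i - z j‖ = ∏ j, if i < j then ‖z i - z j‖ else 1 := by
    intro i
    rw [← Finset.prod_filter]
    congr 1
    ext j
    simp
  have h2 : ∏ i, ∏ j, (if j < i then ‖z i - z j‖ else 1) = ∏ i, ∏ j, (if i < j then ‖z i - z j‖ else 1) := by
    rw [Finset.prod_comm]
    refine Finset.prod_congr rfl fun i _ => Finset.prod_congr rfl fun j _ => ?_
    rw [norm_sub_rev]
  unfold WW
  simp_rw [h1]
  rw [sq]
  nth_rewrite 2 [← h2]
  rw [← Finset.prod_mul_distrib]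
  refine Finset.prod_congr rfl fun i _ => ?_
  rw [← Finset.prod_mul_distrib]
  refine Finset.prod_congr rfl fun j _ => ?_
  rcases lt_trichotomy i j with h | h | h
  · simp [h, h.ne, h.le]
  · simp [h]
  · simp [h, h.ne', h.le]

lemma V_nonneg {n : ℕ} (z : Fin n → ℂ) : 0 ≤ ∏ i, ∏ j ∈ Finset.Ioi i, ‖z i - z j‖ :=
  Finset.prod_nonneg fun i _ => Finset.prod_nonneg fun j _ => norm_nonneg _

lemma V_rpow {n : ℕ} (z : Fin n → ℂ) :
    (∏ i, ∏ j ∈ Finset.Ioi i, ‖z i - z j‖) ^ (2 / ((n : ℝ) * (n - 1)))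
      = WW z ^ (1 / ((n : ℝ) * (n - 1))) := by
  rw [WW_eq, ← Real.rpow_natCast _ 2, ← Real.rpow_mul (V_nonneg z)]
  congr 1
  push_cast
  ring

lemma diamN_nonneg (E : Set ℂ) (n : ℕ) : 0 ≤ diamN E n := by
  unfold diamN
  apply Real.sSup_nonneg
  rintro r ⟨z, -, rfl⟩
  exact Real.rpow_nonneg (V_nonneg z) _

lemma le_diamN {E : Set ℂ} {R : ℝ} (hE : E ⊆ Metric.closedBall 0 R) {n : ℕ} (hn : 2 ≤ n) (z : Fin n → ℂ)
    (hz : ∀ i, z i ∈ E) : WW z ≤ diamN E n ^ (n * (n - 1)) := by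
  have h1 : WW z ^ (1 / ((n : ℝ) * (n - 1))) ≤ diamN E n := by
    rw [← V_rpow]
    exact le_csSup (sup_bound hE n) ⟨z, hz, rfl⟩
  have hn' : (2:ℝ) ≤ n := by exact_mod_cast hn
  have hq : (0:ℝ) < (n : ℝ) * (n - 1) := by nlinarith
  have hcast : ((n * (n - 1) : ℕ) : ℝ) = (n : ℝ) * (n - 1) := by
    rw [Nat.cast_mul, Nat.cast_sub (by omega)]; norm_num
  have h2 := pow_le_pow_left₀ (Real.rpow_nonneg (WW_nonneg z) _) h1 (n * (n - 1))
  rw [← Real.rpow_natCast, ← Real.rpow_mul (WW_nonneg z), hcast, one_div,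
    inv_mul_cancel₀ hq.ne', Real.rpow_one] at h2
  exact h2

lemma diamN_le {E : Set ℂ} (hne : E.Nonempty) {n : ℕ} (hn : 2 ≤ n) {δ : ℝ} (hδ : 0 ≤ δ)
    (h : ∀ z : Fin n → ℂ, (∀ i, z i ∈ E) → WW z ≤ δ ^ (n * (n - 1))) : diamN E n ≤ δ := by
  unfold diamN
  apply csSup_le
  · obtain ⟨x, hx⟩ := hne
    exact ⟨_, fun _ => x, fun _ => hx, rfl⟩
  · rintro r ⟨z, hz, rfl⟩
    rw [V_rpow]
    have hn' : (2:ℝ) ≤ n := by exact_mod_cast hn
    have hq : (0:ℝ) < (n : ℝ) * (n - 1) := by nlinarith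
    have hcast : ((n * (n - 1) : ℕ) : ℝ) = (n : ℝ) * (n - 1) := by
      rw [Nat.cast_mul, Nat.cast_sub (by omega)]; norm_num
    calc WW z ^ (1 / ((n : ℝ) * (n - 1))) ≤ (δ ^ (n * (n - 1))) ^ (1 / ((n : ℝ) * (n - 1))) := by
          apply Real.rpow_le_rpow (WW_nonneg z) (h z hz) (by positivity)
      _ = δ := by
          rw [← Real.rpow_natCast δ, ← Real.rpow_mul hδ, hcast, mul_one_div, div_self hq.ne', Real.rpow_one]

/-- the deletion identity -/
lemma WW_del {n : ℕ} (z : Fin (n + 1) → ℂ) :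
    ∏ k, WW (fun i => z (Fin.succAbove k i)) = WW z ^ (n - 1) := by
  have h1 : ∀ k, WW (fun i => z (Fin.succAbove k i))
      = ∏ i, ∏ j, if (i = j ∨ i = k ∨ j = k) then 1 else ‖z i - z j‖ := by
    intro k
    rw [Fin.prod_univ_succAbove _ k]
    have e1 : ∏ j, (if (k = j ∨ k = k ∨ j = k) then (1:ℝ) else ‖z k - z j‖) = 1 := by simp
    rw [e1, one_mul]
    unfold WW
    refine Finset.prod_congr rfl fun i _ => ?_
    rw [Fin.prod_univ_succAbove _ k]
    simp only [or_true, if_true, one_mul]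
    refine Finset.prod_congr rfl fun j _ => ?_
    simp [Fin.succAbove_ne, (Fin.succAbove_right_injective).eq_iff]
  simp_rw [h1]
  rw [Finset.prod_comm]
  unfold WW
  rw [← Finset.prod_pow]
  refine Finset.prod_congr rfl fun i _ => ?_
  rw [Finset.prod_comm, ← Finset.prod_pow]
  refine Finset.prod_congr rfl fun j _ => ?_
  by_cases hij : i = j
  · simp [hij]
  · simp only [hij, false_or, if_false]
    rw [Finset.prod_ite, Finset.prod_const_one, one_mul, Finset.prod_const]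
    congr 1
    have : (Finset.univ.filter fun k : Fin (n + 1) => ¬ (i = k ∨ j = k)) = (Finset.univ.erase i).erase j := by
      ext k
      simp only [Finset.mem_filter, Finset.mem_univ, true_and, Finset.mem_erase, and_true]
      tauto
    rw [this, Finset.card_erase_of_mem (by simp [Ne.symm hij]), Finset.card_erase_of_mem (by simp)]
    simp

/-- the `n`-th diameters decrease -/
lemma diamN_succ_le {E : Set ℂ} {R : ℝ} (hE : E ⊆ Metric.closedBall 0 R) (hne : E.Nonempty) {n : ℕ}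
    (hn : 2 ≤ n) : diamN E (n + 1) ≤ diamN E n := by
  apply diamN_le hne (by omega) (diamN_nonneg E n)
  intro z hz
  have h1 : WW z ^ (n - 1) ≤ (diamN E n ^ ((n + 1) * (n + 1 - 1))) ^ (n - 1) := by
    rw [← WW_del]
    calc ∏ k, WW (fun i => z (Fin.succAbove k i)) ≤ ∏ _k : Fin (n + 1), diamN E n ^ (n * (n - 1)) := by
          apply Finset.prod_le_prod
          · intro k _; exact WW_nonneg _
          · intro k _; exact le_diamN hE hn _ fun i => hz _
      _ = _ := by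
          rw [Finset.prod_const, Finset.card_univ, Fintype.card_fin, ← pow_mul, ← pow_mul]
          congr 1
          simp only [add_tsub_cancel_right]
          ring
  exact le_of_pow_le_pow_left₀ (by omega) (pow_nonneg (diamN_nonneg E n) _) h1

/-- the transfinite diameter exists -/
theorem exists_tdiam {E : Set ℂ} {R : ℝ} (hE : E ⊆ Metric.closedBall 0 R) (hne : E.Nonempty) :
    ∃ T, Filter.Tendsto (diamN E) Filter.atTop (𝓝 T) ∧ ∀ b, (∀ n, 2 ≤ n → b ≤ diamN E n) → b ≤ T := by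
  have hanti : Antitone (fun n => diamN E (n + 2)) := by
    apply antitone_nat_of_succ_le
    intro n
    exact diamN_succ_le hE hne (by omega)
  have hbdd : BddBelow (range fun n => diamN E (n + 2)) := ⟨0, by
    rintro _ ⟨n, rfl⟩; exact diamN_nonneg _ _⟩
  have h1 := tendsto_atTop_ciInf hanti hbdd
  refine ⟨⨅ n, diamN E (n + 2), ?_, ?_⟩
  · exact (Filter.tendsto_add_atTop_iff_nat 2).mp h1
  · intro b hb
    exact le_ciInf fun n => hb (n + 2) (by omega)

end Pool.Agent.R227.LP
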