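import Pool.Agent.R227.LP11

set_option autoImplicit false

open MeasureTheory Set
open scoped Topology ENNReal NNReal Nat

namespace Pool.Agent.R227.LP

lemma sf_lower (m : ℕ) : ((m : ℝ) / (2 * Real.exp 1)) ^ (m * (m + 1)) ≤ (Nat.superFactorial m : ℝ) ^ 2 := by
  have h1 : (Nat.superFactorial m : ℝ) ^ 2 = ∏ k ∈ Finset.range (m + 1), ((k ! : ℝ) * ((m - k)! : ℝ)) := by
    rw [Finset.prod_mul_distrib, ← Nat.prod_range_succ_factorial]
    push_cast
    rw [sq]
    congr 1
    have := Finset.prod_range_reflect (fun k => (k ! : ℝ)) (m + 1)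
    rw [← this]
    refine Finset.prod_congr rfl fun k _ => ?_
    congr 2
  rw [h1]
  have h2 : ∀ k ∈ Finset.range (m + 1), ((m : ℝ) / (2 * Real.exp 1)) ^ m ≤ (k ! : ℝ) * ((m - k)! : ℝ) := by
    intro k hk
    have hk' : k ≤ m := by simpa [Nat.lt_succ_iff] using Finset.mem_range.mp hk
    have h3 : (m.choose k : ℝ) * (k ! : ℝ) * ((m - k)! : ℝ) = (m ! : ℝ) := by
      exact_mod_cast Nat.choose_mul_factorial_mul_factorial hk'
    have h4 : (m.choose k : ℝ) ≤ 2 ^ m := by exact_mod_cast Nat.choose_le_two_pow m k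
    have h5 : (m : ℝ) ^ m / (m ! : ℝ) ≤ Real.exp m := Real.pow_div_factorial_le_exp m (Nat.cast_nonneg m) m
    have hf : (0:ℝ) < (m ! : ℝ) := by exact_mod_cast Nat.factorial_pos m
    have h6 : (m : ℝ) ^ m ≤ Real.exp m * (m ! : ℝ) := by rwa [div_le_iff₀ hf] at h5
    have hkk : (0:ℝ) < (k ! : ℝ) * ((m - k)! : ℝ) := by
      have a : (0:ℝ) < (k ! : ℝ) := by exact_mod_cast Nat.factorial_pos k
      have b : (0:ℝ) < ((m - k)! : ℝ) := by exact_mod_cast Nat.factorial_pos (m - k)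
      positivity
    rw [div_pow, div_le_iff₀ (by positivity), mul_pow, ← Real.exp_nat_mul, mul_one]
    calc (m : ℝ) ^ m ≤ Real.exp m * (m ! : ℝ) := h6
      _ = Real.exp m * ((m.choose k : ℝ) * ((k ! : ℝ) * ((m - k)! : ℝ))) := by rw [← h3]; ring
      _ ≤ Real.exp m * (2 ^ m * ((k ! : ℝ) * ((m - k)! : ℝ))) := by gcongr
      _ = _ := by ring
  calc ((m : ℝ) / (2 * Real.exp 1)) ^ (m * (m + 1))
      = ∏ k ∈ Finset.range (m + 1), ((m : ℝ) / (2 * Real.exp 1)) ^ m := by
        rw [Finset.prod_const, Finset.card_range, pow_mul]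
    _ ≤ _ := Finset.prod_le_prod (fun k _ => by positivity) h2

/-- lower bound for the diameters of a segment -/
lemma seg_lower {E : Set ℂ} {R l : ℝ} (hE : E ⊆ Metric.closedBall 0 R) (hl : 0 < l)
    (hseg : ∀ t : ℝ, 0 ≤ t → t ≤ l → (t : ℂ) ∈ E) {n : ℕ} (hn : 2 ≤ n) :
    l / (4 * Real.exp 1) ≤ diamN E n := by
  obtain ⟨m, rfl⟩ : ∃ m, n = m + 1 := ⟨n - 1, by omega⟩
  have hm : 1 ≤ m := by omega
  set c : ℝ := l / (m + 1) with hc
  have hc0 : 0 < c := by positivity
  set z : Fin (m + 1) → ℂ := fun i => (((i : ℕ) : ℝ) * c : ℝ) with hz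
  have hzE : ∀ i, z i ∈ E := by
    intro i
    apply hseg
    · positivity
    · have : ((i : ℕ) : ℝ) ≤ m + 1 := by exact_mod_cast i.is_lt.le
      rw [hc, mul_div_assoc', div_le_iff₀ (by positivity)]
      nlinarith
  have hV : ∏ i, ∏ j ∈ Finset.Ioi i, ‖z i - z j‖
      = c ^ (∑ i : Fin (m + 1), (Finset.Ioi i).card) * (Nat.superFactorial m : ℝ) := by
    have h1 := Matrix.det_vandermonde_id_eq_superFactorial (R := ℝ) m
    rw [Matrix.det_vandermonde] at h1
    rw [← h1, ← Finset.prod_pow_eq_pow_sum, ← Finset.prod_mul_distrib]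
    refine Finset.prod_congr rfl fun i _ => ?_
    rw [← Finset.prod_const, ← Finset.prod_mul_distrib]
    refine Finset.prod_congr rfl fun j hj => ?_
    have hij0 : i < j := Finset.mem_Ioi.mp hj
    have hij : (i : ℕ) < (j : ℕ) := hij0
    have hij' : ((i : ℕ) : ℝ) < ((j : ℕ) : ℝ) := by exact_mod_cast hij
    simp only [hz]
    rw [← Complex.ofReal_sub, Complex.norm_real, Real.norm_eq_abs, abs_of_neg (by nlinarith)]
    ring
  have hW : WW z = c ^ ((m + 1) * m) * (Nat.superFactorial m : ℝ) ^ 2 := by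
    rw [WW_eq, hV, mul_pow, ← pow_mul]
    congr 2
    have := card_pairs (m + 1)
    have h2 : ((∑ i : Fin (m + 1), (Finset.Ioi i).card : ℕ) : ℝ) * 2 = ((m + 1) * m : ℕ) := by
      rw [this]; push_cast; ring
    exact_mod_cast h2
  have hlow : (l / (4 * Real.exp 1)) ^ ((m + 1) * (m + 1 - 1)) ≤ WW z := by
    rw [hW, add_tsub_cancel_right]
    have h1 := sf_lower m
    have hm' : (1:ℝ) ≤ m := by exact_mod_cast hm
    calc (l / (4 * Real.exp 1)) ^ ((m + 1) * m) ≤ (c * ((m : ℝ) / (2 * Real.exp 1))) ^ ((m + 1) * m) := by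
          apply pow_le_pow_left₀ (by positivity)
          rw [hc, div_mul_div_comm, div_le_div_iff₀ (by positivity) (by positivity)]
          have he := Real.exp_pos 1
          nlinarith [mul_pos hl he]
      _ = c ^ ((m + 1) * m) * ((m : ℝ) / (2 * Real.exp 1)) ^ (m * (m + 1)) := by
          rw [mul_pow, mul_comm m (m + 1)]
      _ ≤ _ := by gcongr
  have h3 := hlow.trans (le_diamN hE hn z hzE)
  exact le_of_pow_le_pow_left₀ (by
    have : 0 < (m + 1) * (m + 1 - 1) := by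
      rw [add_tsub_cancel_right]; positivity
    omega) (diamN_nonneg _ _) h3

end Pool.Agent.R227.LP
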