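import Pool.Agent.R227.LP12

set_option autoImplicit false

open MeasureTheory Set
open scoped Topology ENNReal NNReal RealInnerProductSpace

namespace Pool.Agent.R227.LP

lemma lk_le_inv (x y : ℂ) : lk x y ≤ ‖x - y‖⁻¹ := by
  unfold lk
  rcases (norm_nonneg (x - y)).eq_or_lt with h | h
  · rw [← h]; simp
  · rw [← Real.log_inv]
    have := Real.log_le_sub_one_of_pos (inv_pos.mpr h)
    linarith

lemma pot_one (B : Set ℂ) (hB : MeasurableSet B) (x : ℂ) :
    pot (B.indicator fun _ => 1) x = ∫ y in B, lk x y := by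
  unfold pot
  rw [← integral_indicator hB]
  congr 1
  ext y
  by_cases hy : y ∈ B
  · rw [indicator_of_mem hy, indicator_of_mem hy, mul_one]
  · rw [indicator_of_notMem hy, indicator_of_notMem hy, mul_zero]

lemma bf_one (B B' : Set ℂ) (hB : MeasurableSet B) (hB' : MeasurableSet B') :
    bf (B.indicator fun _ => 1) (B'.indicator fun _ => 1) = ∫ x in B', ∫ y in B, lk x y := by
  unfold bf
  rw [← integral_indicator hB']
  congr 1
  ext x
  rw [pot_one B hB]
  by_cases hx : x ∈ B'
  · rw [indicator_of_mem hx, indicator_of_mem hx, mul_one]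
  · rw [indicator_of_notMem hx, indicator_of_notMem hx, mul_zero]

lemma vol_ball1 (p : ℂ) {r : ℝ} (hr : 0 ≤ r) : volume.real (Metric.ball p r) = Real.pi * r ^ 2 := by
  rw [Measure.real, Complex.volume_ball]
  rw [ENNReal.toReal_mul, ENNReal.toReal_pow, ENNReal.toReal_ofReal hr]
  simp
  ring

lemma one_nice {B : Set ℂ} (hB : MeasurableSet B) {R : ℝ} (hBR : B ⊆ Metric.ball 0 R) :
    Nice R (B.indicator fun _ => 1) := by
  have := finite_restrict hBR
  exact nice_ind hB hBR (memLp_const 1)

lemma self_energy (p : ℂ) : bf ((Metric.ball p 1).indicator fun _ => 1)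
    ((Metric.ball p 1).indicator fun _ => 1) ≤ 4 * Real.pi ^ 2 := by
  rw [bf_one _ _ measurableSet_ball measurableSet_ball]
  have hpi := Real.pi_pos
  set R : ℝ := ‖p‖ + 2 with hR
  have hRp : 0 < R := by positivity
  have hsub : Metric.ball p 1 ⊆ Metric.ball 0 R := by
    intro x hx
    rw [Metric.mem_ball, dist_eq_norm] at hx
    rw [Metric.mem_ball, dist_zero_right]
    calc ‖x‖ = ‖(x - p) + p‖ := by rw [sub_add_cancel]
      _ ≤ ‖x - p‖ + ‖p‖ := norm_add_le _ _
      _ < R := by rw [hR]; linarith
  have hN := one_nice measurableSet_ball hsub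
  have h1 : ∀ x ∈ Metric.ball p 1, ∫ y in Metric.ball p 1, lk x y ≤ 4 * Real.pi := by
    intro x hx
    have h2 := inv_norm_ball' x (D := 2) (by norm_num)
    have h3 : IntegrableOn (fun y : ℂ => ‖x - y‖⁻¹) (Metric.ball x 2) :=
      (integrable_indicator_iff measurableSet_ball).mp h2.1
    have hs2 : Metric.ball p 1 ⊆ Metric.ball x 2 := by
      apply Metric.ball_subset_ball'
      rw [Metric.mem_ball, dist_comm] at hx
      linarith
    have hi : IntegrableOn (fun y => lk x y) (Metric.ball p 1) := by
      have h4 := hN.int hRp x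
      have h5 : (fun y => lk x y * (Metric.ball p 1).indicator (fun _ => (1:ℝ)) y)
          = (Metric.ball p 1).indicator (fun y => lk x y) := by
        ext y
        by_cases hy : y ∈ Metric.ball p 1
        · rw [indicator_of_mem hy, indicator_of_mem hy, mul_one]
        · rw [indicator_of_notMem hy, indicator_of_notMem hy, mul_zero]
      rw [h5] at h4
      exact (integrable_indicator_iff measurableSet_ball).mp h4
    calc ∫ y in Metric.ball p 1, lk x y ≤ ∫ y in Metric.ball p 1, ‖x - y‖⁻¹ :=
          setIntegral_mono hi (h3.mono_set hs2) fun y => lk_le_inv x y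
      _ ≤ ∫ y in Metric.ball x 2, ‖x - y‖⁻¹ :=
          setIntegral_mono_set h3 (Filter.Eventually.of_forall fun y => by positivity) hs2.eventuallyLE
      _ = 4 * Real.pi := by
          rw [← integral_indicator measurableSet_ball, h2.2]; ring
  have hcont : Continuous (fun x => ∫ y in Metric.ball p 1, lk x y) := by
    have := hN.continuous hRp
    have e : (fun x => ∫ y in Metric.ball p 1, lk x y) = pot ((Metric.ball p 1).indicator fun _ => 1) := by
      ext x; rw [pot_one _ measurableSet_ball]
    rw [e]; exact this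
  calc ∫ x in Metric.ball p 1, ∫ y in Metric.ball p 1, lk x y
      ≤ ∫ x in Metric.ball p 1, 4 * Real.pi := by
        apply setIntegral_mono_on _ (integrableOn_const measure_ball_lt_top.ne) measurableSet_ball h1
        exact (hcont.continuousOn.integrableOn_compact (isCompact_closedBall p 1)).mono_set
          Metric.ball_subset_closedBall
    _ = 4 * Real.pi ^ 2 := by
        rw [setIntegral_const, vol_ball1 p zero_le_one, smul_eq_mul]; ring

lemma cross_energy {p q : ℂ} {d L : ℝ} (hd : 0 < d) (hdL : L ≤ Real.log d) (hpq : d + 2 ≤ ‖p - q‖) :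
    bf ((Metric.ball q 1).indicator fun _ => 1)
    ((Metric.ball p 1).indicator fun _ => 1) ≤ -(L * Real.pi ^ 2) := by
  rw [bf_one _ _ measurableSet_ball measurableSet_ball]
  have hpi := Real.pi_pos
  have h0 : ∀ x ∈ Metric.ball p 1, ∀ y ∈ Metric.ball q 1, lk x y ≤ -L ∧ 0 < ‖x - y‖ := by
    intro x hx y hy
    rw [Metric.mem_ball, dist_eq_norm] at hx hy
    have h1 : ‖p - q‖ ≤ ‖x - p‖ + ‖x - y‖ + ‖y - q‖ := by
      have : p - q = -(x - p) + (x - y) + (y - q) := by ring
      rw [this]
      refine (norm_add₃_le).trans ?_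
      rw [norm_neg]
    have h2 : d ≤ ‖x - y‖ := by linarith
    constructor
    · unfold lk
      have := Real.log_le_log hd h2
      linarith
    · linarith
  have hcont : ∀ x ∈ Metric.ball p 1, IntegrableOn (fun y => lk x y) (Metric.ball q 1) := by
    intro x hx
    have hN := one_nice (R := ‖q‖ + 1 + 1) (measurableSet_ball (x := q) (ε := 1)) (by
      intro z hz
      rw [Metric.mem_ball, dist_eq_norm] at hz
      rw [Metric.mem_ball, dist_zero_right]
      calc ‖z‖ = ‖(z - q) + q‖ := by rw [sub_add_cancel]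
        _ ≤ ‖z - q‖ + ‖q‖ := norm_add_le _ _
        _ < ‖q‖ + 1 + 1 := by linarith)
    have h4 := hN.int (by positivity) x
    have h5 : (fun y => lk x y * (Metric.ball q 1).indicator (fun _ => (1:ℝ)) y)
        = (Metric.ball q 1).indicator (fun y => lk x y) := by
      ext y
      by_cases hy : y ∈ Metric.ball q 1
      · rw [indicator_of_mem hy, indicator_of_mem hy, mul_one]
      · rw [indicator_of_notMem hy, indicator_of_notMem hy, mul_zero]
    rw [h5] at h4
    exact (integrable_indicator_iff measurableSet_ball).mp h4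
  have h1 : ∀ x ∈ Metric.ball p 1, ∫ y in Metric.ball q 1, lk x y ≤ -L * Real.pi := by
    intro x hx
    calc ∫ y in Metric.ball q 1, lk x y ≤ ∫ y in Metric.ball q 1, -L :=
          setIntegral_mono_on (hcont x hx) (integrableOn_const measure_ball_lt_top.ne) measurableSet_ball
            fun y hy => (h0 x hx y hy).1
      _ = -L * Real.pi := by
          rw [setIntegral_const, vol_ball1 q zero_le_one, smul_eq_mul]; ring
  have hNq := one_nice (R := ‖q‖ + 1 + 1) (measurableSet_ball (x := q) (ε := 1)) (by
      intro z hz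
      rw [Metric.mem_ball, dist_eq_norm] at hz
      rw [Metric.mem_ball, dist_zero_right]
      calc ‖z‖ = ‖(z - q) + q‖ := by rw [sub_add_cancel]
        _ ≤ ‖z - q‖ + ‖q‖ := norm_add_le _ _
        _ < ‖q‖ + 1 + 1 := by linarith)
  have hcont2 : Continuous (fun x => ∫ y in Metric.ball q 1, lk x y) := by
    have := hNq.continuous (by positivity)
    have e : (fun x => ∫ y in Metric.ball q 1, lk x y) = pot ((Metric.ball q 1).indicator fun _ => 1) := by
      ext x; rw [pot_one _ measurableSet_ball]
    rw [e]; exact this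
  calc ∫ x in Metric.ball p 1, ∫ y in Metric.ball q 1, lk x y
      ≤ ∫ x in Metric.ball p 1, -L * Real.pi := by
        apply setIntegral_mono_on _ (integrableOn_const measure_ball_lt_top.ne) measurableSet_ball h1
        exact (hcont2.continuousOn.integrableOn_compact (isCompact_closedBall p 1)).mono_set
          Metric.ball_subset_closedBall
    _ = -(L * Real.pi ^ 2) := by
        rw [setIntegral_const, vol_ball1 p zero_le_one, smul_eq_mul]; ring

/-- a large disc has an eigenvalue at most `-π` -/
theorem disc_eig {R : ℝ} (hR : 200 ≤ R) : ∃ l ≤ -Real.pi, IsEig (Metric.ball 0 R) l := by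
  have hRp : 0 < R := by linarith
  have hpi := Real.pi_pos
  set D₁ := Metric.ball (100 : ℂ) 1 with hD₁
  set D₂ := Metric.ball (-100 : ℂ) 1 with hD₂
  have n100 : ‖(100 : ℂ)‖ = 100 := by norm_num
  have n100' : ‖(-100 : ℂ)‖ = 100 := by rw [norm_neg]; norm_num
  have s1 : D₁ ⊆ Metric.ball 0 R := by
    apply Metric.ball_subset_ball'
    rw [dist_zero_right, n100]; linarith
  have s2 : D₂ ⊆ Metric.ball 0 R := by
    apply Metric.ball_subset_ball'
    rw [dist_zero_right, n100']; linarith
  have N1 := one_nice (measurableSet_ball : MeasurableSet D₁) s1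
  have N2 := one_nice (measurableSet_ball : MeasurableSet D₂) s2
  have hlog : (5:ℝ) ≤ Real.log 198 := by
    rw [Real.le_log_iff_exp_le (by norm_num)]
    have h1 : Real.exp 5 = Real.exp 1 ^ 5 := by rw [← Real.exp_nat_mul]; norm_num
    rw [h1]
    have h2 := Real.exp_one_lt_d9
    have h3 : Real.exp 1 ^ 5 ≤ (2.8 : ℝ) ^ 5 := pow_le_pow_left₀ (Real.exp_pos 1).le (by linarith) 5
    norm_num at h3 ⊢
    linarith
  have c21 := cross_energy (p := 100) (q := -100) (d := 198) (L := 5) (by norm_num) hlog (by norm_num)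
  have e1 := self_energy (100 : ℂ)
  have e2 := self_energy (-100 : ℂ)
  set u₁ : ℂ → ℝ := D₁.indicator fun _ => 1 with hu₁
  set u₂ : ℂ → ℝ := D₂.indicator fun _ => 1 with hu₂
  have hdisj : ∀ x, u₁ x * u₂ x = 0 := by
    intro x
    by_cases h1 : x ∈ D₁
    · have h2 : x ∉ D₂ := by
        intro h2
        rw [hD₁, Metric.mem_ball, dist_eq_norm] at h1
        rw [hD₂, Metric.mem_ball, dist_eq_norm] at h2
        have h3 : ‖(200 : ℂ)‖ ≤ ‖x - (-100)‖ + ‖x - 100‖ := by
          have : (200 : ℂ) = (x - (-100)) - (x - 100) := by ring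
          rw [this]; exact norm_sub_le _ _
        norm_num at h3 h1 h2
        linarith
      simp only [hu₂]
      rw [indicator_of_notMem h2, mul_zero]
    · simp only [hu₁]
      rw [indicator_of_notMem h1, zero_mul]
  have hsq : ∫ x, (u₁ x + u₂ x) ^ 2 = 2 * Real.pi := by
    have h1 : ∀ x, (u₁ x + u₂ x) ^ 2 = u₁ x + u₂ x := by
      intro x
      have h2 : u₁ x ^ 2 = u₁ x := by
        simp only [hu₁, indicator]; split_ifs <;> norm_num
      have h3 : u₂ x ^ 2 = u₂ x := by
        simp only [hu₂, indicator]; split_ifs <;> norm_num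
      nlinarith [hdisj x]
    simp_rw [h1]
    rw [integral_add N1.integrable N2.integrable]
    simp only [hu₁, hu₂]
    rw [integral_indicator measurableSet_ball, integral_indicator measurableSet_ball,
      setIntegral_const, setIntegral_const, vol_ball1 _ zero_le_one, vol_ball1 _ zero_le_one]
    simp
    ring
  apply eig_of_form hRp measurableSet_ball Subset.rfl hpi (N1.add N2)
  · intro x hx
    simp only [hu₁, hu₂]
    rw [indicator_of_notMem (fun h => hx (s1 h)), indicator_of_notMem (fun h => hx (s2 h)), add_zero]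
  · intro h0
    have h1 : ∫ x, (u₁ x + u₂ x) ^ 2 = 0 := by
      apply integral_eq_zero_of_ae
      filter_upwards [h0] with x hx
      simp only [Pi.zero_apply] at hx ⊢
      change u₁ x + u₂ x = 0 at hx
      rw [hx]; norm_num
    rw [hsq] at h1
    linarith
  · rw [bf_expand hRp N1 N2, hsq]
    change bf u₁ u₁ + 2 * bf u₂ u₁ + bf u₂ u₂ ≤ _
    nlinarith

/-- eigenvalues are bounded by the square root of the area -/
theorem eig_bound {A : Set ℂ} (hA : MeasurableSet A) {R : ℝ} (hR : 0 < R) (hAR : A ⊆ Metric.ball 0 R)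
    {l : ℝ} (h : IsEig A l) : |l| ≤ Real.sqrt (volume A).toReal * kap R := by
  obtain ⟨v, hv⟩ := (isEig_iff hA hAR l).mp h
  obtain ⟨V, hV0, hV⟩ := hv.toLp hR hA hAR
  have hn : 0 < ‖V‖ := norm_pos_iff.mpr hV0
  have hk : 0 ≤ kap R := Real.sqrt_nonneg _
  have h1 : ‖op hR hA hAR V‖ ≤ Real.sqrt (volume A).toReal * kap R * ‖V‖ := by
    refine (ContinuousLinearMap.le_opNorm _ _).trans ?_
    apply mul_le_mul_of_nonneg_right _ (norm_nonneg _)
    exact LinearMap.mkContinuous_norm_le _ (by positivity) _
  rw [hV, norm_smul, Real.norm_eq_abs] at h1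
  exact le_of_mul_le_mul_right h1 hn

end Pool.Agent.R227.LP
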