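import Pool.Agent.R227.LP13

set_option autoImplicit false

open MeasureTheory Set
open scoped Topology ENNReal NNReal RealInnerProductSpace

namespace Pool.Agent.R227.LP

/-- a thin rectangle -/
def rect (l h : ℝ) : Set ℂ := Ioo 0 l ×ℂ Ioo 0 h

lemma rect_vol {l h : ℝ} (hl : 0 < l) (hh : 0 < h) : (volume (rect l h)).toReal = l * h := by
  have e : rect l h = Complex.measurableEquivRealProd ⁻¹' (Ioo 0 l ×ˢ Ioo 0 h) := by
    ext z
    simp [rect, Complex.mem_reProdIm, Complex.measurableEquivRealProd]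
  rw [e, Complex.volume_preserving_equiv_real_prod.measure_preimage_equiv, Measure.volume_eq_prod,
    Measure.prod_prod, Real.volume_Ioo, Real.volume_Ioo, sub_zero, sub_zero,
    ← ENNReal.ofReal_mul hl.le, ENNReal.toReal_ofReal (by positivity)]

lemma rect_open (l h : ℝ) : IsOpen (rect l h) := isOpen_Ioo.reProdIm isOpen_Ioo

lemma rect_conn {l h : ℝ} (hl : 0 < l) (hh : 0 < h) : IsConnected (rect l h) := by
  constructor
  · refine ⟨⟨l / 2, h / 2⟩, ?_⟩
    rw [rect, Complex.mem_reProdIm]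
    constructor <;> constructor <;> simp <;> linarith
  · apply Convex.isPreconnected
    intro x hx y hy a b ha hb hab
    rw [rect, Complex.mem_reProdIm] at *
    have h1 := (convex_Ioo (0:ℝ) l) hx.1 hy.1 ha hb hab
    have h2 := (convex_Ioo (0:ℝ) h) hx.2 hy.2 ha hb hab
    simp only [smul_eq_mul] at h1 h2
    constructor
    · simpa using h1
    · simpa using h2

lemma rect_sub {l h : ℝ} (hh : h ≤ 1) : rect l h ⊆ Metric.ball 0 (|l| + 1) := by
  intro z hz
  rw [rect, Complex.mem_reProdIm] at hz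
  rw [Metric.mem_ball, dist_zero_right]
  have h1 := Complex.norm_le_abs_re_add_abs_im z
  have h2 : |z.re| < |l| := by
    rw [abs_of_pos hz.1.1]
    exact hz.1.2.trans_le (le_abs_self l)
  have h3 : |z.im| < 1 := by
    rw [abs_of_pos hz.2.1]
    exact hz.2.2.trans_le hh
  linarith

lemma rect_seg {l h : ℝ} (hl : 0 < l) (hh : 0 < h) (t : ℝ) (ht : 0 ≤ t) (htl : t ≤ l) :
    (t : ℂ) ∈ closure (rect l h) := by
  rw [rect, Complex.closure_reProdIm, closure_Ioo hl.ne, closure_Ioo hh.ne, Complex.mem_reProdIm]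
  constructor
  · simpa using ⟨ht, htl⟩
  · simpa using hh.le

/-- the counterexample to the isocapacitary inequality -/
theorem thin : ∃ A : Set ℂ, IsOpen A ∧ IsConnected A ∧ Bornology.IsBounded A ∧
    ∃ T : ℝ, Filter.Tendsto (diamN (closure A)) Filter.atTop (𝓝 T) ∧ 200 ≤ T ∧
      (∀ l, IsEig A l → -Real.pi < l) ∧ ∃ l ≤ -Real.pi, IsEig (Metric.ball 0 T) l := by
  have hpi := Real.pi_pos
  set R : ℝ := |(2200:ℝ)| + 1 with hR
  have hRp : 0 < R := by positivity
  set κ := kap R with hκ
  have hκ0 : 0 ≤ κ := Real.sqrt_nonneg _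
  set h : ℝ := min 1 (1 / (2200 * (κ + 1) ^ 2)) with hh
  have hh0 : 0 < h := lt_min one_pos (by positivity)
  have hh1 : h ≤ 1 := min_le_left _ _
  have hh2 : h ≤ 1 / (2200 * (κ + 1) ^ 2) := min_le_right _ _
  have hl : (0:ℝ) < 2200 := by norm_num
  have hsub := rect_sub (l := 2200) hh1
  have hcl : closure (rect 2200 h) ⊆ Metric.closedBall 0 R :=
    closure_minimal (hsub.trans Metric.ball_subset_closedBall) Metric.isClosed_closedBall
  have hconn := rect_conn hl hh0
  obtain ⟨T, hT, hTl⟩ := exists_tdiam hcl hconn.nonempty.closure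
  have hT200 : 200 ≤ T := by
    apply hTl
    intro n hn
    refine le_trans ?_ (seg_lower hcl hl (rect_seg hl hh0) hn)
    rw [le_div_iff₀ (by positivity)]
    have := Real.exp_one_lt_d9
    linarith
  refine ⟨rect 2200 h, rect_open _ _, hconn, Metric.isBounded_ball.subset hsub, T, hT, hT200, ?_,
    disc_eig hT200⟩
  intro l hle
  have h1 := eig_bound (rect_open 2200 h).measurableSet hRp hsub hle
  rw [rect_vol hl hh0] at h1
  have h2 : Real.sqrt (2200 * h) * κ ≤ 1 := by
    have h3 : 2200 * h ≤ (1 / (κ + 1)) ^ 2 := by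
      rw [div_pow, one_pow]
      rw [le_div_iff₀ (by positivity)] at hh2 ⊢
      linarith
    have h4 : Real.sqrt (2200 * h) ≤ 1 / (κ + 1) := by
      rw [← Real.sqrt_sq (by positivity : 0 ≤ 1 / (κ + 1))]
      exact Real.sqrt_le_sqrt h3
    calc Real.sqrt (2200 * h) * κ ≤ 1 / (κ + 1) * κ := by gcongr
      _ ≤ 1 := by
          rw [one_div, inv_mul_le_iff₀ (by positivity)]; linarith
  have h5 := neg_abs_le l
  have h6 := Real.pi_gt_three
  linarith

end Pool.Agent.R227.LP
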