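import Pool.Agent.R227.LP14

set_option autoImplicit false

open MeasureTheory Set
open scoped Topology ENNReal NNReal RealInnerProductSpace

namespace Pool.Agent.R227.LP

namespace HP

variable (P : HP)

lemma norm_le_σ (hc : P.c ≤ 0) {x : ℂ} (hx : 0 < P.s x) : ‖x‖ ≤ ‖P.σ x‖ := by
  have h : ‖P.σ x‖ ^ 2 = ‖x‖ ^ 2 - 4 * P.s x * P.c := by
    unfold σ
    rw [norm_sub_sq_real, norm_smul, P.hn, inner_smul_right, real_inner_comm, mul_one, Real.norm_eq_abs,
      sq_abs]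
    have : ⟪P.n, x⟫ = P.s x + P.c := by unfold s; ring
    rw [this]
    ring
  have h2 : ‖x‖ ^ 2 ≤ ‖P.σ x‖ ^ 2 := by rw [h]; nlinarith
  exact le_of_sq_le_sq h2 (norm_nonneg _)

lemma pol_sub (hc : P.c ≤ 0) {A : Set ℂ} {R : ℝ} (hA : A ⊆ Metric.ball 0 R) : P.pol A ⊆ Metric.ball 0 R := by
  intro x hx
  rw [P.mem_pol] at hx
  rcases hx with ⟨h1 | h1, h2⟩ | ⟨⟨h1, _⟩, _⟩
  · exact hA h1
  · have h3 := hA h1
    rw [Metric.mem_ball, dist_zero_right] at h3 ⊢
    exact (P.norm_le_σ hc h2).trans_lt h3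
  · exact hA h1

lemma two_int {f : ℂ → ℝ} (hf : Integrable f) : ∫ x, (f x + f (P.σ x)) = 2 * ∫ x, f x := by
  have h2 : Integrable (fun x => f (P.σ x)) := P.σ_mp.integrable_comp_of_integrable hf
  rw [integral_add hf h2, P.int_comp f]
  ring

lemma pol_pos {A : Set ℂ} {x : ℂ} (h : 0 < P.s x) :
    (x ∈ P.pol A ↔ (x ∈ A ∨ P.σ x ∈ A)) ∧ (P.σ x ∈ P.pol A ↔ (x ∈ A ∧ P.σ x ∈ A)) := by
  have h2 : ¬ 0 < P.s (P.σ x) := by rw [P.s_σ]; linarith
  constructor
  · rw [P.mem_pol]; tauto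
  · rw [P.mem_pol, P.σσ]; tauto

lemma pol_neg {A : Set ℂ} {x : ℂ} (h : P.s x < 0) :
    (x ∈ P.pol A ↔ (x ∈ A ∧ P.σ x ∈ A)) ∧ (P.σ x ∈ P.pol A ↔ (x ∈ A ∨ P.σ x ∈ A)) := by
  have h2 : 0 < P.s (P.σ x) := by rw [P.s_σ]; linarith
  have h3 : ¬ 0 < P.s x := by linarith
  constructor
  · rw [P.mem_pol]; tauto
  · rw [P.mem_pol, P.σσ]; tauto

lemma int_ind {S : Set ℂ} (hS : MeasurableSet S) : ∫ x, S.indicator (fun _ => (1:ℝ)) x = volume.real S := by
  rw [integral_indicator hS, setIntegral_const]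
  simp

lemma ind_int {S : Set ℂ} (hS : MeasurableSet S) {R : ℝ} (hSR : S ⊆ Metric.ball 0 R) :
    Integrable (S.indicator (fun _ => (1:ℝ))) := by
  rw [integrable_indicator_iff hS]
  exact integrableOn_const ((measure_mono hSR).trans_lt measure_ball_lt_top).ne

lemma pol_vol (hc : P.c ≤ 0) {A : Set ℂ} (hA : MeasurableSet A) {R : ℝ} (hAR : A ⊆ Metric.ball 0 R) :
    volume.real (P.pol A) = volume.real A := by
  have h1 := P.two_int (ind_int (P.pol_meas hA) (P.pol_sub hc hAR))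
  have h2 := P.two_int (ind_int hA hAR)
  rw [int_ind (P.pol_meas hA)] at h1
  rw [int_ind hA] at h2
  have h3 : ∫ x, ((P.pol A).indicator (fun _ => (1:ℝ)) x + (P.pol A).indicator (fun _ => (1:ℝ)) (P.σ x))
      = ∫ x, (A.indicator (fun _ => (1:ℝ)) x + A.indicator (fun _ => (1:ℝ)) (P.σ x)) := by
    apply integral_congr_ae
    filter_upwards [P.s_ne] with x hx
    rcases lt_or_gt_of_ne hx with h | h
    · obtain ⟨p1, p2⟩ := P.pol_neg (A := A) h
      by_cases b1 : x ∈ A <;> by_cases b2 : P.σ x ∈ A <;> simp [indicator, p1, p2, b1, b2]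
    · obtain ⟨p1, p2⟩ := P.pol_pos (A := A) h
      by_cases b1 : x ∈ A <;> by_cases b2 : P.σ x ∈ A <;> simp [indicator, p1, p2, b1, b2]
  linarith

/-- the set where polarization gains -/
def G (A B : Set ℂ) : Set ℂ := {x | 0 < P.s x ∧ (x ∈ B ∧ x ∉ A) ∧ (P.σ x ∈ A ∧ P.σ x ∉ B)}

lemma G_meas {A B : Set ℂ} (hA : MeasurableSet A) (hB : MeasurableSet B) : MeasurableSet (P.G A B) := by
  have h1 : MeasurableSet {x | 0 < P.s x} := P.H_open.measurableSet
  have h2 : MeasurableSet {x | P.σ x ∈ A} := P.σ_meas hA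
  have h3 : MeasurableSet {x | P.σ x ∈ B} := P.σ_meas hB
  exact h1.inter ((hB.inter hA.compl).inter (h2.inter h3.compl))

lemma pol_gain (hc : P.c ≤ 0) {A : Set ℂ} (hA : MeasurableSet A) {R r : ℝ} (hAR : A ⊆ Metric.ball 0 R) :
    volume.real (P.pol A ∩ Metric.ball 0 r) = volume.real (A ∩ Metric.ball 0 r)
      + volume.real (P.G A (Metric.ball 0 r)) := by
  set B := Metric.ball (0:ℂ) r with hB
  have hBm : MeasurableSet B := measurableSet_ball
  have hG := P.G_meas hA hBm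
  have hGs : P.G A B ⊆ Metric.ball 0 r := fun x hx => hx.2.1.1
  have m1 := (P.pol_meas hA).inter hBm
  have m2 := hA.inter hBm
  have h1 := P.two_int (ind_int m1 (inter_subset_left.trans (P.pol_sub hc hAR)))
  have h2 := P.two_int (ind_int m2 (inter_subset_left.trans hAR))
  have h3 := P.two_int (ind_int hG hGs)
  rw [int_ind m1] at h1
  rw [int_ind m2] at h2
  rw [int_ind hG] at h3
  have i2 : Integrable (fun x => ((A ∩ B).indicator (fun _ => (1:ℝ)) x + (A ∩ B).indicator (fun _ => (1:ℝ)) (P.σ x))) := by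
    have := ind_int m2 (inter_subset_left.trans hAR)
    exact this.add (P.σ_mp.integrable_comp_of_integrable this)
  have i3 : Integrable (fun x => ((P.G A B).indicator (fun _ => (1:ℝ)) x + (P.G A B).indicator (fun _ => (1:ℝ)) (P.σ x))) := by
    have := ind_int hG hGs
    exact this.add (P.σ_mp.integrable_comp_of_integrable this)
  have h4 : ∫ x, ((P.pol A ∩ B).indicator (fun _ => (1:ℝ)) x + (P.pol A ∩ B).indicator (fun _ => (1:ℝ)) (P.σ x))
      = ∫ x, (((A ∩ B).indicator (fun _ => (1:ℝ)) x + (A ∩ B).indicator (fun _ => (1:ℝ)) (P.σ x))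
        + ((P.G A B).indicator (fun _ => (1:ℝ)) x + (P.G A B).indicator (fun _ => (1:ℝ)) (P.σ x))) := by
    apply integral_congr_ae
    filter_upwards [P.s_ne] with x hx
    have key : ∀ y : ℂ, 0 < P.s y → P.σ y ∈ B → y ∈ B := by
      intro y hy hyB
      rw [hB, Metric.mem_ball, dist_zero_right] at hyB ⊢
      exact (P.norm_le_σ hc hy).trans_lt hyB
    rcases lt_or_gt_of_ne hx with h | h
    · obtain ⟨p1, p2⟩ := P.pol_neg (A := A) h
      have a1 : ¬ (0 < P.s x) := by linarith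
      have a2 : 0 < P.s (P.σ x) := by rw [P.s_σ]; linarith
      have k := key (P.σ x) a2
      rw [P.σσ] at k
      have g1 : x ∉ P.G A B := fun hh => a1 hh.1
      have g2 : P.σ x ∈ P.G A B ↔ ((P.σ x ∈ B ∧ P.σ x ∉ A) ∧ (x ∈ A ∧ x ∉ B)) := by
        unfold G
        rw [mem_ofPred_eq, P.σσ]
        tauto
      by_cases b1 : x ∈ A <;> by_cases b2 : P.σ x ∈ A <;> by_cases b3 : x ∈ B <;>
        by_cases b4 : P.σ x ∈ B <;> simp [indicator, p1, p2, g1, g2, b1, b2, b3, b4] <;> tauto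
    · obtain ⟨p1, p2⟩ := P.pol_pos (A := A) h
      have a1 : ¬ (0 < P.s (P.σ x)) := by rw [P.s_σ]; linarith
      have k := key x h
      have g2 : P.σ x ∉ P.G A B := fun hh => a1 hh.1
      have g1 : x ∈ P.G A B ↔ ((x ∈ B ∧ x ∉ A) ∧ (P.σ x ∈ A ∧ P.σ x ∉ B)) := by
        unfold G
        rw [mem_ofPred_eq]
        tauto
      by_cases b1 : x ∈ A <;> by_cases b2 : P.σ x ∈ A <;> by_cases b3 : x ∈ B <;>
        by_cases b4 : P.σ x ∈ B <;> simp [indicator, p1, p2, g1, g2, b1, b2, b3, b4] <;> tauto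
  rw [integral_add i2 i3] at h4
  linarith

end HP

end Pool.Agent.R227.LP
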