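import Pool.Agent.R227.LP15

set_option autoImplicit false

open MeasureTheory Set
open scoped Topology ENNReal NNReal RealInnerProductSpace

namespace Pool.Agent.R227.LP

/-- unit vector in direction `θ` -/
noncomputable def dir (θ : ℝ) : ℂ := (Real.cos θ : ℂ) + (Real.sin θ : ℂ) * Complex.I

lemma norm_dir (θ : ℝ) : ‖dir θ‖ = 1 := by
  unfold dir
  rw [Complex.ofReal_cos, Complex.ofReal_sin, ← Complex.exp_mul_I, Complex.norm_exp_ofReal_mul_I]

lemma dir_cont : Continuous dir := by
  unfold dir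
  fun_prop

lemma ray {X : Set ℂ} (hX : MeasurableSet X) (y : ℂ) :
    ∫⁻ θ in Ioo (-Real.pi) Real.pi, ∫⁻ s in Ioi (0:ℝ), X.indicator (fun _ => (1:ℝ≥0∞)) (y - s • dir θ)
      = ∫⁻ z : ℂ, ENNReal.ofReal (‖z‖⁻¹) * X.indicator (fun _ => (1:ℝ≥0∞)) (y - z) := by
  have hind : Measurable (X.indicator (fun _ => (1:ℝ≥0∞))) := measurable_const.indicator hX
  have hdm : Measurable dir := dir_cont.measurable
  rw [← Complex.lintegral_comp_polarCoord_symm]
  have h1 : ∫⁻ p in polarCoord.target, ENNReal.ofReal p.1 •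
      (ENNReal.ofReal (‖Complex.polarCoord.symm p‖⁻¹) * X.indicator (fun _ => (1:ℝ≥0∞)) (y - Complex.polarCoord.symm p))
      = ∫⁻ p in (Ioi (0:ℝ)) ×ˢ (Ioo (-Real.pi) Real.pi), X.indicator (fun _ => (1:ℝ≥0∞)) (y - p.1 • dir p.2) := by
    change ∫⁻ p in (Ioi (0:ℝ)) ×ˢ (Ioo (-Real.pi) Real.pi), _ = _
    apply setLIntegral_congr_fun (measurableSet_Ioi.prod measurableSet_Ioo)
    intro p hp
    have hp1 : 0 < p.1 := hp.1
    simp only [smul_eq_mul]
    rw [Complex.norm_polarCoord_symm, abs_of_pos hp1, ← mul_assoc, ← ENNReal.ofReal_mul hp1.le,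
      mul_inv_cancel₀ hp1.ne', ENNReal.ofReal_one, one_mul, Complex.polarCoord_symm_apply]
    congr 2
  rw [h1, Measure.volume_eq_prod, ← Measure.prod_restrict, lintegral_prod_symm]
  exact (hind.comp (by fun_prop)).aemeasurable

/-- the half-plane with inner normal `dir θ` and offset `t/2` -/
noncomputable def hp (θ t : ℝ) : HP := ⟨dir θ, norm_dir θ, t / 2⟩

lemma hp_σ (θ t : ℝ) (y : ℂ) : (hp θ t).σ y = y - (2 * ⟪dir θ, y⟫ - t) • dir θ := by
  unfold HP.σ HP.s hp
  congr 2
  ring

lemma hp_s (θ t : ℝ) (y : ℂ) : (hp θ t).s y = ⟪dir θ, y⟫ - t / 2 := rfl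

lemma geom {y n : ℂ} {s t r R : ℝ} (hn : ‖n‖ = 1) (hs : s = 2 * ⟪n, y⟫ - t) (hs0 : 0 < s) (hy : ‖y‖ < r)
    (h1 : r ≤ ‖y - s • n‖) (h2 : ‖y - s • n‖ < R) (_hrR : r ≤ R) : t ∈ Ioo (-(2 * R)) 0 := by
  have hnorm : ‖y - s • n‖ ^ 2 = ‖y‖ ^ 2 - s * t := by
    rw [norm_sub_sq_real, norm_smul, hn, inner_smul_right, real_inner_comm, mul_one,
      Real.norm_eq_abs, sq_abs]
    have : ⟪n, y⟫ = (s + t) / 2 := by rw [hs]; ring
    rw [this]; ring
  constructor
  · have h5 : ⟪n, y - s • n⟫ = ⟪n, y⟫ - s := by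
      rw [inner_sub_right, inner_smul_right, real_inner_self_eq_norm_sq, hn]; ring
    have h6 := abs_real_inner_le_norm n (y - s • n)
    have h7 := abs_real_inner_le_norm n y
    rw [hn, one_mul] at h6 h7
    have h8 := (abs_le.mp h6).1
    have h9 := (abs_le.mp h7).1
    linarith
  · have h5 : ‖y‖ ^ 2 < ‖y - s • n‖ ^ 2 :=
      pow_lt_pow_left₀ (by linarith) (norm_nonneg _) two_ne_zero
    nlinarith

/-- the averaging argument: some polarization makes a definite gain -/
theorem exists_gain {A : Set ℂ} (hA : MeasurableSet A) {R r : ℝ} (hR : 0 < R) (hrR : r ≤ R)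
    (hAR : A ⊆ Metric.ball 0 R)
    (hX : volume (A \ Metric.ball 0 r) ≠ 0) (hY : volume (Metric.ball 0 r \ A) ≠ 0) :
    ∃ P : HP, P.c ≤ 0 ∧ volume.real (A \ Metric.ball 0 r) * volume.real (Metric.ball 0 r \ A)
      / (16 * Real.pi * R ^ 2) ≤ volume.real (P.G A (Metric.ball 0 r)) := by
  have hpi := Real.pi_pos
  set B := Metric.ball (0:ℂ) r with hB
  have hBm : MeasurableSet B := measurableSet_ball
  set X := A \ B with hXd
  set Y := B \ A with hYd
  have hXm : MeasurableSet X := hA.diff hBm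
  have hYm : MeasurableSet Y := hBm.diff hA
  have hXfin : volume X ≠ ⊤ := ((measure_mono (sdiff_subset.trans hAR)).trans_lt measure_ball_lt_top).ne
  have hYfin : volume Y ≠ ⊤ := ((measure_mono sdiff_subset).trans_lt measure_ball_lt_top).ne
  have hXp : 0 < volume.real X := ENNReal.toReal_pos hX hXfin
  have hYp : 0 < volume.real Y := ENNReal.toReal_pos hY hYfin
  by_contra hcon
  push Not at hcon
  set γ := volume.real X * volume.real Y / (16 * Real.pi * R ^ 2) with hγ
  have hγ0 : 0 < γ := by positivity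
  have hdm : Measurable dir := dir_cont.measurable
  -- the big measurable function
  set F : ℝ × ℝ → ℂ → ℝ≥0∞ := fun p y =>
    {q : (ℝ × ℝ) × ℂ | 0 < 2 * ⟪dir q.1.1, q.2⟫ - q.1.2 ∧ q.2 ∈ Y ∧
      q.2 - (2 * ⟪dir q.1.1, q.2⟫ - q.1.2) • dir q.1.1 ∈ X}.indicator (fun _ => (1:ℝ≥0∞)) (p, y) with hF
  have hSm : MeasurableSet {q : (ℝ × ℝ) × ℂ | 0 < 2 * ⟪dir q.1.1, q.2⟫ - q.1.2 ∧ q.2 ∈ Y ∧
      q.2 - (2 * ⟪dir q.1.1, q.2⟫ - q.1.2) • dir q.1.1 ∈ X} := by
    have m1 : Measurable (fun q : (ℝ × ℝ) × ℂ => 2 * ⟪dir q.1.1, q.2⟫ - q.1.2) := by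
      have hd : Measurable (fun q : (ℝ × ℝ) × ℂ => dir q.1.1) := hdm.comp (by fun_prop)
      have := hd.inner (𝕜 := ℝ) (measurable_snd (α := ℝ × ℝ) (β := ℂ))
      exact (this.const_mul 2).sub (by fun_prop)
    have m2 : Measurable (fun q : (ℝ × ℝ) × ℂ => q.2 - (2 * ⟪dir q.1.1, q.2⟫ - q.1.2) • dir q.1.1) := by
      have hd : Measurable (fun q : (ℝ × ℝ) × ℂ => dir q.1.1) := hdm.comp (by fun_prop)
      exact measurable_snd.sub (m1.smul hd)
    exact (measurableSet_lt measurable_const m1).inter ((measurable_snd hYm).inter (m2 hXm))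
  have hFm : Measurable (Function.uncurry F) := measurable_const.indicator hSm
  set I1 : Measure ℝ := volume.restrict (Ioo (-Real.pi) Real.pi) with hI1
  set I2 : Measure ℝ := volume.restrict (Ioo (-(2 * R)) 0) with hI2
  -- upper bound
  have hup : ∫⁻ p, ∫⁻ y, F p y ∂volume ∂(I1.prod I2) ≤ ENNReal.ofReal γ * ENNReal.ofReal (4 * Real.pi * R) := by
    have h1 : ∀ᵐ p ∂(I1.prod I2), ∫⁻ y, F p y ≤ ENNReal.ofReal γ := by
      have h2 : ∀ᵐ p ∂(I1.prod I2), p.2 ∈ Ioo (-(2 * R)) 0 := by
        have : ∀ᵐ t ∂I2, t ∈ Ioo (-(2 * R)) 0 := ae_restrict_mem measurableSet_Ioo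
        exact Measure.quasiMeasurePreserving_snd.ae this
      filter_upwards [h2] with p hp2
      have h3 := hcon (hp p.1 p.2) (by
        change p.2 / 2 ≤ 0
        linarith [hp2.2])
      have h4 : ∫⁻ y, F p y = volume ((hp p.1 p.2).G A B) := by
        rw [← setLIntegral_one, ← lintegral_indicator ((hp p.1 p.2).G_meas hA hBm)]
        apply lintegral_congr
        intro y
        simp only [hF, indicator]
        congr 1
        rw [eq_iff_iff]
        simp only [mem_ofPred_eq, HP.G, hp_s, hp_σ, hXd, hYd, mem_sdiff]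
        constructor
        · rintro ⟨a, b, c⟩
          exact ⟨by linarith, b, c⟩
        · rintro ⟨a, b, c⟩
          exact ⟨by linarith, b, c⟩
      rw [h4, ← ENNReal.ofReal_toReal (a := volume ((hp p.1 p.2).G A B))]
      · exact ENNReal.ofReal_le_ofReal h3.le
      · exact ((measure_mono (fun x hx => hx.2.1.1)).trans_lt (measure_ball_lt_top (x := (0:ℂ)) (r := r))).ne
    calc ∫⁻ p, ∫⁻ y, F p y ∂volume ∂(I1.prod I2) ≤ ∫⁻ _p, ENNReal.ofReal γ ∂(I1.prod I2) :=
          lintegral_mono_ae h1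
      _ = ENNReal.ofReal γ * ENNReal.ofReal (4 * Real.pi * R) := by
          rw [lintegral_const, ← univ_prod_univ, Measure.prod_prod, hI1, hI2, Measure.restrict_apply_univ,
            Measure.restrict_apply_univ, Real.volume_Ioo, Real.volume_Ioo, ← ENNReal.ofReal_mul (by linarith)]
          congr 2
          ring
  -- lower bound
  have hlow : ENNReal.ofReal (volume.real X * volume.real Y / (2 * R)) ≤
      ∫⁻ p, ∫⁻ y, F p y ∂volume ∂(I1.prod I2) := by
    rw [lintegral_lintegral_swap hFm.aemeasurable]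
    have h1 : ∀ y ∈ Y, ENNReal.ofReal (volume.real X / (2 * R)) ≤ ∫⁻ p, F p y ∂(I1.prod I2) := by
      intro y hy
      have hyr : ‖y‖ < r := by
        have := hy.1
        rwa [hB, Metric.mem_ball, dist_zero_right] at this
      have hFy : Measurable (fun p => F p y) := hFm.of_uncurry_right
      rw [lintegral_prod _ hFy.aemeasurable]
      have h2 : ∀ θ, ∫⁻ t, F (θ, t) y ∂I2 = ∫⁻ s in Ioi (0:ℝ), X.indicator (fun _ => (1:ℝ≥0∞)) (y - s • dir θ) := by
        intro θ
        have e1 : ∫⁻ t, F (θ, t) y ∂I2 = ∫⁻ t, F (θ, t) y := by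
          rw [hI2, ← lintegral_indicator measurableSet_Ioo]
          apply lintegral_congr
          intro t
          by_cases ht : t ∈ Ioo (-(2 * R)) 0
          · rw [indicator_of_mem ht]
          · rw [indicator_of_notMem ht]
            symm
            simp only [hF]
            apply indicator_of_notMem
            rintro ⟨a, b, c⟩
            apply ht
            simp only at a b c
            have hxR : ‖y - (2 * ⟪dir θ, y⟫ - t) • dir θ‖ < R := by
              have := hAR c.1
              rwa [Metric.mem_ball, dist_zero_right] at this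
            have hxr : r ≤ ‖y - (2 * ⟪dir θ, y⟫ - t) • dir θ‖ := by
              have := c.2
              rwa [hB, Metric.mem_ball, dist_zero_right, not_lt] at this
            exact geom (norm_dir θ) rfl a hyr hxr hxR hrR
        rw [e1, ← lintegral_sub_left_eq_self (fun s => F (θ, s) y) (2 * ⟪dir θ, y⟫),
          ← lintegral_indicator measurableSet_Ioi]
        apply lintegral_congr
        intro s
        have hk : 2 * ⟪dir θ, y⟫ - (2 * ⟪dir θ, y⟫ - s) = s := sub_sub_cancel _ _
        by_cases hs : 0 < s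
        · rw [indicator_of_mem (show s ∈ Ioi (0:ℝ) from hs)]
          by_cases hx : y - s • dir θ ∈ X
          · rw [indicator_of_mem hx]
            apply indicator_of_mem
            refine ⟨?_, hy, ?_⟩
            · change 0 < 2 * ⟪dir θ, y⟫ - (2 * ⟪dir θ, y⟫ - s)
              rw [hk]; exact hs
            · change y - (2 * ⟪dir θ, y⟫ - (2 * ⟪dir θ, y⟫ - s)) • dir θ ∈ X
              rw [hk]; exact hx
          · rw [indicator_of_notMem hx]
            apply indicator_of_notMem
            rintro ⟨_, _, hx2⟩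
            change y - (2 * ⟪dir θ, y⟫ - (2 * ⟪dir θ, y⟫ - s)) • dir θ ∈ X at hx2
            rw [hk] at hx2
            exact hx hx2
        · rw [indicator_of_notMem (show s ∉ Ioi (0:ℝ) from hs)]
          apply indicator_of_notMem
          rintro ⟨hx1, _⟩
          change 0 < 2 * ⟪dir θ, y⟫ - (2 * ⟪dir θ, y⟫ - s) at hx1
          rw [hk] at hx1
          exact hs hx1
      simp_rw [h2]
      rw [hI1, ray hXm y]
      have h3 : ∫⁻ z : ℂ, ENNReal.ofReal ((2 * R)⁻¹) * X.indicator (fun _ => (1:ℝ≥0∞)) (y - z)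
          ≤ ∫⁻ z : ℂ, ENNReal.ofReal (‖z‖⁻¹) * X.indicator (fun _ => (1:ℝ≥0∞)) (y - z) := by
        apply lintegral_mono
        intro z
        simp only
        by_cases hz : y - z ∈ X
        · rw [indicator_of_mem hz, mul_one, mul_one]
          apply ENNReal.ofReal_le_ofReal
          have hz0 : z ≠ 0 := by
            intro h0
            rw [h0, sub_zero] at hz
            exact hz.2 hy.1
          have hzp : 0 < ‖z‖ := norm_pos_iff.mpr hz0
          have hzR : ‖z‖ ≤ 2 * R := by
            have h4 := hAR hz.1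
            rw [Metric.mem_ball, dist_zero_right] at h4
            calc ‖z‖ = ‖y - (y - z)‖ := by rw [sub_sub_cancel]
              _ ≤ ‖y‖ + ‖y - z‖ := norm_sub_le _ _
              _ ≤ 2 * R := by linarith
          exact inv_anti₀ hzp hzR
        · rw [indicator_of_notMem hz, mul_zero, mul_zero]
      refine le_trans (le_of_eq ?_) h3
      rw [lintegral_const_mul' _ _ ENNReal.ofReal_ne_top,
        lintegral_sub_left_eq_self (X.indicator (fun _ => (1:ℝ≥0∞))) y, lintegral_indicator hXm,
        setLIntegral_one, div_eq_mul_inv, mul_comm, ENNReal.ofReal_mul (by positivity)]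
      congr 1
      exact ENNReal.ofReal_toReal hXfin
    calc ENNReal.ofReal (volume.real X * volume.real Y / (2 * R))
        = ∫⁻ y in Y, ENNReal.ofReal (volume.real X / (2 * R)) := by
          rw [setLIntegral_const, ← ENNReal.ofReal_toReal hYfin, ← ENNReal.ofReal_mul (by positivity)]
          congr 1
          change _ = volume.real X / (2 * R) * volume.real Y
          ring
      _ ≤ ∫⁻ y in Y, ∫⁻ p, F p y ∂(I1.prod I2) := by
          apply setLIntegral_mono_ae' hYm
          exact Filter.Eventually.of_forall h1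
      _ ≤ ∫⁻ y, ∫⁻ p, F p y ∂(I1.prod I2) := setLIntegral_le_lintegral _ _
  have hfin := hlow.trans hup
  rw [← ENNReal.ofReal_mul hγ0.le, ENNReal.ofReal_le_ofReal_iff (by positivity), hγ] at hfin
  have h5 : volume.real X * volume.real Y / (16 * Real.pi * R ^ 2) * (4 * Real.pi * R)
      = volume.real X * volume.real Y / (4 * R) := by field_simp; ring
  rw [h5] at hfin
  have h6 : 0 < volume.real X * volume.real Y := by positivity
  rw [div_le_div_iff₀ (by positivity) (by positivity)] at hfin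
  nlinarith [mul_pos h6 hR]

end Pool.Agent.R227.LP
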