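import Pool.Agent.R227.LP16

set_option autoImplicit false

open MeasureTheory Set
open scoped Topology ENNReal NNReal RealInnerProductSpace

namespace Pool.Agent.R227.LP

/-- sets reachable by finitely many polarizations with respect to half-planes whose closure
contains the origin -/
inductive Reach (A : Set ℂ) : Set ℂ → Prop
  | refl : Reach A A
  | step {A' : Set ℂ} (P : HP) (hc : P.c ≤ 0) (h : Reach A A') : Reach A (P.pol A')

lemma Reach.props {A A' : Set ℂ} (h : Reach A A') {R : ℝ} (hA : MeasurableSet A)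
    (hAR : A ⊆ Metric.ball 0 R) : MeasurableSet A' ∧ A' ⊆ Metric.ball 0 R ∧
      volume.real A' = volume.real A ∧
      ∀ μ > 0, IsEig A' (-μ) → ∃ l ≤ -μ, IsEig A l := by
  induction h with
  | refl => exact ⟨hA, hAR, rfl, fun μ _ h => ⟨-μ, le_rfl, h⟩⟩
  | step P hc h ih =>
    obtain ⟨h1, h2, h3, h4⟩ := ih
    refine ⟨P.pol_meas h1, P.pol_sub hc h2, ?_, ?_⟩
    · rw [P.pol_vol hc h1 h2, h3]
    · intro μ hμ he
      obtain ⟨l', hl', he'⟩ := polar P h1 h2 hμ he
      obtain ⟨l, hl, hle⟩ := h4 (-l') (by linarith) (by rwa [neg_neg])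
      exact ⟨l, by linarith, hle⟩

lemma real_split {S B : Set ℂ} (hB : MeasurableSet B) {R : ℝ} (hS : S ⊆ Metric.ball 0 R) :
    volume.real (S ∩ B) + volume.real (S \ B) = volume.real S := by
  have hfin : volume S ≠ ⊤ := ((measure_mono hS).trans_lt measure_ball_lt_top).ne
  exact measureReal_inter_add_sdiff hB hfin

/-- polarizations approximate the ball -/
theorem approx {A : Set ℂ} (hA : MeasurableSet A) {R r : ℝ} (hR : 0 < R) (hrR : r ≤ R)
    (hAR : A ⊆ Metric.ball 0 R) (hvol : volume.real A = volume.real (Metric.ball (0:ℂ) r))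
    {δ : ℝ} (hδ : 0 < δ) : ∃ A', Reach A A' ∧ volume.real (Metric.ball 0 r \ A') < δ := by
  by_contra hcon
  push Not at hcon
  have hpi := Real.pi_pos
  set B := Metric.ball (0:ℂ) r with hB
  have hBm : MeasurableSet B := measurableSet_ball
  set N : Set ℝ := {x | ∃ A', Reach A A' ∧ x = volume.real (A' ∩ B)} with hN
  have hne : N.Nonempty := ⟨_, A, Reach.refl, rfl⟩
  have hBfin : volume B ≠ ⊤ := measure_ball_lt_top.ne
  have hbdd : BddAbove N := by
    refine ⟨volume.real B, ?_⟩
    rintro x ⟨A', _, rfl⟩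
    exact measureReal_mono inter_subset_right hBfin
  set β := sSup N with hβ
  set γ := δ ^ 2 / (16 * Real.pi * R ^ 2) with hγ
  have hγ0 : 0 < γ := by positivity
  obtain ⟨x, ⟨A', hA', rfl⟩, hx⟩ := exists_lt_of_lt_csSup hne (show β - γ < sSup N by linarith)
  obtain ⟨p1, p2, p3, p4⟩ := hA'.props hA hAR
  have hY : δ ≤ volume.real (B \ A') := hcon A' hA'
  have hXY : volume.real (A' \ B) = volume.real (B \ A') := by
    have e1 := real_split hBm p2
    have e2 := real_split (S := B) p1 (R := r) Subset.rfl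
    rw [inter_comm] at e2
    linarith
  have hX : δ ≤ volume.real (A' \ B) := by rw [hXY]; exact hY
  have hX0 : volume (A' \ B) ≠ 0 := by
    intro h0
    rw [Measure.real, h0] at hX
    simp at hX
    linarith
  have hY0 : volume (B \ A') ≠ 0 := by
    intro h0
    rw [Measure.real, h0] at hY
    simp at hY
    linarith
  obtain ⟨P, hc, hP⟩ := exists_gain p1 hR hrR p2 hX0 hY0
  have hgain := P.pol_gain hc p1 p2 (r := r)
  have h1 : γ ≤ volume.real (P.G A' B) := by
    refine le_trans ?_ hP
    rw [hγ]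
    apply div_le_div_of_nonneg_right _ (by positivity)
    nlinarith
  have h2 : volume.real (P.pol A' ∩ B) ≤ β := le_csSup hbdd ⟨P.pol A', Reach.step P hc hA', rfl⟩
  have h3 : volume.real (P.pol A' ∩ B) = volume.real (A' ∩ B) + volume.real (P.G A' B) := hgain
  linarith

/-- boundedness of the form -/
lemma Nice.bf_le {R : ℝ} (hR : 0 < R) {a b : ℂ → ℝ} (ha : Nice R a) (hb : Nice R b) :
    |bf a b| ≤ kap R * Real.sqrt (Real.pi * R ^ 2) * Real.sqrt (∫ x, a x ^ 2) * Real.sqrt (∫ x, b x ^ 2) := by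
  have hk : 0 ≤ kap R := Real.sqrt_nonneg _
  have hone := one_nice (measurableSet_ball (x := (0:ℂ)) (ε := R)) Subset.rfl
  have h1 : ∫ x, |b x| ≤ Real.sqrt (Real.pi * R ^ 2) * Real.sqrt (∫ x, b x ^ 2) := by
    have h2 := cs2 hone.mem hb.mem.norm
    have h3 : ∫ x, (Metric.ball (0:ℂ) R).indicator (fun _ => (1:ℝ)) x * ‖b x‖ = ∫ x, |b x| := by
      congr 1
      ext x
      by_cases hx : x ∈ Metric.ball (0:ℂ) R
      · rw [indicator_of_mem hx, one_mul, Real.norm_eq_abs]
      · rw [indicator_of_notMem hx, hb.van x (by simpa using hx)]; simp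
    have h4 : ∫ x, (Metric.ball (0:ℂ) R).indicator (fun _ => (1:ℝ)) x ^ 2 = Real.pi * R ^ 2 := by
      have : (fun x => (Metric.ball (0:ℂ) R).indicator (fun _ => (1:ℝ)) x ^ 2)
          = (Metric.ball (0:ℂ) R).indicator (fun _ => (1:ℝ)) := by
        ext x
        simp only [indicator]
        split_ifs <;> norm_num
      rw [this, HP.int_ind measurableSet_ball, vol_ball1 _ hR.le]
    rw [h3, h4] at h2
    have h5 : ∫ x, ‖b x‖ ^ 2 = ∫ x, b x ^ 2 := by
      congr 1
      ext x
      rw [Real.norm_eq_abs, sq_abs]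
    rw [h5] at h2
    exact (le_abs_self _).trans h2
  unfold bf
  calc |∫ x, pot a x * b x| ≤ ∫ x, |pot a x * b x| := abs_integral_le_integral_abs
    _ ≤ ∫ x, kap R * Real.sqrt (∫ x, a x ^ 2) * |b x| := by
        apply integral_mono (ha.int_bf hR hb).abs (hb.integrable.abs.const_mul _)
        intro x
        simp only
        rw [abs_mul]
        by_cases hx : R ≤ ‖x‖
        · rw [hb.van x hx]; simp
        · exact mul_le_mul_of_nonneg_right (ha.pot_le hR (not_le.mp hx).le) (abs_nonneg _)
    _ = kap R * Real.sqrt (∫ x, a x ^ 2) * ∫ x, |b x| := integral_const_mul _ _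
    _ ≤ kap R * Real.sqrt (∫ x, a x ^ 2) * (Real.sqrt (Real.pi * R ^ 2) * Real.sqrt (∫ x, b x ^ 2)) := by
        gcongr
    _ = _ := by ring

/-- the reverse Faber–Krahn inequality, for bounded measurable sets -/
theorem faberKrahn {A : Set ℂ} (hA : MeasurableSet A) {R r : ℝ} (hR : 0 < R) (hrR : r ≤ R)
    (hAR : A ⊆ Metric.ball 0 R) (hvol : volume.real A = volume.real (Metric.ball (0:ℂ) r))
    {μ : ℝ} (hμ : 0 < μ) (he : IsEig (Metric.ball 0 r) (-μ)) : ∃ l ≤ -μ, IsEig A l := by
  have hpi := Real.pi_pos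
  have hBR : Metric.ball (0:ℂ) r ⊆ Metric.ball 0 R := Metric.ball_subset_ball hrR
  obtain ⟨v, hvN, hv0, hvne, hveq⟩ := (isEig_iff measurableSet_ball hBR (-μ)).mp he
  set N2 := ∫ x, v x ^ 2 with hN2
  have hN2p : 0 < N2 := by
    apply lt_of_le_of_ne (integral_nonneg fun x => sq_nonneg _)
    intro h0
    apply hvne
    have := (integral_eq_zero_iff_of_nonneg (fun x => sq_nonneg (v x)) hvN.int_sq).mp h0.symm
    filter_upwards [this] with x hx
    simpa using hx
  set M := kap R * Real.sqrt N2 / μ with hM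
  have hk : 0 ≤ kap R := Real.sqrt_nonneg _
  have hM0 : 0 ≤ M := by positivity
  have hvM : ∀ᵐ x, |v x| ≤ M := by
    filter_upwards [hveq] with x hx
    by_cases hxB : x ∈ Metric.ball (0:ℂ) r
    · have h1 := hvN.pot_le hR (x := x) (by
        have := hBR hxB
        rw [Metric.mem_ball, dist_zero_right] at this
        exact this.le)
      rw [hx hxB, abs_mul, abs_neg, abs_of_pos hμ] at h1
      rw [hM, le_div_iff₀ hμ]
      linarith
    · rw [hv0 x hxB, abs_zero]; exact hM0
  have hbfv : bf v v = -μ * N2 := by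
    unfold bf
    rw [hN2, ← integral_const_mul]
    apply integral_congr_ae
    filter_upwards [hveq] with x hx
    by_cases hxP : x ∈ Metric.ball (0:ℂ) r
    · rw [hx hxP]; ring
    · rw [hv0 x hxP]; ring
  set C := kap R * Real.sqrt (Real.pi * R ^ 2) with hC
  have hC0 : 0 ≤ C := by positivity
  have key : ∀ ε, 0 < ε → ε < μ → ∃ l ≤ -(μ - ε), IsEig A l := by
    intro ε hε hεμ
    set κ := min (1 / 2) (ε / (3 * C + 1)) with hκ
    have hκ0 : 0 < κ := lt_min (by norm_num) (by positivity)
    have hκ1 : κ ≤ 1 / 2 := min_le_left _ _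
    have hκ2 : κ ≤ ε / (3 * C + 1) := min_le_right _ _
    set δ := κ ^ 2 * N2 / (M ^ 2 + 1) with hδ
    have hδ0 : 0 < δ := by positivity
    obtain ⟨A', hA', hlt⟩ := approx hA hR hrR hAR hvol hδ0
    obtain ⟨p1, p2, p3, p4⟩ := hA'.props hA hAR
    -- the trial function and the defect
    set w : ℂ → ℝ := fun x => -(A'ᶜ.indicator v x) with hw
    have hwN : Nice R w := by
      refine ⟨(hvN.mem.indicator p1.compl).neg, fun x hx => ?_⟩
      simp only [hw, indicator]
      split_ifs
      · rw [hvN.van x hx]; simp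
      · simp
    have hu : ∀ x, v x + w x = A'.indicator v x := by
      intro x
      simp only [hw, indicator]
      by_cases hx : x ∈ A' <;> simp [hx]
    have hD : ∫ x, w x ^ 2 ≤ κ ^ 2 * N2 := by
      have h1 : ∀ᵐ x, w x ^ 2 ≤ (Metric.ball (0:ℂ) r \ A').indicator (fun _ => M ^ 2) x := by
        filter_upwards [hvM] with x hx
        simp only [hw, indicator]
        by_cases h1 : x ∈ A'
        · simp [h1]
        · by_cases h2 : x ∈ Metric.ball (0:ℂ) r
          · have h3 : x ∈ Metric.ball (0:ℂ) r \ A' := ⟨h2, h1⟩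
            have h4 : x ∈ A'ᶜ := h1
            rw [if_pos h4, if_pos h3, neg_sq, ← sq_abs]
            exact pow_le_pow_left₀ (abs_nonneg _) hx 2
          · have h3 : x ∉ Metric.ball (0:ℂ) r \ A' := fun h => h2 h.1
            have h4 : x ∈ A'ᶜ := h1
            rw [if_pos h4, if_neg h3, hv0 x h2]
            simp
      have hm : MeasurableSet (Metric.ball (0:ℂ) r \ A') := measurableSet_ball.diff p1
      have hfin : volume (Metric.ball (0:ℂ) r \ A') ≠ ⊤ :=
        ((measure_mono sdiff_subset).trans_lt measure_ball_lt_top).ne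
      calc ∫ x, w x ^ 2 ≤ ∫ x, (Metric.ball (0:ℂ) r \ A').indicator (fun _ => M ^ 2) x := by
            apply integral_mono_ae hwN.int_sq _ h1
            rw [integrable_indicator_iff hm]
            exact integrableOn_const hfin
        _ = volume.real (Metric.ball (0:ℂ) r \ A') * M ^ 2 := by
            rw [integral_indicator hm, setIntegral_const, smul_eq_mul]
        _ ≤ δ * M ^ 2 := by gcongr
        _ ≤ κ ^ 2 * N2 := by
            rw [hδ, div_mul_eq_mul_div, div_le_iff₀ (by positivity)]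
            have : 0 ≤ κ ^ 2 * N2 := by positivity
            nlinarith
    have hD0 : 0 ≤ ∫ x, w x ^ 2 := integral_nonneg fun x => sq_nonneg _
    have hsq : Real.sqrt (∫ x, w x ^ 2) ≤ κ * Real.sqrt N2 := by
      rw [show κ * Real.sqrt N2 = Real.sqrt (κ ^ 2 * N2) by
        rw [Real.sqrt_mul (by positivity), Real.sqrt_sq hκ0.le]]
      exact Real.sqrt_le_sqrt hD
    have hsum : ∫ x, (v x + w x) ^ 2 + w x ^ 2 = N2 := by
      rw [hN2]
      congr 1
      ext x
      rw [hu x]
      simp only [hw, indicator]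
      by_cases hx : x ∈ A' <;> simp [hx]
    have hsum2 : (∫ x, (v x + w x) ^ 2) + ∫ x, w x ^ 2 = N2 := by
      rw [← hsum, integral_add (hvN.add hwN).int_sq hwN.int_sq]
    obtain ⟨l', hl', he'⟩ := eig_of_form hR p1 p2 (μ := μ - ε) (by linarith) (hvN.add hwN) (by
        intro x hx
        rw [hu x, indicator_of_notMem hx]) (by
        intro h0
        have h1 : ∫ x, (v x + w x) ^ 2 = 0 := by
          apply integral_eq_zero_of_ae
          filter_upwards [h0] with x hx
          simp only [Pi.zero_apply] at hx ⊢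
          rw [hx]; norm_num
        rw [h1, zero_add] at hsum2
        rw [hsum2] at hD
        have hκ4 : κ ^ 2 ≤ 1 / 4 := by nlinarith
        have := mul_le_mul_of_nonneg_right hκ4 hN2p.le
        linarith) (by
        rw [bf_expand hR hvN hwN, hbfv]
        have b1 := (abs_le.mp (hwN.bf_le hR hvN)).2
        have b2 := (abs_le.mp (hwN.bf_le hR hwN)).2
        rw [← hC, ← hN2] at b1
        rw [← hC] at b2
        have hs0 : 0 ≤ Real.sqrt N2 := Real.sqrt_nonneg _
        have hsN : Real.sqrt N2 * Real.sqrt N2 = N2 := Real.mul_self_sqrt hN2p.le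
        have hsw : 0 ≤ Real.sqrt (∫ x, w x ^ 2) := Real.sqrt_nonneg _
        have c1 : bf w v ≤ C * κ * N2 := by
          calc bf w v ≤ C * Real.sqrt (∫ x, w x ^ 2) * Real.sqrt N2 := b1
            _ ≤ C * (κ * Real.sqrt N2) * Real.sqrt N2 := by gcongr
            _ = C * κ * (Real.sqrt N2 * Real.sqrt N2) := by ring
            _ = C * κ * N2 := by rw [hsN]
        have c2 : bf w w ≤ C * κ * N2 := by
          calc bf w w ≤ C * Real.sqrt (∫ x, w x ^ 2) * Real.sqrt (∫ x, w x ^ 2) := b2
            _ ≤ C * (κ * Real.sqrt N2) * (κ * Real.sqrt N2) := by gcongr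
            _ = C * κ * κ * (Real.sqrt N2 * Real.sqrt N2) := by ring
            _ = C * κ * κ * N2 := by rw [hsN]
            _ ≤ C * κ * 1 * N2 := by gcongr; linarith
            _ = C * κ * N2 := by ring
        have c3 : 3 * C * κ ≤ ε := by
          rw [le_div_iff₀ (by positivity)] at hκ2
          nlinarith
        have c4 : 3 * C * κ * N2 ≤ ε * N2 := by gcongr
        have c5 : -(μ - ε) * N2 ≤ -(μ - ε) * ∫ x, (v x + w x) ^ 2 := by
          have : 0 < μ - ε := by linarith
          nlinarith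
        linarith)
    obtain ⟨l, hl, hle⟩ := p4 (-l') (by linarith) (by rwa [neg_neg])
    exact ⟨l, by linarith, hle⟩
  obtain ⟨l₀, hl₀, he₀⟩ := key (μ / 2) (by linarith) (by linarith)
  refine ⟨l₀, ?_, he₀⟩
  by_contra hcon
  push Not at hcon
  -- l₀ > -μ
  obtain ⟨l, hl, hle⟩ := key (min (μ / 2) ((l₀ + μ) / 2)) (lt_min (by linarith) (by linarith))
    ((min_le_left _ _).trans_lt (by linarith))
  have h1 : min (μ / 2) ((l₀ + μ) / 2) ≤ (l₀ + μ) / 2 := min_le_right _ _
  have h2 : l = l₀ := eig_unique hR hA hAR (by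
    have := min_le_left (μ / 2) ((l₀ + μ) / 2)
    linarith) (by linarith) hle he₀
  linarith

end Pool.Agent.R227.LP
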