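import Mathlib

set_option autoImplicit false

open scoped RealInnerProductSpace

namespace Pool.Agent.R227.LP

variable {X : Type*} [NormedAddCommGroup X] [InnerProductSpace ℝ X] [CompleteSpace X]

/-- solving the constrained equation -/
theorem abs_solve (T : X →L[ℝ] X) (e : X) (he : ‖e‖ = 1)
    (hpos : ∀ x, ⟪e, x⟫ = 0 → 0 ≤ ⟪T x, x⟫) {μ : ℝ} (hμ : 0 < μ) (F : X) :
    ∃ d : X, ⟪e, d⟫ = 0 ∧ ∃ c : ℝ, T d + μ • d + F = c • e := by
  have hee : ⟪e, e⟫ = 1 := by rw [real_inner_self_eq_norm_sq, he]; norm_num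
  set P : X →L[ℝ] X := ContinuousLinearMap.id ℝ X - (innerSL ℝ e).smulRight e with hP
  have hPx : ∀ x, P x = x - ⟪e, x⟫ • e := by
    intro x
    simp [hP]
  have hPe : ∀ x, ⟪e, P x⟫ = 0 := by
    intro x
    rw [hPx, inner_sub_right, inner_smul_right, hee]
    ring
  have hPs2 : ∀ x y, ⟪P x, y⟫ = ⟪x, P y⟫ := by
    intro x y
    rw [hPx, hPx, inner_sub_left, inner_sub_right, inner_smul_left, inner_smul_right,
      real_inner_comm e x]
    simp
    ring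
  set S : X →L[ℝ] X := P.comp (T.comp P) + μ • ContinuousLinearMap.id ℝ X with hS
  have hSx : ∀ x, S x = P (T (P x)) + μ • x := by
    intro x; simp [hS]
  have hU : IsUnit S := by
    apply ContinuousLinearMap.isUnit_of_forall_le_norm_inner_map S (c := ⟨μ, hμ.le⟩) hμ
    intro x
    have h1 : ⟪S x, x⟫ = ⟪T (P x), P x⟫ + μ * ‖x‖ ^ 2 := by
      rw [hSx, inner_add_left, hPs2, inner_smul_left, real_inner_self_eq_norm_sq]
      simp
    have h2 := hpos (P x) (hPe x)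
    rw [h1, Real.norm_eq_abs, abs_of_nonneg (by positivity)]
    change ‖x‖ ^ 2 * μ ≤ _
    linarith
  obtain ⟨d, hd⟩ := (ContinuousLinearMap.isUnit_iff_bijective.mp hU).2 (-P F)
  have h1 : ⟪e, d⟫ = 0 := by
    have h2 : ⟪e, S d⟫ = μ * ⟪e, d⟫ := by
      rw [hSx, inner_add_right, hPe, inner_smul_right]; ring
    rw [hd, inner_neg_right, hPe] at h2
    have : μ * ⟪e, d⟫ = 0 := by linarith
    exact (mul_eq_zero.mp this).resolve_left hμ.ne'
  have hPd : P d = d := by rw [hPx, h1]; simp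
  refine ⟨d, h1, ⟪e, T d⟫ + ⟪e, F⟫, ?_⟩
  rw [hSx, hPd, hPx, hPx] at hd
  have h3 : T d + μ • d + F = (T d - ⟪e, T d⟫ • e + μ • d) + ⟪e, T d⟫ • e + F := by abel
  rw [h3, hd, add_smul]
  abel

/-- a negative value of the form produces a negative eigenvalue -/
theorem abs_eig (T : X →L[ℝ] X) (hT : ∀ x y, ⟪T x, y⟫ = ⟪x, T y⟫) (e : X) (he : ‖e‖ = 1)
    (hpos : ∀ x, ⟪e, x⟫ = 0 → 0 ≤ ⟪T x, x⟫) {μ : ℝ} (hμ : 0 < μ) (u : X) (hu : u ≠ 0)
    (hle : ⟪T u, u⟫ ≤ -μ * ‖u‖ ^ 2) : ∃ l ≤ -μ, ∃ v : X, v ≠ 0 ∧ T v = l • v := by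
  have hee : ⟪e, e⟫ = 1 := by rw [real_inner_self_eq_norm_sq, he]; norm_num
  set N : Set ℝ := {ν | ∃ x : X, ‖x‖ = 1 ∧ ν = -⟪T x, x⟫} with hN
  have hbdd : BddAbove N := by
    refine ⟨‖T‖, ?_⟩
    rintro ν ⟨x, hx, rfl⟩
    have h1 := abs_real_inner_le_norm (T x) x
    have h2 := T.le_opNorm x
    rw [hx, mul_one] at h1 h2
    linarith [neg_abs_le ⟪T x, x⟫]
  have hun : 0 < ‖u‖ := norm_pos_iff.mpr hu
  have hmem : ∀ x : X, x ≠ 0 → -⟪T x, x⟫ / ‖x‖ ^ 2 ∈ N := by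
    intro x hx
    have hxn : 0 < ‖x‖ := norm_pos_iff.mpr hx
    refine ⟨‖x‖⁻¹ • x, ?_, ?_⟩
    · rw [norm_smul, norm_inv, norm_norm, inv_mul_cancel₀ hxn.ne']
    · rw [map_smul, inner_smul_left, inner_smul_right]
      simp
      field_simp
  set μ₁ := sSup N with hμ₁
  have hge : μ ≤ μ₁ := by
    have h1 := le_csSup hbdd (hmem u hu)
    refine le_trans ?_ h1
    rw [le_div_iff₀ (by positivity)]
    linarith
  have hμ₁p : 0 < μ₁ := lt_of_lt_of_le hμ hge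
  have hall : ∀ x, -μ₁ * ‖x‖ ^ 2 ≤ ⟪T x, x⟫ := by
    intro x
    by_cases hx : x = 0
    · rw [hx]; simp
    · have h1 := le_csSup hbdd (hmem x hx)
      have hxn : 0 < ‖x‖ := norm_pos_iff.mpr hx
      rw [div_le_iff₀ (by positivity)] at h1
      linarith
  obtain ⟨h, hh, c, hc⟩ := abs_solve T e he hpos hμ₁p (T e + μ₁ • e)
  obtain ⟨u₁, hu₁⟩ : ∃ u₁, u₁ = e + h := ⟨_, rfl⟩
  have hu₁e : ⟪e, u₁⟫ = 1 := by rw [hu₁, inner_add_right, hee, hh]; ring
  have hTu : T u₁ + μ₁ • u₁ = c • e := by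
    rw [← hc, hu₁, map_add, smul_add]; abel
  have hu₁0 : u₁ ≠ 0 := by
    intro h0
    rw [h0, inner_zero_right] at hu₁e
    exact zero_ne_one hu₁e
  have hc0 : c = ⟪T u₁, u₁⟫ + μ₁ * ‖u₁‖ ^ 2 := by
    have h1 : ⟪T u₁ + μ₁ • u₁, u₁⟫ = c := by
      rw [hTu, inner_smul_left, hu₁e]; simp
    rw [inner_add_left, inner_smul_left, real_inner_self_eq_norm_sq] at h1
    simpa using h1.symm
  rcases eq_or_ne c 0 with hc1 | hc1
  · refine ⟨-μ₁, by linarith, u₁, hu₁0, ?_⟩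
    rw [hc1, zero_smul] at hTu
    rw [neg_smul]
    exact eq_neg_of_add_eq_zero_left hTu
  · exfalso
    have hcp : 0 < c := lt_of_le_of_ne (by rw [hc0]; linarith [hall u₁]) hc1.symm
    have hu₁n : 0 < ‖u₁‖ := norm_pos_iff.mpr hu₁0
    set δ := min (c / (2 * ‖u₁‖ ^ 2)) (μ₁ / 2) with hδ
    have hδ0 : 0 < δ := lt_min (by positivity) (by positivity)
    have hub : ∀ ν ∈ N, ν ≤ μ₁ - δ := by
      rintro ν ⟨x, hx, rfl⟩
      set s := ⟪e, x⟫ with hs
      set h' := x - s • u₁ with hh'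
      have hh'e : ⟪e, h'⟫ = 0 := by
        rw [hh', inner_sub_right, inner_smul_right, hu₁e]; ring
      have hx' : x = s • u₁ + h' := by rw [hh']; abel
      have h1 : ⟪T x + μ₁ • x, x⟫ = s ^ 2 * c + (⟪T h', h'⟫ + μ₁ * ‖h'‖ ^ 2) := by
        have e1 : T x + μ₁ • x = s • (c • e) + (T h' + μ₁ • h') := by
          rw [← hTu]
          conv_lhs => rw [hx']
          rw [map_add, map_smul]
          module
        have e2 : ⟪T h' + μ₁ • h', u₁⟫ = 0 := by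
          rw [inner_add_left, hT, inner_smul_left]
          have : ⟪h', T u₁⟫ + μ₁ * ⟪h', u₁⟫ = ⟪h', T u₁ + μ₁ • u₁⟫ := by
            rw [inner_add_right, inner_smul_right]
          simp only [conj_trivial]
          rw [this, hTu, inner_smul_right, real_inner_comm, hh'e]
          ring
        rw [e1, inner_add_left]
        conv_lhs => rw [hx']
        rw [inner_add_right, inner_add_right, inner_smul_left, inner_smul_left, inner_smul_left,
          inner_smul_left, inner_smul_right, inner_smul_right, hu₁e, hh'e, e2, inner_add_left,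
          inner_smul_left, real_inner_self_eq_norm_sq]
        simp
        ring
      have h2 := hpos h' hh'e
      have h3 : (1:ℝ) ≤ 2 * s ^ 2 * ‖u₁‖ ^ 2 + 2 * ‖h'‖ ^ 2 := by
        have h4 : ‖x‖ ≤ |s| * ‖u₁‖ + ‖h'‖ := by
          conv_lhs => rw [hx']
          refine (norm_add_le _ _).trans ?_
          rw [norm_smul, Real.norm_eq_abs]
        rw [hx] at h4
        have h5 : (1:ℝ) ≤ (|s| * ‖u₁‖ + ‖h'‖) ^ 2 := by nlinarith
        have h6 := sq_abs s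
        nlinarith [sq_nonneg (|s| * ‖u₁‖ - ‖h'‖)]
      have h4 : δ ≤ s ^ 2 * c + μ₁ * ‖h'‖ ^ 2 := by
        have d1 : δ ≤ c / (2 * ‖u₁‖ ^ 2) := min_le_left _ _
        have d2 : δ ≤ μ₁ / 2 := min_le_right _ _
        rw [le_div_iff₀ (by positivity)] at d1
        have d3 : δ * 1 ≤ δ * (2 * s ^ 2 * ‖u₁‖ ^ 2 + 2 * ‖h'‖ ^ 2) := mul_le_mul_of_nonneg_left h3 hδ0.le
        nlinarith [sq_nonneg s, sq_nonneg ‖h'‖]
      rw [inner_add_left, inner_smul_left, real_inner_self_eq_norm_sq, hx] at h1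
      simp only [conj_trivial] at h1
      linarith
    have h5 : μ₁ ≤ μ₁ - δ := csSup_le ⟨_, hmem u hu⟩ hub
    linarith

omit [CompleteSpace X] in
/-- uniqueness of the negative eigenvalue -/
theorem abs_unique (T : X →L[ℝ] X) (hT : ∀ x y, ⟪T x, y⟫ = ⟪x, T y⟫) (e : X)
    (hpos : ∀ x, ⟪e, x⟫ = 0 → 0 ≤ ⟪T x, x⟫) {l l' : ℝ} (hl : l < 0) (hl' : l' < 0) {v v' : X}
    (hv : v ≠ 0) (hv' : v' ≠ 0) (h : T v = l • v) (h' : T v' = l' • v') : l = l' := by
  by_contra hne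
  have hvn : 0 < ‖v‖ := norm_pos_iff.mpr hv
  have hvn' : 0 < ‖v'‖ := norm_pos_iff.mpr hv'
  have h1 : ⟪v, v'⟫ = 0 := by
    have := hT v v'
    rw [h, h', inner_smul_left, inner_smul_right] at this
    simp only [conj_trivial] at this
    have h2 : (l - l') * ⟪v, v'⟫ = 0 := by linarith
    exact (mul_eq_zero.mp h2).resolve_left (sub_ne_zero.mpr hne)
  have hne1 : ⟪e, v⟫ ≠ 0 := by
    intro h0
    have := hpos v h0
    rw [h, inner_smul_left, real_inner_self_eq_norm_sq] at this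
    simp only [conj_trivial] at this
    nlinarith [pow_pos hvn 2]
  have h3 := hpos (⟪e, v'⟫ • v - ⟪e, v⟫ • v') (by
    rw [inner_sub_right, inner_smul_right, inner_smul_right]; ring)
  have h4 : ⟪T (⟪e, v'⟫ • v - ⟪e, v⟫ • v'), ⟪e, v'⟫ • v - ⟪e, v⟫ • v'⟫
      = l * ⟪e, v'⟫ ^ 2 * ‖v‖ ^ 2 + l' * ⟪e, v⟫ ^ 2 * ‖v'‖ ^ 2 := by
    rw [map_sub, map_smul, map_smul, h, h']
    simp only [inner_sub_left, inner_sub_right, inner_smul_left, inner_smul_right,
      real_inner_self_eq_norm_sq, conj_trivial, h1, real_inner_comm v v']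
    ring
  rw [h4] at h3
  have h5 : 0 < ⟪e, v⟫ ^ 2 := by positivity
  nlinarith [mul_pos h5 (pow_pos hvn' 2), mul_nonneg (sq_nonneg ⟪e, v'⟫) (sq_nonneg ‖v‖)]

end Pool.Agent.R227.LP
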