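import Pool.Agent.R227.LP5

set_option autoImplicit false

open MeasureTheory Set
open scoped Topology ENNReal NNReal RealInnerProductSpace

namespace Pool.Agent.R227.LP

/-- `l` is an eigenvalue of the logarithmic potential operator on `L²(A)` -/
def IsEig (A : Set ℂ) (l : ℝ) : Prop :=
  ∃ v : ℂ → ℝ, MemLp v 2 (volume.restrict A) ∧ ¬ (v =ᵐ[volume.restrict A] 0) ∧
    ∀ᵐ x ∂(volume.restrict A), ∫ y in A, Real.log (1 / ‖x - y‖) * v y = l * v x

/-- concrete form of the eigenvalue property -/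
def NEig (R : ℝ) (A : Set ℂ) (l : ℝ) (v : ℂ → ℝ) : Prop :=
  Nice R v ∧ (∀ x ∉ A, v x = 0) ∧ ¬ (v =ᵐ[volume] 0) ∧ ∀ᵐ x, x ∈ A → pot v x = l * v x

variable {A : Set ℂ}

lemma pot_ind (hA : MeasurableSet A) (f : ℂ → ℝ) (x : ℂ) :
    pot (A.indicator f) x = ∫ y in A, Real.log (1 / ‖x - y‖) * f y := by
  unfold pot lk
  rw [← integral_indicator hA]
  congr 1
  ext y
  by_cases hy : y ∈ A
  · rw [indicator_of_mem hy, indicator_of_mem hy, one_div, Real.log_inv]
  · rw [indicator_of_notMem hy, indicator_of_notMem hy, mul_zero]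

lemma isEig_iff {R : ℝ} (hA : MeasurableSet A) (hAR : A ⊆ Metric.ball 0 R) (l : ℝ) :
    IsEig A l ↔ ∃ v, NEig R A l v := by
  constructor
  · rintro ⟨v, h1, h2, h3⟩
    refine ⟨A.indicator v, nice_ind hA hAR h1, fun x hx => indicator_of_notMem hx _, ?_, ?_⟩
    · intro h
      apply h2
      rw [Filter.EventuallyEq, ae_restrict_iff' hA]
      filter_upwards [h] with x hx hxA
      rwa [indicator_of_mem hxA] at hx
    · rw [ae_restrict_iff' hA] at h3
      filter_upwards [h3] with x hx hxA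
      rw [pot_ind hA, hx hxA, indicator_of_mem hxA]
  · rintro ⟨v, h1, h2, h3, h4⟩
    have e : A.indicator v = v := by
      ext x
      by_cases hx : x ∈ A
      · rw [indicator_of_mem hx]
      · rw [indicator_of_notMem hx, h2 x hx]
    refine ⟨v, h1.mem.restrict _, ?_, ?_⟩
    · intro h
      apply h3
      rw [Filter.EventuallyEq, ae_restrict_iff' hA] at h
      filter_upwards [h] with x hx
      by_cases hxA : x ∈ A
      · exact hx hxA
      · exact h2 x hxA
    · rw [ae_restrict_iff' hA]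
      filter_upwards [h4] with x hx hxA
      rw [← pot_ind hA, e, hx hxA]

/-- the normalised constant -/
lemma exists_unit {R : ℝ} (hA : MeasurableSet A) (hAR : A ⊆ Metric.ball 0 R) (hA0 : volume A ≠ 0) :
    ∃ e : LA A, ‖e‖ = 1 ∧ ∃ k : ℝ, k ≠ 0 ∧ (∀ f : LA A, ⟪e, f⟫ = k * ∫ x, ext A f x) ∧
      (e : ℂ → ℝ) =ᵐ[volume.restrict A] fun _ => k := by
  have hfin := finite_restrict hAR
  have htop : volume A ≠ ⊤ := ((measure_mono hAR).trans_lt measure_ball_lt_top).ne
  have hV : 0 < (volume A).toReal := ENNReal.toReal_pos hA0 htop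
  set k := (Real.sqrt (volume A).toReal)⁻¹ with hk
  have hk0 : 0 < k := by positivity
  have hm : MemLp (fun _ : ℂ => k) 2 (volume.restrict A) := memLp_const k
  have key : ∀ f : LA A, ⟪hm.toLp, f⟫ = k * ∫ x, ext A f x := by
    intro f
    rw [L2.inner_def]
    have e : ∫ x, ext A f x = ∫ x in A, f x := by
      unfold ext
      rw [integral_indicator hA]
    rw [e, ← integral_const_mul]
    apply integral_congr_ae
    filter_upwards [hm.coeFn_toLp] with x hx
    rw [hx]
    simp [mul_comm]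
  refine ⟨hm.toLp, ?_, k, hk0.ne', key, hm.coeFn_toLp⟩
  have h1 : ‖hm.toLp‖ ^ 2 = 1 := by
    rw [← real_inner_self_eq_norm_sq, key]
    have e : ∫ x, ext A hm.toLp x = ∫ x in A, k := by
      unfold ext
      rw [integral_indicator hA]
      exact integral_congr_ae hm.coeFn_toLp
    rw [e, setIntegral_const, Measure.real, smul_eq_mul, hk]
    have := Real.sq_sqrt hV.le
    field_simp
    linarith
  have h2 := norm_nonneg hm.toLp
  nlinarith [sq_nonneg (‖hm.toLp‖ - 1)]

lemma mean_pos {R : ℝ} (hR : 0 < R) (hA : MeasurableSet A) (hAR : A ⊆ Metric.ball 0 R) (f : LA A)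
    (h : ∫ x, ext A f x = 0) : 0 ≤ ⟪op hR hA hAR f, f⟫ := by
  rw [op_inner]
  exact (ext_nice hA hAR f).pos hR h

/-- solving `pot d + μ d + pot F = const` on `A` -/
theorem solve {R : ℝ} (hR : 0 < R) (hA : MeasurableSet A) (hAR : A ⊆ Metric.ball 0 R) {μ : ℝ}
    (hμ : 0 < μ) {F : ℂ → ℝ} (hF : Nice R F) :
    ∃ d, Nice R d ∧ (∀ x ∉ A, d x = 0) ∧ ∫ x, d x = 0 ∧
      ∃ c, ∀ᵐ x, x ∈ A → pot d x + μ * d x + pot F x = c := by
  by_cases hA0 : volume A = 0
  · refine ⟨fun _ => 0, ⟨by simp, fun x _ => rfl⟩, fun x _ => rfl, by simp, 0, ?_⟩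
    have : ∀ᵐ x, x ∉ A := measure_eq_zero_iff_ae_notMem.mp hA0
    filter_upwards [this] with x hx hxA
    exact absurd hxA hx
  · obtain ⟨e, he, k, hk, hke, hec⟩ := exists_unit hA hAR hA0
    set Ff := (hF.pot_memLp hR hA hAR).toLp (pot F) with hFf
    obtain ⟨d, hd, c, hc⟩ := abs_solve (op hR hA hAR) e he (fun f hf => by
      apply mean_pos hR hA hAR f
      rw [hke] at hf
      exact (mul_eq_zero.mp hf).resolve_left hk) hμ Ff
    refine ⟨ext A d, ext_nice hA hAR d, fun x hx => indicator_of_notMem hx _, ?_, c * k, ?_⟩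
    · rw [hke] at hd
      exact (mul_eq_zero.mp hd).resolve_left hk
    · rw [← ae_restrict_iff' hA]
      have h1 := Lp.coeFn_add (op hR hA hAR d + μ • d) Ff
      have h2 := Lp.coeFn_add (op hR hA hAR d) (μ • d)
      have h3 := Lp.coeFn_smul μ d
      have h4 := Lp.coeFn_smul c e
      rw [hc] at h1
      filter_upwards [h1, h2, h3, h4, hec, op_ae hR hA hAR d, (hF.pot_memLp hR hA hAR).coeFn_toLp,
        ae_restrict_mem hA] with x g1 g2 g3 g4 g5 g6 g7 hxA
      rw [g4, Pi.add_apply, g2, Pi.add_apply, g3, Pi.smul_apply, Pi.smul_apply, g5, g6, hFf, g7] at g1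
      unfold ext at g1 ⊢
      rw [indicator_of_mem hxA]
      simp only [smul_eq_mul] at g1
      exact g1.symm

/-- from a negative value of the form to a negative eigenvalue -/
theorem eig_of_form {R : ℝ} (hR : 0 < R) (hA : MeasurableSet A) (hAR : A ⊆ Metric.ball 0 R) {μ : ℝ}
    (hμ : 0 < μ) {u : ℂ → ℝ} (hu : Nice R u) (huA : ∀ x ∉ A, u x = 0) (hu0 : ¬ (u =ᵐ[volume] 0))
    (hle : bf u u ≤ -μ * ∫ x, u x ^ 2) : ∃ l ≤ -μ, IsEig A l := by
  have hA0 : volume A ≠ 0 := by
    intro h0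
    apply hu0
    have : ∀ᵐ x, x ∉ A := measure_eq_zero_iff_ae_notMem.mp h0
    filter_upwards [this] with x hx
    exact huA x hx
  obtain ⟨e, he, k, hk, hke, hec⟩ := exists_unit hA hAR hA0
  have hum : MemLp u 2 (volume.restrict A) := hu.mem.restrict _
  set U : LA A := hum.toLp u with hU
  have hUe : ext A U =ᵐ[volume] u := by
    refine (ext_ae hA hum.coeFn_toLp).trans ?_
    apply Filter.Eventually.of_forall
    intro x
    by_cases hx : x ∈ A
    · simp [indicator_of_mem hx]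
    · simp [indicator_of_notMem hx, huA x hx]
  have hU0 : U ≠ 0 := by
    intro h0
    apply hu0
    refine hUe.symm.trans ?_
    have h1 : (U : ℂ → ℝ) =ᵐ[volume.restrict A] (fun _ => 0) := by
      rw [h0]
      exact Lp.coeFn_zero _ _ _
    refine (ext_ae hA h1).trans ?_
    apply Filter.Eventually.of_forall
    intro x
    simp
  have hUn : ‖U‖ ^ 2 = ∫ x, u x ^ 2 := by
    rw [← ext_sq hA]
    apply integral_congr_ae
    filter_upwards [hUe] with x hx
    rw [hx]
  have hform : ⟪op hR hA hAR U, U⟫ ≤ -μ * ‖U‖ ^ 2 := by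
    rw [op_inner, hUn]
    refine le_trans (le_of_eq ?_) hle
    unfold bf
    rw [pot_congr hUe]
    apply integral_congr_ae
    filter_upwards [hUe] with x hx
    rw [hx]
  obtain ⟨l, hl, v, hv, hTv⟩ := abs_eig (op hR hA hAR) (op_symm hR hA hAR) e he (fun f hf => by
      apply mean_pos hR hA hAR f
      rw [hke] at hf
      exact (mul_eq_zero.mp hf).resolve_left hk) hμ U hU0 hform
  refine ⟨l, hl, v, Lp.memLp v, ?_, ?_⟩
  · intro h
    exact hv (Lp.eq_zero_iff_ae_eq_zero.mpr h)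
  · have h3 := Lp.coeFn_smul l v
    have h4 := op_ae hR hA hAR v
    rw [hTv] at h4
    filter_upwards [h3, h4] with x g3 g4
    rw [g3, Pi.smul_apply, smul_eq_mul] at g4
    rw [g4]
    exact (pot_ind hA _ x).symm

/-- from concrete eigenfunctions to the operator -/
lemma NEig.toLp {R : ℝ} (hR : 0 < R) (hA : MeasurableSet A) (hAR : A ⊆ Metric.ball 0 R) {l : ℝ}
    {v : ℂ → ℝ} (hv : NEig R A l v) : ∃ V : LA A, V ≠ 0 ∧ op hR hA hAR V = l • V := by
  obtain ⟨h1, h2, h3, h4⟩ := hv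
  have hum : MemLp v 2 (volume.restrict A) := h1.mem.restrict _
  have hUe : ext A (hum.toLp v) =ᵐ[volume] v := by
    refine (ext_ae hA hum.coeFn_toLp).trans ?_
    apply Filter.Eventually.of_forall
    intro x
    by_cases hx : x ∈ A
    · simp [indicator_of_mem hx]
    · simp [indicator_of_notMem hx, h2 x hx]
  refine ⟨hum.toLp v, ?_, ?_⟩
  · intro h0
    apply h3
    refine hUe.symm.trans ?_
    have h1 : (hum.toLp v : ℂ → ℝ) =ᵐ[volume.restrict A] (fun _ => 0) := by
      rw [h0]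
      exact Lp.coeFn_zero _ _ _
    refine (ext_ae hA h1).trans ?_
    apply Filter.Eventually.of_forall
    intro x
    simp
  · apply Lp.ext
    have h5 := op_ae hR hA hAR (hum.toLp v)
    have h6 := Lp.coeFn_smul l (hum.toLp v)
    rw [← ae_restrict_iff' hA] at h4
    filter_upwards [h5, h6, hum.coeFn_toLp, h4] with x g5 g6 g7 g8
    rw [g5, g6, Pi.smul_apply, g7, pot_congr hUe, g8, smul_eq_mul]

/-- uniqueness of the negative eigenvalue -/
theorem eig_unique {R : ℝ} (hR : 0 < R) (hA : MeasurableSet A) (hAR : A ⊆ Metric.ball 0 R) {l l' : ℝ}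
    (hl : l < 0) (hl' : l' < 0) (h : IsEig A l) (h' : IsEig A l') : l = l' := by
  obtain ⟨v, hv⟩ := (isEig_iff hA hAR l).mp h
  obtain ⟨v', hv'⟩ := (isEig_iff hA hAR l').mp h'
  obtain ⟨V, hV0, hV⟩ := hv.toLp hR hA hAR
  obtain ⟨V', hV0', hV'⟩ := hv'.toLp hR hA hAR
  have hA0 : volume A ≠ 0 := by
    intro h0
    obtain ⟨-, h2, h3, -⟩ := hv
    apply h3
    have : ∀ᵐ x, x ∉ A := measure_eq_zero_iff_ae_notMem.mp h0
    filter_upwards [this] with x hx
    exact h2 x hx
  obtain ⟨e, he, k, hk, hke, hec⟩ := exists_unit hA hAR hA0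
  exact abs_unique (op hR hA hAR) (op_symm hR hA hAR) e (fun f hf => by
      apply mean_pos hR hA hAR f
      rw [hke] at hf
      exact (mul_eq_zero.mp hf).resolve_left hk) hl hl' hV0 hV0' hV hV'

end Pool.Agent.R227.LP
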