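import Pool.Agent.R227.LP6

set_option autoImplicit false

open MeasureTheory Set
open scoped Topology ENNReal NNReal RealInnerProductSpace

namespace Pool.Agent.R227.LP

lemma log_far {R : ℝ} (hR : 0 < R) {x y : ℂ} (hx : 2 * R ≤ ‖x‖) (hy : ‖y‖ < R) :
    |Real.log ‖x - y‖ - Real.log ‖x‖| ≤ 2 * R / ‖x‖ := by
  have hx0 : 0 < ‖x‖ := by linarith
  have h1 : ‖x‖ - R ≤ ‖x - y‖ := by
    have := norm_sub_norm_le x y
    linarith
  have h2 : ‖x - y‖ ≤ ‖x‖ + R := (norm_sub_le _ _).trans (by linarith)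
  have h3 : 0 < ‖x - y‖ := by linarith
  rw [← Real.log_div h3.ne' hx0.ne']
  have h4 : Real.log (‖x - y‖ / ‖x‖) ≤ R / ‖x‖ := by
    have := Real.log_le_sub_one_of_pos (div_pos h3 hx0)
    have h5 : ‖x - y‖ / ‖x‖ ≤ 1 + R / ‖x‖ := by
      rw [div_le_iff₀ hx0]
      field_simp
      linarith
    linarith
  have h5 : -Real.log (‖x - y‖ / ‖x‖) ≤ 2 * R / ‖x‖ := by
    rw [← Real.log_inv, inv_div]
    have := Real.log_le_sub_one_of_pos (div_pos hx0 h3)
    have h6 : ‖x‖ / ‖x - y‖ ≤ 1 + 2 * R / ‖x‖ := by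
      rw [div_le_iff₀ h3]
      have h7 : (1 + 2 * R / ‖x‖) * (‖x‖ - R) ≤ (1 + 2 * R / ‖x‖) * ‖x - y‖ := by gcongr
      refine le_trans ?_ h7
      have h8 : (1 + 2 * R / ‖x‖) * (‖x‖ - R) = ‖x‖ + R - 2 * R ^ 2 / ‖x‖ := by field_simp; ring
      have h9 : 2 * R ^ 2 / ‖x‖ ≤ R := by
        rw [div_le_iff₀ hx0]; nlinarith
      linarith
    linarith
  have h6 : 0 < R / ‖x‖ := by positivity
  have h7 : 2 * R / ‖x‖ = 2 * (R / ‖x‖) := by ring
  rw [abs_le]
  constructor <;> linarith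

lemma Nice.far {R : ℝ} (hR : 0 < R) {h : ℂ → ℝ} (hh : Nice R h) (h0 : ∫ x, h x ≤ 0) {m : ℝ}
    (hm : m < 0) : ∃ ρ, ∀ x : ℂ, ρ ≤ ‖x‖ → m < pot h x := by
  set I := ∫ x, |h x| with hI
  have hI0 : 0 ≤ I := integral_nonneg fun x => abs_nonneg _
  refine ⟨max (max 1 (2 * R)) (2 * R * (I + 1) / (-m)), fun x hx => ?_⟩
  have h1 : 1 ≤ ‖x‖ := ((le_max_left _ _).trans (le_max_left _ _)).trans hx
  have h2 : 2 * R ≤ ‖x‖ := ((le_max_right _ _).trans (le_max_left _ _)).trans hx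
  have h3 : 2 * R * (I + 1) / (-m) ≤ ‖x‖ := (le_max_right _ _).trans hx
  have hx0 : 0 < ‖x‖ := by linarith
  have hi := hh.integrable
  have e : pot h x = -(Real.log ‖x‖ * ∫ y, h y) - ∫ y, (Real.log ‖x - y‖ - Real.log ‖x‖) * h y := by
    have hi2 : Integrable (fun y => Real.log ‖x - y‖ * h y) := by
      have := (hh.int hR x).neg
      refine this.congr (Filter.Eventually.of_forall fun y => ?_)
      simp only [lk, Pi.neg_apply]; ring
    have hi3 : Integrable (fun y => Real.log ‖x‖ * h y) := hi.const_mul _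
    simp_rw [sub_mul]
    rw [integral_sub hi2 hi3, integral_const_mul]
    unfold pot lk
    simp_rw [neg_mul]
    rw [integral_neg]
    ring
  have hb : |∫ y, (Real.log ‖x - y‖ - Real.log ‖x‖) * h y| ≤ 2 * R / ‖x‖ * I := by
    rw [hI, ← integral_const_mul]
    refine abs_integral_le_integral_abs.trans ?_
    apply integral_mono_of_nonneg (Filter.Eventually.of_forall fun y => abs_nonneg _)
      (hi.abs.const_mul _)
    refine Filter.Eventually.of_forall fun y => ?_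
    simp only
    rw [abs_mul]
    by_cases hy : R ≤ ‖y‖
    · rw [hh.van y hy]; simp
    · push Not at hy
      exact mul_le_mul_of_nonneg_right (log_far hR h2 hy) (abs_nonneg _)
  have hl : 0 ≤ -(Real.log ‖x‖ * ∫ y, h y) := by
    have := Real.log_nonneg h1
    nlinarith
  have h4 : 2 * R / ‖x‖ * I < -m := by
    rw [div_le_iff₀ (by linarith)] at h3
    rw [div_mul_eq_mul_div, div_lt_iff₀ hx0]
    nlinarith
  have h5 := abs_le.mp hb
  rw [e]
  linarith [h5.2]

/-- sublevel sets are compact -/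
lemma Nice.sublevel {R : ℝ} (hR : 0 < R) {h : ℂ → ℝ} (hh : Nice R h) (h0 : ∫ x, h x ≤ 0)
    {C : Set ℂ} (hC : IsClosed C) {m : ℝ} (hm : m < 0) : IsCompact {x ∈ C | pot h x ≤ m} := by
  obtain ⟨ρ, hρ⟩ := hh.far hR h0 hm
  apply (isCompact_closedBall (0:ℂ) ρ).of_isClosed_subset
  · exact hC.inter (isClosed_le (hh.continuous hR) continuous_const)
  · intro x hx
    rw [Metric.mem_closedBall, dist_zero_right]
    by_contra hcon
    push Not at hcon
    have := hρ x hcon.le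
    linarith [hx.2]

/-- eigenfunctions for a negative eigenvalue have one sign -/
lemma NEig.sign {R : ℝ} (hR : 0 < R) {A : Set ℂ} {μ : ℝ} (hμ : 0 < μ) {v : ℂ → ℝ}
    (hv : NEig R A (-μ) v) (h0 : 0 ≤ ∫ x, v x) : ∀ᵐ x, 0 ≤ v x := by
  obtain ⟨h1, h2, h3, h4⟩ := hv
  have hn : Nice R (fun x => (-1) * v x) := h1.smul (-1)
  have hint : ∫ x, (-1) * v x ≤ 0 := by rw [integral_const_mul]; linarith
  have hp : ∀ x, pot (fun x => (-1) * v x) x = - pot v x := fun x => by rw [pot_smul]; ring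
  have hmp := hn.maxp hR isOpen_univ (fun m hm => ⟨by
      have := hn.sublevel hR hint (C := closure univ) isClosed_closure hm
      exact this, subset_univ _⟩) (by
      filter_upwards [h4] with y hy _ hneg
      by_cases hyA : y ∈ A
      · rw [hp, hy hyA] at hneg
        nlinarith
      · rw [h2 y hyA]; simp)
  filter_upwards [h4] with x hx
  by_cases hxA : x ∈ A
  · have h5 := hmp x (mem_univ x)
    rw [hp, hx hxA] at h5
    nlinarith
  · rw [h2 x hxA]

/-- a nonnegative eigenfunction exists -/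
lemma exists_pos_eig {R : ℝ} (hR : 0 < R) {A : Set ℂ} (hA : MeasurableSet A)
    (hAR : A ⊆ Metric.ball 0 R) {μ : ℝ} (hμ : 0 < μ) (h : IsEig A (-μ)) :
    ∃ v, NEig R A (-μ) v ∧ (∀ᵐ x, 0 ≤ v x) ∧ 0 < ∫ x, v x := by
  obtain ⟨v, hv⟩ := (isEig_iff hA hAR (-μ)).mp h
  have key : ∀ w, NEig R A (-μ) w → 0 ≤ ∫ x, w x → ∃ v, NEig R A (-μ) v ∧ (∀ᵐ x, 0 ≤ v x) ∧ 0 < ∫ x, v x := by
    intro w hw h0
    have hs := hw.sign hR hμ h0
    refine ⟨w, hw, hs, lt_of_le_of_ne h0 fun h => ?_⟩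
    obtain ⟨h1, h2, h3, h4⟩ := hw
    exact h3 ((integral_eq_zero_iff_of_nonneg_ae hs h1.integrable).mp h.symm)
  rcases le_total 0 (∫ x, v x) with h0 | h0
  · exact key v hv h0
  · obtain ⟨h1, h2, h3, h4⟩ := hv
    apply key (fun x => (-1) * v x)
    · refine ⟨h1.smul (-1), fun x hx => by simp [h2 x hx], ?_, ?_⟩
      · intro h5
        apply h3
        filter_upwards [h5] with x hx
        simpa using hx
      · filter_upwards [h4] with x hx hxA
        rw [pot_smul, hx hxA]; ring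
    · rw [integral_const_mul]; linarith

end Pool.Agent.R227.LP
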