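import Pool.Agent.R227.LP8

set_option autoImplicit false

open MeasureTheory Set
open scoped Topology ENNReal NNReal RealInnerProductSpace

namespace Pool.Agent.R227.LP

lemma Nice.int_bf {R : ℝ} (hR : 0 < R) {u v : ℂ → ℝ} (hu : Nice R u) (hv : Nice R v) :
    Integrable (fun x => pot u x * v x) := by
  have h := (hu.int_prod hR hv).integral_prod_left
  refine h.congr (Filter.Eventually.of_forall fun x => ?_)
  exact integral_mul_const (v x) (fun y => lk x y * u y)

lemma Nice.int_mul {R : ℝ} {u v : ℂ → ℝ} (hu : Nice R u) (hv : Nice R v) :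
    Integrable (fun x => u x * v x) := hu.mem.integrable_mul hv.mem

lemma bf_expand {R : ℝ} (hR : 0 < R) {u v : ℂ → ℝ} (hu : Nice R u) (hv : Nice R v) :
    bf (fun x => u x + v x) (fun x => u x + v x) = bf u u + 2 * bf v u + bf v v := by
  have h1 : bf u v = bf v u := hu.bf_comm hR hv
  have e : ∀ x, pot (fun x => u x + v x) x * (u x + v x)
      = pot u x * u x + pot u x * v x + (pot v x * u x + pot v x * v x) := by
    intro x
    rw [hu.pot_add hR hv]; ring
  unfold bf at *
  simp_rw [e]
  have i1 : Integrable (fun x => pot u x * u x + pot u x * v x) := (hu.int_bf hR hu).add (hu.int_bf hR hv)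
  have i2 : Integrable (fun x => pot v x * u x + pot v x * v x) := (hv.int_bf hR hu).add (hv.int_bf hR hv)
  rw [integral_add i1 i2,
    integral_add (hu.int_bf hR hu) (hu.int_bf hR hv), integral_add (hv.int_bf hR hu) (hv.int_bf hR hv), h1]
  ring

/-- the polarization inequality for the negative eigenvalue, for bounded measurable sets -/
theorem polar (P : HP) {A : Set ℂ} (hA : MeasurableSet A) {R₀ : ℝ} (hA0 : A ⊆ Metric.ball 0 R₀)
    {μ : ℝ} (hμ : 0 < μ) (heig : IsEig (P.pol A) (-μ)) : ∃ l ≤ -μ, IsEig A l := by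
  set R : ℝ := |R₀| + ‖P.σ 0‖ + 1 with hRdef
  have hR : 0 < R := by positivity
  have hB : ∀ x, (x ∈ A ∨ P.σ x ∈ A) → ‖x‖ < R := by
    intro x hx
    have hR₀ : R₀ ≤ |R₀| := le_abs_self _
    have hσ0 := norm_nonneg (P.σ 0)
    rcases hx with hx | hx
    · have := hA0 hx
      rw [Metric.mem_ball, dist_zero_right] at this
      linarith
    · have h1 := hA0 hx
      rw [Metric.mem_ball, dist_zero_right] at h1
      have h2 : ‖x‖ ≤ ‖P.σ x‖ + ‖P.σ 0‖ := by
        calc ‖x‖ = ‖P.σ (P.σ x)‖ := by rw [P.σσ]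
          _ = ‖(P.σ (P.σ x) - P.σ 0) + P.σ 0‖ := by rw [sub_add_cancel]
          _ ≤ ‖P.σ (P.σ x) - P.σ 0‖ + ‖P.σ 0‖ := norm_add_le _ _
          _ = ‖P.σ x‖ + ‖P.σ 0‖ := by rw [P.σ_isom, sub_zero]
      linarith
  have hmk : ∀ u : ℂ → ℝ, MemLp u 2 volume → (∀ x, ¬ (x ∈ A ∨ P.σ x ∈ A) → u x = 0) → Nice R u := by
    intro u hu hu0
    refine ⟨hu, fun x hx => hu0 x fun h => ?_⟩
    have := hB x h
    linarith
  have hPA : P.pol A ⊆ Metric.ball 0 R := by
    intro x hx
    rw [Metric.mem_ball, dist_zero_right]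
    apply hB
    rw [P.mem_pol] at hx
    tauto
  obtain ⟨v, ⟨hvN, hvP, -, hveq⟩, hvpos, hvint⟩ := exists_pos_eig hR (P.pol_meas hA) hPA hμ heig
  -- pieces
  set S : Set ℂ := A ∩ P.σ ⁻¹' A with hS
  have hSm : MeasurableSet S := hA.inter (P.σ_meas hA)
  have hSR : S ⊆ Metric.ball 0 R := by
    intro x hx
    rw [Metric.mem_ball, dist_zero_right]
    exact hB x (Or.inl hx.1)
  have hSσ : ∀ x, P.σ x ∈ S ↔ x ∈ S := by
    intro x
    simp only [hS, mem_inter_iff, mem_preimage, P.σσ]
    exact and_comm
  set N : Set ℂ := (A ∩ (P.σ ⁻¹' A)ᶜ) ∩ P.H with hN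
  have hNm : MeasurableSet N := (hA.inter (P.σ_meas hA).compl).inter P.H_open.measurableSet
  set f : ℂ → ℝ := N.indicator v with hf
  have hfm : MemLp f 2 volume := hvN.mem.indicator hNm
  set F : ℂ → ℝ := fun x => f x - f (P.σ x) with hF
  have hFodd : ∀ x, F (P.σ x) = - F x := by
    intro x
    simp only [hF, P.σσ]; ring
  have hf0 : ∀ x, x ∉ A → f x = 0 := by
    intro x hx
    apply indicator_of_notMem
    intro h
    exact hx h.1.1
  have hFN : Nice R F := hmk F (hfm.sub (P.comp_mp hfm)) (by
    intro x hx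
    simp only [hF]
    rw [hf0 x (fun h => hx (Or.inl h)), hf0 _ (fun h => hx (Or.inr h)), sub_zero])
  obtain ⟨d, hdN, hd0, -, c, hdc⟩ := solve hR hSm hSR hμ hFN
  set d₁ : ℂ → ℝ := fun x => (1 / 2) * (d x - d (P.σ x)) with hd₁
  have hd₁0 : ∀ x, x ∉ S → d₁ x = 0 := by
    intro x hx
    simp only [hd₁]
    rw [hd0 x hx, hd0 _ (fun h => hx ((hSσ x).mp h))]; ring
  have hdσN : Nice R (fun x => d (P.σ x)) := hmk _ (P.comp_mp hdN.mem) (by
    intro x hx
    apply hd0
    intro h
    exact hx (Or.inl ((hSσ x).mp h).1))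
  have hd₁N : Nice R d₁ := (hdN.sub hdσN).smul (1 / 2)
  have hd₁odd : ∀ x, d₁ (P.σ x) = - d₁ x := by
    intro x
    simp only [hd₁, P.σσ]; ring
  set h : ℂ → ℝ := fun x => F x + d₁ x with hh
  have hhN : Nice R h := hFN.add hd₁N
  have hhodd : ∀ x, h (P.σ x) = - h x := by
    intro x
    simp only [hh]
    rw [hFodd, hd₁odd]; ring
  have hgodd : ∀ x, pot h (P.σ x) = - pot h x := by
    intro x
    rw [← P.pot_comp h x]
    have : (fun y => h (P.σ y)) = fun y => (-1) * h y := by
      ext y; rw [hhodd]; ring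
    rw [this, pot_smul]; ring
  have hFpodd : ∀ x, pot F (P.σ x) = - pot F x := by
    intro x
    rw [← P.pot_comp F x]
    have : (fun y => F (P.σ y)) = fun y => (-1) * F y := by
      ext y; rw [hFodd]; ring
    rw [this, pot_smul]; ring
  have hFS : ∀ x ∈ S, F x = 0 := by
    intro x hx
    simp only [hF]
    have h1 : f x = 0 := indicator_of_notMem (fun h => h.1.2 hx.2) _
    have h2 : f (P.σ x) = 0 := indicator_of_notMem (fun h => h.1.2 (by
      rw [mem_preimage, P.σσ]; exact hx.1)) _
    rw [h1, h2, sub_zero]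
  -- the equation on S
  have hS_eq : ∀ᵐ x, x ∈ S → pot h x = -μ * h x := by
    have hdc' := P.σ_mp.quasiMeasurePreserving.ae hdc
    filter_upwards [hdc, hdc'] with x h1 h2 hx
    have g1 := h1 hx
    have g2 := h2 ((hSσ x).mpr hx)
    have e1 : pot h x = pot F x + pot d₁ x := hFN.pot_add hR hd₁N x
    have e2 : pot d₁ x = (1 / 2) * (pot d x - pot d (P.σ x)) := by
      simp only [hd₁]
      rw [pot_smul (fun x => d x - d (P.σ x)), hdN.pot_sub hR hdσN, P.pot_comp]
    have e3 : h x = d₁ x := by simp only [hh]; rw [hFS x hx, zero_add]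
    rw [e1, e2, e3]
    simp only [hd₁]
    rw [hFpodd] at g2
    linarith
  -- integral of h
  have hhint : ∫ x, h x = 0 := by
    have h1 := P.int_comp h
    simp_rw [hhodd] at h1
    rw [integral_neg] at h1
    linarith
  -- values on the half plane, off S
  have hσH : ∀ x, 0 < P.s x → ¬ 0 < P.s (P.σ x) := by
    intro x hx
    rw [P.s_σ]; linarith
  have hfσ : ∀ x, 0 < P.s x → f (P.σ x) = 0 := fun x hx =>
    indicator_of_notMem (fun h => hσH x hx h.2) _
  have hoff : ∀ x, 0 < P.s x → x ∉ S → h x = f x := by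
    intro x hx hxS
    simp only [hh, hF]
    rw [hfσ x hx, hd₁0 x hxS]; ring
  -- maximum principle
  have hgpos : ∀ x ∈ P.H, 0 ≤ pot h x := by
    apply hhN.maxp hR P.H_open
    · intro m hm
      refine ⟨hhN.sublevel hR hhint.le isClosed_closure hm, ?_⟩
      rintro x ⟨hx1, hx2⟩
      by_contra hxH
      have h1 : P.s x = 0 := le_antisymm (not_lt.mp hxH) (P.closure_H hx1)
      have h2 := hgodd x
      rw [P.σ_fix h1] at h2
      linarith
    · filter_upwards [hS_eq, hvpos] with y h1 h2 hyH hyneg
      by_cases hyS : y ∈ S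
      · have := h1 hyS
        nlinarith
      · rw [hoff y hyH hyS]
        simp only [hf]
        by_cases hyN : y ∈ N
        · rw [indicator_of_mem hyN]; exact h2
        · rw [indicator_of_notMem hyN]
  -- the trial function
  have hvσN : Nice R (fun x => v (P.σ x)) := hmk _ (P.comp_mp hvN.mem) (by
    intro x hx
    apply hvP
    rw [P.mem_pol, P.σσ]
    tauto)
  have huN : Nice R (fun x => v (P.σ x) + h x) := hvσN.add hhN
  have huA : ∀ x ∉ A, v (P.σ x) + h x = 0 := by
    intro x hxA
    have hxS : x ∉ S := fun h => hxA h.1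
    have h1 : h x = - f (P.σ x) := by
      simp only [hh, hF]
      rw [hf0 x hxA, hd₁0 x hxS]; ring
    rw [h1]
    by_cases hN2 : P.σ x ∈ N
    · simp only [hf]
      rw [indicator_of_mem hN2]; ring
    · simp only [hf]
      rw [indicator_of_notMem hN2, hvP]
      · ring
      · intro h2
        rw [P.mem_pol, P.σσ] at h2
        apply hN2
        refine ⟨⟨?_, ?_⟩, ?_⟩
        · tauto
        · rw [mem_compl_iff, mem_preimage, P.σσ]; exact hxA
        · change 0 < P.s (P.σ x)
          tauto
  have huint : ∫ x, (v (P.σ x) + h x) = ∫ x, v x := by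
    rw [integral_add hvσN.integrable hhN.integrable, hhint, P.int_comp v, add_zero]
  apply eig_of_form hR hA (hA0.trans (Metric.ball_subset_ball ?_)) hμ huN huA ?_ ?_
  · have := le_abs_self R₀
    have := norm_nonneg (P.σ 0)
    linarith
  · intro h0
    have h1 : ∫ x, (v (P.σ x) + h x) = 0 := integral_eq_zero_of_ae h0
    linarith
  · -- the energy estimate
    have e0 : bf v v = -μ * ∫ x, v x ^ 2 := by
      unfold bf
      rw [← integral_const_mul]
      apply integral_congr_ae
      filter_upwards [hveq] with x hx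
      by_cases hxP : x ∈ P.pol A
      · rw [hx hxP]; ring
      · rw [hvP x hxP]; ring
    have e1 : bf (fun x => v (P.σ x)) (fun x => v (P.σ x)) = bf v v := by
      unfold bf
      rw [← P.int_comp (fun x => pot v x * v x)]
      congr 1
      ext x
      rw [P.pot_comp]
    have e2 : ∫ x, v (P.σ x) ^ 2 = ∫ x, v x ^ 2 := P.int_comp (fun x => v x ^ 2)
    have e3 := bf_expand hR hvσN hhN
    set ψ : ℂ → ℝ := fun x => (pot h x + μ * h x) * (h x + 2 * v (P.σ x)) with hψ
    have e4 : bf (fun x => v (P.σ x) + h x) (fun x => v (P.σ x) + h x)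
        + μ * ∫ x, (v (P.σ x) + h x) ^ 2 = ∫ x, ψ x := by
      have i1 := (hhN.int_bf hR hhN)
      have i2 := (hhN.int_bf hR hvσN)
      have i3 := hhN.int_mul hhN
      have i4 := hhN.int_mul hvσN
      have i5 := hvσN.int_sq
      have e5 : ∀ x, ψ x = (pot h x * h x + 2 * (pot h x * v (P.σ x)))
          + (μ * (h x * h x) + 2 * μ * (h x * v (P.σ x))) := by
        intro x; simp only [hψ]; ring
      have e6 : ∀ x, (v (P.σ x) + h x) ^ 2 = v (P.σ x) ^ 2 + (2 * (h x * v (P.σ x)) + h x * h x) := by
        intro x; ring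
      have j1 : Integrable (fun x => pot h x * h x + 2 * (pot h x * v (P.σ x))) := i1.add (i2.const_mul 2)
      have j2 : Integrable (fun x => μ * (h x * h x) + 2 * μ * (h x * v (P.σ x))) :=
        (i3.const_mul μ).add (i4.const_mul (2 * μ))
      have j3 : Integrable (fun x => 2 * (h x * v (P.σ x)) + h x * h x) := (i4.const_mul 2).add i3
      simp_rw [e5, e6]
      rw [integral_add j1 j2, integral_add i1 (i2.const_mul 2), integral_add (i3.const_mul μ) (i4.const_mul (2 * μ)),
        integral_add i5 j3, integral_add (i4.const_mul 2) i3, integral_const_mul, integral_const_mul,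
        integral_const_mul, integral_const_mul, e3, e1, e0, e2]
      unfold bf
      ring
    have e7 : ∫ x, ψ x ≤ 0 := by
      have hψi : Integrable ψ := by
        have i1 := (hhN.int_bf hR hhN)
        have i2 := (hhN.int_bf hR hvσN)
        have i3 := hhN.int_mul hhN
        have i4 := hhN.int_mul hvσN
        have e5 : ψ = fun x => (pot h x * h x + 2 * (pot h x * v (P.σ x)))
            + (μ * (h x * h x) + 2 * μ * (h x * v (P.σ x))) := by
          ext x; simp only [hψ]; ring
        rw [e5]
        exact (i1.add (i2.const_mul 2)).add ((i3.const_mul μ).add (i4.const_mul (2 * μ)))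
      have hψσi : Integrable (fun x => ψ (P.σ x)) := P.σ_mp.integrable_comp_of_integrable hψi
      have key : ∀ᵐ x, 0 < P.s x → ψ x + ψ (P.σ x) ≤ 0 := by
        filter_upwards [hS_eq, hvpos] with x h1 h2 hxH
        have hgx := hgpos x hxH
        have e8 : ψ x + ψ (P.σ x) = 2 * (pot h x + μ * h x) * (h x + v (P.σ x) - v x) := by
          simp only [hψ]
          rw [hgodd, hhodd, P.σσ]; ring
        rw [e8]
        by_cases hxS : x ∈ S
        · rw [h1 hxS]
          apply le_of_eq; ring
        · rw [hoff x hxH hxS]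
          have hvσ : v (P.σ x) = 0 := by
            apply hvP
            rw [P.mem_pol, P.σσ]
            rintro (⟨_, h3⟩ | ⟨⟨h3, h4⟩, _⟩)
            · exact hσH x hxH h3
            · exact hxS ⟨h4, h3⟩
          rw [hvσ]
          by_cases hxN : x ∈ N
          · simp only [hf]
            rw [indicator_of_mem hxN]
            apply le_of_eq; ring
          · simp only [hf]
            rw [indicator_of_notMem hxN]
            nlinarith
      have key' := P.σ_mp.quasiMeasurePreserving.ae key
      have hall : ∀ᵐ x, ψ x + ψ (P.σ x) ≤ 0 := by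
        filter_upwards [key, key', P.s_ne] with x h1 h2 h3
        rcases lt_or_gt_of_ne h3 with h4 | h4
        · have := h2 (by rw [P.s_σ]; linarith)
          rw [P.σσ] at this
          linarith
        · exact h1 h4
      have h5 : ∫ x, (ψ x + ψ (P.σ x)) ≤ 0 := integral_nonpos_of_ae hall
      rw [integral_add hψi hψσi, P.int_comp ψ] at h5
      linarith
    linarith

end Pool.Agent.R227.LP
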