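import Mathlib

set_option autoImplicit false

open MeasureTheory Real FourierTransform SchwartzMap LineDeriv
open scoped ContDiff

namespace Pool.Agent.R227.Polya

/-- Euclidean space of dimension `n`. -/
abbrev E (n : ℕ) := EuclideanSpace ℝ (Fin n)

variable {n : ℕ}

/-- complexified Schwartz function of a smooth compactly supported real function. -/
noncomputable def toS (u : E n → ℝ) (h1 : ContDiff ℝ ∞ u) (h2 : HasCompactSupport u) :
    𝓢(E n, ℂ) :=
  (h2.comp_left (g := (fun r : ℝ => (r : ℂ))) (by simp)).toSchwartzMap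
    (Complex.ofRealCLM.contDiff.comp h1)

lemma toS_apply (u : E n → ℝ) (h1 : ContDiff ℝ ∞ u) (h2 : HasCompactSupport u) (x : E n) :
    toS u h1 h2 x = (u x : ℂ) := rfl

lemma integrable_mul_of_bdd {u g : E n → ℝ} (h1 : Continuous u) (h2 : HasCompactSupport u)
    (hg : Continuous g) : Integrable (fun x => u x * g x) :=
  (h1.mul hg).integrable_of_hasCompactSupport h2.mul_right

lemma normsq_fourier (u : E n → ℝ) (h1 : ContDiff ℝ ∞ u) (h2 : HasCompactSupport u) (ξ : E n) :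
    ‖𝓕 (toS u h1 h2) ξ‖ ^ 2 = (∫ x, u x * Real.cos (2 * π * inner ℝ x ξ)) ^ 2
      + (∫ x, u x * Real.sin (2 * π * inner ℝ x ξ)) ^ 2 := by
  have hc : Integrable (fun x => u x * Real.cos (2 * π * inner ℝ x ξ)) :=
    integrable_mul_of_bdd h1.continuous h2 (by fun_prop)
  have hs : Integrable (fun x => u x * Real.sin (2 * π * inner ℝ x ξ)) :=
    integrable_mul_of_bdd h1.continuous h2 (by fun_prop)
  have key : 𝓕 (toS u h1 h2) ξ = ((∫ x, u x * Real.cos (2 * π * inner ℝ x ξ) : ℝ) : ℂ)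
      - Complex.I * ((∫ x, u x * Real.sin (2 * π * inner ℝ x ξ) : ℝ) : ℂ) := by
    rw [SchwartzMap.fourier_coe, Real.fourier_eq']
    rw [← integral_complex_ofReal, ← integral_complex_ofReal, ← integral_const_mul, ← integral_sub]
    · congr 1
      ext x
      rw [toS_apply]
      have : Complex.exp (↑(-2 * π * inner ℝ x ξ) * Complex.I)
        = Real.cos (2 * π * inner ℝ x ξ) - Real.sin (2 * π * inner ℝ x ξ) * Complex.I := by
        rw [Complex.exp_mul_I]
        push_cast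
        have e1 : (-2 * (π : ℂ) * ((inner ℝ x ξ : ℝ) : ℂ)) = -(2 * π * ((inner ℝ x ξ : ℝ) : ℂ)) := by
          ring
        rw [e1, Complex.cos_neg, Complex.sin_neg]
        ring
      rw [this]
      simp only [smul_eq_mul]
      push_cast
      ring
    · exact hc.ofReal
    · exact (hs.ofReal).const_mul _
  rw [key, Complex.sq_norm, Complex.normSq_apply]
  simp
  ring

/-- partial derivative along `v` of a smooth compactly supported function. -/
lemma contDiff_dir {u : E n → ℝ} (h1 : ContDiff ℝ ∞ u) (v : E n) :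
    ContDiff ℝ ∞ (fun x => fderiv ℝ u x v) := by
  have : ContDiff ℝ ∞ (fderiv ℝ u) := h1.fderiv_right (by simp)
  exact this.clm_apply contDiff_const

lemma hasCompactSupport_dir {u : E n → ℝ} (h2 : HasCompactSupport u) (v : E n) :
    HasCompactSupport (fun x => fderiv ℝ u x v) :=
  h2.fderiv_apply (𝕜 := ℝ) v

lemma fourier_dir (u : E n → ℝ) (h1 : ContDiff ℝ ∞ u) (h2 : HasCompactSupport u) (v ξ : E n) :
    𝓕 (toS (fun x => fderiv ℝ u x v) (contDiff_dir h1 v) (hasCompactSupport_dir h2 v)) ξ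
      = (2 * π * Complex.I) * (inner ℝ ξ v : ℝ) * 𝓕 (toS u h1 h2) ξ := by
  have e : toS (fun x => fderiv ℝ u x v) (contDiff_dir h1 v) (hasCompactSupport_dir h2 v)
      = ∂_{v} (toS u h1 h2) := by
    ext x
    rw [toS_apply, SchwartzMap.lineDerivOp_apply_eq_fderiv]
    have hd : DifferentiableAt ℝ u x := h1.differentiable (by simp) x
    have : (toS u h1 h2 : E n → ℂ) = fun y => Complex.ofRealCLM (u y) := by
      ext y; rfl
    rw [this]
    have hc : HasFDerivAt (fun y => Complex.ofRealCLM (u y))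
        (Complex.ofRealCLM.comp (fderiv ℝ u x)) x :=
      Complex.ofRealCLM.hasFDerivAt.comp x hd.hasFDerivAt
    rw [hc.fderiv]
    rfl
  rw [e, SchwartzMap.fourier_lineDerivOp_eq]
  have : (inner ℝ · v : E n → ℝ).HasTemperateGrowth := ((innerSL ℝ).flip v).hasTemperateGrowth
  simp [this]
  ring


/-- Plancherel for real smooth compactly supported functions. -/
lemma plancherel (u : E n → ℝ) (h1 : ContDiff ℝ ∞ u) (h2 : HasCompactSupport u) :
    ∫ ξ, ‖𝓕 (toS u h1 h2) ξ‖ ^ 2 = ∫ x, (u x) ^ 2 := by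
  rw [SchwartzMap.integral_norm_sq_fourier]
  congr 1
  ext x
  rw [toS_apply, Complex.norm_real, Real.norm_eq_abs, sq_abs]

lemma norm_fderiv_sq {u : E n → ℝ} (x : E n) :
    ‖fderiv ℝ u x‖ ^ 2 = ∑ i, (fderiv ℝ u x (EuclideanSpace.single i 1)) ^ 2 := by
  set L := fderiv ℝ u x
  have h := (EuclideanSpace.basisFun (Fin n) ℝ).sum_sq_norm_inner_right
    ((InnerProductSpace.toDual ℝ (E n)).symm L)
  rw [LinearIsometryEquiv.norm_map] at h
  rw [← h]
  refine Finset.sum_congr rfl fun i _ => ?_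
  rw [real_inner_comm, InnerProductSpace.toDual_symm_apply]
  simp

lemma integrable_normsq_fourier (f : 𝓢(E n, ℂ)) : Integrable (fun ξ => ‖f ξ‖ ^ 2) := by
  have := (f.memLp 2 (volume : Measure (E n)))
  exact this.integrable_norm_pow (by norm_num)

/-- squared modulus of the Fourier transform. -/
noncomputable def PS (u : E n → ℝ) (h1 : ContDiff ℝ ∞ u) (h2 : HasCompactSupport u) (ξ : E n) : ℝ :=
  ‖𝓕 (toS u h1 h2) ξ‖ ^ 2

lemma PS_nonneg (u : E n → ℝ) (h1 : ContDiff ℝ ∞ u) (h2 : HasCompactSupport u) (ξ : E n) :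
    0 ≤ PS u h1 h2 ξ := by unfold PS; positivity

lemma PS_integrable (u : E n → ℝ) (h1 : ContDiff ℝ ∞ u) (h2 : HasCompactSupport u) :
    Integrable (PS u h1 h2) := integrable_normsq_fourier _

lemma PS_integral (u : E n → ℝ) (h1 : ContDiff ℝ ∞ u) (h2 : HasCompactSupport u) :
    ∫ ξ, PS u h1 h2 ξ = ∫ x, (u x) ^ 2 := plancherel u h1 h2

lemma PS_dir (u : E n → ℝ) (h1 : ContDiff ℝ ∞ u) (h2 : HasCompactSupport u) (v ξ : E n) :
    PS (fun x => fderiv ℝ u x v) (contDiff_dir h1 v) (hasCompactSupport_dir h2 v) ξ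
      = (2 * π * inner ℝ ξ v) ^ 2 * PS u h1 h2 ξ := by
  unfold PS
  rw [fourier_dir u h1 h2 v ξ, norm_mul, mul_pow]
  congr 1
  simp [mul_pow]

lemma PS_cos_sin (u : E n → ℝ) (h1 : ContDiff ℝ ∞ u) (h2 : HasCompactSupport u) (ξ : E n) :
    PS u h1 h2 ξ = (∫ x, u x * Real.cos (2 * π * inner ℝ x ξ)) ^ 2
      + (∫ x, u x * Real.sin (2 * π * inner ℝ x ξ)) ^ 2 := normsq_fourier u h1 h2 ξ

attribute [irreducible] PS

/-- the power spectrum of the directional derivative -/
noncomputable def PD (u : E n → ℝ) (h1 : ContDiff ℝ ∞ u) (h2 : HasCompactSupport u) (v ξ : E n) : ℝ :=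
  PS (fun x => fderiv ℝ u x v) (contDiff_dir h1 v) (hasCompactSupport_dir h2 v) ξ

lemma PD_eq (u : E n → ℝ) (h1 : ContDiff ℝ ∞ u) (h2 : HasCompactSupport u) (v ξ : E n) :
    PD u h1 h2 v ξ = (2 * π * inner ℝ ξ v) ^ 2 * PS u h1 h2 ξ := PS_dir u h1 h2 v ξ

lemma PD_integrable (u : E n → ℝ) (h1 : ContDiff ℝ ∞ u) (h2 : HasCompactSupport u) (v : E n) :
    Integrable (fun ξ => PD u h1 h2 v ξ) := PS_integrable _ _ _

lemma PD_integral (u : E n → ℝ) (h1 : ContDiff ℝ ∞ u) (h2 : HasCompactSupport u) (v : E n) :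
    ∫ ξ, PD u h1 h2 v ξ = ∫ x, (fderiv ℝ u x v) ^ 2 := PS_integral _ _ _

lemma PD_cos_sin (u : E n → ℝ) (h1 : ContDiff ℝ ∞ u) (h2 : HasCompactSupport u) (v ξ : E n) :
    PD u h1 h2 v ξ = (∫ x, fderiv ℝ u x v * Real.cos (2 * π * inner ℝ x ξ)) ^ 2
      + (∫ x, fderiv ℝ u x v * Real.sin (2 * π * inner ℝ x ξ)) ^ 2 := PS_cos_sin _ _ _ ξ

attribute [irreducible] PD

lemma integrable_sq_of_cc {f : E n → ℝ} (hf : Continuous f) (hc : HasCompactSupport f) :
    Integrable (fun x => f x ^ 2) := by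
  have h : HasCompactSupport (fun x => f x * f x) := hc.mul_right
  have h2 : Continuous (fun x => f x * f x) := hf.mul hf
  have := h2.integrable_of_hasCompactSupport (μ := volume) h
  simpa [pow_two] using this

lemma gradient_identity (u : E n → ℝ) (h1 : ContDiff ℝ ∞ u) (h2 : HasCompactSupport u) :
    Integrable (fun ξ => (2 * π * ‖ξ‖) ^ 2 * PS u h1 h2 ξ) ∧
    ∫ ξ, (2 * π * ‖ξ‖) ^ 2 * PS u h1 h2 ξ = ∫ x, ‖fderiv ℝ u x‖ ^ 2 := by
  have key : ∀ ξ : E n, (2 * π * ‖ξ‖) ^ 2 * PS u h1 h2 ξ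
      = ∑ i, PD u h1 h2 (EuclideanSpace.single i 1) ξ := by
    intro ξ
    simp_rw [PD_eq]
    rw [← Finset.sum_mul]
    congr 1
    have : ∀ i : Fin n, (2 * π * inner ℝ ξ (EuclideanSpace.single i (1:ℝ))) ^ 2
        = (2 * π) ^ 2 * (ξ i) ^ 2 := by
      intro i
      rw [EuclideanSpace.inner_single_right]
      simp [mul_pow]
    simp_rw [this]
    rw [← Finset.mul_sum, mul_pow, EuclideanSpace.norm_sq_eq]
    simp only [Real.norm_eq_abs, sq_abs]
  have hint : ∀ i : Fin n, Integrable (fun ξ => PD u h1 h2 (EuclideanSpace.single i 1) ξ) :=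
    fun i => PD_integrable _ _ _ _
  have hint2 : ∀ i : Fin n, Integrable (fun x => (fderiv ℝ u x (EuclideanSpace.single i 1)) ^ 2) := by
    intro i
    exact integrable_sq_of_cc (contDiff_dir h1 (EuclideanSpace.single i 1)).continuous
      (hasCompactSupport_dir h2 (EuclideanSpace.single i 1))
  constructor
  · simp_rw [key]
    exact integrable_finsetSum _ fun i _ => hint i
  · simp_rw [key, norm_fderiv_sq]
    rw [integral_finsetSum _ fun i _ => hint i, integral_finsetSum _ fun i _ => hint2 i]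
    refine Finset.sum_congr rfl fun i _ => ?_
    rw [PD_integral]

end Pool.Agent.R227.Polya
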