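import Pool.Agent.R227.Polya1

set_option autoImplicit false

open MeasureTheory Real
open scoped ContDiff

namespace Pool.Agent.R227.Polya

variable {n : ℕ}

/-- Abstract Bessel inequality: if `f j` are continuous, compactly supported in `Ω`, and for every
coefficient vector `c` one has `∫ (∑ c j f j)² ≤ M ∑ c j²`, then `∑ (∫ f j g)² ≤ M ∫_Ω g²`. -/
lemma bessel {N : ℕ} {Ω : Set (E n)} (f : Fin N → E n → ℝ)
    (hf : ∀ j, Continuous (f j)) (hc : ∀ j, HasCompactSupport (f j))
    (hs : ∀ j x, x ∉ Ω → f j x = 0) {M : ℝ} (hM : 0 ≤ M)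
    (hB : ∀ c : Fin N → ℝ, ∫ x, (∑ j, c j * f j x) ^ 2 ≤ M * ∑ j, c j ^ 2)
    (g : E n → ℝ) (hg : Continuous g) (hg2 : IntegrableOn (fun x => g x ^ 2) Ω) :
    ∑ j, (∫ x, f j x * g x) ^ 2 ≤ M * ∫ x in Ω, g x ^ 2 := by
  classical
  set c : Fin N → ℝ := fun j => ∫ x, f j x * g x with hcdef
  set F : E n → ℝ := fun x => ∑ j, c j * f j x with hF
  have hFc : Continuous F := by
    apply continuous_finsetSum
    intro j _
    exact continuous_const.mul (hf j)
  have hFs : ∀ x, x ∉ Ω → F x = 0 := by
    intro x hx
    simp only [hF]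
    apply Finset.sum_eq_zero
    intro j _
    rw [hs j x hx, mul_zero]
  have hFcs : HasCompactSupport F := by
    apply HasCompactSupport.intro (K := ⋃ j, tsupport (f j)) (isCompact_iUnion fun j => hc j)
    intro x hx
    simp only [Set.mem_iUnion, not_exists] at hx
    simp only [hF]
    apply Finset.sum_eq_zero
    intro j _
    rw [image_eq_zero_of_notMem_tsupport (hx j), mul_zero]
  have hFg : ∫ x, F x * g x = ∑ j, c j ^ 2 := by
    have : ∀ x, F x * g x = ∑ j, c j * (f j x * g x) := by
      intro x
      simp only [hF]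
      rw [Finset.sum_mul]
      refine Finset.sum_congr rfl fun j _ => by ring
    simp_rw [this]
    rw [integral_finsetSum]
    · refine Finset.sum_congr rfl fun j _ => ?_
      rw [integral_const_mul]
      simp only [hcdef]
      ring
    · intro j _
      exact (integrable_mul_of_bdd (hf j) (hc j) hg).const_mul _
  have hFg' : ∫ x in Ω, F x * g x = ∑ j, c j ^ 2 := by
    rw [← hFg]
    apply setIntegral_eq_integral_of_forall_compl_eq_zero
    intro x hx
    rw [hFs x hx, zero_mul]
  have hF2' : ∫ x in Ω, F x ^ 2 = ∫ x, F x ^ 2 := by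
    apply setIntegral_eq_integral_of_forall_compl_eq_zero
    intro x hx
    rw [hFs x hx]; ring
  have hFg_int : Integrable (fun x => F x * g x) := integrable_mul_of_bdd hFc hFcs hg
  have hF2_int : Integrable (fun x => F x ^ 2) := integrable_sq_of_cc hFc hFcs
  have h0 : 0 ≤ ∫ x in Ω, (F x - M * g x) ^ 2 := integral_nonneg fun x => sq_nonneg _
  have h1 : ∫ x in Ω, (F x - M * g x) ^ 2
      = (∫ x in Ω, F x ^ 2) - 2 * M * (∑ j, c j ^ 2) + M ^ 2 * ∫ x in Ω, g x ^ 2 := by
    have e : ∀ x, (F x - M * g x) ^ 2 = F x ^ 2 - 2 * M * (F x * g x) + M ^ 2 * g x ^ 2 := by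
      intro x; ring
    simp_rw [e]
    rw [integral_add, integral_sub, integral_const_mul, integral_const_mul, hFg']
    · exact hF2_int.integrableOn
    · exact (hFg_int.integrableOn).const_mul _
    · exact hF2_int.integrableOn.sub ((hFg_int.integrableOn).const_mul _)
    · exact hg2.const_mul _
  have h2 : ∫ x, F x ^ 2 ≤ M * ∑ j, c j ^ 2 := hB c
  rw [h1, hF2'] at h0
  rcases hM.eq_or_lt with hM0 | hMpos
  · -- M = 0
    subst hM0
    have h3 : ∫ x, F x ^ 2 = 0 := le_antisymm (by simpa using h2) (integral_nonneg fun x => sq_nonneg _)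
    have h4 : (fun x => F x ^ 2) =ᵐ[volume] 0 := by
      rw [integral_eq_zero_iff_of_nonneg (fun x => sq_nonneg _) hF2_int] at h3
      exact h3
    have h5 : ∫ x, F x * g x = 0 := by
      apply integral_eq_zero_of_ae
      filter_upwards [h4] with x hx
      have : F x = 0 := by simpa using hx
      simp [this]
    rw [← hFg, h5]
    simp
  · have h6 : 0 ≤ M * (M * (∫ x in Ω, g x ^ 2) - ∑ j, c j ^ 2) := by nlinarith
    have h7 := nonneg_of_mul_nonneg_right h6 hMpos
    linarith

/-- An `L²`-orthonormal basis (as a family) of a finite-dimensional space of continuous compactly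
supported functions. -/
lemma exists_orthonormal (V : Submodule ℝ (E n → ℝ))
    (hV : ∀ u ∈ V, Continuous u ∧ HasCompactSupport u)
    (hpos : ∀ u ∈ V, u ≠ 0 → 0 < ∫ x, u x ^ 2) [FiniteDimensional ℝ V] :
    ∃ u : Fin (Module.finrank ℝ V) → E n → ℝ, (∀ j, u j ∈ V) ∧
      ∀ i j, ∫ x, u i x * u j x = if i = j then 1 else 0 := by
  classical
  let core : InnerProductSpace.Core ℝ V :=
    { inner := fun u v => ∫ x, (u : E n → ℝ) x * (v : E n → ℝ) x
      conj_inner_symm := by
        intro u v
        simp only [conj_trivial]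
        congr 1
        ext x
        ring
      re_inner_nonneg := by
        intro u
        simp only [RCLike.re_to_real]
        exact integral_nonneg fun x => mul_self_nonneg _
      add_left := by
        intro u v w
        change ∫ x, ((u : E n → ℝ) x + (v : E n → ℝ) x) * (w : E n → ℝ) x = _
        have hu := hV u u.2
        have hv := hV v v.2
        have hw := hV w w.2
        rw [← integral_add (integrable_mul_of_bdd hu.1 hu.2 hw.1)
          (integrable_mul_of_bdd hv.1 hv.2 hw.1)]
        congr 1
        ext x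
        ring
      smul_left := by
        intro u v r
        change ∫ x, (r * (u : E n → ℝ) x) * (v : E n → ℝ) x = _
        simp only [conj_trivial]
        rw [← integral_const_mul]
        congr 1
        ext x
        ring
      definite := by
        intro u hu
        by_contra hne
        have hne' : (u : E n → ℝ) ≠ 0 := by
          intro h
          apply hne
          exact Subtype.ext h
        have := hpos u u.2 hne'
        have h2 : ∫ x, (u : E n → ℝ) x * (u : E n → ℝ) x = 0 := hu
        simp_rw [pow_two] at this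
        linarith }
  let _ : NormedAddCommGroup V := core.toNormedAddCommGroup
  let _ : InnerProductSpace ℝ V := InnerProductSpace.ofCore core.toCore
  let b := stdOrthonormalBasis ℝ V
  refine ⟨fun j => (b j : E n → ℝ), fun j => (b j).2, fun i j => ?_⟩
  have := b.orthonormal
  rw [orthonormal_iff_ite] at this
  exact this i j

end Pool.Agent.R227.Polya
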