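import Pool.Agent.R227.Polya2

set_option autoImplicit false

open MeasureTheory Real
open scoped ContDiff

namespace Pool.Agent.R227.Polya

variable {n : ℕ}

/-- combination of a finite family -/
lemma comb_mem {N : ℕ} (V : Submodule ℝ (E n → ℝ)) (u : Fin N → E n → ℝ) (hu : ∀ j, u j ∈ V)
    (c : Fin N → ℝ) : (fun x => ∑ j, c j * u j x) ∈ V := by
  have : (fun x => ∑ j, c j * u j x) = ∑ j, c j • u j := by
    ext x
    simp [Finset.sum_apply]
  rw [this]
  exact Submodule.sum_mem _ fun j _ => V.smul_mem _ (hu j)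

lemma comb_sq {N : ℕ} (u : Fin N → E n → ℝ) (hu1 : ∀ j, Continuous (u j))
    (hu2 : ∀ j, HasCompactSupport (u j))
    (ho : ∀ i j, ∫ x, u i x * u j x = if i = j then 1 else 0) (c : Fin N → ℝ) :
    ∫ x, (∑ j, c j * u j x) ^ 2 = ∑ j, c j ^ 2 := by
  have e : ∀ x, (∑ j, c j * u j x) ^ 2 = ∑ i, ∑ j, c i * c j * (u i x * u j x) := by
    intro x
    rw [pow_two, Finset.sum_mul_sum]
    refine Finset.sum_congr rfl fun i _ => Finset.sum_congr rfl fun j _ => by ring
  simp_rw [e]
  rw [integral_finsetSum]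
  · refine Finset.sum_congr rfl fun i _ => ?_
    rw [integral_finsetSum]
    · simp_rw [integral_const_mul, ho]
      simp [pow_two]
    · intro j _
      exact (integrable_mul_of_bdd (hu1 i) (hu2 i) (hu1 j)).const_mul _
  · intro i _
    apply integrable_finsetSum
    intro j _
    exact (integrable_mul_of_bdd (hu1 i) (hu2 i) (hu1 j)).const_mul _

/-- the main pointwise bounds and integral bounds for the summed power spectrum. -/
theorem spectrum_bounds (Ω : Set (E n)) (hb : Bornology.IsBounded Ω)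
    (lam : ℝ) (hlam : 0 < lam) (V : Submodule ℝ (E n → ℝ))
    (hV : ∀ u ∈ V, ContDiff ℝ ∞ u ∧ HasCompactSupport u ∧ tsupport u ⊆ Ω)
    (hR : ∀ u ∈ V, u ≠ 0 → ∫ x, ‖fderiv ℝ u x‖ ^ 2 < lam * ∫ x, (u x) ^ 2)
    [FiniteDimensional ℝ V] :
    ∃ F : E n → ℝ, Integrable F ∧ Integrable (fun ξ => (2 * π * ‖ξ‖) ^ 2 * F ξ) ∧
      (∀ ξ, 0 ≤ F ξ) ∧
      (∫ ξ, F ξ = Module.finrank ℝ V) ∧
      (∫ ξ, (2 * π * ‖ξ‖) ^ 2 * F ξ ≤ lam * Module.finrank ℝ V) ∧
      (∀ ξ, F ξ ≤ (volume Ω).toReal) ∧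
      (∀ ξ, (2 * π * ‖ξ‖) ^ 2 * F ξ ≤ lam * (volume Ω).toReal) := by
  classical
  have hpos : ∀ u ∈ V, u ≠ 0 → 0 < ∫ x, u x ^ 2 := by
    intro u hu h0
    have h1 := hR u hu h0
    have h2 : 0 ≤ ∫ x, ‖fderiv ℝ u x‖ ^ 2 := integral_nonneg fun x => by positivity
    have h3 : 0 < lam * ∫ x, u x ^ 2 := lt_of_le_of_lt h2 h1
    exact (mul_pos_iff_of_pos_left hlam).mp h3
  have hR' : ∀ u ∈ V, ∫ x, ‖fderiv ℝ u x‖ ^ 2 ≤ lam * ∫ x, (u x) ^ 2 := by
    intro u hu
    by_cases h0 : u = 0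
    · subst h0
      simp
    · exact (hR u hu h0).le
  obtain ⟨u, huV, ho⟩ := exists_orthonormal V (fun u hu => ⟨(hV u hu).1.continuous, (hV u hu).2.1⟩) hpos
  have hu1 : ∀ j, ContDiff ℝ ∞ (u j) := fun j => (hV _ (huV j)).1
  have hu2 : ∀ j, HasCompactSupport (u j) := fun j => (hV _ (huV j)).2.1
  have hu3 : ∀ j, tsupport (u j) ⊆ Ω := fun j => (hV _ (huV j)).2.2
  have hvanish : ∀ j x, x ∉ Ω → u j x = 0 := fun j x hx =>
    image_eq_zero_of_notMem_tsupport fun h => hx (hu3 j h)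
  have hfin : volume Ω ≠ ⊤ := hb.measure_lt_top.ne
  have hIc : ∀ ξ : E n, IntegrableOn (fun x => Real.cos (2 * π * inner ℝ x ξ) ^ 2) Ω := by
    intro ξ
    apply Measure.integrableOn_of_bounded (M := 1) hfin
      (Continuous.aestronglyMeasurable (by fun_prop))
    refine Filter.Eventually.of_forall fun x => ?_
    rw [Real.norm_eq_abs, abs_of_nonneg (sq_nonneg _)]
    exact Real.cos_sq_le_one _
  have hIs : ∀ ξ : E n, IntegrableOn (fun x => Real.sin (2 * π * inner ℝ x ξ) ^ 2) Ω := by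
    intro ξ
    apply Measure.integrableOn_of_bounded (M := 1) hfin
      (Continuous.aestronglyMeasurable (by fun_prop))
    refine Filter.Eventually.of_forall fun x => ?_
    rw [Real.norm_eq_abs, abs_of_nonneg (sq_nonneg _)]
    exact Real.sin_sq_le_one _
  have hcs : ∀ ξ : E n, (∫ x in Ω, Real.cos (2 * π * inner ℝ x ξ) ^ 2)
      + (∫ x in Ω, Real.sin (2 * π * inner ℝ x ξ) ^ 2) = (volume Ω).toReal := by
    intro ξ
    rw [← integral_add (hIc ξ) (hIs ξ)]
    simp [Real.cos_sq_add_sin_sq, Measure.real]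
  have hdv : ∀ (v : E n) j x, x ∉ Ω → fderiv ℝ (u j) x v = 0 := by
    intro v j x hx
    have : x ∉ tsupport (fderiv ℝ (u j)) := fun h => hx (hu3 j (tsupport_fderiv_subset ℝ h))
    rw [image_eq_zero_of_notMem_tsupport this]
    rfl
  refine ⟨fun ξ => ∑ j, PS (u j) (hu1 j) (hu2 j) ξ, ?_, ?_, ?_, ?_, ?_, ?_, ?_⟩
  · exact integrable_finsetSum _ fun j _ => PS_integrable _ _ _
  · simp_rw [Finset.mul_sum]
    exact integrable_finsetSum _ fun j _ => (gradient_identity _ _ _).1
  · intro ξ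
    exact Finset.sum_nonneg fun j _ => PS_nonneg _ _ _ _
  · rw [integral_finsetSum _ fun j _ => PS_integrable _ _ _]
    simp_rw [PS_integral, pow_two, ho]
    simp
  · simp_rw [Finset.mul_sum]
    rw [integral_finsetSum _ fun j _ => (gradient_identity _ _ _).1]
    have : ∀ j, ∫ ξ, (2 * π * ‖ξ‖) ^ 2 * PS (u j) (hu1 j) (hu2 j) ξ ≤ lam := by
      intro j
      rw [(gradient_identity _ _ _).2]
      have h1 := hR' _ (huV j)
      have h2 : ∫ x, u j x ^ 2 = 1 := by
        simp_rw [pow_two, ho]; simp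
      rw [h2] at h1
      linarith
    calc _ ≤ ∑ j : Fin (Module.finrank ℝ V), lam := Finset.sum_le_sum fun j _ => this j
      _ = lam * Module.finrank ℝ V := by simp [mul_comm]
  · intro ξ
    simp_rw [PS_cos_sin]
    rw [Finset.sum_add_distrib, ← hcs ξ]
    have hB : ∀ c : Fin (Module.finrank ℝ V) → ℝ, ∫ x, (∑ j, c j * u j x) ^ 2 ≤ 1 * ∑ j, c j ^ 2 := by
      intro c
      rw [comb_sq u (fun j => (hu1 j).continuous) hu2 ho c, one_mul]
    have b1 := bessel (Ω := Ω) u (fun j => (hu1 j).continuous) hu2 hvanish zero_le_one hB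
      (fun x => Real.cos (2 * π * inner ℝ x ξ)) (by fun_prop) (hIc ξ)
    have b2 := bessel (Ω := Ω) u (fun j => (hu1 j).continuous) hu2 hvanish zero_le_one hB
      (fun x => Real.sin (2 * π * inner ℝ x ξ)) (by fun_prop) (hIs ξ)
    linarith
  · intro ξ
    by_cases hξ : ξ = 0
    · subst hξ
      simp
      positivity
    set v : E n := (‖ξ‖⁻¹) • ξ with hv
    have hvn : ‖v‖ = 1 := by
      rw [hv, norm_smul, norm_inv, norm_norm, inv_mul_cancel₀ (norm_ne_zero_iff.mpr hξ)]
    have hin : inner ℝ ξ v = ‖ξ‖ := by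
      rw [hv, inner_smul_right, real_inner_self_eq_norm_sq]
      field_simp
    have hPD : ∀ j, (2 * π * ‖ξ‖) ^ 2 * PS (u j) (hu1 j) (hu2 j) ξ = PD (u j) (hu1 j) (hu2 j) v ξ := by
      intro j
      rw [PD_eq, hin]
    rw [Finset.mul_sum]
    simp_rw [hPD, PD_cos_sin]
    rw [Finset.sum_add_distrib, ← hcs ξ]
    have hB : ∀ c : Fin (Module.finrank ℝ V) → ℝ,
        ∫ x, (∑ j, c j * fderiv ℝ (u j) x v) ^ 2 ≤ lam * ∑ j, c j ^ 2 := by
      intro c
      have hm := comb_mem V u huV c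
      have h1 := hR' _ hm
      rw [comb_sq u (fun j => (hu1 j).continuous) hu2 ho c] at h1
      refine le_trans ?_ h1
      have hd : ∀ x, ∑ j, c j * fderiv ℝ (u j) x v = fderiv ℝ (fun x => ∑ j, c j * u j x) x v := by
        intro x
        rw [fderiv_fun_sum]
        · simp only [sum_apply]
          refine Finset.sum_congr rfl fun j _ => ?_
          rw [fderiv_const_mul ((hu1 j).differentiable (by simp) x)]
          simp
        · intro j _
          exact ((hu1 j).differentiable (by simp) x).const_mul _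
      simp_rw [hd]
      have hU := hV _ hm
      apply integral_mono
      · exact integrable_sq_of_cc (contDiff_dir hU.1 v).continuous (hasCompactSupport_dir hU.2.1 v)
      · have : (fun x => ‖fderiv ℝ (fun x => ∑ j, c j * u j x) x‖ ^ 2)
          = fun x => ∑ i, (fderiv ℝ (fun x => ∑ j, c j * u j x) x (EuclideanSpace.single i 1)) ^ 2 := by
          ext x
          rw [norm_fderiv_sq]
        rw [this]
        apply integrable_finsetSum
        intro i _
        exact integrable_sq_of_cc (contDiff_dir hU.1 _).continuous (hasCompactSupport_dir hU.2.1 _)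
      · intro x
        have := (fderiv ℝ (fun x => ∑ j, c j * u j x) x).le_opNorm v
        rw [hvn, mul_one] at this
        have h3 := abs_le_abs_of_nonneg (norm_nonneg _) this
        simp only
        rw [← sq_abs, ← Real.norm_eq_abs]
        gcongr
    have b1 := bessel (Ω := Ω) (fun j x => fderiv ℝ (u j) x v) (fun j => (contDiff_dir (hu1 j) v).continuous)
      (fun j => hasCompactSupport_dir (hu2 j) v) (hdv v) hlam.le hB
      (fun x => Real.cos (2 * π * inner ℝ x ξ)) (by fun_prop) (hIc ξ)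
    have b2 := bessel (Ω := Ω) (fun j x => fderiv ℝ (u j) x v) (fun j => (contDiff_dir (hu1 j) v).continuous)
      (fun j => hasCompactSupport_dir (hu2 j) v) (hdv v) hlam.le hB
      (fun x => Real.sin (2 * π * inner ℝ x ξ)) (by fun_prop) (hIs ξ)
    rw [mul_add]
    linarith

end Pool.Agent.R227.Polya
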