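import Pool.Agent.R227.Polya3

set_option autoImplicit false

open MeasureTheory Real
open scoped ContDiff

namespace Pool.Agent.R227.Polya

variable {n : ℕ}

/-- radial profile -/
noncomputable def prof (q : ℝ) (r : ℝ) : ℝ :=
  max (q ^ 2 - r ^ 2) 0 * (if r ≤ 1 then 1 else 1 / r ^ 2)

lemma prof_nonneg (q r : ℝ) : 0 ≤ prof q r := by
  unfold prof
  apply mul_nonneg (le_max_right _ _)
  split_ifs <;> positivity

lemma prof_measurable (q : ℝ) : Measurable (prof q) := by
  unfold prof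
  apply Measurable.mul
  · fun_prop
  · exact Measurable.ite measurableSet_Iic measurable_const (by fun_prop)

lemma prof_le (q r : ℝ) : prof q r ≤ q ^ 2 := by
  unfold prof
  have h1 : max (q ^ 2 - r ^ 2) 0 ≤ q ^ 2 := max_le (by nlinarith [sq_nonneg r]) (sq_nonneg q)
  have h2 : (if r ≤ 1 then (1:ℝ) else 1 / r ^ 2) ≤ 1 := by
    split_ifs with h
    · exact le_rfl
    · push Not at h
      rw [div_le_one (by positivity)]
      nlinarith
  have h3 : (0:ℝ) ≤ (if r ≤ 1 then (1:ℝ) else 1 / r ^ 2) := by split_ifs <;> positivity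
  calc _ ≤ q ^ 2 * 1 := mul_le_mul h1 h2 h3 (sq_nonneg q)
    _ = q ^ 2 := mul_one _

lemma prof_zero {q r : ℝ} (hq : 0 ≤ q) (hr : q ≤ r) : prof q r = 0 := by
  unfold prof
  rw [max_eq_right (by nlinarith), zero_mul]

lemma prof_integrable (q : ℝ) (hq : 0 ≤ q) : Integrable (fun x : E n => prof q ‖x‖) := by
  have h1 : IntegrableOn (fun x : E n => prof q ‖x‖) (Metric.closedBall 0 q) := by
    apply Measure.integrableOn_of_bounded (M := q ^ 2) (measure_closedBall_lt_top.ne)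
      ((prof_measurable q).comp (measurable_norm (α := E n))).aestronglyMeasurable
    · refine Filter.Eventually.of_forall fun x => ?_
      simp only [Function.comp_apply]
      rw [Real.norm_eq_abs, abs_of_nonneg (prof_nonneg _ _)]
      exact prof_le _ _
  rw [← integrableOn_univ]
  rw [← Set.union_compl_self (Metric.closedBall (0 : E n) q)]
  refine h1.union ?_
  refine (integrableOn_zero).congr_fun ?_ measurableSet_closedBall.compl
  intro x hx
  simp only [Set.mem_compl_iff, Metric.mem_closedBall, dist_zero_right, not_le] at hx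
  change (0:ℝ) = prof q ‖x‖
  rw [prof_zero hq hx.le]

/-- The improved bound in integral form. -/
theorem bound1 (Ω : Set (E n)) (hb : Bornology.IsBounded Ω)
    (lam : ℝ) (hlam : 0 < lam) (V : Submodule ℝ (E n → ℝ))
    (hV : ∀ u ∈ V, ContDiff ℝ ∞ u ∧ HasCompactSupport u ∧ tsupport u ⊆ Ω)
    (hR : ∀ u ∈ V, u ≠ 0 → ∫ x, ‖fderiv ℝ u x‖ ^ 2 < lam * ∫ x, (u x) ^ 2)
    [FiniteDimensional ℝ V] (q : ℝ) (hq : 1 < q) :
    (q ^ 2 - 1) * (Module.finrank ℝ V : ℝ)
      ≤ (volume Ω).toReal * ∫ ξ : E n, prof q ‖(2 * π / √lam) • ξ‖ := by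
  obtain ⟨F, hF1, hF2, hF0, hFi, hFg, hFa, hFb⟩ := spectrum_bounds Ω hb lam hlam V hV hR
  have hsl : 0 < √lam := Real.sqrt_pos.mpr hlam
  have hsl2 : √lam ^ 2 = lam := Real.sq_sqrt hlam.le
  have hc : 2 * π / √lam ≠ 0 := by positivity
  have hpi : Integrable (fun ξ : E n => prof q ‖(2 * π / √lam) • ξ‖) :=
    (integrable_comp_smul_iff volume (fun x : E n => prof q ‖x‖) hc).mpr
      (prof_integrable q (by linarith))
  have hnorm : ∀ ξ : E n, ‖(2 * π / √lam) • ξ‖ = 2 * π * ‖ξ‖ / √lam := by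
    intro ξ
    rw [norm_smul, Real.norm_eq_abs, abs_of_pos (by positivity)]
    ring
  have hpt : ∀ ξ : E n, (q ^ 2 - (2 * π * ‖ξ‖) ^ 2 / lam) * F ξ
      ≤ (volume Ω).toReal * prof q ‖(2 * π / √lam) • ξ‖ := by
    intro ξ
    set t := 2 * π * ‖ξ‖ with ht
    have ht0 : 0 ≤ t := by positivity
    have hr : (t / √lam) ^ 2 = t ^ 2 / lam := by rw [div_pow, hsl2]
    rw [hnorm]
    unfold prof
    rw [hr]
    have hΩ0 : 0 ≤ (volume Ω).toReal := ENNReal.toReal_nonneg
    have hm1 : q ^ 2 - t ^ 2 / lam ≤ max (q ^ 2 - t ^ 2 / lam) 0 := le_max_left _ _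
    have hm0 : 0 ≤ max (q ^ 2 - t ^ 2 / lam) 0 := le_max_right _ _
    have hF : F ξ ≤ (volume Ω).toReal * (if t / √lam ≤ 1 then 1 else 1 / (t ^ 2 / lam)) := by
      split_ifs with h
      · rw [mul_one]; exact hFa ξ
      · push Not at h
        have h1 : √lam < t := by rwa [lt_div_iff₀ hsl, one_mul] at h
        have ht2 : 0 < t ^ 2 := by
          have := hsl.trans h1
          positivity
        have := hFb ξ
        rw [← ht] at this
        have e : (volume Ω).toReal * (1 / (t ^ 2 / lam)) = lam * (volume Ω).toReal / t ^ 2 := by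
          field_simp
        rw [e, le_div_iff₀ ht2]
        linarith
    calc (q ^ 2 - t ^ 2 / lam) * F ξ ≤ max (q ^ 2 - t ^ 2 / lam) 0 * F ξ :=
          mul_le_mul_of_nonneg_right hm1 (hF0 ξ)
      _ ≤ max (q ^ 2 - t ^ 2 / lam) 0 * ((volume Ω).toReal
          * (if t / √lam ≤ 1 then 1 else 1 / (t ^ 2 / lam))) := mul_le_mul_of_nonneg_left hF hm0
      _ = _ := by ring
  have hint : Integrable (fun ξ => (q ^ 2 - (2 * π * ‖ξ‖) ^ 2 / lam) * F ξ) := by
    have e : (fun ξ => (q ^ 2 - (2 * π * ‖ξ‖) ^ 2 / lam) * F ξ)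
      = fun ξ => q ^ 2 * F ξ - lam⁻¹ * ((2 * π * ‖ξ‖) ^ 2 * F ξ) := by
      ext ξ; ring
    rw [e]
    exact (hF1.const_mul _).sub (hF2.const_mul _)
  have hmono := integral_mono hint (hpi.const_mul (volume Ω).toReal) hpt
  rw [integral_const_mul] at hmono
  refine le_trans ?_ hmono
  have e : ∫ ξ, (q ^ 2 - (2 * π * ‖ξ‖) ^ 2 / lam) * F ξ
      = q ^ 2 * (∫ ξ, F ξ) - lam⁻¹ * ∫ ξ, (2 * π * ‖ξ‖) ^ 2 * F ξ := by
    rw [← integral_const_mul, ← integral_const_mul, ← integral_sub (hF1.const_mul _) (hF2.const_mul _)]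
    congr 1
    ext ξ; ring
  rw [e, hFi]
  have h2 : lam⁻¹ * ∫ ξ, (2 * π * ‖ξ‖) ^ 2 * F ξ ≤ lam⁻¹ * (lam * Module.finrank ℝ V) :=
    mul_le_mul_of_nonneg_left hFg (by positivity)
  rw [← mul_assoc, inv_mul_cancel₀ hlam.ne', one_mul] at h2
  linarith

/-- the one-dimensional constant -/
noncomputable def kappa (n : ℕ) (q : ℝ) : ℝ :=
  (q ^ 2 - n / (n + 2) + n * ∫ y in (1:ℝ)..q, y ^ (n - 1) * (q ^ 2 - y ^ 2) / y ^ 2) / (q ^ 2 - 1)

lemma prof_radial (n : ℕ) (hn : 1 ≤ n) (q : ℝ) (hq : 1 < q) :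
    n * ∫ y in Set.Ioi (0:ℝ), y ^ (n - 1) * prof q y = (q ^ 2 - 1) * kappa n q := by
  have hq2 : q ^ 2 - 1 ≠ 0 := by nlinarith
  have hn0 : (n : ℝ) ≠ 0 := by positivity
  set f : ℝ → ℝ := fun y => y ^ (n - 1) * prof q y with hf
  have e1 : ∫ y in Set.Ioi (0:ℝ), f y = ∫ y in Set.Ioc (0:ℝ) q, f y := by
    apply setIntegral_eq_of_subset_of_forall_sdiff_eq_zero measurableSet_Ioi
      (fun y hy => hy.1)
    intro y hy
    have h1 : q ≤ y := by
      by_contra hlt
      exact hy.2 ⟨hy.1, (not_le.mp hlt).le⟩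
    simp only [hf]
    rw [prof_zero (by linarith) h1, mul_zero]
  have hbd : ∀ a b : ℝ, IntervalIntegrable f volume a b := by
    intro a b
    rw [intervalIntegrable_iff]
    have hm : AEStronglyMeasurable f (volume.restrict (Set.uIoc a b)) := by
      have : Measurable f := (measurable_id.pow_const (n-1)).mul (prof_measurable q)
      exact this.aestronglyMeasurable
    have hg : IntegrableOn (fun y : ℝ => |y| ^ (n - 1) * q ^ 2) (Set.uIoc a b) := by
      have : Continuous (fun y : ℝ => |y| ^ (n - 1) * q ^ 2) := by fun_prop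
      exact (this.integrableOn_Icc (a := min a b) (b := max a b)).mono_set Set.Ioc_subset_Icc_self
    refine hg.mono' hm ?_
    refine Filter.Eventually.of_forall fun y => ?_
    simp only [hf]
    rw [norm_mul, norm_pow, Real.norm_eq_abs, Real.norm_eq_abs, abs_of_nonneg (prof_nonneg q y)]
    gcongr
    exact prof_le q y
  have e2 : ∫ y in Set.Ioc (0:ℝ) q, f y = (∫ y in (0:ℝ)..1, f y) + ∫ y in (1:ℝ)..q, f y := by
    rw [intervalIntegral.integral_add_adjacent_intervals (hbd _ _) (hbd _ _),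
      intervalIntegral.integral_of_le (by linarith)]
  have e3 : ∫ y in (0:ℝ)..1, f y = q ^ 2 / n - 1 / (n + 2) := by
    have : ∫ y in (0:ℝ)..1, f y = ∫ y in (0:ℝ)..1, (q ^ 2 * y ^ (n - 1) - y ^ (n + 1)) := by
      apply intervalIntegral.integral_congr
      intro y hy
      rw [Set.uIcc_of_le zero_le_one] at hy
      simp only [hf, prof]
      rw [if_pos hy.2, max_eq_left (by nlinarith [hy.1, hy.2]), mul_one]
      obtain ⟨m, rfl⟩ : ∃ m, n = m + 1 := ⟨n - 1, by omega⟩
      simp only [Nat.add_sub_cancel]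
      ring
    rw [this, intervalIntegral.integral_sub, intervalIntegral.integral_const_mul, integral_pow,
      integral_pow]
    · obtain ⟨m, rfl⟩ : ∃ m, n = m + 1 := ⟨n - 1, by omega⟩
      simp only [Nat.add_sub_cancel]
      push_cast
      field_simp
      ring
    · exact Continuous.intervalIntegrable (by fun_prop) _ _
    · exact Continuous.intervalIntegrable (by fun_prop) _ _
  have e4 : ∫ y in (1:ℝ)..q, f y = ∫ y in (1:ℝ)..q, y ^ (n - 1) * (q ^ 2 - y ^ 2) / y ^ 2 := by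
    apply intervalIntegral.integral_congr
    intro y hy
    rw [Set.uIcc_of_le hq.le] at hy
    simp only [hf, prof]
    rw [max_eq_left (by nlinarith [hy.1, hy.2])]
    rcases hy.1.eq_or_lt with h | h
    · rw [← h]; simp
    · rw [if_neg (not_le.mpr h)]; ring
  change n * ∫ y in Set.Ioi (0:ℝ), f y = _
  rw [e1, e2, e3, e4, kappa]
  field_simp

/-- Weyl's term `C_n lam^(n/2) |Ω|` in the normalisation of the problem. -/
noncomputable def weyl (n : ℕ) (lam : ℝ) (Ω : Set (E n)) : ℝ :=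
  (4 * Real.pi) ^ (-(n : ℝ) / 2) / Real.Gamma (1 + (n : ℝ) / 2)
          * lam ^ ((n : ℝ) / 2) * (MeasureTheory.volume Ω).toReal

theorem bound2 (hn : 1 ≤ n) (Ω : Set (E n)) (hb : Bornology.IsBounded Ω)
    (lam : ℝ) (hlam : 0 < lam) (V : Submodule ℝ (E n → ℝ))
    (hV : ∀ u ∈ V, ContDiff ℝ ∞ u ∧ HasCompactSupport u ∧ tsupport u ⊆ Ω)
    (hR : ∀ u ∈ V, u ≠ 0 → ∫ x, ‖fderiv ℝ u x‖ ^ 2 < lam * ∫ x, (u x) ^ 2)
    [FiniteDimensional ℝ V] (q : ℝ) (hq : 1 < q) :
    (Module.finrank ℝ V : ℝ) ≤ kappa n q * weyl n lam Ω := by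
  have h := bound1 Ω hb lam hlam V hV hR q hq
  have hq2 : 0 < q ^ 2 - 1 := by nlinarith
  have hsl : 0 < √lam := Real.sqrt_pos.mpr hlam
  have : Nonempty (Fin n) := ⟨⟨0, by omega⟩⟩
  have : Nontrivial (E n) := inferInstance
  rw [Measure.integral_comp_smul volume (fun x : E n => prof q ‖x‖) (2 * π / √lam),
    integral_fun_norm_addHaar volume (prof q)] at h
  simp only [smul_eq_mul, nsmul_eq_mul, finrank_euclideanSpace, Fintype.card_fin] at h
  have hball : volume.real (Metric.ball (0 : E n) 1) = √π ^ n / Real.Gamma (n / 2 + 1) := by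
    rw [Measure.real, EuclideanSpace.volume_ball]
    simp only [Fintype.card_fin, ENNReal.ofReal_one, one_pow, one_mul]
    rw [ENNReal.toReal_ofReal]
    have : 0 < Real.Gamma (n / 2 + 1) := Real.Gamma_pos_of_pos (by positivity)
    positivity
  rw [hball] at h
  have hr := prof_radial n hn q hq
  have e : (volume Ω).toReal * (|((2 * π / √lam) ^ n)⁻¹| * (n * (√π ^ n / Real.Gamma (n / 2 + 1)
      * ∫ y in Set.Ioi (0:ℝ), y ^ (n - 1) * prof q y)))
      = (q ^ 2 - 1) * (kappa n q * weyl n lam Ω) := by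
    have e1 : (n * (√π ^ n / Real.Gamma (n / 2 + 1)
      * ∫ y in Set.Ioi (0:ℝ), y ^ (n - 1) * prof q y))
      = (√π ^ n / Real.Gamma (n / 2 + 1)) * (n * ∫ y in Set.Ioi (0:ℝ), y ^ (n - 1) * prof q y) := by
      ring
    rw [e1, hr]
    unfold weyl
    have e2 : |((2 * π / √lam) ^ n)⁻¹| * √π ^ n = (4 * Real.pi) ^ (-(n : ℝ) / 2) * lam ^ ((n : ℝ) / 2) := by
      rw [abs_of_pos (by positivity)]
      have a1 : (4 * Real.pi) ^ (-(n : ℝ) / 2) = ((2 * √π) ^ n)⁻¹ := by
        have : (2 * √π) = √(4 * π) := by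
          rw [Real.sqrt_mul (by norm_num)]
          congr 1
          rw [show (4:ℝ) = 2 ^ 2 by norm_num, Real.sqrt_sq (by norm_num)]
        rw [this, Real.sqrt_eq_rpow, ← Real.rpow_natCast, ← Real.rpow_mul (by positivity),
          ← Real.rpow_neg (by positivity)]
        congr 1
        ring
      have a2 : lam ^ ((n : ℝ) / 2) = √lam ^ n := by
        rw [Real.sqrt_eq_rpow, ← Real.rpow_natCast, ← Real.rpow_mul (by positivity)]
        congr 1
        ring
      rw [a1, a2, div_pow, mul_pow, mul_pow]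
      have hp : (π:ℝ) ^ n = √π ^ n * √π ^ n := by
        rw [← mul_pow, Real.mul_self_sqrt Real.pi_pos.le]
      rw [hp]
      field_simp
    have e3 : Real.Gamma (1 + (n : ℝ) / 2) = Real.Gamma (n / 2 + 1) := by rw [add_comm]
    rw [e3]
    have hG : 0 < Real.Gamma ((n:ℝ) / 2 + 1) := Real.Gamma_pos_of_pos (by positivity)
    calc _ = (|((2 * π / √lam) ^ n)⁻¹| * √π ^ n) * ((volume Ω).toReal
          * ((q ^ 2 - 1) * kappa n q) / Real.Gamma (n / 2 + 1)) := by ring
      _ = _ := by rw [e2]; ring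
  rw [e] at h
  exact le_of_mul_le_mul_left h hq2

end Pool.Agent.R227.Polya
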