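import Pool.Agent.R227.Polya4

set_option autoImplicit false

open MeasureTheory Real
open scoped ContDiff

namespace Pool.Agent.R227.Polya

lemma kappa_nonneg (n : ℕ) (q : ℝ) (hq : 1 < q) : 0 ≤ kappa n q := by
  unfold kappa
  have hq2 : 0 < q ^ 2 - 1 := by nlinarith
  apply div_nonneg _ hq2.le
  have h1 : (n : ℝ) / (n + 2) ≤ 1 := by
    rw [div_le_one (by positivity)]; linarith
  have h2 : 0 ≤ ∫ y in (1:ℝ)..q, y ^ (n - 1) * (q ^ 2 - y ^ 2) / y ^ 2 := by
    apply intervalIntegral.integral_nonneg hq.le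
    intro y hy
    have hy0 : 0 ≤ y := by linarith [hy.1]
    have : 0 ≤ q ^ 2 - y ^ 2 := by nlinarith [hy.1, hy.2]
    positivity
  have h3 : 0 ≤ (n:ℝ) * ∫ y in (1:ℝ)..q, y ^ (n - 1) * (q ^ 2 - y ^ 2) / y ^ 2 := by positivity
  linarith

/-- strict improvement over the Li–Yau constant in every dimension -/
lemma kappa_lt (n : ℕ) (hn : 1 ≤ n) : ∃ q : ℝ, 1 < q ∧ kappa n q < (1 + 2 / (n:ℝ)) ^ ((n:ℝ) / 2) := by
  have hn0 : (0:ℝ) < n := by positivity
  set S : ℝ := 1 + 2 / (n:ℝ) with hS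
  have hS1 : 1 < S := by
    have : 0 < 2 / (n:ℝ) := by positivity
    linarith
  have hS0 : 0 < S := by linarith
  refine ⟨√S, ?_, ?_⟩
  · rw [Real.lt_sqrt (by norm_num)]; linarith
  set q := √S with hq
  have hq1 : 1 < q := by rw [hq, Real.lt_sqrt (by norm_num)]; linarith
  have hqS : q ^ 2 = S := Real.sq_sqrt hS0.le
  have hq2 : 0 < q ^ 2 - 1 := by nlinarith
  have hpow : S ^ ((n:ℝ) / 2) = q ^ n := by
    rw [hq, Real.sqrt_eq_rpow, ← Real.rpow_natCast, ← Real.rpow_mul hS0.le]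
    congr 1; ring
  rw [hpow]
  have hc1 : ContinuousOn (fun y : ℝ => y ^ (n - 1) * (q ^ 2 - y ^ 2) / y ^ 2) (Set.uIcc 1 q) := by
    rw [Set.uIcc_of_le hq1.le]
    apply ContinuousOn.div (by fun_prop) (by fun_prop)
    intro y hy
    have : 0 < y := by linarith [hy.1]
    positivity
  have hc2 : Continuous (fun y : ℝ => y ^ (n - 1) * (q ^ 2 - y ^ 2)) := by fun_prop
  have hlt : ∫ y in (1:ℝ)..q, y ^ (n - 1) * (q ^ 2 - y ^ 2) / y ^ 2
      < ∫ y in (1:ℝ)..q, y ^ (n - 1) * (q ^ 2 - y ^ 2) := by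
    apply intervalIntegral.integral_lt_integral_of_continuousOn_of_le_of_exists_lt hq1
    · rwa [Set.uIcc_of_le hq1.le] at hc1
    · exact hc2.continuousOn
    · intro y hy
      have h1 : 0 < y := by linarith [hy.1]
      have h2 : 0 ≤ q ^ 2 - y ^ 2 := by nlinarith [hy.1, hy.2]
      apply div_le_self (by positivity)
      nlinarith [hy.1]
    · refine ⟨(1 + q) / 2, ⟨by linarith, by linarith⟩, ?_⟩
      have h1 : 1 < (1 + q) / 2 := by linarith
      have h2 : 0 < q ^ 2 - ((1 + q) / 2) ^ 2 := by nlinarith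
      apply div_lt_self (by positivity)
      nlinarith
  have hcalc : ∫ y in (1:ℝ)..q, y ^ (n - 1) * (q ^ 2 - y ^ 2)
      = q ^ 2 * ((q ^ n - 1) / n) - (q ^ (n + 2) - 1) / (n + 2) := by
    have : ∀ y : ℝ, y ^ (n - 1) * (q ^ 2 - y ^ 2) = q ^ 2 * y ^ (n - 1) - y ^ (n + 1) := by
      intro y
      obtain ⟨m, rfl⟩ : ∃ m, n = m + 1 := ⟨n - 1, by omega⟩
      simp only [Nat.add_sub_cancel]
      ring
    simp_rw [this]
    rw [intervalIntegral.integral_sub (Continuous.intervalIntegrable (by fun_prop) _ _)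
      (Continuous.intervalIntegrable (by fun_prop) _ _), intervalIntegral.integral_const_mul,
      integral_pow, integral_pow]
    obtain ⟨m, rfl⟩ : ∃ m, n = m + 1 := ⟨n - 1, by omega⟩
    simp only [Nat.add_sub_cancel]
    push_cast
    simp only [one_pow]
    ring
  rw [hcalc] at hlt
  unfold kappa
  rw [div_lt_iff₀ hq2]
  have hn2 : (0:ℝ) < n + 2 := by positivity
  have hmul := mul_lt_mul_of_pos_left hlt hn0
  have hfin : q ^ 2 - n / (n + 2) + n * (q ^ 2 * ((q ^ n - 1) / n) - (q ^ (n + 2) - 1) / (n + 2))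
      = q ^ n * (q ^ 2 - 1) := by
    have e1 : q ^ (n + 2) = q ^ n * S := by rw [pow_add, hqS]
    rw [e1, hqS, hS]
    field_simp
    ring
  linarith

lemma kappa_two : ∃ q : ℝ, 1 < q ∧ kappa 2 q ≤ 1.858 := by
  refine ⟨Real.exp 0.429, Real.one_lt_exp_iff.mpr (by norm_num), ?_⟩
  set q := Real.exp 0.429 with hq
  have hq1 : 1 < q := Real.one_lt_exp_iff.mpr (by norm_num)
  have hlog : Real.log q = 0.429 := by rw [hq, Real.log_exp]
  have hq2 : q ^ 2 = Real.exp 0.858 := by
    rw [hq, ← Real.exp_nat_mul]; norm_num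
  have hlow : 2.358 ≤ q ^ 2 := by
    rw [hq2]
    have := Real.sum_le_exp_of_nonneg (x := 0.858) (by norm_num) 9
    refine le_trans ?_ this
    norm_num [Finset.sum_range_succ, Nat.factorial]
  have hint : ∫ y in (1:ℝ)..q, y ^ (2 - 1) * (q ^ 2 - y ^ 2) / y ^ 2
      = q ^ 2 * Real.log q - (q ^ 2 - 1) / 2 := by
    have e : ∫ y in (1:ℝ)..q, y ^ (2 - 1) * (q ^ 2 - y ^ 2) / y ^ 2
        = ∫ y in (1:ℝ)..q, (q ^ 2 * (y⁻¹) - y) := by
      apply intervalIntegral.integral_congr
      intro y hy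
      rw [Set.uIcc_of_le hq1.le] at hy
      have : y ≠ 0 := by linarith [hy.1]
      simp only
      field_simp
      norm_num
    rw [e, intervalIntegral.integral_sub, intervalIntegral.integral_const_mul,
      integral_inv_of_pos (by norm_num) (by linarith), integral_id]
    · simp
    · apply ContinuousOn.intervalIntegrable
      rw [Set.uIcc_of_le hq1.le]
      apply ContinuousOn.mul continuousOn_const
      apply ContinuousOn.inv₀ continuousOn_id
      intro y hy
      have : 0 < y := by linarith [hy.1]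
      exact this.ne'
    · exact Continuous.intervalIntegrable (by fun_prop) _ _
  unfold kappa
  rw [hint, hlog]
  rw [div_le_iff₀ (by linarith)]
  push_cast
  nlinarith

lemma kappa_three : ∃ q : ℝ, 1 < q ∧ kappa 3 q ≤ 2.0374 := by
  refine ⟨1.346, by norm_num, ?_⟩
  have hint : ∫ y in (1:ℝ)..1.346, y ^ (3 - 1) * ((1.346:ℝ) ^ 2 - y ^ 2) / y ^ 2
      = 1.346 ^ 2 * (1.346 - 1) - (1.346 ^ 3 - 1) / 3 := by
    have e : ∫ y in (1:ℝ)..1.346, y ^ (3 - 1) * ((1.346:ℝ) ^ 2 - y ^ 2) / y ^ 2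
        = ∫ y in (1:ℝ)..1.346, ((1.346:ℝ) ^ 2 - y ^ 2) := by
      apply intervalIntegral.integral_congr
      intro y hy
      rw [Set.uIcc_of_le (by norm_num)] at hy
      have : y ≠ 0 := by linarith [hy.1]
      simp only
      field_simp
    rw [e, intervalIntegral.integral_sub, integral_pow, intervalIntegral.integral_const]
    · norm_num
    · exact Continuous.intervalIntegrable (by fun_prop) _ _
    · exact Continuous.intervalIntegrable (by fun_prop) _ _
  unfold kappa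
  rw [hint]
  norm_num

end Pool.Agent.R227.Polya
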