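import Mathlib

/-! A crossing lemma in the plane: two disjoint connected open sets cannot both contain two of four
alternating rays that emanate from a point. -/

set_option autoImplicit false

open Complex Set Metric Filter Topology

namespace Pool.Agent.R227.SA

/-- a continuous function with constant exponential on a preconnected set is constant -/
lemma const_of_exp {S : Set ℂ} (hS : IsPreconnected S) {g : ℂ → ℂ} (hg : ContinuousOn g S) {κ : ℂ}
    (h : ∀ z ∈ S, exp (g z) = κ) : ∀ x ∈ S, ∀ y ∈ S, g x = g y := by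
  intro x hx y hy
  have hper : ∀ z ∈ S, ∃ n : ℤ, g z = g y + n * (2 * Real.pi * I) := fun z hz =>
    Complex.exp_eq_exp_iff_exists_int.1 (by rw [h z hz, h y hy])
  obtain ⟨n, hn⟩ := hper x hx
  by_cases hn0 : n = 0
  · rw [hn, hn0]; simp
  exfalso
  set φ : ℂ → ℝ := fun z => (g z - g y).im / (2 * Real.pi) with hφ
  have hpi : (2 * Real.pi) ≠ 0 := by positivity
  have hφc : ContinuousOn φ S :=
    (Complex.continuous_im.comp_continuousOn (hg.sub continuousOn_const)).div_const _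
  have hval : ∀ z ∈ S, ∀ k : ℤ, g z = g y + k * (2 * Real.pi * I) → φ z = k := by
    intro z _ k hk
    have e1 : (g z - g y) = ((k * (2 * Real.pi) : ℝ) : ℂ) * I := by
      rw [hk]; push_cast; ring
    simp only [hφ, e1]
    simp only [Complex.im_ofReal_mul, Complex.I_im, mul_one]
    field_simp
  have himg : IsPreconnected (φ '' S) := hS.image φ hφc
  have h0 : (0 : ℝ) ∈ φ '' S := ⟨y, hy, by simp [hφ]⟩
  have h1 : (n : ℝ) ∈ φ '' S := ⟨x, hx, hval x hx n hn⟩
  have hoc := himg.ordConnected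
  have hint : ∀ t ∈ φ '' S, ∃ k : ℤ, t = k := by
    rintro _ ⟨z, hz, rfl⟩
    obtain ⟨k, hk⟩ := hper z hz
    exact ⟨k, hval z hz k hk⟩
  rcases lt_or_gt_of_ne hn0 with hneg | hpos
  · have hn1 : (n : ℝ) ≤ -1 := by
      have : n ≤ -1 := by omega
      exact_mod_cast this
    obtain ⟨k, hk⟩ := hint (-1 / 2 : ℝ) (hoc.out h1 h0 ⟨by linarith, by norm_num⟩)
    have h2 : (k : ℝ) * 2 = -1 := by rw [← hk]; norm_num
    have h3 : k * 2 = -1 := by exact_mod_cast h2
    omega
  · have hn1 : (1 : ℝ) ≤ n := by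
      have : 1 ≤ n := by omega
      exact_mod_cast this
    obtain ⟨k, hk⟩ := hint (1 / 2 : ℝ) (hoc.out h0 h1 ⟨by norm_num, by linarith⟩)
    have h2 : (k : ℝ) * 2 = 1 := by rw [← hk]; norm_num
    have h3 : k * 2 = 1 := by exact_mod_cast h2
    omega

/-- logarithm of a quotient -/
lemma log_quot {Γ : Set ℂ} {x y : ℂ} {δ : ℝ} (hd : Disjoint Γ (ball x δ)) (hy : y ∈ ball x δ) :
    ContinuousOn (fun z => Complex.log ((z - y) / (z - x))) Γ ∧
      ∀ z ∈ Γ, exp (Complex.log ((z - y) / (z - x))) = (z - y) / (z - x) := by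
  have hz : ∀ z ∈ Γ, ‖y - x‖ < ‖z - x‖ := by
    intro z hz
    have h1 : z ∉ ball x δ := fun h => disjoint_left.1 hd hz h
    rw [mem_ball_iff_norm, not_lt] at h1
    rw [mem_ball_iff_norm] at hy
    linarith
  have hne : ∀ z ∈ Γ, z - x ≠ 0 := by
    intro z hz' h0
    have := hz z hz'
    rw [h0, norm_zero] at this
    exact absurd this (not_lt.2 (norm_nonneg _))
  have hsl : ∀ z ∈ Γ, (z - y) / (z - x) ∈ slitPlane := by
    intro z hz'
    have e : (z - y) / (z - x) = 1 - (y - x) / (z - x) := by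
      rw [eq_sub_iff_add_eq, ← add_div, div_eq_one_iff_eq (hne z hz')]
      ring
    have h1 : ‖(y - x) / (z - x)‖ < 1 := by
      rw [norm_div, div_lt_one ((norm_nonneg _).trans_lt (hz z hz'))]
      exact hz z hz'
    left
    rw [e, Complex.sub_re, Complex.one_re]
    have := (Complex.re_le_norm ((y - x) / (z - x))).trans_lt h1
    linarith
  refine ⟨?_, fun z hz' => Complex.exp_log (slitPlane_ne_zero (hsl z hz'))⟩
  refine ContinuousOn.clog ?_ hsl
  exact (continuousOn_id.sub continuousOn_const).div (continuousOn_id.sub continuousOn_const) hne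

/-- if `p` and `p'` are not separated by `Γ`, then `(z - p) / (z - p')` has a continuous logarithm
on `Γ` -/
lemma lift {Γ N : Set ℂ} (hN : IsOpen N) (hNc : IsPreconnected N)
    (hd : Disjoint Γ N) {p p' : ℂ} (hp : p ∈ N) (hp' : p' ∈ N) :
    ∃ Λ : ℂ → ℂ, ContinuousOn Λ Γ ∧ ∀ z ∈ Γ, exp (Λ z) = (z - p) / (z - p') := by
  set S : Set ℂ := {x | x ∈ N ∧ ∃ Λ : ℂ → ℂ, ContinuousOn Λ Γ ∧
    ∀ z ∈ Γ, exp (Λ z) = (z - x) / (z - p')} with hS
  have hΓ : ∀ x ∈ N, ∀ z ∈ Γ, z - x ≠ 0 := by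
    intro x hx z hz h0
    rw [sub_eq_zero] at h0
    exact disjoint_left.1 hd hz (h0 ▸ hx)
  have key : ∀ x ∈ N, ∃ δ > 0, ball x δ ⊆ N ∧ ∀ y ∈ ball x δ, (x ∈ S ↔ y ∈ S) := by
    intro x hx
    obtain ⟨δ, hδ, hb⟩ := Metric.isOpen_iff.1 hN x hx
    refine ⟨δ, hδ, hb, fun y hy => ?_⟩
    have hd' : Disjoint Γ (ball x δ) := hd.mono_right hb
    obtain ⟨hc, he⟩ := log_quot hd' hy
    constructor
    · rintro ⟨-, Λ, hΛ, hΛe⟩
      refine ⟨hb hy, fun z => Λ z + Complex.log ((z - y) / (z - x)), hΛ.add hc, fun z hz => ?_⟩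
      rw [Complex.exp_add, hΛe z hz, he z hz]
      have h1 := hΓ x hx z hz
      have h2 := hΓ p' hp' z hz
      field_simp
    · rintro ⟨-, Λ, hΛ, hΛe⟩
      refine ⟨hx, fun z => Λ z - Complex.log ((z - y) / (z - x)), hΛ.sub hc, fun z hz => ?_⟩
      rw [Complex.exp_sub, hΛe z hz, he z hz]
      have h1 := hΓ x hx z hz
      have h2 := hΓ p' hp' z hz
      have h3 := hΓ y (hb hy) z hz
      field_simp
  have hSo : IsOpen S := by
    rw [Metric.isOpen_iff]
    intro x hx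
    obtain ⟨δ, hδ, -, h⟩ := key x hx.1
    exact ⟨δ, hδ, fun y hy => (h y hy).1 hx⟩
  have hSo' : IsOpen (N \ S) := by
    rw [Metric.isOpen_iff]
    intro x hx
    obtain ⟨δ, hδ, hb, h⟩ := key x hx.1
    exact ⟨δ, hδ, fun y hy => ⟨hb hy, fun h' => hx.2 ((h y hy).2 h')⟩⟩
  have hp'S : p' ∈ S := by
    refine ⟨hp', fun _ => 0, continuousOn_const, fun z hz => ?_⟩
    rw [Complex.exp_zero, div_self (hΓ p' hp' z hz)]
  have hsub : p ∈ S := by
    by_contra hcon
    have := hNc S (N \ S) hSo hSo' (fun x hx => by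
      by_cases h : x ∈ S
      · exact Or.inl h
      · exact Or.inr ⟨hx, h⟩) ⟨p', hp', hp'S⟩ ⟨p, hp, hp, hcon⟩
    obtain ⟨x, -, hx1, hx2⟩ := this
    exact hx2.2 hx1
  exact hsub.2

/-- the crossing lemma -/
theorem cross {P N : Set ℂ} (hP : IsOpen P) (hPc : IsPreconnected P) (hN : IsOpen N)
    (hNc : IsPreconnected N) (hd : Disjoint P N) (h0P : (0 : ℂ) ∉ P) (h0N : (0 : ℂ) ∉ N)
    {ε β φ : ℝ} (hε : 0 < ε) (hβ : 0 < β) (hβ2 : β ≤ Real.pi / 2) (hφ : Real.cos φ < 0)
    (h1 : ∀ s : ℝ, 0 < s → s ≤ ε → (s : ℂ) ∈ P)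
    (h2 : ∀ s : ℝ, 0 < s → s ≤ ε → (s : ℂ) * exp (φ * I) ∈ P)
    (h3 : ∀ s : ℝ, 0 < s → s ≤ ε → (s : ℂ) * exp (β * I) ∈ N)
    (h4 : ∀ s : ℝ, 0 < s → s ≤ ε → (s : ℂ) * exp (-(β * I)) ∈ N) : False := by
  -- the path in `P`
  have hj : JoinedIn P (ε : ℂ) ((ε : ℂ) * exp (φ * I)) := by
    have hconn : IsConnected P := ⟨⟨_, h1 ε hε le_rfl⟩, hPc⟩
    exact ((hP.isConnected_iff_isPathConnected).1 hconn).joinedIn _ (h1 ε hε le_rfl) _
      (h2 ε hε le_rfl)
  obtain ⟨γ, hγ⟩ := hj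
  set A : Set ℂ := range γ with hA
  have hAc : IsCompact A := isCompact_range γ.continuous
  have hAp : IsPreconnected A := isPreconnected_range γ.continuous
  have hAP : A ⊆ P := by rintro _ ⟨t, rfl⟩; exact hγ t
  have hA1 : (ε : ℂ) ∈ A := ⟨0, γ.source⟩
  have hA2 : (ε : ℂ) * exp (φ * I) ∈ A := ⟨1, γ.target⟩
  have h0A : (0 : ℂ) ∉ A := fun h => h0P (hAP h)
  obtain ⟨ρ, hρ, hρA⟩ : ∃ ρ > 0, ∀ z ∈ A, ρ < ‖z‖ := by
    have hopen : IsOpen Aᶜ := hAc.isClosed.isOpen_compl
    obtain ⟨δ, hδ, hb⟩ := Metric.isOpen_iff.1 hopen 0 h0A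
    refine ⟨δ / 2, by positivity, fun z hz => ?_⟩
    by_contra hcon
    push Not at hcon
    exact hb (by rw [mem_ball_zero_iff]; linarith) hz
  set r : ℝ := min ρ ε with hr
  have hr0 : 0 < r := lt_min hρ hε
  have hrε : r ≤ ε := min_le_right _ _
  have hrA : ∀ z ∈ A, r < ‖z‖ := fun z hz => (min_le_left _ _).trans_lt (hρA z hz)
  -- the segments
  set B1 : Set ℂ := (fun s : ℝ => (s : ℂ)) '' Icc 0 ε with hB1
  set B2 : Set ℂ := (fun s : ℝ => (s : ℂ) * exp (φ * I)) '' Icc 0 ε with hB2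
  have c1 : Continuous fun s : ℝ => (s : ℂ) := Complex.continuous_ofReal
  have c2 : Continuous fun s : ℝ => (s : ℂ) * exp (φ * I) := c1.mul continuous_const
  have hB1p : IsPreconnected B1 := isPreconnected_Icc.image _ c1.continuousOn
  have hB2p : IsPreconnected B2 := isPreconnected_Icc.image _ c2.continuousOn
  have h0B1 : (0 : ℂ) ∈ B1 := ⟨0, left_mem_Icc.2 hε.le, by simp⟩
  have h0B2 : (0 : ℂ) ∈ B2 := ⟨0, left_mem_Icc.2 hε.le, by simp⟩
  set B : Set ℂ := B1 ∪ B2 with hB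
  have hBp : IsPreconnected B := hB1p.union 0 h0B1 h0B2 hB2p
  have hBP : ∀ z ∈ B, z = 0 ∨ z ∈ P := by
    rintro z (⟨s, hs, rfl⟩ | ⟨s, hs, rfl⟩)
    · rcases eq_or_lt_of_le hs.1 with h | h
      · left; simp [← h]
      · exact Or.inr (h1 s h hs.2)
    · rcases eq_or_lt_of_le hs.1 with h | h
      · left; simp [← h]
      · exact Or.inr (h2 s h hs.2)
  -- the two points of `N`
  set z2 : ℂ := (r : ℂ) * exp (β * I) with hz2
  set z4 : ℂ := (r : ℂ) * exp (-(β * I)) with hz4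
  have hz2N : z2 ∈ N := h3 r hr0 hrε
  have hz4N : z4 ∈ N := h4 r hr0 hrε
  have hAN : Disjoint A N := hd.mono_left hAP
  have hBN : Disjoint B N := by
    rw [disjoint_left]
    intro z hz hzN
    rcases hBP z hz with h | h
    · exact h0N (h ▸ hzN)
    · exact disjoint_left.1 hd h hzN
  have hΓN : Disjoint (A ∪ B) N := by
    rw [disjoint_union_left]; exact ⟨hAN, hBN⟩
  obtain ⟨Λ, hΛ, hΛe⟩ := lift hN hNc hΓN hz2N hz4N
  set a : ℝ := r * Real.cos β with ha
  set b : ℝ := r * Real.sin β with hb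
  have hb0 : 0 < b := mul_pos hr0 (Real.sin_pos_of_pos_of_lt_pi hβ (by linarith [Real.pi_pos]))
  have ha0 : 0 ≤ a := mul_nonneg hr0.le (Real.cos_nonneg_of_mem_Icc ⟨by linarith, hβ2⟩)
  have hab : a ^ 2 + b ^ 2 = r ^ 2 := by
    rw [ha, hb]; nlinarith [Real.sin_sq_add_cos_sq β]
  have e2 : z2 = ⟨a, b⟩ := by
    apply Complex.ext
    · rw [hz2, Complex.re_ofReal_mul, Complex.exp_ofReal_mul_I_re]
    · rw [hz2, Complex.im_ofReal_mul, Complex.exp_ofReal_mul_I_im]
  have e4 : z4 = ⟨a, -b⟩ := by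
    have : -((β : ℂ) * I) = ((-β : ℝ) : ℂ) * I := by push_cast; ring
    apply Complex.ext
    · rw [hz4, this, Complex.re_ofReal_mul, Complex.exp_ofReal_mul_I_re, Real.cos_neg]
    · rw [hz4, this, Complex.im_ofReal_mul, Complex.exp_ofReal_mul_I_im, Real.sin_neg, mul_neg]
  set f : ℂ → ℂ := fun z => (z - z2) / (z - z4) with hf
  have hne4 : ∀ z ∈ A ∪ B, z - z4 ≠ 0 := by
    intro z hz h0
    rw [sub_eq_zero] at h0
    exact disjoint_left.1 hΓN hz (h0 ▸ hz4N)
  have hre : ∀ z : ℂ, (f z).re = ((z.re - a) ^ 2 + z.im ^ 2 - b ^ 2) / Complex.normSq (z - z4) := by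
    intro z
    simp only [hf, Complex.div_re, e2, e4, Complex.sub_re, Complex.sub_im]
    ring
  have him : ∀ z : ℂ, (f z).im = (-(2 * b * (z.re - a))) / Complex.normSq (z - z4) := by
    intro z
    simp only [hf, Complex.div_im, e2, e4, Complex.sub_re, Complex.sub_im]
    ring
  have hns : ∀ z ∈ A ∪ B, 0 < Complex.normSq (z - z4) := fun z hz =>
    Complex.normSq_pos.2 (hne4 z hz)
  -- on `A`
  have hfA : ∀ z ∈ A, f z ∈ slitPlane := by
    intro z hz
    by_cases hx : z.re = a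
    · left
      rw [hre]
      refine div_pos ?_ (hns z (Or.inl hz))
      have h5 : r ^ 2 < ‖z‖ ^ 2 := by
        have := hrA z hz
        exact pow_lt_pow_left₀ this hr0.le (by norm_num)
      have h6 : ‖z‖ ^ 2 = z.re ^ 2 + z.im ^ 2 := by
        rw [← Complex.normSq_eq_norm_sq, Complex.normSq_apply]; ring
      rw [hx] at h6 ⊢
      nlinarith
    · right
      rw [him]
      refine div_ne_zero ?_ (hns z (Or.inl hz)).ne'
      rw [neg_ne_zero]
      exact mul_ne_zero (by positivity) (sub_ne_zero.2 hx)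
  -- on `B`
  have hfB : ∀ z ∈ B, -f z ∈ slitPlane := by
    intro z hz
    by_cases hx : z.re = a
    · left
      have h0 : z.im = 0 := by
        rcases hz with ⟨s, hs, rfl⟩ | ⟨s, hs, rfl⟩
        · simp
        · have h5 : ((s : ℂ) * exp (φ * I)).re = s * Real.cos φ := by
            simp [Complex.exp_ofReal_mul_I_re]
          have h6 : ((s : ℂ) * exp (φ * I)).im = s * Real.sin φ := by
            simp [Complex.exp_ofReal_mul_I_im]
          rw [h5] at hx
          have h7 : s = 0 := by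
            by_contra hs0
            have hs1 : 0 < s := lt_of_le_of_ne hs.1 (Ne.symm hs0)
            have := mul_neg_of_pos_of_neg hs1 hφ
            linarith
          rw [h6, h7, zero_mul]
      rw [Complex.neg_re, hre, hx, h0]
      rw [← neg_div]
      refine div_pos ?_ (hns z (Or.inr hz))
      nlinarith [hb0]
    · right
      rw [Complex.neg_im, him, neg_ne_zero]
      refine div_ne_zero ?_ (hns z (Or.inr hz)).ne'
      rw [neg_ne_zero]
      exact mul_ne_zero (by positivity) (sub_ne_zero.2 hx)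
  have hfc : ContinuousOn f (A ∪ B) :=
    (continuousOn_id.sub continuousOn_const).div (continuousOn_id.sub continuousOn_const) hne4
  have kA := const_of_exp hAp (g := fun z => Λ z - Complex.log (f z)) (κ := 1)
    ((hΛ.mono subset_union_left).sub ((hfc.mono subset_union_left).clog hfA)) (fun z hz => by
      rw [Complex.exp_sub, hΛe z (Or.inl hz), Complex.exp_log (slitPlane_ne_zero (hfA z hz))]
      exact div_self (slitPlane_ne_zero (hfA z hz)))
  have kB := const_of_exp hBp (g := fun z => Λ z - Complex.log (-f z)) (κ := -1)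
    ((hΛ.mono subset_union_right).sub ((hfc.mono subset_union_right).neg.clog hfB)) (fun z hz => by
      rw [Complex.exp_sub, hΛe z (Or.inr hz), Complex.exp_log (slitPlane_ne_zero (hfB z hz))]
      have h5 : f z ≠ 0 := by
        have := slitPlane_ne_zero (hfB z hz)
        rwa [neg_ne_zero] at this
      show f z / (-f z) = -1
      rw [div_neg, div_self h5])
  have hB1' : (ε : ℂ) ∈ B := Or.inl ⟨ε, right_mem_Icc.2 hε.le, rfl⟩
  have hB2' : (ε : ℂ) * exp (φ * I) ∈ B := Or.inr ⟨ε, right_mem_Icc.2 hε.le, rfl⟩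
  have k1 := kA _ hA1 _ hA2
  have k2 := kB _ hB1' _ hB2'
  -- the values of the logarithms
  have haε : a < ε := by
    have h5 : a < r := by
      have h6 : Real.cos β < 1 := by
        have := Real.cos_lt_cos_of_nonneg_of_le_pi_div_two le_rfl hβ2 hβ
        rwa [Real.cos_zero] at this
      rw [ha]
      nlinarith
    linarith
  have him1 : (f (ε : ℂ)).im < 0 := by
    rw [him]
    refine div_neg_of_neg_of_pos ?_ (hns _ (Or.inl hA1))
    rw [Complex.ofReal_re]
    nlinarith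
  have him2 : 0 < (f ((ε : ℂ) * exp (φ * I))).im := by
    rw [him]
    refine div_pos ?_ (hns _ (Or.inl hA2))
    have h5 : ((ε : ℂ) * exp (φ * I)).re = ε * Real.cos φ := by
      simp [Complex.exp_ofReal_mul_I_re]
    rw [h5]
    have := mul_neg_of_pos_of_neg hε hφ
    nlinarith
  have hlog : ∀ x : ℂ, Complex.log x = Real.log ‖x‖ + Complex.arg x * I := fun x => rfl
  have l1 : Complex.log (-f (ε : ℂ)) = Complex.log (f (ε : ℂ)) + Real.pi * I := by
    rw [hlog, hlog, norm_neg, Complex.arg_neg_eq_arg_add_pi_of_im_neg him1]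
    push_cast
    ring
  have l2 : Complex.log (-f ((ε : ℂ) * exp (φ * I))) =
      Complex.log (f ((ε : ℂ) * exp (φ * I))) - Real.pi * I := by
    rw [hlog, hlog, norm_neg, Complex.arg_neg_eq_arg_sub_pi_of_im_pos him2]
    push_cast
    ring
  rw [l1, l2] at k2
  have h5 : 2 * ((Real.pi : ℂ) * I) = 0 := by linear_combination k1 - k2
  have h6 : (Real.pi : ℂ) * I ≠ 0 :=
    mul_ne_zero (Complex.ofReal_ne_zero.2 Real.pi_ne_zero) Complex.I_ne_zero
  exact h6 (by simpa using h5)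

end Pool.Agent.R227.SA
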