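import Pool.Agent.R227.SA9
import Pool.Agent.TH298.AN.Final

/-! The angular derivative; the rotationally symmetric case. -/

set_option autoImplicit false

open MeasureTheory Set Pool.Agent.R227.LP Filter
open scoped Topology ENNReal NNReal RealInnerProductSpace ContDiff

namespace Pool.Agent.R227.SA

open Pool.Agent.TH298.Sch (X er et dd SC Sol X_cont X_dr X_dt norm_X dd_sc Lr Lr_sc Lr_eq Lr_add dd_Lr
  dd_neg_dir X_eq er_exp X_add)

/-- a continuous function vanishing off `Ω` and solving the Helmholtz equation in `Ω` -/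
structure Wat (Ω : Set ℂ) (lam : ℝ) (w : ℂ → ℝ) : Prop where
  cont : Continuous w
  out : ∀ x, x ∉ Ω → w x = 0
  loc : ∀ x₀ ∈ Ω, ∃ r > 0, ∃ W, SC W ∧ Metric.ball x₀ r ⊆ Ω ∧
    ∀ x ∈ Metric.ball x₀ r, w x = W x ∧ la W x = -(lam * W x)

lemma Wat.neg {Ω : Set ℂ} {lam : ℝ} {w : ℂ → ℝ} (h : Wat Ω lam w) : Wat Ω lam (fun x => -w x) := by
  refine ⟨h.cont.neg, fun x hx => by rw [h.out x hx, neg_zero], fun x₀ hx₀ => ?_⟩
  obtain ⟨r, hr, W, hW, hb, h1⟩ := h.loc x₀ hx₀
  refine ⟨r, hr, fun x => -W x, ⟨hW.sm.neg, hW.cs.neg⟩, hb, fun x hx => ⟨by rw [(h1 x hx).1], ?_⟩⟩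
  have e : ∀ v, dd v (dd v (fun x => -W x)) x = -dd v (dd v W) x := by
    intro v
    have e1 : ∀ φ : ℂ → ℝ, dd v (fun x => -φ x) = fun x => -dd v φ x := by
      intro φ
      funext x
      unfold dd
      rw [show (fun x => -φ x) = -φ from rfl, fderiv_neg]
      simp
    rw [e1, e1]
  have := (h1 x hx).2
  unfold la at this ⊢
  rw [e, e]
  linarith

/-- the rotation derivative commutes with the Laplacian -/
lemma la_Lr {U : ℂ → ℝ} (hU : SC U) (x : ℂ) : la (Lr U) x = Lr (la U) x := by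
  have e1 : dd 1 (Lr U) = fun x => Lr (dd 1 U) x + dd Complex.I U x := by
    funext y
    rw [dd_Lr hU, mul_one]
  have e2 : dd Complex.I (Lr U) = fun x => Lr (dd Complex.I U) x + -dd 1 U x := by
    funext y
    rw [dd_Lr hU, Complex.I_mul_I, dd_neg_dir]
  have a1 : ∀ v, dd v (fun x => Lr (dd 1 U) x + dd Complex.I U x) x =
      dd v (Lr (dd 1 U)) x + dd v (dd Complex.I U) x := by
    intro v
    have := fderiv_fun_add ((Lr_sc (dd_sc hU 1)).diff x) ((dd_sc hU Complex.I).diff x)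
    change fderiv ℝ (fun x => Lr (dd 1 U) x + dd Complex.I U x) x v = _
    rw [this]
    rfl
  have a2 : ∀ v, dd v (fun x => Lr (dd Complex.I U) x + -dd 1 U x) x =
      dd v (Lr (dd Complex.I U)) x - dd v (dd 1 U) x := by
    intro v
    unfold dd
    have h3 : DifferentiableAt ℝ (fun x => -dd 1 U x) x := ((dd_sc hU 1).diff x).neg
    have h4 : fderiv ℝ (fun x => -dd 1 U x) x = -fderiv ℝ (dd 1 U) x := by
      rw [show (fun x => -dd 1 U x) = -(dd 1 U) from rfl, fderiv_neg]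
    have := fderiv_fun_add ((Lr_sc (dd_sc hU Complex.I)).diff x) h3
    unfold dd at this h4
    rw [this, h4]
    rfl
  have a3 : Lr (la U) x = Lr (dd 1 (dd 1 U)) x + Lr (dd Complex.I (dd Complex.I U)) x :=
    Lr_add (dd_sc (dd_sc hU 1) 1) (dd_sc (dd_sc hU Complex.I) Complex.I) x
  unfold la at a3 ⊢
  rw [a3, e1, e2, a1, a2, dd_Lr (dd_sc hU 1), dd_Lr (dd_sc hU Complex.I), mul_one, Complex.I_mul_I,
    dd_neg_dir]
  have hs : dd Complex.I (dd 1 U) x = dd 1 (dd Complex.I U) x := by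
    have h2 : ContDiff ℝ (⊤ : ℕ∞) (fderiv ℝ U) := hU.sm.fderiv_right (by simp)
    have h3 : HasFDerivAt (fderiv ℝ U) (fderiv ℝ (fderiv ℝ U) x) x :=
      ((h2.differentiable (by simp)) x).hasFDerivAt
    have h5 : ∀ v, HasFDerivAt (dd v U) ((fderiv ℝ U x).comp (0 : ℂ →L[ℝ] ℂ) +
        (fderiv ℝ (fderiv ℝ U) x).flip v) x := fun v => h3.clm_apply (hasFDerivAt_const v x)
    have hsym : fderiv ℝ (fderiv ℝ U) x Complex.I 1 = fderiv ℝ (fderiv ℝ U) x 1 Complex.I :=
      second_derivative_symmetric (fun y => (hU.diff y).hasFDerivAt) h3 Complex.I 1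
    have k : ∀ v w, dd w (dd v U) x = fderiv ℝ (fderiv ℝ U) x w v := by
      intro v w
      change fderiv ℝ (dd v U) x w = _
      rw [(h5 v).fderiv]
      simp
    rw [k, k, hsym]
  rw [hs]
  ring

variable {Ω : Set ℂ} {lam c : ℝ} {v : ℂ → ℝ}

theorem Dat.wat (D : Dat Ω lam c v) : Wat Ω lam (Lr v) := by
  refine ⟨?_, fun x hx => ?_, fun x₀ hx₀ => ?_⟩
  · exact (D.c1.continuous_fderiv (by norm_num)).clm_apply (by fun_prop)
  · unfold Lr
    rw [D.outd x hx]
    simp
  · obtain ⟨r, hr, U, hU, hb, h⟩ := D.loc x₀ hx₀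
    refine ⟨r, hr, Lr U, Lr_sc hU, hb, fun x hx => ?_⟩
    have hn := Metric.isOpen_ball.mem_nhds hx
    constructor
    · have h1 : v =ᶠ[𝓝 x] fun y => U y - c := by
        filter_upwards [hn] with y hy
        rw [← (h y hy).1]
        ring
      unfold Lr
      rw [h1.fderiv_eq]
      rw [fderiv_sub_const]
    · rw [la_Lr hU]
      have h1 : la U =ᶠ[𝓝 x] fun y => -(lam * U y) := by
        filter_upwards [hn] with y hy
        exact (h y hy).2
      unfold Lr
      rw [h1.fderiv_eq]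
      have h2 : HasFDerivAt (fun y => -(lam * U y)) (-(lam • fderiv ℝ U x)) x :=
        (((hU.diff x).hasFDerivAt).const_mul lam).neg
      rw [h2.fderiv]
      simp

/-- the angular derivative about a critical point vanishes to second order -/
theorem Dat.wat_zero (D : Dat Ω lam c v) (h0 : (0:ℂ) ∈ Ω) (hcr : fderiv ℝ v 0 = 0) :
    ∃ r > 0, ∃ W, SC W ∧ Metric.ball 0 r ⊆ Ω ∧
      (∀ x ∈ Metric.ball 0 r, Lr v x = W x ∧ la W x = -(lam * W x)) ∧ W 0 = 0 ∧ fderiv ℝ W 0 = 0 := by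
  obtain ⟨r, hr, U, hU, hb, h⟩ := D.loc 0 h0
  obtain ⟨-, -, hl⟩ := D.wat
  have hn : ∀ x ∈ Metric.ball (0:ℂ) r, v =ᶠ[𝓝 x] fun y => U y - c := by
    intro x hx
    filter_upwards [Metric.isOpen_ball.mem_nhds hx] with y hy
    rw [← (h y hy).1]
    ring
  have hf : ∀ x ∈ Metric.ball (0:ℂ) r, fderiv ℝ v x = fderiv ℝ U x := by
    intro x hx
    rw [(hn x hx).fderiv_eq, fderiv_sub_const]
  refine ⟨r, hr, Lr U, Lr_sc hU, hb, fun x hx => ⟨?_, ?_⟩, by simp [Lr], ?_⟩
  · unfold Lr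
    rw [hf x hx]
  · rw [la_Lr hU]
    have h1 : la U =ᶠ[𝓝 x] fun y => -(lam * U y) := by
      filter_upwards [Metric.isOpen_ball.mem_nhds hx] with y hy
      exact (h y hy).2
    unfold Lr
    rw [h1.fderiv_eq]
    have h2 : HasFDerivAt (fun y => -(lam * U y)) (-(lam • fderiv ℝ U x)) x :=
      (((hU.diff x).hasFDerivAt).const_mul lam).neg
    rw [h2.fderiv]
    simp
  · ext y
    have := dd_Lr hU y 0
    have e1 : dd y (Lr U) 0 = fderiv ℝ (Lr U) 0 y := rfl
    have e2 : dd (Complex.I * y) U 0 = 0 := by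
      change fderiv ℝ U 0 (Complex.I * y) = 0
      rw [← hf 0 (Metric.mem_ball_self hr), hcr]
      simp
    have e3 : Lr (dd y U) 0 = 0 := by simp [Lr]
    rw [← e1, this, e2, e3]
    simp

/-- the rotationally symmetric case -/
theorem Dat.disc (D : Dat Ω lam c v) (ho : IsOpen Ω) (hb : Bornology.IsBounded Ω)
    (hcon : IsPreconnected Ω) (hreg : interior (closure Ω) = Ω) (hlam : 0 < lam) (hc : c ≠ 0)
    (h0 : (0:ℂ) ∈ Ω) (hw : ∀ x, Lr v x = 0) : ∃ r > 0, Ω = Metric.ball 0 r := by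
  -- `v` is radial
  have hrad : ∀ (ζ x : ℂ), ‖ζ‖ = 1 → v (ζ * x) = v x := by
    intro ζ x hζ
    have hd : ∀ t : ℝ, HasDerivAt (fun t : ℝ => v (Complex.exp (t * Complex.I) * x)) 0 t := by
      intro t
      have h1 : HasDerivAt (fun t : ℝ => Complex.exp (t * Complex.I) * x)
          (Complex.I * (Complex.exp (t * Complex.I) * x)) t := by
        have h2 : HasDerivAt (fun t : ℝ => (t : ℂ) * Complex.I) Complex.I t := by
          simpa using (Complex.ofRealCLM.hasDerivAt (x := t)).mul_const Complex.I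
        refine (h2.cexp.mul_const x).congr_deriv ?_
        ring
      have h3 := ((D.c1.differentiable (by norm_num)) (Complex.exp (t * Complex.I) * x)).hasFDerivAt
      have h4 := h3.comp_hasDerivAt t h1
      refine h4.congr_deriv ?_
      exact hw _
    have h5 := is_const_of_deriv_eq_zero (fun t => (hd t).differentiableAt) (fun t => (hd t).deriv)
      (Complex.arg ζ) 0
    have h6 : Complex.exp (Complex.arg ζ * Complex.I) = ζ := by
      have := Complex.norm_mul_exp_arg_mul_I ζ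
      rwa [hζ, Complex.ofReal_one, one_mul] at this
    simp only [h6, Complex.ofReal_zero, zero_mul, Complex.exp_zero, one_mul] at h5
    exact h5
  -- the domain is radial
  have hinv : ∀ (ζ x : ℂ), ‖ζ‖ = 1 → x ∈ Ω → ζ * x ∈ Ω := by
    intro ζ x hζ hx
    by_contra hcon'
    have hζ0 : ζ ≠ 0 := by
      intro h
      rw [h, norm_zero] at hζ
      norm_num at hζ
    have h1 : ζ * x ∈ closure ((closure Ω)ᶜ) := by
      rw [closure_compl, hreg]
      exact hcon'
    -- points near `ζ x` in the exterior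
    have hcont : Continuous fun y : ℂ => ζ⁻¹ * y := by fun_prop
    have hpre : IsOpen ((fun y : ℂ => ζ⁻¹ * y) ⁻¹' Ω) := ho.preimage hcont
    have hmem : ζ * x ∈ (fun y : ℂ => ζ⁻¹ * y) ⁻¹' Ω := by
      change ζ⁻¹ * (ζ * x) ∈ Ω
      rw [inv_mul_cancel_left₀ hζ0]
      exact hx
    obtain ⟨y, hy1, hy2⟩ := mem_closure_iff.1 h1 _ hpre hmem
    set z := ζ⁻¹ * y with hz
    have hzΩ : z ∈ Ω := hy1
    have hζz : ζ * z = y := by rw [hz, mul_inv_cancel_left₀ hζ0]
    have hEo : IsOpen (closure Ω)ᶜ := isClosed_closure.isOpen_compl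
    have hv0 : v =ᶠ[𝓝 z] fun _ => 0 := by
      have hopen : IsOpen ((fun y : ℂ => ζ * y) ⁻¹' (closure Ω)ᶜ) := hEo.preimage (by fun_prop)
      have hzm : z ∈ (fun y : ℂ => ζ * y) ⁻¹' (closure Ω)ᶜ := by
        change ζ * z ∈ (closure Ω)ᶜ
        rw [hζz]
        exact hy2
      filter_upwards [hopen.mem_nhds hzm] with t ht
      rw [← hrad ζ t hζ]
      exact D.out _ fun h => (show ζ * t ∉ closure Ω from ht) (subset_closure h)
    obtain ⟨r, hr, U, hU, hbU, h⟩ := D.loc z hzΩ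
    have h3 : U =ᶠ[𝓝 z] fun _ => c := by
      filter_upwards [Metric.ball_mem_nhds z hr, hv0] with y hy hy0
      rw [← (h y hy).1, hy0, zero_add]
    have h2 := (h z (Metric.mem_ball_self hr)).2
    have h4 : ∀ v, dd v (dd v U) z = 0 := by
      intro v
      have h5 : dd v U =ᶠ[𝓝 z] fun _ => 0 := by
        filter_upwards [h3.fderiv (𝕜 := ℝ)] with y hy
        unfold dd
        rw [hy]
        simp
      unfold dd at h5 ⊢
      rw [h5.fderiv_eq]
      simp
    unfold la at h2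
    rw [h4, h4, h3.self_of_nhds] at h2
    have : lam * c = 0 := by linarith
    rcases mul_eq_zero.1 this with h | h
    · linarith
    · exact hc h
  -- balls
  have hball : ∀ x ∈ Ω, ∀ y : ℂ, ‖y‖ ≤ ‖x‖ → y ∈ Ω := by
    intro x hx y hy
    have h1 : IsPreconnected (norm '' Ω) := hcon.image _ continuous_norm.continuousOn
    have h2 : ‖y‖ ∈ norm '' Ω :=
      h1.Icc_subset (mem_image_of_mem _ h0) (mem_image_of_mem _ hx) ⟨by simp, hy⟩
    obtain ⟨z, hz, hzy⟩ := h2
    rcases eq_or_ne z 0 with hz0 | hz0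
    · rw [hz0, norm_zero] at hzy
      rw [norm_eq_zero.1 hzy.symm]
      exact h0
    · have := hinv (y / z) z (by rw [norm_div, hzy, div_self]; rw [← hzy]; exact norm_ne_zero_iff.2 hz0) hz
      rwa [div_mul_cancel₀ _ hz0] at this
  obtain ⟨C, hC⟩ := hb.exists_norm_le
  have hbdd : BddAbove (norm '' Ω) := ⟨C, by rintro _ ⟨x, hx, rfl⟩; exact hC x hx⟩
  set r := sSup (norm '' Ω) with hr
  have hsub : Ω ⊆ Metric.ball 0 r := by
    intro x hx
    rw [mem_ball_zero_iff]
    obtain ⟨ε, hε, hεb⟩ := Metric.isOpen_iff.1 ho x hx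
    obtain ⟨y, hy1, hy2⟩ : ∃ y ∈ Ω, ‖x‖ < ‖y‖ := by
      rcases eq_or_ne x 0 with hx0 | hx0
      · refine ⟨((ε / 2 : ℝ) : ℂ), hεb ?_, ?_⟩
        · rw [Metric.mem_ball, dist_eq_norm, hx0, sub_zero, Complex.norm_real, Real.norm_eq_abs,
            abs_of_pos (by positivity)]
          linarith
        · rw [hx0, norm_zero, Complex.norm_real, Real.norm_eq_abs, abs_of_pos (by positivity)]
          positivity
      · have hn : 0 < ‖x‖ := norm_pos_iff.2 hx0
        refine ⟨x + ((ε / 2 / ‖x‖ : ℝ) : ℂ) * x, hεb ?_, ?_⟩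
        · rw [Metric.mem_ball, dist_eq_norm, add_sub_cancel_left, norm_mul, Complex.norm_real,
            Real.norm_eq_abs, abs_of_pos (by positivity)]
          field_simp
          linarith
        · have e : x + ((ε / 2 / ‖x‖ : ℝ) : ℂ) * x = ((1 + ε / 2 / ‖x‖ : ℝ) : ℂ) * x := by
            push_cast; ring
          rw [e, norm_mul, Complex.norm_real, Real.norm_eq_abs, abs_of_pos (by positivity)]
          have : 0 < ε / 2 / ‖x‖ := by positivity
          nlinarith
    exact hy2.trans_le (le_csSup hbdd (mem_image_of_mem _ hy1))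
  refine ⟨r, ?_, Subset.antisymm hsub fun x hx => ?_⟩
  · have := hsub h0
    rw [mem_ball_zero_iff, norm_zero] at this
    exact this
  · rw [mem_ball_zero_iff] at hx
    obtain ⟨_, ⟨y, hy, rfl⟩, hxy⟩ := exists_lt_of_lt_csSup ⟨_, mem_image_of_mem _ h0⟩ hx
    exact hball y hy x hxy.le

end Pool.Agent.R227.SA
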