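import Pool.Agent.R227.SA10
import Pool.Agent.TH298.AN.Pars2

/-! Local structure of solutions of the Helmholtz equation at a zero. -/

set_option autoImplicit false

open MeasureTheory Set Filter
open scoped Topology ContDiff

namespace Pool.Agent.R227.SA

open Pool.Agent.TH298.Sch (X er et dd SC X_cont X_dr X_dt norm_X dd_sc X_eq er_exp)
open Pool.Agent.TH298.AN (mc ms odem parsR)
open Pool.Agent.TH298.AN.ODEM (er_cont)
open TH259.NS (B B_cont B_zero)

/-! ### Fourier modes -/

/-- uniqueness for Fourier modes -/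
lemma fourier_uniq {f : ℝ → ℝ} (hf : Continuous f)
    (hc : ∀ n : ℕ, ∫ θ in (-Real.pi)..Real.pi, f θ * Real.cos (n * θ) = 0)
    (hs : ∀ n : ℕ, ∫ θ in (-Real.pi)..Real.pi, f θ * Real.sin (n * θ) = 0) :
    ∀ θ ∈ Icc (-Real.pi) Real.pi, f θ = 0 := by
  have hpi := Real.pi_pos
  have h := parsR hf
  have e : (fun n : ℤ => ((∫ θ in (-Real.pi)..Real.pi, f θ * Real.cos (n.natAbs * θ)) ^ 2 +
      (∫ θ in (-Real.pi)..Real.pi, f θ * Real.sin (n.natAbs * θ)) ^ 2) / (4 * Real.pi ^ 2)) =
      fun _ => 0 := by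
    funext n
    rw [hc, hs]
    simp
  rw [e] at h
  have h0 := h.unique hasSum_zero
  have h1 : ∫ θ in (-Real.pi)..Real.pi, f θ ^ 2 = 0 := by
    rcases div_eq_zero_iff.1 h0 with h | h
    · exact h
    · exfalso; linarith
  intro θ hθ
  by_contra hne
  have := intervalIntegral.integral_pos (a := -Real.pi) (b := Real.pi) (f := fun θ => f θ ^ 2)
    (by linarith) (by fun_prop) (fun _ _ => sq_nonneg _) ⟨θ, hθ, by positivity⟩
  rw [h1] at this
  exact lt_irrefl _ this

lemma int_cos_int (k : ℤ) (hk : k ≠ 0) : ∫ θ in (-Real.pi)..Real.pi, Real.cos (k * θ) = 0 := by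
  have hk' : (k : ℝ) ≠ 0 := by exact_mod_cast hk
  have hd : ∀ θ : ℝ, HasDerivAt (fun θ : ℝ => Real.sin (k * θ) / k) (Real.cos (k * θ)) θ := by
    intro θ
    have h1 : HasDerivAt (fun θ : ℝ => (k : ℝ) * θ) k θ := by
      simpa using (hasDerivAt_id θ).const_mul (k : ℝ)
    refine (h1.sin.div_const _).congr_deriv ?_
    field_simp
  rw [intervalIntegral.integral_eq_sub_of_hasDerivAt (fun θ _ => hd θ)
    ((by fun_prop : Continuous fun θ : ℝ => Real.cos (k * θ)).intervalIntegrable _ _)]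
  rw [mul_neg, Real.sin_neg, Real.sin_int_mul_pi]
  simp

lemma int_sin_int (k : ℤ) : ∫ θ in (-Real.pi)..Real.pi, Real.sin (k * θ) = 0 := by
  rcases eq_or_ne k 0 with hk | hk
  · simp [hk]
  have hk' : (k : ℝ) ≠ 0 := by exact_mod_cast hk
  have hd : ∀ θ : ℝ, HasDerivAt (fun θ : ℝ => -Real.cos (k * θ) / k) (Real.sin (k * θ)) θ := by
    intro θ
    have h1 : HasDerivAt (fun θ : ℝ => (k : ℝ) * θ) k θ := by
      simpa using (hasDerivAt_id θ).const_mul (k : ℝ)
    refine (h1.cos.neg.div_const _).congr_deriv ?_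
    field_simp
  rw [intervalIntegral.integral_eq_sub_of_hasDerivAt (fun θ _ => hd θ)
    ((by fun_prop : Continuous fun θ : ℝ => Real.sin (k * θ)).intervalIntegrable _ _)]
  rw [mul_neg, Real.cos_neg]
  simp

lemma orth_cc (n m : ℕ) : ∫ θ in (-Real.pi)..Real.pi, Real.cos (m * θ) * Real.cos (n * θ) =
    ((∫ θ in (-Real.pi)..Real.pi, Real.cos (((n - m : ℤ) : ℝ) * θ)) +
      ∫ θ in (-Real.pi)..Real.pi, Real.cos (((n + m : ℤ) : ℝ) * θ)) / 2 := by
  rw [← intervalIntegral.integral_add (Continuous.intervalIntegrable (by fun_prop) _ _)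
    (Continuous.intervalIntegrable (by fun_prop) _ _), ← intervalIntegral.integral_div]
  refine intervalIntegral.integral_congr fun θ _ => ?_
  push_cast
  rw [sub_mul, add_mul, Real.cos_sub, Real.cos_add]
  ring

lemma orth_ss (n m : ℕ) : ∫ θ in (-Real.pi)..Real.pi, Real.sin (m * θ) * Real.sin (n * θ) =
    ((∫ θ in (-Real.pi)..Real.pi, Real.cos (((n - m : ℤ) : ℝ) * θ)) -
      ∫ θ in (-Real.pi)..Real.pi, Real.cos (((n + m : ℤ) : ℝ) * θ)) / 2 := by
  rw [← intervalIntegral.integral_sub (Continuous.intervalIntegrable (by fun_prop) _ _)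
    (Continuous.intervalIntegrable (by fun_prop) _ _), ← intervalIntegral.integral_div]
  refine intervalIntegral.integral_congr fun θ _ => ?_
  push_cast
  rw [sub_mul, add_mul, Real.cos_sub, Real.cos_add]
  ring

lemma orth_cs (n m : ℕ) : ∫ θ in (-Real.pi)..Real.pi, Real.cos (m * θ) * Real.sin (n * θ) = 0 := by
  have e : ∫ θ in (-Real.pi)..Real.pi, Real.cos (m * θ) * Real.sin (n * θ) =
    ((∫ θ in (-Real.pi)..Real.pi, Real.sin (((n - m : ℤ) : ℝ) * θ)) +
      ∫ θ in (-Real.pi)..Real.pi, Real.sin (((n + m : ℤ) : ℝ) * θ)) / 2 := by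
    rw [← intervalIntegral.integral_add (Continuous.intervalIntegrable (by fun_prop) _ _)
      (Continuous.intervalIntegrable (by fun_prop) _ _), ← intervalIntegral.integral_div]
    refine intervalIntegral.integral_congr fun θ _ => ?_
    push_cast
    rw [sub_mul, add_mul, Real.sin_sub, Real.sin_add]
    ring
  rw [e, int_sin_int, int_sin_int]
  simp

/-- a continuous function with a single nonzero mode -/
lemma one_mode_fn {f : ℝ → ℝ} (hf : Continuous f) {m : ℕ} (hm : 1 ≤ m)
    (hc : ∀ n : ℕ, n ≠ m → ∫ θ in (-Real.pi)..Real.pi, f θ * Real.cos (n * θ) = 0)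
    (hs : ∀ n : ℕ, n ≠ m → ∫ θ in (-Real.pi)..Real.pi, f θ * Real.sin (n * θ) = 0) :
    ∃ a b : ℝ, ∀ θ ∈ Icc (-Real.pi) Real.pi, f θ = a * Real.cos (m * θ) + b * Real.sin (m * θ) := by
  have hpi := Real.pi_pos
  set a := (∫ θ in (-Real.pi)..Real.pi, f θ * Real.cos (m * θ)) / Real.pi with ha
  set b := (∫ θ in (-Real.pi)..Real.pi, f θ * Real.sin (m * θ)) / Real.pi with hb
  refine ⟨a, b, ?_⟩
  have hcc : ∀ n : ℕ, ∫ θ in (-Real.pi)..Real.pi, Real.cos (m * θ) * Real.cos (n * θ) =
      if n = m then Real.pi else 0 := by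
    intro n
    rw [orth_cc, int_cos_int (n + m) (by omega)]
    split_ifs with h
    · subst h
      simp
    · rw [int_cos_int (n - m) (by omega)]
      simp
  have hss : ∀ n : ℕ, ∫ θ in (-Real.pi)..Real.pi, Real.sin (m * θ) * Real.sin (n * θ) =
      if n = m then Real.pi else 0 := by
    intro n
    rw [orth_ss, int_cos_int (n + m) (by omega)]
    split_ifs with h
    · subst h
      simp
    · rw [int_cos_int (n - m) (by omega)]
      simp
  have hsc : ∀ n : ℕ, ∫ θ in (-Real.pi)..Real.pi, Real.sin (m * θ) * Real.cos (n * θ) = 0 := by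
    intro n
    have := orth_cs m n
    rw [← this]
    refine intervalIntegral.integral_congr fun θ _ => ?_
    ring
  have hg : Continuous fun θ => f θ - (a * Real.cos (m * θ) + b * Real.sin (m * θ)) := by fun_prop
  have key := fourier_uniq hg (fun n => ?_) (fun n => ?_)
  · intro θ hθ
    have := key θ hθ
    linarith
  · have e : ∀ θ : ℝ, (f θ - (a * Real.cos (m * θ) + b * Real.sin (m * θ))) * Real.cos (n * θ) =
        f θ * Real.cos (n * θ) - (a * (Real.cos (m * θ) * Real.cos (n * θ)) +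
          b * (Real.sin (m * θ) * Real.cos (n * θ))) := fun θ => by ring
    simp only [e]
    rw [intervalIntegral.integral_sub (Continuous.intervalIntegrable (by fun_prop) _ _)
      (Continuous.intervalIntegrable (by fun_prop) _ _),
      intervalIntegral.integral_add (Continuous.intervalIntegrable (by fun_prop) _ _)
      (Continuous.intervalIntegrable (by fun_prop) _ _), intervalIntegral.integral_const_mul,
      intervalIntegral.integral_const_mul, hcc, hsc]
    by_cases h : n = m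
    · subst h
      rw [if_pos rfl, ha]
      field_simp
      ring
    · rw [if_neg h, hc n h]
      ring
  · have e : ∀ θ : ℝ, (f θ - (a * Real.cos (m * θ) + b * Real.sin (m * θ))) * Real.sin (n * θ) =
        f θ * Real.sin (n * θ) - (a * (Real.cos (m * θ) * Real.sin (n * θ)) +
          b * (Real.sin (m * θ) * Real.sin (n * θ))) := fun θ => by ring
    simp only [e]
    rw [intervalIntegral.integral_sub (Continuous.intervalIntegrable (by fun_prop) _ _)
      (Continuous.intervalIntegrable (by fun_prop) _ _),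
      intervalIntegral.integral_add (Continuous.intervalIntegrable (by fun_prop) _ _)
      (Continuous.intervalIntegrable (by fun_prop) _ _), intervalIntegral.integral_const_mul,
      intervalIntegral.integral_const_mul, hss, orth_cs]
    by_cases h : n = m
    · subst h
      rw [if_pos rfl, hb]
      field_simp
      ring
    · rw [if_neg h, hs n h]
      ring

/-! ### Taylor expansion along rays -/

lemma taylor_aux (k : ℕ) : ∀ (f : ℕ → ℝ → ℝ) (C : ℝ), 0 ≤ C →
    (∀ j s, HasDerivAt (f j) (f (j + 1) s) s) → (∀ j < k, f j 0 = 0) →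
    (∀ s ∈ Icc (0:ℝ) 1, |f (k + 1) s| ≤ C) →
    ∀ s ∈ Icc (0:ℝ) 1, |f 0 s - s ^ k * (f k 0 / (k.factorial : ℝ))| ≤ C * s ^ (k + 1) := by
  induction k with
  | zero =>
    intro f C hC hd _ hb s hs
    have h1 := (convex_Icc (0:ℝ) 1).norm_image_sub_le_of_norm_hasDerivWithin_le
      (f := f 0) (f' := f 1) (C := C) (fun x _ => (hd 0 x).hasDerivWithinAt) (fun x hx => hb x hx)
      (left_mem_Icc.2 zero_le_one) hs
    simp only [pow_zero, one_mul, Nat.factorial_zero, Nat.cast_one, div_one, zero_add, pow_one]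
    rw [Real.norm_eq_abs, Real.norm_eq_abs, sub_zero, abs_of_nonneg hs.1] at h1
    exact h1
  | succ k ih =>
    intro f C hC hd h0 hb s hs
    have h1 := ih (fun j => f (j + 1)) C hC (fun j s => hd (j + 1) s)
      (fun j hj => h0 (j + 1) (by omega)) hb
    set R : ℝ → ℝ := fun t => f 0 t - t ^ (k + 1) * (f (k + 1) 0 / ((k + 1).factorial : ℝ)) with hR
    have hRd : ∀ t, HasDerivAt R (f 1 t - t ^ k * (f (k + 1) 0 / (k.factorial : ℝ))) t := by
      intro t
      have h2 := (hd 0 t).sub ((hasDerivAt_pow (k + 1) t).mul_const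
        (f (k + 1) 0 / ((k + 1).factorial : ℝ)))
      refine h2.congr_deriv ?_
      rw [Nat.factorial_succ]
      have h3 : (k.factorial : ℝ) ≠ 0 := by exact_mod_cast k.factorial_ne_zero
      have h4 : ((k : ℝ) + 1) ≠ 0 := by positivity
      push_cast
      field_simp
    have h5 := (convex_Icc (0:ℝ) s).norm_image_sub_le_of_norm_hasDerivWithin_le
      (f := R) (f' := fun t => f 1 t - t ^ k * (f (k + 1) 0 / (k.factorial : ℝ)))
      (C := C * s ^ (k + 1)) (fun x _ => (hRd x).hasDerivWithinAt) (fun x hx => by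
        rw [Real.norm_eq_abs]
        refine (h1 x ⟨hx.1, hx.2.trans hs.2⟩).trans ?_
        exact mul_le_mul_of_nonneg_left (pow_le_pow_left₀ hx.1 hx.2 _) hC)
      (left_mem_Icc.2 hs.1) (right_mem_Icc.2 hs.1)
    have hR0 : R 0 = 0 := by
      simp only [hR]
      rw [h0 0 (Nat.succ_pos k)]
      simp
    rw [hR0, sub_zero, sub_zero, Real.norm_eq_abs, Real.norm_eq_abs, abs_of_nonneg hs.1] at h5
    refine h5.trans (le_of_eq ?_)
    ring

/-- the `k`-th radial derivative at the origin -/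
noncomputable def Pk (W : ℂ → ℝ) (k : ℕ) (θ : ℝ) : ℝ := iteratedFDeriv ℝ k W 0 (fun _ => er θ)

lemma Pk_cont (W : ℂ → ℝ) (k : ℕ) : Continuous (Pk W k) := by
  unfold Pk
  exact (iteratedFDeriv ℝ k W 0).cont.comp (continuous_pi fun _ => er_cont)

theorem taylor_ray {W : ℂ → ℝ} (hW : SC W) (k : ℕ) (h0 : ∀ j < k, ∀ θ, Pk W j θ = 0) :
    ∃ C, 0 ≤ C ∧ ∀ s ∈ Icc (0:ℝ) 1, ∀ θ,
      |W (X s θ) - s ^ k * (Pk W k θ / (k.factorial : ℝ))| ≤ C * s ^ (k + 1) := by
  obtain ⟨C, hC⟩ := (hW.sm.continuous_iteratedFDeriv (m := k + 1) (by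
    exact_mod_cast le_top)).bounded_above_of_compact_support (hW.cs.iteratedFDeriv (𝕜 := ℝ) (k + 1))
  have hC0 : 0 ≤ C := (norm_nonneg _).trans (hC 0)
  refine ⟨C, hC0, fun s hs θ => ?_⟩
  have hX0 : X 0 θ = 0 := by simp [X]
  have := taylor_aux k (fun j s => iteratedFDeriv ℝ j W (X s θ) (fun _ => er θ)) C hC0
    (fun j s => ?_) (fun j hj => by simp only [hX0]; exact h0 j hj θ) (fun s _ => ?_) s hs
  · simp only [hX0, iteratedFDeriv_zero_apply] at this
    exact this
  · have h1 : HasFDerivAt (iteratedFDeriv ℝ j W) (fderiv ℝ (iteratedFDeriv ℝ j W) (X s θ)) (X s θ) :=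
      ((hW.sm.differentiable_iteratedFDeriv (m := j) (by exact_mod_cast ENat.natCast_lt_top j))
        (X s θ)).hasFDerivAt
    have h2 := h1.comp_hasDerivAt s (X_dr s θ)
    have h3 := (ContinuousMultilinearMap.apply ℝ (fun _ : Fin j => ℂ) ℝ
      (fun _ => er θ)).hasFDerivAt.comp_hasDerivAt s h2
    refine h3.congr_deriv ?_
    rw [iteratedFDeriv_succ_apply_left]
    rfl
  · rw [← Real.norm_eq_abs]
    refine ((iteratedFDeriv ℝ (k + 1) W (X s θ)).le_opNorm _).trans ?_
    simp only [norm_er, Finset.prod_const_one, mul_one]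
    exact hC _

end Pool.Agent.R227.SA
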