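import Pool.Agent.R227.SA11

/-! Local structure at a zero: leading homogeneous term. -/

set_option autoImplicit false

open MeasureTheory Set Filter
open scoped Topology ContDiff

namespace Pool.Agent.R227.SA

open Pool.Agent.TH298.Sch (X er et dd SC X_cont X_dr X_dt norm_X dd_sc X_eq er_exp)
open Pool.Agent.TH298.AN (mc ms odem parsR)
open Pool.Agent.TH298.AN.ODEM (er_cont)
open TH259.NS (B B_cont B_zero)

lemma lim_zero {c K s0 : ℝ} {m : ℕ} (hs0 : 0 < s0)
    (h : ∀ s, 0 < s → s ≤ s0 → |s ^ m * c| ≤ K * s ^ (m + 1)) : c = 0 := by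
  by_contra hc
  have hc' := abs_pos.2 hc
  have h1 : ∀ s, 0 < s → s ≤ s0 → |c| ≤ K * s := by
    intro s hs hs'
    have := h s hs hs'
    rw [abs_mul, abs_of_pos (pow_pos hs m), pow_succ] at this
    have h2 : s ^ m * |c| ≤ s ^ m * (K * s) := by linarith
    exact le_of_mul_le_mul_left h2 (pow_pos hs m)
  have hK : 0 < K := by
    by_contra hK
    have := h1 s0 hs0 le_rfl
    nlinarith
  set s := min s0 (|c| / (2 * K)) with hs
  have hspos : 0 < s := by positivity
  have h2 := h1 s hspos (min_le_left _ _)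
  have h3 : s ≤ |c| / (2 * K) := min_le_right _ _
  have h4 : K * s ≤ |c| / 2 := by
    calc K * s ≤ K * (|c| / (2 * K)) := mul_le_mul_of_nonneg_left h3 hK.le
      _ = |c| / 2 := by field_simp
  linarith

lemma B_small (n : ℕ) {lam : ℝ} (hlam : 0 < lam) : ∃ s1 > 0, ∃ b > 0, ∀ s, 0 ≤ s → s ≤ s1 →
    b ≤ B n (lam * s ^ 2 / 4) := by
  have hb : 0 < 1 / (2 * (n.factorial : ℝ)) := by positivity
  obtain ⟨δ, hδ, h⟩ := Metric.continuousAt_iff.1 ((B_cont n).continuousAt (x := 0))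
    (1 / (2 * (n.factorial : ℝ))) hb
  refine ⟨min 1 (δ / lam), by positivity, _, hb, fun s hs0 hs => ?_⟩
  have h1 : s ≤ 1 := hs.trans (min_le_left _ _)
  have h2 : s ≤ δ / lam := hs.trans (min_le_right _ _)
  have h3 : lam * s ≤ δ := by
    rw [le_div_iff₀ hlam] at h2
    linarith
  have h4 : lam * s ^ 2 / 4 < δ := by nlinarith
  have h5 := h (x := lam * s ^ 2 / 4) (by
    rw [Real.dist_eq, sub_zero, abs_of_nonneg (by positivity)]; exact h4)
  rw [Real.dist_eq, B_zero] at h5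
  have h6 := (abs_lt.1 h5).1
  have h7 : 1 / (n.factorial : ℝ) = 2 * (1 / (2 * (n.factorial : ℝ))) := by
    field_simp
  linarith

/-- a mode that is too small near the origin vanishes -/
lemma alpha_zero {n : ℕ} {lam α K s0 : ℝ} (hlam : 0 < lam) (hs0 : 0 < s0) (hK : 0 ≤ K)
    (h : ∀ s, 0 < s → s ≤ s0 → |α * s ^ n * B n (lam * s ^ 2 / 4)| ≤ K * s ^ (n + 1)) : α = 0 := by
  obtain ⟨s1, hs1, b, hb, hB⟩ := B_small n hlam
  refine lim_zero (m := n) (K := K / b) (s0 := min s0 s1) (lt_min hs0 hs1) fun s hs hs' => ?_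
  have h1 := h s hs (hs'.trans (min_le_left _ _))
  have h2 := hB s hs.le (hs'.trans (min_le_right _ _))
  rw [abs_mul, abs_of_pos (hb.trans_le h2)] at h1
  have h3 : |α * s ^ n| * b ≤ K * s ^ (n + 1) :=
    (mul_le_mul_of_nonneg_left h2 (abs_nonneg _)).trans h1
  rw [mul_comm (s ^ n) α, div_mul_eq_mul_div, le_div_iff₀ hb]
  exact h3

variable {W : ℂ → ℝ} {lam r0 : ℝ} {e : ℝ → ℝ}

lemma mode_bound {f : ℝ → ℝ} (he1 : ∀ θ, |e θ| ≤ 1) {c : ℝ} (hf : ∀ θ, |f θ| ≤ c) :
    |∫ θ in (-Real.pi)..Real.pi, f θ * e θ| ≤ 2 * Real.pi * c := by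
  have hpi := Real.pi_pos
  have := intervalIntegral.norm_integral_le_of_norm_le_const (a := -Real.pi) (b := Real.pi)
    (f := fun θ => f θ * e θ) (C := c) (fun θ _ => by
      rw [Real.norm_eq_abs, abs_mul]
      calc |f θ| * |e θ| ≤ c * 1 := mul_le_mul (hf θ) (he1 θ) (abs_nonneg _)
            ((abs_nonneg _).trans (hf θ))
        _ = c := mul_one c)
  rw [Real.norm_eq_abs] at this
  refine this.trans (le_of_eq ?_)
  rw [show Real.pi - -Real.pi = 2 * Real.pi by ring, abs_of_pos (by positivity)]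
  ring

/-- all radial derivatives vanish -/
lemma mode_flat (hlam : 0 < lam) (hW : SC W) (hr0 : 0 < r0) (he1 : ∀ θ, |e θ| ≤ 1) {n : ℕ}
    (hα : ∃ α : ℝ, ∀ r ∈ Icc 0 r0, ∫ θ in (-Real.pi)..Real.pi, W (X r θ) * e θ =
      α * r ^ n * B n (lam * r ^ 2 / 4)) (hall : ∀ k θ, Pk W k θ = 0) :
    ∀ r ∈ Icc 0 r0, ∫ θ in (-Real.pi)..Real.pi, W (X r θ) * e θ = 0 := by
  obtain ⟨α, hα⟩ := hα
  obtain ⟨C, hC0, hC⟩ := taylor_ray hW n (fun j _ θ => hall j θ)
  have hpi := Real.pi_pos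
  have hα0 : α = 0 := by
    refine alpha_zero (n := n) (K := 2 * Real.pi * C) (s0 := min 1 r0) hlam (lt_min one_pos hr0)
      (by positivity) fun s hs hs' => ?_
    rw [← hα s ⟨hs.le, hs'.trans (min_le_right _ _)⟩]
    refine (mode_bound he1 (c := C * s ^ (n + 1)) fun θ => ?_).trans (le_of_eq (by ring))
    have := hC s ⟨hs.le, hs'.trans (min_le_left _ _)⟩ θ
    rw [hall n θ] at this
    simpa using this
  intro r hr
  rw [hα r hr, hα0]
  ring

/-- modes of the leading term -/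
lemma mode_lead (hlam : 0 < lam) (hW : SC W) (hr0 : 0 < r0) (hec : Continuous e)
    (he1 : ∀ θ, |e θ| ≤ 1) {n m : ℕ} (hnm : n ≠ m)
    (hα : ∃ α : ℝ, ∀ r ∈ Icc 0 r0, ∫ θ in (-Real.pi)..Real.pi, W (X r θ) * e θ =
      α * r ^ n * B n (lam * r ^ 2 / 4)) (h0 : ∀ j < m, ∀ θ, Pk W j θ = 0) :
    ∫ θ in (-Real.pi)..Real.pi, Pk W m θ * e θ = 0 := by
  obtain ⟨α, hα⟩ := hα
  obtain ⟨C, hC0, hC⟩ := taylor_ray hW m h0
  have hpi := Real.pi_pos
  have hmf : (0 : ℝ) < (m.factorial : ℝ) := by exact_mod_cast m.factorial_pos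
  -- a bound for the leading term
  obtain ⟨D, hD⟩ : ∃ D, ∀ θ, |Pk W m θ / (m.factorial : ℝ)| ≤ D := by
    refine ⟨‖iteratedFDeriv ℝ m W 0‖ / (m.factorial : ℝ), fun θ => ?_⟩
    rw [abs_div, abs_of_pos hmf]
    refine div_le_div_of_nonneg_right ?_ hmf.le
    unfold Pk
    rw [← Real.norm_eq_abs]
    refine ((iteratedFDeriv ℝ m W 0).le_opNorm _).trans ?_
    simp only [norm_er, Finset.prod_const_one, mul_one, le_refl]
  have hD0 : 0 ≤ D := (abs_nonneg _).trans (hD 0)
  have hXc : ∀ s : ℝ, Continuous fun θ : ℝ => X s θ := fun s =>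
    X_cont.comp (continuous_const.prodMk continuous_id)
  -- bound for the mode
  obtain ⟨K, s0, hK, hs0, hs1, hsr, hb⟩ : ∃ K s0 : ℝ, 0 ≤ K ∧ 0 < s0 ∧ s0 ≤ 1 ∧ s0 ≤ r0 ∧
      ∀ s, 0 < s → s ≤ s0 → |∫ θ in (-Real.pi)..Real.pi, W (X s θ) * e θ| ≤ K * s ^ (m + 1) := by
    rcases lt_or_gt_of_ne hnm with hlt | hgt
    · -- `n < m`
      have hα0 : α = 0 := by
        refine alpha_zero (n := n) (K := 2 * Real.pi * (C + D)) (s0 := min 1 r0) hlam
          (lt_min one_pos hr0) (by positivity) fun s hs hs' => ?_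
        have hs1 : s ≤ 1 := hs'.trans (min_le_left _ _)
        rw [← hα s ⟨hs.le, hs'.trans (min_le_right _ _)⟩]
        refine (mode_bound he1 (c := (C + D) * s ^ (n + 1)) fun θ => ?_).trans (le_of_eq (by ring))
        have h1 := hC s ⟨hs.le, hs1⟩ θ
        have h2 : |s ^ m * (Pk W m θ / (m.factorial : ℝ))| ≤ s ^ m * D := by
          rw [abs_mul, abs_of_pos (pow_pos hs m)]
          exact mul_le_mul_of_nonneg_left (hD θ) (pow_pos hs m).le
        have h3 : s ^ m ≤ s ^ (n + 1) := pow_le_pow_of_le_one hs.le hs1 (by omega)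
        have h4 : s ^ (m + 1) ≤ s ^ (n + 1) := pow_le_pow_of_le_one hs.le hs1 (by omega)
        have h5 : |W (X s θ)| ≤ C * s ^ (m + 1) + s ^ m * D := by
          have := abs_sub_abs_le_abs_sub (W (X s θ)) (s ^ m * (Pk W m θ / (m.factorial : ℝ)))
          linarith
        have h6 := mul_le_mul_of_nonneg_left h4 hC0
        have h7 := mul_le_mul_of_nonneg_right h3 hD0
        linarith
      refine ⟨0, min 1 r0, le_rfl, lt_min one_pos hr0, min_le_left _ _, min_le_right _ _,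
        fun s hs hs' => ?_⟩
      rw [hα s ⟨hs.le, hs'.trans (min_le_right _ _)⟩, hα0]
      simp
    · -- `n > m`
      obtain ⟨Bm, hBm⟩ := (isCompact_Icc (a := (0:ℝ)) (b := lam * r0 ^ 2 / 4)).exists_bound_of_continuousOn
        (B_cont n).continuousOn
      have hBm0 : 0 ≤ Bm := (norm_nonneg _).trans (hBm 0 ⟨le_rfl, by positivity⟩)
      refine ⟨|α| * Bm, min 1 r0, by positivity, lt_min one_pos hr0, min_le_left _ _,
        min_le_right _ _, fun s hs hs' => ?_⟩
      have hs1 : s ≤ 1 := hs'.trans (min_le_left _ _)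
      have hsr : s ≤ r0 := hs'.trans (min_le_right _ _)
      rw [hα s ⟨hs.le, hsr⟩, abs_mul, abs_mul, abs_of_pos (pow_pos hs n)]
      have h1 := hBm (lam * s ^ 2 / 4) ⟨by positivity, by
        have : s ^ 2 ≤ r0 ^ 2 := pow_le_pow_left₀ hs.le hsr 2
        nlinarith⟩
      rw [Real.norm_eq_abs] at h1
      have h2 : s ^ n ≤ s ^ (m + 1) := pow_le_pow_of_le_one hs.le hs1 (by omega)
      calc |α| * s ^ n * |B n (lam * s ^ 2 / 4)| ≤ |α| * s ^ (m + 1) * Bm :=
            mul_le_mul (mul_le_mul_of_nonneg_left h2 (abs_nonneg _)) h1 (abs_nonneg _) (by positivity)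
        _ = _ := by ring
  have hz : (∫ θ in (-Real.pi)..Real.pi, Pk W m θ * e θ) / (m.factorial : ℝ) = 0 := by
    refine lim_zero (m := m) (K := K + 2 * Real.pi * C) hs0 fun s hs hs' => ?_
    have h1 := hb s hs hs'
    have h2 := mode_bound (f := fun θ => W (X s θ) - s ^ m * (Pk W m θ / (m.factorial : ℝ))) he1
      (fun θ => hC s ⟨hs.le, hs'.trans hs1⟩ θ)
    have e1 : ∫ θ in (-Real.pi)..Real.pi, (W (X s θ) - s ^ m * (Pk W m θ / (m.factorial : ℝ))) * e θ =
        (∫ θ in (-Real.pi)..Real.pi, W (X s θ) * e θ) -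
          s ^ m * ((∫ θ in (-Real.pi)..Real.pi, Pk W m θ * e θ) / (m.factorial : ℝ)) := by
      have c1 : Continuous fun θ => W (X s θ) * e θ := (hW.cont.comp (hXc s)).mul hec
      have c2 : Continuous fun θ => Pk W m θ * e θ := (Pk_cont W m).mul hec
      have e2 : ∀ θ, (W (X s θ) - s ^ m * (Pk W m θ / (m.factorial : ℝ))) * e θ =
          W (X s θ) * e θ - s ^ m / (m.factorial : ℝ) * (Pk W m θ * e θ) := fun θ => by ring
      simp only [e2]
      rw [intervalIntegral.integral_sub (c1.intervalIntegrable _ _)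
        ((c2.const_mul _).intervalIntegrable _ _), intervalIntegral.integral_const_mul]
      ring
    rw [e1] at h2
    rw [abs_le] at h1 h2 ⊢
    constructor <;> nlinarith [h1.1, h1.2, h2.1, h2.2]
  rcases div_eq_zero_iff.1 hz with h | h
  · exact h
  · exact absurd h hmf.ne'

/-- local structure at a zero -/
theorem local_str (hlam : 0 < lam) (hW : SC W) (hr0 : 0 < r0)
    (hH : ∀ x ∈ Metric.ball (0:ℂ) r0, la W x = -(lam * W x)) (h0 : W 0 = 0) :
    (∀ x ∈ Metric.ball (0:ℂ) r0, W x = 0) ∨ ∃ (m : ℕ) (a b C : ℝ), 1 ≤ m ∧ (a ≠ 0 ∨ b ≠ 0) ∧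
      (fderiv ℝ W 0 = 0 → 2 ≤ m) ∧ ∀ s ∈ Icc (0:ℝ) 1, ∀ θ : ℝ,
        |W (X s θ) - s ^ m * (a * Real.cos (m * θ) + b * Real.sin (m * θ))| ≤ C * s ^ (m + 1) := by
  have hpi := Real.pi_pos
  have hmodes := odem r0 lam W hr0 hlam hW.sm (fun x hx => hH x (mem_ball_zero_iff.2 hx))
  have hcb : ∀ n : ℕ, ∀ θ : ℝ, |Real.cos (n * θ)| ≤ 1 := fun n θ => Real.abs_cos_le_one _
  have hsb : ∀ n : ℕ, ∀ θ : ℝ, |Real.sin (n * θ)| ≤ 1 := fun n θ => Real.abs_sin_le_one _
  have hXc : ∀ s : ℝ, Continuous fun θ : ℝ => X s θ := fun s =>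
    X_cont.comp (continuous_const.prodMk continuous_id)
  by_cases hall : ∀ k θ, Pk W k θ = 0
  · left
    intro x hx
    rw [mem_ball_zero_iff] at hx
    have h1 := fourier_uniq (f := fun θ => W (X ‖x‖ θ)) (hW.cont.comp (hXc _))
      (fun n => mode_flat hlam hW hr0 (hcb n) (hmodes n).1 hall ‖x‖ ⟨norm_nonneg _, hx.le⟩)
      (fun n => mode_flat hlam hW hr0 (hsb n) (hmodes n).2 hall ‖x‖ ⟨norm_nonneg _, hx.le⟩)
      (Complex.arg x) ⟨(Complex.neg_pi_lt_arg x).le, Complex.arg_le_pi x⟩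
    rw [X_eq, er_exp, Complex.norm_mul_exp_arg_mul_I] at h1
    exact h1
  · right
    push Not at hall
    classical
    set m := Nat.find hall with hm
    obtain ⟨θ₁, hθ₁⟩ := Nat.find_spec hall
    have hmin : ∀ j < m, ∀ θ, Pk W j θ = 0 := by
      intro j hj θ
      by_contra hne
      exact Nat.find_min hall hj ⟨θ, hne⟩
    have hm1 : 1 ≤ m := by
      by_contra hcon
      have hm0 : m = 0 := by omega
      apply hθ₁
      rw [← hm, hm0]
      unfold Pk
      rw [iteratedFDeriv_zero_apply, h0]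
    have hm2 : fderiv ℝ W 0 = 0 → 2 ≤ m := by
      intro hf
      by_contra hcon
      have hm0 : m = 1 := by omega
      apply hθ₁
      rw [← hm, hm0]
      unfold Pk
      rw [iteratedFDeriv_one_apply, hf]
      simp
    obtain ⟨a, b, hab⟩ := one_mode_fn (Pk_cont W m) hm1
      (fun n hn => mode_lead hlam hW hr0 (by fun_prop) (hcb n) hn (hmodes n).1 hmin)
      (fun n hn => mode_lead hlam hW hr0 (by fun_prop) (hsb n) hn (hmodes n).2 hmin)
    -- all angles
    have hab' : ∀ θ, Pk W m θ = a * Real.cos (m * θ) + b * Real.sin (m * θ) := by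
      intro θ
      obtain ⟨k, hk⟩ : ∃ k : ℤ, θ - k * (2 * Real.pi) ∈ Icc (-Real.pi) Real.pi := by
        have h2 := toIcoMod_mem_Ico (by positivity : 0 < 2 * Real.pi) (-Real.pi) θ
        have h3 := self_sub_toIcoDiv_zsmul (by positivity : 0 < 2 * Real.pi) (-Real.pi) θ
        refine ⟨toIcoDiv (by positivity : 0 < 2 * Real.pi) (-Real.pi) θ, ?_⟩
        rw [← h3, zsmul_eq_mul] at h2
        exact ⟨h2.1, by linarith [h2.2]⟩
      have h2 := hab _ hk
      have e1 : er (θ - k * (2 * Real.pi)) = er θ := by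
        unfold er
        rw [Real.cos_sub_int_mul_two_pi, Real.sin_sub_int_mul_two_pi]
      have e2 : Pk W m (θ - k * (2 * Real.pi)) = Pk W m θ := by
        unfold Pk
        rw [e1]
      have e3 : (m : ℝ) * (θ - k * (2 * Real.pi)) = m * θ - ((m * k : ℤ) : ℝ) * (2 * Real.pi) := by
        push_cast
        ring
      rw [e2, e3, Real.cos_sub_int_mul_two_pi, Real.sin_sub_int_mul_two_pi] at h2
      exact h2
    obtain ⟨C, hC0, hC⟩ := taylor_ray hW m hmin
    have hmf : (0 : ℝ) < (m.factorial : ℝ) := by exact_mod_cast m.factorial_pos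
    refine ⟨m, a / m.factorial, b / m.factorial, C, hm1, ?_, hm2, fun s hs θ => ?_⟩
    · by_contra hcon
      push Not at hcon
      obtain ⟨ha, hb⟩ := hcon
      have ha' : a = 0 := by
        rcases div_eq_zero_iff.1 ha with h | h
        · exact h
        · exact absurd h hmf.ne'
      have hb' : b = 0 := by
        rcases div_eq_zero_iff.1 hb with h | h
        · exact h
        · exact absurd h hmf.ne'
      apply hθ₁
      rw [← hm, hab', ha', hb']
      simp
    · have h2 := hC s hs θ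
      rw [hab'] at h2
      have e1 : s ^ m * (a / m.factorial * Real.cos (m * θ) + b / m.factorial * Real.sin (m * θ)) =
          s ^ m * ((a * Real.cos (m * θ) + b * Real.sin (m * θ)) / m.factorial) := by
        field_simp
      rw [e1]
      exact h2

end Pool.Agent.R227.SA
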