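import Pool.Agent.R227.SA12

/-! Unique continuation and the signs along rays. -/

set_option autoImplicit false

open MeasureTheory Set Filter
open scoped Topology ContDiff

namespace Pool.Agent.R227.SA

open Pool.Agent.TH298.Sch (X er et dd SC X_cont X_dr X_dt norm_X dd_sc X_eq er_exp X_add Lr)

lemma la_trans (v : ℂ → ℝ) (a y : ℂ) : la (fun y => v (y + a)) y = la v (y + a) := by
  unfold la
  have : ∀ h, dd h (dd h (fun y => v (y + a))) y = dd h (dd h v) (y + a) := by
    intro h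
    have e : dd h (fun y => v (y + a)) = fun y => dd h v (y + a) := funext fun y => dd_trans v h a y
    rw [e]
    exact dd_trans (dd h v) h a y
  rw [this, this]

lemma amp {a b : ℝ} (h : a ≠ 0 ∨ b ≠ 0) : ∃ c ψ : ℝ, 0 < c ∧ ∀ t : ℝ,
    a * Real.cos t + b * Real.sin t = c * Real.cos (t - ψ) := by
  set z : ℂ := ⟨a, b⟩ with hz
  have hz0 : z ≠ 0 := by
    intro h0
    have h1 := congrArg Complex.re h0
    have h2 := congrArg Complex.im h0
    simp [hz] at h1 h2
    rcases h with h | h <;> contradiction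
  refine ⟨‖z‖, Complex.arg z, norm_pos_iff.2 hz0, fun t => ?_⟩
  have h1 := Complex.norm_mul_cos_arg z
  have h2 := Complex.norm_mul_sin_arg z
  rw [Real.cos_sub]
  have h3 : z.re = a := rfl
  have h4 : z.im = b := rfl
  rw [h3] at h1
  rw [h4] at h2
  rw [← h1, ← h2]
  ring

lemma no_zero {W : ℂ → ℝ} {m : ℕ} {a b C : ℝ} (hm : 1 ≤ m) (hab : a ≠ 0 ∨ b ≠ 0)
    (h : ∀ s ∈ Icc (0:ℝ) 1, ∀ θ : ℝ,
        |W (X s θ) - s ^ m * (a * Real.cos (m * θ) + b * Real.sin (m * θ))| ≤ C * s ^ (m + 1))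
    (hW : W =ᶠ[𝓝 0] 0) : False := by
  obtain ⟨c, ψ, hc, hcψ⟩ := amp hab
  obtain ⟨δ, hδ, hδW⟩ := Metric.eventually_nhds_iff.1 hW
  have hm0 : (m : ℝ) ≠ 0 := by
    have : (1:ℝ) ≤ m := by exact_mod_cast hm
    linarith
  have : c = 0 := by
    refine lim_zero (m := m) (K := C) (s0 := min 1 (δ / 2)) (by positivity) fun s hs hs' => ?_
    have h1 := h s ⟨hs.le, hs'.trans (min_le_left _ _)⟩ (ψ / m)
    have h2 : W (X s (ψ / m)) = 0 := by
      refine hδW ?_
      rw [dist_zero_right, norm_X, abs_of_pos hs]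
      have := hs'.trans (min_le_right _ _)
      linarith
    rw [h2, hcψ, mul_div_cancel₀ _ hm0, sub_self, Real.cos_zero, mul_one, zero_sub, abs_neg] at h1
    exact h1
  linarith

variable {Ω : Set ℂ} {lam : ℝ} {w : ℂ → ℝ}

/-- unique continuation -/
theorem Wat.uc (h : Wat Ω lam w) (hlam : 0 < lam) (hcon : IsPreconnected Ω) {a : ℂ} (ha : a ∈ Ω)
    (hz : w =ᶠ[𝓝 a] 0) : ∀ x, w x = 0 := by
  set Z : Set ℂ := {x | w =ᶠ[𝓝 x] 0} with hZ
  have hZo : IsOpen Z := by
    rw [isOpen_iff_mem_nhds]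
    intro x hx
    exact eventually_eventually_nhds.2 hx
  have hsub : Ω ⊆ Z := by
    refine hcon.subset_of_closure_inter_subset hZo ⟨a, ha, hz⟩ ?_
    rintro x ⟨hxc, hxΩ⟩
    obtain ⟨r, hr, W, hW, hb, hl⟩ := h.loc x hxΩ
    obtain ⟨y, hy, hyd⟩ := Metric.mem_closure_iff.1 hxc (r / 3) (by positivity)
    have hyb : ∀ z ∈ Metric.ball (0:ℂ) (r / 2), z + y ∈ Metric.ball x r := by
      intro z hz
      rw [mem_ball_zero_iff] at hz
      rw [Metric.mem_ball, dist_eq_norm]
      rw [dist_comm, dist_eq_norm] at hyd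
      have : z + y - x = z + (y - x) := by ring
      rw [this]
      refine (norm_add_le _ _).trans_lt ?_
      linarith
    have hy0 : y + 0 ∈ Metric.ball x r := by
      have := hyb 0 (Metric.mem_ball_self (by positivity))
      rwa [add_comm]
    have hev : (fun z => W (z + y)) =ᶠ[𝓝 0] 0 := by
      have h1 : ∀ᶠ z in 𝓝 y, W z = 0 := by
        have h2 : ∀ᶠ z in 𝓝 y, z ∈ Metric.ball x r := Metric.isOpen_ball.mem_nhds (by simpa using hy0)
        filter_upwards [hy, h2] with z hz1 hz2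
        rw [← (hl z hz2).1]
        exact hz1
      have h3 : Tendsto (fun z : ℂ => z + y) (𝓝 0) (𝓝 y) := by
        have : Continuous fun z : ℂ => z + y := by fun_prop
        have := this.tendsto 0
        rwa [zero_add] at this
      exact h3.eventually h1
    have hst := local_str (W := fun z => W (z + y)) (r0 := r / 2) hlam (trans_sc hW y) (by positivity)
      (fun z hz => by
        rw [la_trans]
        exact (hl _ (hyb z hz)).2) hev.self_of_nhds
    rcases hst with h1 | ⟨m, a', b', C, hm, hab, -, hC⟩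
    · -- vanishes near `x`
      have hxy : x ∈ Metric.ball y (r / 2) := by
        rw [Metric.mem_ball]
        linarith
      have : w =ᶠ[𝓝 x] 0 := by
        filter_upwards [Metric.isOpen_ball.mem_nhds hxy, Metric.ball_mem_nhds x hr] with z hz1 hz2
        have h2 := h1 (z - y) (by
          rw [mem_ball_zero_iff]
          rw [Metric.mem_ball, dist_eq_norm] at hz1
          exact hz1)
        rw [sub_add_cancel] at h2
        rw [(hl z hz2).1, h2]
        rfl
      exact this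
    · exact (no_zero hm hab hC hev).elim
  intro x
  by_cases hx : x ∈ Ω
  · exact (hsub hx).self_of_nhds
  · exact h.out x hx

/-- alternating signs along rays at a zero -/
theorem Wat.rays (h : Wat Ω lam w) (hlam : 0 < lam) (hcon : IsPreconnected Ω) (h0 : (0:ℂ) ∈ Ω)
    (hne : ∃ x, w x ≠ 0) {r : ℝ} {W : ℂ → ℝ} (hr : 0 < r) (hW : SC W)
    (hl : ∀ x ∈ Metric.ball (0:ℂ) r, w x = W x ∧ la W x = -(lam * W x)) (hW0 : W 0 = 0) :
    ∃ (m : ℕ) (θ₀ ε : ℝ), 1 ≤ m ∧ 0 < ε ∧ (fderiv ℝ W 0 = 0 → 2 ≤ m) ∧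
      (∀ n : ℕ, 1 ≤ n → (∀ x, w (Complex.exp ((2 * Real.pi / n : ℝ) * Complex.I) * x) = w x) → n ∣ m) ∧
      ∀ i : ℕ, ∀ s, 0 < s → s ≤ ε → 0 < (-1) ^ i * w (X s (θ₀ + Real.pi * i / m)) := by
  have hpi := Real.pi_pos
  rcases local_str hlam hW hr (fun x hx => (hl x hx).2) hW0 with h1 | ⟨m, a, b, C, hm, hab, hm2, hC⟩
  · exfalso
    obtain ⟨x, hx⟩ := hne
    refine hx (h.uc hlam hcon h0 ?_ x)
    filter_upwards [Metric.ball_mem_nhds (0:ℂ) hr] with z hz
    rw [(hl z hz).1, h1 z hz]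
    rfl
  obtain ⟨c, ψ, hc, hcψ⟩ := amp hab
  have hm1 : (1:ℝ) ≤ m := by exact_mod_cast hm
  have hm0 : (m : ℝ) ≠ 0 := by linarith
  have hC0 : 0 ≤ C := by
    have := (abs_nonneg _).trans (hC 1 ⟨zero_le_one, le_rfl⟩ 0)
    simpa using this
  have hwX : ∀ s θ : ℝ, 0 ≤ s → s < r → w (X s θ) = W (X s θ) := by
    intro s θ hs hs'
    refine (hl _ ?_).1
    rw [mem_ball_zero_iff, norm_X, abs_of_nonneg hs]
    exact hs'
  refine ⟨m, ψ / m, min (min 1 (r / 2)) (c / (2 * (C + 1))), hm, by positivity, hm2, ?_, ?_⟩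
  · intro n hn hsym
    have hn1 : (1:ℝ) ≤ n := by exact_mod_cast hn
    have hn0 : (n : ℝ) ≠ 0 := by linarith
    have hz : c * Real.cos (m * (2 * Real.pi / n)) - c = 0 := by
      refine lim_zero (m := m) (K := 2 * C) (s0 := min 1 (r / 2)) (by positivity) fun s hs hs' => ?_
      have hs1 : s ≤ 1 := hs'.trans (min_le_left _ _)
      have hsr : s < r := by
        have := hs'.trans (min_le_right _ _)
        linarith
      have k1 := hC s ⟨hs.le, hs1⟩ (ψ / m)
      have k2 := hC s ⟨hs.le, hs1⟩ (ψ / m + 2 * Real.pi / n)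
      rw [hcψ, mul_div_cancel₀ _ hm0, sub_self, Real.cos_zero, mul_one, ← hwX s _ hs.le hsr] at k1
      rw [hcψ, mul_add, mul_div_cancel₀ _ hm0, add_sub_cancel_left, ← hwX s _ hs.le hsr, X_add,
        hsym] at k2
      have e1 : s ^ m * (c * Real.cos (m * (2 * Real.pi / n)) - c) =
          (w (X s (ψ / m)) - s ^ m * c) -
          (w (X s (ψ / m)) - s ^ m * (c * Real.cos (m * (2 * Real.pi / n)))) := by ring
      rw [e1]
      refine (abs_sub _ _).trans ?_
      linarith
    have h1 : Real.cos (m * (2 * Real.pi / n)) = 1 := by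
      have : c * Real.cos (m * (2 * Real.pi / n)) = c * 1 := by linarith
      exact mul_left_cancel₀ hc.ne' this
    obtain ⟨k, hk⟩ := (Real.cos_eq_one_iff _).1 h1
    have h2 : (m : ℝ) = k * n := by
      field_simp at hk
      exact hk.symm
    have h3 : (m : ℤ) = k * n := by exact_mod_cast h2
    have h4 : (n : ℤ) ∣ m := ⟨k, by rw [h3]; ring⟩
    exact_mod_cast h4
  · intro i s hs hs'
    have hs1 : s ≤ 1 := (hs'.trans (min_le_left _ _)).trans (min_le_left _ _)
    have hsr : s < r := by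
      have := (hs'.trans (min_le_left _ _)).trans (min_le_right _ _)
      linarith
    have hsc : s ≤ c / (2 * (C + 1)) := hs'.trans (min_le_right _ _)
    have k1 := hC s ⟨hs.le, hs1⟩ (ψ / m + Real.pi * i / m)
    have e1 : (m : ℝ) * (ψ / m + Real.pi * i / m) - ψ = i * Real.pi := by
      field_simp
      ring
    rw [hcψ, e1, Real.cos_nat_mul_pi, ← hwX s _ hs.le hsr] at k1
    have h2 : C * s ^ (m + 1) < s ^ m * c := by
      have h3 : C * s ≤ c / 2 := by
        have h4 : (C + 1) * s ≤ c / 2 := by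
          rw [le_div_iff₀ (by positivity)] at hsc
          linarith
        nlinarith
      have h5 : 0 < s ^ m := pow_pos hs m
      calc C * s ^ (m + 1) = s ^ m * (C * s) := by ring
        _ ≤ s ^ m * (c / 2) := mul_le_mul_of_nonneg_left h3 h5.le
        _ < s ^ m * c := by nlinarith
    rw [abs_le] at k1
    rcases neg_one_pow_eq_or ℝ i with h3 | h3
    · rw [h3] at k1 ⊢
      linarith [k1.1]
    · rw [h3] at k1 ⊢
      linarith [k1.2]

end Pool.Agent.R227.SA
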