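import Pool.Agent.R227.SA1

/-! The general crossing lemma and the number of classes of a noncrossing alternating pattern. -/

set_option autoImplicit false

open Complex Set Metric Filter Topology

namespace Pool.Agent.R227.SA

/-- the crossing lemma, symmetric position -/
theorem cross2 {P N : Set ℂ} (hP : IsOpen P) (hPc : IsPreconnected P) (hN : IsOpen N)
    (hNc : IsPreconnected N) (hd : Disjoint P N) (h0P : (0 : ℂ) ∉ P) (h0N : (0 : ℂ) ∉ N)
    {ε : ℝ} {p1 p2 : ℂ} (hε : 0 < ε) (hp1 : 0 < p1.re) (hp2 : p2.re < 0)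
    (h1 : ∀ s : ℝ, 0 < s → s ≤ ε → (s : ℂ) * p1 ∈ P)
    (h2 : ∀ s : ℝ, 0 < s → s ≤ ε → (s : ℂ) * p2 ∈ P)
    (h3 : ∀ s : ℝ, 0 < s → s ≤ ε → (s : ℂ) * I ∈ N)
    (h4 : ∀ s : ℝ, 0 < s → s ≤ ε → (s : ℂ) * (-I) ∈ N) : False := by
  -- the path in `P`
  have hj : JoinedIn P ((ε : ℂ) * p1) ((ε : ℂ) * p2) := by
    have hconn : IsConnected P := ⟨⟨_, h1 ε hε le_rfl⟩, hPc⟩
    exact ((hP.isConnected_iff_isPathConnected).1 hconn).joinedIn _ (h1 ε hε le_rfl) _
      (h2 ε hε le_rfl)
  obtain ⟨γ, hγ⟩ := hj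
  set A : Set ℂ := range γ with hA
  have hAc : IsCompact A := isCompact_range γ.continuous
  have hAp : IsPreconnected A := isPreconnected_range γ.continuous
  have hAP : A ⊆ P := by rintro _ ⟨t, rfl⟩; exact hγ t
  have hA1 : (ε : ℂ) * p1 ∈ A := ⟨0, γ.source⟩
  have hA2 : (ε : ℂ) * p2 ∈ A := ⟨1, γ.target⟩
  have h0A : (0 : ℂ) ∉ A := fun h => h0P (hAP h)
  obtain ⟨ρ, hρ, hρA⟩ : ∃ ρ > 0, ∀ z ∈ A, ρ < ‖z‖ := by
    have hopen : IsOpen Aᶜ := hAc.isClosed.isOpen_compl
    obtain ⟨δ, hδ, hb⟩ := Metric.isOpen_iff.1 hopen 0 h0A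
    refine ⟨δ / 2, by positivity, fun z hz => ?_⟩
    by_contra hcon
    push Not at hcon
    exact hb (by rw [mem_ball_zero_iff]; linarith) hz
  set r : ℝ := min ρ ε with hr
  have hr0 : 0 < r := lt_min hρ hε
  have hrε : r ≤ ε := min_le_right _ _
  have hrA : ∀ z ∈ A, r < ‖z‖ := fun z hz => (min_le_left _ _).trans_lt (hρA z hz)
  -- the segments
  set B1 : Set ℂ := (fun s : ℝ => (s : ℂ) * p1) '' Icc 0 ε with hB1
  set B2 : Set ℂ := (fun s : ℝ => (s : ℂ) * p2) '' Icc 0 ε with hB2
  have c0 : Continuous fun s : ℝ => (s : ℂ) := Complex.continuous_ofReal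
  have c1 : Continuous fun s : ℝ => (s : ℂ) * p1 := c0.mul continuous_const
  have c2 : Continuous fun s : ℝ => (s : ℂ) * p2 := c0.mul continuous_const
  have hB1p : IsPreconnected B1 := isPreconnected_Icc.image _ c1.continuousOn
  have hB2p : IsPreconnected B2 := isPreconnected_Icc.image _ c2.continuousOn
  have h0B1 : (0 : ℂ) ∈ B1 := ⟨0, left_mem_Icc.2 hε.le, by simp⟩
  have h0B2 : (0 : ℂ) ∈ B2 := ⟨0, left_mem_Icc.2 hε.le, by simp⟩
  set B : Set ℂ := B1 ∪ B2 with hB
  have hBp : IsPreconnected B := hB1p.union 0 h0B1 h0B2 hB2p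
  have hBP : ∀ z ∈ B, z = 0 ∨ z ∈ P := by
    rintro z (⟨s, hs, rfl⟩ | ⟨s, hs, rfl⟩)
    · rcases eq_or_lt_of_le hs.1 with h | h
      · left; simp [← h]
      · exact Or.inr (h1 s h hs.2)
    · rcases eq_or_lt_of_le hs.1 with h | h
      · left; simp [← h]
      · exact Or.inr (h2 s h hs.2)
  have hBre : ∀ z ∈ B, z.re = 0 → z = 0 := by
    rintro z (⟨s, hs, rfl⟩ | ⟨s, hs, rfl⟩) hz
    · rw [Complex.re_ofReal_mul] at hz
      rcases mul_eq_zero.1 hz with h | h
      · simp [h]
      · linarith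
    · rw [Complex.re_ofReal_mul] at hz
      rcases mul_eq_zero.1 hz with h | h
      · simp [h]
      · linarith
  -- the two points of `N`
  set z2 : ℂ := (r : ℂ) * I with hz2
  set z4 : ℂ := (r : ℂ) * (-I) with hz4
  have hz2N : z2 ∈ N := h3 r hr0 hrε
  have hz4N : z4 ∈ N := h4 r hr0 hrε
  have hAN : Disjoint A N := hd.mono_left hAP
  have hBN : Disjoint B N := by
    rw [disjoint_left]
    intro z hz hzN
    rcases hBP z hz with h | h
    · exact h0N (h ▸ hzN)
    · exact disjoint_left.1 hd h hzN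
  have hΓN : Disjoint (A ∪ B) N := by
    rw [disjoint_union_left]; exact ⟨hAN, hBN⟩
  obtain ⟨Λ, hΛ, hΛe⟩ := lift hN hNc hΓN hz2N hz4N
  have e2 : z2 = ⟨0, r⟩ := by
    apply Complex.ext <;> simp [hz2]
  have e4 : z4 = ⟨0, -r⟩ := by
    apply Complex.ext <;> simp [hz4]
  set f : ℂ → ℂ := fun z => (z - z2) / (z - z4) with hf
  have hne4 : ∀ z ∈ A ∪ B, z - z4 ≠ 0 := by
    intro z hz h0
    rw [sub_eq_zero] at h0
    exact disjoint_left.1 hΓN hz (h0 ▸ hz4N)
  have hre : ∀ z : ℂ, (f z).re = (z.re ^ 2 + z.im ^ 2 - r ^ 2) / Complex.normSq (z - z4) := by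
    intro z
    simp only [hf, Complex.div_re, e2, e4, Complex.sub_re, Complex.sub_im]
    ring
  have him : ∀ z : ℂ, (f z).im = (-(2 * r * z.re)) / Complex.normSq (z - z4) := by
    intro z
    simp only [hf, Complex.div_im, e2, e4, Complex.sub_re, Complex.sub_im]
    ring
  have hns : ∀ z ∈ A ∪ B, 0 < Complex.normSq (z - z4) := fun z hz =>
    Complex.normSq_pos.2 (hne4 z hz)
  -- on `A`
  have hfA : ∀ z ∈ A, f z ∈ slitPlane := by
    intro z hz
    by_cases hx : z.re = 0
    · left
      rw [hre]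
      refine div_pos ?_ (hns z (Or.inl hz))
      have h5 : r ^ 2 < ‖z‖ ^ 2 := by
        have := hrA z hz
        exact pow_lt_pow_left₀ this hr0.le (by norm_num)
      have h6 : ‖z‖ ^ 2 = z.re ^ 2 + z.im ^ 2 := by
        rw [← Complex.normSq_eq_norm_sq, Complex.normSq_apply]; ring
      linarith
    · right
      rw [him]
      refine div_ne_zero ?_ (hns z (Or.inl hz)).ne'
      rw [neg_ne_zero]
      exact mul_ne_zero (by positivity) hx
  -- on `B`
  have hfB : ∀ z ∈ B, -f z ∈ slitPlane := by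
    intro z hz
    by_cases hx : z.re = 0
    · left
      have h0 := hBre z hz hx
      rw [Complex.neg_re, hre, h0, ← neg_div]
      rw [h0] at hz
      refine div_pos ?_ (hns 0 (Or.inr hz))
      simp only [Complex.zero_re, Complex.zero_im]
      nlinarith
    · right
      rw [Complex.neg_im, him, neg_ne_zero]
      refine div_ne_zero ?_ (hns z (Or.inr hz)).ne'
      rw [neg_ne_zero]
      exact mul_ne_zero (by positivity) hx
  have hfc : ContinuousOn f (A ∪ B) :=
    (continuousOn_id.sub continuousOn_const).div (continuousOn_id.sub continuousOn_const) hne4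
  have kA := const_of_exp hAp (g := fun z => Λ z - Complex.log (f z)) (κ := 1)
    ((hΛ.mono subset_union_left).sub ((hfc.mono subset_union_left).clog hfA)) (fun z hz => by
      rw [Complex.exp_sub, hΛe z (Or.inl hz), Complex.exp_log (slitPlane_ne_zero (hfA z hz))]
      exact div_self (slitPlane_ne_zero (hfA z hz)))
  have kB := const_of_exp hBp (g := fun z => Λ z - Complex.log (-f z)) (κ := -1)
    ((hΛ.mono subset_union_right).sub ((hfc.mono subset_union_right).neg.clog hfB)) (fun z hz => by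
      rw [Complex.exp_sub, hΛe z (Or.inr hz), Complex.exp_log (slitPlane_ne_zero (hfB z hz))]
      have h5 : f z ≠ 0 := by
        have := slitPlane_ne_zero (hfB z hz)
        rwa [neg_ne_zero] at this
      show f z / (-f z) = -1
      rw [div_neg, div_self h5])
  have hB1' : (ε : ℂ) * p1 ∈ B := Or.inl ⟨ε, right_mem_Icc.2 hε.le, rfl⟩
  have hB2' : (ε : ℂ) * p2 ∈ B := Or.inr ⟨ε, right_mem_Icc.2 hε.le, rfl⟩
  have k1 := kA _ hA1 _ hA2
  have k2 := kB _ hB1' _ hB2'
  -- the values of the logarithms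
  have him1 : (f ((ε : ℂ) * p1)).im < 0 := by
    rw [him]
    refine div_neg_of_neg_of_pos ?_ (hns _ (Or.inl hA1))
    rw [Complex.re_ofReal_mul]
    have := mul_pos hε hp1
    nlinarith
  have him2 : 0 < (f ((ε : ℂ) * p2)).im := by
    rw [him]
    refine div_pos ?_ (hns _ (Or.inl hA2))
    rw [Complex.re_ofReal_mul]
    have := mul_neg_of_pos_of_neg hε hp2
    nlinarith
  have hlog : ∀ x : ℂ, Complex.log x = Real.log ‖x‖ + Complex.arg x * I := fun x => rfl
  have l1 : Complex.log (-f ((ε : ℂ) * p1)) = Complex.log (f ((ε : ℂ) * p1)) + Real.pi * I := by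
    rw [hlog, hlog, norm_neg, Complex.arg_neg_eq_arg_add_pi_of_im_neg him1]
    push_cast
    ring
  have l2 : Complex.log (-f ((ε : ℂ) * p2)) =
      Complex.log (f ((ε : ℂ) * p2)) - Real.pi * I := by
    rw [hlog, hlog, norm_neg, Complex.arg_neg_eq_arg_sub_pi_of_im_pos him2]
    push_cast
    ring
  rw [l1, l2] at k2
  have h5 : 2 * ((Real.pi : ℂ) * I) = 0 := by linear_combination k1 - k2
  have h6 : (Real.pi : ℂ) * I ≠ 0 :=
    mul_ne_zero (Complex.ofReal_ne_zero.2 Real.pi_ne_zero) Complex.I_ne_zero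
  simp at h5

/-! ### a homeomorphism that moves rays -/

/-- the radial extension of a Blaschke factor -/
noncomputable def mb (a : ℝ) (z : ℂ) : ℂ := ‖z‖ * ((z - a * ‖z‖) / (‖z‖ - a * z))

lemma mb_den {a : ℝ} (ha : |a| < 1) {z : ℂ} (hz : z ≠ 0) : (‖z‖ : ℂ) - a * z ≠ 0 := by
  intro h
  have h1 : (‖z‖ : ℂ) = a * z := sub_eq_zero.1 h
  have h2 := congrArg norm h1
  rw [norm_mul, Complex.norm_real, Complex.norm_real, norm_norm, Real.norm_eq_abs] at h2
  have h3 : 0 < ‖z‖ := norm_pos_iff.2 hz
  nlinarith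

lemma mb_norm {a : ℝ} (ha : |a| < 1) (z : ℂ) : ‖mb a z‖ = ‖z‖ := by
  rcases eq_or_ne z 0 with h | h
  · simp [mb, h]
  have hd := mb_den ha h
  have h3 : 0 < ‖z‖ := norm_pos_iff.2 h
  have key : ‖z - a * ‖z‖‖ = ‖(‖z‖ : ℂ) - a * z‖ := by
    have hn : ‖z‖ ^ 2 = z.re ^ 2 + z.im ^ 2 := by
      rw [← Complex.normSq_eq_norm_sq, Complex.normSq_apply]; ring
    have e : ‖z - a * ‖z‖‖ ^ 2 = ‖(‖z‖ : ℂ) - a * z‖ ^ 2 := by
      rw [← Complex.normSq_eq_norm_sq, ← Complex.normSq_eq_norm_sq, Complex.normSq_apply,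
        Complex.normSq_apply]
      simp only [Complex.sub_re, Complex.sub_im, Complex.re_ofReal_mul, Complex.im_ofReal_mul,
        Complex.ofReal_re, Complex.ofReal_im]
      linear_combination (a ^ 2 - 1) * hn
    exact (pow_left_inj₀ (norm_nonneg _) (norm_nonneg _) two_ne_zero).1 e
  unfold mb
  rw [norm_mul, norm_div, key, div_self (norm_ne_zero_iff.2 hd), mul_one, Complex.norm_real,
    norm_norm]

lemma mb_inv {a : ℝ} (ha : |a| < 1) (z : ℂ) : mb (-a) (mb a z) = z := by
  rcases eq_or_ne z 0 with h | h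
  · simp [mb, h]
  have hd := mb_den ha h
  have hn := mb_norm ha z
  have h3 : (‖z‖ : ℂ) ≠ 0 := Complex.ofReal_ne_zero.2 (norm_ne_zero_iff.2 h)
  have ha2 : (1 - a ^ 2 : ℂ) ≠ 0 := by
    have : (1 - a ^ 2 : ℝ) ≠ 0 := by
      have := (sq_lt_one_iff_abs_lt_one a).2 ha
      linarith
    exact_mod_cast this
  have e : mb (-a) (mb a z) = ‖mb a z‖ * ((mb a z - (-a : ℝ) * ‖mb a z‖) /
    (‖mb a z‖ - (-a : ℝ) * mb a z)) := rfl
  rw [e, hn]
  have e1 : mb a z - (-a : ℝ) * ‖z‖ = ‖z‖ * z * (1 - a ^ 2) / (‖z‖ - a * z) := by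
    unfold mb
    rw [eq_div_iff hd, sub_mul, mul_assoc, div_mul_cancel₀ _ hd]
    push_cast
    ring
  have e2 : (‖z‖ : ℂ) - (-a : ℝ) * mb a z = ‖z‖ * ‖z‖ * (1 - a ^ 2) / (‖z‖ - a * z) := by
    unfold mb
    rw [eq_div_iff hd, sub_mul, mul_assoc, mul_assoc, div_mul_cancel₀ _ hd]
    push_cast
    ring
  rw [e1, e2, div_div_div_cancel_right₀ hd]
  field_simp

lemma mb_cont {a : ℝ} (ha : |a| < 1) : Continuous (mb a) := by
  rw [continuous_iff_continuousAt]
  intro z
  rcases eq_or_ne z 0 with h | h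
  · subst h
    have h0 : mb a 0 = 0 := by simp [mb]
    rw [ContinuousAt, h0, tendsto_zero_iff_norm_tendsto_zero]
    simp only [mb_norm ha]
    have := (continuous_norm (E := ℂ)).tendsto 0
    rwa [norm_zero] at this
  · have hd := mb_den ha h
    unfold mb
    refine ContinuousAt.mul (by fun_prop) (ContinuousAt.div (by fun_prop) (by fun_prop) hd)

/-- the homeomorphism -/
noncomputable def mbH (a : ℝ) (ha : |a| < 1) : ℂ ≃ₜ ℂ where
  toFun := mb a
  invFun := mb (-a)
  left_inv := mb_inv ha
  right_inv := fun z => by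
    have := mb_inv (a := -a) (by rwa [abs_neg]) z
    rwa [neg_neg] at this
  continuous_toFun := mb_cont ha
  continuous_invFun := mb_cont (by rwa [abs_neg])

lemma mb_ray (a : ℝ) {s : ℝ} (hs : 0 < s) {u : ℂ} (hu : ‖u‖ = 1) :
    mb a (s * u) = s * ((u - a) / (1 - a * u)) := by
  have hs' : (s : ℂ) ≠ 0 := Complex.ofReal_ne_zero.2 hs.ne'
  unfold mb
  rw [norm_mul, Complex.norm_real, Real.norm_eq_abs, abs_of_pos hs, hu, mul_one]
  have e1 : (s : ℂ) * u - a * s = s * (u - a) := by ring
  have e2 : (s : ℂ) - a * (s * u) = s * (1 - a * u) := by ring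
  rw [e1, e2, mul_div_mul_left _ _ hs']

/-- the crossing lemma -/
theorem cross_gen {P N : Set ℂ} (hP : IsOpen P) (hPc : IsPreconnected P) (hN : IsOpen N)
    (hNc : IsPreconnected N) (hd : Disjoint P N) (h0P : (0 : ℂ) ∉ P) (h0N : (0 : ℂ) ∉ N)
    {ε t1 t2 t3 t4 : ℝ} (hε : 0 < ε) (h12 : t1 < t2) (h23 : t2 < t3) (h34 : t3 < t4)
    (h41 : t4 < t1 + 2 * Real.pi)
    (h1 : ∀ s : ℝ, 0 < s → s ≤ ε → (s : ℂ) * exp (t1 * I) ∈ P)
    (h3 : ∀ s : ℝ, 0 < s → s ≤ ε → (s : ℂ) * exp (t3 * I) ∈ P)
    (h2 : ∀ s : ℝ, 0 < s → s ≤ ε → (s : ℂ) * exp (t2 * I) ∈ N)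
    (h4 : ∀ s : ℝ, 0 < s → s ≤ ε → (s : ℂ) * exp (t4 * I) ∈ N) : False := by
  have hpi := Real.pi_pos
  set mid := (t2 + t4) / 2 with hmid
  set β := (t4 - t2) / 2 with hβ
  have hβ0 : 0 < β := by rw [hβ]; linarith
  have hβπ : β < Real.pi := by rw [hβ]; linarith
  have hs0 : 0 < Real.sin β := Real.sin_pos_of_pos_of_lt_pi hβ0 hβπ
  set a : ℝ := Real.cos β / (1 + Real.sin β) with ha
  have h1s : 0 < 1 + Real.sin β := by linarith
  have hsc := Real.sin_sq_add_cos_sq β
  have ha1 : |a| < 1 := by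
    rw [ha, abs_div, abs_of_pos h1s, div_lt_one h1s]
    have : |Real.cos β| ≤ 1 := Real.abs_cos_le_one β
    linarith
  have hacos : a * (1 + Real.sin β) = Real.cos β := by
    rw [ha]; field_simp
  have hasin : Real.sin β = 1 - a * Real.cos β := by
    have h5 : (1 + Real.sin β) * (1 - a * Real.cos β) = (1 + Real.sin β) * Real.sin β := by
      have : (1 + Real.sin β) * (1 - a * Real.cos β) =
        (1 + Real.sin β) - (a * (1 + Real.sin β)) * Real.cos β := by ring
      rw [this, hacos]
      nlinarith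
    exact (mul_left_cancel₀ h1s.ne' h5).symm
  -- the homeomorphism
  have hrot : exp (-(mid * I)) ≠ 0 := Complex.exp_ne_zero _
  let H : ℂ ≃ₜ ℂ := (Homeomorph.mulLeft₀ (exp (-(mid * I))) hrot).trans (mbH a ha1)
  have hH : ∀ (s t : ℝ), 0 < s → H (s * exp (t * I)) =
      s * ((exp ((t - mid : ℝ) * I) - a) / (1 - a * exp ((t - mid : ℝ) * I))) := by
    intro s t hs
    change mb a (exp (-(mid * I)) * (s * exp (t * I))) = _
    have e : exp (-(mid * I)) * (s * exp (t * I)) = s * exp ((t - mid : ℝ) * I) := by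
      have : exp ((t - mid : ℝ) * I) = exp (-(mid * I)) * exp (t * I) := by
        rw [← Complex.exp_add]
        congr 1
        push_cast
        ring
      rw [this]
      ring
    rw [e]
    exact mb_ray a hs (Complex.norm_exp_ofReal_mul_I _)
  have hH0 : H 0 = 0 := by
    change mb a (exp (-(mid * I)) * 0) = 0
    simp [mb]
  -- denominators
  have hden : ∀ t : ℝ, (1 : ℂ) - a * exp (t * I) ≠ 0 := by
    intro t h
    have h5 : (1 : ℂ) = a * exp (t * I) := sub_eq_zero.1 h
    have h6 := congrArg norm h5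
    rw [norm_mul, Complex.norm_exp_ofReal_mul_I, mul_one, norm_one, Complex.norm_real,
      Real.norm_eq_abs] at h6
    linarith
  -- real parts
  have hre : ∀ t : ℝ, ((exp (t * I) - a) / (1 - a * exp (t * I))).re =
      2 / (1 + Real.sin β) * (Real.cos t - Real.cos β) / normSq (1 - a * exp (t * I)) := by
    intro t
    rw [Complex.div_re]
    simp only [Complex.sub_re, Complex.sub_im, Complex.re_ofReal_mul, Complex.im_ofReal_mul,
      Complex.ofReal_re, Complex.ofReal_im, Complex.exp_ofReal_mul_I_re,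
      Complex.exp_ofReal_mul_I_im, Complex.one_re, Complex.one_im]
    have hsct := Real.sin_sq_add_cos_sq t
    have h5 : 1 + a ^ 2 = 2 / (1 + Real.sin β) := by
      rw [eq_div_iff h1s.ne']
      have : (1 + a ^ 2) * (1 + Real.sin β) = (1 + Real.sin β) + a * (a * (1 + Real.sin β)) := by ring
      rw [this, hacos]
      linarith
    have h6 : 2 * a = 2 / (1 + Real.sin β) * Real.cos β := by
      rw [← hacos]; field_simp
    rw [← h5] at h6 ⊢
    rw [← add_div]
    congr 1
    linear_combination (-a) * hsct - h6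
  -- values on the four rays
  have v4 : (exp ((t4 - mid : ℝ) * I) - a) / (1 - a * exp ((t4 - mid : ℝ) * I)) = I := by
    rw [div_eq_iff (hden _)]
    have e : t4 - mid = β := by rw [hmid, hβ]; ring
    rw [e]
    apply Complex.ext
    · simp only [Complex.sub_re, Complex.mul_re, Complex.I_re, Complex.I_im, Complex.sub_im,
        Complex.im_ofReal_mul, Complex.ofReal_re, Complex.exp_ofReal_mul_I_re,
        Complex.exp_ofReal_mul_I_im, Complex.one_im]
      linarith
    · simp only [Complex.sub_im, Complex.mul_im, Complex.I_re, Complex.I_im, Complex.sub_re,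
        Complex.re_ofReal_mul, Complex.ofReal_im, Complex.exp_ofReal_mul_I_re,
        Complex.exp_ofReal_mul_I_im, Complex.one_re]
      linarith
  have v2 : (exp ((t2 - mid : ℝ) * I) - a) / (1 - a * exp ((t2 - mid : ℝ) * I)) = -I := by
    rw [div_eq_iff (hden _)]
    have e : t2 - mid = -β := by rw [hmid, hβ]; ring
    rw [e]
    apply Complex.ext
    · simp only [Complex.sub_re, Complex.mul_re, Complex.I_re, Complex.I_im, Complex.sub_im,
        Complex.im_ofReal_mul, Complex.ofReal_re, Complex.exp_ofReal_mul_I_re,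
        Complex.exp_ofReal_mul_I_im, Complex.one_im, Complex.neg_re, Complex.neg_im, Real.cos_neg,
        Real.sin_neg]
      linarith
    · simp only [Complex.sub_im, Complex.mul_im, Complex.I_re, Complex.I_im, Complex.sub_re,
        Complex.re_ofReal_mul, Complex.ofReal_im, Complex.exp_ofReal_mul_I_re,
        Complex.exp_ofReal_mul_I_im, Complex.one_re, Complex.neg_re, Complex.neg_im, Real.cos_neg,
        Real.sin_neg]
      linarith
  have hnsq : ∀ t : ℝ, 0 < normSq (1 - a * exp (t * I)) := fun t => Complex.normSq_pos.2 (hden t)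
  have h2s : 0 < 2 / (1 + Real.sin β) := by positivity
  have r3 : 0 < ((exp ((t3 - mid : ℝ) * I) - a) / (1 - a * exp ((t3 - mid : ℝ) * I))).re := by
    rw [hre]
    refine div_pos (mul_pos h2s ?_) (hnsq _)
    have h5 : |t3 - mid| < β := by
      rw [abs_lt]
      constructor
      · rw [hmid, hβ]; linarith
      · rw [hmid, hβ]; linarith
    have h6 := Real.cos_lt_cos_of_nonneg_of_le_pi (abs_nonneg (t3 - mid)) hβπ.le h5
    rw [Real.cos_abs] at h6
    linarith
  have r1 : ((exp ((t1 - mid : ℝ) * I) - a) / (1 - a * exp ((t1 - mid : ℝ) * I))).re < 0 := by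
    rw [hre]
    refine div_neg_of_neg_of_pos (mul_neg_of_pos_of_neg h2s ?_) (hnsq _)
    have e : Real.cos (t1 - mid) = Real.cos (mid - t1) := by
      rw [← Real.cos_neg]; congr 1; ring
    rw [e]
    have l1 : β < mid - t1 := by rw [hmid, hβ]; linarith
    have l2 : mid - t1 < 2 * Real.pi - β := by rw [hmid, hβ]; linarith
    rcases le_or_gt (mid - t1) Real.pi with h | h
    · have := Real.cos_lt_cos_of_nonneg_of_le_pi hβ0.le h l1
      linarith
    · have h5 : Real.cos (mid - t1) = Real.cos (2 * Real.pi - (mid - t1)) := by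
        rw [Real.cos_two_pi_sub]
      have := Real.cos_lt_cos_of_nonneg_of_le_pi hβ0.le
        (show 2 * Real.pi - (mid - t1) ≤ Real.pi by linarith) (by linarith)
      linarith
  -- conclusion
  refine cross2 (P := H '' P) (N := H '' N) (H.isOpenMap _ hP) (hPc.image _ H.continuous.continuousOn)
    (H.isOpenMap _ hN) (hNc.image _ H.continuous.continuousOn)
    ((Set.disjoint_image_iff H.injective).2 hd) ?_ ?_ hε r3 r1 (fun s hs hs' => ?_)
    (fun s hs hs' => ?_) (fun s hs hs' => ?_) (fun s hs hs' => ?_)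
  · rintro ⟨z, hz, hz0⟩
    rw [← hH0] at hz0
    exact h0P (H.injective hz0 ▸ hz)
  · rintro ⟨z, hz, hz0⟩
    rw [← hH0] at hz0
    exact h0N (H.injective hz0 ▸ hz)
  · exact ⟨_, h3 s hs hs', hH s t3 hs⟩
  · exact ⟨_, h1 s hs hs', hH s t1 hs⟩
  · exact ⟨_, h4 s hs hs', by rw [hH s t4 hs, v4]⟩
  · exact ⟨_, h2 s hs hs', by rw [hH s t2 hs, v2]⟩

/-! ### noncrossing patterns -/

/-- a noncrossing pattern without equal neighbours on `n` points has more than `n / 2` classes -/
theorem noncross {α : Type*} [DecidableEq α] (f : ℕ → α) : ∀ (n : ℕ), 1 ≤ n → ∀ a : ℕ,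
    (∀ i, a ≤ i → i + 1 < a + n → f i ≠ f (i + 1)) →
    (∀ i j k l, a ≤ i → i < j → j < k → k < l → l < a + n → f i = f k → f j = f l → f i = f j) →
    n + 1 ≤ 2 * ((Finset.Ico a (a + n)).image f).card := by
  intro n
  induction n using Nat.strong_induction_on with
  | _ n ih =>
    intro hn a h1 h2
    rcases Nat.lt_or_ge n 2 with hn2 | hn2
    · have : n = 1 := by omega
      subst this
      have : (Finset.Ico a (a + 1)).image f = {f a} := by
        ext x
        simp only [Finset.mem_image, Finset.mem_Ico, Finset.mem_singleton]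
        constructor
        · rintro ⟨i, hi, rfl⟩
          have : i = a := by omega
          rw [this]
        · rintro rfl
          exact ⟨a, by omega, rfl⟩
      rw [this]
      simp
    · set l := a + n - 1 with hl
      have hIco : Finset.Ico a (a + n) = insert l (Finset.Ico a (a + (n - 1))) := by
        ext x
        simp only [Finset.mem_Ico, Finset.mem_insert]
        omega
      by_cases hex : ∃ j, a ≤ j ∧ j < l ∧ f j = f l
      · -- the last occurrence before `l`
        classical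
        set S := (Finset.Ico a l).filter (fun j => f j = f l) with hS
        have hSne : S.Nonempty := by
          obtain ⟨j, hj1, hj2, hj3⟩ := hex
          exact ⟨j, by simp [hS, hj1, hj2, hj3]⟩
        set j := S.max' hSne with hj
        have hjS : j ∈ S := Finset.max'_mem _ _
        simp only [hS, Finset.mem_filter, Finset.mem_Ico] at hjS
        obtain ⟨⟨hj1, hj2⟩, hj3⟩ := hjS
        have hjmax : ∀ k, j < k → k < l → f k ≠ f l := by
          intro k hk hkl hfk
          have : k ∈ S := by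
            simp only [hS, Finset.mem_filter, Finset.mem_Ico]
            exact ⟨⟨by omega, hkl⟩, hfk⟩
          have := Finset.le_max' S k this
          omega
        have hjl : j + 1 < l := by
          by_contra hcon
          have : j + 1 = l := by omega
          have h3 := h1 j hj1 (by omega)
          rw [this] at h3
          exact h3 hj3
        have c1 := ih (j + 1 - a) (by omega) (by omega) a (fun i hi hi' => h1 i hi (by omega))
          (fun i j' k l' q1 q2 q3 q4 q5 => h2 i j' k l' q1 q2 q3 q4 (by omega))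
        have c2 := ih (l - (j + 1)) (by omega) (by omega) (j + 1)
          (fun i hi hi' => h1 i (by omega) (by omega))
          (fun i j' k l' q1 q2 q3 q4 q5 => h2 i j' k l' (by omega) q2 q3 q4 (by omega))
        have e1 : a + (j + 1 - a) = j + 1 := by omega
        have e2 : j + 1 + (l - (j + 1)) = l := by omega
        rw [e1] at c1
        rw [e2] at c2
        have hdisj : Disjoint ((Finset.Ico a (j + 1)).image f) ((Finset.Ico (j + 1) l).image f) := by
          rw [Finset.disjoint_left]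
          intro x hx hx'
          obtain ⟨i, hi, rfl⟩ := Finset.mem_image.1 hx
          obtain ⟨k, hk, hki⟩ := Finset.mem_image.1 hx'
          rw [Finset.mem_Ico] at hi hk
          rcases Nat.lt_or_ge i j with hij | hij
          · have := h2 i j k l hi.1 hij (by omega) (by omega) (by omega) hki.symm hj3
            exact hjmax k (by omega) hk.2 (by rw [hki, this, hj3])
          · have : i = j := by omega
            rw [this] at hki
            exact hjmax k (by omega) hk.2 (by rw [hki, hj3])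
        have hsub : ((Finset.Ico a (j + 1)).image f) ∪ ((Finset.Ico (j + 1) l).image f) ⊆
            (Finset.Ico a (a + n)).image f := by
          rw [← Finset.image_union]
          refine Finset.image_subset_image fun x hx => ?_
          simp only [Finset.mem_union, Finset.mem_Ico] at hx ⊢
          omega
        have hcard := Finset.card_le_card hsub
        rw [Finset.card_union_of_disjoint hdisj] at hcard
        omega
      · push Not at hex
        have c1 := ih (n - 1) (by omega) (by omega) a (fun i hi hi' => h1 i hi (by omega))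
          (fun i j' k l' q1 q2 q3 q4 q5 => h2 i j' k l' q1 q2 q3 q4 (by omega))
        have hnot : f l ∉ (Finset.Ico a (a + (n - 1))).image f := by
          intro hmem
          obtain ⟨i, hi, hfi⟩ := Finset.mem_image.1 hmem
          rw [Finset.mem_Ico] at hi
          exact hex i hi.1 (by omega) hfi
        rw [hIco, Finset.image_insert, Finset.card_insert_of_notMem hnot]
        omega

end Pool.Agent.R227.SA
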