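import Pool.Agent.R227.SA10

/-! The area of a nodal domain. -/

set_option autoImplicit false

open MeasureTheory Set Filter
open scoped Topology ContDiff

namespace Pool.Agent.R227.SA

open Pool.Agent.TH298.Sch (X er et dd SC X_cont X_dr X_dt norm_X dd_sc X_eq er_exp X_add Lr)
open TH259.NS (B J)

/-- the cut-off -/
noncomputable def hh (ε t : ℝ) : ℝ := max 0 (min 1 ((t - ε) / ε))

/-- its primitive -/
noncomputable def et' (ε s : ℝ) : ℝ := ∫ t in (0:ℝ)..s, hh ε t

lemma hh_cont (ε : ℝ) : Continuous (hh ε) := by unfold hh; fun_prop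

lemma hh_nn (ε t : ℝ) : 0 ≤ hh ε t := le_max_left _ _

lemma hh_le (ε t : ℝ) : hh ε t ≤ 1 := max_le zero_le_one (min_le_left _ _)

lemma hh_zero {ε t : ℝ} (hε : 0 < ε) (ht : t ≤ ε) : hh ε t = 0 := by
  unfold hh
  apply max_eq_left
  refine (min_le_right _ _).trans ?_
  exact div_nonpos_of_nonpos_of_nonneg (by linarith) hε.le

lemma hh_one {ε t : ℝ} (hε : 0 < ε) (ht : 2 * ε ≤ t) : hh ε t = 1 := by
  unfold hh
  have h1 : 1 ≤ (t - ε) / ε := by rw [le_div_iff₀ hε]; linarith
  rw [min_eq_left h1]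
  exact max_eq_right zero_le_one

lemma et_d (ε s : ℝ) : HasDerivAt (et' ε) (hh ε s) s :=
  intervalIntegral.integral_hasDerivAt_right ((hh_cont ε).intervalIntegrable _ _)
    ((hh_cont ε).stronglyMeasurableAtFilter _ _) (hh_cont ε).continuousAt

lemma et_c1 (ε : ℝ) : ContDiff ℝ 1 (et' ε) := by
  rw [contDiff_one_iff_deriv]
  refine ⟨fun s => (et_d ε s).differentiableAt, ?_⟩
  have : deriv (et' ε) = hh ε := funext fun s => (et_d ε s).deriv
  rw [this]
  exact hh_cont ε

lemma et_zero {ε s : ℝ} (hε : 0 < ε) (hs : s ≤ ε) : et' ε s = 0 := by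
  unfold et'
  have : ∀ t ∈ Set.uIcc 0 s, hh ε t = (fun _ => (0:ℝ)) t := by
    intro t ht
    apply hh_zero hε
    rcases le_total 0 s with h | h
    · rw [uIcc_of_le h] at ht
      exact ht.2.trans hs
    · rw [uIcc_of_ge h] at ht
      exact ht.2.trans hε.le
  rw [intervalIntegral.integral_congr this]
  simp

lemma et_nn {ε s : ℝ} (hs : 0 ≤ s) : 0 ≤ et' ε s :=
  intervalIntegral.integral_nonneg hs fun t _ => hh_nn ε t

lemma et_le {ε s : ℝ} (hs : 0 ≤ s) : et' ε s ≤ s := by
  unfold et'
  have := intervalIntegral.integral_mono_on hs ((hh_cont ε).intervalIntegrable (μ := volume) 0 s)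
    (intervalIntegrable_const (c := (1:ℝ))) (fun t _ => hh_le ε t)
  simpa using this

lemma et_ge {ε s : ℝ} (hε : 0 < ε) (hs : 0 ≤ s) : s - 2 * ε ≤ et' ε s := by
  rcases le_total s (2 * ε) with h | h
  · have := et_nn (ε := ε) hs
    linarith
  · have h1 : et' ε s = et' ε (2 * ε) + ∫ t in (2 * ε)..s, hh ε t := by
      unfold et'
      rw [intervalIntegral.integral_add_adjacent_intervals
        ((hh_cont ε).intervalIntegrable _ _) ((hh_cont ε).intervalIntegrable _ _)]
    have h2 : ∫ t in (2 * ε)..s, hh ε t = ∫ t in (2 * ε)..s, (1:ℝ) := by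
      refine intervalIntegral.integral_congr fun t ht => ?_
      rw [uIcc_of_le h] at ht
      exact hh_one hε ht.1
    have h3 := et_nn (ε := ε) (s := 2 * ε) (by positivity)
    rw [h1, h2]
    simp only [intervalIntegral.integral_const, smul_eq_mul, mul_one]
    linarith

variable {Ω D : Set ℂ} {lam ε : ℝ} {w : ℂ → ℝ}

/-- the test function of a nodal domain -/
noncomputable def tg (D : Set ℂ) (w : ℂ → ℝ) (ε : ℝ) (x : ℂ) : ℝ :=
  D.indicator (fun x => et' ε (w x)) x

lemma Wat.sub (h : Wat Ω lam w) (hDp : ∀ x ∈ D, 0 < w x) : D ⊆ Ω := by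
  intro x hx
  by_contra hcon
  have := hDp x hx
  rw [h.out x hcon] at this
  exact lt_irrefl _ this

/-- local form of the test function -/
lemma tg_loc (h : Wat Ω lam w) (hDo : IsOpen D) (hDp : ∀ x ∈ D, 0 < w x)
    (hDc : IsOpen ({x | w x ≠ 0} \ D)) (hε : 0 < ε) (x : ℂ) :
    (tg D w ε =ᶠ[𝓝 x] fun _ => 0) ∨ (x ∈ D ∧ ∃ W, SC W ∧ w =ᶠ[𝓝 x] W ∧
      (tg D w ε =ᶠ[𝓝 x] fun y => et' ε (W y)) ∧ la W x = -(lam * W x)) := by
  by_cases hx : x ∈ D
  · right
    obtain ⟨r, hr, W, hW, hb, hl⟩ := h.loc x (h.sub hDp hx)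
    refine ⟨hx, W, hW, ?_, ?_, (hl x (Metric.mem_ball_self hr)).2⟩
    · filter_upwards [Metric.ball_mem_nhds x hr] with y hy
      exact (hl y hy).1
    · filter_upwards [Metric.ball_mem_nhds x hr, hDo.mem_nhds hx] with y hy hyD
      unfold tg
      rw [indicator_of_mem hyD, (hl y hy).1]
  · left
    rcases lt_or_ge (w x) ε with hw | hw
    · have ho : IsOpen {y | w y < ε} := isOpen_lt h.cont continuous_const
      filter_upwards [ho.mem_nhds hw] with y hy
      unfold tg
      by_cases hyD : y ∈ D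
      · rw [indicator_of_mem hyD, et_zero hε (le_of_lt hy)]
      · rw [indicator_of_notMem hyD]
    · have hx' : x ∈ {x | w x ≠ 0} \ D := ⟨by
        have : 0 < w x := hε.trans_le hw
        exact this.ne', hx⟩
      filter_upwards [hDc.mem_nhds hx'] with y hy
      unfold tg
      rw [indicator_of_notMem hy.2]

lemma tg_c1 (h : Wat Ω lam w) (hDo : IsOpen D) (hDp : ∀ x ∈ D, 0 < w x)
    (hDc : IsOpen ({x | w x ≠ 0} \ D)) (hε : 0 < ε) : ContDiff ℝ 1 (tg D w ε) := by
  rw [contDiff_iff_contDiffAt]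
  intro x
  rcases tg_loc h hDo hDp hDc hε x with h1 | ⟨-, W, hW, -, h1, -⟩
  · exact (contDiffAt_const (c := (0:ℝ))).congr_of_eventuallyEq h1
  · have h2 : ContDiff ℝ 1 fun y => et' ε (W y) := (et_c1 ε).comp (hW.sm.of_le (by exact_mod_cast le_top))
    exact h2.contDiffAt.congr_of_eventuallyEq h1

lemma tg_cs (h : Wat Ω lam w) (hb : Bornology.IsBounded Ω) (hDp : ∀ x ∈ D, 0 < w x) :
    HasCompactSupport (tg D w ε) := by
  refine HasCompactSupport.intro hb.isCompact_closure fun x hx => ?_
  unfold tg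
  exact indicator_of_notMem (fun hD => hx (subset_closure (h.sub hDp hD))) _

/-- the derivative of the test function -/
lemma tg_fd (h : Wat Ω lam w) (hDo : IsOpen D) (hDp : ∀ x ∈ D, 0 < w x)
    (hDc : IsOpen ({x | w x ≠ 0} \ D)) (hε : 0 < ε) (x : ℂ) :
    ∃ κ : ℝ, 0 ≤ κ ∧ κ ≤ 1 ∧ ∀ v, dd v (tg D w ε) x = κ * dd v w x := by
  rcases tg_loc h hDo hDp hDc hε x with h1 | ⟨-, W, hW, hw, h1, -⟩
  · refine ⟨0, le_rfl, zero_le_one, fun v => ?_⟩
    unfold dd
    rw [h1.fderiv_eq]
    simp
  · refine ⟨hh ε (W x), hh_nn _ _, hh_le _ _, fun v => ?_⟩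
    unfold dd
    rw [h1.fderiv_eq, hw.fderiv_eq]
    have h2 : HasFDerivAt (fun y => et' ε (W y)) (hh ε (W x) • fderiv ℝ W x) x :=
      (et_d ε (W x)).comp_hasFDerivAt x (hW.diff x).hasFDerivAt
    rw [h2.fderiv]
    rfl

/-- the flux -/
noncomputable def fl (D : Set ℂ) (w : ℂ → ℝ) (ε : ℝ) (v : ℂ) (x : ℂ) : ℝ := tg D w ε x * dd v w x

lemma dd_ev {f g : ℂ → ℝ} {x : ℂ} (h : f =ᶠ[𝓝 x] g) (v : ℂ) : dd v f =ᶠ[𝓝 x] dd v g := by
  filter_upwards [h.fderiv (𝕜 := ℝ)] with y hy
  unfold dd
  rw [hy]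

lemma fl_c1 (h : Wat Ω lam w) (hDo : IsOpen D) (hDp : ∀ x ∈ D, 0 < w x)
    (hDc : IsOpen ({x | w x ≠ 0} \ D)) (hε : 0 < ε) (v : ℂ) : ContDiff ℝ 1 (fl D w ε v) := by
  rw [contDiff_iff_contDiffAt]
  intro x
  rcases tg_loc h hDo hDp hDc hε x with h1 | ⟨-, W, hW, hw, h1, -⟩
  · refine (contDiffAt_const (c := (0:ℝ))).congr_of_eventuallyEq ?_
    filter_upwards [h1] with y hy
    unfold fl
    rw [hy, zero_mul]
  · have h2 : ContDiff ℝ 1 fun y => et' ε (W y) * dd v W y :=
      ((et_c1 ε).comp (hW.sm.of_le (by exact_mod_cast le_top))).mul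
        ((dd_sc hW v).sm.of_le (by exact_mod_cast le_top))
    refine h2.contDiffAt.congr_of_eventuallyEq ?_
    filter_upwards [h1, dd_ev hw v] with y hy hy2
    unfold fl
    rw [hy, hy2]

lemma fl_cs (h : Wat Ω lam w) (hb : Bornology.IsBounded Ω) (hDp : ∀ x ∈ D, 0 < w x) (v : ℂ) :
    HasCompactSupport (fl D w ε v) := (tg_cs h hb hDp).mul_right

/-- the divergence -/
lemma fl_div (h : Wat Ω lam w) (hDo : IsOpen D) (hDp : ∀ x ∈ D, 0 < w x)
    (hDc : IsOpen ({x | w x ≠ 0} \ D)) (hε : 0 < ε) (x : ℂ) :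
    dd 1 (tg D w ε) x * dd 1 w x + dd Complex.I (tg D w ε) x * dd Complex.I w x =
      dd 1 (fl D w ε 1) x + dd Complex.I (fl D w ε Complex.I) x + lam * (tg D w ε x * w x) := by
  rcases tg_loc h hDo hDp hDc hε x with h1 | ⟨-, W, hW, hw, h1, hl⟩
  · have h0 : ∀ v, dd v (tg D w ε) x = 0 := by
      intro v
      unfold dd
      rw [h1.fderiv_eq]
      simp
    have h2 : ∀ v, dd v (fl D w ε v) x = 0 := by
      intro v
      have h3 : fl D w ε v =ᶠ[𝓝 x] fun _ => 0 := by
        filter_upwards [h1] with y hy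
        unfold fl
        rw [hy, zero_mul]
      unfold dd
      rw [h3.fderiv_eq]
      simp
    rw [h0, h0, h2, h2, h1.self_of_nhds]
    ring
  · have hg := tg_c1 h hDo hDp hDc hε
    have h2 : ∀ v, dd v (fl D w ε v) x = dd v (tg D w ε) x * dd v w x +
        tg D w ε x * dd v (dd v W) x := by
      intro v
      have h3 : fl D w ε v =ᶠ[𝓝 x] fun y => tg D w ε y * dd v W y := by
        filter_upwards [dd_ev hw v] with y hy
        unfold fl
        rw [hy]
      have h4 : dd v (fl D w ε v) x = dd v (fun y => tg D w ε y * dd v W y) x :=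
        (dd_ev h3 v).self_of_nhds
      rw [h4]
      have h5 := ((hg.differentiable (by norm_num)) x).hasFDerivAt.mul ((dd_sc hW v).diff x).hasFDerivAt
      have h6 : dd v (fun y => tg D w ε y * dd v W y) x =
          tg D w ε x * dd v (dd v W) x + dd v W x * dd v (tg D w ε) x := by
        have : fderiv ℝ (fun y => tg D w ε y * dd v W y) x =
          tg D w ε x • fderiv ℝ (dd v W) x + dd v W x • fderiv ℝ (tg D w ε) x := h5.fderiv
        change fderiv ℝ (fun y => tg D w ε y * dd v W y) x v = _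
        rw [this]
        rfl
      rw [h6, (dd_ev hw v).self_of_nhds]
      ring
    rw [h2, h2, hw.self_of_nhds]
    unfold la at hl
    have h7 : dd 1 (dd 1 W) x = -(lam * W x) - dd Complex.I (dd Complex.I W) x := by linarith
    rw [h7]
    ring

lemma int_c1 {f : ℂ → ℝ} (h : ContDiff ℝ 1 f) (hc : HasCompactSupport f) (v : ℂ) :
    Integrable (dd v f) ∧ ∫ x, dd v f x = 0 := by
  have hi : Integrable (dd v f) := by
    have c : Continuous (dd v f) := (h.continuous_fderiv (by norm_num)).clm_apply continuous_const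
    exact c.integrable_of_hasCompactSupport ((hc.fderiv ℝ).comp_left (g := fun T : ℂ →L[ℝ] ℝ => T v) (by simp))
  refine ⟨hi, ?_⟩
  have i1 : Integrable (fun x : ℂ => fderiv ℝ (fun _ : ℂ => (1:ℝ)) x v * f x) := by
    simp
  have i2 : Integrable (fun x : ℂ => (fun _ : ℂ => (1:ℝ)) x * fderiv ℝ f x v) := by
    simp only [one_mul]
    exact hi
  have i3 : Integrable (fun x : ℂ => (fun _ : ℂ => (1:ℝ)) x * f x) := by
    simp only [one_mul]
    exact h.continuous.integrable_of_hasCompactSupport hc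
  have := integral_mul_fderiv_eq_neg_fderiv_mul_of_integrable (f := fun _ : ℂ => (1:ℝ)) (g := f)
    (v := v) i1 i2 i3 (fun x _ => differentiableAt_const _) (fun x _ => (h.differentiable (by norm_num)) x)
  simp only [one_mul, fderiv_fun_const, Pi.zero_apply, zero_apply, zero_mul, integral_zero,
    neg_zero] at this
  exact this

/-- the energy of the test function -/
lemma tg_energy (h : Wat Ω lam w) (hb : Bornology.IsBounded Ω) (hDo : IsOpen D)
    (hDp : ∀ x ∈ D, 0 < w x) (hDc : IsOpen ({x | w x ≠ 0} \ D)) (hε : 0 < ε) :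
    En (tg D w ε) ≤ lam * ∫ x, tg D w ε x * w x := by
  have hg := tg_c1 h hDo hDp hDc hε
  have hgc := tg_cs (ε := ε) h hb hDp
  obtain ⟨i1, z1⟩ := int_c1 (fl_c1 h hDo hDp hDc hε 1) (fl_cs h hb hDp 1) 1
  obtain ⟨i2, z2⟩ := int_c1 (fl_c1 h hDo hDp hDc hε Complex.I) (fl_cs h hb hDp Complex.I) Complex.I
  have i3 : Integrable fun x => tg D w ε x * w x :=
    (hg.continuous.mul h.cont).integrable_of_hasCompactSupport hgc.mul_right
  have i4 : Integrable fun x => dd 1 (tg D w ε) x * dd 1 w x +
      dd Complex.I (tg D w ε) x * dd Complex.I w x := by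
    have : (fun x => dd 1 (tg D w ε) x * dd 1 w x +
      dd Complex.I (tg D w ε) x * dd Complex.I w x) = fun x => dd 1 (fl D w ε 1) x +
        dd Complex.I (fl D w ε Complex.I) x + lam * (tg D w ε x * w x) :=
      funext fun x => fl_div h hDo hDp hDc hε x
    rw [this]
    exact (i1.add i2).add (i3.const_mul _)
  have e1 : ∫ x, (dd 1 (tg D w ε) x * dd 1 w x +
      dd Complex.I (tg D w ε) x * dd Complex.I w x) = lam * ∫ x, tg D w ε x * w x := by
    have : (fun x => dd 1 (tg D w ε) x * dd 1 w x +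
      dd Complex.I (tg D w ε) x * dd Complex.I w x) = fun x => dd 1 (fl D w ε 1) x +
        dd Complex.I (fl D w ε Complex.I) x + lam * (tg D w ε x * w x) :=
      funext fun x => fl_div h hDo hDp hDc hε x
    have i12 : Integrable fun x => dd 1 (fl D w ε 1) x + dd Complex.I (fl D w ε Complex.I) x :=
      i1.add i2
    rw [this, integral_add i12 (i3.const_mul _), integral_add i1 i2, z1, z2, integral_const_mul]
    ring
  rw [← e1]
  unfold En
  have cd : ∀ v, Continuous (dd v (tg D w ε)) := fun v =>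
    (hg.continuous_fderiv (by norm_num)).clm_apply continuous_const
  have cdc : ∀ v, HasCompactSupport (dd v (tg D w ε)) := fun v =>
    (hgc.fderiv ℝ).comp_left (g := fun T : ℂ →L[ℝ] ℝ => T v) (by simp)
  refine integral_mono ?_ i4 fun x => ?_
  · have j1 : ∀ v, Integrable fun x => (fderiv ℝ (tg D w ε) x v) ^ 2 := by
      intro v
      have : Integrable fun x => dd v (tg D w ε) x * dd v (tg D w ε) x :=
        ((cd v).mul (cd v)).integrable_of_hasCompactSupport (μ := volume) (cdc v).mul_right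
      refine this.congr (Eventually.of_forall fun x => ?_)
      exact (sq _).symm
    exact (j1 1).add (j1 Complex.I)
  · obtain ⟨κ, hκ0, hκ1, hκ⟩ := tg_fd h hDo hDp hDc hε x
    have k1 := hκ 1
    have k2 := hκ Complex.I
    simp only
    have e1 : fderiv ℝ (tg D w ε) x 1 = κ * dd 1 w x := k1
    have e2 : fderiv ℝ (tg D w ε) x Complex.I = κ * dd Complex.I w x := k2
    rw [e1, e2, k1, k2]
    have h3 : κ ^ 2 ≤ κ := by nlinarith
    nlinarith [sq_nonneg (dd 1 w x), sq_nonneg (dd Complex.I w x)]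

lemma vol_ball (r : ℝ) (hr : 0 ≤ r) : volume.real (Metric.ball (0:ℂ) r) = Real.pi * r ^ 2 := by
  rw [Measure.real, Complex.volume_ball]
  simp [ENNReal.toReal_mul, ENNReal.toReal_ofReal hr]
  ring

/-- the area of a nodal domain -/
theorem nodal (h : Wat Ω lam w) (hb : Bornology.IsBounded Ω) (hDo : IsOpen D)
    (hDp : ∀ x ∈ D, 0 < w x) (hDc : IsOpen ({x | w x ≠ 0} \ D)) (hDne : D.Nonempty) {j : ℝ}
    (hj : 0 < j) (hJ : ∀ t : ℝ, 0 ≤ t → t < j → J 0 t ≠ 0) :
    Real.pi * j ^ 2 ≤ lam * volume.real D := by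
  have hpi := Real.pi_pos
  have hDΩ := h.sub hDp
  obtain ⟨R, hR0, hR⟩ : ∃ R : ℝ, 0 < R ∧ Ω ⊆ Metric.ball 0 R := by
    obtain ⟨R, hR⟩ := hb.subset_ball 0
    exact ⟨max R 1, by positivity, hR.trans (Metric.ball_subset_ball (le_max_left _ _))⟩
  have hDR : D ⊆ Metric.ball 0 R := hDΩ.trans hR
  have hDfin : volume D ≠ ⊤ := ((measure_mono hDR).trans_lt measure_ball_lt_top).ne
  have hVpos : 0 < volume.real D := by
    rw [Measure.real, ENNReal.toReal_pos_iff]
    exact ⟨hDo.measure_pos volume hDne, hDfin.lt_top⟩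
  set V := volume.real D with hV
  set r := Real.sqrt (V / Real.pi) with hr
  have hr0 : 0 < r := Real.sqrt_pos.2 (by positivity)
  have hr2 : Real.pi * r ^ 2 = V := by
    rw [hr, Real.sq_sqrt (by positivity)]
    field_simp
  have hvol : volume.real D = volume.real (Metric.ball (0:ℂ) r) := by
    rw [vol_ball r hr0.le, hr2]
  have hrR : r ≤ R := by
    have h1 : V ≤ volume.real (Metric.ball (0:ℂ) R) := measureReal_mono hDR measure_ball_lt_top.ne
    rw [vol_ball R hR0.le, ← hr2] at h1
    have h2 : r ^ 2 ≤ R ^ 2 := le_of_mul_le_mul_left h1 hpi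
    exact (pow_le_pow_iff_left₀ hr0.le hR0.le two_ne_zero).1 h2
  -- a bound for `w`
  have hwc : HasCompactSupport w := by
    refine HasCompactSupport.intro hb.isCompact_closure fun x hx => ?_
    exact h.out x fun hx' => hx (subset_closure hx')
  obtain ⟨M, hM⟩ := hwc.exists_bound_of_continuous h.cont
  have hDm := hDo.measurableSet
  have hcl : ∀ ε > 0, Cl D M (tg D w ε) := by
    intro ε hε
    refine ⟨(tg_c1 h hDo hDp hDc hε).continuous.measurable, fun x => ?_, fun x => ?_, fun x hx => ?_⟩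
    · unfold tg
      by_cases hx : x ∈ D
      · rw [indicator_of_mem hx]; exact et_nn (hDp x hx).le
      · rw [indicator_of_notMem hx]
    · unfold tg
      by_cases hx : x ∈ D
      · rw [indicator_of_mem hx]
        refine (et_le (hDp x hx).le).trans ((le_abs_self _).trans ?_)
        have := hM x
        rwa [Real.norm_eq_abs] at this
      · rw [indicator_of_notMem hx]
        exact (norm_nonneg _).trans (hM x)
    · unfold tg
      rw [indicator_of_notMem hx]
  set S := ∫ x in D, w x ^ 2 with hS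
  set T := ∫ x in D, w x with hT
  have iw : Integrable w := h.cont.integrable_of_hasCompactSupport hwc
  have iw2 : Integrable fun x => w x ^ 2 := by
    have : Integrable fun x => w x * w x :=
      (h.cont.mul h.cont).integrable_of_hasCompactSupport (μ := volume) hwc.mul_right
    refine this.congr (Eventually.of_forall fun x => ?_)
    exact (sq _).symm
  have hT0 : 0 ≤ T := setIntegral_nonneg hDm fun x hx => (hDp x hx).le
  have key : ∀ ε > 0, (j / r) ^ 2 * (S - 4 * ε * T) ≤ lam * ∫ x, tg D w ε x * w x := by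
    intro ε hε
    have h1 := fk (tg_c1 h hDo hDp hDc hε) (tg_cs h hb hDp) (hcl ε hε) hDm hR0 hDR hr0 hrR hvol hj hJ
    have h2 := tg_energy h hb hDo hDp hDc hε
    refine le_trans ?_ (h1.trans h2)
    refine mul_le_mul_of_nonneg_left ?_ (sq_nonneg _)
    have hgc := (tg_c1 h hDo hDp hDc hε).continuous
    have ig2 : Integrable fun x => tg D w ε x ^ 2 := by
      have : Integrable fun x => tg D w ε x * tg D w ε x :=
        (hgc.mul hgc).integrable_of_hasCompactSupport (μ := volume) (tg_cs h hb hDp).mul_right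
      refine this.congr (Eventually.of_forall fun x => ?_)
      exact (sq _).symm
    have e1 : S - 4 * ε * T = ∫ x in D, (w x ^ 2 - 4 * ε * w x) := by
      rw [integral_sub iw2.integrableOn (iw.integrableOn.const_mul _), integral_const_mul]
    have e2 : ∫ x in D, tg D w ε x ^ 2 ≤ ∫ x, tg D w ε x ^ 2 :=
      setIntegral_le_integral ig2 (Eventually.of_forall fun x => sq_nonneg _)
    rw [e1]
    refine le_trans ?_ e2
    refine setIntegral_mono_on (iw2.integrableOn.sub (iw.integrableOn.const_mul _)) ig2.integrableOn hDm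
      fun x hx => ?_
    unfold tg
    rw [indicator_of_mem hx]
    have hwx := hDp x hx
    have h3 := et_le (ε := ε) hwx.le
    have h4 := et_ge hε hwx.le
    have h5 := et_nn (ε := ε) hwx.le
    nlinarith
  have key2 : ∀ ε > 0, ∫ x, tg D w ε x * w x ≤ S := by
    intro ε hε
    have e1 : ∫ x, tg D w ε x * w x = ∫ x in D, tg D w ε x * w x := by
      rw [← integral_indicator hDm]
      refine integral_congr_ae (Eventually.of_forall fun x => ?_)
      by_cases hx : x ∈ D
      · rw [indicator_of_mem hx]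
      · rw [indicator_of_notMem hx]
        simp only [tg]
        rw [indicator_of_notMem hx, zero_mul]
    have hgc := (tg_c1 h hDo hDp hDc hε).continuous
    have i3 : Integrable fun x => tg D w ε x * w x :=
      (hgc.mul h.cont).integrable_of_hasCompactSupport (tg_cs h hb hDp).mul_right
    rw [e1]
    refine setIntegral_mono_on i3.integrableOn iw2.integrableOn hDm fun x hx => ?_
    unfold tg
    rw [indicator_of_mem hx]
    have hwx := hDp x hx
    have h3 := et_le (ε := ε) hwx.le
    nlinarith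
  have hS0 : 0 < S := by
    rw [hS, setIntegral_pos_iff_support_of_nonneg_ae (Eventually.of_forall fun x => sq_nonneg _)
      iw2.integrableOn]
    have : Function.support (fun x => w x ^ 2) ∩ D = D := by
      ext x
      constructor
      · exact fun hx => hx.2
      · exact fun hx => ⟨(pow_pos (hDp x hx) 2).ne', hx⟩
    rw [this]
    exact hDo.measure_pos volume hDne
  have hlam : 0 ≤ lam := by
    by_contra hneg
    push Not at hneg
    -- the energy is nonnegative and the right side would be negative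
    have h1 := key (S / (8 * (T + 1))) (by positivity)
    have h2 : 4 * (S / (8 * (T + 1))) * T ≤ S / 2 := by
      have : 4 * (S / (8 * (T + 1))) * T = S / 2 * (T / (T + 1)) := by field_simp; ring
      rw [this]
      have h3 : T / (T + 1) ≤ 1 := by rw [div_le_one (by positivity)]; linarith
      nlinarith
    have h3 : 0 ≤ ∫ x, tg D w (S / (8 * (T + 1))) x * w x := by
      refine integral_nonneg fun x => ?_
      simp only [tg]
      by_cases hx : x ∈ D
      · rw [indicator_of_mem hx]
        exact mul_nonneg (et_nn (hDp x hx).le) (hDp x hx).le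
      · rw [indicator_of_notMem hx, zero_mul]
        exact le_rfl
    have h4 : 0 < (j / r) ^ 2 * (S - 4 * (S / (8 * (T + 1))) * T) := by
      have : 0 < (j / r) ^ 2 := by positivity
      exact mul_pos this (by linarith)
    nlinarith
  have key3 : ∀ ε > 0, (j / r) ^ 2 * S ≤ lam * S + ε * ((j / r) ^ 2 * (4 * T)) := by
    intro ε hε
    have h1 := key ε hε
    have h2 := mul_le_mul_of_nonneg_left (key2 ε hε) hlam
    linarith
  have key4 : (j / r) ^ 2 * S ≤ lam * S := by
    by_contra hcon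
    push Not at hcon
    set a := (j / r) ^ 2 * S - lam * S with ha
    have ha0 : 0 < a := by rw [ha]; linarith
    set K := (j / r) ^ 2 * (4 * T) with hK
    have hK0 : 0 ≤ K := by positivity
    have h1 := key3 (a / (2 * (K + 1))) (by positivity)
    have h2 : a / (2 * (K + 1)) * K ≤ a / 2 := by
      have : a / (2 * (K + 1)) * K = a / 2 * (K / (K + 1)) := by field_simp
      rw [this]
      have h3 : K / (K + 1) ≤ 1 := by rw [div_le_one (by positivity)]; linarith
      nlinarith
    linarith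
  have h5 : (j / r) ^ 2 ≤ lam := le_of_mul_le_mul_right key4 hS0
  have h6 : j ^ 2 ≤ lam * r ^ 2 := by
    rw [div_pow, div_le_iff₀ (by positivity)] at h5
    exact h5
  calc Real.pi * j ^ 2 ≤ Real.pi * (lam * r ^ 2) := mul_le_mul_of_nonneg_left h6 hpi.le
    _ = lam * (Real.pi * r ^ 2) := by ring
    _ = lam * V := by rw [hr2]

end Pool.Agent.R227.SA
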