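import Pool.Agent.R227.SA13
import Pool.Agent.R227.SA14
import Pool.Agent.R227.SA15

/-! Counting nodal domains. -/

set_option autoImplicit false

open MeasureTheory Set Filter
open scoped Topology ContDiff

namespace Pool.Agent.R227.SA

open Pool.Agent.TH298.Sch (X er et dd SC X_cont X_dr X_dt norm_X dd_sc X_eq er_exp X_add Lr)
open TH259.NS (B J)

variable {Ω : Set ℂ} {lam : ℝ} {w : ℂ → ℝ}

/-- relative complements of components are open -/
lemma comp_compl (hw : Continuous w) (x : ℂ) :
    IsOpen ({x | w x ≠ 0} \ connectedComponentIn {x | w x ≠ 0} x) := by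
  have hF : IsOpen {x | w x ≠ 0} := isOpen_ne_fun hw continuous_const
  rw [isOpen_iff_mem_nhds]
  intro y hy
  have h1 : IsOpen (connectedComponentIn {x | w x ≠ 0} y) := hF.connectedComponentIn
  refine Filter.mem_of_superset (h1.mem_nhds (mem_connectedComponentIn hy.1)) fun z hz => ?_
  refine ⟨connectedComponentIn_subset _ _ hz, fun hz' => hy.2 ?_⟩
  have e1 := connectedComponentIn_eq hz
  have e2 := connectedComponentIn_eq hz'
  rw [e2, ← e1]
  exact mem_connectedComponentIn hy.1

/-- the sign of `w` is constant on a component -/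
lemma comp_sign (hw : Continuous w) {x : ℂ} {σ : ℝ} (hx : 0 < σ * w x) :
    ∀ y ∈ connectedComponentIn {x | w x ≠ 0} x, 0 < σ * w y := by
  intro y hy
  by_contra hcon
  push Not at hcon
  have hσ : σ ≠ 0 := by
    intro h
    rw [h, zero_mul] at hx
    exact lt_irrefl _ hx
  have hxF : w x ≠ 0 := by
    intro h
    rw [h, mul_zero] at hx
    exact lt_irrefl _ hx
  have hp := isPreconnected_connectedComponentIn (x := x) (F := {x | w x ≠ 0})
  have hc : ContinuousOn (fun z => σ * w z) (connectedComponentIn {x | w x ≠ 0} x) :=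
    (continuous_const.mul hw).continuousOn
  have h1 := hp.intermediate_value hy (mem_connectedComponentIn hxF) hc
  obtain ⟨z, hz, hz0⟩ := h1 ⟨hcon, hx.le⟩
  have h2 : w z ≠ 0 := connectedComponentIn_subset _ _ hz
  rcases mul_eq_zero.1 hz0 with h | h
  · exact hσ h
  · exact h2 h

/-- the area of a nodal domain, either sign -/
theorem nodal' (h : Wat Ω lam w) (hb : Bornology.IsBounded Ω) {x : ℂ} (hx : w x ≠ 0) {j : ℝ}
    (hj : 0 < j) (hJ : ∀ t : ℝ, 0 ≤ t → t < j → J 0 t ≠ 0) :
    Real.pi * j ^ 2 ≤ lam * volume.real (connectedComponentIn {x | w x ≠ 0} x) := by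
  have hF : IsOpen {x | w x ≠ 0} := isOpen_ne_fun h.cont continuous_const
  have hne : (connectedComponentIn {x | w x ≠ 0} x).Nonempty := ⟨x, mem_connectedComponentIn hx⟩
  rcases lt_or_gt_of_ne hx with hneg | hpos
  · have hs := comp_sign h.cont (x := x) (σ := -1) (by linarith)
    have hset : {x | -w x ≠ 0} = {x | w x ≠ 0} := by
      ext y
      simp
    refine nodal h.neg hb hF.connectedComponentIn (fun y hy => ?_) ?_ hne hj hJ
    · have := hs y hy
      linarith
    · rw [hset]
      exact comp_compl h.cont x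
  · have hs := comp_sign h.cont (x := x) (σ := 1) (by linarith)
    refine nodal h hb hF.connectedComponentIn (fun y hy => ?_) (comp_compl h.cont x) hne hj hJ
    have := hs y hy
    linarith

/-- finitely many components -/
theorem sum_comp (h : Wat Ω lam w) (hlam : 0 < lam) (hb : Bornology.IsBounded Ω) {j : ℝ}
    (hj : 0 < j) (hJ : ∀ t : ℝ, 0 ≤ t → t < j → J 0 t ≠ 0) (S : Finset (Set ℂ))
    (hS : ∀ D ∈ S, ∃ x, w x ≠ 0 ∧ D = connectedComponentIn {x | w x ≠ 0} x) :
    S.card * (Real.pi * j ^ 2) ≤ lam * volume.real Ω := by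
  have hF : IsOpen {x | w x ≠ 0} := isOpen_ne_fun h.cont continuous_const
  have hFΩ : {x | w x ≠ 0} ⊆ Ω := by
    intro x hx
    by_contra hcon
    exact hx (h.out x hcon)
  have hfin : volume Ω ≠ ⊤ := hb.measure_lt_top.ne
  have hm : ∀ D ∈ S, MeasurableSet D := by
    intro D hD
    obtain ⟨x, -, rfl⟩ := hS D hD
    exact hF.connectedComponentIn.measurableSet
  have hsub : ∀ D ∈ S, D ⊆ Ω := by
    intro D hD
    obtain ⟨x, -, rfl⟩ := hS D hD
    exact (connectedComponentIn_subset _ _).trans hFΩ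
  have hdisj : (S : Set (Set ℂ)).PairwiseDisjoint id := by
    intro D hD E hE hne
    obtain ⟨x, -, rfl⟩ := hS D hD
    obtain ⟨y, -, rfl⟩ := hS E hE
    refine Set.disjoint_left.2 fun z hz hz' => hne ?_
    rw [connectedComponentIn_eq hz, connectedComponentIn_eq hz']
  have h1 : volume.real (⋃ D ∈ S, id D) = ∑ D ∈ S, volume.real (id D) :=
    measureReal_biUnion_finset hdisj hm (fun D hD => (measure_mono (hsub D hD)).trans_lt
      hfin.lt_top |>.ne)
  have h2 : volume.real (⋃ D ∈ S, id D) ≤ volume.real Ω :=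
    measureReal_mono (iUnion₂_subset fun D hD => hsub D hD) hfin
  have h3 : ∑ D ∈ S, (Real.pi * j ^ 2) ≤ ∑ D ∈ S, lam * volume.real (id D) := by
    refine Finset.sum_le_sum fun D hD => ?_
    obtain ⟨x, hx, rfl⟩ := hS D hD
    exact nodal' h hb hx hj hJ
  rw [Finset.sum_const, nsmul_eq_mul, ← Finset.mul_sum, ← h1] at h3
  exact h3.trans (mul_le_mul_of_nonneg_left h2 hlam.le)

/-- a zero with `2 m` alternating rays gives `m + 1` nodal domains -/
theorem count (h : Wat Ω lam w) (hlam : 0 < lam) (hb : Bornology.IsBounded Ω) {m : ℕ} {θ₀ ε : ℝ}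
    (hm : 1 ≤ m) (hε : 0 < ε) (h00 : w 0 = 0)
    (hr : ∀ i : ℕ, ∀ s, 0 < s → s ≤ ε → 0 < (-1) ^ i * w (X s (θ₀ + Real.pi * i / m))) {j : ℝ}
    (hj : 0 < j) (hJ : ∀ t : ℝ, 0 ≤ t → t < j → J 0 t ≠ 0) :
    ((m : ℝ) + 1) * (Real.pi * j ^ 2) ≤ lam * volume.real Ω := by
  classical
  have hpi := Real.pi_pos
  have hm1 : (1:ℝ) ≤ m := by exact_mod_cast hm
  have hm0 : 0 < (m : ℝ) := by linarith
  set F : Set ℂ := {x | w x ≠ 0} with hFd
  have hF : IsOpen F := isOpen_ne_fun h.cont continuous_const
  set t : ℕ → ℝ := fun i => θ₀ + Real.pi * i / m with ht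
  have hwne : ∀ (i : ℕ) (s : ℝ), 0 < s → s ≤ ε → w (X s (t i)) ≠ 0 := by
    intro i s hs hs' h0
    have := hr i s hs hs'
    rw [show w (X s (θ₀ + Real.pi * i / m)) = 0 from h0, mul_zero] at this
    exact lt_irrefl _ this
  set C : ℕ → Set ℂ := fun i => connectedComponentIn F (X ε (t i)) with hC
  have hpt : ∀ i, X ε (t i) ∈ F := fun i => hwne i ε hε le_rfl
  have hray : ∀ i s, 0 < s → s ≤ ε → X s (t i) ∈ C i := by
    intro i s hs hs'
    have hcont : Continuous fun u : ℝ => X u (t i) :=
      X_cont.comp (continuous_id.prodMk continuous_const)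
    have hp : IsPreconnected ((fun u : ℝ => X u (t i)) '' Icc s ε) :=
      isPreconnected_Icc.image _ hcont.continuousOn
    refine hp.subset_connectedComponentIn ⟨ε, ⟨hs', le_rfl⟩, rfl⟩ ?_ ⟨s, ⟨le_rfl, hs'⟩, rfl⟩
    rintro _ ⟨u, hu, rfl⟩
    exact hwne i u (hs.trans_le hu.1) hu.2
  have hsign : ∀ i, ∀ y ∈ C i, 0 < (-1) ^ i * w y := fun i =>
    comp_sign h.cont (hr i ε hε le_rfl)
  have hne : ∀ i, C i ≠ C (i + 1) := by
    intro i heq
    have h1 := hsign i _ (mem_connectedComponentIn (hpt i))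
    have h2 := hsign (i + 1) (X ε (t i)) (by rw [← heq]; exact mem_connectedComponentIn (hpt i))
    rw [pow_succ] at h2
    linarith
  have hnc : ∀ i j k l : ℕ, i < j → j < k → k < l → l < 2 * m → C i = C k → C j = C l →
      C i = C j := by
    intro i j k l hij hjk hkl hl hik hjl
    by_contra hcon
    have hd : Disjoint (C i) (C j) := by
      refine Set.disjoint_left.2 fun z hz hz' => hcon ?_
      simp only [hC] at hz hz' ⊢
      rw [connectedComponentIn_eq hz, connectedComponentIn_eq hz']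
    have h0 : ∀ i, (0:ℂ) ∉ C i := fun i h0 => connectedComponentIn_subset _ _ h0 h00
    have hlt : ∀ a b : ℕ, a < b → t a < t b := by
      intro a b hab
      simp only [ht]
      have hab' : (a : ℝ) < b := by exact_mod_cast hab
      have : Real.pi * a / m < Real.pi * b / m :=
        div_lt_div_of_pos_right (mul_lt_mul_of_pos_left hab' hpi) hm0
      linarith
    have h41 : t l < t i + 2 * Real.pi := by
      simp only [ht]
      have h5 : (l : ℝ) < 2 * m := by exact_mod_cast hl
      have h6 : Real.pi * l / m < 2 * Real.pi := by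
        rw [div_lt_iff₀ hm0]
        nlinarith
      have h7 : 0 ≤ Real.pi * i / m := by positivity
      linarith
    have hX : ∀ (s u : ℝ), (s : ℂ) * Complex.exp (u * Complex.I) = X s u := by
      intro s u
      rw [X_eq, er_exp]
    refine cross_gen (P := C i) (N := C j) hF.connectedComponentIn isPreconnected_connectedComponentIn
      hF.connectedComponentIn isPreconnected_connectedComponentIn hd (h0 i) (h0 j) hε
      (hlt i j hij) (hlt j k hjk) (hlt k l hkl) h41 (fun s hs hs' => ?_) (fun s hs hs' => ?_)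
      (fun s hs hs' => ?_) (fun s hs hs' => ?_)
    · rw [hX]; exact hray i s hs hs'
    · rw [hX, hik]; exact hray k s hs hs'
    · rw [hX]; exact hray j s hs hs'
    · rw [hX, hjl]; exact hray l s hs hs'
  have hcard := noncross C (2 * m) (by omega) 0 (fun i _ _ => hne i)
    (fun i j k l _ h1 h2 h3 h4 h5 h6 => hnc i j k l h1 h2 h3 (by omega) h5 h6)
  set S := (Finset.Ico 0 (0 + 2 * m)).image C with hS
  have hcard' : m + 1 ≤ S.card := by omega
  have h1 := sum_comp h hlam hb hj hJ S (by
    intro D hD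
    obtain ⟨i, -, rfl⟩ := Finset.mem_image.1 hD
    exact ⟨_, hpt i, rfl⟩)
  have h2 : ((m : ℝ) + 1) ≤ S.card := by exact_mod_cast hcard'
  have h3 : 0 ≤ Real.pi * j ^ 2 := by positivity
  exact (mul_le_mul_of_nonneg_right h2 h3).trans h1

end Pool.Agent.R227.SA
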