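import Pool.Agent.R227.SA16
import Pool.Agent.TH298.AN.ODEM

/-! Symmetrization and the main dichotomy. -/

set_option autoImplicit false

open MeasureTheory Set Filter
open scoped Topology ContDiff

namespace Pool.Agent.R227.SA

open Pool.Agent.TH298.Sch (X er et dd SC Sol X_cont X_dr X_dt norm_X dd_sc X_eq er_exp X_add Lr Lr_sc Lr_eq)
open Pool.Agent.TH298.AN.ODEM (tr_er)
open TH259.NS (B J)

/-- the Laplacian and rotations -/
lemma la_rot {U : ℂ → ℝ} (hU : SC U) (t : ℝ) (x : ℂ) :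
    la (fun y => U (er t * y)) x = la U (er t * x) := by
  have e1 : ∀ {φ : ℂ → ℝ}, SC φ → ∀ h y, dd h (fun y => φ (er t * y)) y = dd (er t * h) φ (er t * y) := by
    intro φ hφ h y
    have h1 : HasFDerivAt (fun y : ℂ => er t * y) ((er t) • (ContinuousLinearMap.id ℝ ℂ)) y :=
      (hasFDerivAt_id (𝕜 := ℝ) y).const_mul (er t)
    have h2 : HasFDerivAt (fun y => φ (er t * y))
        ((fderiv ℝ φ (er t * y)).comp ((er t) • (ContinuousLinearMap.id ℝ ℂ))) y :=
      (hφ.diff (er t * y)).hasFDerivAt.comp y h1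
    unfold dd
    rw [h2.fderiv]
    rfl
  have e2 : ∀ h, dd h (dd h (fun y => U (er t * y))) x =
      dd (er t * h) (dd (er t * h) U) (er t * x) := by
    intro h
    have : dd h (fun y => U (er t * y)) = fun y => dd (er t * h) U (er t * y) :=
      funext fun y => e1 hU h y
    rw [this, e1 (dd_sc hU _)]
  unfold la
  rw [e2, e2, mul_one, dd_dd hU.sm, dd_dd hU.sm, dd_dd hU.sm, dd_dd hU.sm]
  have e3 : er t * Complex.I = et t := by
    unfold er et
    rw [add_mul, mul_assoc, Complex.I_mul_I]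
    ring
  rw [e3]
  exact tr_er (fderiv ℝ (fderiv ℝ U) (er t * x)) t

lemma rot_sc {U : ℂ → ℝ} (hU : SC U) (t : ℝ) : SC (fun y => U (er t * y)) := by
  have hne : er t ≠ 0 := by
    rw [← norm_ne_zero_iff, norm_er]
    norm_num
  exact ⟨hU.sm.comp (contDiff_const.mul contDiff_id), hU.cs.comp_homeomorph (Homeomorph.mulLeft₀ _ hne)⟩

variable {Ω : Set ℂ} {lam c : ℝ} {v : ℂ → ℝ}

/-- rotations of a solution -/
lemma Dat.rot (D : Dat Ω lam c v) (t : ℝ) (hinv : ∀ x, x ∈ Ω ↔ er t * x ∈ Ω) :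
    Dat Ω lam c (fun x => v (er t * x)) := by
  refine ⟨D.c1.comp (contDiff_const.mul contDiff_id), fun x hx => D.out _ fun h => hx ((hinv x).2 h),
    fun x hx => ?_, fun x₀ hx₀ => ?_⟩
  · have h1 : HasFDerivAt (fun y : ℂ => er t * y) ((er t) • (ContinuousLinearMap.id ℝ ℂ)) x :=
      (hasFDerivAt_id (𝕜 := ℝ) x).const_mul (er t)
    have h2 : HasFDerivAt (fun y => v (er t * y))
        ((fderiv ℝ v (er t * x)).comp ((er t) • (ContinuousLinearMap.id ℝ ℂ))) x :=
      ((D.c1.differentiable (by norm_num)) (er t * x)).hasFDerivAt.comp x h1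
    rw [h2.fderiv, D.outd _ fun h => hx ((hinv x).2 h)]
    simp
  · obtain ⟨r, hr, U, hU, hb, h⟩ := D.loc (er t * x₀) ((hinv x₀).1 hx₀)
    have hball : ∀ x ∈ Metric.ball x₀ r, er t * x ∈ Metric.ball (er t * x₀) r := by
      intro x hx
      rw [Metric.mem_ball, dist_eq_norm] at hx ⊢
      rw [← mul_sub, norm_mul, norm_er, one_mul]
      exact hx
    refine ⟨r, hr, fun x => U (er t * x), rot_sc hU t, fun x hx => (hinv x).2 (hb (hball x hx)),
      fun x hx => ⟨(h _ (hball x hx)).1, ?_⟩⟩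
    rw [la_rot hU, (h _ (hball x hx)).2]

/-- convex combinations of solutions -/
lemma Dat.conv {v' : ℂ → ℝ} (D : Dat Ω lam c v) (D' : Dat Ω lam c v') {a b : ℝ} (hab : a + b = 1) :
    Dat Ω lam c (fun x => a * v x + b * v' x) := by
  have hd : ∀ x, HasFDerivAt (fun x => a * v x + b * v' x)
      (a • fderiv ℝ v x + b • fderiv ℝ v' x) x := fun x =>
    (((D.c1.differentiable (by norm_num)) x).hasFDerivAt.const_mul a).add
      (((D'.c1.differentiable (by norm_num)) x).hasFDerivAt.const_mul b)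
  refine ⟨(contDiff_const.mul D.c1).add (contDiff_const.mul D'.c1), fun x hx => by
    rw [D.out x hx, D'.out x hx]; ring, fun x hx => ?_, fun x₀ hx₀ => ?_⟩
  · rw [(hd x).fderiv, D.outd x hx, D'.outd x hx]
    simp
  · obtain ⟨r, hr, U, hU, hb, h⟩ := D.loc x₀ hx₀
    obtain ⟨r', hr', U', hU', hb', h'⟩ := D'.loc x₀ hx₀
    have hsc : SC (fun x => a * U x) := ⟨contDiff_const.mul hU.sm, hU.cs.mul_left⟩
    have hsc' : SC (fun x => b * U' x) := ⟨contDiff_const.mul hU'.sm, hU'.cs.mul_left⟩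
    refine ⟨min r r', lt_min hr hr', fun x => a * U x + b * U' x, hsc.add hsc',
      (Metric.ball_subset_ball (min_le_left _ _)).trans hb, fun x hx => ?_⟩
    have hx1 := Metric.ball_subset_ball (min_le_left r r') hx
    have hx2 := Metric.ball_subset_ball (min_le_right r r') hx
    obtain ⟨k1, k2⟩ := h x hx1
    obtain ⟨k3, k4⟩ := h' x hx2
    constructor
    · change a * v x + b * v' x + c = a * U x + b * U' x
      rw [← k1, ← k3]
      linear_combination (-c) * hab
    · have e1 : ∀ {φ ψ : ℂ → ℝ}, SC φ → SC ψ → ∀ h y, dd h (fun x => a * φ x + b * ψ x) y =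
          a * dd h φ y + b * dd h ψ y := by
        intro φ ψ hφ hψ h y
        have := (((hφ.diff y).hasFDerivAt.const_mul a).add ((hψ.diff y).hasFDerivAt.const_mul b)).fderiv
        unfold dd
        rw [show (fun x => a * φ x + b * ψ x) = (fun x => a * φ x) + (fun x => b * ψ x) from rfl, this]
        rfl
      have e2 : ∀ h, dd h (dd h (fun x => a * U x + b * U' x)) x =
          a * dd h (dd h U) x + b * dd h (dd h U') x := by
        intro h
        have : dd h (fun x => a * U x + b * U' x) = fun x => a * dd h U x + b * dd h U' x :=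
          funext fun y => e1 hU hU' h y
        rw [this, e1 (dd_sc hU h) (dd_sc hU' h)]
      unfold la at k2 k4 ⊢
      rw [e2, e2]
      linear_combination a * k2 + b * k4

/-- averages of rotations -/
lemma Dat.avg (D : Dat Ω lam c v) (t : ℝ) (hinv : ∀ x, x ∈ Ω ↔ er t * x ∈ Ω) (k : ℕ) :
    Dat Ω lam c (fun x => (∑ i ∈ Finset.range (k + 1), v (er t ^ i * x)) / (k + 1)) := by
  have hk : ∀ k : ℕ, Dat Ω lam c (fun x => v (er t ^ k * x)) := by
    intro k
    induction k with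
    | zero => simpa using D
    | succ k ih =>
      have := ih.rot t hinv
      have e : (fun x => v (er t ^ (k + 1) * x)) = fun x => v (er t ^ k * (er t * x)) := by
        funext x
        rw [pow_succ, mul_assoc]
      rw [e]
      exact this
  induction k with
  | zero => simpa using D
  | succ k ih =>
    have h1 : (0:ℝ) < (k:ℝ) + 1 := by positivity
    have h2 : (0:ℝ) < (k:ℝ) + 2 := by positivity
    have := ih.conv (hk (k + 1)) (a := (k + 1) / (k + 2)) (b := 1 / (k + 2)) (by field_simp; ring)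
    have e : (fun x => (∑ i ∈ Finset.range (k + 1 + 1), v (er t ^ i * x)) / (((k + 1 : ℕ) : ℝ) + 1)) =
        fun x => ((k:ℝ) + 1) / (k + 2) * ((∑ i ∈ Finset.range (k + 1), v (er t ^ i * x)) / (k + 1)) +
          1 / (k + 2) * v (er t ^ (k + 1) * x) := by
      funext x
      rw [Finset.sum_range_succ]
      push_cast
      have h3 : (k:ℝ) + 1 + 1 = k + 2 := by ring
      rw [h3]
      generalize (∑ i ∈ Finset.range (k + 1), v (er t ^ i * x)) = S
      generalize v (er t ^ (k + 1) * x) = T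
      field_simp
    rw [e]
    exact this

/-- a symmetric solution -/
lemma Dat.symm (D : Dat Ω lam c v) (t : ℝ) (hinv : ∀ x, x ∈ Ω ↔ er t * x ∈ Ω) {n : ℕ} (hn : 1 ≤ n)
    (hroot : er t ^ n = 1) : ∃ v', Dat Ω lam c v' ∧ ∀ x, v' (er t * x) = v' x := by
  obtain ⟨k, rfl⟩ : ∃ k, n = k + 1 := ⟨n - 1, by omega⟩
  refine ⟨_, D.avg t hinv k, fun x => ?_⟩
  congr 1
  have e : ∀ i ∈ Finset.range (k + 1), v (er t ^ i * (er t * x)) = v (er t ^ (i + 1) * x) := by
    intro i _
    rw [pow_succ, mul_assoc]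
  rw [Finset.sum_congr rfl e, Finset.sum_range_succ, Finset.sum_range_succ' (fun i => v (er t ^ i * x)),
    hroot, pow_zero]

lemma Lr_inv (hv : ContDiff ℝ 1 v) (t : ℝ) (h : ∀ x, v (er t * x) = v x) (x : ℂ) :
    Lr v (er t * x) = Lr v x := by
  have h1 : HasFDerivAt (fun y : ℂ => er t * y) ((er t) • (ContinuousLinearMap.id ℝ ℂ)) x :=
    (hasFDerivAt_id (𝕜 := ℝ) x).const_mul (er t)
  have h2 : HasFDerivAt (fun y => v (er t * y))
      ((fderiv ℝ v (er t * x)).comp ((er t) • (ContinuousLinearMap.id ℝ ℂ))) x :=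
    ((hv.differentiable (by norm_num)) (er t * x)).hasFDerivAt.comp x h1
  have h3 : (fun y => v (er t * y)) = v := funext h
  rw [h3] at h2
  unfold Lr
  rw [h2.fderiv]
  change fderiv ℝ v (er t * x) (Complex.I * (er t * x)) = fderiv ℝ v (er t * x) (er t * (Complex.I * x))
  congr 1
  ring

/-- local form of the angular derivative -/
theorem Dat.wat_loc (D : Dat Ω lam c v) (h0 : (0:ℂ) ∈ Ω) :
    ∃ r > 0, ∃ W, SC W ∧
      (∀ x ∈ Metric.ball (0:ℂ) r, Lr v x = W x ∧ la W x = -(lam * W x)) ∧ W 0 = 0 ∧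
      (fderiv ℝ v 0 = 0 → fderiv ℝ W 0 = 0) := by
  obtain ⟨r, hr, W, hW, -, hl⟩ := D.wat.loc 0 h0
  have hW0 : W 0 = 0 := by
    rw [← (hl 0 (Metric.mem_ball_self hr)).1]
    simp [Lr]
  refine ⟨r, hr, W, hW, hl, hW0, fun hcr => ?_⟩
  obtain ⟨r', hr', W', hW', -, hl', -, hf⟩ := D.wat_zero h0 hcr
  have : W =ᶠ[𝓝 0] W' := by
    filter_upwards [Metric.ball_mem_nhds (0:ℂ) hr, Metric.ball_mem_nhds (0:ℂ) hr'] with x hx hx'
    rw [← (hl x hx).1, ← (hl' x hx').1]
  rw [this.fderiv_eq, hf]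

/-- the dichotomy -/
theorem Dat.dich (D : Dat Ω lam c v) (ho : IsOpen Ω) (hb : Bornology.IsBounded Ω)
    (hcon : IsPreconnected Ω) (hreg : interior (closure Ω) = Ω) (hlam : 0 < lam) (hc : c ≠ 0)
    (h0 : (0:ℂ) ∈ Ω) {n : ℕ} (hn : 2 ≤ n)
    (hsym : (n = 2 ∧ fderiv ℝ v 0 = 0) ∨ ∀ x, v (er (2 * Real.pi / n) * x) = v x) {j : ℝ}
    (hj : 0 < j) (hJ : ∀ t : ℝ, 0 ≤ t → t < j → J 0 t ≠ 0) :
    (∃ r > 0, Ω = Metric.ball 0 r) ∨ ((n : ℝ) + 1) * (Real.pi * j ^ 2) ≤ lam * volume.real Ω := by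
  have hpi := Real.pi_pos
  by_cases hw : ∀ x, Lr v x = 0
  · left
    exact D.disc ho hb hcon hreg hlam hc h0 hw
  · right
    push Not at hw
    obtain ⟨r, hr, W, hW, hl, hW0, hf⟩ := D.wat_loc h0
    obtain ⟨m, θ₀, ε, hm, hε, hm2, hdvd, hrays⟩ := D.wat.rays hlam hcon h0 hw hr hW hl hW0
    have hmn : n ≤ m := by
      rcases hsym with ⟨rfl, hcr⟩ | hs
      · exact hm2 (hf hcr)
      · have := hdvd n (by omega) (fun x => by
          have := Lr_inv D.c1 _ hs x
          rwa [er_exp] at this)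
        exact Nat.le_of_dvd (by omega) this
    have h00 : Lr v 0 = 0 := by simp [Lr]
    have h1 := count D.wat hlam hb hm hε h00 hrays hj hJ
    have h2 : (n : ℝ) ≤ m := by exact_mod_cast hmn
    have h3 : 0 ≤ Real.pi * j ^ 2 := by positivity
    refine le_trans ?_ h1
    exact mul_le_mul_of_nonneg_right (by linarith) h3

/-- the main theorem in terms of weak solutions -/
theorem main {u : ℂ → ℝ} {G : ℂ → ℂ} (ho : IsOpen Ω) (hb : Bornology.IsBounded Ω)
    (hne : Ω.Nonempty) (hcon : IsPreconnected Ω) (hreg : interior (closure Ω) = Ω) (hlam : 0 < lam)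
    (hc : c ≠ 0) (h : Sol Ω lam c u G) {n : ℕ} (hn : 2 ≤ n)
    (hsym : n = 2 ∨ ∃ p ∈ Ω, ∀ z ∈ Ω, p + er (2 * Real.pi / n) * (z - p) ∈ Ω) {j : ℝ}
    (hj : 0 < j) (hJ : ∀ t : ℝ, 0 ≤ t → t < j → J 0 t ≠ 0)
    (harea : lam * volume.real Ω < ((n : ℝ) + 1) * (Real.pi * j ^ 2)) :
    ∃ (p : ℂ) (r : ℝ), 0 < r ∧ Ω = Metric.ball p r ∧ J 1 (Real.sqrt lam * r) = 0 := by
  have hpi := Real.pi_pos
  obtain ⟨v, D⟩ := dat_of_sol ho hb hreg hlam h
  suffices hq : ∃ (p : ℂ) (r : ℝ), 0 < r ∧ Ω = Metric.ball p r by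
    obtain ⟨p, r, hr, hΩ⟩ := hq
    refine ⟨p, r, hr, hΩ, ?_⟩
    rw [hΩ] at h
    exact Pool.Agent.TH298.AN.ball_J1 hr hlam hc h
  -- a centre
  obtain ⟨p, hp, v', D', hs⟩ : ∃ p ∈ Ω, ∃ v', Dat ((fun x => x + p) ⁻¹' Ω) lam c v' ∧
      ((n = 2 ∧ fderiv ℝ v' 0 = 0) ∨ ∀ x, v' (er (2 * Real.pi / n) * x) = v' x) := by
    rcases hsym with rfl | ⟨p, hp, hinv⟩
    · obtain ⟨q, hq, hcr⟩ := D.crit hb hne hlam hc
      refine ⟨q, hq, _, D.trans q, Or.inl ⟨rfl, ?_⟩⟩
      rw [fderiv_comp_add_right, zero_add]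
      exact hcr
    · have hroot : er (2 * Real.pi / n) ^ n = 1 := by
        have hn0 : (n : ℂ) ≠ 0 := by
          have : n ≠ 0 := by omega
          exact_mod_cast this
        rw [er_exp, ← Complex.exp_nat_mul]
        have : (n : ℂ) * (((2 * Real.pi / n : ℝ) : ℂ) * Complex.I) = 2 * Real.pi * Complex.I := by
          push_cast
          field_simp
        rw [this, Complex.exp_two_pi_mul_I]
      have h1 : ∀ x, x ∈ (fun x => x + p) ⁻¹' Ω → er (2 * Real.pi / n) * x ∈ (fun x => x + p) ⁻¹' Ω := by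
        intro x hx
        have := hinv (x + p) hx
        rw [add_sub_cancel_right, add_comm] at this
        exact this
      have h2 : ∀ k : ℕ, ∀ x, x ∈ (fun x => x + p) ⁻¹' Ω →
          er (2 * Real.pi / n) ^ k * x ∈ (fun x => x + p) ⁻¹' Ω := by
        intro k
        induction k with
        | zero => intro x hx; simpa using hx
        | succ k ih =>
          intro x hx
          rw [pow_succ, mul_assoc]
          exact ih _ (h1 x hx)
      have h3 : ∀ x, x ∈ (fun x => x + p) ⁻¹' Ω ↔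
          er (2 * Real.pi / n) * x ∈ (fun x => x + p) ⁻¹' Ω := by
        intro x
        refine ⟨h1 x, fun hx => ?_⟩
        have h4 := h2 (n - 1) _ hx
        rw [← mul_assoc, ← pow_succ, Nat.sub_add_cancel (by omega), hroot, one_mul] at h4
        exact h4
      obtain ⟨v', D', hv'⟩ := (D.trans p).symm _ h3 (by omega : 1 ≤ n) hroot
      exact ⟨p, hp, v', D', Or.inr hv'⟩
  -- the translated domain
  set T : ℂ ≃ₜ ℂ := Homeomorph.addRight p with hT
  set Ω' : Set ℂ := (fun x => x + p) ⁻¹' Ω with hΩ'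
  have hpre : Ω' = T ⁻¹' Ω := rfl
  have ho' : IsOpen Ω' := ho.preimage (by fun_prop)
  have himg : Ω' = T.symm '' Ω := by
    rw [hpre, Homeomorph.image_symm]
  have hcon' : IsPreconnected Ω' := by
    rw [himg]
    exact hcon.image _ T.symm.continuous.continuousOn
  have hreg' : interior (closure Ω') = Ω' := by
    rw [hpre, ← T.preimage_closure, ← T.preimage_interior, hreg]
  have hb' : Bornology.IsBounded Ω' := by
    obtain ⟨C, hC⟩ := hb.exists_norm_le
    rw [isBounded_iff_forall_norm_le]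
    refine ⟨C + ‖p‖, fun x hx => ?_⟩
    have h1 := hC (x + p) hx
    have h2 : x = (x + p) - p := by ring
    rw [h2]
    refine (norm_sub_le _ _).trans ?_
    linarith
  have h0' : (0:ℂ) ∈ Ω' := by
    change 0 + p ∈ Ω
    rwa [zero_add]
  have hvol : volume.real Ω' = volume.real Ω := by
    simp only [Measure.real, hΩ']
    rw [measure_preimage_add_right]
  rcases D'.dich ho' hb' hcon' hreg' hlam hc h0' hn hs hj hJ with ⟨r, hr, hball⟩ | hcount
  · refine ⟨p, r, hr, ?_⟩
    ext z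
    have h1 : z ∈ Ω ↔ z - p ∈ Ω' := by
      change z ∈ Ω ↔ z - p + p ∈ Ω
      rw [sub_add_cancel]
    rw [h1, hball, Metric.mem_ball, Metric.mem_ball, dist_zero_right, dist_eq_norm]
  · rw [hvol] at hcount
    linarith

end Pool.Agent.R227.SA
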