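import Pool.Agent.R227.SA17

/-! Domains with a mirror line. -/

set_option autoImplicit false

open MeasureTheory Set Filter
open scoped Topology ContDiff ComplexConjugate

namespace Pool.Agent.R227.SA

open Pool.Agent.TH298.Sch (X er et dd SC Sol X_cont X_dr X_dt norm_X dd_sc X_eq er_exp X_add Lr Lr_sc
  Lr_eq mp_rot me_rot)
open TH259.NS (B J)

variable {Ω : Set ℂ} {lam c : ℝ} {v w : ℂ → ℝ}

/-- rotations, general domains -/
lemma Dat.rotG (D : Dat Ω lam c v) (t : ℝ) :
    Dat ((fun x => er t * x) ⁻¹' Ω) lam c (fun x => v (er t * x)) := by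
  refine ⟨D.c1.comp (contDiff_const.mul contDiff_id), fun x hx => D.out _ hx,
    fun x hx => ?_, fun x₀ hx₀ => ?_⟩
  · have h1 : HasFDerivAt (fun y : ℂ => er t * y) ((er t) • (ContinuousLinearMap.id ℝ ℂ)) x :=
      (hasFDerivAt_id (𝕜 := ℝ) x).const_mul (er t)
    have h2 : HasFDerivAt (fun y => v (er t * y))
        ((fderiv ℝ v (er t * x)).comp ((er t) • (ContinuousLinearMap.id ℝ ℂ))) x :=
      ((D.c1.differentiable (by norm_num)) (er t * x)).hasFDerivAt.comp x h1
    rw [h2.fderiv, D.outd _ hx]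
    simp
  · obtain ⟨r, hr, U, hU, hb, h⟩ := D.loc (er t * x₀) hx₀
    have hball : ∀ x ∈ Metric.ball x₀ r, er t * x ∈ Metric.ball (er t * x₀) r := by
      intro x hx
      rw [Metric.mem_ball, dist_eq_norm] at hx ⊢
      rw [← mul_sub, norm_mul, norm_er, one_mul]
      exact hx
    refine ⟨r, hr, fun x => U (er t * x), rot_sc hU t, fun x hx => hb (hball x hx),
      fun x hx => ⟨(h _ (hball x hx)).1, ?_⟩⟩
    rw [la_rot hU, (h _ (hball x hx)).2]

/-- conjugation as a linear map -/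
noncomputable abbrev cj : ℂ →L[ℝ] ℂ := Complex.conjCLE

lemma la_conj {U : ℂ → ℝ} (hU : SC U) (x : ℂ) :
    la (fun y => U (conj y)) x = la U (conj x) := by
  have e1 : ∀ {φ : ℂ → ℝ}, SC φ → ∀ h y, dd h (fun y => φ (conj y)) y = dd (conj h) φ (conj y) := by
    intro φ hφ h y
    have h1 : HasFDerivAt (fun y : ℂ => (conj y : ℂ)) (cj : ℂ →L[ℝ] ℂ) y := cj.hasFDerivAt
    have h2 : HasFDerivAt (fun y => φ (conj y)) ((fderiv ℝ φ (conj y)).comp cj) y :=
      (hφ.diff (conj y)).hasFDerivAt.comp y h1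
    unfold dd
    rw [h2.fderiv]
    rfl
  have e2 : ∀ h, dd h (dd h (fun y => U (conj y))) x = dd (conj h) (dd (conj h) U) (conj x) := by
    intro h
    have : dd h (fun y => U (conj y)) = fun y => dd (conj h) U (conj y) :=
      funext fun y => e1 hU h y
    rw [this, e1 (dd_sc hU _)]
  unfold la
  rw [e2, e2, map_one, Complex.conj_I, dd_dd hU.sm, dd_dd hU.sm, dd_dd hU.sm]
  simp

lemma conj_sc {U : ℂ → ℝ} (hU : SC U) : SC (fun y => U (conj y)) :=
  ⟨hU.sm.comp Complex.conjCLE.contDiff, hU.cs.comp_homeomorph Complex.conjCLE.toHomeomorph⟩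

/-- reflections of a solution -/
lemma Dat.conjG (D : Dat Ω lam c v) (hinv : ∀ x, x ∈ Ω ↔ conj x ∈ Ω) :
    Dat Ω lam c (fun x => v (conj x)) := by
  refine ⟨D.c1.comp (Complex.conjCLE.contDiff (n := 1)), fun x hx => D.out _ fun h => hx ((hinv x).2 h),
    fun x hx => ?_, fun x₀ hx₀ => ?_⟩
  · have h1 : HasFDerivAt (fun y : ℂ => (conj y : ℂ)) (cj : ℂ →L[ℝ] ℂ) x := cj.hasFDerivAt
    have h2 : HasFDerivAt (fun y => v (conj y)) ((fderiv ℝ v (conj x)).comp cj) x :=
      ((D.c1.differentiable (by norm_num)) (conj x)).hasFDerivAt.comp x h1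
    rw [h2.fderiv, D.outd _ fun h => hx ((hinv x).2 h)]
    simp
  · obtain ⟨r, hr, U, hU, hb, h⟩ := D.loc (conj x₀) ((hinv x₀).1 hx₀)
    have hball : ∀ x ∈ Metric.ball x₀ r, conj x ∈ Metric.ball (conj x₀) r := by
      intro x hx
      rw [Metric.mem_ball, dist_eq_norm] at hx ⊢
      rw [← map_sub, Complex.norm_conj]
      exact hx
    refine ⟨r, hr, fun x => U (conj x), conj_sc hU, fun x hx => (hinv x).2 (hb (hball x hx)),
      fun x hx => ⟨(h _ (hball x hx)).1, ?_⟩⟩
    rw [la_conj hU, (h _ (hball x hx)).2]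

/-- symmetrization about the real axis -/
lemma Dat.symC (D : Dat Ω lam c v) (hinv : ∀ x, x ∈ Ω ↔ conj x ∈ Ω) :
    Dat Ω lam c (fun x => 1 / 2 * v x + 1 / 2 * v (conj x)) :=
  D.conv (D.conjG hinv) (by norm_num)

lemma Lr_conj (hv : ContDiff ℝ 1 v) (h : ∀ x, v (conj x) = v x) (x : ℂ) :
    Lr v (conj x) = -Lr v x := by
  have h1 : HasFDerivAt (fun y : ℂ => (conj y : ℂ)) (cj : ℂ →L[ℝ] ℂ) x := cj.hasFDerivAt
  have h2 : HasFDerivAt (fun y => v (conj y)) ((fderiv ℝ v (conj x)).comp cj) x :=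
    ((hv.differentiable (by norm_num)) (conj x)).hasFDerivAt.comp x h1
  have h3 : (fun y => v (conj y)) = v := funext h
  rw [h3] at h2
  unfold Lr
  rw [h2.fderiv]
  have e : ((fderiv ℝ v (conj x)).comp cj) (Complex.I * x) =
      fderiv ℝ v (conj x) (conj (Complex.I * x)) := rfl
  have e3 : conj (Complex.I * x) = -(Complex.I * conj x) := by
    rw [map_mul, Complex.conj_I, neg_mul]
  rw [e, e3, map_neg, neg_neg]

/-! ### components -/

lemma comp_conj (hsym : ∀ x, w (conj x) = -w x) {x : ℂ} (hx : w x ≠ 0) :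
    connectedComponentIn {x | w x ≠ 0} (conj x) = conj '' connectedComponentIn {x | w x ≠ 0} x := by
  have h := Complex.conjCLE.toHomeomorph.image_connectedComponentIn (s := {x | w x ≠ 0}) (x := x) hx
  have e : (Complex.conjCLE.toHomeomorph '' {x | w x ≠ 0}) = {x | w x ≠ 0} := by
    ext y
    constructor
    · rintro ⟨z, hz, rfl⟩
      change w (conj z) ≠ 0
      rw [hsym]
      exact neg_ne_zero.2 hz
    · intro hy
      refine ⟨conj y, ?_, ?_⟩
      · change w (conj y) ≠ 0
        rw [hsym]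
        exact neg_ne_zero.2 hy
      · change conj (conj y) = y
        exact Complex.conj_conj y
  rw [e] at h
  exact h.symm

/-- three components give four -/
theorem four (h : Wat Ω lam w) (hlam : 0 < lam) (hb : Bornology.IsBounded Ω) {j : ℝ}
    (hj : 0 < j) (hJ : ∀ t : ℝ, 0 ≤ t → t < j → J 0 t ≠ 0) (hsym : ∀ x, w (conj x) = -w x)
    (S : Finset (Set ℂ)) (hS : ∀ D ∈ S, ∃ x, w x ≠ 0 ∧ D = connectedComponentIn {x | w x ≠ 0} x)
    (hcard : 3 ≤ S.card) : 4 * (Real.pi * j ^ 2) ≤ lam * volume.real Ω := by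
  classical
  choose! x hx hD using hS
  obtain ⟨D1, h1, D2, h2, hne, hs⟩ := Finset.exists_ne_map_eq_of_card_lt_of_maps_to
    (s := S) (t := (Finset.univ : Finset Bool)) (by simp; omega)
    (f := fun D => decide (0 < w (x D))) (fun _ _ => Finset.mem_coe.2 (Finset.mem_univ _))
  simp only [decide_eq_decide] at hs
  -- a common sign
  obtain ⟨σ, hσ1, hσ2⟩ : ∃ σ : ℝ, 0 < σ * w (x D1) ∧ 0 < σ * w (x D2) := by
    rcases lt_or_gt_of_ne (hx D1 h1) with h3 | h3
    · have h4 : w (x D2) < 0 := by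
        rcases lt_or_gt_of_ne (hx D2 h2) with h5 | h5
        · exact h5
        · exact absurd (hs.2 h5) (not_lt.2 h3.le)
      exact ⟨-1, by linarith, by linarith⟩
    · exact ⟨1, by linarith, by have := hs.1 h3; linarith⟩
  set F : Set ℂ := {x | w x ≠ 0} with hF
  set D3 := connectedComponentIn F (conj (x D1)) with hD3
  set D4 := connectedComponentIn F (conj (x D2)) with hD4
  have e1 := hD D1 h1
  have e2 := hD D2 h2
  have n3 : w (conj (x D1)) ≠ 0 := by rw [hsym]; exact neg_ne_zero.2 (hx D1 h1)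
  have n4 : w (conj (x D2)) ≠ 0 := by rw [hsym]; exact neg_ne_zero.2 (hx D2 h2)
  have s1 : ∀ y ∈ D1, 0 < σ * w y := by
    rw [e1]; exact comp_sign h.cont hσ1
  have s2 : ∀ y ∈ D2, 0 < σ * w y := by
    rw [e2]; exact comp_sign h.cont hσ2
  have m3 : conj (x D1) ∈ D3 := mem_connectedComponentIn n3
  have m4 : conj (x D2) ∈ D4 := mem_connectedComponentIn n4
  have ne34 : D3 ≠ D4 := by
    intro heq
    apply hne
    rw [hD3, hD4, comp_conj hsym (hx D1 h1), comp_conj hsym (hx D2 h2)] at heq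
    have hinj : Function.Injective (conj : ℂ → ℂ) := (starRingEnd ℂ).injective
    have h5 := hinj.image_injective heq
    rw [e1, e2]
    exact h5
  have neg3 : ¬ 0 < σ * w (conj (x D1)) := by rw [hsym]; linarith
  have neg4 : ¬ 0 < σ * w (conj (x D2)) := by rw [hsym]; linarith
  have ne13 : D1 ≠ D3 := fun heq => neg3 (s1 _ (heq ▸ m3))
  have ne14 : D1 ≠ D4 := fun heq => neg4 (s1 _ (heq ▸ m4))
  have ne23 : D2 ≠ D3 := fun heq => neg3 (s2 _ (heq ▸ m3))
  have ne24 : D2 ≠ D4 := fun heq => neg4 (s2 _ (heq ▸ m4))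
  have hc4 : ({D1, D2, D3, D4} : Finset (Set ℂ)).card = 4 := by
    rw [Finset.card_insert_of_notMem, Finset.card_insert_of_notMem, Finset.card_insert_of_notMem,
      Finset.card_singleton]
    · simpa using ne34
    · simp [ne23, ne24]
    · simp [hne, ne13, ne14]
  have := sum_comp h hlam hb hj hJ {D1, D2, D3, D4} (by
    intro D hDm
    simp only [Finset.mem_insert, Finset.mem_singleton] at hDm
    rcases hDm with rfl | rfl | rfl | rfl
    · exact ⟨_, hx _ h1, e1⟩
    · exact ⟨_, hx _ h2, e2⟩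
    · exact ⟨_, n3, rfl⟩
    · exact ⟨_, n4, rfl⟩)
  rw [hc4] at this
  exact_mod_cast this

/-- mirror lines separate the points of an orbit -/
lemma mirror {C : Set ℂ} (hC : IsPreconnected C) {n : ℕ} (hn : 2 ≤ n)
    (hline : ∀ (i : ℕ) (r : ℝ), (r : ℂ) * er (Real.pi * i / n) ∉ C) {ρ τ : ℝ} (hρ : 0 < ρ)
    (hτ : 0 ≤ τ) {l : ℕ} (hl : 1 ≤ l) (hln : l < n) (h1 : (ρ : ℂ) * er τ ∈ C)
    (h2 : (ρ : ℂ) * er (τ + 2 * Real.pi * l / n) ∈ C) : False := by
  have hpi := Real.pi_pos
  have hn1 : (2:ℝ) ≤ n := by exact_mod_cast hn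
  have hn0 : (0:ℝ) < n := by linarith
  have hl1 : (1:ℝ) ≤ l := by exact_mod_cast hl
  have hln1 : (l:ℝ) + 1 ≤ n := by exact_mod_cast hln
  -- the separating functionals
  have hphi : ∀ (i : ℕ) (z : ℂ), z ∈ C → (z * er (-(Real.pi * i / n))).im ≠ 0 := by
    intro i z hz h0
    apply hline i ((z * er (-(Real.pi * i / n))).re)
    have e1 : (((z * er (-(Real.pi * i / n))).re : ℝ) : ℂ) = z * er (-(Real.pi * i / n)) := by
      apply Complex.ext
      · simp
      · rw [h0]; simp
    rw [e1, mul_assoc]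
    have e2 : er (-(Real.pi * i / n)) * er (Real.pi * i / n) = 1 := by
      rw [er_exp, er_exp, ← Complex.exp_add]
      have : ((-(Real.pi * i / n) : ℝ) : ℂ) * Complex.I + ((Real.pi * i / n : ℝ) : ℂ) * Complex.I = 0 := by
        push_cast; ring
      rw [this, Complex.exp_zero]
    rw [e2, mul_one]
    exact hz
  have hval : ∀ (i : ℕ) (t : ℝ), ((ρ : ℂ) * er t * er (-(Real.pi * i / n))).im =
      ρ * Real.sin (t - Real.pi * i / n) := by
    intro i t
    have : (ρ : ℂ) * er t * er (-(Real.pi * i / n)) =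
        ρ * Complex.exp ((t - Real.pi * i / n : ℝ) * Complex.I) := by
      rw [er_exp, er_exp, mul_assoc, ← Complex.exp_add]
      congr 2
      push_cast
      ring
    rw [this, Complex.im_ofReal_mul, Complex.exp_ofReal_mul_I_im]
  have hsgn : ∀ (i : ℕ), 0 < Real.sin (τ - Real.pi * i / n) *
      Real.sin (τ + 2 * Real.pi * l / n - Real.pi * i / n) := by
    intro i
    have hc : ContinuousOn (fun z : ℂ => (z * er (-(Real.pi * i / n))).im) C := by fun_prop
    have k1 := hphi i _ h1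
    have k2 := hphi i _ h2
    by_contra hcon
    push Not at hcon
    rw [hval] at k1 k2
    have k3 : Real.sin (τ - Real.pi * i / n) ≠ 0 := fun h => k1 (by rw [h, mul_zero])
    have k4 : Real.sin (τ + 2 * Real.pi * l / n - Real.pi * i / n) ≠ 0 := fun h => k2 (by rw [h, mul_zero])
    have hex : ∃ z ∈ C, (z * er (-(Real.pi * i / n))).im = 0 := by
      rcases lt_or_gt_of_ne k3 with h5 | h5
      · have h6 : 0 < Real.sin (τ + 2 * Real.pi * l / n - Real.pi * i / n) := by
          rcases lt_or_gt_of_ne k4 with h7 | h7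
          · exact absurd (mul_pos_of_neg_of_neg h5 h7) (not_lt.2 hcon)
          · exact h7
        have h8 := hC.intermediate_value h1 h2 hc (show (0:ℝ) ∈ Icc _ _ from ⟨by
          rw [hval]; nlinarith, by rw [hval]; nlinarith⟩)
        obtain ⟨z, hz, hz0⟩ := h8
        exact ⟨z, hz, hz0⟩
      · have h6 : Real.sin (τ + 2 * Real.pi * l / n - Real.pi * i / n) < 0 := by
          rcases lt_or_gt_of_ne k4 with h7 | h7
          · exact h7
          · exact absurd (mul_pos h5 h7) (not_lt.2 hcon)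
        have h8 := hC.intermediate_value h2 h1 hc (show (0:ℝ) ∈ Icc _ _ from ⟨by
          rw [hval]; nlinarith, by rw [hval]; nlinarith⟩)
        obtain ⟨z, hz, hz0⟩ := h8
        exact ⟨z, hz, hz0⟩
    obtain ⟨z, hz, hz0⟩ := hex
    exact hphi i z hz hz0
  -- the sector of the first point
  set i : ℕ := ⌊τ * n / Real.pi⌋₊ with hi
  have hi1 : (i : ℝ) ≤ τ * n / Real.pi := Nat.floor_le (by positivity)
  have hi2 : τ * n / Real.pi < i + 1 := Nat.lt_floor_add_one _
  set t := τ - Real.pi * i / n with ht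
  have ht0 : 0 ≤ t := by
    rw [le_div_iff₀ hpi] at hi1
    rw [ht, sub_nonneg, div_le_iff₀ hn0]
    linarith
  have ht1 : t < Real.pi / n := by
    rw [div_lt_iff₀ hpi] at hi2
    rw [ht, sub_lt_iff_lt_add, ← add_div, lt_div_iff₀ hn0]
    linarith
  have hπn : Real.pi / n ≤ Real.pi / 2 := div_le_div_of_nonneg_left hpi.le (by norm_num) hn1
  have hπn0 : 0 < Real.pi / n := by positivity
  set δ := 2 * Real.pi * l / n with hδ
  have hδ1 : 2 * (Real.pi / n) ≤ δ := by
    rw [hδ, ← mul_div_assoc]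
    refine div_le_div_of_nonneg_right ?_ hn0.le
    nlinarith
  have hδ2 : δ ≤ 2 * Real.pi - 2 * (Real.pi / n) := by
    have : δ = 2 * (Real.pi / n) * l := by rw [hδ]; ring
    rw [this]
    have h5 : 2 * Real.pi = 2 * (Real.pi / n) * n := by field_simp
    rw [h5]
    nlinarith
  have s0 := hsgn i
  have e0 : τ + 2 * Real.pi * l / n - Real.pi * i / n = t + δ := by rw [ht, hδ]; ring
  rw [e0, ← ht] at s0
  have ht0' : 0 < t := by
    rcases eq_or_lt_of_le ht0 with h5 | h5
    · rw [← h5] at s0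
      simp at s0
    · exact h5
  rcases le_or_gt δ Real.pi with hle | hgt
  · have s1 := hsgn (i + 1)
    have e1 : τ - Real.pi * ((i + 1 : ℕ) : ℝ) / n = -(Real.pi / n - t) := by
      rw [ht]; push_cast; ring
    have e2 : τ + 2 * Real.pi * l / n - Real.pi * ((i + 1 : ℕ) : ℝ) / n = t + δ - Real.pi / n := by
      rw [ht, hδ]; push_cast; ring
    rw [e1, e2, Real.sin_neg] at s1
    have p1 : 0 < Real.sin (Real.pi / n - t) :=
      Real.sin_pos_of_pos_of_lt_pi (by linarith) (by linarith)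
    have p2 : 0 < Real.sin (t + δ - Real.pi / n) :=
      Real.sin_pos_of_pos_of_lt_pi (by linarith) (by linarith)
    nlinarith
  · have p1 : 0 < Real.sin t := Real.sin_pos_of_pos_of_lt_pi ht0' (by linarith)
    have p2 : Real.sin (t + δ) < 0 := by
      have : Real.sin (t + δ) = -Real.sin (t + δ - Real.pi) := by
        rw [Real.sin_sub_pi, neg_neg]
      rw [this]
      have := Real.sin_pos_of_pos_of_lt_pi (show 0 < t + δ - Real.pi by linarith) (by linarith)
      linarith
    nlinarith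

end Pool.Agent.R227.SA
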