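import Pool.Agent.R227.SA18

/-! Domains with a mirror line: the dichotomy. -/

set_option autoImplicit false

open MeasureTheory Set Filter
open scoped Topology ContDiff ComplexConjugate

namespace Pool.Agent.R227.SA

open Pool.Agent.TH298.Sch (X er et dd SC Sol X_cont X_dr X_dt norm_X dd_sc X_eq er_exp X_add Lr Lr_sc
  Lr_eq mp_rot me_rot lin_val)
open TH259.NS (B J)

variable {Ω : Set ℂ} {lam c : ℝ} {v w : ℂ → ℝ}

lemma er_add (s t : ℝ) : er (s + t) = er s * er t := by
  rw [er_exp, er_exp, er_exp, ← Complex.exp_add]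
  congr 1
  push_cast
  ring

lemma er_conj (t : ℝ) : conj (er t) = er (-t) := by
  unfold er
  rw [Real.cos_neg, Real.sin_neg]
  apply Complex.ext <;> simp

/-- a zero with `2 m` alternating rays gives `m + 1` nodal domains -/
theorem count_set (h : Wat Ω lam w) {m : ℕ} {θ₀ ε : ℝ}
    (hm : 1 ≤ m) (hε : 0 < ε) (h00 : w 0 = 0)
    (hr : ∀ i : ℕ, ∀ s, 0 < s → s ≤ ε → 0 < (-1) ^ i * w (X s (θ₀ + Real.pi * i / m))) :
    ∃ S : Finset (Set ℂ), m + 1 ≤ S.card ∧
      ∀ D ∈ S, ∃ x, w x ≠ 0 ∧ D = connectedComponentIn {x | w x ≠ 0} x := by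
  classical
  have hpi := Real.pi_pos
  have hm1 : (1:ℝ) ≤ m := by exact_mod_cast hm
  have hm0 : 0 < (m : ℝ) := by linarith
  set F : Set ℂ := {x | w x ≠ 0} with hFd
  have hF : IsOpen F := isOpen_ne_fun h.cont continuous_const
  set t : ℕ → ℝ := fun i => θ₀ + Real.pi * i / m with ht
  have hwne : ∀ (i : ℕ) (s : ℝ), 0 < s → s ≤ ε → w (X s (t i)) ≠ 0 := by
    intro i s hs hs' h0
    have := hr i s hs hs'
    rw [show w (X s (θ₀ + Real.pi * i / m)) = 0 from h0, mul_zero] at this
    exact lt_irrefl _ this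
  set C : ℕ → Set ℂ := fun i => connectedComponentIn F (X ε (t i)) with hC
  have hpt : ∀ i, X ε (t i) ∈ F := fun i => hwne i ε hε le_rfl
  have hray : ∀ i s, 0 < s → s ≤ ε → X s (t i) ∈ C i := by
    intro i s hs hs'
    have hcont : Continuous fun u : ℝ => X u (t i) :=
      X_cont.comp (continuous_id.prodMk continuous_const)
    have hp : IsPreconnected ((fun u : ℝ => X u (t i)) '' Icc s ε) :=
      isPreconnected_Icc.image _ hcont.continuousOn
    refine hp.subset_connectedComponentIn ⟨ε, ⟨hs', le_rfl⟩, rfl⟩ ?_ ⟨s, ⟨le_rfl, hs'⟩, rfl⟩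
    rintro _ ⟨u, hu, rfl⟩
    exact hwne i u (hs.trans_le hu.1) hu.2
  have hsign : ∀ i, ∀ y ∈ C i, 0 < (-1) ^ i * w y := fun i =>
    comp_sign h.cont (hr i ε hε le_rfl)
  have hne : ∀ i, C i ≠ C (i + 1) := by
    intro i heq
    have h1 := hsign i _ (mem_connectedComponentIn (hpt i))
    have h2 := hsign (i + 1) (X ε (t i)) (by rw [← heq]; exact mem_connectedComponentIn (hpt i))
    rw [pow_succ] at h2
    linarith
  have hnc : ∀ i j k l : ℕ, i < j → j < k → k < l → l < 2 * m → C i = C k → C j = C l →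
      C i = C j := by
    intro i j k l hij hjk hkl hl hik hjl
    by_contra hcon
    have hd : Disjoint (C i) (C j) := by
      refine Set.disjoint_left.2 fun z hz hz' => hcon ?_
      simp only [hC] at hz hz' ⊢
      rw [connectedComponentIn_eq hz, connectedComponentIn_eq hz']
    have h0 : ∀ i, (0:ℂ) ∉ C i := fun i h0 => connectedComponentIn_subset _ _ h0 h00
    have hlt : ∀ a b : ℕ, a < b → t a < t b := by
      intro a b hab
      simp only [ht]
      have hab' : (a : ℝ) < b := by exact_mod_cast hab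
      have : Real.pi * a / m < Real.pi * b / m :=
        div_lt_div_of_pos_right (mul_lt_mul_of_pos_left hab' hpi) hm0
      linarith
    have h41 : t l < t i + 2 * Real.pi := by
      simp only [ht]
      have h5 : (l : ℝ) < 2 * m := by exact_mod_cast hl
      have h6 : Real.pi * l / m < 2 * Real.pi := by
        rw [div_lt_iff₀ hm0]
        nlinarith
      have h7 : 0 ≤ Real.pi * i / m := by positivity
      linarith
    have hX : ∀ (s u : ℝ), (s : ℂ) * Complex.exp (u * Complex.I) = X s u := by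
      intro s u
      rw [X_eq, er_exp]
    refine cross_gen (P := C i) (N := C j) hF.connectedComponentIn isPreconnected_connectedComponentIn
      hF.connectedComponentIn isPreconnected_connectedComponentIn hd (h0 i) (h0 j) hε
      (hlt i j hij) (hlt j k hjk) (hlt k l hkl) h41 (fun s hs hs' => ?_) (fun s hs hs' => ?_)
      (fun s hs hs' => ?_) (fun s hs hs' => ?_)
    · rw [hX]; exact hray i s hs hs'
    · rw [hX, hik]; exact hray k s hs hs'
    · rw [hX]; exact hray j s hs hs'
    · rw [hX, hjl]; exact hray l s hs hs'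
  have hcard := noncross C (2 * m) (by omega) 0 (fun i _ _ => hne i)
    (fun i j k l _ h1 h2 h3 h4 h5 h6 => hnc i j k l h1 h2 h3 (by omega) h5 h6)
  refine ⟨(Finset.Ico 0 (0 + 2 * m)).image C, by omega, fun D hD => ?_⟩
  obtain ⟨i, -, rfl⟩ := Finset.mem_image.1 hD
  exact ⟨_, hpt i, rfl⟩

/-- dihedral symmetry: `2 n` nodal domains -/
theorem dihed (h : Wat Ω lam w) (hlam : 0 < lam) (hb : Bornology.IsBounded Ω) {j : ℝ}
    (hj : 0 < j) (hJ : ∀ t : ℝ, 0 ≤ t → t < j → J 0 t ≠ 0) {n : ℕ} (hn : 2 ≤ n)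
    (hconj : ∀ x, w (conj x) = -w x) (hrot : ∀ x, w (er (2 * Real.pi / n) * x) = w x) {x0 : ℂ}
    (hx0 : w x0 ≠ 0) : (2 * (n : ℝ)) * (Real.pi * j ^ 2) ≤ lam * volume.real Ω := by
  classical
  have hpi := Real.pi_pos
  have hn1 : (2:ℝ) ≤ n := by exact_mod_cast hn
  have hn0 : (n:ℝ) ≠ 0 := by linarith
  set F : Set ℂ := {x | w x ≠ 0} with hFd
  have hw0 : ∀ r : ℝ, w r = 0 := by
    intro r
    have := hconj r
    rw [Complex.conj_ofReal] at this
    linarith
  have hρ : 0 < ‖x0‖ := by
    refine norm_pos_iff.2 fun h0 => hx0 ?_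
    rw [h0]
    exact_mod_cast hw0 0
  set τ := Complex.arg x0 + 2 * Real.pi with hτ
  have hτ0 : 0 ≤ τ := by
    have := Complex.neg_pi_lt_arg x0
    rw [hτ]; linarith
  have hx0e : (‖x0‖ : ℂ) * er τ = x0 := by
    have e1 : er τ = er (Complex.arg x0) := by
      unfold er
      rw [hτ, Real.cos_add_two_pi, Real.sin_add_two_pi]
    rw [e1, er_exp, Complex.norm_mul_exp_arg_mul_I]
  -- rotations
  have hrotk : ∀ (k : ℕ) (x : ℂ), w (er (2 * Real.pi * k / n) * x) = w x := by
    intro k
    induction k with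
    | zero =>
      intro x
      have : er (2 * Real.pi * ((0:ℕ):ℝ) / n) = 1 := by simp [er]
      rw [this, one_mul]
    | succ k ih =>
      intro x
      have e1 : 2 * Real.pi * ((k + 1 : ℕ) : ℝ) / n = 2 * Real.pi / n + 2 * Real.pi * k / n := by
        push_cast; ring
      rw [e1, er_add, mul_assoc, hrot, ih]
  have hline : ∀ (i : ℕ) (r : ℝ), w ((r : ℂ) * er (Real.pi * i / n)) = 0 := by
    intro i r
    have e1 : (r : ℂ) * er (Real.pi * i / n) =
        er (2 * Real.pi * i / n) * conj ((r : ℂ) * er (Real.pi * i / n)) := by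
      rw [map_mul, Complex.conj_ofReal, er_conj]
      have : er (Real.pi * i / n) = er (2 * Real.pi * i / n) * er (-(Real.pi * i / n)) := by
        rw [← er_add]
        congr 1
        ring
      rw [this]
      ring
    have h1 := hrotk i (conj ((r : ℂ) * er (Real.pi * i / n)))
    rw [← e1, hconj] at h1
    linarith
  -- the points
  set pt : ℕ → ℂ := fun k => (‖x0‖ : ℂ) * er (τ + 2 * Real.pi * k / n) with hpt
  have hptw : ∀ k, w (pt k) = w x0 := by
    intro k
    have e1 : pt k = er (2 * Real.pi * k / n) * x0 := by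
      simp only [hpt]
      conv_rhs => rw [← hx0e]
      rw [er_add]
      ring
    rw [e1, hrotk]
  have hptne : ∀ k, w (pt k) ≠ 0 := fun k => by rw [hptw]; exact hx0
  set D : ℕ → Set ℂ := fun k => connectedComponentIn F (pt k) with hD
  set E : ℕ → Set ℂ := fun k => connectedComponentIn F (conj (pt k)) with hE
  have hEc : ∀ k, E k = conj '' D k := fun k => comp_conj hconj (hptne k)
  have hCl : ∀ k (i : ℕ) (r : ℝ), (r : ℂ) * er (Real.pi * i / n) ∉ D k := fun k i r hmem =>
    connectedComponentIn_subset _ _ hmem (hline i r)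
  have hDlt : ∀ k l : ℕ, k < l → l < n → D k ≠ D l := by
    intro k l hkl hln heq
    have h1 : pt k ∈ D k := mem_connectedComponentIn (hptne k)
    have h2 : pt l ∈ D k := by rw [heq]; exact mem_connectedComponentIn (hptne l)
    refine mirror (C := D k) isPreconnected_connectedComponentIn hn (hCl k) hρ
      (τ := τ + 2 * Real.pi * k / n) (by positivity) (l := l - k) (by omega) (by omega) h1 ?_
    have e1 : τ + 2 * Real.pi * k / n + 2 * Real.pi * ((l - k : ℕ) : ℝ) / n =
        τ + 2 * Real.pi * l / n := by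
      rw [Nat.cast_sub hkl.le]
      ring
    rw [e1]
    exact h2
  have hDinj : Set.InjOn D (Finset.range n : Set ℕ) := by
    intro k hk l hl heq
    rw [Finset.coe_range, Set.mem_Iio] at hk hl
    rcases lt_trichotomy k l with h1 | h1 | h1
    · exact absurd heq (hDlt k l h1 hl)
    · exact h1
    · exact absurd heq.symm (hDlt l k h1 hk)
  have hEinj : Set.InjOn E (Finset.range n : Set ℕ) := by
    intro k hk l hl heq
    apply hDinj hk hl
    rw [hEc, hEc] at heq
    exact (starRingEnd ℂ).injective.image_injective heq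
  have hdisj : Disjoint ((Finset.range n).image D) ((Finset.range n).image E) := by
    rw [Finset.disjoint_left]
    intro A hA hA'
    obtain ⟨k, -, rfl⟩ := Finset.mem_image.1 hA
    obtain ⟨l, -, hl⟩ := Finset.mem_image.1 hA'
    have h1 : ∀ y ∈ D k, 0 < w x0 * w y := comp_sign h.cont (by
      rw [hptw]; exact mul_self_pos.2 hx0)
    have h2 : conj (pt l) ∈ E l := mem_connectedComponentIn (by
      change w (conj (pt l)) ≠ 0
      rw [hconj, hptw]; exact neg_ne_zero.2 hx0)
    rw [hl] at h2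
    have h3 := h1 _ h2
    rw [hconj, hptw] at h3
    nlinarith [mul_self_pos.2 hx0]
  have hcard : ((Finset.range n).image D ∪ (Finset.range n).image E).card = 2 * n := by
    rw [Finset.card_union_of_disjoint hdisj, Finset.card_image_of_injOn hDinj,
      Finset.card_image_of_injOn hEinj, Finset.card_range]
    ring
  have := sum_comp h hlam hb hj hJ ((Finset.range n).image D ∪ (Finset.range n).image E) (by
    intro A hA
    rw [Finset.mem_union] at hA
    rcases hA with hA | hA
    · obtain ⟨k, -, rfl⟩ := Finset.mem_image.1 hA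
      exact ⟨_, hptne k, rfl⟩
    · obtain ⟨k, -, rfl⟩ := Finset.mem_image.1 hA
      exact ⟨_, by rw [hconj]; exact neg_ne_zero.2 (hptne k), rfl⟩)
  rw [hcard] at this
  push_cast at this
  exact this

/-- the dichotomy with a mirror line -/
theorem Dat.dichR (D : Dat Ω lam c v) (ho : IsOpen Ω) (hb : Bornology.IsBounded Ω)
    (hcon : IsPreconnected Ω) (hreg : interior (closure Ω) = Ω) (hlam : 0 < lam) (hc : c ≠ 0)
    (h0 : (0:ℂ) ∈ Ω) {n : ℕ} (hn : 2 ≤ n) (hconj : ∀ x, v (conj x) = v x)
    (hsym : (n = 2 ∧ fderiv ℝ v 0 = 0) ∨ ∀ x, v (er (2 * Real.pi / n) * x) = v x) {j : ℝ}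
    (hj : 0 < j) (hJ : ∀ t : ℝ, 0 ≤ t → t < j → J 0 t ≠ 0) :
    (∃ r > 0, Ω = Metric.ball 0 r) ∨ (2 * (n : ℝ)) * (Real.pi * j ^ 2) ≤ lam * volume.real Ω := by
  by_cases hw : ∀ x, Lr v x = 0
  · left
    exact D.disc ho hb hcon hreg hlam hc h0 hw
  · right
    push Not at hw
    have hcw := Lr_conj D.c1 hconj
    rcases hsym with ⟨rfl, hcr⟩ | hs
    · obtain ⟨r, hr, W, hW, hl, hW0, hf⟩ := D.wat_loc h0
      obtain ⟨m, θ₀, ε, hm, hε, hm2, -, hrays⟩ := D.wat.rays hlam hcon h0 hw hr hW hl hW0
      have h00 : Lr v 0 = 0 := by simp [Lr]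
      obtain ⟨S, hS, hSc⟩ := count_set D.wat hm hε h00 hrays
      have := four D.wat hlam hb hj hJ hcw S hSc (by have := hm2 (hf hcr); omega)
      push_cast
      linarith
    · obtain ⟨x0, hx0⟩ := hw
      exact dihed D.wat hlam hb hj hJ hn hcw (fun x => Lr_inv D.c1 _ hs x) hx0

/-- a critical point on the mirror line -/
theorem Dat.critR (D : Dat Ω lam c v) (hb : Bornology.IsBounded Ω) (hne : Ω.Nonempty)
    (hcon : IsPreconnected Ω) (hinv : ∀ x, x ∈ Ω → conj x ∈ Ω) (hconj : ∀ x, v (conj x) = v x) :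
    ∃ q : ℝ, (q : ℂ) ∈ Ω ∧ fderiv ℝ v q = 0 := by
  have hvd := D.c1.differentiable (by norm_num)
  have hfd : ∀ t : ℝ, HasDerivAt (fun t : ℝ => v t) (fderiv ℝ v t 1) t := by
    intro t
    have h1 : HasDerivAt (fun t : ℝ => (t : ℂ)) 1 t := Complex.ofRealCLM.hasDerivAt
    exact (hvd (t : ℂ)).hasFDerivAt.comp_hasDerivAt t h1
  -- the normal derivative
  have hnor : ∀ t : ℝ, fderiv ℝ v t Complex.I = 0 := by
    intro t
    have h1 : HasFDerivAt (fun y : ℂ => (conj y : ℂ)) (cj : ℂ →L[ℝ] ℂ) (t : ℂ) := cj.hasFDerivAt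
    have h2 : HasFDerivAt (fun y => v (conj y)) ((fderiv ℝ v (conj (t : ℂ))).comp cj) (t : ℂ) :=
      (hvd (conj (t : ℂ))).hasFDerivAt.comp (t : ℂ) h1
    have h3 : (fun y => v (conj y)) = v := funext hconj
    rw [h3, Complex.conj_ofReal] at h2
    have h4 : fderiv ℝ v t Complex.I = fderiv ℝ v t (conj Complex.I) := by
      conv_lhs => rw [h2.fderiv]
      rfl
    rw [Complex.conj_I, map_neg] at h4
    linarith
  suffices h : ∃ q : ℝ, (q : ℂ) ∈ Ω ∧ fderiv ℝ v q 1 = 0 by
    obtain ⟨q, hq, h1⟩ := h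
    refine ⟨q, hq, ?_⟩
    ext y
    rw [lin_val, h1, hnor]
    simp
  have hvc := D.c1.continuous
  by_cases hall : ∀ t : ℝ, v t = 0
  · -- a real point of the domain
    obtain ⟨x, hx⟩ := hne
    have hex : ∃ q : ℝ, (q : ℂ) ∈ Ω := by
      have hc : ContinuousOn (fun z : ℂ => z.im) Ω := Complex.continuous_im.continuousOn
      have hx' := hinv x hx
      rcases le_total x.im 0 with h1 | h1
      · obtain ⟨z, hz, hz0⟩ := hcon.intermediate_value hx hx' hc
          (show (0:ℝ) ∈ Icc _ _ from ⟨h1, by simp only [Complex.conj_im]; linarith⟩)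
        have hz1 : z.im = 0 := hz0
        exact ⟨z.re, by
          have : ((z.re : ℝ) : ℂ) = z := by apply Complex.ext <;> simp [hz1]
          rw [this]; exact hz⟩
      · obtain ⟨z, hz, hz0⟩ := hcon.intermediate_value hx' hx hc
          (show (0:ℝ) ∈ Icc _ _ from ⟨by simp only [Complex.conj_im]; linarith, h1⟩)
        have hz1 : z.im = 0 := hz0
        exact ⟨z.re, by
          have : ((z.re : ℝ) : ℂ) = z := by apply Complex.ext <;> simp [hz1]
          rw [this]; exact hz⟩
    obtain ⟨q, hq⟩ := hex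
    refine ⟨q, hq, ?_⟩
    have h1 : (fun t : ℝ => v t) = fun _ => 0 := funext hall
    have h2 := hfd q
    rw [h1] at h2
    exact h2.unique (hasDerivAt_const q (0:ℝ))
  · push Not at hall
    obtain ⟨y, hy⟩ := hall
    obtain ⟨C, hC⟩ := hb.exists_norm_le
    have hcs : HasCompactSupport (fun t : ℝ => v t) := by
      refine HasCompactSupport.intro (isCompact_Icc (a := -C) (b := C)) fun t ht => ?_
      refine D.out _ fun h => ht ?_
      have := hC _ h
      rw [Complex.norm_real, Real.norm_eq_abs, abs_le] at this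
      exact this
    have hfc : Continuous (fun t : ℝ => v t) := hvc.comp Complex.continuous_ofReal
    have hlim : Tendsto (fun t : ℝ => v t) (cocompact ℝ) (𝓝 0) := hcs.is_zero_at_infty
    rcases lt_or_gt_of_ne hy with hneg | hpos
    · obtain ⟨q, hq⟩ := hfc.exists_forall_le' (x₀ := y) (hlim.eventually_const_le hneg)
      refine ⟨q, ?_, ?_⟩
      · by_contra hqn
        have := hq y
        rw [D.out q hqn] at this
        linarith
      · have : IsLocalMin (fun t : ℝ => v t) q := Eventually.of_forall hq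
        exact this.hasDerivAt_eq_zero (hfd q)
    · obtain ⟨q, hq⟩ := hfc.exists_forall_ge' (x₀ := y) (hlim.eventually_le_const hpos)
      refine ⟨q, ?_, ?_⟩
      · by_contra hqn
        have := hq y
        rw [D.out q hqn] at this
        linarith
      · have : IsLocalMax (fun t : ℝ => v t) q := Eventually.of_forall hq
        exact this.hasDerivAt_eq_zero (hfd q)

end Pool.Agent.R227.SA
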