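import Pool.Agent.R227.SA19

/-! Domains with a mirror line: the main theorem. -/

set_option autoImplicit false

open MeasureTheory Set Filter
open scoped Topology ContDiff ComplexConjugate

namespace Pool.Agent.R227.SA

open Pool.Agent.TH298.Sch (X er et dd SC Sol X_cont norm_X dd_sc X_eq er_exp Lr mp_rot me_rot)
open TH259.NS (B J)

variable {Ω : Set ℂ} {lam c : ℝ} {v w : ℂ → ℝ}

/-- admissible domains -/
structure Adm (Ω : Set ℂ) : Prop where
  ho : IsOpen Ω
  hb : Bornology.IsBounded Ω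
  hcon : IsPreconnected Ω
  hreg : interior (closure Ω) = Ω

lemma Adm.homeo (h : Adm Ω) (H : ℂ ≃ₜ ℂ) {K : ℝ} (hK : ∀ x, ‖x‖ ≤ ‖H x‖ + K) : Adm (H ⁻¹' Ω) := by
  refine ⟨h.ho.preimage H.continuous, ?_, ?_, ?_⟩
  · obtain ⟨C, hC⟩ := h.hb.exists_norm_le
    rw [isBounded_iff_forall_norm_le]
    refine ⟨C + K, fun x hx => ?_⟩
    have := hC (H x) hx
    linarith [hK x]
  · rw [← H.image_symm]
    exact h.hcon.image _ H.symm.continuous.continuousOn
  · rw [← H.preimage_closure, ← H.preimage_interior, h.hreg]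

lemma er_ne (t : ℝ) : er t ≠ 0 := by
  rw [← norm_ne_zero_iff, norm_er]
  norm_num

lemma Adm.trans (h : Adm Ω) (p : ℂ) : Adm ((fun x => x + p) ⁻¹' Ω) :=
  h.homeo (Homeomorph.addRight p) (K := ‖p‖) fun x => by
    change ‖x‖ ≤ ‖x + p‖ + ‖p‖
    have := norm_sub_le (x + p) p
    rwa [add_sub_cancel_right] at this

lemma Adm.rot (h : Adm Ω) (t : ℝ) : Adm ((fun x => er t * x) ⁻¹' Ω) :=
  h.homeo (Homeomorph.mulLeft₀ _ (er_ne t)) (K := 0) fun x => by
    change ‖x‖ ≤ ‖er t * x‖ + 0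
    rw [norm_mul, norm_er]
    linarith

lemma vol_trans (p : ℂ) : volume.real ((fun x => x + p) ⁻¹' Ω) = volume.real Ω := by
  simp only [Measure.real]
  rw [measure_preimage_add_right]

lemma vol_rot (t : ℝ) : volume.real ((fun x => er t * x) ⁻¹' Ω) = volume.real Ω := by
  simp only [Measure.real]
  rw [(mp_rot (norm_er t)).measure_preimage_emb (me_rot (norm_er t))]

lemma ball_trans {p : ℂ} {r : ℝ} (h : (fun x => x + p) ⁻¹' Ω = Metric.ball 0 r) :
    Ω = Metric.ball p r := by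
  ext z
  have h1 : z ∈ Ω ↔ z - p ∈ (fun x => x + p) ⁻¹' Ω := by
    change z ∈ Ω ↔ z - p + p ∈ Ω
    rw [sub_add_cancel]
  rw [h1, h, Metric.mem_ball, Metric.mem_ball, dist_zero_right, dist_eq_norm]

lemma ball_trans' {p q : ℂ} {r : ℝ} (h : (fun x => x + p) ⁻¹' Ω = Metric.ball q r) :
    Ω = Metric.ball (q + p) r := by
  ext z
  have h1 : z ∈ Ω ↔ z - p ∈ (fun x => x + p) ⁻¹' Ω := by
    change z ∈ Ω ↔ z - p + p ∈ Ω
    rw [sub_add_cancel]
  rw [h1, h, Metric.mem_ball, Metric.mem_ball, dist_eq_norm, dist_eq_norm]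
  rw [show z - p - q = z - (q + p) by ring]

lemma ball_rot {q : ℂ} {t r : ℝ} (h : (fun x => er t * x) ⁻¹' Ω = Metric.ball q r) :
    Ω = Metric.ball (er t * q) r := by
  have hinv : ∀ z, er t * (er (-t) * z) = z := by
    intro z
    rw [← mul_assoc, ← er_add]
    simp [er]
  ext z
  have h1 : z ∈ Ω ↔ er (-t) * z ∈ (fun x => er t * x) ⁻¹' Ω := by
    change z ∈ Ω ↔ er t * (er (-t) * z) ∈ Ω
    rw [hinv]
  rw [h1, h, Metric.mem_ball, Metric.mem_ball, dist_eq_norm, dist_eq_norm]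
  have h2 : ‖er (-t) * z - q‖ = ‖z - er t * q‖ := by
    have : z - er t * q = er t * (er (-t) * z - q) := by
      rw [mul_sub, hinv]
    rw [this, norm_mul, norm_er, one_mul]
  rw [h2]

/-- the main theorem with a mirror line -/
theorem mainR {u : ℂ → ℝ} {G : ℂ → ℂ} (ho : IsOpen Ω) (hb : Bornology.IsBounded Ω)
    (hne : Ω.Nonempty) (hcon : IsPreconnected Ω) (hreg : interior (closure Ω) = Ω) (hlam : 0 < lam)
    (hc : c ≠ 0) (h : Sol Ω lam c u G) {n : ℕ} (hn : 2 ≤ n) {p : ℂ} {t : ℝ}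
    (hrefl : ∀ z ∈ Ω, p + er t ^ 2 * conj (z - p) ∈ Ω)
    (hsym : n = 2 ∨ (p ∈ Ω ∧ ∀ z ∈ Ω, p + er (2 * Real.pi / n) * (z - p) ∈ Ω)) {j : ℝ}
    (hj : 0 < j) (hJ : ∀ t : ℝ, 0 ≤ t → t < j → J 0 t ≠ 0)
    (harea : lam * volume.real Ω < (2 * (n : ℝ)) * (Real.pi * j ^ 2)) :
    ∃ (p : ℂ) (r : ℝ), 0 < r ∧ Ω = Metric.ball p r ∧ J 1 (Real.sqrt lam * r) = 0 := by
  have hpi := Real.pi_pos
  obtain ⟨v, D⟩ := dat_of_sol ho hb hreg hlam h
  suffices hq : ∃ (p : ℂ) (r : ℝ), 0 < r ∧ Ω = Metric.ball p r by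
    obtain ⟨p, r, hr, hΩ⟩ := hq
    refine ⟨p, r, hr, hΩ, ?_⟩
    rw [hΩ] at h
    exact Pool.Agent.TH298.AN.ball_J1 hr hlam hc h
  have hA : Adm Ω := ⟨ho, hb, hcon, hreg⟩
  set Ω0 : Set ℂ := (fun x => x + p) ⁻¹' Ω with hΩ0
  set Ω1 : Set ℂ := (fun x => er t * x) ⁻¹' Ω0 with hΩ1
  have hA1 : Adm Ω1 := (hA.trans p).rot t
  have D1 : Dat Ω1 lam c (fun x => v (er t * x + p)) := (D.trans p).rotG t
  have hvol1 : volume.real Ω1 = volume.real Ω := by rw [hΩ1, vol_rot, hΩ0, vol_trans]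
  have hmem : ∀ x, x ∈ Ω1 ↔ er t * x + p ∈ Ω := fun x => Iff.rfl
  have hinv1 : ∀ x, x ∈ Ω1 → conj x ∈ Ω1 := by
    intro x hx
    rw [hmem] at hx ⊢
    have h1 := hrefl _ hx
    rw [add_sub_cancel_right, map_mul, er_conj] at h1
    have e1 : er t ^ 2 * (er (-t) * conj x) = er t * conj x := by
      have : er t * er (-t) = 1 := by rw [← er_add]; simp [er]
      calc er t ^ 2 * (er (-t) * conj x) = er t * (er t * er (-t)) * conj x := by ring
        _ = er t * conj x := by rw [this, mul_one]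
    rw [e1, add_comm] at h1
    exact h1
  have hinv : ∀ x, x ∈ Ω1 ↔ conj x ∈ Ω1 := fun x => ⟨hinv1 x, fun hx => by
    have := hinv1 _ hx
    rwa [Complex.conj_conj] at this⟩
  have hne1 : Ω1.Nonempty := by
    obtain ⟨x, hx⟩ := hne
    refine ⟨er (-t) * (x - p), ?_⟩
    rw [hmem]
    have : er t * (er (-t) * (x - p)) = x - p := by
      rw [← mul_assoc, ← er_add]; simp [er]
    rw [this, sub_add_cancel]
    exact hx
  suffices hq : ∃ (p : ℂ) (r : ℝ), 0 < r ∧ Ω1 = Metric.ball p r by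
    obtain ⟨q, r, hr, hΩq⟩ := hq
    exact ⟨_, r, hr, ball_trans' (ball_rot hΩq)⟩
  rcases hsym with rfl | ⟨hp, hrot⟩
  · -- only the mirror line
    have D2 := D1.symC hinv
    set v2 : ℂ → ℝ := fun x => 1 / 2 * v (er t * x + p) + 1 / 2 * v (er t * conj x + p) with hv2
    have D2' : Dat Ω1 lam c v2 := D2
    have hcj : ∀ x, v2 (conj x) = v2 x := by
      intro x
      simp only [hv2, Complex.conj_conj]
      ring
    obtain ⟨q, hq, hcr⟩ := D2'.critR hA1.hb hne1 hA1.hcon hinv1 hcj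
    have D3 := D2'.trans q
    have hA3 := hA1.trans (q : ℂ)
    have h03 : (0:ℂ) ∈ (fun x => x + (q : ℂ)) ⁻¹' Ω1 := by
      change 0 + (q : ℂ) ∈ Ω1
      rwa [zero_add]
    have hcj3 : ∀ x, v2 (conj x + q) = v2 (x + q) := by
      intro x
      rw [← hcj (x + q), map_add, Complex.conj_ofReal]
    have hcr3 : fderiv ℝ (fun x => v2 (x + q)) 0 = 0 := by
      rw [fderiv_comp_add_right, zero_add]
      exact hcr
    rcases D3.dichR hA3.ho hA3.hb hA3.hcon hA3.hreg hlam hc h03 hn hcj3 (Or.inl ⟨rfl, hcr3⟩) hj hJ with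
      ⟨r, hr, hball⟩ | hcount
    · exact ⟨q, r, hr, ball_trans hball⟩
    · rw [vol_trans, hvol1] at hcount
      linarith
  · -- dihedral symmetry
    have hroot : er (2 * Real.pi / n) ^ n = 1 := by
      have hn0 : (n : ℂ) ≠ 0 := by
        have : n ≠ 0 := by omega
        exact_mod_cast this
      rw [er_exp, ← Complex.exp_nat_mul]
      have : (n : ℂ) * (((2 * Real.pi / n : ℝ) : ℂ) * Complex.I) = 2 * Real.pi * Complex.I := by
        push_cast
        field_simp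
      rw [this, Complex.exp_two_pi_mul_I]
    have h1 : ∀ x, x ∈ Ω1 → er (2 * Real.pi / n) * x ∈ Ω1 := by
      intro x hx
      rw [hmem] at hx ⊢
      have := hrot _ hx
      rw [add_sub_cancel_right] at this
      have e1 : er t * (er (2 * Real.pi / n) * x) + p = p + er (2 * Real.pi / n) * (er t * x) := by ring
      rw [e1]
      exact this
    have h2 : ∀ k : ℕ, ∀ x, x ∈ Ω1 → er (2 * Real.pi / n) ^ k * x ∈ Ω1 := by
      intro k
      induction k with
      | zero => intro x hx; simpa using hx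
      | succ k ih =>
        intro x hx
        rw [pow_succ, mul_assoc]
        exact ih _ (h1 x hx)
    have h3 : ∀ x, x ∈ Ω1 ↔ er (2 * Real.pi / n) * x ∈ Ω1 := by
      intro x
      refine ⟨h1 x, fun hx => ?_⟩
      have h4 := h2 (n - 1) _ hx
      rw [← mul_assoc, ← pow_succ, Nat.sub_add_cancel (by omega), hroot, one_mul] at h4
      exact h4
    obtain ⟨v', D', hv'⟩ := D1.symm _ h3 (by omega : 1 ≤ n) hroot
    have D2 := D'.symC hinv
    set v2 : ℂ → ℝ := fun x => 1 / 2 * v' x + 1 / 2 * v' (conj x) with hv2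
    have D2' : Dat Ω1 lam c v2 := D2
    have hcj : ∀ x, v2 (conj x) = v2 x := by
      intro x
      simp only [hv2, Complex.conj_conj]
      ring
    have hrt : ∀ x, v2 (er (2 * Real.pi / n) * x) = v2 x := by
      intro x
      simp only [hv2]
      rw [hv', map_mul, er_conj]
      have e1 : v' (er (-(2 * Real.pi / n)) * conj x) = v' (conj x) := by
        rw [← hv' (er (-(2 * Real.pi / n)) * conj x), ← mul_assoc, ← er_add]
        simp [er]
      rw [e1]
    have h01 : (0:ℂ) ∈ Ω1 := by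
      rw [hmem, mul_zero, zero_add]
      exact hp
    rcases D2'.dichR hA1.ho hA1.hb hA1.hcon hA1.hreg hlam hc h01 hn hcj (Or.inr hrt) hj hJ with
      ⟨r, hr, hball⟩ | hcount
    · exact ⟨0, r, hr, hball⟩
    · rw [hvol1] at hcount
      linarith

end Pool.Agent.R227.SA
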