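import Mathlib
import Pool.Agent.H821R3.Wirt

/-! One-dimensional inequalities on the components of an open set of the line. -/

set_option autoImplicit false

open MeasureTheory Set Filter
open scoped Topology

namespace Pool.Agent.R227.SA

/-- calibration by the cotangent -/
lemma cal {g g' : ℝ → ℝ} (hg : ∀ x, HasDerivAt g (g' x) x) (hg' : Continuous g') {A p q : ℝ}
    (hp : A ≤ p) (hpq : p ≤ q) (hq : q ≤ A + Real.pi) (h1 : p = A → g p = 0)
    (h2 : q = A + Real.pi → g q = 0) :
    g q ^ 2 * Real.cos (q - A) / Real.sin (q - A) - g p ^ 2 * Real.cos (p - A) / Real.sin (p - A) ≤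
      ∫ x in p..q, ((g' x) ^ 2 - (g x) ^ 2) := by
  rcases hpq.eq_or_lt with h | hlt
  · subst h
    simp
  have hgc : Continuous g := continuous_iff_continuousAt.2 (fun x => (hg x).continuousAt)
  have hQ : Continuous (fun t => (g' t) ^ 2 - (g t) ^ 2) := (hg'.pow 2).sub (hgc.pow 2)
  have hprim : ∀ x, HasDerivAt (fun u => ∫ t in p..u, ((g' t) ^ 2 - (g t) ^ 2))
      ((g' x) ^ 2 - (g x) ^ 2) x := fun x => (hQ.integral_hasStrictDerivAt p x).hasDerivAt
  have hsin : ∀ x, HasDerivAt (fun x => Real.sin (x - A)) (Real.cos (x - A)) x := by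
    intro x
    exact (Real.hasDerivAt_sin (x - A)).comp_sub_const x A
  have hcos : ∀ x, HasDerivAt (fun x => Real.cos (x - A)) (- Real.sin (x - A)) x := by
    intro x
    exact (Real.hasDerivAt_cos (x - A)).comp_sub_const x A
  have hcosc : Continuous (fun x => Real.cos (x - A)) :=
    continuous_iff_continuousAt.2 (fun x => (hcos x).continuousAt)
  have hsinpos : ∀ x, A < x → x < A + Real.pi → 0 < Real.sin (x - A) := by
    intro x h1 h2
    exact Real.sin_pos_of_pos_of_lt_pi (by linarith) (by linarith)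
  have hder : ∀ x, A < x → x < A + Real.pi →
      HasDerivAt (fun u => (∫ t in p..u, ((g' t) ^ 2 - (g t) ^ 2))
        - g u ^ 2 * Real.cos (u - A) / Real.sin (u - A))
        ((g' x - g x * Real.cos (x - A) / Real.sin (x - A)) ^ 2) x := by
    intro x h1 h2
    have hs := hsinpos x h1 h2
    have h3 : HasDerivAt (fun u => g u ^ 2) (2 * g x * g' x) x := by
      have := (hg x).mul (hg x)
      have e1 : (fun u => g u ^ 2) = g * g := by funext u; simp [sq]
      rw [e1]
      have e2 : 2 * g x * g' x = g' x * g x + g x * g' x := by ring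
      rw [e2]
      exact this
    have h4 := (h3.mul (hcos x)).div (hsin x) hs.ne'
    have h5 := (hprim x).sub h4
    have hsc := Real.sin_sq_add_cos_sq (x - A)
    refine HasDerivAt.congr_deriv h5 ?_
    simp only [Pi.mul_apply]
    have hne := hs.ne'
    generalize Real.sin (x - A) = s at *
    generalize Real.cos (x - A) = c at *
    generalize g x = y at *
    generalize g' x = z at *
    have hc2 : c ^ 2 = 1 - s ^ 2 := by linarith
    field_simp
    ring
  have hcontG : ∀ x ∈ Icc p q,
      ContinuousAt (fun u => g u ^ 2 * Real.cos (u - A) / Real.sin (u - A)) x := by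
    intro x hx
    rcases (hp.trans hx.1).eq_or_lt with h3 | h3
    · have hxp : x = p := le_antisymm (by linarith) hx.1
      have hx0 : g x = 0 := by rw [hxp]; exact h1 (by linarith)
      have hxA : x = A := h3.symm
      exact Pool.Agent.H821R3.wirt_cont g (fun u => Real.sin (u - A)) (fun u => Real.cos (u - A)) x
        _ _ (hg x) (hsin x) hx0 (by simp [hxA]) (by simp [hxA]) hcosc.continuousAt
    · rcases (hx.2.trans hq).eq_or_lt with h4 | h4
      · have hxq : x = q := le_antisymm hx.2 (by linarith)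
        have hx0 : g x = 0 := by rw [hxq]; exact h2 (by linarith)
        exact Pool.Agent.H821R3.wirt_cont g (fun u => Real.sin (u - A))
          (fun u => Real.cos (u - A)) x _ _ (hg x) (hsin x) hx0 (by simp [h4]) (by simp [h4])
          hcosc.continuousAt
      · exact ((hgc.continuousAt.pow 2).mul hcosc.continuousAt).div (hsin x).continuousAt
          (hsinpos x h3 h4).ne'
  have hmono : MonotoneOn (fun u => (∫ t in p..u, ((g' t) ^ 2 - (g t) ^ 2))
        - g u ^ 2 * Real.cos (u - A) / Real.sin (u - A)) (Icc p q) := by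
    apply monotoneOn_of_deriv_nonneg (convex_Icc _ _)
    · intro x hx
      exact ((hprim x).continuousAt.sub (hcontG x hx)).continuousWithinAt
    · intro x hx
      rw [interior_Icc] at hx
      exact (hder x (by linarith [hx.1]) (by linarith [hx.2])).differentiableAt.differentiableWithinAt
    · intro x hx
      rw [interior_Icc] at hx
      rw [(hder x (by linarith [hx.1]) (by linarith [hx.2])).deriv]
      positivity
  have h8 := hmono (left_mem_Icc.2 hpq) (right_mem_Icc.2 hpq) hpq
  simp only [intervalIntegral.integral_same] at h8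
  linarith

/-- the mean value inequality on an interval of length `2π` with equal end values -/
lemma per2 {f f' : ℝ → ℝ} (hf : ∀ x, HasDerivAt f (f' x) x) (hf' : Continuous f') (a : ℝ)
    (hab : f a = f (a + 2 * Real.pi)) :
    (∫ x in a..(a + 2 * Real.pi), (f x) ^ 2) -
      1 / (2 * Real.pi) * (∫ x in a..(a + 2 * Real.pi), f x) ^ 2 ≤
      ∫ x in a..(a + 2 * Real.pi), (f' x) ^ 2 := by
  have hpi := Real.pi_pos
  have hfc : Continuous f := continuous_iff_continuousAt.2 (fun x => (hf x).continuousAt)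
  obtain ⟨s, hs, hs2⟩ : ∃ s ∈ Icc 0 Real.pi, f (a + s) = f (a + s + Real.pi) := by
    have hD : ContinuousOn (fun s => f (a + s) - f (a + s + Real.pi)) (Icc 0 Real.pi) :=
      ((hfc.comp (by fun_prop)).sub (hfc.comp (by fun_prop))).continuousOn
    have e0 : f (a + 0) - f (a + 0 + Real.pi) = f a - f (a + Real.pi) := by simp
    have e1 : f (a + Real.pi) - f (a + Real.pi + Real.pi) = -(f a - f (a + Real.pi)) := by
      rw [show a + Real.pi + Real.pi = a + 2 * Real.pi by ring, ← hab]
      ring
    rcases le_total (f a - f (a + Real.pi)) 0 with h | h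
    · have := intermediate_value_Icc hpi.le hD
      obtain ⟨s, hs, hs2⟩ := this (show (0:ℝ) ∈ Icc _ _ from ⟨by simpa using h, by
        show 0 ≤ f (a + Real.pi) - f (a + Real.pi + Real.pi)
        rw [e1]; linarith⟩)
      exact ⟨s, hs, sub_eq_zero.1 hs2⟩
    · have := intermediate_value_Icc' hpi.le hD
      obtain ⟨s, hs, hs2⟩ := this (show (0:ℝ) ∈ Icc _ _ from ⟨by
        show f (a + Real.pi) - f (a + Real.pi + Real.pi) ≤ 0
        rw [e1]; linarith, by simpa using h⟩)
      exact ⟨s, hs, sub_eq_zero.1 hs2⟩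
  set c := f (a + s) with hc
  set g : ℝ → ℝ := fun x => f x - c with hgd
  have hg : ∀ x, HasDerivAt g (f' x) x := fun x => (hf x).sub_const c
  have hgc : Continuous g := hfc.sub continuous_const
  have gs : g (a + s) = 0 := by simp [hgd, hc]
  have gs2 : g (a + s + Real.pi) = 0 := by simp [hgd, ← hs2]
  have gab : g a = g (a + 2 * Real.pi) := by simp [hgd, hab]
  have k1 := cal hg hf' (A := a + s - Real.pi) (p := a) (q := a + s) (by linarith [hs.2])
    (by linarith [hs.1]) (by linarith) (fun h => by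
      have : s = Real.pi := by linarith
      rw [gab, show a + 2 * Real.pi = a + s + Real.pi by rw [this]; ring]
      exact gs2) (fun _ => gs)
  have k2 := cal hg hf' (A := a + s) (p := a + s) (q := a + s + Real.pi) le_rfl
    (by linarith) le_rfl (fun _ => gs) (fun _ => gs2)
  have k3 := cal hg hf' (A := a + s + Real.pi) (p := a + s + Real.pi) (q := a + 2 * Real.pi) le_rfl
    (by linarith [hs.2]) (by linarith [hs.1]) (fun _ => gs2) (fun h => by
      have : s = 0 := by linarith
      rw [← gab, show a = a + s by rw [this]; ring]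
      exact gs)
  rw [gs] at k1
  rw [gs, gs2] at k2
  rw [gs2, ← gab] at k3
  rw [show a - (a + s - Real.pi) = Real.pi - s by ring] at k1
  rw [show a + 2 * Real.pi - (a + s + Real.pi) = Real.pi - s by ring] at k3
  have hQ : Continuous (fun t => (f' t) ^ 2 - (g t) ^ 2) := (hf'.pow 2).sub (hgc.pow 2)
  have hI : ∀ p q, IntervalIntegrable (fun t => (f' t) ^ 2 - (g t) ^ 2) volume p q :=
    fun p q => hQ.intervalIntegrable _ _
  have e1 := intervalIntegral.integral_add_adjacent_intervals (hI a (a + s)) (hI (a + s) (a + s + Real.pi))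
  have e2 := intervalIntegral.integral_add_adjacent_intervals (hI a (a + s + Real.pi))
    (hI (a + s + Real.pi) (a + 2 * Real.pi))
  have k4 : 0 ≤ ∫ t in a..(a + 2 * Real.pi), ((f' t) ^ 2 - (g t) ^ 2) := by
    rw [← e2, ← e1]
    norm_num at k1 k2 k3
    linarith
  have e3 : ∫ t in a..(a + 2 * Real.pi), ((f' t) ^ 2 - (g t) ^ 2) =
      (∫ t in a..(a + 2 * Real.pi), (f' t) ^ 2) - ∫ t in a..(a + 2 * Real.pi), (g t) ^ 2 :=
    intervalIntegral.integral_sub (f := fun t => (f' t) ^ 2) (g := fun t => (g t) ^ 2)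
      ((hf'.pow 2).intervalIntegrable _ _) ((hgc.pow 2).intervalIntegrable _ _)
  have e4 : ∫ t in a..(a + 2 * Real.pi), (g t) ^ 2 = (∫ t in a..(a + 2 * Real.pi), (f t) ^ 2) -
      2 * c * (∫ t in a..(a + 2 * Real.pi), f t) + 2 * Real.pi * c ^ 2 := by
    have i1 : IntervalIntegrable (fun t => (f t) ^ 2) volume a (a + 2 * Real.pi) :=
      (hfc.pow 2).intervalIntegrable _ _
    have i2 : IntervalIntegrable (fun t => 2 * c * f t) volume a (a + 2 * Real.pi) :=
      (continuous_const.mul hfc).intervalIntegrable _ _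
    have i3 : IntervalIntegrable (fun _ : ℝ => c ^ 2) volume a (a + 2 * Real.pi) :=
      intervalIntegrable_const
    have : ∀ t, (g t) ^ 2 = (f t) ^ 2 - 2 * c * f t + c ^ 2 := fun t => by simp only [hgd]; ring
    simp only [this]
    rw [intervalIntegral.integral_add (i1.sub i2) i3, intervalIntegral.integral_sub i1 i2,
      intervalIntegral.integral_const_mul, intervalIntegral.integral_const]
    simp only [add_sub_cancel_left, smul_eq_mul]
  set M := ∫ t in a..(a + 2 * Real.pi), f t
  have h5 : 0 ≤ (2 * Real.pi * c - M) ^ 2 / (2 * Real.pi) := by positivity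
  have h6 : (2 * Real.pi * c - M) ^ 2 / (2 * Real.pi) =
      2 * Real.pi * c ^ 2 - 2 * c * M + 1 / (2 * Real.pi) * M ^ 2 := by
    field_simp
    ring
  linarith

/-- scaling: the mean value inequality on an interval -/
lemma per_int {f f' : ℝ → ℝ} (hf : ∀ x, HasDerivAt f (f' x) x) (hf' : Continuous f') {a b : ℝ}
    (hab : a < b) (h : f a = f b) :
    (2 * Real.pi / (b - a)) ^ 2 * ((∫ x in a..b, (f x) ^ 2) - 1 / (b - a) * (∫ x in a..b, f x) ^ 2) ≤
      ∫ x in a..b, (f' x) ^ 2 := by
  have hpi := Real.pi_pos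
  have hl : 0 < b - a := by linarith
  set κ := (b - a) / (2 * Real.pi) with hκ
  have hκ0 : 0 < κ := by positivity
  have hF : ∀ x, HasDerivAt (fun x => f (a + κ * x)) (κ * f' (a + κ * x)) x := by
    intro x
    have h1 : HasDerivAt (fun x => a + κ * x) κ x := by
      simpa using ((hasDerivAt_id x).const_mul κ).const_add a
    have := (hf (a + κ * x)).comp x h1
    rw [mul_comm]
    exact this
  have h1 := per2 hF (by fun_prop) 0 (by
    simp only [mul_zero, add_zero, zero_add]
    rw [h]
    congr 1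
    rw [hκ]
    field_simp
    ring)
  have key : ∀ G : ℝ → ℝ, ∫ x in (0:ℝ)..(0 + 2 * Real.pi), G (a + κ * x) =
      κ⁻¹ * ∫ x in a..b, G x := by
    intro G
    rw [intervalIntegral.integral_comp_add_mul G hκ0.ne' a, mul_zero, add_zero, zero_add,
      smul_eq_mul, show a + κ * (2 * Real.pi) = b by rw [hκ]; field_simp; ring]
  rw [key (fun x => (f x) ^ 2), key f] at h1
  have e3 : ∫ x in (0:ℝ)..(0 + 2 * Real.pi), (κ * f' (a + κ * x)) ^ 2 =
      κ ^ 2 * (κ⁻¹ * ∫ x in a..b, (f' x) ^ 2) := by
    rw [← key (fun x => (f' x) ^ 2), ← intervalIntegral.integral_const_mul]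
    refine intervalIntegral.integral_congr fun x _ => ?_
    ring
  rw [e3] at h1
  have e4 : (2 * Real.pi / (b - a)) ^ 2 = (κ ^ 2)⁻¹ := by
    rw [hκ]
    field_simp
  have e5 : 1 / (b - a) = κ⁻¹ * (1 / (2 * Real.pi)) := by
    rw [hκ]
    field_simp
  rw [e4, e5]
  set P := ∫ x in a..b, (f x) ^ 2
  set Q := ∫ x in a..b, f x
  set R := ∫ x in a..b, (f' x) ^ 2
  have h2 : κ⁻¹ * (P - κ⁻¹ * (1 / (2 * Real.pi)) * Q ^ 2) ≤ κ⁻¹ * (κ ^ 2 * R) := by
    have : κ⁻¹ * (P - κ⁻¹ * (1 / (2 * Real.pi)) * Q ^ 2) =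
        κ⁻¹ * P - 1 / (2 * Real.pi) * (κ⁻¹ * Q) ^ 2 := by ring
    rw [this]
    linarith
  have h3 := le_of_mul_le_mul_left h2 (inv_pos.2 hκ0)
  rw [inv_mul_le_iff₀ (by positivity)]
  exact h3

/-- scaling: the Dirichlet inequality on an interval -/
lemma dir_int {f f' : ℝ → ℝ} (hf : ∀ x, HasDerivAt f (f' x) x) (hf' : Continuous f') {a b : ℝ}
    (hab : a < b) (ha : f a = 0) (hb : f b = 0) :
    (Real.pi / (b - a)) ^ 2 * (∫ x in a..b, (f x) ^ 2) ≤ ∫ x in a..b, (f' x) ^ 2 := by
  have hpi := Real.pi_pos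
  have hl : 0 < b - a := by linarith
  set κ := (b - a) / Real.pi with hκ
  have hκ0 : 0 < κ := by positivity
  have hF : ∀ x, HasDerivAt (fun x => f (a + κ * x)) (κ * f' (a + κ * x)) x := by
    intro x
    have h1 : HasDerivAt (fun x => a + κ * x) κ x := by
      simpa using ((hasDerivAt_id x).const_mul κ).const_add a
    have := (hf (a + κ * x)).comp x h1
    rw [mul_comm]
    exact this
  have hend : a + κ * (0 + Real.pi) = b := by
    rw [hκ]
    field_simp
    ring
  have h1 := Pool.Agent.H821R3.wirt_seg _ _ hF (by fun_prop) 0 (by simpa using ha)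
    (by rw [hend]; exact hb)
  have key : ∀ G : ℝ → ℝ, ∫ x in (0:ℝ)..(0 + Real.pi), G (a + κ * x) = κ⁻¹ * ∫ x in a..b, G x := by
    intro G
    rw [intervalIntegral.integral_comp_add_mul G hκ0.ne' a, mul_zero, add_zero, hend, smul_eq_mul]
  rw [key (fun x => (f x) ^ 2)] at h1
  have e3 : ∫ x in (0:ℝ)..(0 + Real.pi), (κ * f' (a + κ * x)) ^ 2 =
      κ ^ 2 * (κ⁻¹ * ∫ x in a..b, (f' x) ^ 2) := by
    rw [← key (fun x => (f' x) ^ 2), ← intervalIntegral.integral_const_mul]
    refine intervalIntegral.integral_congr fun x _ => ?_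
    ring
  rw [e3] at h1
  have e4 : (Real.pi / (b - a)) ^ 2 = (κ ^ 2)⁻¹ := by
    rw [hκ]
    field_simp
  rw [e4]
  set P := ∫ x in a..b, (f x) ^ 2
  set R := ∫ x in a..b, (f' x) ^ 2
  have h2 : κ⁻¹ * P ≤ κ⁻¹ * (κ ^ 2 * R) := by linarith
  have h3 := le_of_mul_le_mul_left h2 (inv_pos.2 hκ0)
  rw [inv_mul_le_iff₀ (by positivity)]
  exact h3

/-- a component of a bounded open set of the line is an open interval with end points outside -/
lemma comp_ioo {O : Set ℝ} (ho : IsOpen O) (hb : Bornology.IsBounded O) {x : ℝ} (hx : x ∈ O) :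
    ∃ a b, a < b ∧ connectedComponentIn O x = Ioo a b ∧ a ∉ O ∧ b ∉ O := by
  set I := connectedComponentIn O x with hI
  have hIo : IsOpen I := ho.connectedComponentIn
  have hIp : IsPreconnected I := isPreconnected_connectedComponentIn
  have hxI : x ∈ I := mem_connectedComponentIn hx
  have hIO : I ⊆ O := connectedComponentIn_subset _ _
  have hIb : Bornology.IsBounded I := hb.subset hIO
  have hbb : BddBelow I := hIb.bddBelow
  have hba : BddAbove I := hIb.bddAbove
  have hIc : IsConnected I := ⟨⟨x, hxI⟩, hIp⟩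
  have hsub := hIc.Ioo_csInf_csSup_subset hbb hba
  set a := sInf I with ha
  set b := sSup I with hbd
  have haI : a ∉ I := by
    intro h
    obtain ⟨ε, hε, hball⟩ := Metric.isOpen_iff.1 hIo a h
    have h1 : a - ε / 2 ∈ I := hball (by
      rw [Metric.mem_ball, Real.dist_eq, show a - ε / 2 - a = -(ε / 2) by ring, abs_neg,
        abs_of_pos (by positivity)]
      linarith)
    have := csInf_le hbb h1
    linarith
  have hbI : b ∉ I := by
    intro h
    obtain ⟨ε, hε, hball⟩ := Metric.isOpen_iff.1 hIo b h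
    have h1 : b + ε / 2 ∈ I := hball (by
      rw [Metric.mem_ball, Real.dist_eq, show b + ε / 2 - b = ε / 2 by ring,
        abs_of_pos (by positivity)]
      linarith)
    have := le_csSup hba h1
    linarith
  have hsub2 : I ⊆ Ioo a b := by
    intro y hy
    refine ⟨lt_of_le_of_ne (csInf_le hbb hy) fun h => haI (h ▸ hy),
      lt_of_le_of_ne (le_csSup hba hy) fun h => hbI (h ▸ hy)⟩
  have hEq : I = Ioo a b := Subset.antisymm hsub2 hsub
  have hab : a < b := (hsub2 hxI).1.trans (hsub2 hxI).2
  refine ⟨a, b, hab, hEq, fun haO => ?_, fun hbO => ?_⟩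
  · have h1 : Ico a b ⊆ O := by
      intro y hy
      rcases hy.1.eq_or_lt with h | h
      · rw [← h]; exact haO
      · exact hIO (hsub ⟨h, hy.2⟩)
    have h2 : Ico a b ⊆ I :=
      isPreconnected_Ico.subset_connectedComponentIn (Ioo_subset_Ico_self (hsub2 hxI)) h1
    exact haI (h2 ⟨le_rfl, hab⟩)
  · have h1 : Ioc a b ⊆ O := by
      intro y hy
      rcases hy.2.eq_or_lt with h | h
      · rw [h]; exact hbO
      · exact hIO (hsub ⟨hy.1, h⟩)
    have h2 : Ioc a b ⊆ I :=
      isPreconnected_Ioc.subset_connectedComponentIn (Ioo_subset_Ioc_self (hsub2 hxI)) h1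
    exact hbI (h2 ⟨hab, le_rfl⟩)

/-- summation over the components -/
lemma comp_nonneg {O : Set ℝ} (ho : IsOpen O) {G : ℝ → ℝ} (hG : IntegrableOn G O)
    (h : ∀ x ∈ O, 0 ≤ ∫ y in connectedComponentIn O x, G y) : 0 ≤ ∫ y in O, G y := by
  classical
  set S : Set (Set ℝ) := {C | ∃ x ∈ O, C = connectedComponentIn O x} with hS
  have hdisj : S.PairwiseDisjoint id := by
    rintro C ⟨x, hx, rfl⟩ D ⟨y, hy, rfl⟩ hne
    refine Set.disjoint_left.2 fun z hz hz' => hne ?_
    rw [connectedComponentIn_eq hz, connectedComponentIn_eq hz']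
  have hcount : S.Countable := by
    refine hdisj.countable_of_isOpen ?_ ?_
    · rintro C ⟨x, hx, rfl⟩
      exact ho.connectedComponentIn
    · rintro C ⟨x, hx, rfl⟩
      exact ⟨x, mem_connectedComponentIn hx⟩
  have : Countable S := hcount.to_subtype
  have hU : O = ⋃ C : S, (C : Set ℝ) := by
    ext y
    simp only [mem_iUnion, Subtype.exists, exists_prop]
    constructor
    · intro hy
      exact ⟨_, ⟨y, hy, rfl⟩, mem_connectedComponentIn hy⟩
    · rintro ⟨C, ⟨x, hx, rfl⟩, hyC⟩
      exact connectedComponentIn_subset _ _ hyC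
  have hm : ∀ C : S, MeasurableSet (C : Set ℝ) := by
    rintro ⟨C, x, hx, rfl⟩
    exact ho.connectedComponentIn.measurableSet
  have hd : Pairwise (Function.onFun Disjoint fun C : S => (C : Set ℝ)) := by
    intro C D hne
    exact hdisj C.2 D.2 fun h => hne (Subtype.ext h)
  have hs := hasSum_integral_iUnion (f := G) (μ := volume) hm hd (by rw [← hU]; exact hG)
  rw [← hU] at hs
  refine hs.nonneg ?_
  rintro ⟨C, x, hx, rfl⟩
  exact h x hx

end Pool.Agent.R227.SA
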