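import Pool.Agent.R227.SA21
import Pool.Agent.R227.SA15

/-! Chords: slices of planar integrals, and the derivative of the solution in a direction. -/

set_option autoImplicit false

open MeasureTheory Set Filter
open scoped Topology ContDiff

namespace Pool.Agent.R227.SA

open Pool.Agent.TH298.Sch (X er et dd SC X_cont X_dr X_dt norm_X dd_sc X_eq er_exp X_add Lr)

/-! ### the derivative in a direction -/

lemma dd_comm {U : ℂ → ℝ} (hU : SC U) (a b x : ℂ) : dd a (dd b U) x = dd b (dd a U) x := by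
  have h2 : ContDiff ℝ (⊤ : ℕ∞) (fderiv ℝ U) := hU.sm.fderiv_right (by simp)
  have h3 : HasFDerivAt (fderiv ℝ U) (fderiv ℝ (fderiv ℝ U) x) x :=
    ((h2.differentiable (by simp)) x).hasFDerivAt
  have h5 : ∀ v, HasFDerivAt (dd v U) ((fderiv ℝ U x).comp (0 : ℂ →L[ℝ] ℂ) +
      (fderiv ℝ (fderiv ℝ U) x).flip v) x := fun v => h3.clm_apply (hasFDerivAt_const v x)
  have hsym : fderiv ℝ (fderiv ℝ U) x a b = fderiv ℝ (fderiv ℝ U) x b a :=
    second_derivative_symmetric (fun y => (hU.diff y).hasFDerivAt) h3 a b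
  have k : ∀ v w, dd w (dd v U) x = fderiv ℝ (fderiv ℝ U) x w v := by
    intro v w
    change fderiv ℝ (dd v U) x w = _
    rw [(h5 v).fderiv]
    simp
  rw [k, k, hsym]

lemma la_dd {U : ℂ → ℝ} (hU : SC U) (e x : ℂ) : la (dd e U) x = dd e (la U) x := by
  have e1 : ∀ a, dd a (dd a (dd e U)) x = dd e (dd a (dd a U)) x := by
    intro a
    have : dd a (dd e U) = dd e (dd a U) := funext fun y => dd_comm hU a e y
    rw [this, dd_comm (dd_sc hU a) a e x]
  have e2 : dd e (la U) x = dd e (dd 1 (dd 1 U)) x + dd e (dd Complex.I (dd Complex.I U)) x := by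
    have h1 := ((dd_sc (dd_sc hU 1) 1).diff x).hasFDerivAt
    have h2 := ((dd_sc (dd_sc hU Complex.I) Complex.I).diff x).hasFDerivAt
    have h3 := (h1.add h2).fderiv
    change fderiv ℝ (fun y => dd 1 (dd 1 U) y + dd Complex.I (dd Complex.I U) y) x e = _
    have h4 : fderiv ℝ (fun y => dd 1 (dd 1 U) y + dd Complex.I (dd Complex.I U) y) x =
        fderiv ℝ (dd 1 (dd 1 U)) x + fderiv ℝ (dd Complex.I (dd Complex.I U)) x := h3
    rw [h4]
    rfl
  rw [e2]
  unfold la
  rw [e1, e1]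

variable {Ω : Set ℂ} {lam c : ℝ} {v : ℂ → ℝ}

theorem Dat.wat_dd (D : Dat Ω lam c v) (e : ℂ) : Wat Ω lam (dd e v) := by
  refine ⟨?_, fun x hx => ?_, fun x₀ hx₀ => ?_⟩
  · exact (D.c1.continuous_fderiv (by norm_num)).clm_apply continuous_const
  · unfold dd
    rw [D.outd x hx]
    simp
  · obtain ⟨r, hr, U, hU, hb, h⟩ := D.loc x₀ hx₀
    refine ⟨r, hr, dd e U, dd_sc hU e, hb, fun x hx => ?_⟩
    have hn := Metric.isOpen_ball.mem_nhds hx
    constructor
    · have h1 : v =ᶠ[𝓝 x] fun y => U y - c := by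
        filter_upwards [hn] with y hy
        rw [← (h y hy).1]
        ring
      unfold dd
      rw [h1.fderiv_eq]
      rw [fderiv_sub_const]
    · rw [la_dd hU]
      have h1 : la U =ᶠ[𝓝 x] fun y => -(lam * U y) := by
        filter_upwards [hn] with y hy
        exact (h y hy).2
      unfold dd
      rw [h1.fderiv_eq]
      have h2 : HasFDerivAt (fun y => -(lam * U y)) (-(lam • fderiv ℝ U x)) x :=
        (((hU.diff x).hasFDerivAt).const_mul lam).neg
      rw [h2.fderiv]
      simp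

/-! ### slices -/

/-- the point with coordinates `s`, `t` in the frame `e`, `e i` -/
noncomputable def pt (e : ℂ) (t s : ℝ) : ℂ := e * ((s : ℂ) + t * Complex.I)

lemma pt_cont (e : ℂ) (t : ℝ) : Continuous (pt e t) := by unfold pt; fun_prop

lemma pt_deriv (e : ℂ) (t s : ℝ) : HasDerivAt (pt e t) e s := by
  unfold pt
  have h : HasDerivAt (fun s : ℝ => (s : ℂ) + t * Complex.I) 1 s :=
    (Complex.ofRealCLM.hasDerivAt (x := s)).add_const _
  simpa using h.const_mul e

lemma slice_int {e : ℂ} (he : ‖e‖ = 1) {h : ℂ → ℝ} (hi : Integrable h) :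
    ∫ z, h z = ∫ t : ℝ, ∫ s : ℝ, h (pt e t s) := by
  have mp := Pool.Agent.TH298.Sch.mp_rot he
  have me := Pool.Agent.TH298.Sch.me_rot he
  have e1 : ∫ z, h (e * z) = ∫ z, h z := mp.integral_comp me h
  have hi2 : Integrable fun z => h (e * z) := (mp.integrable_comp_emb me).2 hi
  have e2 := Complex.volume_preserving_equiv_real_prod.symm.integral_comp
    (Complex.measurableEquivRealProd.symm.measurableEmbedding) (fun z => h (e * z))
  have hi3 : Integrable (fun p : ℝ × ℝ => h (e * (Complex.measurableEquivRealProd.symm p)))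
      (volume.prod volume) := by
    rw [← Measure.volume_eq_prod]
    exact (Complex.volume_preserving_equiv_real_prod.symm.integrable_comp_emb
      (Complex.measurableEquivRealProd.symm.measurableEmbedding)).2 hi2
  rw [← e1, ← e2, Measure.volume_eq_prod, integral_prod_symm _ hi3]
  refine integral_congr_ae (Eventually.of_forall fun t => ?_)
  refine integral_congr_ae (Eventually.of_forall fun s => ?_)
  simp only [pt]
  congr 2
  apply Complex.ext <;> simp [Complex.measurableEquivRealProd]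

/-- a planar integral is nonnegative when its line integrals are -/
lemma slice_nonneg (ho : IsOpen Ω) (hb : Bornology.IsBounded Ω) {G : ℂ → ℝ} (hG : Continuous G)
    {e : ℂ} (he : ‖e‖ = 1) (h : ∀ t : ℝ, 0 ≤ ∫ s in (pt e t) ⁻¹' Ω, G (pt e t s)) :
    0 ≤ ∫ z in Ω, G z := by
  have hi : IntegrableOn G Ω :=
    (hG.continuousOn.integrableOn_compact hb.isCompact_closure).mono_set subset_closure
  have hi2 : Integrable (Ω.indicator G) := (integrable_indicator_iff ho.measurableSet).2 hi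
  rw [← integral_indicator ho.measurableSet, slice_int he hi2]
  refine integral_nonneg fun t => ?_
  have e1 : ∀ s, Ω.indicator G (pt e t s) = ((pt e t) ⁻¹' Ω).indicator (fun s => G (pt e t s)) s := by
    intro s
    rfl
  simp only [e1]
  rw [integral_indicator (ho.preimage (pt_cont e t)).measurableSet]
  exact h t

lemma pt_bdd (hb : Bornology.IsBounded Ω) {e : ℂ} (he : ‖e‖ = 1) (t : ℝ) :
    Bornology.IsBounded ((pt e t) ⁻¹' Ω) := by
  obtain ⟨C, hC⟩ := hb.exists_norm_le
  rw [isBounded_iff_forall_norm_le]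
  refine ⟨C, fun s hs => ?_⟩
  have h1 := hC _ hs
  unfold pt at h1
  rw [norm_mul, he, one_mul] at h1
  have h2 := Complex.abs_re_le_norm ((s : ℂ) + t * Complex.I)
  simp at h2
  rw [Real.norm_eq_abs]
  linarith

/-- the longest chord -/
def Ch (Ω : Set ℂ) (e : ℂ) (L : ℝ) : Prop :=
  ∀ (p : ℂ) (t : ℝ), 0 ≤ t → (∀ s ∈ Icc 0 t, p + (s : ℂ) * e ∈ Ω) → t ≤ L

lemma Ch.comp {e : ℂ} {L : ℝ} (hL : Ch Ω e L) {t a b : ℝ} (hab : a < b)
    (h : Ioo a b ⊆ (pt e t) ⁻¹' Ω) : b - a ≤ L := by
  refine le_of_forall_pos_le_add fun ε hε => ?_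
  set δ := min (ε / 2) ((b - a) / 4) with hδ
  have hδ0 : 0 < δ := by
    have : 0 < b - a := by linarith
    positivity
  have hδ1 : δ ≤ ε / 2 := min_le_left _ _
  have hδ2 : δ ≤ (b - a) / 4 := min_le_right _ _
  have := hL (pt e t (a + δ)) (b - a - 2 * δ) (by linarith) fun s hs => by
    have h1 : a + δ + s ∈ Ioo a b := ⟨by linarith [hs.1], by linarith [hs.2]⟩
    have h2 := h h1
    have h3 : pt e t (a + δ + s) = pt e t (a + δ) + (s : ℂ) * e := by
      unfold pt
      push_cast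
      ring
    rw [← h3]
    exact h2
  linarith

lemma Ch.pos {e : ℂ} {L : ℝ} (hL : Ch Ω e L) (ho : IsOpen Ω) (hne : Ω.Nonempty) (he : ‖e‖ = 1) :
    0 < L := by
  obtain ⟨p, hp⟩ := hne
  obtain ⟨ε, hε, hball⟩ := Metric.isOpen_iff.1 ho p hp
  have := hL p (ε / 2) (by positivity) fun s hs => hball (by
    rw [Metric.mem_ball, dist_eq_norm, add_sub_cancel_left, norm_mul, he, mul_one,
      Complex.norm_real, Real.norm_eq_abs, abs_of_nonneg hs.1]
    linarith [hs.2])
  linarith

variable {F : ℂ → ℝ}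

lemma line_deriv (hF : ContDiff ℝ 1 F) (e : ℂ) (t s : ℝ) :
    HasDerivAt (fun s => F (pt e t s)) (dd e F (pt e t s)) s :=
  ((hF.differentiable (by norm_num)) (pt e t s)).hasFDerivAt.comp_hasDerivAt s (pt_deriv e t s)

lemma dd_c (hF : ContDiff ℝ 1 F) (e : ℂ) : Continuous (dd e F) :=
  (hF.continuous_fderiv (by norm_num)).clm_apply continuous_const

/-- the Dirichlet inequality in a direction -/
theorem plane_dir (ho : IsOpen Ω) (hb : Bornology.IsBounded Ω) (hF : ContDiff ℝ 1 F)
    (h0 : ∀ x, x ∉ Ω → F x = 0) {e : ℂ} (he : ‖e‖ = 1) {H : ℝ} (hH : Ch Ω e H) :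
    0 ≤ ∫ z in Ω, ((dd e F z) ^ 2 - (Real.pi / H) ^ 2 * (F z) ^ 2) := by
  have hpi := Real.pi_pos
  have hdc := dd_c hF e
  have hFc := hF.continuous
  refine slice_nonneg ho hb (G := fun z => (dd e F z) ^ 2 - (Real.pi / H) ^ 2 * (F z) ^ 2)
    (by fun_prop) he fun t => ?_
  have hO := ho.preimage (pt_cont e t)
  have hOb := pt_bdd hb he t
  have hptc := pt_cont e t
  have hGc : Continuous fun s => (dd e F (pt e t s)) ^ 2 - (Real.pi / H) ^ 2 * (F (pt e t s)) ^ 2 := by
    fun_prop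
  refine comp_nonneg hO ((hGc.continuousOn.integrableOn_compact hOb.isCompact_closure).mono_set
    subset_closure) fun x hx => ?_
  obtain ⟨a, b, hab, hI, haO, hbO⟩ := comp_ioo hO hOb hx
  have hsub : Ioo a b ⊆ (pt e t) ⁻¹' Ω := by
    rw [← hI]
    exact connectedComponentIn_subset _ _
  have hL := hH.comp hab hsub
  have hl : 0 < b - a := by linarith
  rw [hI, ← integral_Ioc_eq_integral_Ioo, ← intervalIntegral.integral_of_le hab.le]
  have h1 := dir_int (fun s => line_deriv hF e t s) (hdc.comp hptc) hab (h0 _ haO) (h0 _ hbO)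
  have i1 : IntervalIntegrable (fun x => (dd e F (pt e t x)) ^ 2) volume a b :=
    ((hdc.comp hptc).pow 2).intervalIntegrable _ _
  have i2 : IntervalIntegrable (fun x => (Real.pi / H) ^ 2 * (F (pt e t x)) ^ 2) volume a b :=
    (continuous_const.mul ((hFc.comp hptc).pow 2)).intervalIntegrable _ _
  rw [intervalIntegral.integral_sub i1 i2, intervalIntegral.integral_const_mul]
  have h2 : (Real.pi / H) ^ 2 ≤ (Real.pi / (b - a)) ^ 2 := by
    have : Real.pi / H ≤ Real.pi / (b - a) := div_le_div_of_nonneg_left hpi.le hl hL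
    have h3 : 0 ≤ Real.pi / H := by
      have : 0 < H := by linarith
      positivity
    nlinarith
  have h3 : 0 ≤ ∫ x in a..b, (F (pt e t x)) ^ 2 :=
    intervalIntegral.integral_nonneg hab.le fun x _ => sq_nonneg _
  have h4 := mul_le_mul_of_nonneg_right h2 h3
  have h1' : (Real.pi / (b - a)) ^ 2 * (∫ x in a..b, (F (pt e t x)) ^ 2) ≤
      ∫ x in a..b, (dd e F (pt e t x)) ^ 2 := h1
  linarith

/-- the mean value inequality in a direction -/
theorem plane_per (ho : IsOpen Ω) (hb : Bornology.IsBounded Ω) (hF : ContDiff ℝ 1 F)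
    (h0 : ∀ x, x ∉ Ω → F x = 0) {e : ℂ} (he : ‖e‖ = 1) {L : ℝ} (hL : Ch Ω e L)
    (hv : ContDiff ℝ 1 v) (hv0 : ∀ x, x ∉ Ω → v x = 0) {ε : ℝ} (hε : 0 ≤ ε)
    (hFv : ∀ x, |F x - dd e v x| ≤ 2 * ε) :
    0 ≤ ∫ z in Ω, ((dd e F z) ^ 2 - (2 * Real.pi / L) ^ 2 * ((F z) ^ 2 - 4 * ε ^ 2)) := by
  have hpi := Real.pi_pos
  have hdc := dd_c hF e
  have hFc := hF.continuous
  refine slice_nonneg ho hb
    (G := fun z => (dd e F z) ^ 2 - (2 * Real.pi / L) ^ 2 * ((F z) ^ 2 - 4 * ε ^ 2))
    (by fun_prop) he fun t => ?_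
  have hO := ho.preimage (pt_cont e t)
  have hOb := pt_bdd hb he t
  have hptc := pt_cont e t
  have hGc : Continuous fun s =>
      (dd e F (pt e t s)) ^ 2 - (2 * Real.pi / L) ^ 2 * ((F (pt e t s)) ^ 2 - 4 * ε ^ 2) := by
    fun_prop
  refine comp_nonneg hO ((hGc.continuousOn.integrableOn_compact hOb.isCompact_closure).mono_set
    subset_closure) fun x hx => ?_
  obtain ⟨a, b, hab, hI, haO, hbO⟩ := comp_ioo hO hOb hx
  have hsub : Ioo a b ⊆ (pt e t) ⁻¹' Ω := by
    rw [← hI]
    exact connectedComponentIn_subset _ _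
  have hL' := hL.comp hab hsub
  have hl : 0 < b - a := by linarith
  have hL0 : 0 < L := by linarith
  rw [hI, ← integral_Ioc_eq_integral_Ioo, ← intervalIntegral.integral_of_le hab.le]
  have h1 := per_int (fun s => line_deriv hF e t s) (hdc.comp hptc) hab
    (by rw [h0 _ haO, h0 _ hbO])
  have h1' : (2 * Real.pi / (b - a)) ^ 2 * ((∫ x in a..b, (F (pt e t x)) ^ 2) -
      1 / (b - a) * (∫ x in a..b, F (pt e t x)) ^ 2) ≤ ∫ x in a..b, (dd e F (pt e t x)) ^ 2 := h1
  -- the mean
  have hm : |∫ x in a..b, F (pt e t x)| ≤ 2 * ε * (b - a) := by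
    have hvc := dd_c hv e
    have e1 : ∫ x in a..b, dd e v (pt e t x) = 0 := by
      rw [intervalIntegral.integral_eq_sub_of_hasDerivAt (fun s _ => line_deriv hv e t s)
        ((hvc.comp hptc).intervalIntegrable _ _), hv0 _ haO, hv0 _ hbO, sub_zero]
    have e2 : ∫ x in a..b, F (pt e t x) = ∫ x in a..b, (F (pt e t x) - dd e v (pt e t x)) := by
      have i1 : IntervalIntegrable (fun x => F (pt e t x)) volume a b :=
        (hFc.comp hptc).intervalIntegrable _ _
      have i2 : IntervalIntegrable (fun x => dd e v (pt e t x)) volume a b :=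
        (hvc.comp hptc).intervalIntegrable _ _
      rw [intervalIntegral.integral_sub i1 i2, e1, sub_zero]
    rw [e2]
    have := intervalIntegral.norm_integral_le_of_norm_le_const (a := a) (b := b) (C := 2 * ε)
      (f := fun x => F (pt e t x) - dd e v (pt e t x)) (fun x _ => hFv _)
    rwa [Real.norm_eq_abs, abs_of_pos hl] at this
  have i1 : IntervalIntegrable (fun x => (dd e F (pt e t x)) ^ 2) volume a b :=
    ((hdc.comp hptc).pow 2).intervalIntegrable _ _
  have i3 : IntervalIntegrable (fun x => (F (pt e t x)) ^ 2) volume a b :=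
    ((hFc.comp hptc).pow 2).intervalIntegrable _ _
  have i4 : IntervalIntegrable (fun _ : ℝ => 4 * ε ^ 2) volume a b := intervalIntegrable_const
  have i2 : IntervalIntegrable (fun x => (2 * Real.pi / L) ^ 2 * ((F (pt e t x)) ^ 2 - 4 * ε ^ 2))
      volume a b := (i3.sub i4).const_mul _
  rw [intervalIntegral.integral_sub i1 i2, intervalIntegral.integral_const_mul,
    intervalIntegral.integral_sub i3 i4, intervalIntegral.integral_const]
  set P := ∫ x in a..b, (F (pt e t x)) ^ 2 with hP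
  set Q := ∫ x in a..b, F (pt e t x) with hQ
  set R := ∫ x in a..b, (dd e F (pt e t x)) ^ 2 with hR
  have hR0 : 0 ≤ R := intervalIntegral.integral_nonneg hab.le fun x _ => sq_nonneg _
  have hQ2 : 1 / (b - a) * Q ^ 2 ≤ 4 * ε ^ 2 * (b - a) := by
    have h5 : Q ^ 2 ≤ (2 * ε * (b - a)) ^ 2 := by
      rw [← sq_abs]
      exact pow_le_pow_left₀ (abs_nonneg _) hm 2
    have h6 : 1 / (b - a) * Q ^ 2 ≤ 1 / (b - a) * (2 * ε * (b - a)) ^ 2 :=
      mul_le_mul_of_nonneg_left h5 (by positivity)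
    have h7 : 1 / (b - a) * (2 * ε * (b - a)) ^ 2 = 4 * ε ^ 2 * (b - a) := by
      field_simp
      ring
    linarith
  simp only [smul_eq_mul]
  rcases le_total (P - (b - a) * (4 * ε ^ 2)) 0 with hneg | hpos
  · have : (2 * Real.pi / L) ^ 2 * (P - (b - a) * (4 * ε ^ 2)) ≤ 0 :=
      mul_nonpos_of_nonneg_of_nonpos (sq_nonneg _) hneg
    linarith
  · have h2 : (2 * Real.pi / L) ^ 2 ≤ (2 * Real.pi / (b - a)) ^ 2 := by
      have : 2 * Real.pi / L ≤ 2 * Real.pi / (b - a) :=
        div_le_div_of_nonneg_left (by positivity) hl hL'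
      have h3 : 0 ≤ 2 * Real.pi / L := by positivity
      nlinarith
    have h4 := mul_le_mul_of_nonneg_right h2 hpos
    have h5 : (2 * Real.pi / (b - a)) ^ 2 * (P - (b - a) * (4 * ε ^ 2)) ≤
        (2 * Real.pi / (b - a)) ^ 2 * (P - 1 / (b - a) * Q ^ 2) :=
      mul_le_mul_of_nonneg_left (by linarith) (sq_nonneg _)
    linarith

end Pool.Agent.R227.SA
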