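import Pool.Agent.R227.SA22

/-! The chord inequality. -/

set_option autoImplicit false

open MeasureTheory Set Filter
open scoped Topology ContDiff

namespace Pool.Agent.R227.SA

open Pool.Agent.TH298.Sch (X er et dd SC X_cont X_dr X_dt norm_X dd_sc X_eq er_exp X_add Lr)

variable {Ω : Set ℂ} {lam c : ℝ} {v w : ℂ → ℝ}

theorem Dat.ex_ne (D : Dat Ω lam c v) (hne : Ω.Nonempty) (hlam : 0 < lam) (hc : c ≠ 0) :
    ∃ y, v y ≠ 0 := by
  obtain ⟨x0, hx0⟩ := hne
  by_contra hcon
  push Not at hcon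
  obtain ⟨r, hr, U, hU, hbU, h⟩ := D.loc x0 hx0
  have h1 : ∀ x ∈ Metric.ball x0 r, U x = c := by
    intro x hx
    rw [← (h x hx).1, hcon x, zero_add]
  have h2 := (h x0 (Metric.mem_ball_self hr)).2
  have h3 : U =ᶠ[𝓝 x0] fun _ => c := by
    filter_upwards [Metric.ball_mem_nhds x0 hr] with y hy
    exact h1 y hy
  have h4 : ∀ v, dd v (dd v U) x0 = 0 := by
    intro v
    have h5 : dd v U =ᶠ[𝓝 x0] fun _ => 0 := by
      filter_upwards [h3.fderiv (𝕜 := ℝ)] with y hy
      unfold dd
      rw [hy]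
      simp
    unfold dd at h5 ⊢
    rw [h5.fderiv_eq]
    simp
  unfold la at h2
  rw [h4, h4, h1 x0 (Metric.mem_ball_self hr)] at h2
  have : lam * c = 0 := by linarith
  rcases mul_eq_zero.1 this with h | h
  · linarith
  · exact hc h

/-- the derivative in a direction does not vanish identically -/
theorem Dat.dd_ne (D : Dat Ω lam c v) (hb : Bornology.IsBounded Ω) (hne : Ω.Nonempty)
    (hlam : 0 < lam) (hc : c ≠ 0) {e : ℂ} (he : ‖e‖ = 1) : ∃ y, dd e v y ≠ 0 := by
  obtain ⟨y, hy⟩ := D.ex_ne hne hlam hc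
  by_contra hcon
  push Not at hcon
  apply hy
  obtain ⟨C, hC⟩ := hb.exists_norm_le
  have hd : ∀ s : ℝ, HasDerivAt (fun s : ℝ => v (y + (s : ℂ) * e)) 0 s := by
    intro s
    have h1 : HasDerivAt (fun s : ℝ => y + (s : ℂ) * e) e s := by
      simpa using ((Complex.ofRealCLM.hasDerivAt (x := s)).mul_const e).const_add y
    have h2 := ((D.c1.differentiable (by norm_num)) (y + (s : ℂ) * e)).hasFDerivAt.comp_hasDerivAt s h1
    exact h2.congr_deriv (hcon _)
  have h5 := is_const_of_deriv_eq_zero (fun t => (hd t).differentiableAt) (fun t => (hd t).deriv)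
    0 (‖y‖ + |C| + 1)
  simp only [Complex.ofReal_zero, zero_mul, add_zero] at h5
  rw [h5]
  apply D.out
  intro hmem
  have h6 := hC _ hmem
  have h7 : ‖((‖y‖ + |C| + 1 : ℝ) : ℂ) * e‖ = ‖y‖ + |C| + 1 := by
    rw [norm_mul, he, mul_one, Complex.norm_real, Real.norm_eq_abs, abs_of_pos (by positivity)]
  have h8 : ‖((‖y‖ + |C| + 1 : ℝ) : ℂ) * e‖ ≤ ‖y + ((‖y‖ + |C| + 1 : ℝ) : ℂ) * e‖ + ‖y‖ := by
    have : ((‖y‖ + |C| + 1 : ℝ) : ℂ) * e = (y + ((‖y‖ + |C| + 1 : ℝ) : ℂ) * e) - y := by ring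
    conv_lhs => rw [this]
    exact norm_sub_le _ _
  have h9 := le_abs_self C
  linarith

/-- the two-sided test function -/
noncomputable def tf (w : ℂ → ℝ) (ε : ℝ) (x : ℂ) : ℝ :=
  tg {x | 0 < w x} w ε x - tg {x | 0 < -w x} (fun x => -w x) ε x

lemma pos_open (h : Wat Ω lam w) : IsOpen {x | 0 < w x} := isOpen_lt continuous_const h.cont

lemma neg_open (h : Wat Ω lam w) : IsOpen ({x | w x ≠ 0} \ {x | 0 < w x}) := by
  have : {x | w x ≠ 0} \ {x | 0 < w x} = {x | w x < 0} := by
    ext x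
    simp only [Set.mem_sdiff, mem_ofPred_eq, not_lt]
    constructor
    · exact fun hx => lt_of_le_of_ne hx.2 hx.1
    · exact fun hx => ⟨hx.ne, hx.le⟩
  rw [this]
  exact isOpen_lt h.cont continuous_const

lemma tf_pos {ε : ℝ} {x : ℂ} (hx : 0 < w x) : tf w ε x = et' ε (w x) := by
  unfold tf tg
  rw [indicator_of_mem (show x ∈ {x | 0 < w x} from hx), indicator_of_notMem, sub_zero]
  intro h
  have : 0 < -w x := h
  linarith

lemma tf_neg {ε : ℝ} {x : ℂ} (hx : w x < 0) : tf w ε x = -et' ε (-w x) := by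
  unfold tf tg
  rw [indicator_of_mem (show x ∈ {x | 0 < -w x} from by simpa using hx), indicator_of_notMem,
    zero_sub]
  intro h
  have : 0 < w x := h
  linarith

lemma tf_zero {ε : ℝ} {x : ℂ} (hx : w x = 0) : tf w ε x = 0 := by
  unfold tf tg
  rw [indicator_of_notMem, indicator_of_notMem, sub_zero]
  · intro h
    have : 0 < -w x := h
    linarith
  · intro h
    have : 0 < w x := h
    linarith

lemma tf_bd {ε : ℝ} (hε : 0 < ε) (x : ℂ) :
    |tf w ε x - w x| ≤ 2 * ε ∧ tf w ε x * w x ≤ w x ^ 2 ∧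
      w x ^ 2 - 4 * ε * |w x| ≤ tf w ε x ^ 2 := by
  rcases lt_trichotomy (w x) 0 with hx | hx | hx
  · have h3 := et_le (ε := ε) (s := -w x) (by linarith)
    have h4 := et_ge (s := -w x) hε (by linarith)
    have h5 := et_nn (ε := ε) (s := -w x) (by linarith)
    rw [tf_neg hx, abs_of_neg hx]
    refine ⟨abs_le.2 ⟨by linarith, by linarith⟩, by nlinarith, ?_⟩
    nlinarith
  · rw [tf_zero hx, hx]
    simp
    linarith
  · have h3 := et_le (ε := ε) hx.le
    have h4 := et_ge hε hx.le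
    have h5 := et_nn (ε := ε) hx.le
    rw [tf_pos hx, abs_of_pos hx]
    refine ⟨abs_le.2 ⟨by linarith, by linarith⟩, by nlinarith, ?_⟩
    nlinarith

lemma tf_c1 (h : Wat Ω lam w) {ε : ℝ} (hε : 0 < ε) : ContDiff ℝ 1 (tf w ε) :=
  (tg_c1 h (pos_open h) (fun _ hx => hx) (neg_open h) hε).sub
    (tg_c1 h.neg (pos_open h.neg) (fun _ hx => hx) (neg_open h.neg) hε)

lemma tf_cs (h : Wat Ω lam w) (hb : Bornology.IsBounded Ω) {ε : ℝ} :
    HasCompactSupport (tf w ε) := by
  refine HasCompactSupport.intro hb.isCompact_closure fun x hx => ?_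
  exact tf_zero (h.out x fun h => hx (subset_closure h))

lemma tf_dd (h : Wat Ω lam w) {ε : ℝ} (hε : 0 < ε) (a x : ℂ) :
    (dd a (tf w ε) x) ^ 2 = (dd a (tg {x | 0 < w x} w ε) x) ^ 2 +
      (dd a (tg {x | 0 < -w x} (fun x => -w x) ε) x) ^ 2 := by
  have hp := tg_c1 h (pos_open h) (fun _ hx => hx) (neg_open h) hε
  have hm := tg_c1 h.neg (pos_open h.neg) (fun _ hx => hx) (neg_open h.neg) hε
  have e1 : dd a (tf w ε) x = dd a (tg {x | 0 < w x} w ε) x -
      dd a (tg {x | 0 < -w x} (fun x => -w x) ε) x := by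
    have h1 := (((hp.differentiable (by norm_num)) x).hasFDerivAt.sub
      ((hm.differentiable (by norm_num)) x).hasFDerivAt).fderiv
    have h2 : fderiv ℝ (tf w ε) x = fderiv ℝ (tg {x | 0 < w x} w ε) x -
      fderiv ℝ (tg {x | 0 < -w x} (fun x => -w x) ε) x := h1
    unfold dd
    rw [h2]
    rfl
  have e2 : dd a (tg {x | 0 < w x} w ε) x * dd a (tg {x | 0 < -w x} (fun x => -w x) ε) x = 0 := by
    rcases tg_loc h (pos_open h) (fun _ hx => hx) (neg_open h) hε x with h1 | ⟨hx, -⟩
    · have : dd a (tg {x | 0 < w x} w ε) x = 0 := by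
        unfold dd
        rw [h1.fderiv_eq]
        simp
      rw [this, zero_mul]
    · rcases tg_loc h.neg (pos_open h.neg) (fun _ hx => hx) (neg_open h.neg) hε x with h1 | ⟨hx', -⟩
      · have : dd a (tg {x | 0 < -w x} (fun x => -w x) ε) x = 0 := by
          unfold dd
          rw [h1.fderiv_eq]
          simp
        rw [this, mul_zero]
      · exfalso
        have h1 : 0 < w x := hx
        have h2 : 0 < -w x := hx'
        linarith
  rw [e1]
  nlinarith

lemma frame_sq (T : ℂ →L[ℝ] ℝ) {e : ℂ} (he : ‖e‖ = 1) :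
    (T e) ^ 2 + (T (Complex.I * e)) ^ 2 = (T 1) ^ 2 + (T Complex.I) ^ 2 := by
  have h1 : ∀ z : ℂ, T z = z.re * T 1 + z.im * T Complex.I := by
    intro z
    have : z = z.re • (1:ℂ) + z.im • Complex.I := by
      apply Complex.ext <;> simp
    conv_lhs => rw [this]
    rw [map_add, map_smul, map_smul, smul_eq_mul, smul_eq_mul]
  have h2 : e.re ^ 2 + e.im ^ 2 = 1 := by
    have := Complex.sq_norm e
    rw [he, Complex.normSq_apply] at this
    nlinarith
  rw [h1 e, h1 (Complex.I * e)]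
  simp only [Complex.mul_re, Complex.mul_im, Complex.I_re, Complex.I_im]
  ring_nf
  nlinarith

lemma tf_energy (h : Wat Ω lam w) (hb : Bornology.IsBounded Ω) {ε : ℝ} (hε : 0 < ε) :
    En (tf w ε) ≤ lam * ∫ x, tf w ε x * w x := by
  have hp := tg_c1 h (pos_open h) (fun _ hx => hx) (neg_open h) hε
  have hm := tg_c1 h.neg (pos_open h.neg) (fun _ hx => hx) (neg_open h.neg) hε
  have hpc := tg_cs (ε := ε) h hb (D := {x | 0 < w x}) (fun _ hx => hx)
  have hmc := tg_cs (ε := ε) h.neg hb (D := {x | 0 < -w x}) (fun _ hx => hx)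
  have k1 := tg_energy h hb (pos_open h) (fun _ hx => hx) (neg_open h) hε
  have k2 := tg_energy h.neg hb (pos_open h.neg) (fun _ hx => hx) (neg_open h.neg) hε
  have hsq : ∀ {g : ℂ → ℝ}, ContDiff ℝ 1 g → HasCompactSupport g → ∀ a,
      Integrable fun x => (fderiv ℝ g x a) ^ 2 := by
    intro g hg hgc a
    have cd : Continuous (dd a g) := (hg.continuous_fderiv (by norm_num)).clm_apply continuous_const
    have cdc : HasCompactSupport (dd a g) :=
      (hgc.fderiv ℝ).comp_left (g := fun T : ℂ →L[ℝ] ℝ => T a) (by simp)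
    have : Integrable fun x => dd a g x * dd a g x :=
      (cd.mul cd).integrable_of_hasCompactSupport (μ := volume) cdc.mul_right
    refine this.congr (Eventually.of_forall fun x => ?_)
    exact (sq _).symm
  have e1 : En (tf w ε) = En (tg {x | 0 < w x} w ε) + En (tg {x | 0 < -w x} (fun x => -w x) ε) := by
    unfold En
    have i1 : Integrable fun x => (fderiv ℝ (tg {x | 0 < w x} w ε) x 1) ^ 2 +
      (fderiv ℝ (tg {x | 0 < w x} w ε) x Complex.I) ^ 2 := (hsq hp hpc 1).add (hsq hp hpc _)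
    have i2 : Integrable fun x => (fderiv ℝ (tg {x | 0 < -w x} (fun x => -w x) ε) x 1) ^ 2 +
      (fderiv ℝ (tg {x | 0 < -w x} (fun x => -w x) ε) x Complex.I) ^ 2 :=
      (hsq hm hmc 1).add (hsq hm hmc _)
    rw [← integral_add i1 i2]
    refine integral_congr_ae (Eventually.of_forall fun x => ?_)
    have j1 := tf_dd h hε 1 x
    have j2 := tf_dd h hε Complex.I x
    unfold dd at j1 j2
    simp only
    rw [j1, j2]
    ring
  have e2 : ∫ x, tf w ε x * w x = (∫ x, tg {x | 0 < w x} w ε x * w x) +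
      ∫ x, tg {x | 0 < -w x} (fun x => -w x) ε x * (-w x) := by
    have i1 : Integrable fun x => tg {x | 0 < w x} w ε x * w x :=
      (hp.continuous.mul h.cont).integrable_of_hasCompactSupport hpc.mul_right
    have i2 : Integrable fun x => tg {x | 0 < -w x} (fun x => -w x) ε x * (-w x) :=
      (hm.continuous.mul h.cont.neg).integrable_of_hasCompactSupport hmc.mul_right
    rw [← integral_add i1 i2]
    refine integral_congr_ae (Eventually.of_forall fun x => ?_)
    simp only [tf]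
    ring
  rw [e1, e2, mul_add]
  exact add_le_add k1 k2

/-- the chord inequality -/
theorem chord (D : Dat Ω lam c v) (ho : IsOpen Ω) (hb : Bornology.IsBounded Ω) (hne : Ω.Nonempty)
    (hlam : 0 < lam) (hc : c ≠ 0) {e : ℂ} (he : ‖e‖ = 1) {L H : ℝ} (hL : Ch Ω e L)
    (hH : Ch Ω (Complex.I * e) H) : (2 * Real.pi / L) ^ 2 + (Real.pi / H) ^ 2 ≤ lam := by
  set w := dd e v with hw
  have W := D.wat_dd e
  rw [← hw] at W
  have he' : ‖Complex.I * e‖ = 1 := by rw [norm_mul, Complex.norm_I, he, one_mul]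
  have hm := ho.measurableSet
  have hwc := W.cont
  set K := (2 * Real.pi / L) ^ 2 with hK
  set K' := (Real.pi / H) ^ 2 with hK'
  have hK0 : 0 ≤ K := sq_nonneg _
  have hK0' : 0 ≤ K' := sq_nonneg _
  have hint : ∀ {g : ℂ → ℝ}, Continuous g → IntegrableOn g Ω := fun hg =>
    (hg.continuousOn.integrableOn_compact hb.isCompact_closure).mono_set subset_closure
  set S := ∫ x in Ω, w x ^ 2 with hS
  set T := ∫ x in Ω, |w x| with hT
  set V := volume.real Ω with hV
  have hT0 : 0 ≤ T := integral_nonneg fun x => abs_nonneg _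
  have hV0 : 0 ≤ V := measureReal_nonneg
  have key : ∀ ε > 0, K * (S - 4 * ε * T - 4 * ε ^ 2 * V) + K' * (S - 4 * ε * T) ≤ lam * S := by
    intro ε hε
    have hF := tf_c1 W hε
    have hFcs := tf_cs (ε := ε) W hb
    have hFc := hF.continuous
    have h0 : ∀ x, x ∉ Ω → tf w ε x = 0 := fun x hx => tf_zero (W.out x hx)
    have p1 := plane_per ho hb hF h0 he hL D.c1 D.out hε.le (fun x => (tf_bd hε x).1)
    have p2 := plane_dir ho hb hF h0 he' hH
    have hd1 := dd_c hF e
    have hd2 := dd_c hF (Complex.I * e)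
    have i1 : IntegrableOn (fun z => (dd e (tf w ε) z) ^ 2) Ω := hint (hd1.pow 2)
    have i2 : IntegrableOn (fun z => (dd (Complex.I * e) (tf w ε) z) ^ 2) Ω := hint (hd2.pow 2)
    have i3 : IntegrableOn (fun z => (tf w ε z) ^ 2) Ω := hint (hFc.pow 2)
    have i4 : IntegrableOn (fun _ : ℂ => 4 * ε ^ 2) Ω := hint continuous_const
    have i5 : IntegrableOn (fun z => (tf w ε z) ^ 2 - 4 * ε ^ 2) Ω := i3.sub i4
    rw [integral_sub i1 (i5.const_mul _), integral_const_mul, integral_sub i3 i4,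
      setIntegral_const] at p1
    rw [integral_sub i2 (i3.const_mul _), integral_const_mul] at p2
    have q1 : S - 4 * ε * T ≤ ∫ z in Ω, (tf w ε z) ^ 2 := by
      have j1 : IntegrableOn (fun x => w x ^ 2) Ω := hint (hwc.pow 2)
      have j2 : IntegrableOn (fun x => 4 * ε * |w x|) Ω := hint (continuous_const.mul hwc.abs)
      have : S - 4 * ε * T = ∫ x in Ω, (w x ^ 2 - 4 * ε * |w x|) := by
        rw [integral_sub j1 j2, integral_const_mul]
      rw [this]
      exact setIntegral_mono (j1.sub j2) i3 fun x => (tf_bd hε x).2.2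
    have q2 : ∫ x, tf w ε x * w x ≤ S := by
      have : ∫ x, tf w ε x * w x = ∫ x in Ω, tf w ε x * w x := by
        symm
        refine setIntegral_eq_integral_of_forall_compl_eq_zero fun x hx => ?_
        rw [h0 x hx, zero_mul]
      rw [this]
      exact setIntegral_mono (hint (hFc.mul hwc)) (hint (hwc.pow 2)) fun x => (tf_bd hε x).2.1
    have q3 : (∫ z in Ω, (dd e (tf w ε) z) ^ 2) + ∫ z in Ω, (dd (Complex.I * e) (tf w ε) z) ^ 2 ≤
        En (tf w ε) := by
      rw [← integral_add i1 i2]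
      unfold En
      have hpt : ∀ z, (dd e (tf w ε) z) ^ 2 + (dd (Complex.I * e) (tf w ε) z) ^ 2 =
          (fderiv ℝ (tf w ε) z 1) ^ 2 + (fderiv ℝ (tf w ε) z Complex.I) ^ 2 :=
        fun z => frame_sq (fderiv ℝ (tf w ε) z) he
      simp only [hpt]
      refine setIntegral_le_integral ?_ (Eventually.of_forall fun x => by positivity)
      have cd : ∀ a, Continuous (dd a (tf w ε)) := fun a => dd_c hF a
      have cdc : ∀ a, HasCompactSupport (dd a (tf w ε)) := fun a =>
        (hFcs.fderiv ℝ).comp_left (g := fun T : ℂ →L[ℝ] ℝ => T a) (by simp)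
      have j1 : ∀ a, Integrable fun x => (fderiv ℝ (tf w ε) x a) ^ 2 := by
        intro a
        have : Integrable fun x => dd a (tf w ε) x * dd a (tf w ε) x :=
          ((cd a).mul (cd a)).integrable_of_hasCompactSupport (μ := volume) (cdc a).mul_right
        refine this.congr (Eventually.of_forall fun x => ?_)
        exact (sq _).symm
      exact (j1 1).add (j1 Complex.I)
    have q4 := tf_energy W hb hε
    have q5 := mul_le_mul_of_nonneg_left q2 hlam.le
    have q6 := mul_le_mul_of_nonneg_left q1 hK0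
    have q7 := mul_le_mul_of_nonneg_left q1 hK0'
    simp only [smul_eq_mul] at p1
    rw [← hV] at p1
    nlinarith
  have hS0 : 0 < S := by
    obtain ⟨y, hy⟩ := D.dd_ne hb hne hlam hc he
    have hyΩ : y ∈ Ω := by
      by_contra hcon
      exact hy (W.out y hcon)
    rw [hS, setIntegral_pos_iff_support_of_nonneg_ae (Eventually.of_forall fun x => sq_nonneg _)
      (hint (hwc.pow 2))]
    have hopen : IsOpen ({x | w x ≠ 0} ∩ Ω) := (isOpen_ne_fun hwc continuous_const).inter ho
    have hsub : {x | w x ≠ 0} ∩ Ω ⊆ Function.support (fun x => w x ^ 2) ∩ Ω := by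
      rintro x ⟨h1, h2⟩
      exact ⟨pow_ne_zero 2 h1, h2⟩
    exact (hopen.measure_pos volume ⟨y, hy, hyΩ⟩).trans_le (measure_mono hsub)
  by_contra hcon
  push Not at hcon
  set a := (K + K' - lam) * S with ha
  have ha0 : 0 < a := mul_pos (by linarith) hS0
  set C := (K + K') * (4 * T) + 4 * K * V with hC
  have hC0 : 0 ≤ C := by positivity
  set ε := min 1 (a / (2 * (C + 1))) with hε
  have hε0 : 0 < ε := by positivity
  have hε1 : ε ≤ 1 := min_le_left _ _
  have hε2 : ε ≤ a / (2 * (C + 1)) := min_le_right _ _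
  have h1 := key ε hε0
  have h2 : ε * C ≤ a / 2 := by
    have h3 : ε * C ≤ a / (2 * (C + 1)) * C := mul_le_mul_of_nonneg_right hε2 hC0
    have h4 : a / (2 * (C + 1)) * C = a / 2 * (C / (C + 1)) := by field_simp
    have h5 : C / (C + 1) ≤ 1 := by rw [div_le_one (by positivity)]; linarith
    nlinarith
  have h6 : ε ^ 2 * (4 * K * V) ≤ ε * (4 * K * V) := by
    have h10 : 0 ≤ 4 * K * V := by positivity
    have h11 : ε ^ 2 ≤ ε := by nlinarith
    exact mul_le_mul_of_nonneg_right h11 h10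
  have h7 : K * (S - 4 * ε * T - 4 * ε ^ 2 * V) + K' * (S - 4 * ε * T) - lam * S =
      a - ε * ((K + K') * (4 * T)) - ε ^ 2 * (4 * K * V) := by
    rw [ha]
    ring
  have h8 : ε * C = ε * ((K + K') * (4 * T)) + ε * (4 * K * V) := by
    rw [hC]
    ring
  linarith

end Pool.Agent.R227.SA
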