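import Pool.Agent.R227.SA2
import Pool.Agent.TH298.AN.ODEM

/-! Gaussian averages of the radial Bessel function; the Gaussian form on a disc. -/

set_option autoImplicit false

open MeasureTheory Set Pool.Agent.R227.LP
open scoped Topology ENNReal NNReal RealInnerProductSpace ContDiff

namespace Pool.Agent.R227.SA

open Pool.Agent.TH298.Sch (X er dd)
open TH259.NS (B B_cont B_zero)

lemma inner_er (θ : ℝ) (y : ℂ) : ⟪er θ, y⟫ = Real.cos θ * y.re + Real.sin θ * y.im := by
  rw [Complex.inner]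
  simp only [er, Complex.mul_re, Complex.conj_re, Complex.conj_im, Complex.add_re, Complex.add_im,
    Complex.ofReal_re, Complex.ofReal_im, Complex.I_re, Complex.I_im, Complex.mul_im]
  ring

lemma norm_er (θ : ℝ) : ‖er θ‖ = 1 := by
  rw [Pool.Agent.TH298.Sch.er_exp, Complex.norm_exp_ofReal_mul_I]

lemma gk_int {a : ℝ} (ha : 0 < a) (x : ℂ) : Integrable (fun y => gk a x y) ∧
    ∫ y, gk a x y = Real.pi / a := by
  have h := GaussianFourier.integral_rexp_neg_mul_sq_norm (V := ℂ) (b := a) ha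
  have hI : Integrable (fun z : ℂ => Real.exp (-a * ‖z‖ ^ 2)) := by
    by_contra hcon
    rw [integral_undef hcon] at h
    have : 0 < (Real.pi / a) ^ (Module.finrank ℝ ℂ / 2 : ℝ) := by positivity
    linarith
  have e : (fun y => gk a x y) = fun y => (fun z : ℂ => Real.exp (-a * ‖z‖ ^ 2)) (y - x) := by
    funext y
    simp only [gk]
    rw [norm_sub_rev]
  rw [e]
  refine ⟨hI.comp_sub_right x, ?_⟩
  rw [integral_sub_right_eq_self (fun z : ℂ => Real.exp (-a * ‖z‖ ^ 2)), h,
    Complex.finrank_real_complex]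
  norm_num

lemma gauss_char {a : ℝ} (ha : 0 < a) (κ : ℝ) {e : ℂ} (he : ‖e‖ = 1) :
    ∫ y : ℂ, Real.exp (-a * ‖y‖ ^ 2) * Real.cos (κ * ⟪e, y⟫) =
      Real.pi / a * Real.exp (-κ ^ 2 / (4 * a)) ∧
    ∫ y : ℂ, Real.exp (-a * ‖y‖ ^ 2) * Real.sin (κ * ⟪e, y⟫) = 0 := by
  have h := GaussianFourier.integral_cexp_neg_mul_sq_norm_add (V := ℂ) (b := (a : ℂ)) (by simpa using ha)
    (κ * Complex.I) e
  have e1 : ∀ y : ℂ, Complex.exp (-(a : ℂ) * ‖y‖ ^ 2 + κ * Complex.I * ⟪e, y⟫) =
      ((Real.exp (-a * ‖y‖ ^ 2) * Real.cos (κ * ⟪e, y⟫) : ℝ) : ℂ) +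
      ((Real.exp (-a * ‖y‖ ^ 2) * Real.sin (κ * ⟪e, y⟫) : ℝ) : ℂ) * Complex.I := by
    intro y
    rw [Complex.exp_add, show (κ : ℂ) * Complex.I * ((⟪e, y⟫ : ℝ) : ℂ) =
      ((κ * ⟪e, y⟫ : ℝ) : ℂ) * Complex.I by push_cast; ring, Complex.exp_mul_I]
    push_cast
    ring
  have e2 : ((Real.pi : ℂ) / a) ^ ((Module.finrank ℝ ℂ : ℂ) / 2) *
      Complex.exp ((κ * Complex.I) ^ 2 * ‖e‖ ^ 2 / (4 * a)) =
      ((Real.pi / a * Real.exp (-κ ^ 2 / (4 * a)) : ℝ) : ℂ) := by
    rw [he, Complex.finrank_real_complex, mul_pow, Complex.I_sq]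
    push_cast
    norm_num
  rw [e2] at h
  simp_rw [e1] at h
  have i0 : Integrable (fun y : ℂ => Real.exp (-a * ‖y‖ ^ 2)) := by
    have := (gk_int ha 0).1
    refine this.congr (Filter.Eventually.of_forall fun y => ?_)
    simp [gk]
  have i1 : Integrable (fun y : ℂ => Real.exp (-a * ‖y‖ ^ 2) * Real.cos (κ * ⟪e, y⟫)) :=
    i0.mul_bdd (c := 1) (by fun_prop) (Filter.Eventually.of_forall fun y => by
      rw [Real.norm_eq_abs]; exact Real.abs_cos_le_one _)
  have i2 : Integrable (fun y : ℂ => Real.exp (-a * ‖y‖ ^ 2) * Real.sin (κ * ⟪e, y⟫)) :=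
    i0.mul_bdd (c := 1) (by fun_prop) (Filter.Eventually.of_forall fun y => by
      rw [Real.norm_eq_abs]; exact Real.abs_sin_le_one _)
  rw [integral_add i1.ofReal (i2.ofReal.mul_const _), integral_mul_const, integral_complex_ofReal,
    integral_complex_ofReal] at h
  have hre := congrArg Complex.re h
  have him := congrArg Complex.im h
  simp only [Complex.add_re, Complex.add_im, Complex.ofReal_re, Complex.ofReal_im,
    Complex.mul_re, Complex.mul_im, Complex.I_re, Complex.I_im, mul_zero, mul_one, sub_zero,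
    add_zero, zero_add, zero_mul] at hre him
  exact ⟨hre, him⟩

lemma gauss_cos {a : ℝ} (ha : 0 < a) (κ : ℝ) {e : ℂ} (he : ‖e‖ = 1) (x : ℂ) :
    ∫ y : ℂ, gk a x y * Real.cos (κ * ⟪e, y⟫) =
      Real.pi / a * Real.exp (-κ ^ 2 / (4 * a)) * Real.cos (κ * ⟪e, x⟫) := by
  obtain ⟨h1, h2⟩ := gauss_char ha κ he
  rw [← integral_add_right_eq_self (fun y : ℂ => gk a x y * Real.cos (κ * ⟪e, y⟫)) x]
  have e1 : ∀ y : ℂ, gk a x (y + x) * Real.cos (κ * ⟪e, y + x⟫) =
      Real.cos (κ * ⟪e, x⟫) * (Real.exp (-a * ‖y‖ ^ 2) * Real.cos (κ * ⟪e, y⟫)) -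
      Real.sin (κ * ⟪e, x⟫) * (Real.exp (-a * ‖y‖ ^ 2) * Real.sin (κ * ⟪e, y⟫)) := by
    intro y
    unfold gk
    rw [inner_add_right, mul_add, Real.cos_add, show x - (y + x) = -y by ring, norm_neg]
    ring
  simp_rw [e1]
  have i0 : Integrable (fun y : ℂ => Real.exp (-a * ‖y‖ ^ 2)) := by
    have := (gk_int ha 0).1
    refine this.congr (Filter.Eventually.of_forall fun y => ?_)
    simp [gk]
  have i1 : Integrable (fun y : ℂ => Real.exp (-a * ‖y‖ ^ 2) * Real.cos (κ * ⟪e, y⟫)) :=
    i0.mul_bdd (c := 1) (by fun_prop) (Filter.Eventually.of_forall fun y => by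
      rw [Real.norm_eq_abs]; exact Real.abs_cos_le_one _)
  have i2 : Integrable (fun y : ℂ => Real.exp (-a * ‖y‖ ^ 2) * Real.sin (κ * ⟪e, y⟫)) :=
    i0.mul_bdd (c := 1) (by fun_prop) (Filter.Eventually.of_forall fun y => by
      rw [Real.norm_eq_abs]; exact Real.abs_sin_le_one _)
  rw [integral_sub (i1.const_mul _) (i2.const_mul _), integral_const_mul, integral_const_mul, h1, h2]
  ring

/-- the radial Bessel function as an average of plane waves -/
noncomputable def ph (κ : ℝ) (x : ℂ) : ℝ := ∫ θ in (-Real.pi)..Real.pi, Real.cos (κ * ⟪er θ, x⟫)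

lemma ph_bessel {κ : ℝ} (hκ : 0 < κ) (x : ℂ) :
    ph κ x = 2 * Real.pi * B 0 (κ ^ 2 * ‖x‖ ^ 2 / 4) := by
  have hpi := Real.pi_pos
  -- the plane wave in the direction of the real axis
  set v : ℂ → ℝ := fun y => Real.cos (κ * y.re) with hv
  have hre : ∀ y : ℂ, HasFDerivAt (fun y : ℂ => κ * y.re) (κ • Complex.reCLM) y := fun y =>
    Complex.reCLM.hasFDerivAt.const_mul κ
  have hvs : ContDiff ℝ (⊤ : ℕ∞) v :=
    Real.contDiff_cos.comp (contDiff_const.mul Complex.reCLM.contDiff)
  have hd1 : ∀ h : ℂ, dd h v = fun y => -(κ * h.re) * Real.sin (κ * y.re) := by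
    intro h
    funext y
    unfold dd
    rw [show v = Real.cos ∘ fun y : ℂ => κ * y.re from rfl,
      ((Real.hasDerivAt_cos _).comp_hasFDerivAt y (hre y)).fderiv]
    simp
    ring
  have hd2 : ∀ h : ℂ, dd h (dd h v) = fun y => -(κ * h.re) ^ 2 * Real.cos (κ * y.re) := by
    intro h
    rw [hd1 h]
    funext y
    unfold dd
    have := (((Real.hasDerivAt_sin _).comp_hasFDerivAt y (hre y)).const_mul (-(κ * h.re))).fderiv
    rw [show (fun y : ℂ => -(κ * h.re) * Real.sin (κ * y.re)) =
      fun y => -(κ * h.re) * (Real.sin ∘ fun y : ℂ => κ * y.re) y from rfl, this]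
    simp
    ring
  obtain ⟨⟨α, hα⟩, -⟩ := Pool.Agent.TH298.AN.odem (‖x‖ + 1) (κ ^ 2) v (by positivity)
    (by positivity) hvs (fun y _ => by
      rw [hd2, hd2]
      simp only [Complex.one_re, Complex.I_re, hv]
      ring) 0
  have e1 : ∀ r : ℝ, Pool.Agent.TH298.AN.mc v 0 r =
      ∫ θ in (-Real.pi)..Real.pi, Real.cos (κ * (r * Real.cos θ)) := by
    intro r
    unfold Pool.Agent.TH298.AN.mc
    refine intervalIntegral.integral_congr fun θ _ => ?_
    have hX : (X r θ).re = r * Real.cos θ := by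
      simp only [X, Complex.mul_re, Complex.add_re, Complex.add_im, Complex.ofReal_re,
        Complex.ofReal_im, Complex.I_re, Complex.I_im, Complex.mul_im]
      ring
    simp only [hv, hX]
    simp
  have h0 := hα 0 ⟨le_rfl, by positivity⟩
  rw [e1] at h0
  simp only [zero_mul, mul_zero, Real.cos_zero, pow_zero, mul_one, ne_eq, OfNat.ofNat_ne_zero,
    not_false_eq_true, zero_pow, zero_div, B_zero, intervalIntegral.integral_const,
    Nat.factorial_zero, Nat.cast_one, smul_eq_mul] at h0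
  have hα' : α = 2 * Real.pi := by linarith
  have h1 := hα ‖x‖ ⟨norm_nonneg x, by linarith⟩
  rw [e1, hα', pow_zero, mul_one] at h1
  rw [← h1]
  -- rotation
  unfold ph
  have e2 : ∀ θ : ℝ, Real.cos (κ * ⟪er θ, x⟫) =
      (fun t => Real.cos (κ * (‖x‖ * Real.cos t))) (θ - Complex.arg x) := by
    intro θ
    simp only
    congr 2
    rw [inner_er, Real.cos_sub]
    have h2 : x.re = ‖x‖ * Real.cos (Complex.arg x) := (Complex.norm_mul_cos_arg x).symm
    have h3 : x.im = ‖x‖ * Real.sin (Complex.arg x) := (Complex.norm_mul_sin_arg x).symm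
    conv_lhs => rw [h2, h3]
    ring
  simp_rw [e2]
  rw [intervalIntegral.integral_comp_sub_right (fun t => Real.cos (κ * (‖x‖ * Real.cos t)))]
  have hper : Function.Periodic (fun t => Real.cos (κ * (‖x‖ * Real.cos t))) (2 * Real.pi) := by
    intro t
    simp only [Real.cos_add_two_pi]
  have h3 := hper.intervalIntegral_add_eq (-Real.pi - Complex.arg x) (-Real.pi)
  have a1 : -Real.pi - Complex.arg x + 2 * Real.pi = Real.pi - Complex.arg x := by ring
  have a2 : -Real.pi + 2 * Real.pi = Real.pi := by ring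
  rw [a1, a2] at h3
  exact h3

lemma ph_le (κ : ℝ) (x : ℂ) : |ph κ x| ≤ 2 * Real.pi := by
  have h := intervalIntegral.norm_integral_le_of_norm_le_const (a := -Real.pi) (b := Real.pi)
    (f := fun θ => Real.cos (κ * ⟪er θ, x⟫)) (C := 1) (fun θ _ => by
      rw [Real.norm_eq_abs]; exact Real.abs_cos_le_one _)
  have e : |Real.pi - -Real.pi| = 2 * Real.pi := by
    rw [abs_of_pos (by linarith [Real.pi_pos])]; ring
  rw [e, one_mul] at h
  exact h

lemma er_continuous : Continuous er := by unfold er; fun_prop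

lemma ph_cont {κ : ℝ} (hκ : 0 < κ) : Continuous (ph κ) := by
  have : ph κ = fun x : ℂ => 2 * Real.pi * B 0 (κ ^ 2 * ‖x‖ ^ 2 / 4) := funext (ph_bessel hκ)
  rw [this]
  exact continuous_const.mul ((B_cont 0).comp (by fun_prop))

lemma gauss_ph {a : ℝ} (ha : 0 < a) (κ : ℝ) (x : ℂ) :
    ∫ y : ℂ, gk a x y * ph κ y = Real.pi / a * Real.exp (-κ ^ 2 / (4 * a)) * ph κ x := by
  have hpi := Real.pi_pos
  have hle : -Real.pi ≤ Real.pi := by linarith
  have e1 : ∀ y : ℂ, gk a x y * ph κ y =
      ∫ θ in Ioc (-Real.pi) Real.pi, gk a x y * Real.cos (κ * ⟪er θ, y⟫) := by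
    intro y
    unfold ph
    rw [intervalIntegral.integral_of_le hle, integral_const_mul]
  simp_rw [e1]
  have hI : Integrable (Function.uncurry fun (y : ℂ) (θ : ℝ) => gk a x y * Real.cos (κ * ⟪er θ, y⟫))
      (volume.prod (volume.restrict (Ioc (-Real.pi) Real.pi))) := by
    have i1 : Integrable (fun θ : ℝ => (1 : ℝ)) (volume.restrict (Ioc (-Real.pi) Real.pi)) := by
      apply integrable_const
    refine ((gk_int ha x).1.mul_prod i1).mono' ?_ (Filter.Eventually.of_forall fun p => ?_)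
    · refine Continuous.aestronglyMeasurable ?_
      have := er_continuous
      have h2 : Continuous fun p : ℂ × ℝ => gk a x p.1 := by unfold gk; fun_prop
      have h3 : Continuous fun p : ℂ × ℝ => Real.cos (κ * ⟪er p.2, p.1⟫) := by fun_prop
      exact h2.mul h3
    · simp only [Function.uncurry]
      rw [norm_mul, Real.norm_eq_abs, Real.norm_eq_abs, abs_of_pos (gk_pos a _ _)]
      exact mul_le_mul_of_nonneg_left (Real.abs_cos_le_one _) (gk_pos a _ _).le
  rw [integral_integral_swap hI]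
  have e2 : ∀ θ : ℝ, ∫ y : ℂ, gk a x y * Real.cos (κ * ⟪er θ, y⟫) =
      Real.pi / a * Real.exp (-κ ^ 2 / (4 * a)) * Real.cos (κ * ⟪er θ, x⟫) := fun θ =>
    gauss_cos ha κ (norm_er θ) x
  simp_rw [e2]
  rw [integral_const_mul]
  unfold ph
  rw [intervalIntegral.integral_of_le hle]

/-- the Gaussian form on a disc -/
theorem Q_ball {a κ r R' m : ℝ} (ha : 0 < a) (hκ : 0 < κ) (hrR : r < R') (hm : 0 < m)
    (h1 : ∀ x : ℂ, ‖x‖ < R' → 0 < ph κ x) (h2 : ∀ x : ℂ, ‖x‖ ≤ r → m ≤ ph κ x) {M : ℝ} {g : ℂ → ℝ}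
    (hg : Cl (Metric.ball 0 r) M g) :
    Q a g g ≤ Real.pi / a * (Real.exp (-κ ^ 2 / (4 * a)) +
      4 * Real.pi / m * Real.exp (-(a / 2) * (R' - r) ^ 2)) * ∫ x, g x ^ 2 := by
  have hpi := Real.pi_pos
  have hM : 0 ≤ M := (hg.nn 0).trans (hg.le 0)
  set D := Metric.ball (0:ℂ) r with hD
  have hDm : MeasurableSet D := measurableSet_ball
  have hmem : ∀ x, x ∈ D ↔ ‖x‖ < r := fun x => mem_ball_zero_iff
  set Λ := Real.pi / a * (Real.exp (-κ ^ 2 / (4 * a)) +
      4 * Real.pi / m * Real.exp (-(a / 2) * (R' - r) ^ 2)) with hΛ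
  set h : ℂ → ℝ := fun x => g x ^ 2 / ph κ x with hh
  set ψ : ℂ → ℝ := D.indicator (ph κ) with hψ
  have hpm : Measurable (ph κ) := (ph_cont hκ).measurable
  have ch : Cl D (M ^ 2 / m) h := by
    refine ⟨(hg.meas.pow_const 2).div hpm, fun x => ?_, fun x => ?_, fun x hx => ?_⟩
    · by_cases hx : x ∈ D
      · exact div_nonneg (sq_nonneg _) (h1 x (((hmem x).1 hx).trans hrR)).le
      · simp only [hh, hg.out x hx]; simp
    · by_cases hx : x ∈ D
      · exact div_le_div₀ (sq_nonneg _) (pow_le_pow_left₀ (hg.nn x) (hg.le x) 2) hm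
          (h2 x ((hmem x).1 hx).le)
      · simp only [hh, hg.out x hx]
        simp only [ne_eq, OfNat.ofNat_ne_zero, not_false_eq_true, zero_pow, zero_div]
        positivity
    · simp only [hh, hg.out x hx]; simp
  have cψ : Cl D (2 * Real.pi) ψ := by
    refine ⟨hpm.indicator hDm, fun x => ?_, fun x => ?_, fun x hx => indicator_of_notMem hx _⟩
    · by_cases hx : x ∈ D
      · rw [hψ, indicator_of_mem hx]; exact (h1 x (((hmem x).1 hx).trans hrR)).le
      · rw [hψ, indicator_of_notMem hx]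
    · by_cases hx : x ∈ D
      · rw [hψ, indicator_of_mem hx]; exact (le_abs_self _).trans (ph_le κ x)
      · rw [hψ, indicator_of_notMem hx]; positivity
  have i1 := ch.int_prod cψ (R := r) Subset.rfl Subset.rfl ha
  have i2 := cψ.int_prod ch (R := r) Subset.rfl Subset.rfl ha
  have i3 := hg.int_prod hg (R := r) Subset.rfl Subset.rfl ha
  -- symmetry
  have hsymm : Q a ψ h = Q a h ψ := by
    unfold Q
    have := (Measure.measurePreserving_swap (μ := (volume : Measure ℂ))
      (ν := (volume : Measure ℂ))).integral_comp MeasurableEquiv.prodComm.measurableEmbedding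
        (fun p : ℂ × ℂ => gk a p.1 p.2 * (h p.1 * ψ p.2))
    refine Eq.trans ?_ this
    refine integral_congr_ae (Filter.Eventually.of_forall fun p => ?_)
    simp only [Prod.swap]
    rw [gk_comm, mul_comm (ψ _)]
  have step1 : Q a g g ≤ Q a h ψ := by
    have k : ∫ p, gk a p.1 p.2 * (g p.1 * g p.2) ∂(volume.prod volume) ≤
        ∫ p, ((1 / 2) * (gk a p.1 p.2 * (h p.1 * ψ p.2)) +
          (1 / 2) * (gk a p.1 p.2 * (ψ p.1 * h p.2))) ∂(volume.prod volume) := by
      refine integral_mono i3 ((i1.const_mul _).add (i2.const_mul _)) fun p => ?_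
      simp only
      have hk := gk_pos a p.1 p.2
      by_cases hx : p.1 ∈ D
      · by_cases hy : p.2 ∈ D
        · have px := h1 p.1 (((hmem _).1 hx).trans hrR)
          have py := h1 p.2 (((hmem _).1 hy).trans hrR)
          rw [hψ, indicator_of_mem hx, indicator_of_mem hy]
          have key : g p.1 * g p.2 ≤ 1 / 2 * (h p.1 * ph κ p.2) + 1 / 2 * (ph κ p.1 * h p.2) := by
            simp only [hh]
            have e : 1 / 2 * (g p.1 ^ 2 / ph κ p.1 * ph κ p.2) +
                1 / 2 * (ph κ p.1 * (g p.2 ^ 2 / ph κ p.2)) - g p.1 * g p.2 =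
                (g p.1 * ph κ p.2 - g p.2 * ph κ p.1) ^ 2 / (2 * ph κ p.1 * ph κ p.2) := by
              field_simp
              ring
            have : 0 ≤ (g p.1 * ph κ p.2 - g p.2 * ph κ p.1) ^ 2 / (2 * ph κ p.1 * ph κ p.2) := by
              positivity
            linarith
          have := mul_le_mul_of_nonneg_left key hk.le
          linarith
        · rw [hg.out _ hy, ch.out _ hy, hψ, indicator_of_notMem hy]
          simp
      · rw [hg.out _ hx, ch.out _ hx, hψ, indicator_of_notMem hx]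
        simp
    have e := integral_add (i1.const_mul (1 / 2)) (i2.const_mul (1 / 2))
    rw [e, integral_const_mul, integral_const_mul] at k
    have q1 : Q a h ψ = ∫ p, gk a p.1 p.2 * (h p.1 * ψ p.2) ∂(volume.prod volume) := rfl
    have q2 : Q a ψ h = ∫ p, gk a p.1 p.2 * (ψ p.1 * h p.2) ∂(volume.prod volume) := rfl
    have q3 : Q a g g = ∫ p, gk a p.1 p.2 * (g p.1 * g p.2) ∂(volume.prod volume) := rfl
    rw [← q1, ← q2, hsymm, ← q3] at k
    linarith
  -- the inner integral
  have gki := fun x => gk_int ha x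
  have ge := fun x => gk_int (half_pos ha) x
  have inner_le : ∀ x ∈ D, ∫ y, gk a x y * ψ y ≤ ph κ x * Λ := by
    intro x hx
    have hxr := (hmem x).1 hx
    have ip : Integrable fun y => gk a x y * ph κ y :=
      (gki x).1.mul_bdd (c := 2 * Real.pi) (ph_cont hκ).aestronglyMeasurable
        (Filter.Eventually.of_forall fun y => ph_le κ y)
    have iq : Integrable fun y => gk a x y * ψ y :=
      (gki x).1.mul_bdd (c := 2 * Real.pi) cψ.meas.aestronglyMeasurable
        (Filter.Eventually.of_forall fun y => by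
          rw [Real.norm_eq_abs, abs_of_nonneg (cψ.nn y)]; exact cψ.le y)
    have ir : Integrable fun y => 2 * Real.pi * (Real.exp (-(a / 2) * (R' - r) ^ 2) *
        gk (a / 2) x y) := ((ge x).1.const_mul _).const_mul _
    have k : ∫ y, gk a x y * ψ y ≤ ∫ y, (gk a x y * ph κ y +
        2 * Real.pi * (Real.exp (-(a / 2) * (R' - r) ^ 2) * gk (a / 2) x y)) := by
      refine integral_mono iq (ip.add ir) fun y => ?_
      simp only
      have hk := gk_pos a x y
      have hk2 := gk_pos (a / 2) x y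
      have hE := Real.exp_pos (-(a / 2) * (R' - r) ^ 2)
      have hpos : 0 ≤ 2 * Real.pi * (Real.exp (-(a / 2) * (R' - r) ^ 2) * gk (a / 2) x y) := by
        positivity
      by_cases hy : y ∈ D
      · rw [hψ, indicator_of_mem hy]; linarith
      · rw [hψ, indicator_of_notMem hy, mul_zero]
        by_cases hy2 : ‖y‖ < R'
        · have := mul_pos hk (h1 y hy2)
          linarith
        · have hd : R' - r ≤ ‖x - y‖ := by
            have h3 := norm_sub_norm_le y x
            rw [norm_sub_rev] at h3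
            linarith
          have h4 : gk a x y ≤ Real.exp (-(a / 2) * (R' - r) ^ 2) * gk (a / 2) x y := by
            unfold gk
            rw [← Real.exp_add, Real.exp_le_exp]
            have h5 : (R' - r) ^ 2 ≤ ‖x - y‖ ^ 2 := pow_le_pow_left₀ (by linarith) hd 2
            nlinarith
          have h5 := (abs_le.1 (ph_le κ y)).1
          have h6 : -(2 * Real.pi) * gk a x y ≤ gk a x y * ph κ y := by nlinarith
          have h7 : 2 * Real.pi * gk a x y ≤ 2 * Real.pi *
              (Real.exp (-(a / 2) * (R' - r) ^ 2) * gk (a / 2) x y) :=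
            mul_le_mul_of_nonneg_left h4 (by positivity)
          linarith
    have e := integral_add ip ir
    rw [e, gauss_ph ha, integral_const_mul, integral_const_mul, (ge x).2] at k
    refine k.trans ?_
    have hx2 := h2 x hxr.le
    have hE := Real.exp_pos (-(a / 2) * (R' - r) ^ 2)
    have h8 : 2 * Real.pi * (Real.exp (-(a / 2) * (R' - r) ^ 2) * (Real.pi / (a / 2))) ≤
        ph κ x * (Real.pi / a * (4 * Real.pi / m * Real.exp (-(a / 2) * (R' - r) ^ 2))) := by
      have e3 : 2 * Real.pi * (Real.exp (-(a / 2) * (R' - r) ^ 2) * (Real.pi / (a / 2))) =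
          m * (Real.pi / a * (4 * Real.pi / m * Real.exp (-(a / 2) * (R' - r) ^ 2))) := by
        field_simp
        ring
      rw [e3]
      exact mul_le_mul_of_nonneg_right hx2 (by positivity)
    rw [hΛ]
    nlinarith [h8]
  have hQ : Q a h ψ = ∫ x, h x * ∫ y, gk a x y * ψ y := by
    unfold Q
    have : ∫ p : ℂ × ℂ, gk a p.1 p.2 * (h p.1 * ψ p.2) =
      ∫ p, gk a p.1 p.2 * (h p.1 * ψ p.2) ∂(volume.prod volume) := rfl
    rw [this, integral_prod _ i1]
    refine integral_congr_ae (Filter.Eventually.of_forall fun x => ?_)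
    simp only
    rw [← integral_const_mul]
    refine integral_congr_ae (Filter.Eventually.of_forall fun y => ?_)
    simp only
    ring
  have i4 : Integrable fun x => h x * ∫ y, gk a x y * ψ y := by
    have := i1.integral_prod_left
    refine this.congr (Filter.Eventually.of_forall fun x => ?_)
    simp only
    rw [← integral_const_mul]
    refine integral_congr_ae (Filter.Eventually.of_forall fun y => ?_)
    simp only
    ring
  have step2 : Q a h ψ ≤ ∫ x, Λ * g x ^ 2 := by
    rw [hQ]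
    refine integral_mono i4 ((hg.int_sq (R := r) Subset.rfl).const_mul _) fun x => ?_
    simp only
    by_cases hx : x ∈ D
    · have px := h1 x (((hmem _).1 hx).trans hrR)
      have h9 := mul_le_mul_of_nonneg_left (inner_le x hx) (ch.nn x)
      have e5 : h x * (ph κ x * Λ) = Λ * g x ^ 2 := by
        simp only [hh]
        field_simp
      linarith
    · rw [ch.out x hx, hg.out x hx]
      simp
  rw [integral_const_mul] at step2
  exact step1.trans step2

end Pool.Agent.R227.SA
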