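import Pool.Agent.R227.SA3
import Pool.Agent.TH298.Sch.Avg

/-! The sharp Faber–Krahn inequality for nonnegative `C¹` functions with compact support. -/

set_option autoImplicit false

open MeasureTheory Set Pool.Agent.R227.LP Filter
open scoped Topology ENNReal NNReal RealInnerProductSpace ContDiff

namespace Pool.Agent.R227.SA

open TH259.NS (B B_cont B_zero J J_eq)

/-- the Dirichlet energy -/
noncomputable def En (g : ℂ → ℝ) : ℝ :=
  ∫ x, ((fderiv ℝ g x 1) ^ 2 + (fderiv ℝ g x Complex.I) ^ 2)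

lemma jensen {f : ℝ → ℝ} (hf : Continuous f) : (∫ s in (0:ℝ)..1, f s) ^ 2 ≤ ∫ s in (0:ℝ)..1, f s ^ 2 := by
  set m := ∫ s in (0:ℝ)..1, f s with hm
  have h0 : 0 ≤ ∫ s in (0:ℝ)..1, (f s - m) ^ 2 :=
    intervalIntegral.integral_nonneg zero_le_one fun s _ => sq_nonneg _
  have e : ∀ s, (f s - m) ^ 2 = f s ^ 2 - 2 * m * f s + m ^ 2 := fun s => by ring
  simp_rw [e] at h0
  have j1 : IntervalIntegrable (fun s => f s ^ 2) volume 0 1 := (hf.pow 2).intervalIntegrable _ _
  have j2 : IntervalIntegrable (fun s => 2 * m * f s) volume 0 1 :=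
    (continuous_const.mul hf).intervalIntegrable _ _
  have j3 : IntervalIntegrable (fun _ : ℝ => m ^ 2) volume 0 1 := continuous_const.intervalIntegrable _ _
  rw [intervalIntegral.integral_add (j1.sub j2) j3, intervalIntegral.integral_sub j1 j2,
      intervalIntegral.integral_const_mul, intervalIntegral.integral_const] at h0
  simp only [sub_zero, smul_eq_mul, one_mul] at h0
  rw [← hm] at h0
  nlinarith

variable {g : ℂ → ℝ}

lemma int_dsq (hg : ContDiff ℝ 1 g) (hc : HasCompactSupport g) (z : ℂ) :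
    Integrable fun x => (fderiv ℝ g x z) ^ 2 := by
  have hgd : Continuous (fderiv ℝ g) := hg.continuous_fderiv (by simp)
  have hcz : HasCompactSupport fun x => (fderiv ℝ g x z) ^ 2 := by
    have := (hc.fderiv (𝕜 := ℝ)).comp_left (g := fun T : ℂ →L[ℝ] ℝ => (T z) ^ 2) (by simp)
    exact this
  have hcont : Continuous fun x => (fderiv ℝ g x z) ^ 2 := (hgd.clm_apply continuous_const).pow 2
  exact hcont.integrable_of_hasCompactSupport hcz

lemma shift_le (hg : ContDiff ℝ 1 g) (hc : HasCompactSupport g) (z : ℂ) :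
    ∫ x, (g (x + z) - g x) ^ 2 ≤ ∫ x, (fderiv ℝ g x z) ^ 2 := by
  have hgd : Continuous (fderiv ℝ g) := hg.continuous_fderiv (by simp)
  have hF : Continuous fun p : ℂ × ℝ => (fderiv ℝ g (p.1 + p.2 * z) z) ^ 2 := by
    have : Continuous fun p : ℂ × ℝ => fderiv ℝ g (p.1 + p.2 * z) := hgd.comp (by fun_prop)
    exact (this.clm_apply continuous_const).pow 2
  have hcI : Integrable fun x => (fderiv ℝ g x z) ^ 2 := int_dsq hg hc z
  -- integrability on the product
  have hprod : Integrable (fun p : ℂ × ℝ => (fderiv ℝ g (p.1 + p.2 * z) z) ^ 2)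
      (volume.prod (volume.restrict (Ioc (0:ℝ) 1))) := by
    rw [integrable_prod_iff' hF.aestronglyMeasurable]
    constructor
    · refine Eventually.of_forall fun s => ?_
      have h := hcI.comp_add_right ((s : ℂ) * z)
      exact h
    · have h : ∀ s : ℝ, ∫ x : ℂ, ‖(fderiv ℝ g (x + s * z) z) ^ 2‖ = ∫ x, ‖(fderiv ℝ g x z) ^ 2‖ := fun s =>
        integral_add_right_eq_self (fun x : ℂ => ‖(fderiv ℝ g x z) ^ 2‖) _
      simp only [h]
      exact integrable_const _
  have hpt : ∀ x : ℂ, (g (x + z) - g x) ^ 2 ≤ ∫ s in Ioc (0:ℝ) 1, (fderiv ℝ g (x + s * z) z) ^ 2 := by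
    intro x
    have hd : ∀ s ∈ uIcc (0:ℝ) 1, HasDerivAt (fun s : ℝ => g (x + s * z)) (fderiv ℝ g (x + s * z) z) s := by
      intro s _
      have h1 : HasDerivAt (fun s : ℝ => x + (s : ℂ) * z) z s := by
        have := ((Complex.ofRealCLM.hasDerivAt (x := s)).mul_const z).const_add x
        simpa using this
      exact ((hg.differentiable (by simp) _).hasFDerivAt.comp_hasDerivAt s h1)
    have hcs : Continuous fun s : ℝ => fderiv ℝ g (x + s * z) z := by
      have : Continuous fun s : ℝ => fderiv ℝ g (x + s * z) := hgd.comp (by fun_prop)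
      exact this.clm_apply continuous_const
    have h2 := intervalIntegral.integral_eq_sub_of_hasDerivAt hd (hcs.intervalIntegrable _ _)
    simp only [Complex.ofReal_one, one_mul, Complex.ofReal_zero, zero_mul, add_zero] at h2
    rw [← h2]
    have h3 := jensen hcs
    rwa [intervalIntegral.integral_of_le zero_le_one (f := fun s => (fderiv ℝ g (x + s * z) z) ^ 2)] at h3
  have hi1 : Integrable fun x => (g (x + z) - g x) ^ 2 := by
    have c1 : Continuous fun x => (g (x + z) - g x) ^ 2 :=
      ((hg.continuous.comp (by fun_prop)).sub hg.continuous).pow 2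
    refine c1.integrable_of_hasCompactSupport ?_
    have k1 : HasCompactSupport fun x => g (x + z) := hc.comp_homeomorph (Homeomorph.addRight z)
    have k2 := k1.sub hc
    exact k2.comp_left (g := fun t : ℝ => t ^ 2) (by simp)
  calc ∫ x, (g (x + z) - g x) ^ 2
      ≤ ∫ x, ∫ s in Ioc (0:ℝ) 1, (fderiv ℝ g (x + s * z) z) ^ 2 :=
        integral_mono hi1 hprod.integral_prod_left hpt
    _ = ∫ s in Ioc (0:ℝ) 1, ∫ x, (fderiv ℝ g (x + s * z) z) ^ 2 :=
        integral_integral_swap (f := fun (x : ℂ) (s : ℝ) => (fderiv ℝ g (x + s * z) z) ^ 2) hprod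
    _ = ∫ s in Ioc (0:ℝ) 1, ∫ x, (fderiv ℝ g x z) ^ 2 := by
        refine integral_congr_ae (Eventually.of_forall fun s => ?_)
        exact integral_add_right_eq_self (fun x : ℂ => (fderiv ℝ g x z) ^ 2) _
    _ = ∫ x, (fderiv ℝ g x z) ^ 2 := by
        rw [setIntegral_const]
        simp

lemma gauss_two {a : ℝ} (ha : 0 < a) : Integrable (fun z : ℂ => ‖z‖ ^ 2 * Real.exp (-a * ‖z‖ ^ 2)) ∧
    ∫ z : ℂ, ‖z‖ ^ 2 * Real.exp (-a * ‖z‖ ^ 2) = Real.pi / a ^ 2 := by
  have h := Complex.integral_rpow_mul_exp_neg_mul_rpow (p := 2) (q := 2) (by norm_num) (by norm_num) ha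
  have e : (2 * Real.pi / 2) * a ^ (-(2 + 2 : ℝ) / 2) * Real.Gamma ((2 + 2) / 2) = Real.pi / a ^ 2 := by
    rw [show ((2:ℝ) + 2) / 2 = 2 by norm_num, Real.Gamma_two, show (-(2 + 2 : ℝ) / 2) = -2 by norm_num,
      Real.rpow_neg ha.le]
    norm_num
    rfl
  rw [e] at h
  simp_rw [Real.rpow_two] at h
  refine ⟨?_, h⟩
  by_contra hcon
  rw [integral_undef hcon] at h
  have : 0 < Real.pi / a ^ 2 := by positivity
  linarith

lemma mp_I : MeasurePreserving (fun z : ℂ => Complex.I * z) volume volume ∧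
    MeasurableEmbedding (fun z : ℂ => Complex.I * z) :=
  ⟨Pool.Agent.TH298.Sch.mp_rot (by simp), Pool.Agent.TH298.Sch.me_rot (by simp)⟩

/-- the Gaussian form is controlled by the energy -/
theorem energy {A : Set ℂ} {M R a : ℝ} (hg : ContDiff ℝ 1 g) (hc : HasCompactSupport g)
    (hcl : Cl A M g) (hR : 0 < R) (hAR : A ⊆ Metric.ball 0 R) (ha : 0 < a) :
    Real.pi / a * ∫ x, g x ^ 2 ≤ Q a g g + Real.pi / (4 * a ^ 2) * En g := by
  have hgc := hg.continuous
  set K : ℂ → ℝ := fun z => Real.exp (-a * ‖z‖ ^ 2) with hK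
  have hKi : Integrable K ∧ ∫ z, K z = Real.pi / a := by
    have := gk_int ha 0
    simpa [gk, hK] using this
  have hKc : Continuous K := by rw [hK]; fun_prop
  set N := ∫ x, g x ^ 2 with hN
  have hgi : Integrable fun x => g x ^ 2 := hcl.int_sq hAR
  have hM : 0 ≤ M := (hcl.nn 0).trans (hcl.le 0)
  -- the correlation
  set C : ℂ → ℝ := fun z => ∫ x, g (x + z) * g x with hC
  have hF : Integrable (fun p : ℂ × ℂ => K p.2 * (g (p.1 + p.2) * g p.1)) (volume.prod volume) := by
    have hi : Integrable ((Metric.ball (0:ℂ) R ×ˢ Metric.ball (0:ℂ) (2 * R)).indicator fun _ => M * M)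
        (volume.prod volume) := by
      rw [integrable_indicator_iff (measurableSet_ball.prod measurableSet_ball)]
      refine integrableOn_const ?_
      rw [Measure.prod_prod]
      exact ENNReal.mul_ne_top measure_ball_lt_top.ne measure_ball_lt_top.ne
    refine hi.mono' ?_ (Eventually.of_forall fun p => ?_)
    · refine Continuous.aestronglyMeasurable ?_
      exact (hKc.comp continuous_snd).mul ((hgc.comp (by fun_prop)).mul (hgc.comp continuous_fst))
    · have hk0 : 0 < K p.2 := Real.exp_pos _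
      have hk1 : K p.2 ≤ 1 := by
        rw [hK]; simp only [Real.exp_le_one_iff]; nlinarith [sq_nonneg ‖p.2‖]
      rw [Real.norm_eq_abs, abs_of_nonneg (mul_nonneg hk0.le (mul_nonneg (hcl.nn _) (hcl.nn _)))]
      by_cases h1 : p.1 ∈ A
      · by_cases h2 : p.1 + p.2 ∈ A
        · have m1 := hAR h1
          have m2 := hAR h2
          rw [mem_ball_zero_iff] at m1 m2
          have m3 : ‖p.2‖ < 2 * R := by
            have : p.2 = (p.1 + p.2) - p.1 := by ring
            rw [this]
            exact (norm_sub_le _ _).trans_lt (by linarith)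
          have hmem : p ∈ Metric.ball (0:ℂ) R ×ˢ Metric.ball (0:ℂ) (2 * R) :=
            ⟨mem_ball_zero_iff.2 m1, mem_ball_zero_iff.2 m3⟩
          rw [indicator_of_mem hmem]
          have k1 : g (p.1 + p.2) * g p.1 ≤ M * M := mul_le_mul (hcl.le _) (hcl.le _) (hcl.nn _) hM
          have k2 : 0 ≤ g (p.1 + p.2) * g p.1 := mul_nonneg (hcl.nn _) (hcl.nn _)
          nlinarith
        · rw [hcl.out _ h2, zero_mul, mul_zero]
          exact indicator_nonneg (fun _ _ => mul_nonneg hM hM) _
      · rw [hcl.out _ h1, mul_zero, mul_zero]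
        exact indicator_nonneg (fun _ _ => mul_nonneg hM hM) _
  have hKC : ∫ z, K z * C z = Q a g g := by
    have h1 : ∫ z, K z * C z = ∫ z, ∫ x, K z * (g (x + z) * g x) := by
      refine integral_congr_ae (Eventually.of_forall fun z => ?_)
      simp only [hC]
      rw [integral_const_mul]
    have h2 := integral_integral_swap (f := fun (x : ℂ) (z : ℂ) => K z * (g (x + z) * g x)) hF
    rw [h1, ← h2]
    have h3 : Q a g g = ∫ x, ∫ y, gk a x y * (g x * g y) := by
      have := integral_prod _ (hcl.int_prod hcl hAR hAR ha)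
      exact this
    rw [h3]
    refine integral_congr_ae (Eventually.of_forall fun x => ?_)
    simp only
    rw [← integral_add_right_eq_self (fun y => gk a x y * (g x * g y)) x]
    refine integral_congr_ae (Eventually.of_forall fun z => ?_)
    simp only [hK, gk]
    rw [show x - (z + x) = -z by ring, norm_neg, add_comm z x]
    ring
  have hKCi : Integrable fun z => K z * C z := by
    have := hF.integral_prod_right
    refine this.congr (Eventually.of_forall fun z => ?_)
    simp only [hC]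
    rw [integral_const_mul]
  -- the differences
  set D : ℂ → ℝ := fun z => ∫ x, (g (x + z) - g x) ^ 2 with hD
  have hDC : ∀ z, D z = 2 * N - 2 * C z := by
    intro z
    have e : ∀ x, (g (x + z) - g x) ^ 2 = (g (x + z) ^ 2 + g x ^ 2) - 2 * (g (x + z) * g x) := fun x => by ring
    have i1 : Integrable fun x => g (x + z) ^ 2 := hgi.comp_add_right z
    have i2 : Integrable fun x => g (x + z) * g x := by
      have c1 : Continuous fun x => g (x + z) * g x := (hgc.comp (by fun_prop)).mul hgc
      exact c1.integrable_of_hasCompactSupport (hc.mul_left)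
    simp only [hD, e]
    have e1 := integral_sub (i1.add hgi) (i2.const_mul 2)
    simp only [Pi.add_apply] at e1
    rw [e1, integral_add i1 hgi, integral_const_mul, integral_add_right_eq_self (fun x => g x ^ 2) z]
    simp only [hC, hN]
    ring
  have hKDi : Integrable fun z => K z * D z := by
    have : (fun z => K z * D z) = fun z => 2 * N * K z - 2 * (K z * C z) := by
      funext z; rw [hDC]; ring
    rw [this]
    exact (hKi.1.const_mul _).sub (hKCi.const_mul _)
  have hKD : ∫ z, K z * D z = 2 * (Real.pi / a) * N - 2 * Q a g g := by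
    have : (fun z => K z * D z) = fun z => 2 * N * K z - 2 * (K z * C z) := by
      funext z; rw [hDC]; ring
    rw [this, integral_sub (hKi.1.const_mul _) (hKCi.const_mul _), integral_const_mul, integral_const_mul,
      hKi.2, hKC]
    ring
  have hKI : ∀ z, K (Complex.I * z) = K z := fun z => by
    simp only [hK, norm_mul, Complex.norm_I, one_mul]
  have hrot : ∫ z, K z * D (Complex.I * z) = ∫ z, K z * D z := by
    have h := mp_I.1.integral_comp mp_I.2 (fun z => K z * D z)
    simp only [hKI] at h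
    exact h
  have hroti : Integrable fun z => K z * D (Complex.I * z) := by
    have h := mp_I.1.integrable_comp_of_integrable hKDi
    have e : ((fun z => K z * D z) ∘ fun z => Complex.I * z) = fun z => K z * D (Complex.I * z) := by
      funext z
      simp only [Function.comp, hKI]
    rwa [e] at h
  have hcI : ∀ z, Integrable fun x => (fderiv ℝ g x z) ^ 2 := int_dsq hg hc
  have hsum : ∀ z, D z + D (Complex.I * z) ≤ ‖z‖ ^ 2 * En g := by
    intro z
    have h1 := shift_le hg hc z
    have h2 := shift_le hg hc (Complex.I * z)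
    have d1 : D z = ∫ x, (g (x + z) - g x) ^ 2 := rfl
    have d2 : D (Complex.I * z) = ∫ x, (g (x + Complex.I * z) - g x) ^ 2 := rfl
    have h3 : (∫ x, (fderiv ℝ g x z) ^ 2) + ∫ x, (fderiv ℝ g x (Complex.I * z)) ^ 2 = ‖z‖ ^ 2 * En g := by
      rw [← integral_add (hcI z) (hcI _), En, ← integral_const_mul]
      refine integral_congr_ae (Eventually.of_forall fun x => ?_)
      simp only
      rw [Pool.Agent.TH298.Sch.lin_val (fderiv ℝ g x) z,
        Pool.Agent.TH298.Sch.lin_val (fderiv ℝ g x) (Complex.I * z), Complex.I_mul_re, Complex.I_mul_im,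
        ← Complex.normSq_eq_norm_sq, Complex.normSq_apply]
      ring
    linarith
  have hfin : (∫ z, K z * D z) + ∫ z, K z * D (Complex.I * z) ≤ Real.pi / a ^ 2 * En g := by
    rw [← integral_add hKDi hroti]
    obtain ⟨i1, e1⟩ := gauss_two ha
    have : ∫ z : ℂ, ‖z‖ ^ 2 * Real.exp (-a * ‖z‖ ^ 2) * En g = Real.pi / a ^ 2 * En g := by
      rw [integral_mul_const, e1]
    rw [← this]
    refine integral_mono (hKDi.add hroti) (i1.mul_const _) fun z => ?_
    simp only [Pi.add_apply]
    have := mul_le_mul_of_nonneg_left (hsum z) (Real.exp_pos (-a * ‖z‖ ^ 2)).le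
    simp only [hK]
    nlinarith
  rw [hrot, hKD] at hfin
  have e9 : Real.pi / (4 * a ^ 2) = Real.pi / a ^ 2 / 4 := by field_simp
  rw [e9]
  nlinarith

lemma exp_two {x : ℝ} (hx : 0 ≤ x) : 1 - Real.exp (-x) ≥ x - x ^ 2 / 2 := by
  -- e^{-x} ≤ 1 - x + x²/2
  have h := Real.quadratic_le_exp_of_nonneg hx
  have h1 : Real.exp (-x) * Real.exp x = 1 := by rw [← Real.exp_add]; simp
  have h2 : 0 < Real.exp (-x) := Real.exp_pos _
  have h3 : Real.exp (-x) * (1 + x + x ^ 2 / 2) ≤ 1 :=
    (mul_le_mul_of_nonneg_left h h2.le).trans_eq h1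
  have h4 : 1 ≤ (1 + x + x ^ 2 / 2) * (1 - x + x ^ 2 / 2) := by nlinarith [sq_nonneg (x ^ 2)]
  have h5 : 0 < 1 + x + x ^ 2 / 2 := by positivity
  have h6 : Real.exp (-x) ≤ 1 - x + x ^ 2 / 2 := by
    by_contra hcon
    push Not at hcon
    nlinarith
  linarith

/-- the sharp Faber–Krahn inequality -/
theorem fk (hg : ContDiff ℝ 1 g) (hc : HasCompactSupport g) {A : Set ℂ} {M R r j : ℝ}
    (hcl : Cl A M g) (hA : MeasurableSet A) (hR : 0 < R) (hAR : A ⊆ Metric.ball 0 R) (hr : 0 < r)
    (hrR : r ≤ R) (hvol : volume.real A = volume.real (Metric.ball (0:ℂ) r)) (hj : 0 < j)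
    (hJ : ∀ t : ℝ, 0 ≤ t → t < j → J 0 t ≠ 0) :
    (j / r) ^ 2 * ∫ x, g x ^ 2 ≤ En g := by
  have hpi := Real.pi_pos
  set N := ∫ x, g x ^ 2 with hN
  have hN0 : 0 ≤ N := integral_nonneg fun x => sq_nonneg _
  have hJpos : ∀ t : ℝ, 0 ≤ t → t < j → 0 < J 0 t := by
    intro t ht0 ht
    by_contra hcon
    push Not at hcon
    have hJc : Continuous (J 0) := by
      have : J 0 = fun t : ℝ => (t / 2) ^ 0 * B 0 (t ^ 2 / 4) := funext fun t => J_eq 0 t
      rw [this]
      exact (by fun_prop : Continuous fun t : ℝ => (t / 2) ^ 0).mul ((B_cont 0).comp (by fun_prop))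
    have h1 : J 0 0 = 1 := by rw [J_eq]; norm_num [B_zero]
    have := intermediate_value_Icc' ht0 hJc.continuousOn
    obtain ⟨s, hs, hs0⟩ := this (⟨hcon, by rw [h1]; norm_num⟩ : (0:ℝ) ∈ Icc (J 0 t) (J 0 0))
    exact hJ s hs.1 (lt_of_le_of_lt hs.2 ht) hs0
  have key : ∀ R' : ℝ, r < R' → (j / R') ^ 2 * N ≤ En g := by
    intro R' hrR'
    have hR'0 : 0 < R' := hr.trans hrR'
    set κ := j / R' with hκdef
    have hκ : 0 < κ := div_pos hj hR'0
    have h1 : ∀ x : ℂ, ‖x‖ < R' → 0 < ph κ x := by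
      intro x hx
      rw [ph_bessel hκ]
      have h2 : κ * ‖x‖ < j := by
        rw [hκdef, div_mul_eq_mul_div, div_lt_iff₀ hR'0]
        exact mul_lt_mul_of_pos_left hx hj
      have h3 := hJpos (κ * ‖x‖) (by positivity) h2
      rw [J_eq, pow_zero, one_mul, mul_pow] at h3
      positivity
    obtain ⟨m, hm, h2⟩ : ∃ m > 0, ∀ x : ℂ, ‖x‖ ≤ r → m ≤ ph κ x := by
      obtain ⟨x0, hx0, hmin⟩ := (isCompact_closedBall (0:ℂ) r).exists_isMinOn
        ⟨0, Metric.mem_closedBall_self hr.le⟩ (ph_cont hκ).continuousOn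
      refine ⟨ph κ x0, h1 x0 ?_, fun x hx => hmin (mem_closedBall_zero_iff.2 hx)⟩
      rw [mem_closedBall_zero_iff] at hx0
      linarith
    set d := (R' - r) ^ 2 / 2 with hd
    have hd0 : 0 < d := by have : 0 < R' - r := by linarith
                           positivity
    set K := κ ^ 4 / 8 + 4 * (4 * Real.pi / m) * (2 / d ^ 2) with hK
    have hK0 : 0 ≤ K := by positivity
    have main : ∀ a : ℝ, 0 < a → (κ ^ 2 - K / a) * N ≤ En g := by
      intro a ha
      have hΛ : 0 ≤ Real.pi / a * (Real.exp (-κ ^ 2 / (4 * a)) +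
        4 * Real.pi / m * Real.exp (-(a / 2) * (R' - r) ^ 2)) := by positivity
      have e1 := fkg hA hR hrR hAR hvol ha hΛ
        (fun f hf => Q_ball ha hκ hrR' hm h1 h2 hf) hcl
      have e2 := energy hg hc hcl hR hAR ha
      rw [← hN] at e1 e2
      have e3 : Real.pi / a * N ≤ Real.pi / a * (Real.exp (-κ ^ 2 / (4 * a)) +
        4 * Real.pi / m * Real.exp (-(a / 2) * (R' - r) ^ 2)) * N + Real.pi / (4 * a ^ 2) * En g := by
        linarith
      have e4 : 4 * a * (1 - Real.exp (-κ ^ 2 / (4 * a)) -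
        4 * Real.pi / m * Real.exp (-(a / 2) * (R' - r) ^ 2)) * N ≤ En g := by
        have h5 : 0 < 4 * a ^ 2 / Real.pi := by positivity
        have h6 := mul_le_mul_of_nonneg_left e3 h5.le
        have h7 : 4 * a ^ 2 / Real.pi * (Real.pi / a * N) = 4 * a * N := by field_simp
        have h8 : 4 * a ^ 2 / Real.pi * (Real.pi / a * (Real.exp (-κ ^ 2 / (4 * a)) +
          4 * Real.pi / m * Real.exp (-(a / 2) * (R' - r) ^ 2)) * N + Real.pi / (4 * a ^ 2) * En g) =
          4 * a * (Real.exp (-κ ^ 2 / (4 * a)) +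
          4 * Real.pi / m * Real.exp (-(a / 2) * (R' - r) ^ 2)) * N + En g := by field_simp
        rw [h7, h8] at h6
        linarith
      refine le_trans ?_ e4
      refine mul_le_mul_of_nonneg_right ?_ hN0
      have h9 := exp_two (x := κ ^ 2 / (4 * a)) (by positivity)
      rw [← neg_div] at h9
      have h10 : Real.exp (-(a / 2) * (R' - r) ^ 2) ≤ 2 / (d ^ 2 * a ^ 2) := by
        have h11 : -(a / 2) * (R' - r) ^ 2 = -(a * d) := by rw [hd]; ring
        rw [h11, Real.exp_neg, inv_eq_one_div, div_le_div_iff₀ (Real.exp_pos _) (by positivity)]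
        have h12 := Real.quadratic_le_exp_of_nonneg (x := a * d) (by positivity)
        nlinarith [mul_pos ha hd0]
      have h13 : 4 * a * (κ ^ 2 / (4 * a) - (κ ^ 2 / (4 * a)) ^ 2 / 2) = κ ^ 2 - κ ^ 4 / 8 / a := by
        field_simp
        ring
      have h14 : 4 * a * (4 * Real.pi / m * (2 / (d ^ 2 * a ^ 2))) =
          4 * (4 * Real.pi / m) * (2 / d ^ 2) / a := by
        field_simp
      have h15 : 4 * a * (4 * Real.pi / m * Real.exp (-(a / 2) * (R' - r) ^ 2)) ≤
          4 * a * (4 * Real.pi / m * (2 / (d ^ 2 * a ^ 2))) := by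
        have : 0 < 4 * Real.pi / m := by positivity
        gcongr
      have h16 : 4 * a * (κ ^ 2 / (4 * a) - (κ ^ 2 / (4 * a)) ^ 2 / 2) ≤
          4 * a * (1 - Real.exp (-κ ^ 2 / (4 * a))) :=
        mul_le_mul_of_nonneg_left h9 (by positivity)
      have h17 : K / a = κ ^ 4 / 8 / a + 4 * (4 * Real.pi / m) * (2 / d ^ 2) / a := by
        rw [hK, add_div]
      rw [h17]
      rw [h13] at h16
      rw [h14] at h15
      linarith
    refine le_of_forall_pos_le_add fun ε hε => ?_
    have ha : 0 < (K * N + 1) / ε := by positivity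
    have h5 := main _ ha
    have h6 : K / ((K * N + 1) / ε) * N ≤ ε := by
      rw [div_div_eq_mul_div, div_mul_eq_mul_div, div_le_iff₀ (by positivity)]
      nlinarith
    nlinarith
  by_contra hcon
  push Not at hcon
  have hcont : ContinuousAt (fun R' : ℝ => (j / R') ^ 2 * N) r :=
    ((continuousAt_const.div continuousAt_id hr.ne').pow 2).mul continuousAt_const
  have hev : ∀ᶠ R' in 𝓝[>] r, En g < (j / R') ^ 2 * N :=
    (hcont.eventually (lt_mem_nhds hcon)).filter_mono nhdsWithin_le_nhds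
  obtain ⟨R', h1, h2⟩ := (hev.and self_mem_nhdsWithin).exists
  exact absurd (key R' h2) (not_le.2 h1)

end Pool.Agent.R227.SA
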