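import Pool.Agent.R227.SA4
import Pool.Agent.TH298.AN.Lim4

/-! The logarithmic potential as the inverse of the Laplacian. -/

set_option autoImplicit false

open MeasureTheory Set Pool.Agent.R227.LP Filter
open scoped Topology ENNReal NNReal RealInnerProductSpace ContDiff Convolution

namespace Pool.Agent.R227.SA

open Pool.Agent.TH298.Sch (X er et dd SC Sol X_cont X_dr X_dt norm_X dd_sc ext ext_int ext_cs)
open Pool.Agent.TH298.AN.ODEM (er_cont et_cont et_deriv tr_er)

/-- the Laplacian -/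
noncomputable def la (f : ℂ → ℝ) (x : ℂ) : ℝ := dd 1 (dd 1 f) x + dd Complex.I (dd Complex.I f) x

lemma la_sc {f : ℂ → ℝ} (hf : SC f) : SC (la f) :=
  (dd_sc (dd_sc hf 1) 1).add (dd_sc (dd_sc hf Complex.I) Complex.I)

/-- polar coordinates -/
theorem polar_gen {b : ℝ} (hb : 0 < b) {f : ℂ → ℝ} {F : ℝ × ℝ → ℝ} (hF : Continuous F)
    (he : ∀ r θ : ℝ, 0 < r → r * f (X r θ) = F (r, θ)) (hsupp : ∀ x, b ≤ ‖x‖ → f x = 0) :
    ∫ x : ℂ, f x = ∫ r in (0 : ℝ)..b, ∫ θ in (-Real.pi)..Real.pi, F (r, θ) := by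
  have hpi := Real.pi_pos
  have htarget : polarCoord.target = Ioi (0 : ℝ) ×ˢ Ioo (-Real.pi) Real.pi := rfl
  have hmt : MeasurableSet (Ioi (0 : ℝ) ×ˢ Ioo (-Real.pi) Real.pi) :=
    measurableSet_Ioi.prod measurableSet_Ioo
  have hs : Ioc (0 : ℝ) b ×ˢ Ioo (-Real.pi) Real.pi ⊆ Ioi 0 ×ˢ Ioo (-Real.pi) Real.pi :=
    prod_mono Ioc_subset_Ioi_self le_rfl
  rw [← Complex.integral_comp_polarCoord_symm, htarget]
  have e0 : ∫ p in Ioi (0 : ℝ) ×ˢ Ioo (-Real.pi) Real.pi, p.1 • f (Complex.polarCoord.symm p) =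
      ∫ p in Ioi (0 : ℝ) ×ˢ Ioo (-Real.pi) Real.pi, F p := by
    refine setIntegral_congr_fun hmt fun p hp => ?_
    simp only [smul_eq_mul]
    rw [Complex.polarCoord_symm_apply]
    exact he p.1 p.2 hp.1
  have e1 : ∫ p in Ioi (0 : ℝ) ×ˢ Ioo (-Real.pi) Real.pi, F p =
      ∫ p in Ioc (0 : ℝ) b ×ˢ Ioo (-Real.pi) Real.pi, F p := by
    refine setIntegral_eq_of_subset_of_forall_sdiff_eq_zero hmt hs fun p hp => ?_
    have h1 : 0 < p.1 := hp.1.1
    have h2 : b < p.1 := by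
      by_contra hcon
      exact hp.2 ⟨⟨h1, not_lt.1 hcon⟩, hp.1.2⟩
    rw [← he p.1 p.2 h1, hsupp _ (by rw [norm_X, abs_of_pos h1]; exact h2.le), mul_zero]
  have hi : IntegrableOn F (Ioc (0 : ℝ) b ×ˢ Ioo (-Real.pi) Real.pi) := by
    have h1 : IntegrableOn F (Icc (0 : ℝ) b ×ˢ Icc (-Real.pi) Real.pi) :=
      hF.continuousOn.integrableOn_compact (isCompact_Icc.prod isCompact_Icc)
    exact h1.mono_set (prod_mono Ioc_subset_Icc_self Ioo_subset_Icc_self)
  rw [e0, e1, Measure.volume_eq_prod, setIntegral_prod _ (by rw [← Measure.volume_eq_prod]; exact hi),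
    intervalIntegral.integral_of_le hb.le]
  refine setIntegral_congr_fun measurableSet_Ioc fun r _ => ?_
  rw [intervalIntegral.integral_of_le (by linarith), integral_Ioc_eq_integral_Ioo]

lemma dd_dd {v : ℂ → ℝ} (hv : ContDiff ℝ (⊤ : ℕ∞) v) (h x : ℂ) :
    dd h (dd h v) x = fderiv ℝ (fderiv ℝ v) x h h := by
  have hd1 : ContDiff ℝ (⊤ : ℕ∞) (fderiv ℝ v) := hv.fderiv_right (by simp)
  have hv2 : HasFDerivAt (fderiv ℝ v) (fderiv ℝ (fderiv ℝ v) x) x :=
    (hd1.differentiable (by simp) x).hasFDerivAt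
  have h3 : HasFDerivAt (dd h v)
      ((ContinuousLinearMap.apply ℝ ℝ h).comp (fderiv ℝ (fderiv ℝ v) x)) x :=
    (ContinuousLinearMap.apply ℝ ℝ h).hasFDerivAt.comp _ hv2
  unfold dd at h3 ⊢
  rw [h3.fderiv]
  rfl

/-- circle means and the Laplacian -/
theorem mean_la {v : ℂ → ℝ} (hv : ContDiff ℝ (⊤ : ℕ∞) v) :
    (∀ r, HasDerivAt (fun r => ∫ θ in (-Real.pi)..Real.pi, v (X r θ))
      (∫ θ in (-Real.pi)..Real.pi, fderiv ℝ v (X r θ) (er θ)) r) ∧
    Continuous (fun r => ∫ θ in (-Real.pi)..Real.pi, fderiv ℝ v (X r θ) (er θ)) ∧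
    Continuous (fun r => ∫ θ in (-Real.pi)..Real.pi, la v (X r θ)) ∧
    (∀ r, 0 < r → HasDerivAt (fun r => r * ∫ θ in (-Real.pi)..Real.pi, fderiv ℝ v (X r θ) (er θ))
      (r * ∫ θ in (-Real.pi)..Real.pi, la v (X r θ)) r) := by
  have hd1 : ContDiff ℝ (⊤ : ℕ∞) (fderiv ℝ v) := hv.fderiv_right (by simp)
  have hd2 : ContDiff ℝ (⊤ : ℕ∞) (fderiv ℝ (fderiv ℝ v)) := hd1.fderiv_right (by simp)
  have hv1 : ∀ x, HasFDerivAt v (fderiv ℝ v x) x := fun x =>
    (hv.differentiable (by simp) x).hasFDerivAt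
  have hv2 : ∀ x, HasFDerivAt (fderiv ℝ v) (fderiv ℝ (fderiv ℝ v) x) x := fun x =>
    (hd1.differentiable (by simp) x).hasFDerivAt
  have hXc := X_cont
  have cX : Continuous fun p : ℝ × ℝ => v (X p.1 p.2) := hv.continuous.comp hXc
  have cR : Continuous fun p : ℝ × ℝ => fderiv ℝ v (X p.1 p.2) (er p.2) :=
    (hd1.continuous.comp hXc).clm_apply (er_cont.comp continuous_snd)
  have cT : Continuous fun p : ℝ × ℝ => fderiv ℝ v (X p.1 p.2) (et p.2) :=
    (hd1.continuous.comp hXc).clm_apply (et_cont.comp continuous_snd)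
  have cRR : Continuous fun p : ℝ × ℝ =>
      fderiv ℝ (fderiv ℝ v) (X p.1 p.2) (er p.2) (er p.2) :=
    ((hd2.continuous.comp hXc).clm_apply (er_cont.comp continuous_snd)).clm_apply
      (er_cont.comp continuous_snd)
  have cTT : Continuous fun p : ℝ × ℝ =>
      fderiv ℝ (fderiv ℝ v) (X p.1 p.2) (et p.2) (et p.2) :=
    ((hd2.continuous.comp hXc).clm_apply (et_cont.comp continuous_snd)).clm_apply
      (et_cont.comp continuous_snd)
  have dr : ∀ r θ : ℝ, HasDerivAt (fun r : ℝ => v (X r θ)) (fderiv ℝ v (X r θ) (er θ)) r :=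
    fun r θ => (hv1 (X r θ)).comp_hasDerivAt r (X_dr r θ)
  have drr : ∀ r θ : ℝ, HasDerivAt (fun r : ℝ => fderiv ℝ v (X r θ) (er θ))
      (fderiv ℝ (fderiv ℝ v) (X r θ) (er θ) (er θ)) r := by
    intro r θ
    have h1 := (hv2 (X r θ)).comp_hasDerivAt r (X_dr r θ)
    have h2 := h1.clm_apply (hasDerivAt_const r (er θ))
    refine h2.congr_deriv ?_
    simp
  have sm : ∀ r θ : ℝ, (r : ℂ) * et θ = r • et θ := fun r θ => (Complex.real_smul).symm
  have dtt : ∀ r θ : ℝ, HasDerivAt (fun θ : ℝ => r * fderiv ℝ v (X r θ) (et θ))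
      (r ^ 2 * fderiv ℝ (fderiv ℝ v) (X r θ) (et θ) (et θ) - r * fderiv ℝ v (X r θ) (er θ)) θ := by
    intro r θ
    have h1 := (hv2 (X r θ)).comp_hasDerivAt θ (X_dt r θ)
    have h2 := (h1.clm_apply (et_deriv θ)).const_mul r
    refine h2.congr_deriv ?_
    rw [sm, map_smul]
    simp only [smul_apply, smul_eq_mul, map_neg, Function.comp_apply]
    ring
  have dI : ∀ r, HasDerivAt (fun r => ∫ θ in (-Real.pi)..Real.pi, v (X r θ))
      (∫ θ in (-Real.pi)..Real.pi, fderiv ℝ v (X r θ) (er θ)) r := by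
    intro r
    have := Pool.Agent.TH298.Sch.Coer2.param_deriv (V := fun r θ => v (X r θ))
      (D := fun r θ => fderiv ℝ v (X r θ) (er θ)) cX cR dr (φ := fun _ => 1) continuous_const r
    simpa using this
  have dI1 : ∀ r, HasDerivAt (fun r => ∫ θ in (-Real.pi)..Real.pi, fderiv ℝ v (X r θ) (er θ))
      (∫ θ in (-Real.pi)..Real.pi, fderiv ℝ (fderiv ℝ v) (X r θ) (er θ) (er θ)) r := by
    intro r
    have := Pool.Agent.TH298.Sch.Coer2.param_deriv (V := fun r θ => fderiv ℝ v (X r θ) (er θ))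
      (D := fun r θ => fderiv ℝ (fderiv ℝ v) (X r θ) (er θ) (er θ)) cR cRR drr
      (φ := fun _ => 1) continuous_const r
    simpa using this
  have per : ∀ r, X r Real.pi = X r (-Real.pi) := by intro r; unfold X; simp
  have peret : et Real.pi = et (-Real.pi) := by unfold et; simp
  have hla : ∀ r θ, la v (X r θ) = fderiv ℝ (fderiv ℝ v) (X r θ) (er θ) (er θ) +
      fderiv ℝ (fderiv ℝ v) (X r θ) (et θ) (et θ) := by
    intro r θ
    unfold la
    rw [dd_dd hv, dd_dd hv, tr_er]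
  have key : ∀ r, r ^ 2 * (∫ θ in (-Real.pi)..Real.pi, la v (X r θ)) =
      r ^ 2 * (∫ θ in (-Real.pi)..Real.pi, fderiv ℝ (fderiv ℝ v) (X r θ) (er θ) (er θ)) +
      r * ∫ θ in (-Real.pi)..Real.pi, fderiv ℝ v (X r θ) (er θ) := by
    intro r
    have sl : ∀ {g : ℝ × ℝ → ℝ}, Continuous g → Continuous fun θ : ℝ => g (r, θ) :=
      fun hg => hg.comp (continuous_const.prodMk continuous_id)
    have c1 : Continuous fun θ : ℝ => fderiv ℝ v (X r θ) (er θ) := sl cR
    have c3 : Continuous fun θ : ℝ => fderiv ℝ (fderiv ℝ v) (X r θ) (er θ) (er θ) := sl cRR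
    have c4 : Continuous fun θ : ℝ => fderiv ℝ (fderiv ℝ v) (X r θ) (et θ) (et θ) := sl cTT
    have p1 := intervalIntegral.integral_eq_sub_of_hasDerivAt (a := -Real.pi) (b := Real.pi)
      (fun θ _ => dtt r θ) ((by fun_prop : Continuous fun θ : ℝ => r ^ 2 *
        fderiv ℝ (fderiv ℝ v) (X r θ) (et θ) (et θ) - r * fderiv ℝ v (X r θ) (er θ)).intervalIntegrable _ _)
    rw [per, peret, sub_self, intervalIntegral.integral_sub
      ((by fun_prop : Continuous fun θ : ℝ => r ^ 2 *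
        fderiv ℝ (fderiv ℝ v) (X r θ) (et θ) (et θ)).intervalIntegrable _ _)
      ((by fun_prop : Continuous fun θ : ℝ => r * fderiv ℝ v (X r θ) (er θ)).intervalIntegrable _ _),
      intervalIntegral.integral_const_mul, intervalIntegral.integral_const_mul] at p1
    have e : ∫ θ in (-Real.pi)..Real.pi, la v (X r θ) =
        (∫ θ in (-Real.pi)..Real.pi, fderiv ℝ (fderiv ℝ v) (X r θ) (er θ) (er θ)) +
        ∫ θ in (-Real.pi)..Real.pi, fderiv ℝ (fderiv ℝ v) (X r θ) (et θ) (et θ) := by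
      rw [← intervalIntegral.integral_add (c3.intervalIntegrable _ _) (c4.intervalIntegrable _ _)]
      exact intervalIntegral.integral_congr fun θ _ => hla r θ
    rw [e]
    linarith
  have cla : Continuous fun p : ℝ × ℝ => la v (X p.1 p.2) := by
    have : (fun p : ℝ × ℝ => la v (X p.1 p.2)) = fun p =>
        fderiv ℝ (fderiv ℝ v) (X p.1 p.2) (er p.2) (er p.2) +
        fderiv ℝ (fderiv ℝ v) (X p.1 p.2) (et p.2) (et p.2) := funext fun p => hla p.1 p.2
    rw [this]
    exact cRR.add cTT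
  refine ⟨dI, continuous_iff_continuousAt.2 fun x => (dI1 x).continuousAt,
    Pool.Agent.TH298.Sch.Coer2.cont_int (F := fun r θ => la v (X r θ)) cla _ _, fun r hr => ?_⟩
  refine ((hasDerivAt_id r).mul (dI1 r)).congr_deriv ?_
  have h2 := key r
  simp only [id_eq, one_mul]
  have hr0 := hr.ne'
  have h3 : r * (∫ θ in (-Real.pi)..Real.pi, la v (X r θ)) =
      r * (∫ θ in (-Real.pi)..Real.pi, fderiv ℝ (fderiv ℝ v) (X r θ) (er θ) (er θ)) +
      ∫ θ in (-Real.pi)..Real.pi, fderiv ℝ v (X r θ) (er θ) := by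
    have h4 : r * (r * (∫ θ in (-Real.pi)..Real.pi, la v (X r θ))) =
      r * (r * (∫ θ in (-Real.pi)..Real.pi, fderiv ℝ (fderiv ℝ v) (X r θ) (er θ) (er θ)) +
      ∫ θ in (-Real.pi)..Real.pi, fderiv ℝ v (X r θ) (er θ)) := by linarith
    exact mul_left_cancel₀ hr0 h4
  rw [h3]
  ring

lemma trans_sc {f : ℂ → ℝ} (hf : SC f) (x : ℂ) : SC (fun y => f (y + x)) :=
  ⟨hf.sm.comp (contDiff_id.add contDiff_const), hf.cs.comp_homeomorph (Homeomorph.addRight x)⟩

lemma dd_trans (f : ℂ → ℝ) (h x y : ℂ) :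
    dd h (fun y => f (y + x)) y = dd h f (y + x) := by
  unfold dd
  rw [fderiv_comp_add_right]

/-- the fundamental solution -/
theorem rep {f : ℂ → ℝ} (hf : SC f) (x : ℂ) : ∫ y, lk x y * -(la f y) = 2 * Real.pi * f x := by
  have hpi := Real.pi_pos
  set F : ℂ → ℝ := fun y => f (y + x) with hF
  have hFs : SC F := trans_sc hf x
  have hla : ∀ y, la F y = la f (y + x) := by
    intro y
    unfold la
    have : ∀ h, dd h (dd h F) y = dd h (dd h f) (y + x) := by
      intro h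
      have e : dd h F = fun y => dd h f (y + x) := funext fun y => dd_trans f h x y
      rw [e]
      exact dd_trans (dd h f) h x y
    rw [this, this]
  rw [← integral_add_right_eq_self (fun y => lk x y * -(la f y)) x]
  have e1 : ∀ y, lk x (y + x) * -(la f (y + x)) = Real.log ‖y‖ * la F y := by
    intro y
    rw [← hla]
    unfold lk
    rw [show x - (y + x) = -y by ring, norm_neg]
    ring
  simp_rw [e1]
  obtain ⟨b, hb0, hb⟩ : ∃ b > 0, ∀ y, b ≤ ‖y‖ → F y = 0 ∧ la F y = 0 ∧ fderiv ℝ F y = 0 := by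
    obtain ⟨b, hb⟩ := (hFs.cs.isCompact.isBounded).exists_norm_le
    refine ⟨max b 0 + 1, by positivity, fun y hy => ?_⟩
    have hy' : y ∉ tsupport F := fun h => by
      have := hb y h
      have := le_max_left b 0
      linarith
    have h0 : F =ᶠ[𝓝 y] 0 := notMem_tsupport_iff_eventuallyEq.1 hy'
    have hdz : ∀ (G : ℂ → ℝ), G =ᶠ[𝓝 y] 0 → ∀ h, dd h G =ᶠ[𝓝 y] 0 := by
      intro G hG h
      filter_upwards [hG.fderiv (𝕜 := ℝ)] with z hz
      unfold dd
      rw [hz]
      simp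
    refine ⟨h0.self_of_nhds, ?_, ?_⟩
    · unfold la
      rw [(hdz _ (hdz _ h0 1) 1).self_of_nhds, (hdz _ (hdz _ h0 Complex.I) Complex.I).self_of_nhds]
      simp
    · have := (h0.fderiv (𝕜 := ℝ)).self_of_nhds
      rw [this]
      simp
  obtain ⟨d0, c1, cL, d1⟩ := mean_la hFs.sm
  set I0 : ℝ → ℝ := fun r => ∫ θ in (-Real.pi)..Real.pi, F (X r θ) with hI0
  set I1 : ℝ → ℝ := fun r => ∫ θ in (-Real.pi)..Real.pi, fderiv ℝ F (X r θ) (er θ) with hI1
  set L : ℝ → ℝ := fun r => ∫ θ in (-Real.pi)..Real.pi, la F (X r θ) with hL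
  have claX : Continuous fun p : ℝ × ℝ => la F (X p.1 p.2) := (la_sc hFs).cont.comp X_cont
  have hpolar := polar_gen hb0 (f := fun y => Real.log ‖y‖ * la F y)
    (F := fun p => (p.1 * Real.log p.1) * la F (X p.1 p.2))
    ((Real.continuous_mul_log.comp continuous_fst).mul claX)
    (fun r θ hr => by
      simp only
      rw [norm_X, abs_of_pos hr]
      ring)
    (fun y hy => by rw [(hb y hy).2.1, mul_zero])
  rw [hpolar]
  simp only
  have e2 : ∀ r : ℝ, ∫ θ in (-Real.pi)..Real.pi, r * Real.log r * la F (X r θ) =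
      r * Real.log r * L r := fun r => intervalIntegral.integral_const_mul _ _
  simp_rw [e2]
  have hc0 : Continuous I0 := continuous_iff_continuousAt.2 fun r => (d0 r).continuousAt
  have hder : ∀ r ∈ Ioo 0 b, HasDerivAt (fun r => r * Real.log r * I1 r - I0 r)
      (r * Real.log r * L r) r := by
    intro r hr
    have h1 := ((Real.hasDerivAt_log hr.1.ne').mul (d1 r hr.1)).sub (d0 r)
    have e3 : (fun r => r * Real.log r * I1 r - I0 r) =
        fun r => Real.log r * (r * I1 r) - I0 r := by funext r; ring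
    rw [e3]
    refine h1.congr_deriv ?_
    have := hr.1.ne'
    simp only [hI1, hL]
    field_simp
    ring
  have hcont : ContinuousOn (fun r => r * Real.log r * I1 r - I0 r) (Icc 0 b) :=
    ((Real.continuous_mul_log.mul c1).sub hc0).continuousOn
  have hint : IntervalIntegrable (fun r => r * Real.log r * L r) volume 0 b :=
    (Real.continuous_mul_log.mul cL).intervalIntegrable _ _
  rw [intervalIntegral.integral_eq_sub_of_hasDerivAt_of_le hb0.le hcont hder hint]
  have hI0b : I0 b = 0 := by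
    simp only [hI0]
    have : ∀ θ, F (X b θ) = 0 := fun θ => (hb _ (by rw [norm_X, abs_of_pos hb0])).1
    simp [this]
  have hI1b : I1 b = 0 := by
    simp only [hI1]
    have : ∀ θ, fderiv ℝ F (X b θ) (er θ) = 0 := fun θ => by
      rw [(hb _ (by rw [norm_X, abs_of_pos hb0])).2.2]; simp
    simp [this]
  have hI00 : I0 0 = 2 * Real.pi * f x := by
    simp only [hI0]
    have : ∀ θ, F (X 0 θ) = f x := fun θ => by simp [hF, X]
    simp only [this, intervalIntegral.integral_const, smul_eq_mul]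
    ring
  rw [hI0b, hI1b, hI00]
  simp

/-- the logarithm is locally integrable -/
lemma log_li : LocallyIntegrable (fun z : ℂ => -Real.log ‖z‖) volume := by
  rw [locallyIntegrable_iff]
  intro K hK
  obtain ⟨R, hR⟩ := hK.isBounded.exists_norm_le
  have hR1 : 0 < |R| + 1 := by positivity
  have h := (lk_memLp 0 hR1).1
  have hfin : IsFiniteMeasure (volume.restrict K) :=
    ⟨by rw [Measure.restrict_apply_univ]; exact hK.measure_lt_top⟩
  have h2 : IntegrableOn ((Metric.ball (0 : ℂ) (|R| + 1)).indicator (fun y => lk 0 y)) K :=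
    (h.restrict K).integrable (by norm_num)
  refine h2.congr_fun (fun z hz => ?_) hK.measurableSet
  have hzb : z ∈ Metric.ball (0 : ℂ) (|R| + 1) := by
    rw [mem_ball_zero_iff]
    have := hR z hz
    have := le_abs_self R
    linarith
  rw [indicator_of_mem hzb]
  simp [lk]

lemma pot_conv (φ : ℂ → ℝ) :
    pot φ = (fun z : ℂ => -Real.log ‖z‖) ⋆[ContinuousLinearMap.mul ℝ ℝ, volume] φ := by
  funext x
  rw [convolution_def]
  simp only [ContinuousLinearMap.mul_apply']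
  unfold pot
  rw [← integral_sub_left_eq_self (fun y => lk x y * φ y) volume x]
  refine integral_congr_ae (Eventually.of_forall fun y => ?_)
  simp only [lk]
  rw [show x - (x - y) = y by ring]

lemma pot_smooth {φ : ℂ → ℝ} (hφ : SC φ) : ContDiff ℝ (⊤ : ℕ∞) (pot φ) := by
  rw [pot_conv]
  exact hφ.cs.contDiff_convolution_right _ log_li hφ.sm

lemma dd_pot {φ : ℂ → ℝ} (hφ : SC φ) (h x : ℂ) : dd h (pot φ) x = pot (dd h φ) x := by
  have h1 := hφ.cs.hasFDerivAt_convolution_right (ContinuousLinearMap.mul ℝ ℝ)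
    log_li (hφ.sm.of_le (by simp)) x
  rw [pot_conv (dd h φ)]
  unfold dd
  rw [pot_conv, h1.fderiv, convolution_precompR_apply (ContinuousLinearMap.mul ℝ ℝ)
    log_li (hφ.cs.fderiv ℝ) (hφ.sm.continuous_fderiv (by simp)) x h]

lemma la_pot {φ : ℂ → ℝ} (hφ : SC φ) (x : ℂ) : la (pot φ) x = -(2 * Real.pi * φ x) := by
  have e : ∀ h, dd h (dd h (pot φ)) x = pot (dd h (dd h φ)) x := by
    intro h
    have : dd h (pot φ) = pot (dd h φ) := funext fun y => dd_pot hφ h y
    rw [this, dd_pot (dd_sc hφ h)]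
  have h0 := rep hφ x
  unfold la
  rw [e, e]
  obtain ⟨R, hR⟩ := (hφ.cs.isCompact.isBounded).exists_norm_le
  have hni : ∀ ψ : ℂ → ℝ, SC ψ → ∃ R > 0, Nice R ψ := by
    intro ψ hψ
    obtain ⟨R, hR⟩ := (hψ.cs.isCompact.isBounded).exists_norm_le
    refine ⟨|R| + 1, by positivity, hψ.cont.memLp_of_hasCompactSupport hψ.cs, fun y hy => ?_⟩
    apply image_eq_zero_of_notMem_tsupport
    intro h
    have := hR y h
    have := le_abs_self R
    linarith
  obtain ⟨R1, hR1, n1⟩ := hni _ (dd_sc (dd_sc hφ 1) 1)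
  obtain ⟨R2, hR2, n2⟩ := hni _ (dd_sc (dd_sc hφ Complex.I) Complex.I)
  rw [← h0]
  unfold pot
  rw [← integral_add (n1.int hR1 x) (n2.int hR2 x), ← integral_neg]
  refine integral_congr_ae (Eventually.of_forall fun y => ?_)
  simp only [la]
  ring

end Pool.Agent.R227.SA
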