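import Pool.Agent.R227.SA5
import Pool.Agent.TH298.AN.Lim4
import Pool.Agent.TH298.AN.Disc

/-! From the weak problem to a logarithmic potential; potentials of bounded functions are `C¹`. -/

set_option autoImplicit false

open MeasureTheory Set Pool.Agent.R227.LP Filter
open scoped Topology ENNReal NNReal RealInnerProductSpace ContDiff

namespace Pool.Agent.R227.SA

open Pool.Agent.TH298.Sch (X er et dd SC Sol X_cont X_dr X_dt norm_X dd_sc)

lemma sc_nice {ψ : ℂ → ℝ} (hψ : SC ψ) : ∃ R > 0, ∀ R' ≥ R, Nice R' ψ := by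
  obtain ⟨R, hR⟩ := (hψ.cs.isCompact.isBounded).exists_norm_le
  refine ⟨|R| + 1, by positivity, fun R' hR' =>
    ⟨hψ.cont.memLp_of_hasCompactSupport hψ.cs, fun y hy => ?_⟩⟩
  apply image_eq_zero_of_notMem_tsupport
  intro h
  have := hR y h
  have := le_abs_self R
  linarith

/-- symmetry of the logarithmic form against test functions -/
lemma pot_symm {R : ℝ} {g φ : ℂ → ℝ} (hg : Nice R g) (hφ : SC φ) :
    ∫ x, pot g x * φ x = ∫ x, g x * pot φ x := by
  obtain ⟨R', hR', hN⟩ := sc_nice hφ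
  have h1 := (hg.mono (le_max_left R R')).bf_comm (lt_max_of_lt_right hR') (hN _ (le_max_right R R'))
  unfold bf at h1
  rw [h1]
  refine integral_congr_ae (Eventually.of_forall fun x => ?_)
  exact mul_comm _ _

/-- the potential solves Poisson's equation in the sense of distributions -/
lemma pot_weak {R : ℝ} {g φ : ℂ → ℝ} (hg : Nice R g) (hφ : SC φ) :
    ∫ x, pot g x * la φ x = -(2 * Real.pi) * ∫ x, g x * φ x := by
  rw [pot_symm hg (la_sc hφ), ← integral_const_mul]
  refine integral_congr_ae (Eventually.of_forall fun x => ?_)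
  have h := rep hφ x
  simp only
  have e : pot (la φ) x = -(2 * Real.pi * φ x) := by
    unfold pot
    rw [← h, ← integral_neg]
    refine integral_congr_ae (Eventually.of_forall fun y => ?_)
    simp only
    ring
  rw [e]
  ring

variable {Ω : Set ℂ} {lam c : ℝ} {u : ℂ → ℝ} {G : ℂ → ℂ}

theorem from_sol (hb : Bornology.IsBounded Ω) (hm : MeasurableSet Ω) (hlam : 0 < lam)
    (h : Sol Ω lam c u G) : ∃ (g : ℂ → ℝ) (R M : ℝ), 0 < R ∧ Ω ⊆ Metric.ball 0 R ∧ Nice R g ∧
      (∀ x, |g x| ≤ M) ∧ Measurable g ∧ (∀ x, x ∉ Ω → g x = 0) ∧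
      (∀ x ∈ Ω, g x = lam / (2 * Real.pi) * pot g x + c) ∧
      (∀ᵐ x, lam / (2 * Real.pi) * pot g x = Ω.indicator (fun x => u x - c) x) := by
  have hpi := Real.pi_pos
  have hfin := Sol.fin hb
  have hui := h.ui hb
  have hGi := h.Gi hb
  obtain ⟨R, hR0, hR⟩ : ∃ R : ℝ, 0 < R ∧ Ω ⊆ Metric.ball 0 R := by
    obtain ⟨R, hR⟩ := hb.subset_ball 0
    exact ⟨max R 1, by positivity, hR.trans (Metric.ball_subset_ball (le_max_left _ _))⟩
  set g0 : ℂ → ℝ := Ω.indicator u with hg0
  have hg0n : Nice R g0 := by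
    refine ⟨(memLp_indicator_iff_restrict hm).2 h.u2, fun x hx => indicator_of_notMem (fun hx' => ?_) _⟩
    have := hR hx'
    rw [mem_ball_zero_iff] at this
    linarith
  set v0 : ℂ → ℝ := fun x => lam / (2 * Real.pi) * pot g0 x with hv0
  have hpc : Continuous (pot g0) := hg0n.continuous hR0
  have hv0c : Continuous v0 := continuous_const.mul hpc
  -- the identity
  have hae : ∀ᵐ x, 2 * Real.pi * Ω.indicator (fun x => u x - c) x - lam * pot g0 x = 0 := by
    have hi : Integrable (Ω.indicator (fun x => u x - c)) :=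
      (integrable_indicator_iff hm).2 (hui.sub (integrable_const c))
    refine ae_eq_zero_of_integral_contDiff_smul_eq_zero
      ((hi.const_mul _).locallyIntegrable.sub (continuous_const.mul hpc).locallyIntegrable) ?_
    intro φ hφ1 hφ2
    have hφ : SC φ := ⟨hφ1, hφ2⟩
    have hψ := pot_smooth hφ
    set ψ := pot φ with hψd
    have d1 : ∀ v : ℂ, ContDiff ℝ 1 (dd v ψ) := by
      intro v
      exact ((hψ.fderiv_right (m := 1) (by norm_cast)).clm_apply contDiff_const)
    have w1 := (Pool.Agent.W632.Schiffer.weak_all hb hm h.h1 h.h2 (dd 1 ψ) (d1 1)).1 1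
    have w2 := (Pool.Agent.W632.Schiffer.weak_all hb hm h.h1 h.h2 (dd Complex.I ψ) (d1 Complex.I)).1
      Complex.I
    have w3 := (Pool.Agent.W632.Schiffer.weak_all hb hm h.h1 h.h2 ψ (hψ.of_le (by exact_mod_cast le_top))).2
    have i1 : ∀ y, (inner ℝ (G y) (1 : ℂ) : ℝ) = (G y).re := fun y => by
      rw [Complex.inner]; simp
    have i2 : ∀ y, (inner ℝ (G y) Complex.I : ℝ) = (G y).im := fun y => by
      rw [Complex.inner]; simp
    simp only [i1] at w1
    simp only [i2] at w2
    have hGr : IntegrableOn (fun x => (G x).re) Ω := hGi.re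
    have hGim : IntegrableOn (fun x => (G x).im) Ω := hGi.im
    have huc : IntegrableOn (fun x => u x - c) Ω := hui.sub (integrable_const c)
    have cdd : ∀ v : ℂ, Continuous (dd v ψ) := fun v => (d1 v).continuous
    have cddd : ∀ v : ℂ, Continuous fun x => fderiv ℝ (dd v ψ) x v := fun v =>
      ((d1 v).continuous_fderiv (by norm_num)).clm_apply continuous_const
    have j1 := Pool.Agent.TH298.AN.int_mul hb hm huc (cddd 1)
    have j2 := Pool.Agent.TH298.AN.int_mul hb hm huc (cddd Complex.I)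
    have j3 := Pool.Agent.TH298.AN.int_mul hb hm hGr (cdd 1)
    have j4 := Pool.Agent.TH298.AN.int_mul hb hm hGim (cdd Complex.I)
    have e1 : ∫ x in Ω, (u x - c) * la ψ x = -(lam * ∫ x in Ω, u x * ψ x) := by
      have e2 : ∫ x in Ω, (u x - c) * la ψ x =
          (∫ x in Ω, (u x - c) * fderiv ℝ (dd 1 ψ) x 1) +
          ∫ x in Ω, (u x - c) * fderiv ℝ (dd Complex.I ψ) x Complex.I := by
        rw [← integral_add j1 j2]
        refine integral_congr_ae (Eventually.of_forall fun x => ?_)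
        simp only [la, dd]
        ring
      have e3 : ∫ x in Ω, fderiv ℝ ψ x (G x) =
          (∫ x in Ω, (G x).re * dd 1 ψ x) + ∫ x in Ω, (G x).im * dd Complex.I ψ x := by
        rw [← integral_add j3 j4]
        refine integral_congr_ae (Eventually.of_forall fun x => ?_)
        exact Pool.Agent.TH298.Sch.lin_val _ _
      rw [e2, w1, w2, ← w3, e3]
      ring
    have e4 : ∫ x in Ω, (u x - c) * la ψ x = -(2 * Real.pi) * ∫ x in Ω, (u x - c) * φ x := by
      rw [← integral_const_mul]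
      refine integral_congr_ae (Eventually.of_forall fun x => ?_)
      simp only
      rw [hψd, la_pot hφ]
      ring
    rw [e4] at e1
    have e5 : ∫ x in Ω, u x * ψ x = ∫ x, pot g0 x * φ x := by
      rw [pot_symm hg0n hφ, ← integral_indicator hm]
      refine integral_congr_ae (Eventually.of_forall fun x => ?_)
      simp only [hg0]
      by_cases hx : x ∈ Ω
      · rw [indicator_of_mem hx, indicator_of_mem hx]
      · rw [indicator_of_notMem hx, indicator_of_notMem hx, zero_mul]
    have e6 : ∫ x in Ω, (u x - c) * φ x = ∫ x, Ω.indicator (fun x => u x - c) x * φ x := by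
      rw [← integral_indicator hm]
      refine integral_congr_ae (Eventually.of_forall fun x => ?_)
      by_cases hx : x ∈ Ω
      · simp only [indicator_of_mem hx]
      · simp only [indicator_of_notMem hx, zero_mul]
    rw [e5, e6] at e1
    have k1 : Integrable fun x => Ω.indicator (fun x => u x - c) x * φ x := by
      obtain ⟨C, hC⟩ := hφ.cs.exists_bound_of_continuous hφ.cont
      exact hi.mul_bdd (c := C) hφ.cont.aestronglyMeasurable (Eventually.of_forall hC)
    have k2 : Integrable fun x => pot g0 x * φ x :=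
      (hpc.mul hφ.cont).integrable_of_hasCompactSupport hφ.cs.mul_left
    have e7 : ∫ x, φ x • (2 * Real.pi * Ω.indicator (fun x => u x - c) x - lam * pot g0 x) =
        2 * Real.pi * (∫ x, Ω.indicator (fun x => u x - c) x * φ x) -
          lam * ∫ x, pot g0 x * φ x := by
      rw [← integral_const_mul, ← integral_const_mul, ← integral_sub (k1.const_mul _) (k2.const_mul _)]
      refine integral_congr_ae (Eventually.of_forall fun x => ?_)
      simp only [smul_eq_mul]
      ring
    rw [e7]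
    linarith
  have hae2 : ∀ᵐ x, v0 x = Ω.indicator (fun x => u x - c) x := by
    filter_upwards [hae] with x hx
    simp only [hv0]
    field_simp
    linarith
  set g : ℂ → ℝ := Ω.indicator (fun x => v0 x + c) with hg
  have hgg : g =ᵐ[volume] g0 := by
    filter_upwards [hae2] with x hx
    simp only [hg, hg0]
    by_cases hx' : x ∈ Ω
    · rw [indicator_of_mem hx', indicator_of_mem hx', hx, indicator_of_mem hx']
      ring
    · rw [indicator_of_notMem hx', indicator_of_notMem hx']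
  have hpot : pot g = pot g0 := pot_congr hgg
  have hout : ∀ x, x ∉ Ω → g x = 0 := fun x hx => indicator_of_notMem hx _
  obtain ⟨M, hM⟩ := (isCompact_closedBall (0 : ℂ) R).exists_bound_of_continuousOn
    (f := fun x => v0 x + c) (hv0c.add continuous_const).continuousOn
  refine ⟨g, R, |M|, hR0, hR, ⟨(memLp_congr_ae hgg).2 hg0n.mem, fun x hx => hout x fun hx' => ?_⟩, fun x => ?_,
    (hv0c.measurable.add_const c).indicator hm, hout, fun x hx => ?_, ?_⟩
  · have := hR hx'
    rw [mem_ball_zero_iff] at this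
    linarith
  · by_cases hx : x ∈ Ω
    · rw [hg, indicator_of_mem hx]
      have h1 := hM x (by
        have := hR hx
        rw [mem_ball_zero_iff] at this
        rw [mem_closedBall_zero_iff]
        exact this.le)
      rw [Real.norm_eq_abs] at h1
      exact h1.trans (le_abs_self M)
    · rw [hout x hx, abs_zero]
      exact abs_nonneg _
  · rw [hpot, hg, indicator_of_mem hx]
  · rw [hpot]
    exact hae2

/-! ### potentials of bounded functions -/

/-- the gradient kernel -/
noncomputable def gp (e : ℂ) (g : ℂ → ℝ) (x : ℂ) : ℝ := ∫ y, (⟪x - y, e⟫ / ‖x - y‖ ^ 2) * g y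

variable {R M : ℝ} {g : ℂ → ℝ}

lemma kern_le (z e : ℂ) : |⟪z, e⟫ / ‖z‖ ^ 2| ≤ ‖e‖ * ‖z‖⁻¹ := by
  rcases eq_or_ne z 0 with h | h
  · rw [h]; simp
  · have hz : 0 < ‖z‖ := norm_pos_iff.2 h
    rw [abs_div, abs_of_pos (pow_pos hz 2), div_le_iff₀ (pow_pos hz 2)]
    have h1 : ‖e‖ * ‖z‖⁻¹ * ‖z‖ ^ 2 = ‖z‖ * ‖e‖ := by field_simp
    rw [h1]
    exact abs_real_inner_le_norm _ _

lemma kern_meas (e : ℂ) : Measurable fun z : ℂ => ⟪z, e⟫ / ‖z‖ ^ 2 := by fun_prop

/-- integrability of the gradient kernel -/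
lemma gp_int (hR : 0 < R) (hgm : Measurable g) (hgM : ∀ x, |g x| ≤ M)
    (hg0 : ∀ x, R ≤ ‖x‖ → g x = 0) (e x : ℂ) :
    Integrable (fun y => ‖e‖ * ‖x - y‖⁻¹ * |g y|) ∧
    Integrable (fun y => (⟪x - y, e⟫ / ‖x - y‖ ^ 2) * g y) ∧
    ∫ y, ‖e‖ * ‖x - y‖⁻¹ * |g y| ≤ ‖e‖ * M * (2 * Real.pi * (‖x‖ + R)) := by
  have hM : 0 ≤ M := (abs_nonneg _).trans (hgM 0)
  obtain ⟨h1, h2⟩ := inv_int x hR
  have h3 : Integrable ((Metric.ball (0:ℂ) R).indicator fun y => ‖x - y‖⁻¹) :=
    (integrable_indicator_iff measurableSet_ball).2 h1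
  have hle : ∀ y, ‖e‖ * ‖x - y‖⁻¹ * |g y| ≤
      ‖e‖ * M * (Metric.ball (0:ℂ) R).indicator (fun y => ‖x - y‖⁻¹) y := by
    intro y
    by_cases hy : y ∈ Metric.ball (0:ℂ) R
    · rw [indicator_of_mem hy]
      have : 0 ≤ ‖e‖ * ‖x - y‖⁻¹ := by positivity
      nlinarith [hgM y]
    · rw [indicator_of_notMem hy, hg0 y (by simpa using hy)]
      simp
  have i1 : Integrable (fun y => ‖e‖ * ‖x - y‖⁻¹ * |g y|) := by
    refine (h3.const_mul (‖e‖ * M)).mono' ?_ (Eventually.of_forall fun y => ?_)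
    · exact (by fun_prop : Measurable fun y => ‖e‖ * ‖x - y‖⁻¹ * |g y|).aestronglyMeasurable
    · rw [Real.norm_eq_abs, abs_of_nonneg (by positivity)]
      exact hle y
  refine ⟨i1, ?_, ?_⟩
  · refine i1.mono' ?_ (Eventually.of_forall fun y => ?_)
    · exact (((kern_meas e).comp (by fun_prop : Measurable fun y : ℂ => x - y)).mul hgm).aestronglyMeasurable
    · rw [norm_mul, Real.norm_eq_abs, Real.norm_eq_abs]
      exact mul_le_mul_of_nonneg_right (kern_le _ _) (abs_nonneg _)
  · calc ∫ y, ‖e‖ * ‖x - y‖⁻¹ * |g y| ≤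
        ∫ y, ‖e‖ * M * (Metric.ball (0:ℂ) R).indicator (fun y => ‖x - y‖⁻¹) y :=
          integral_mono i1 (h3.const_mul _) hle
      _ = ‖e‖ * M * ∫ y in Metric.ball (0:ℂ) R, ‖x - y‖⁻¹ := by
          rw [integral_const_mul, integral_indicator measurableSet_ball]
      _ ≤ _ := mul_le_mul_of_nonneg_left h2 (by positivity)

lemma gp_cont (hR : 0 < R) (hgm : Measurable g) (hgM : ∀ x, |g x| ≤ M)
    (hg0 : ∀ x, R ≤ ‖x‖ → g x = 0) (e : ℂ) : Continuous (gp e g) := by
  have hM : 0 ≤ M := (abs_nonneg _).trans (hgM 0)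
  -- regularized kernels
  set F : ℕ → ℂ → ℝ := fun n x => ∫ y, (⟪x - y, e⟫ / max (‖x - y‖ ^ 2) ((1 / (n + 1 : ℝ)) ^ 2)) * g y
    with hF
  have hδ : ∀ n : ℕ, 0 < (1 / (n + 1 : ℝ)) := fun n => by positivity
  have hgi : Integrable fun y => |g y| := by
    have hi : Integrable ((Metric.ball (0:ℂ) R).indicator fun _ => M) := by
      rw [integrable_indicator_iff measurableSet_ball]
      exact integrableOn_const measure_ball_lt_top.ne
    refine hi.mono' hgm.norm.aestronglyMeasurable (Eventually.of_forall fun y => ?_)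
    rw [Real.norm_eq_abs, abs_abs]
    by_cases hy : y ∈ Metric.ball (0:ℂ) R
    · rw [indicator_of_mem hy]; exact hgM y
    · rw [indicator_of_notMem hy, hg0 y (by simpa using hy), abs_zero]
  have hbd : ∀ (n : ℕ) (z : ℂ), |⟪z, e⟫ / max (‖z‖ ^ 2) ((1 / (n + 1 : ℝ)) ^ 2)| ≤ ‖e‖ * (n + 1) := by
    intro n z
    have hm : 0 < max (‖z‖ ^ 2) ((1 / (n + 1 : ℝ)) ^ 2) := lt_max_of_lt_right (pow_pos (hδ n) 2)
    rw [abs_div, abs_of_pos hm, div_le_iff₀ hm]
    refine (abs_real_inner_le_norm z e).trans ?_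
    have h1 : ‖z‖ ≤ (n + 1 : ℝ) * max (‖z‖ ^ 2) ((1 / (n + 1 : ℝ)) ^ 2) := by
      rcases le_total ‖z‖ (1 / (n + 1 : ℝ)) with h | h
      · have h2 : (n + 1 : ℝ) * ((1 / (n + 1 : ℝ)) ^ 2) = 1 / (n + 1 : ℝ) := by field_simp
        have h3 := mul_le_mul_of_nonneg_left (le_max_right (‖z‖ ^ 2) ((1 / (n + 1 : ℝ)) ^ 2))
          (by positivity : (0:ℝ) ≤ n + 1)
        linarith
      · have h3 := mul_le_mul_of_nonneg_left (le_max_left (‖z‖ ^ 2) ((1 / (n + 1 : ℝ)) ^ 2))
          (by positivity : (0:ℝ) ≤ n + 1)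
        have h4 : 1 ≤ (n + 1 : ℝ) * ‖z‖ := by
          rw [div_le_iff₀ (by positivity)] at h
          linarith
        nlinarith [norm_nonneg z]
    nlinarith [norm_nonneg e]
  have hFc : ∀ n, Continuous (F n) := by
    intro n
    refine continuous_of_dominated (F := fun (x y : ℂ) =>
      (⟪x - y, e⟫ / max (‖x - y‖ ^ 2) ((1 / (n + 1 : ℝ)) ^ 2)) * g y)
      (bound := fun y => ‖e‖ * (n + 1) * |g y|) ?_ ?_ (hgi.const_mul _) ?_
    · intro x
      refine Measurable.aestronglyMeasurable ?_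
      fun_prop
    · intro x
      refine Eventually.of_forall fun y => ?_
      rw [norm_mul, Real.norm_eq_abs, Real.norm_eq_abs]
      exact mul_le_mul_of_nonneg_right (hbd n _) (abs_nonneg _)
    · refine Eventually.of_forall fun y => ?_
      refine Continuous.mul ?_ continuous_const
      refine Continuous.div (by fun_prop) (by fun_prop) fun x => ?_
      exact (lt_max_of_lt_right (pow_pos (hδ n) 2)).ne'
  -- uniform convergence
  have hdiff : ∀ (n : ℕ) (x : ℂ), |gp e g x - F n x| ≤ 2 * ‖e‖ * M * (2 * Real.pi * (1 / (n + 1 : ℝ))) := by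
    intro n x
    obtain ⟨-, i1, -⟩ := gp_int hR hgm hgM hg0 e x
    have i2 : Integrable fun y => (⟪x - y, e⟫ / max (‖x - y‖ ^ 2) ((1 / (n + 1 : ℝ)) ^ 2)) * g y := by
      refine (hgi.const_mul (‖e‖ * (n + 1))).mono' ?_ (Eventually.of_forall fun y => ?_)
      · refine Measurable.aestronglyMeasurable ?_
        fun_prop
      · rw [norm_mul, Real.norm_eq_abs, Real.norm_eq_abs]
        exact mul_le_mul_of_nonneg_right (hbd n _) (abs_nonneg _)
    unfold gp
    simp only [hF]
    rw [← integral_sub i1 i2]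
    obtain ⟨i3, e3⟩ := inv_norm_ball' x (hδ n)
    rw [← e3, ← integral_const_mul]
    refine (abs_integral_le_integral_abs).trans ?_
    refine integral_mono (i1.sub i2).abs (i3.const_mul _) fun y => ?_
    simp only [Pi.sub_apply]
    rw [← sub_mul, abs_mul]
    by_cases hy : y ∈ Metric.ball x (1 / (n + 1 : ℝ))
    · rw [indicator_of_mem hy]
      have h1 : |⟪x - y, e⟫ / ‖x - y‖ ^ 2 - ⟪x - y, e⟫ / max (‖x - y‖ ^ 2) ((1 / (n + 1 : ℝ)) ^ 2)| ≤
          2 * (‖e‖ * ‖x - y‖⁻¹) := by
        refine (abs_sub _ _).trans ?_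
        have h2 := kern_le (x - y) e
        have h3 : |⟪x - y, e⟫ / max (‖x - y‖ ^ 2) ((1 / (n + 1 : ℝ)) ^ 2)| ≤ ‖e‖ * ‖x - y‖⁻¹ := by
          refine le_trans ?_ h2
          rcases eq_or_ne (x - y) 0 with h | h
          · rw [h]; simp
          · have hz : 0 < ‖x - y‖ := norm_pos_iff.2 h
            rw [abs_div, abs_div]
            refine div_le_div_of_nonneg_left (abs_nonneg _) (by positivity) ?_
            rw [abs_of_pos (pow_pos hz 2), abs_of_pos (lt_max_of_lt_left (pow_pos hz 2))]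
            exact le_max_left _ _
        linarith
      have h4 : 0 ≤ ‖e‖ * ‖x - y‖⁻¹ := by positivity
      calc _ ≤ 2 * (‖e‖ * ‖x - y‖⁻¹) * M :=
            mul_le_mul h1 (hgM y) (abs_nonneg _) (by positivity)
        _ = _ := by ring
    · rw [indicator_of_notMem hy]
      have h1 : max (‖x - y‖ ^ 2) ((1 / (n + 1 : ℝ)) ^ 2) = ‖x - y‖ ^ 2 := by
        apply max_eq_left
        rw [Metric.mem_ball, dist_eq_norm, not_lt, norm_sub_rev] at hy
        exact pow_le_pow_left₀ (hδ n).le hy 2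
      rw [h1, sub_self, abs_zero]
      simp
  have hT : TendstoUniformly F (gp e g) atTop := by
    rw [Metric.tendstoUniformly_iff]
    intro ε hε
    have ht : Tendsto (fun n : ℕ => 2 * ‖e‖ * M * (2 * Real.pi * (1 / (n + 1 : ℝ)))) atTop (𝓝 0) := by
      have h1 := tendsto_one_div_add_atTop_nhds_zero_nat (𝕜 := ℝ)
      have h2 := (h1.const_mul (2 * Real.pi)).const_mul (2 * ‖e‖ * M)
      simpa using h2
    filter_upwards [ht.eventually_lt_const hε] with n hn x
    rw [Real.dist_eq]
    exact (hdiff n x).trans_lt hn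
  exact hT.continuous (Frequently.of_forall hFc)

end Pool.Agent.R227.SA
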