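import Pool.Agent.R227.SA6

/-! Logarithmic potentials of bounded functions are continuously differentiable. -/

set_option autoImplicit false

open MeasureTheory Set Pool.Agent.R227.LP Filter
open scoped Topology ENNReal NNReal RealInnerProductSpace ContDiff

namespace Pool.Agent.R227.SA

variable {R M : ℝ} {g : ℂ → ℝ}

/-- integration along a segment -/
lemma log_seg {z e : ℂ} (h : ∀ s : ℝ, z + s • e ≠ 0) :
    ∫ s in (0:ℝ)..1, ⟪z + s • e, e⟫ / ‖z + s • e‖ ^ 2 = Real.log ‖z + e‖ - Real.log ‖z‖ := by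
  have hd : ∀ s : ℝ, HasDerivAt (fun s : ℝ => (1 / 2 : ℝ) * Real.log (‖z + s • e‖ ^ 2))
      (⟪z + s • e, e⟫ / ‖z + s • e‖ ^ 2) s := by
    intro s
    have h1 : HasDerivAt (fun s : ℝ => z + s • e) e s := by
      simpa using ((hasDerivAt_id s).smul_const e).const_add z
    have h2 := (h1.norm_sq.log (pow_ne_zero 2 (norm_ne_zero_iff.2 (h s)))).const_mul (1 / 2 : ℝ)
    refine h2.congr_deriv ?_
    ring
  have hc : Continuous fun s : ℝ => ⟪z + s • e, e⟫ / ‖z + s • e‖ ^ 2 :=
    Continuous.div (by fun_prop) (by fun_prop) fun s => pow_ne_zero 2 (norm_ne_zero_iff.2 (h s))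
  rw [intervalIntegral.integral_eq_sub_of_hasDerivAt (fun s _ => hd s) (hc.intervalIntegrable _ _)]
  simp only [one_smul, zero_smul, add_zero, Real.log_pow]
  push_cast
  ring

/-- almost every point is off a line -/
lemma off_line {e : ℂ} (he : e ≠ 0) (x : ℂ) : ∀ᵐ y : ℂ, ∀ s : ℝ, x - y + s • e ≠ 0 := by
  have hn : 0 < ‖e‖ := norm_pos_iff.2 he
  have hnI : ‖(‖e‖⁻¹ : ℝ) • (Complex.I * e)‖ = 1 := by
    rw [norm_smul, norm_mul, Complex.norm_I, one_mul, Real.norm_eq_abs, abs_inv, abs_norm]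
    field_simp
  let P : HP := ⟨(‖e‖⁻¹ : ℝ) • (Complex.I * e), hnI, ⟪(‖e‖⁻¹ : ℝ) • (Complex.I * e), x⟫⟩
  filter_upwards [P.s_ne] with y hy s hs
  apply hy
  have h1 : y = x + s • e := by
    have : x - y + s • e + y = y := by rw [hs, zero_add]
    rw [← this]; ring
  change ⟪(‖e‖⁻¹ : ℝ) • (Complex.I * e), y⟫ - ⟪(‖e‖⁻¹ : ℝ) • (Complex.I * e), x⟫ = 0
  rw [← inner_sub_right, h1, add_sub_cancel_left, inner_smul_left, inner_smul_right]
  have h2 : ⟪Complex.I * e, e⟫ = 0 := by
    rw [Complex.inner]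
    simp
    ring
  rw [h2]
  simp

lemma lk_int (hR : 0 < R) (hgm : Measurable g) (hgM : ∀ x, |g x| ≤ M)
    (hg0 : ∀ x, R ≤ ‖x‖ → g x = 0) : Nice R g := by
  have hgi : MemLp ((Metric.ball (0:ℂ) R).indicator fun _ => M) 2 volume :=
    memLp_indicator_const 2 measurableSet_ball M (Or.inr measure_ball_lt_top.ne)
  refine ⟨hgi.mono hgm.aestronglyMeasurable (Eventually.of_forall fun y => ?_), hg0⟩
  have hM : 0 ≤ M := (abs_nonneg _).trans (hgM 0)
  by_cases hy : y ∈ Metric.ball (0:ℂ) R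
  · rw [indicator_of_mem hy, Real.norm_eq_abs, Real.norm_eq_abs, abs_of_nonneg hM]; exact hgM y
  · rw [indicator_of_notMem hy, hg0 y (by simpa using hy)]

/-- the potential along a segment -/
theorem pot_seg (hR : 0 < R) (hgm : Measurable g) (hgM : ∀ x, |g x| ≤ M)
    (hg0 : ∀ x, R ≤ ‖x‖ → g x = 0) (x e : ℂ) :
    pot g (x + e) - pot g x = -∫ s in (0:ℝ)..1, gp e g (x + s • e) := by
  have hN := lk_int hR hgm hgM hg0
  rcases eq_or_ne e 0 with he | he
  · subst he
    simp [gp]
  have hM : 0 ≤ M := (abs_nonneg _).trans (hgM 0)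
  have e1 : pot g (x + e) - pot g x = -∫ y, (Real.log ‖x - y + e‖ - Real.log ‖x - y‖) * g y := by
    unfold pot
    rw [← integral_sub (hN.int hR _) (hN.int hR _), ← integral_neg]
    refine integral_congr_ae (Eventually.of_forall fun y => ?_)
    simp only [lk]
    rw [show x + e - y = x - y + e by ring]
    ring
  rw [e1]
  congr 1
  -- Fubini
  set f : ℝ → ℂ → ℝ := fun s y => (⟪x + s • e - y, e⟫ / ‖x + s • e - y‖ ^ 2) * g y with hf
  have hmeas : Measurable (Function.uncurry f) := by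
    have h1 : Measurable fun p : ℝ × ℂ => x + p.1 • e - p.2 := by fun_prop
    exact ((kern_meas e).comp h1).mul (hgm.comp measurable_snd)
  have hint : Integrable (Function.uncurry f) ((volume.restrict (Ioc (0:ℝ) 1)).prod volume) := by
    rw [integrable_prod_iff hmeas.aestronglyMeasurable]
    refine ⟨Eventually.of_forall fun s => (gp_int hR hgm hgM hg0 e (x + s • e)).2.1, ?_⟩
    have hfin : IsFiniteMeasure (volume.restrict (Ioc (0:ℝ) 1)) := inferInstance
    refine Integrable.mono' (integrable_const (‖e‖ * M * (2 * Real.pi * (‖x‖ + ‖e‖ + R)))) ?_ ?_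
    · exact hmeas.aestronglyMeasurable.norm.integral_prod_right'
    · refine (ae_restrict_iff' measurableSet_Ioc).2 (Eventually.of_forall fun s hs => ?_)
      have hnn : 0 ≤ ∫ y, ‖f s y‖ := integral_nonneg fun _ => norm_nonneg _
      rw [Real.norm_eq_abs]
      change |∫ y, ‖f s y‖| ≤ _
      rw [abs_of_nonneg hnn]
      obtain ⟨i1, i2, i3⟩ := gp_int hR hgm hgM hg0 e (x + s • e)
      have h2 : ∫ y, ‖f s y‖ ≤ ∫ y, ‖e‖ * ‖x + s • e - y‖⁻¹ * |g y| := by
        refine integral_mono i2.norm i1 fun y => ?_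
        simp only [hf]
        rw [norm_mul, Real.norm_eq_abs, Real.norm_eq_abs]
        exact mul_le_mul_of_nonneg_right (kern_le _ _) (abs_nonneg _)
      refine h2.trans (i3.trans ?_)
      have h3 : ‖x + s • e‖ ≤ ‖x‖ + ‖e‖ := by
        refine (norm_add_le _ _).trans ?_
        rw [norm_smul, Real.norm_eq_abs, abs_of_pos hs.1]
        nlinarith [hs.2, norm_nonneg e]
      have h4 : 0 ≤ ‖e‖ * M := by positivity
      have h5 : 2 * Real.pi * (‖x + s • e‖ + R) ≤ 2 * Real.pi * (‖x‖ + ‖e‖ + R) := by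
        have := Real.pi_pos
        nlinarith
      exact mul_le_mul_of_nonneg_left h5 h4
  have e2 : ∫ s in (0:ℝ)..1, gp e g (x + s • e) = ∫ y, ∫ s in Ioc (0:ℝ) 1, f s y := by
    rw [intervalIntegral.integral_of_le zero_le_one]
    unfold gp
    exact integral_integral_swap hint
  rw [e2]
  refine integral_congr_ae ?_
  filter_upwards [off_line he x] with y hy
  simp only [hf]
  rw [← intervalIntegral.integral_of_le zero_le_one, intervalIntegral.integral_mul_const]
  have e3 : ∀ s : ℝ, x + s • e - y = x - y + s • e := fun s => by ring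
  simp only [e3]
  rw [log_seg hy]

lemma gp_lin (hR : 0 < R) (hgm : Measurable g) (hgM : ∀ x, |g x| ≤ M)
    (hg0 : ∀ x, R ≤ ‖x‖ → g x = 0) (x e : ℂ) :
    gp e g x = e.re * gp 1 g x + e.im * gp Complex.I g x := by
  unfold gp
  rw [← integral_const_mul, ← integral_const_mul, ← integral_add
    ((gp_int hR hgm hgM hg0 1 x).2.1.const_mul _) ((gp_int hR hgm hgM hg0 Complex.I x).2.1.const_mul _)]
  refine integral_congr_ae (Eventually.of_forall fun y => ?_)
  simp only
  have : ⟪x - y, e⟫ = e.re * ⟪x - y, (1:ℂ)⟫ + e.im * ⟪x - y, Complex.I⟫ := by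
    rw [Complex.inner, Complex.inner, Complex.inner]
    simp
    ring
  rw [this]
  ring

/-- the derivative of the potential -/
noncomputable def gL (g : ℂ → ℝ) (x : ℂ) : ℂ →L[ℝ] ℝ :=
  -(gp 1 g x • Complex.reCLM + gp Complex.I g x • Complex.imCLM)

theorem pot_fderiv (hR : 0 < R) (hgm : Measurable g) (hgM : ∀ x, |g x| ≤ M)
    (hg0 : ∀ x, R ≤ ‖x‖ → g x = 0) (x : ℂ) : HasFDerivAt (pot g) (gL g x) x := by
  rw [hasFDerivAt_iff_isLittleO_nhds_zero, Asymptotics.isLittleO_iff]
  intro ε hε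
  have c1 := gp_cont hR hgm hgM hg0 1
  have c2 := gp_cont hR hgm hgM hg0 Complex.I
  obtain ⟨δ1, hδ1, h1⟩ := Metric.continuousAt_iff.1 (c1.continuousAt (x := x)) (ε / 2) (half_pos hε)
  obtain ⟨δ2, hδ2, h2⟩ := Metric.continuousAt_iff.1 (c2.continuousAt (x := x)) (ε / 2) (half_pos hε)
  filter_upwards [Metric.ball_mem_nhds (0:ℂ) (lt_min hδ1 hδ2)] with e he
  rw [mem_ball_zero_iff, lt_min_iff] at he
  rw [pot_seg hR hgm hgM hg0 x e]
  have hcc : Continuous fun s : ℝ => gp e g (x + s • e) :=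
    (gp_cont hR hgm hgM hg0 e).comp (by fun_prop)
  have hL : (gL g x) e = -gp e g x := by
    rw [gp_lin hR hgm hgM hg0 x e]
    simp [gL]
    ring
  rw [hL]
  have e1 : -(∫ s in (0:ℝ)..1, gp e g (x + s • e)) - -gp e g x =
      -∫ s in (0:ℝ)..1, (gp e g (x + s • e) - gp e g x) := by
    rw [intervalIntegral.integral_sub (hcc.intervalIntegrable _ _) (by simp)]
    simp
    ring
  rw [e1, norm_neg]
  have hb : ∀ s ∈ Set.uIoc (0:ℝ) 1, ‖gp e g (x + s • e) - gp e g x‖ ≤ ε * ‖e‖ := by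
    intro s hs
    rw [uIoc_of_le zero_le_one] at hs
    rw [gp_lin hR hgm hgM hg0 (x + s • e) e, gp_lin hR hgm hgM hg0 x e]
    have hse : ‖s • e‖ ≤ ‖e‖ := by
      rw [norm_smul, Real.norm_eq_abs, abs_of_pos hs.1]
      nlinarith [hs.2, norm_nonneg e]
    have k1 := h1 (x := x + s • e) (by
      rw [dist_eq_norm, add_sub_cancel_left]; linarith [he.1])
    have k2 := h2 (x := x + s • e) (by
      rw [dist_eq_norm, add_sub_cancel_left]; linarith [he.2])
    rw [Real.dist_eq] at k1 k2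
    have r1 := Complex.abs_re_le_norm e
    have r2 := Complex.abs_im_le_norm e
    have e2 : e.re * gp 1 g (x + s • e) + e.im * gp Complex.I g (x + s • e) -
        (e.re * gp 1 g x + e.im * gp Complex.I g x) =
        e.re * (gp 1 g (x + s • e) - gp 1 g x) +
        e.im * (gp Complex.I g (x + s • e) - gp Complex.I g x) := by ring
    rw [e2, Real.norm_eq_abs]
    refine (abs_add_le _ _).trans ?_
    rw [abs_mul, abs_mul]
    have m1 := mul_le_mul r1 k1.le (abs_nonneg _) (norm_nonneg e)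
    have m2 := mul_le_mul r2 k2.le (abs_nonneg _) (norm_nonneg e)
    linarith
  have := intervalIntegral.norm_integral_le_of_norm_le_const hb
  simpa using this

theorem pot_c1 (hR : 0 < R) (hgm : Measurable g) (hgM : ∀ x, |g x| ≤ M)
    (hg0 : ∀ x, R ≤ ‖x‖ → g x = 0) : ContDiff ℝ 1 (pot g) := by
  rw [contDiff_one_iff_fderiv]
  have h := pot_fderiv hR hgm hgM hg0
  refine ⟨fun x => (h x).differentiableAt, ?_⟩
  have e : fderiv ℝ (pot g) = gL g := funext fun x => (h x).fderiv
  rw [e]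
  unfold gL
  have c1 := gp_cont hR hgm hgM hg0 1
  have c2 := gp_cont hR hgm hgM hg0 Complex.I
  exact ((c1.smul continuous_const).add (c2.smul continuous_const)).neg

end Pool.Agent.R227.SA
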