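import Pool.Agent.R227.SA7

/-! Interior smoothness through the mean value property of the Helmholtz equation. -/

set_option autoImplicit false

open MeasureTheory Set Pool.Agent.R227.LP Filter
open scoped Topology ENNReal NNReal RealInnerProductSpace ContDiff Convolution

namespace Pool.Agent.R227.SA

open Pool.Agent.TH298.Sch (X er et dd SC Sol X_cont X_dr X_dt norm_X dd_sc Mol Mo exists_mol Mo_sc
  refl_sc dd_refl refl_int)
open TH259.NS (B B_cont B_zero)
open Pool.Agent.TH298.AN (mc odem)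

/-- the integral of a derivative vanishes -/
lemma int_dd {φ : ℂ → ℝ} (h : SC φ) (v : ℂ) : ∫ x, dd v φ x = 0 := by
  have i1 : Integrable (fun x : ℂ => fderiv ℝ (fun _ : ℂ => (1:ℝ)) x v * φ x) := by
    simp
  have i2 : Integrable (fun x : ℂ => (fun _ : ℂ => (1:ℝ)) x * fderiv ℝ φ x v) := by
    have := (dd_sc h v).int
    simp only [one_mul]
    exact this
  have i3 : Integrable (fun x : ℂ => (fun _ : ℂ => (1:ℝ)) x * φ x) := by simpa using h.int
  have := integral_mul_fderiv_eq_neg_fderiv_mul_of_integrable (f := fun _ : ℂ => (1:ℝ)) (g := φ)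
    (v := v) i1 i2 i3 (fun x _ => differentiableAt_const _) (fun x _ => h.diff x)
  simp only [one_mul, fderiv_fun_const, Pi.zero_apply, zero_apply, zero_mul, integral_zero,
    neg_zero] at this
  exact this

lemma int_la {φ : ℂ → ℝ} (h : SC φ) : ∫ x, la φ x = 0 := by
  unfold la
  rw [integral_add (dd_sc (dd_sc h 1) 1).int (dd_sc (dd_sc h Complex.I) Complex.I).int,
    int_dd (dd_sc h 1), int_dd (dd_sc h Complex.I), add_zero]

lemma dd_cv {κ f : ℂ → ℝ} (h : SC κ) (hf : Integrable f) (v x : ℂ) :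
    dd v (fun x => ∫ y, f y * κ (x - y)) x = ∫ y, f y * dd v κ (x - y) := by
  have h1 := h.cs.hasFDerivAt_convolution_right (ContinuousLinearMap.mul ℝ ℝ)
    hf.locallyIntegrable (h.sm.of_le (by simp)) x
  have e : (fun x => ∫ y, f y * κ (x - y)) = f ⋆[ContinuousLinearMap.mul ℝ ℝ, volume] κ := rfl
  unfold dd
  rw [e, h1.fderiv, convolution_precompR_apply (ContinuousLinearMap.mul ℝ ℝ)
    hf.locallyIntegrable (h.cs.fderiv ℝ) (h.sm.continuous_fderiv (by simp)) x v]
  rfl

lemma la_cv {κ f : ℂ → ℝ} (h : SC κ) (hf : Integrable f) (x : ℂ) :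
    la (fun x => ∫ y, f y * κ (x - y)) x = ∫ y, f y * la κ (x - y) := by
  have e : ∀ v, dd v (dd v (fun x => ∫ y, f y * κ (x - y))) x = ∫ y, f y * dd v (dd v κ) (x - y) := by
    intro v
    have e1 : dd v (fun x => ∫ y, f y * κ (x - y)) = fun x => ∫ y, f y * dd v κ (x - y) :=
      funext fun x => dd_cv h hf v x
    rw [e1, dd_cv (dd_sc h v) hf]
  have hi : ∀ {φ : ℂ → ℝ}, SC φ → Integrable fun y => f y * φ (x - y) := by
    intro φ hφ
    obtain ⟨C, hC⟩ := hφ.cs.exists_bound_of_continuous hφ.cont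
    exact hf.mul_bdd (c := C) (refl_sc hφ x).cont.aestronglyMeasurable (Eventually.of_forall fun y => hC _)
  unfold la
  rw [e, e, ← integral_add (hi (dd_sc (dd_sc h 1) 1)) (hi (dd_sc (dd_sc h Complex.I) Complex.I))]
  refine integral_congr_ae (Eventually.of_forall fun y => ?_)
  simp only
  ring

lemma la_refl {κ : ℂ → ℝ} (h : SC κ) (x y : ℂ) : la (fun y => κ (x - y)) y = la κ (x - y) := by
  have e : ∀ v, dd v (dd v (fun y => κ (x - y))) y = dd v (dd v κ) (x - y) := by
    intro v
    have e1 : dd v (fun y => κ (x - y)) = fun y => -dd v κ (x - y) :=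
      funext fun y => dd_refl h x v y
    rw [e1]
    have e2 : dd v (fun y => -dd v κ (x - y)) y = -dd v (fun y => dd v κ (x - y)) y := by
      unfold dd
      rw [show (fun y => -(fderiv ℝ κ (x - y)) v) = -(fun y => (fderiv ℝ κ (x - y)) v) from rfl,
        fderiv_neg]
      simp
    rw [e2]
    have e3 : dd v (fun y => dd v κ (x - y)) y = -dd v (dd v κ) (x - y) := dd_refl (dd_sc h v) x v y
    rw [e3, neg_neg]
  unfold la
  rw [e, e]

variable {Ω : Set ℂ} {lam c R M : ℝ} {g : ℂ → ℝ}

/-- mollifications satisfy the Helmholtz equation -/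
theorem mo_helm (hR : 0 < R) (hgm : Measurable g) (hgM : ∀ x, |g x| ≤ M)
    (hg0 : ∀ x, R ≤ ‖x‖ → g x = 0)
    (hg : ∀ x ∈ Ω, g x = lam / (2 * Real.pi) * pot g x + c) {ε ε' : ℝ} {ρ : ℂ → ℝ}
    (hρ : Mol ε ρ) (hε : ε < ε') {x : ℂ} (hx : Metric.ball x ε' ⊆ Ω) :
    la (Mo ρ g) x = -(lam * Mo ρ g x) := by
  have hpi := Real.pi_pos
  have hN := lk_int hR hgm hgM hg0
  have hgi : Integrable g := hN.integrable
  have hφ := refl_sc hρ.sc x
  have e1 : la (Mo ρ g) x = ∫ y, g y * la ρ (x - y) := la_cv hρ.sc hgi x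
  have hlaz : ∀ y, y ∉ Ω → la ρ (x - y) = 0 := by
    intro y hy
    have h1 : ε < ‖x - y‖ := by
      by_contra hcon
      apply hy
      apply hx
      rw [Metric.mem_ball, dist_eq_norm, norm_sub_rev]
      linarith
    have h2 : ρ =ᶠ[𝓝 (x - y)] 0 := by
      have hopen : IsOpen {z : ℂ | ε < ‖z‖} := isOpen_lt continuous_const continuous_norm
      filter_upwards [hopen.mem_nhds h1] with z hz
      exact hρ.out z (le_of_lt hz)
    have h3 : ∀ {G : ℂ → ℝ}, G =ᶠ[𝓝 (x - y)] 0 → ∀ h, dd h G =ᶠ[𝓝 (x - y)] 0 := by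
      intro G hG h
      filter_upwards [hG.fderiv (𝕜 := ℝ)] with z hz
      unfold dd
      rw [hz]
      simp
    unfold la
    rw [(h3 (h3 h2 1) 1).self_of_nhds, (h3 (h3 h2 Complex.I) Complex.I).self_of_nhds]
    simp
  have hpc : Continuous (pot g) := hN.continuous hR
  have e2 : ∫ y, g y * la ρ (x - y) =
      ∫ y, (lam / (2 * Real.pi) * (pot g y * la (fun y => ρ (x - y)) y) +
        c * la (fun y => ρ (x - y)) y) := by
    refine integral_congr_ae (Eventually.of_forall fun y => ?_)
    simp only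
    rw [la_refl hρ.sc x y]
    by_cases hy : y ∈ Ω
    · rw [hg y hy]; ring
    · rw [hlaz y hy]; ring
  have i1 : Integrable fun y => pot g y * la (fun y => ρ (x - y)) y :=
    (hpc.mul (la_sc hφ).cont).integrable_of_hasCompactSupport (la_sc hφ).cs.mul_left
  rw [e1, e2, integral_add (i1.const_mul _) ((la_sc hφ).int.const_mul _), integral_const_mul,
    integral_const_mul, int_la hφ, pot_weak hN hφ]
  unfold Mo
  field_simp
  ring

/-- mollifications are close to the function -/
lemma mo_close {ε η : ℝ} {ρ h : ℂ → ℝ} (hρ : Mol ε ρ) (hg : Integrable g) {x : ℂ}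
    (hc : ∀ y, ‖x - y‖ < ε → g y = h y ∧ |h y - h x| ≤ η) : |Mo ρ g x - h x| ≤ η := by
  obtain ⟨C, hC⟩ := hρ.sc.cs.exists_bound_of_continuous hρ.sc.cont
  have hr := refl_sc hρ.sc x
  have i1 : Integrable (fun y => g y * ρ (x - y)) :=
    hg.mul_bdd (c := C) hr.cont.aestronglyMeasurable (Eventually.of_forall fun y => hC _)
  have i2 : Integrable (fun y => h x * ρ (x - y)) := hr.int.const_mul _
  have e1 : Mo ρ g x - h x = ∫ y, (g y * ρ (x - y) - h x * ρ (x - y)) := by
    rw [integral_sub i1 i2, integral_const_mul, refl_int hρ, mul_one]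
    rfl
  have e2 : η = ∫ y, η * ρ (x - y) := by
    rw [integral_const_mul, refl_int hρ, mul_one]
  rw [e1]
  conv_rhs => rw [e2]
  refine (abs_integral_le_integral_abs).trans (integral_mono (i1.sub i2).abs (hr.int.const_mul _) fun y => ?_)
  simp only
  rw [← sub_mul, abs_mul, abs_of_nonneg (hρ.nn _)]
  by_cases hy : ‖x - y‖ < ε
  · obtain ⟨h1, h2⟩ := hc y hy
    rw [h1]
    exact mul_le_mul_of_nonneg_right h2 (hρ.nn _)
  · rw [hρ.out _ (not_lt.1 hy)]
    simp

/-- the mean value property of smooth solutions -/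
lemma mean_smooth {v : ℂ → ℝ} (hlam : 0 < lam) (hv : SC v) {a : ℂ} {r : ℝ} (hr : 0 < r)
    (hH : ∀ x ∈ Metric.ball a r, la v x = -(lam * v x)) {s : ℝ} (hs0 : 0 ≤ s) (hs : s ≤ r) :
    ∫ θ in (-Real.pi)..Real.pi, v (a + X s θ) = 2 * Real.pi * v a * B 0 (lam * s ^ 2 / 4) := by
  have hF := trans_sc hv a
  have hla : ∀ y, la (fun y => v (y + a)) y = la v (y + a) := by
    intro y
    unfold la
    have : ∀ h, dd h (dd h (fun y => v (y + a))) y = dd h (dd h v) (y + a) := by
      intro h
      have e : dd h (fun y => v (y + a)) = fun y => dd h v (y + a) := funext fun y => dd_trans v h a y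
      rw [e]
      exact dd_trans (dd h v) h a y
    rw [this, this]
  obtain ⟨⟨α, hα⟩, -⟩ := odem r lam (fun y => v (y + a)) hr hlam hF.sm (fun x hx => by
    have := hla x
    unfold la at this
    rw [this]
    exact hH (x + a) (by rwa [Metric.mem_ball, dist_eq_norm, add_sub_cancel_right])) 0
  have h0 := hα 0 ⟨le_rfl, hr.le⟩
  have h1 := hα s ⟨hs0, hs⟩
  unfold mc at h0 h1
  simp only [CharP.cast_eq_zero, zero_mul, Real.cos_zero, mul_one, pow_zero] at h0 h1
  have e0 : ∀ θ, X 0 θ = 0 := fun θ => by simp [X]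
  simp only [e0, zero_add, intervalIntegral.integral_const, smul_eq_mul] at h0
  have hB : B 0 (lam * 0 ^ 2 / 4) = 1 := by
    rw [show lam * (0:ℝ) ^ 2 / 4 = 0 by ring, B_zero]
    simp
  rw [hB, mul_one] at h0
  have e1 : ∀ θ, a + X s θ = X s θ + a := fun θ => add_comm _ _
  simp only [e1]
  rw [h1, ← h0]
  ring

/-- the mean value property of the continuous representative -/
theorem mean_h (hlam : 0 < lam) (hR : 0 < R) (hgm : Measurable g) (hgM : ∀ x, |g x| ≤ M)
    (hg0 : ∀ x, R ≤ ‖x‖ → g x = 0)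
    (hg : ∀ x ∈ Ω, g x = lam / (2 * Real.pi) * pot g x + c)
    {h : ℂ → ℝ} (hh : ∀ x, h x = lam / (2 * Real.pi) * pot g x + c) {a : ℂ} {r s : ℝ}
    (hs0 : 0 ≤ s) (hs : s < r) (ha : Metric.ball a r ⊆ Ω) :
    ∫ θ in (-Real.pi)..Real.pi, h (a + X s θ) = 2 * Real.pi * h a * B 0 (lam * s ^ 2 / 4) := by
  have hpi := Real.pi_pos
  have hN := lk_int hR hgm hgM hg0
  have hgi : Integrable g := hN.integrable
  have hpc : Continuous (pot g) := hN.continuous hR
  have hhc : Continuous h := by
    have : h = fun x => lam / (2 * Real.pi) * pot g x + c := funext hh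
    rw [this]
    exact (continuous_const.mul hpc).add continuous_const
  set K : ℝ := 2 * Real.pi * (1 + |B 0 (lam * s ^ 2 / 4)|) with hK
  have hK0 : 0 < K := by positivity
  have hXc : Continuous fun θ : ℝ => X s θ := X_cont.comp (continuous_const.prodMk continuous_id)
  have key : ∀ η > 0, |(∫ θ in (-Real.pi)..Real.pi, h (a + X s θ)) -
      2 * Real.pi * h a * B 0 (lam * s ^ 2 / 4)| ≤ K * η := by
    intro η hη
    set r1 : ℝ := (s + r) / 2 with hr1
    have hsr1 : s < r1 := by linarith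
    have hr1r : r1 < r := by linarith
    have hr10 : 0 < r1 := by linarith
    -- uniform continuity on a closed ball
    have huc := (isCompact_closedBall a r).uniformContinuousOn_of_continuous hhc.continuousOn
    rw [Metric.uniformContinuousOn_iff] at huc
    obtain ⟨δ, hδ, hδc⟩ := huc η hη
    set ε := min (δ) ((r - r1) / 2) with hε
    have hε0 : 0 < ε := lt_min hδ (by linarith)
    have hε1 : ε ≤ δ := min_le_left _ _
    have hε2 : ε ≤ (r - r1) / 2 := min_le_right _ _
    obtain ⟨ρ, hρ⟩ := exists_mol hε0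
    have hF : SC (Mo ρ g) := Mo_sc hρ hgi (by
      refine HasCompactSupport.intro (isCompact_closedBall (0:ℂ) R) fun x hx => ?_
      rw [mem_closedBall_zero_iff, not_le] at hx
      exact hg0 x hx.le)
    have hhelm : ∀ x ∈ Metric.ball a r1, la (Mo ρ g) x = -(lam * Mo ρ g x) := by
      intro x hx
      refine mo_helm hR hgm hgM hg0 hg hρ (ε' := r - r1) (by linarith) ?_
      refine Subset.trans (Metric.ball_subset_ball' ?_) ha
      rw [Metric.mem_ball] at hx
      linarith
    have hcl : ∀ x ∈ Metric.ball a r1, |Mo ρ g x - h x| ≤ η := by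
      intro x hx
      refine mo_close hρ hgi fun y hy => ?_
      rw [Metric.mem_ball, dist_eq_norm] at hx
      have hya : ‖y - a‖ < r := by
        have : y - a = -(x - y) + (x - a) := by ring
        rw [this]
        refine (norm_add_le _ _).trans_lt ?_
        rw [norm_neg]
        linarith
      have hyΩ : y ∈ Ω := ha (by rw [Metric.mem_ball, dist_eq_norm]; exact hya)
      refine ⟨by rw [hg y hyΩ, hh y], ?_⟩
      have := hδc y (by rw [Metric.mem_closedBall, dist_eq_norm]; exact hya.le) x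
        (by rw [Metric.mem_closedBall, dist_eq_norm]; linarith) (by
          rw [dist_eq_norm, norm_sub_rev]; linarith)
      rw [Real.dist_eq] at this
      exact this.le
    have hm := mean_smooth hlam hF hr10 hhelm hs0 hsr1.le
    have hsm : |(∫ θ in (-Real.pi)..Real.pi, h (a + X s θ)) -
        ∫ θ in (-Real.pi)..Real.pi, Mo ρ g (a + X s θ)| ≤ η * (2 * Real.pi) := by
      have c1 : Continuous fun θ : ℝ => h (a + X s θ) := hhc.comp (continuous_const.add hXc)
      have c2 : Continuous fun θ : ℝ => Mo ρ g (a + X s θ) := hF.cont.comp (continuous_const.add hXc)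
      rw [← intervalIntegral.integral_sub (c1.intervalIntegrable _ _) (c2.intervalIntegrable _ _)]
      have := intervalIntegral.norm_integral_le_of_norm_le_const (a := -Real.pi) (b := Real.pi)
        (f := fun θ => h (a + X s θ) - Mo ρ g (a + X s θ)) (C := η) (fun θ _ => by
          rw [Real.norm_eq_abs, abs_sub_comm]
          refine hcl _ ?_
          rw [Metric.mem_ball, dist_eq_norm, add_sub_cancel_left, norm_X, abs_of_nonneg hs0]
          exact hsr1)
      rw [Real.norm_eq_abs] at this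
      refine this.trans (le_of_eq ?_)
      rw [show Real.pi - -Real.pi = 2 * Real.pi by ring, abs_of_pos (by positivity)]
    have h2 : |2 * Real.pi * h a * B 0 (lam * s ^ 2 / 4) -
        2 * Real.pi * Mo ρ g a * B 0 (lam * s ^ 2 / 4)| ≤
        2 * Real.pi * |B 0 (lam * s ^ 2 / 4)| * η := by
      have e : 2 * Real.pi * h a * B 0 (lam * s ^ 2 / 4) -
        2 * Real.pi * Mo ρ g a * B 0 (lam * s ^ 2 / 4) =
        2 * Real.pi * B 0 (lam * s ^ 2 / 4) * (h a - Mo ρ g a) := by ring
      rw [e, abs_mul, abs_mul, abs_of_pos (by positivity : 0 < 2 * Real.pi)]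
      refine mul_le_mul_of_nonneg_left ?_ (by positivity)
      rw [abs_sub_comm]
      exact hcl a (Metric.mem_ball_self hr10)
    rw [hm] at hsm
    rw [abs_le] at hsm h2 ⊢
    rw [hK]
    constructor <;> nlinarith [hsm.1, hsm.2, h2.1, h2.2]
  by_contra hne
  have hpos := abs_pos.2 (sub_ne_zero.2 hne)
  set t := |(∫ θ in (-Real.pi)..Real.pi, h (a + X s θ)) -
      2 * Real.pi * h a * B 0 (lam * s ^ 2 / 4)| with ht
  have := key (t / (2 * K)) (by positivity)
  have e : K * (t / (2 * K)) = t / 2 := by field_simp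
  rw [e] at this
  linarith

end Pool.Agent.R227.SA
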