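import Pool.Agent.R227.SA8

/-! The continuously differentiable solution, extended by zero. -/

set_option autoImplicit false

open MeasureTheory Set Pool.Agent.R227.LP Filter
open scoped Topology ENNReal NNReal RealInnerProductSpace ContDiff Convolution

namespace Pool.Agent.R227.SA

open Pool.Agent.TH298.Sch (X er et dd SC Sol X_cont X_dr X_dt norm_X dd_sc Mol Mo exists_mol Mo_sc
  refl_sc dd_refl refl_int X_eq er_exp)
open TH259.NS (B B_cont B_zero)

/-- the solution `v = u - c`, extended by zero -/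
structure Dat (Ω : Set ℂ) (lam c : ℝ) (v : ℂ → ℝ) : Prop where
  c1 : ContDiff ℝ 1 v
  out : ∀ x, x ∉ Ω → v x = 0
  outd : ∀ x, x ∉ Ω → fderiv ℝ v x = 0
  loc : ∀ x₀ ∈ Ω, ∃ r > 0, ∃ U, SC U ∧ Metric.ball x₀ r ⊆ Ω ∧
    ∀ x ∈ Metric.ball x₀ r, v x + c = U x ∧ la U x = -(lam * U x)

variable {Ω : Set ℂ} {lam c R M : ℝ} {g : ℂ → ℝ}

theorem loc_U (hlam : 0 < lam) (hR : 0 < R) (hgm : Measurable g) (hgM : ∀ x, |g x| ≤ M)
    (hg0 : ∀ x, R ≤ ‖x‖ → g x = 0)
    (hg : ∀ x ∈ Ω, g x = lam / (2 * Real.pi) * pot g x + c) (ho : IsOpen Ω) {z : ℂ} (hz : z ∈ Ω) :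
    ∃ r > 0, ∃ U, SC U ∧ Metric.ball z r ⊆ Ω ∧
      ∀ x ∈ Metric.ball z r, lam / (2 * Real.pi) * pot g x + c = U x ∧ la U x = -(lam * U x) := by
  have hpi := Real.pi_pos
  have hN := lk_int hR hgm hgM hg0
  have hgi : Integrable g := hN.integrable
  have hpc : Continuous (pot g) := hN.continuous hR
  set h : ℂ → ℝ := fun x => lam / (2 * Real.pi) * pot g x + c with hh
  have hhc : Continuous h := (continuous_const.mul hpc).add continuous_const
  obtain ⟨r0, hr0, hball⟩ := Metric.isOpen_iff.1 ho z hz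
  set r := r0 / 2 with hr
  have hr' : 0 < r := by positivity
  obtain ⟨δ, hδ, hδB⟩ := Metric.continuousAt_iff.1 ((B_cont 0).continuousAt (x := 0)) (1 / 2)
    (by norm_num)
  set ε := min (r / 2) (min 1 (δ / lam)) with hε
  have hε0 : 0 < ε := by positivity
  have hεr : ε ≤ r / 2 := min_le_left _ _
  have hε1 : ε ≤ 1 := (min_le_right _ _).trans (min_le_left _ _)
  have hε2 : ε ≤ δ / lam := (min_le_right _ _).trans (min_le_right _ _)
  have hBp : ∀ s : ℝ, 0 ≤ s → s ≤ ε → 1 / 2 ≤ B 0 (lam * s ^ 2 / 4) := by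
    intro s hs0 hs
    have h1 : lam * s ^ 2 / 4 < δ := by
      have h2 : s ^ 2 ≤ ε * 1 := by nlinarith
      have h3 : lam * ε ≤ δ := by
        rw [le_div_iff₀ hlam] at hε2
        linarith
      nlinarith
    have h4 := hδB (x := lam * s ^ 2 / 4) (by
      rw [Real.dist_eq, sub_zero, abs_of_nonneg (by positivity)]; exact h1)
    rw [Real.dist_eq, B_zero] at h4
    have := abs_lt.1 h4
    simp at this
    linarith [this.1]
  obtain ⟨ρ, hρ⟩ := exists_mol hε0
  have hF : SC (Mo ρ g) := Mo_sc hρ hgi (by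
    refine HasCompactSupport.intro (isCompact_closedBall (0:ℂ) R) fun x hx => ?_
    rw [mem_closedBall_zero_iff, not_le] at hx
    exact hg0 x hx.le)
  have hBc : Continuous fun y : ℂ => B 0 (lam * ‖y‖ ^ 2 / 4) := (B_cont 0).comp (by fun_prop)
  set m : ℝ := ∫ y, B 0 (lam * ‖y‖ ^ 2 / 4) * ρ y with hm
  have hmi : Integrable fun y => B 0 (lam * ‖y‖ ^ 2 / 4) * ρ y :=
    (hBc.mul hρ.sc.cont).integrable_of_hasCompactSupport hρ.sc.cs.mul_left
  have hmp : 1 / 2 ≤ m := by
    have h1 : ∫ y, (1 / 2 : ℝ) * ρ y ≤ m := by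
      refine integral_mono (hρ.sc.int.const_mul _) hmi fun y => ?_
      simp only
      rcases lt_or_ge ‖y‖ ε with hy | hy
      · exact mul_le_mul_of_nonneg_right (hBp _ (norm_nonneg _) hy.le) (hρ.nn _)
      · rw [hρ.out _ hy]; simp
    rwa [integral_const_mul, hρ.one, mul_one] at h1
  have hm0 : 0 < m := by linarith
  have hρX : ∀ s θ : ℝ, ρ (X s θ) = ρ (s : ℂ) := by
    intro s θ
    have h1 : ‖er θ‖ = 1 := by rw [er_exp]; exact Complex.norm_exp_ofReal_mul_I θ
    have h2 := hρ.rad (er θ) s h1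
    rw [X_eq, mul_comm]
    exact h2
  -- polar coordinates
  have hXc := X_cont
  have hpol : ∀ x ∈ Metric.ball z r, Mo ρ g x = h x * m := by
    intro x hx
    have hxb : Metric.ball x r ⊆ Ω := by
      refine Subset.trans (Metric.ball_subset_ball' ?_) hball
      rw [Metric.mem_ball] at hx
      linarith
    have e1 : Mo ρ g x = ∫ y, h (x + y) * ρ y := by
      unfold Mo
      rw [← integral_add_left_eq_self (fun y => g y * ρ (x - y)) x]
      refine integral_congr_ae (Eventually.of_forall fun y => ?_)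
      simp only
      rw [show x - (x + y) = -y by ring, hρ.even]
      rcases lt_or_ge ‖y‖ ε with hy | hy
      · rw [hg (x + y) (hxb (by
          rw [Metric.mem_ball, dist_eq_norm, add_sub_cancel_left]; linarith))]
      · rw [hρ.out _ hy]; simp
    rw [e1, polar_gen hε0 (F := fun p => p.1 * (h (x + X p.1 p.2) * ρ (X p.1 p.2)))
      (continuous_fst.mul ((hhc.comp (continuous_const.add hXc)).mul (hρ.sc.cont.comp hXc)))
      (fun r θ _ => rfl) (fun y hy => by rw [hρ.out y hy, mul_zero]), hm,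
      polar_gen hε0 (F := fun p => p.1 * (B 0 (lam * ‖X p.1 p.2‖ ^ 2 / 4) * ρ (X p.1 p.2)))
      (continuous_fst.mul ((hBc.comp hXc).mul (hρ.sc.cont.comp hXc)))
      (fun r θ _ => rfl) (fun y hy => by rw [hρ.out y hy, mul_zero]),
      ← intervalIntegral.integral_const_mul]
    refine intervalIntegral.integral_congr fun s hs => ?_
    rw [uIcc_of_le hε0.le] at hs
    simp only [hρX, norm_X, sq_abs]
    have hmean := mean_h hlam hR hgm hgM hg0 hg (h := h) (fun x => rfl) (a := x) (r := r) hs.1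
      (by linarith [hs.2]) hxb
    have e2 : ∫ θ in (-Real.pi)..Real.pi, s * (h (x + X s θ) * ρ (s : ℂ)) =
        s * ρ (s : ℂ) * ∫ θ in (-Real.pi)..Real.pi, h (x + X s θ) := by
      rw [← intervalIntegral.integral_const_mul]
      refine intervalIntegral.integral_congr fun θ _ => ?_
      ring
    rw [e2, hmean]
    simp only [intervalIntegral.integral_const, smul_eq_mul]
    ring
  refine ⟨r, hr', fun x => Mo ρ g x * m⁻¹, ⟨hF.sm.mul contDiff_const, hF.cs.mul_right⟩,
    Subset.trans (Metric.ball_subset_ball (by linarith)) hball, fun x hx => ⟨?_, ?_⟩⟩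
  · change h x = _
    simp only
    rw [hpol x hx]
    field_simp
  · have hxb : Metric.ball x r ⊆ Ω := by
      refine Subset.trans (Metric.ball_subset_ball' ?_) hball
      rw [Metric.mem_ball] at hx
      linarith
    have h1 := mo_helm hR hgm hgM hg0 hg hρ (ε' := r) (by linarith) hxb
    have e : ∀ v, dd v (dd v (fun x => Mo ρ g x * m⁻¹)) x = dd v (dd v (Mo ρ g)) x * m⁻¹ := by
      intro v
      have e1 : ∀ {φ : ℂ → ℝ}, SC φ → ∀ x, dd v (fun x => φ x * m⁻¹) x = dd v φ x * m⁻¹ := by
        intro φ hφ x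
        unfold dd
        rw [fderiv_mul_const (hφ.diff x)]
        simp [mul_comm]
      have e2 : dd v (fun x => Mo ρ g x * m⁻¹) = fun x => dd v (Mo ρ g) x * m⁻¹ :=
        funext fun x => e1 hF x
      rw [e2, e1 (dd_sc hF v)]
    unfold la at h1 ⊢
    rw [e, e, ← add_mul, h1]
    ring

theorem dat_of_sol {u : ℂ → ℝ} {G : ℂ → ℂ} (ho : IsOpen Ω) (hb : Bornology.IsBounded Ω)
    (hreg : interior (closure Ω) = Ω) (hlam : 0 < lam) (h : Sol Ω lam c u G) :
    ∃ v, Dat Ω lam c v := by
  obtain ⟨g, R, M, hR, hΩR, hN, hgM, hgm, hout, hg, hae⟩ := from_sol hb ho.measurableSet hlam h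
  have hg0 : ∀ x, R ≤ ‖x‖ → g x = 0 := fun x hx => hout x fun hx' => by
    have := hΩR hx'
    rw [mem_ball_zero_iff] at this
    linarith
  have hp1 := pot_c1 hR hgm hgM hg0
  set v : ℂ → ℝ := fun x => lam / (2 * Real.pi) * pot g x with hv
  have hv1 : ContDiff ℝ 1 v := contDiff_const.mul hp1
  -- the exterior
  have hEo : IsOpen (closure Ω)ᶜ := isClosed_closure.isOpen_compl
  have hE : EqOn v (fun _ => 0) (closure Ω)ᶜ := by
    refine MeasureTheory.Measure.eqOn_open_of_ae_eq (μ := volume) ?_ hEo hv1.continuous.continuousOn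
      continuousOn_const
    refine (ae_restrict_iff' hEo.measurableSet).2 ?_
    filter_upwards [hae] with x hx hxE
    change lam / (2 * Real.pi) * pot g x = 0
    rw [hx, indicator_of_notMem fun h => hxE (subset_closure h)]
  have hEd : EqOn (fderiv ℝ v) (fun _ => 0) (closure Ω)ᶜ := by
    intro x hx
    have h1 : v =ᶠ[𝓝 x] fun _ => 0 := by
      filter_upwards [hEo.mem_nhds hx] with y hy
      exact hE hy
    rw [h1.fderiv_eq]
    simp
  have hcl : Ωᶜ ⊆ closure ((closure Ω)ᶜ) := by
    rw [closure_compl, hreg]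
  have hE2 : EqOn v (fun _ => 0) (closure ((closure Ω)ᶜ)) :=
    hE.closure hv1.continuous continuous_const
  have hE3 : EqOn (fderiv ℝ v) (fun _ => 0) (closure ((closure Ω)ᶜ)) :=
    hEd.closure (hv1.continuous_fderiv (by norm_num)) continuous_const
  exact ⟨v, hv1, fun x hx => hE2 (hcl hx), fun x hx => hE3 (hcl hx),
    fun x₀ hx₀ => loc_U hlam hR hgm hgM hg0 hg ho hx₀⟩

/-! ### translations -/

theorem Dat.trans {v : ℂ → ℝ} (D : Dat Ω lam c v) (q : ℂ) :
    Dat ((fun x => x + q) ⁻¹' Ω) lam c (fun x => v (x + q)) := by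
  refine ⟨D.c1.comp (contDiff_id.add contDiff_const), fun x hx => D.out _ hx, fun x hx => ?_,
    fun x₀ hx₀ => ?_⟩
  · rw [fderiv_comp_add_right]
    exact D.outd _ hx
  · obtain ⟨r, hr, U, hU, hb, h⟩ := D.loc (x₀ + q) hx₀
    refine ⟨r, hr, fun x => U (x + q), trans_sc hU q, ?_, ?_⟩
    · intro x hx
      apply hb
      rw [Metric.mem_ball, dist_eq_norm] at hx ⊢
      rwa [add_sub_add_right_eq_sub]
    · intro x hx
      have hx' : x + q ∈ Metric.ball (x₀ + q) r := by
        rw [Metric.mem_ball, dist_eq_norm] at hx ⊢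
        rwa [add_sub_add_right_eq_sub]
      obtain ⟨h1, h2⟩ := h _ hx'
      refine ⟨h1, ?_⟩
      have hla : la (fun y => U (y + q)) x = la U (x + q) := by
        unfold la
        have : ∀ h, dd h (dd h (fun y => U (y + q))) x = dd h (dd h U) (x + q) := by
          intro h
          have e : dd h (fun y => U (y + q)) = fun y => dd h U (y + q) :=
            funext fun y => dd_trans U h q y
          rw [e]
          exact dd_trans (dd h U) h q x
        rw [this, this]
      rw [hla, h2]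

/-- nontriviality and a critical point -/
theorem Dat.crit {v : ℂ → ℝ} (D : Dat Ω lam c v) (hb : Bornology.IsBounded Ω) (hne : Ω.Nonempty)
    (hlam : 0 < lam) (hc : c ≠ 0) : ∃ q ∈ Ω, fderiv ℝ v q = 0 := by
  obtain ⟨x0, hx0⟩ := hne
  have hex : ∃ y, v y ≠ 0 := by
    by_contra hcon
    push Not at hcon
    obtain ⟨r, hr, U, hU, hbU, h⟩ := D.loc x0 hx0
    have h1 : ∀ x ∈ Metric.ball x0 r, U x = c := by
      intro x hx
      rw [← (h x hx).1, hcon x, zero_add]
    have h2 := (h x0 (Metric.mem_ball_self hr)).2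
    have h3 : U =ᶠ[𝓝 x0] fun _ => c := by
      filter_upwards [Metric.ball_mem_nhds x0 hr] with y hy
      exact h1 y hy
    have h4 : ∀ v, dd v (dd v U) x0 = 0 := by
      intro v
      have h5 : dd v U =ᶠ[𝓝 x0] fun _ => 0 := by
        filter_upwards [h3.fderiv (𝕜 := ℝ)] with y hy
        unfold dd
        rw [hy]
        simp
      unfold dd at h5 ⊢
      rw [h5.fderiv_eq]
      simp
    unfold la at h2
    rw [h4, h4, h1 x0 (Metric.mem_ball_self hr)] at h2
    have : lam * c = 0 := by linarith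
    rcases mul_eq_zero.1 this with h | h
    · linarith
    · exact hc h
  have hcs : HasCompactSupport v := by
    refine HasCompactSupport.intro hb.isCompact_closure fun x hx => ?_
    exact D.out x fun h => hx (subset_closure h)
  have hvc := D.c1.continuous
  obtain ⟨y, hy⟩ := hex
  have hlim : Tendsto v (cocompact ℂ) (𝓝 0) := hcs.is_zero_at_infty
  rcases lt_or_gt_of_ne hy with hneg | hpos
  · obtain ⟨q, hq⟩ := hvc.exists_forall_le' (x₀ := y) (hlim.eventually_const_le hneg)
    refine ⟨q, ?_, ?_⟩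
    · by_contra hqn
      have := hq y
      rw [D.out q hqn] at this
      linarith
    · have : IsLocalMin v q := Eventually.of_forall hq
      exact this.fderiv_eq_zero
  · obtain ⟨q, hq⟩ := hvc.exists_forall_ge' (x₀ := y) (hlim.eventually_le_const hpos)
    refine ⟨q, ?_, ?_⟩
    · by_contra hqn
      have := hq y
      rw [D.out q hqn] at this
      linarith
    · have : IsLocalMax v q := Eventually.of_forall hq
      exact this.fderiv_eq_zero

end Pool.Agent.R227.SA
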