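import Pool.Agent.R227.Polya1

set_option autoImplicit false

open MeasureTheory Set
open scoped Topology ContDiff

namespace Pool.Agent.R227.TM

/-- the plane -/
abbrev E2 := EuclideanSpace ℝ (Fin 2)

/-- coordinate vectors -/
noncomputable def e (i : Fin 2) : E2 := EuclideanSpace.single i 1

/-- partial derivative -/
noncomputable def pd (i : Fin 2) (f : E2 → ℝ) (x : E2) : ℝ := fderiv ℝ f x (e i)

/-- the Laplacian -/
noncomputable def lap (f : E2 → ℝ) (x : E2) : ℝ := ∑ i, pd i (pd i f) x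

lemma cont_mul {f g : E2 → ℝ} (hf : ∀ x ∈ tsupport g, ContinuousAt f x) (hg : Continuous g) :
    Continuous (fun x => f x * g x) := by
  rw [continuous_iff_continuousAt]
  intro x
  by_cases hx : x ∈ tsupport g
  · exact (hf x hx).mul hg.continuousAt
  · have h0 : g =ᶠ[𝓝 x] 0 := notMem_tsupport_iff_eventuallyEq.mp hx
    have h1 : (fun x => f x * g x) =ᶠ[𝓝 x] fun _ => 0 := by
      filter_upwards [h0] with y hy
      rw [hy]; simp
    exact continuousAt_const.congr h1.symm

lemma contDiff_mul' {f g : E2 → ℝ} (hf : ∀ x ∈ tsupport g, ContDiffAt ℝ ∞ f x)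
    (hg : ContDiff ℝ ∞ g) : ContDiff ℝ ∞ (fun x => f x * g x) := by
  rw [contDiff_iff_contDiffAt]
  intro x
  by_cases hx : x ∈ tsupport g
  · exact (hf x hx).mul hg.contDiffAt
  · have h0 : g =ᶠ[𝓝 x] 0 := notMem_tsupport_iff_eventuallyEq.mp hx
    have h1 : (fun x => f x * g x) =ᶠ[𝓝 x] fun _ => 0 := by
      filter_upwards [h0] with y hy
      rw [hy]; simp
    exact contDiffAt_const.congr_of_eventuallyEq h1

lemma pd_contDiffAt {f : E2 → ℝ} {x : E2} (hf : ContDiffAt ℝ ∞ f x) (i : Fin 2) :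
    ContDiffAt ℝ ∞ (pd i f) x := by
  have : ContDiffAt ℝ ∞ (fderiv ℝ f) x := hf.fderiv_right (by simp)
  exact this.clm_apply contDiffAt_const

lemma pd_contDiff {f : E2 → ℝ} (hf : ContDiff ℝ ∞ f) (i : Fin 2) : ContDiff ℝ ∞ (pd i f) :=
  contDiff_iff_contDiffAt.mpr fun x => pd_contDiffAt hf.contDiffAt i

lemma tsupport_pd {f : E2 → ℝ} (i : Fin 2) : tsupport (pd i f) ⊆ tsupport f := by
  refine (closure_mono ?_).trans (tsupport_fderiv_subset ℝ (f := f))
  intro x hx h0
  apply hx
  unfold pd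
  rw [h0]; rfl

lemma hcs_pd {f : E2 → ℝ} (hf : HasCompactSupport f) (i : Fin 2) : HasCompactSupport (pd i f) :=
  hf.of_isClosed_subset (isClosed_tsupport _) (tsupport_pd i)

/-- integration by parts against the gradient of a locally smooth function -/
lemma ibp {w ψ : E2 → ℝ} (hψ : ContDiff ℝ ∞ ψ) (hc : HasCompactSupport ψ)
    (hw : ∀ x ∈ tsupport ψ, ContDiffAt ℝ ∞ w x) (i : Fin 2) :
    Integrable (fun x => pd i w x * pd i ψ x) ∧ Integrable (fun x => pd i (pd i w) x * ψ x) ∧
    ∫ x, pd i w x * pd i ψ x = - ∫ x, pd i (pd i w) x * ψ x := by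
  have h1 : Integrable (fun x => pd i w x * pd i ψ x) := by
    have hcc : Continuous (fun x => pd i w x * pd i ψ x) :=
      cont_mul (fun x hx => (pd_contDiffAt (hw x (tsupport_pd i hx)) i).continuousAt)
        (pd_contDiff hψ i).continuous
    exact hcc.integrable_of_hasCompactSupport (hcs_pd hc i).mul_left
  have h2 : Integrable (fun x => pd i (pd i w) x * ψ x) := by
    have hcc : Continuous (fun x => pd i (pd i w) x * ψ x) :=
      cont_mul (fun x hx => (pd_contDiffAt (pd_contDiffAt (hw x hx) i) i).continuousAt)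
        hψ.continuous
    exact hcc.integrable_of_hasCompactSupport hc.mul_left
  have h3 : Integrable (fun x => pd i w x * ψ x) := by
    have hcc : Continuous (fun x => pd i w x * ψ x) :=
      cont_mul (fun x hx => (pd_contDiffAt (hw x hx) i).continuousAt) hψ.continuous
    exact hcc.integrable_of_hasCompactSupport hc.mul_left
  refine ⟨h1, h2, ?_⟩
  exact integral_mul_fderiv_eq_neg_fderiv_mul_of_integrable (f := pd i w) (g := ψ) (v := e i) h2 h1 h3
    (fun x hx => (pd_contDiffAt (hw x hx) i).differentiableAt (by simp))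
    (fun x _ => hψ.differentiable (by simp) x)

lemma norm_fderiv_sq' {u : E2 → ℝ} (x : E2) : ‖fderiv ℝ u x‖ ^ 2 = ∑ i, (pd i u x) ^ 2 :=
  Pool.Agent.R227.Polya.norm_fderiv_sq x

/-- ground state representation -/
theorem ground {w u : E2 → ℝ} (hu : ContDiff ℝ ∞ u) (hc : HasCompactSupport u)
    (hw : ∀ x ∈ tsupport u, ContDiffAt ℝ ∞ w x) (hw0 : ∀ x ∈ tsupport u, w x ≠ 0) :
    ContDiff ℝ ∞ (fun x => (w x)⁻¹ * u x) ∧
    Integrable (fun x => ‖fderiv ℝ u x‖ ^ 2) ∧
    Integrable (fun x => (-lap w x / w x) * u x ^ 2) ∧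
    Integrable (fun x => w x ^ 2 * ‖fderiv ℝ (fun x => (w x)⁻¹ * u x) x‖ ^ 2) ∧
    (∫ x, ‖fderiv ℝ u x‖ ^ 2) - ∫ x, (-lap w x / w x) * u x ^ 2
      = ∫ x, w x ^ 2 * ‖fderiv ℝ (fun x => (w x)⁻¹ * u x) x‖ ^ 2 := by
  set v : E2 → ℝ := fun x => (w x)⁻¹ * u x with hv
  have hvs : ContDiff ℝ ∞ v := contDiff_mul' (fun x hx => (hw x hx).inv (hw0 x hx)) hu
  have hvt : tsupport v ⊆ tsupport u := tsupport_mul_subset_right
  have hvc : HasCompactSupport v := hc.of_isClosed_subset (isClosed_tsupport _) hvt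
  -- ψ = v² w = v u
  set ψ : E2 → ℝ := fun x => v x * u x with hψ
  have hψs : ContDiff ℝ ∞ ψ := hvs.mul hu
  have hψc : HasCompactSupport ψ := hc.mul_left
  have hψt : tsupport ψ ⊆ tsupport u := tsupport_mul_subset_right
  have hib := fun i => ibp hψs hψc (fun x hx => hw x (hψt hx)) i
  have hpt : ∀ x, ‖fderiv ℝ u x‖ ^ 2 = w x ^ 2 * ‖fderiv ℝ v x‖ ^ 2 + ∑ i, pd i w x * pd i ψ x := by
    intro x
    rw [norm_fderiv_sq', norm_fderiv_sq', Finset.mul_sum, ← Finset.sum_add_distrib]
    refine Finset.sum_congr rfl fun i _ => ?_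
    by_cases hx : x ∈ tsupport u
    · have hwx := (hw x hx).differentiableAt (by simp)
      have hvx := hvs.differentiable (by simp) x
      have hux := hu.differentiable (by simp) x
      have hψx : pd i ψ x = pd i v x * u x + v x * pd i u x := by
        unfold pd
        simp only [hψ]
        rw [fderiv_fun_mul hvx hux]
        simp
        ring
      have huw : u =ᶠ[𝓝 x] fun y => w y * v y := by
        have h1 : ∀ᶠ y in 𝓝 x, w y ≠ 0 := (hw x hx).continuousAt.eventually_ne (hw0 x hx)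
        filter_upwards [h1] with y hy
        simp only [hv]
        field_simp
      have hux' : pd i u x = pd i w x * v x + w x * pd i v x := by
        unfold pd
        rw [huw.fderiv_eq, fderiv_fun_mul hwx hvx]
        simp
        ring
      have hue : u x = w x * v x := huw.self_of_nhds
      rw [hψx, hux', hue]
      ring
    · have h0 : ∀ i, pd i u x = 0 := fun i => by
        have : x ∉ tsupport (pd i u) := fun h => hx (tsupport_pd i h)
        exact image_eq_zero_of_notMem_tsupport this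
      have h1 : ∀ i, pd i v x = 0 := fun i => by
        have : x ∉ tsupport (pd i v) := fun h => hx (hvt (tsupport_pd i h))
        exact image_eq_zero_of_notMem_tsupport this
      have h2 : ∀ i, pd i ψ x = 0 := fun i => by
        have : x ∉ tsupport (pd i ψ) := fun h => hx (hψt (tsupport_pd i h))
        exact image_eq_zero_of_notMem_tsupport this
      rw [h0, h1, h2]
      ring
  have hIu : Integrable (fun x => ‖fderiv ℝ u x‖ ^ 2) := by
    simp_rw [norm_fderiv_sq']
    exact integrable_finsetSum _ fun i _ =>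
      Pool.Agent.R227.Polya.integrable_sq_of_cc (pd_contDiff hu i).continuous (hcs_pd hc i)
  have hIs : Integrable (fun x => ∑ i, pd i w x * pd i ψ x) :=
    integrable_finsetSum _ fun i _ => (hib i).1
  have hIv : Integrable (fun x => w x ^ 2 * ‖fderiv ℝ v x‖ ^ 2) := by
    have : (fun x => w x ^ 2 * ‖fderiv ℝ v x‖ ^ 2)
      = fun x => ‖fderiv ℝ u x‖ ^ 2 - ∑ i, pd i w x * pd i ψ x := by
      ext x
      rw [hpt x]; ring
    rw [this]
    exact hIu.sub hIs
  have hlap : ∀ x, (-lap w x / w x) * u x ^ 2 = -∑ i, pd i (pd i w) x * ψ x := by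
    intro x
    rw [← Finset.sum_mul]
    change (-lap w x / w x) * u x ^ 2 = -(lap w x * ((w x)⁻¹ * u x * u x))
    ring
  have hIl : Integrable (fun x => (-lap w x / w x) * u x ^ 2) := by
    simp_rw [hlap]
    exact (integrable_finsetSum _ fun i _ => (hib i).2.1).neg
  refine ⟨hvs, hIu, hIl, hIv, ?_⟩
  have e1 : ∫ x, ‖fderiv ℝ u x‖ ^ 2 = (∫ x, w x ^ 2 * ‖fderiv ℝ v x‖ ^ 2)
      + ∑ i, ∫ x, pd i w x * pd i ψ x := by
    simp_rw [hpt]
    rw [integral_add hIv hIs, integral_finsetSum _ fun i _ => (hib i).1]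
  have e2 : ∫ x, (-lap w x / w x) * u x ^ 2 = ∑ i, ∫ x, pd i w x * pd i ψ x := by
    simp_rw [hlap]
    rw [integral_neg, integral_finsetSum _ fun i _ => (hib i).2.1, ← Finset.sum_neg_distrib]
    refine Finset.sum_congr rfl fun i _ => ?_
    rw [(hib i).2.2]
  rw [e1, e2]
  ring

end Pool.Agent.R227.TM
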