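import Pool.Agent.R227.TM1

set_option autoImplicit false

open MeasureTheory Set
open scoped Topology ContDiff

namespace Pool.Agent.R227.TM

/-- scaled squared distance -/
noncomputable def sq (p : E2) (d : ℝ) (z : E2) : ℝ := ‖z - p‖ ^ 2 / d ^ 2

lemma sq_contDiff (p : E2) (d : ℝ) : ContDiff ℝ ∞ (sq p d) := by
  unfold sq
  have : ContDiff ℝ ∞ (fun z : E2 => ‖z - p‖ ^ 2) := (contDiff_id.sub contDiff_const).norm_sq ℝ
  exact this.div_const _

lemma pd_sq (p : E2) (d : ℝ) (i : Fin 2) (z : E2) : pd i (sq p d) z = 2 * (z i - p i) / d ^ 2 := by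
  unfold pd sq
  have h1 : HasFDerivAt (fun z : E2 => ‖z - p‖ ^ 2) (2 • (innerSL ℝ (z - p))) z := by
    have h2 : HasFDerivAt (fun z : E2 => z - p) (ContinuousLinearMap.id ℝ E2) z :=
      (hasFDerivAt_id z).sub_const p
    have h3 := h2.norm_sq
    simpa using h3
  have h4 : HasFDerivAt (fun z : E2 => ‖z - p‖ ^ 2 / d ^ 2) ((d ^ 2)⁻¹ • (2 • (innerSL ℝ (z - p)))) z := by
    have := h1.const_mul (d ^ 2)⁻¹
    simpa [div_eq_inv_mul] using this
  rw [h4.fderiv]
  have h5 : inner ℝ (z - p) (e i) = z i - p i := by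
    unfold e
    rw [EuclideanSpace.inner_single_right]
    simp
  simp only [smul_apply, innerSL_apply_apply, h5, smul_eq_mul, nsmul_eq_mul]
  push_cast
  ring

lemma sq_nonneg' (p : E2) (d : ℝ) (z : E2) : 0 ≤ sq p d z := by unfold sq; positivity

lemma pd_comp {G : ℝ → ℝ} {f : E2 → ℝ} {z : E2} (hG : DifferentiableAt ℝ G (f z))
    (hf : DifferentiableAt ℝ f z) (i : Fin 2) :
    pd i (fun z => G (f z)) z = deriv G (f z) * pd i f z := by
  unfold pd
  have h : HasFDerivAt (fun z => G (f z)) (deriv G (f z) • fderiv ℝ f z) z :=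
    hG.hasDerivAt.comp_hasFDerivAt z hf.hasFDerivAt
  rw [h.fderiv]
  simp

lemma deriv_contDiffAt {G : ℝ → ℝ} {τ : ℝ} (hG : ContDiffAt ℝ ∞ G τ) :
    ContDiffAt ℝ ∞ (deriv G) τ := by
  have h1 : ContDiffAt ℝ ∞ (fderiv ℝ G) τ := hG.fderiv_right (by simp)
  have h2 : ContDiffAt ℝ ∞ (fun t => fderiv ℝ G t 1) τ := h1.clm_apply contDiffAt_const
  exact h2

/-- Laplacian of a function of the squared distance -/
lemma lap_radial {G : ℝ → ℝ} {p : E2} {d : ℝ} (hd : d ≠ 0)
    (hG : ∀ τ, 0 ≤ τ → ContDiffAt ℝ ∞ G τ) (z : E2) :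
    lap (fun z => G (sq p d z)) z
      = 4 / d ^ 2 * (deriv G (sq p d z) + sq p d z * deriv (deriv G) (sq p d z)) := by
  have hsq := sq_contDiff p d
  have hsqd : ∀ y, DifferentiableAt ℝ (sq p d) y := fun y => hsq.differentiable (by simp) y
  have hG' : ∀ τ, 0 ≤ τ → ContDiffAt ℝ ∞ (deriv G) τ := fun τ hτ => deriv_contDiffAt (hG τ hτ)
  have h1 : ∀ i, pd i (fun z => G (sq p d z)) = fun y => deriv G (sq p d y) * (2 * (y i - p i) / d ^ 2) := by
    intro i
    ext y
    rw [pd_comp ((hG _ (sq_nonneg' p d y)).differentiableAt (by simp)) (hsqd y), pd_sq]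
  have h2 : ∀ i, pd i (fun y : E2 => 2 * (y i - p i) / d ^ 2) z = 2 / d ^ 2 := by
    intro i
    unfold pd
    have h3 : HasFDerivAt (fun y : E2 => y i) (EuclideanSpace.proj i : E2 →L[ℝ] ℝ) z :=
      (EuclideanSpace.proj i : E2 →L[ℝ] ℝ).hasFDerivAt
    have h4 := ((h3.sub_const (p i)).const_mul 2).mul_const (d ^ 2)⁻¹
    have h5 : (fun y : E2 => 2 * (y i - p i) / d ^ 2) = fun y : E2 => 2 * (y i - p i) * (d ^ 2)⁻¹ := by
      ext y; rw [div_eq_mul_inv]
    rw [h5, h4.fderiv]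
    simp [e]
    ring
  unfold lap
  have h6 : ∀ i, pd i (pd i (fun z => G (sq p d z))) z
      = deriv (deriv G) (sq p d z) * (2 * (z i - p i) / d ^ 2) ^ 2 + deriv G (sq p d z) * (2 / d ^ 2) := by
    intro i
    rw [h1 i]
    have hA : DifferentiableAt ℝ (fun y => deriv G (sq p d y)) z :=
      ((hG' _ (sq_nonneg' p d z)).differentiableAt (by simp)).comp z (hsqd z)
    have hB : DifferentiableAt ℝ (fun y : E2 => 2 * (y i - p i) / d ^ 2) z := by fun_prop
    have h7 : pd i (fun y => deriv G (sq p d y) * (2 * (y i - p i) / d ^ 2)) z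
        = pd i (fun y => deriv G (sq p d y)) z * (2 * (z i - p i) / d ^ 2)
          + deriv G (sq p d z) * pd i (fun y : E2 => 2 * (y i - p i) / d ^ 2) z := by
      unfold pd
      rw [fderiv_fun_mul hA hB]
      simp
      ring
    rw [h7, h2, pd_comp ((hG' _ (sq_nonneg' p d z)).differentiableAt (by simp)) (hsqd z), pd_sq]
    ring
  simp_rw [h6]
  rw [Finset.sum_add_distrib, ← Finset.mul_sum]
  have h8 : ∑ i, (2 * (z i - p i) / d ^ 2) ^ 2 = 4 / d ^ 2 * sq p d z := by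
    have h9 : ∀ i : Fin 2, (2 * (z i - p i) / d ^ 2) ^ 2 = 4 / d ^ 4 * (z i - p i) ^ 2 := by
      intro i
      field_simp
      ring
    simp_rw [h9]
    rw [← Finset.mul_sum]
    unfold sq
    rw [EuclideanSpace.norm_sq_eq]
    simp only [Real.norm_eq_abs, sq_abs, PiLp.sub_apply]
    field_simp
  rw [h8]
  simp
  ring

/-- cutoff: `1` for `s ≤ 1/4`, `0` for `s ≥ 1/2` -/
noncomputable def cut (s : ℝ) : ℝ := Real.smoothTransition (2 - 4 * s)

lemma cut_contDiff : ContDiff ℝ ∞ cut := by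
  unfold cut
  exact Real.smoothTransition.contDiff.comp (by fun_prop)

lemma cut_one {s : ℝ} (hs : s ≤ 1 / 4) : cut s = 1 :=
  Real.smoothTransition.one_of_one_le (by linarith)

lemma cut_zero {s : ℝ} (hs : 1 / 2 ≤ s) : cut s = 0 :=
  Real.smoothTransition.zero_of_nonpos (by linarith)

lemma cut_nonneg (s : ℝ) : 0 ≤ cut s := Real.smoothTransition.nonneg _

lemma cut_le_one (s : ℝ) : cut s ≤ 1 := Real.smoothTransition.le_one _

/-- regularised logarithm -/
noncomputable def ell (ε τ : ℝ) : ℝ := -(1 / 2) * Real.log (τ + ε ^ 2)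

noncomputable def HH (ε τ : ℝ) : ℝ := cut τ * ell ε τ

lemma ell_hasDeriv {ε τ : ℝ} (h : 0 < τ + ε ^ 2) :
    HasDerivAt (ell ε) (-(1 / 2) * (τ + ε ^ 2)⁻¹) τ := by
  unfold ell
  have h1 : HasDerivAt (fun τ : ℝ => τ + ε ^ 2) 1 τ := (hasDerivAt_id τ).add_const _
  have h2 := (h1.log h.ne').const_mul (-(1 / 2))
  simpa using h2

lemma ell_contDiffAt {ε τ : ℝ} (h : 0 < τ + ε ^ 2) : ContDiffAt ℝ ∞ (ell ε) τ := by
  unfold ell
  apply contDiffAt_const.mul
  exact (contDiffAt_id.add contDiffAt_const).log h.ne'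

lemma HH_contDiffAt {ε : ℝ} (hε : 0 < ε) {τ : ℝ} (h : 0 ≤ τ) : ContDiffAt ℝ ∞ (HH ε) τ :=
  cut_contDiff.contDiffAt.mul (ell_contDiffAt (by positivity))

lemma HH_op {ε : ℝ} (hε : 0 < ε) {τ : ℝ} (h : 0 ≤ τ) :
    deriv (HH ε) τ + τ * deriv (deriv (HH ε)) τ
      = cut τ * (-(1 / 2) * ε ^ 2 / (τ + ε ^ 2) ^ 2)
        + deriv cut τ * (ell ε τ - τ / (τ + ε ^ 2)) + τ * deriv (deriv cut) τ * ell ε τ := by
  have hpos : 0 < τ + ε ^ 2 := by positivity
  have hcd : ∀ t, HasDerivAt cut (deriv cut t) t := fun t =>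
    (cut_contDiff.differentiable (by simp) t).hasDerivAt
  have hcd2 : HasDerivAt (deriv cut) (deriv (deriv cut) τ) τ :=
    ((deriv_contDiffAt (cut_contDiff.contDiffAt (x := τ))).differentiableAt (by simp)).hasDerivAt
  have h1 : ∀ᶠ t in 𝓝 τ, deriv (HH ε) t = deriv cut t * ell ε t + cut t * (-(1 / 2) * (t + ε ^ 2)⁻¹) := by
    have : ∀ᶠ t in 𝓝 τ, 0 < t + ε ^ 2 :=
      (by fun_prop : Continuous fun t : ℝ => t + ε ^ 2).continuousAt.eventually (lt_mem_nhds hpos)
    filter_upwards [this] with t ht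
    exact ((hcd t).mul (ell_hasDeriv ht)).deriv
  have h2 : deriv (HH ε) τ = deriv cut τ * ell ε τ + cut τ * (-(1 / 2) * (τ + ε ^ 2)⁻¹) :=
    h1.self_of_nhds
  have h3 : deriv (deriv (HH ε)) τ = deriv (deriv cut) τ * ell ε τ + deriv cut τ * (-(1 / 2) * (τ + ε ^ 2)⁻¹)
      + (deriv cut τ * (-(1 / 2) * (τ + ε ^ 2)⁻¹) + cut τ * (-(1 / 2) * (-1 / (τ + ε ^ 2) ^ 2))) := by
    have h4 : HasDerivAt (fun t : ℝ => t + ε ^ 2) 1 τ := (hasDerivAt_id τ).add_const _
    have h5 := (h4.inv hpos.ne').const_mul (-(1 / 2))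
    have h6 := (hcd2.mul (ell_hasDeriv hpos)).add ((hcd τ).mul h5)
    have h7 : deriv (HH ε) =ᶠ[𝓝 τ] fun t => deriv cut t * ell ε t + cut t * (-(1 / 2) * (t + ε ^ 2)⁻¹) := h1
    rw [h7.deriv_eq]
    exact h6.deriv
  rw [h2, h3]
  field_simp
  ring

/-- the uniform upper bound for the Laplacian of the peaks -/
lemma HH_bound : ∃ C > 0, ∀ ε, 0 < ε → ε ≤ 1 / 2 → ∀ τ, 0 ≤ τ →
    deriv (HH ε) τ + τ * deriv (deriv (HH ε)) τ ≤ C := by
  have c1 : Continuous (deriv cut) := by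
    have : ContDiff ℝ ∞ (deriv cut) := contDiff_iff_contDiffAt.mpr fun x =>
      deriv_contDiffAt cut_contDiff.contDiffAt
    exact this.continuous
  have c2 : Continuous (deriv (deriv cut)) := by
    have : ContDiff ℝ ∞ (deriv (deriv cut)) := contDiff_iff_contDiffAt.mpr fun x =>
      deriv_contDiffAt (deriv_contDiffAt cut_contDiff.contDiffAt)
    exact this.continuous
  obtain ⟨M1, hM1⟩ := isCompact_Icc.exists_bound_of_continuousOn (s := Icc (1/4:ℝ) (1/2)) c1.continuousOn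
  obtain ⟨M2, hM2⟩ := isCompact_Icc.exists_bound_of_continuousOn (s := Icc (1/4:ℝ) (1/2)) c2.continuousOn
  have hM1n : 0 ≤ M1 := (norm_nonneg _).trans (hM1 (1/4) ⟨le_rfl, by norm_num⟩)
  have hM2n : 0 ≤ M2 := (norm_nonneg _).trans (hM2 (1/4) ⟨le_rfl, by norm_num⟩)
  refine ⟨2 * M1 + M2 + 1, by positivity, fun ε hε hε2 τ hτ => ?_⟩
  rw [HH_op hε hτ]
  have hpos : 0 < τ + ε ^ 2 := by positivity
  have t1 : cut τ * (-(1 / 2) * ε ^ 2 / (τ + ε ^ 2) ^ 2) ≤ 0 := by
    apply mul_nonpos_of_nonneg_of_nonpos (cut_nonneg _)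
    apply div_nonpos_of_nonpos_of_nonneg
    · nlinarith [sq_nonneg ε]
    · positivity
  by_cases hI : τ ∈ Icc (1/4:ℝ) (1/2)
  · have hl0 : 0 ≤ ell ε τ ∧ ell ε τ ≤ 1 := by
      unfold ell
      have h1 : τ + ε ^ 2 ≤ 1 := by nlinarith [hI.2]
      have h2 : Real.log (τ + ε ^ 2) ≤ 0 := Real.log_nonpos hpos.le h1
      have h3 : -2 ≤ Real.log (τ + ε ^ 2) := by
        have h4 : Real.log (1/4) ≤ Real.log (τ + ε ^ 2) :=
          Real.log_le_log (by norm_num) (by nlinarith [hI.1, sq_nonneg ε])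
        have h5 : Real.log (1/4) = -(2 * Real.log 2) := by
          rw [show (1/4:ℝ) = (2^2)⁻¹ by norm_num, Real.log_inv, Real.log_pow]; norm_num
        have h6 := Real.log_two_lt_d9
        linarith
      constructor <;> linarith
    have hq : 0 ≤ τ / (τ + ε ^ 2) ∧ τ / (τ + ε ^ 2) ≤ 1 := by
      constructor
      · positivity
      · rw [div_le_one hpos]; nlinarith [sq_nonneg ε]
    have a1 : |deriv cut τ| ≤ M1 := by simpa using hM1 τ hI
    have a2 : |deriv (deriv cut) τ| ≤ M2 := by simpa using hM2 τ hI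
    have b1 : deriv cut τ * (ell ε τ - τ / (τ + ε ^ 2)) ≤ M1 * 1 := by
      calc deriv cut τ * (ell ε τ - τ / (τ + ε ^ 2)) ≤ |deriv cut τ * (ell ε τ - τ / (τ + ε ^ 2))| :=
            le_abs_self _
        _ = |deriv cut τ| * |ell ε τ - τ / (τ + ε ^ 2)| := abs_mul _ _
        _ ≤ M1 * 1 := by
            apply mul_le_mul a1 _ (abs_nonneg _) hM1n
            rw [abs_le]
            constructor <;> linarith [hl0.1, hl0.2, hq.1, hq.2]
    have b2 : τ * deriv (deriv cut) τ * ell ε τ ≤ M2 := by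
      calc τ * deriv (deriv cut) τ * ell ε τ ≤ |τ * deriv (deriv cut) τ * ell ε τ| := le_abs_self _
        _ = τ * |deriv (deriv cut) τ| * ell ε τ := by
            rw [abs_mul, abs_mul, abs_of_nonneg hτ, abs_of_nonneg hl0.1]
        _ ≤ 1 * M2 * 1 := by
            apply mul_le_mul _ hl0.2 hl0.1 (by positivity)
            apply mul_le_mul _ a2 (abs_nonneg _) zero_le_one
            linarith [hI.2]
        _ = M2 := by ring
    linarith
  · -- outside the transition region the derivatives of the cutoff vanish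
    have hz : deriv cut τ = 0 ∧ deriv (deriv cut) τ = 0 := by
      have hloc : (fun _ : ℝ => (1:ℝ)) =ᶠ[𝓝 τ] cut ∨ (fun _ : ℝ => (0:ℝ)) =ᶠ[𝓝 τ] cut := by
        rcases lt_or_ge τ (1/4) with h1 | h1
        · left
          filter_upwards [gt_mem_nhds h1] with t ht
          exact (cut_one ht.le).symm
        · right
          have h2 : 1/2 < τ := by
            by_contra hcon
            exact hI ⟨h1, not_lt.mp hcon⟩
          filter_upwards [lt_mem_nhds h2] with t ht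
          exact (cut_zero ht.le).symm
      rcases hloc with h1 | h1
      · have e1 := h1.symm.deriv
        refine ⟨?_, ?_⟩
        · rw [h1.symm.deriv_eq]; simp
        · rw [e1.deriv_eq]; simp
      · have e1 := h1.symm.deriv
        refine ⟨?_, ?_⟩
        · rw [h1.symm.deriv_eq]; simp
        · rw [e1.deriv_eq]; simp
    rw [hz.1, hz.2]
    simp only [zero_mul, mul_zero, add_zero]
    have : 0 ≤ 2 * M1 + M2 + 1 := by positivity
    linarith

end Pool.Agent.R227.TM
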