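import Pool.Agent.R227.TM2

set_option autoImplicit false

open MeasureTheory Set
open scoped Topology ContDiff

namespace Pool.Agent.R227.TM

/-- centres of the peaks -/
noncomputable def pt (k : ℕ) : E2 := EuclideanSpace.single 0 (1 - (1 / 2 : ℝ) ^ (k + 1))

/-- radii of the peaks -/
noncomputable def rad (k : ℕ) : ℝ := (1 / 2 : ℝ) ^ (k + 4)

lemma rad_pos (k : ℕ) : 0 < rad k := by unfold rad; positivity

lemma half_pow_pos (k : ℕ) : 0 < (1 / 2 : ℝ) ^ k := by positivity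

lemma norm_pt (k : ℕ) : ‖pt k‖ = 1 - (1 / 2 : ℝ) ^ (k + 1) := by
  unfold pt
  rw [PiLp.norm_single, Real.norm_eq_abs, abs_of_nonneg]
  have : (1 / 2 : ℝ) ^ (k + 1) ≤ 1 := pow_le_one₀ (by norm_num) (by norm_num)
  linarith

lemma dist_pt {j k : ℕ} (h : j < k) : (1 / 2 : ℝ) ^ (j + 2) ≤ ‖pt j - pt k‖ := by
  have h0 : pt j - pt k = EuclideanSpace.single 0 ((1 - (1 / 2 : ℝ) ^ (j + 1)) - (1 - (1 / 2 : ℝ) ^ (k + 1))) := by
    ext i
    fin_cases i <;> simp [pt]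
  rw [h0, PiLp.norm_single, Real.norm_eq_abs]
  have h1 : (1 / 2 : ℝ) ^ (k + 1) ≤ (1 / 2 : ℝ) ^ (j + 2) :=
    pow_le_pow_of_le_one (by norm_num) (by norm_num) (by omega)
  have h2 : (1 / 2 : ℝ) ^ (j + 1) = 2 * (1 / 2 : ℝ) ^ (j + 2) := by rw [pow_succ (1/2 : ℝ) (j + 1)]; ring
  rw [abs_of_nonpos (by nlinarith [half_pow_pos (j + 2)])]
  linarith

/-- closed peaks are disjoint -/
lemma disj {j k : ℕ} (h : j ≠ k) {z : E2} (hj : ‖z - pt j‖ ≤ rad j) (hk : ‖z - pt k‖ ≤ rad k) :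
    False := by
  wlog hlt : j < k generalizing j k
  · exact this h.symm hk hj (lt_of_le_of_ne (not_lt.mp hlt) h.symm)
  have h1 := dist_pt hlt
  have h2 : ‖pt j - pt k‖ ≤ ‖z - pt j‖ + ‖z - pt k‖ := by
    have : pt j - pt k = (z - pt k) - (z - pt j) := by abel
    rw [this]
    exact (norm_sub_le _ _).trans (by linarith)
  have h3 : rad k ≤ rad j := pow_le_pow_of_le_one (by norm_num) (by norm_num) (by omega)
  have h4 : rad j = (1 / 2 : ℝ) ^ (j + 2) / 4 := by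
    unfold rad
    rw [show j + 4 = (j + 2) + 2 by ring, pow_add]; norm_num
    ring
  have := half_pow_pos (j + 2)
  linarith

/-- peaks are inside the unit disc -/
lemma peak_in {k : ℕ} {z : E2} (hk : ‖z - pt k‖ ≤ rad k) : ‖z‖ ≤ 1 - (1 / 2 : ℝ) ^ (k + 2) := by
  have h1 : ‖z‖ ≤ ‖z - pt k‖ + ‖pt k‖ := by
    have := norm_add_le (z - pt k) (pt k)
    simpa using this
  rw [norm_pt] at h1
  have h2 : rad k = (1 / 2 : ℝ) ^ (k + 2) / 4 := by
    unfold rad
    rw [show k + 4 = (k + 2) + 2 by ring, pow_add]; norm_num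
    ring
  have h3 : (1 / 2 : ℝ) ^ (k + 1) = 2 * (1 / 2 : ℝ) ^ (k + 2) := by rw [pow_succ (1/2 : ℝ) (k + 1)]; ring
  have := half_pow_pos (k + 2)
  linarith

lemma peak_out {k : ℕ} {z : E2} (hk : ‖z - pt k‖ ≤ rad k) : 1 - (9 / 8) * (1 / 2 : ℝ) ^ (k + 1) ≤ ‖z‖ := by
  have h1 : ‖pt k‖ ≤ ‖z‖ + ‖z - pt k‖ := by
    have := norm_sub_le z (z - pt k)
    simpa using this
  rw [norm_pt] at h1
  have h2 : rad k = (1 / 2 : ℝ) ^ (k + 1) / 8 := by
    unfold rad
    rw [show k + 4 = (k + 1) + 3 by ring, pow_add]; norm_num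
    ring
  linarith

/-- parameters of the construction -/
structure Par where
  C : ℝ
  hC : 0 < C
  hB : ∀ ε, 0 < ε → ε ≤ 1 / 2 → ∀ τ, 0 ≤ τ → deriv (HH ε) τ + τ * deriv (deriv (HH ε)) τ ≤ C
  ε : ℕ → ℝ
  hε : ∀ k, 0 < ε k
  hε2 : ∀ k, ε k ≤ 1 / 2

namespace Par

variable (P : Par)

/-- amplitude -/
noncomputable def a (k : ℕ) : ℝ := rad k ^ 2 / (8 * P.C)

lemma a_pos (k : ℕ) : 0 < P.a k := by
  have := P.hC
  have := rad_pos k
  unfold a; positivity

/-- the peak -/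
noncomputable def φ (k : ℕ) (z : E2) : ℝ := P.a k * HH (P.ε k) (sq (pt k) (rad k) z)

lemma HH_nonneg {ε τ : ℝ} (hε : 0 < ε) (hε2 : ε ≤ 1 / 2) (hτ : 0 ≤ τ) : 0 ≤ HH ε τ := by
  unfold HH
  by_cases h : τ ≤ 1 / 2
  · apply mul_nonneg (cut_nonneg _)
    unfold ell
    have h1 : Real.log (τ + ε ^ 2) ≤ 0 := Real.log_nonpos (by positivity) (by nlinarith)
    linarith
  · rw [cut_zero (by linarith), zero_mul]

lemma φ_nonneg (k : ℕ) (z : E2) : 0 ≤ P.φ k z :=
  mul_nonneg (P.a_pos k).le (HH_nonneg (P.hε k) (P.hε2 k) (sq_nonneg' _ _ _))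

lemma φ_zero {k : ℕ} {z : E2} (h : 1 / 2 ≤ sq (pt k) (rad k) z) : P.φ k z = 0 := by
  unfold φ HH
  rw [cut_zero h, zero_mul, mul_zero]

lemma sq_le_one_iff (k : ℕ) (z : E2) : sq (pt k) (rad k) z ≤ 1 ↔ ‖z - pt k‖ ≤ rad k := by
  have := rad_pos k
  unfold sq
  rw [div_le_one (by positivity)]
  exact pow_le_pow_iff_left₀ (norm_nonneg _) this.le (by norm_num)

lemma φ_zero' {k : ℕ} {z : E2} (h : rad k < ‖z - pt k‖) : P.φ k z = 0 := by
  apply P.φ_zero
  by_contra hcon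
  push Not at hcon
  have := (sq_le_one_iff k z).mp (by linarith)
  linarith

lemma φ_contDiff (k : ℕ) : ContDiff ℝ ∞ (P.φ k) := by
  rw [contDiff_iff_contDiffAt]
  intro z
  unfold φ
  apply contDiffAt_const.mul
  exact (HH_contDiffAt (P.hε k) (sq_nonneg' _ _ z)).comp z (sq_contDiff _ _).contDiffAt

/-- the background -/
noncomputable def w0 (z : E2) : ℝ := 1 + Real.exp (-(sq 0 1 z) / 4)

lemma w0_contDiff : ContDiff ℝ ∞ w0 := by
  unfold w0
  exact contDiff_const.add ((sq_contDiff 0 1).neg.div_const 4).exp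

lemma w0_ge (z : E2) : 1 ≤ w0 z := by
  unfold w0
  have := Real.exp_pos (-(sq 0 1 z) / 4)
  linarith

lemma w0_le (z : E2) : w0 z ≤ 2 := by
  unfold w0
  have : Real.exp (-(sq 0 1 z) / 4) ≤ 1 := by
    apply Real.exp_le_one_iff.mpr
    have := sq_nonneg' 0 1 z
    linarith
  linarith

/-- the ground state -/
noncomputable def w (z : E2) : ℝ := w0 z + ∑' k, P.φ k z

lemma w_eq {K : ℕ} {z : E2} (hz : ‖z‖ < 1 - (1 / 2 : ℝ) ^ K) :
    P.w z = w0 z + ∑ k ∈ Finset.range K, P.φ k z := by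
  unfold w
  congr 1
  apply tsum_eq_sum
  intro k hk
  rw [Finset.mem_range, not_lt] at hk
  apply P.φ_zero'
  by_contra hcon
  push Not at hcon
  have h1 := peak_out hcon
  have h2 : (1 / 2 : ℝ) ^ (k + 1) ≤ (1 / 2 : ℝ) ^ (K + 1) :=
    pow_le_pow_of_le_one (by norm_num) (by norm_num) (by omega)
  have h3 : (1 / 2 : ℝ) ^ K = 2 * (1 / 2 : ℝ) ^ (K + 1) := by rw [pow_succ (1/2 : ℝ) K]; ring
  have := half_pow_pos (K + 1)
  linarith

lemma exists_K {z : E2} (hz : ‖z‖ < 1) : ∃ K : ℕ, ‖z‖ < 1 - (1 / 2 : ℝ) ^ K := by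
  obtain ⟨K, hK⟩ := exists_pow_lt_of_lt_one (show (0:ℝ) < 1 - ‖z‖ by linarith) (show (1/2 : ℝ) < 1 by norm_num)
  exact ⟨K, by linarith⟩

lemma w_eventually {K : ℕ} {z : E2} (hz : ‖z‖ < 1 - (1 / 2 : ℝ) ^ K) :
    P.w =ᶠ[𝓝 z] fun z => w0 z + ∑ k ∈ Finset.range K, P.φ k z := by
  have h1 : ∀ᶠ y in 𝓝 z, ‖y‖ < 1 - (1 / 2 : ℝ) ^ K :=
    continuous_norm.continuousAt.eventually (gt_mem_nhds hz)
  filter_upwards [h1] with y hy
  exact P.w_eq hy

lemma w_contDiffAt {z : E2} (hz : ‖z‖ < 1) : ContDiffAt ℝ ∞ P.w z := by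
  obtain ⟨K, hK⟩ := exists_K hz
  apply ContDiffAt.congr_of_eventuallyEq _ (P.w_eventually hK)
  apply w0_contDiff.contDiffAt.add
  exact ContDiffAt.sum fun k _ => (P.φ_contDiff k).contDiffAt

/-- on the closed `k`-th peak only the `k`-th term matters -/
lemma w_peak {k : ℕ} {z : E2} (hk : ‖z - pt k‖ ≤ rad k) : P.w z = w0 z + P.φ k z := by
  unfold w
  congr 1
  apply tsum_eq_single
  intro j hj
  apply P.φ_zero'
  by_contra hcon
  push Not at hcon
  exact disj hj hcon hk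

lemma w_off {z : E2} (h : ∀ k, rad k < ‖z - pt k‖) : P.w z = w0 z := by
  unfold w
  have : ∀ k, P.φ k z = 0 := fun k => P.φ_zero' (h k)
  simp [this]

lemma w_ge (z : E2) : 1 ≤ P.w z := by
  unfold w
  have h1 : 0 ≤ ∑' k, P.φ k z := tsum_nonneg fun k => P.φ_nonneg k z
  have := w0_ge z
  linarith

lemma lap_add {f g : E2 → ℝ} (hf : ContDiff ℝ ∞ f) (hg : ContDiff ℝ ∞ g) (z : E2) :
    lap (fun z => f z + g z) z = lap f z + lap g z := by
  unfold lap
  rw [← Finset.sum_add_distrib]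
  refine Finset.sum_congr rfl fun i _ => ?_
  have h1 : pd i (fun z => f z + g z) = fun z => pd i f z + pd i g z := by
    ext y
    unfold pd
    rw [fderiv_fun_add (hf.differentiable (by simp) y) (hg.differentiable (by simp) y)]
    simp
  rw [h1]
  change fderiv ℝ (fun z => pd i f z + pd i g z) z (e i) = fderiv ℝ (pd i f) z (e i) + fderiv ℝ (pd i g) z (e i)
  rw [fderiv_fun_add ((pd_contDiff hf i).differentiable (by simp) z)
    ((pd_contDiff hg i).differentiable (by simp) z)]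
  simp

lemma lap_zero (z : E2) : lap (fun _ => 0) z = 0 := by
  unfold lap pd
  simp

lemma lap_finset_sum {ι : Type*} (s : Finset ι) {f : ι → E2 → ℝ} (hf : ∀ i, ContDiff ℝ ∞ (f i)) (z : E2) :
    lap (fun z => ∑ i ∈ s, f i z) z = ∑ i ∈ s, lap (f i) z := by
  classical
  induction s using Finset.induction_on with
  | empty => simp [lap_zero]
  | insert a s ha ih =>
    simp only [Finset.sum_insert ha]
    rw [lap_add (hf a) (ContDiff.sum fun i _ => hf i), ih]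

lemma lap_congr {f g : E2 → ℝ} {z : E2} (h : f =ᶠ[𝓝 z] g) : lap f z = lap g z := by
  unfold lap
  refine Finset.sum_congr rfl fun i _ => ?_
  have h1 : pd i f =ᶠ[𝓝 z] pd i g := by
    have := h.fderiv (𝕜 := ℝ)
    filter_upwards [this] with y hy
    unfold pd
    rw [hy]
  change fderiv ℝ (pd i f) z (e i) = fderiv ℝ (pd i g) z (e i)
  rw [h1.fderiv_eq]

lemma lap_w0 {z : E2} (hz : ‖z‖ < 1) : lap w0 z ≤ -(1 / 2) := by
  have h1 : ∀ τ : ℝ, 0 ≤ τ → ContDiffAt ℝ ∞ (fun s : ℝ => 1 + Real.exp (-s / 4)) τ := by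
    intro τ _
    exact contDiffAt_const.add ((contDiffAt_id.neg.div_const 4).exp)
  have h2 := lap_radial (G := fun s : ℝ => 1 + Real.exp (-s / 4)) (p := 0) (d := 1) one_ne_zero h1 z
  change lap w0 z = _ at h2
  rw [h2]
  have hd1 : ∀ s : ℝ, HasDerivAt (fun s : ℝ => Real.exp (-s / 4)) (-(1 / 4) * Real.exp (-s / 4)) s := by
    intro s
    have : HasDerivAt (fun s : ℝ => -s / 4) (-(1/4)) s := by
      have := (hasDerivAt_id s).neg.div_const 4
      simpa [neg_div] using this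
    have := this.exp
    rw [mul_comm] at this
    exact this
  have hd2 : deriv (fun s : ℝ => 1 + Real.exp (-s / 4)) = fun s => -(1 / 4) * Real.exp (-s / 4) := by
    ext s
    exact ((hd1 s).const_add 1).deriv
  have hd3 : deriv (fun s : ℝ => -(1 / 4) * Real.exp (-s / 4)) = fun s => -(1 / 4) * (-(1 / 4) * Real.exp (-s / 4)) := by
    ext s
    exact ((hd1 s).const_mul (-(1/4))).deriv
  rw [hd2, hd3]
  have hs0 := sq_nonneg' 0 1 z
  have hs1 : sq 0 1 z ≤ 1 := by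
    unfold sq
    rw [sub_zero, one_pow, div_one]
    nlinarith [norm_nonneg z]
  set s := sq 0 1 z
  have he : 3 / 4 ≤ Real.exp (-s / 4) := by
    have := Real.add_one_le_exp (-s / 4)
    linarith
  nlinarith

lemma lap_φ (k : ℕ) (z : E2) : lap (P.φ k) z ≤ 1 / 2 := by
  have hr := rad_pos k
  have hC := P.hC
  have h1 : ∀ τ : ℝ, 0 ≤ τ → ContDiffAt ℝ ∞ (fun s : ℝ => P.a k * HH (P.ε k) s) τ := fun τ hτ =>
    contDiffAt_const.mul (HH_contDiffAt (P.hε k) hτ)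
  have h2 := lap_radial (G := fun s : ℝ => P.a k * HH (P.ε k) s) (p := pt k) (d := rad k) hr.ne' h1 z
  change lap (P.φ k) z = _ at h2
  rw [h2]
  set τ := sq (pt k) (rad k) z with hτ
  have hτ0 : 0 ≤ τ := sq_nonneg' _ _ _
  have e1 : deriv (fun s : ℝ => P.a k * HH (P.ε k) s) = fun s => P.a k * deriv (HH (P.ε k)) s := by
    ext s
    exact deriv_const_mul_field _
  rw [e1, deriv_const_mul_field]
  have h3 := P.hB (P.ε k) (P.hε k) (P.hε2 k) τ hτ0
  have h4 : 4 / rad k ^ 2 * (P.a k * deriv (HH (P.ε k)) τ + τ * (P.a k * deriv (deriv (HH (P.ε k))) τ))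
      = (1 / (2 * P.C)) * (deriv (HH (P.ε k)) τ + τ * deriv (deriv (HH (P.ε k))) τ) := by
    unfold a
    field_simp
    ring
  rw [h4]
  calc (1 / (2 * P.C)) * (deriv (HH (P.ε k)) τ + τ * deriv (deriv (HH (P.ε k))) τ)
      ≤ (1 / (2 * P.C)) * P.C := by gcongr
    _ = 1 / 2 := by field_simp

lemma lap_φ_zero {k : ℕ} {z : E2} (h : rad k < ‖z - pt k‖) : lap (P.φ k) z = 0 := by
  have h1 : P.φ k =ᶠ[𝓝 z] fun _ => 0 := by
    have : ∀ᶠ y in 𝓝 z, rad k < ‖y - pt k‖ :=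
      (by fun_prop : Continuous fun y : E2 => ‖y - pt k‖).continuousAt.eventually (lt_mem_nhds h)
    filter_upwards [this] with y hy
    exact P.φ_zero' hy
  rw [lap_congr h1, lap_zero]

/-- `w` is superharmonic -/
lemma lap_w {z : E2} (hz : ‖z‖ < 1) : lap P.w z ≤ 0 := by
  obtain ⟨K, hK⟩ := exists_K hz
  rw [lap_congr (P.w_eventually hK), lap_add w0_contDiff (ContDiff.sum fun i _ => P.φ_contDiff i),
    lap_finset_sum _ P.φ_contDiff]
  have h1 := lap_w0 hz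
  have h2 : ∑ k ∈ Finset.range K, lap (P.φ k) z ≤ 1 / 2 := by
    by_cases h : ∃ j, ‖z - pt j‖ ≤ rad j
    · obtain ⟨j, hj⟩ := h
      have h3 : ∀ k ∈ Finset.range K, lap (P.φ k) z ≤ if k = j then 1 / 2 else 0 := by
        intro k _
        split_ifs with hkj
        · exact P.lap_φ k z
        · rw [P.lap_φ_zero]
          by_contra hcon
          push Not at hcon
          exact disj hkj hcon hj
      refine (Finset.sum_le_sum h3).trans ?_
      rw [Finset.sum_ite_eq' (Finset.range K) j]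
      split_ifs <;> norm_num
    · push Not at h
      have h3 : ∀ k ∈ Finset.range K, lap (P.φ k) z = 0 := fun k _ => P.lap_φ_zero (h k)
      rw [Finset.sum_eq_zero h3]
      norm_num
  linarith

end Par

end Pool.Agent.R227.TM
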