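import Pool.Agent.R227.TM3

set_option autoImplicit false

open MeasureTheory Set
open scoped Topology ContDiff ENNReal NNReal

namespace Pool.Agent.R227.TM

/-- Cauchy–Schwarz on a set of finite measure -/
lemma cs {A : Set E2} (hA : volume A ≠ ⊤) {g : E2 → ℝ} (h1 : IntegrableOn g A)
    (h2 : IntegrableOn (fun x => g x ^ 2) A) :
    (∫ x in A, g x) ^ 2 ≤ (volume A).toReal * ∫ x in A, g x ^ 2 := by
  set V := (volume A).toReal with hV
  have hV0 : 0 ≤ V := ENNReal.toReal_nonneg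
  rcases hV0.eq_or_lt with h | h
  · have : volume A = 0 := by
      have := h.symm
      rw [hV, ENNReal.toReal_eq_zero_iff] at this
      exact this.resolve_right hA
    rw [← h, setIntegral_measure_zero _ this]
    simp
  · set I := ∫ x in A, g x with hI
    have h3 : 0 ≤ ∫ x in A, (g x - I / V) ^ 2 := integral_nonneg fun x => sq_nonneg _
    have h4 : ∫ x in A, (g x - I / V) ^ 2 = (∫ x in A, g x ^ 2) - 2 * (I / V) * I + (I / V) ^ 2 * V := by
      have e : ∀ x, (g x - I / V) ^ 2 = g x ^ 2 - 2 * (I / V) * g x + (I / V) ^ 2 := by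
        intro x; ring
      simp_rw [e]
      have hc : IntegrableOn (fun _ : E2 => (I / V) ^ 2) A := integrableOn_const hA
      have hd : IntegrableOn (fun x => g x ^ 2 - 2 * (I / V) * g x) A := h2.sub (h1.const_mul _)
      rw [integral_add hd hc, integral_sub h2 (h1.const_mul _), integral_const_mul]
      congr 1
      rw [setIntegral_const]
      simp [Measure.real, hV, mul_comm]
    rw [h4] at h3
    have h5 : 2 * (I / V) * I - (I / V) ^ 2 * V = I ^ 2 / V := by field_simp; ring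
    have h6 : I ^ 2 / V ≤ ∫ x in A, g x ^ 2 := by linarith
    rwa [div_le_iff₀ h, mul_comm] at h6

/-- a Poincaré inequality on the unit disc in the form needed below -/
lemma poincare : ∃ K > 0, ∀ v : E2 → ℝ, ContDiff ℝ ∞ v → HasCompactSupport v →
    tsupport v ⊆ Metric.ball 0 1 →
    (∫ x in Metric.ball (0 : E2) 1, |v x|) ^ 2 ≤ K * ∫ x, ‖fderiv ℝ v x‖ ^ 2 := by
  set B := Metric.ball (0 : E2) 1 with hB
  set V := (volume B).toReal with hV
  have hBf : volume B ≠ ⊤ := measure_ball_lt_top.ne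
  have hV0 : 0 ≤ V := ENNReal.toReal_nonneg
  have hp : NNReal.HolderConjugate (Module.finrank ℝ E2) 2 := by
    rw [finrank_euclideanSpace, Fintype.card_fin]
    rw [NNReal.holderConjugate_iff]
    norm_num
  set c : ℝ≥0 := eLpNormLESNormFDerivOneConst (volume : Measure E2) ((2 : ℝ≥0) : ℝ) with hc
  refine ⟨(c : ℝ) ^ 2 * V ^ 2 + 1, by positivity, fun v hv hvc hvt => ?_⟩
  have hgns := eLpNorm_le_eLpNorm_fderiv_one (volume : Measure E2) (hv.of_le (by simp)) hvc hp
  have hvcont := hv.continuous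
  have hfc : Continuous (fderiv ℝ v) := hv.continuous_fderiv (by simp)
  have hfs : HasCompactSupport (fderiv ℝ v) := hvc.fderiv (𝕜 := ℝ)
  have hm1 : MemLp v 2 := hvcont.memLp_of_hasCompactSupport hvc
  have hm2 : MemLp (fderiv ℝ v) 1 := hfc.memLp_of_hasCompactSupport hfs
  have e1 := hm1.eLpNorm_eq_integral_rpow_norm (by simp) (by simp)
  have e2 := hm2.eLpNorm_eq_integral_rpow_norm (by simp) (by simp)
  have h1 : Real.sqrt (∫ x, v x ^ 2) ≤ c * ∫ x, ‖fderiv ℝ v x‖ := by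
    have e3 : eLpNorm v ((2 : ℝ≥0) : ℝ≥0∞) volume = ENNReal.ofReal (Real.sqrt (∫ x, v x ^ 2)) := by
      rw [ENNReal.coe_ofNat, e1]
      congr 1
      rw [Real.sqrt_eq_rpow]
      simp
    have e4 : eLpNorm (fderiv ℝ v) 1 volume = ENNReal.ofReal (∫ x, ‖fderiv ℝ v x‖) := by
      rw [e2]
      congr 1
      simp
    rw [e3, e4] at hgns
    have h2 : ENNReal.ofReal (Real.sqrt (∫ x, v x ^ 2)) ≤ ENNReal.ofReal (c * ∫ x, ‖fderiv ℝ v x‖) := by
      refine hgns.trans (le_of_eq ?_)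
      rw [ENNReal.ofReal_mul (by positivity), ENNReal.ofReal_coe_nnreal]
    exact (ENNReal.ofReal_le_ofReal_iff (by positivity)).mp h2
  have hv0 : ∀ x, x ∉ B → v x = 0 := fun x hx =>
    image_eq_zero_of_notMem_tsupport fun h => hx (hvt h)
  have hfv0 : ∀ x, x ∉ B → fderiv ℝ v x = 0 := fun x hx =>
    image_eq_zero_of_notMem_tsupport fun h => hx (hvt (tsupport_fderiv_subset ℝ h))
  have i1 : Integrable (fun x => v x ^ 2) := Pool.Agent.R227.Polya.integrable_sq_of_cc hvcont hvc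
  have i2 : Integrable (fun x => ‖fderiv ℝ v x‖) := (hfc.integrable_of_hasCompactSupport hfs).norm
  have i3 : Integrable (fun x => ‖fderiv ℝ v x‖ ^ 2) :=
    Pool.Agent.R227.Polya.integrable_sq_of_cc hfc.norm hfs.norm
  have i4 : Integrable (fun x => |v x|) := (hvcont.integrable_of_hasCompactSupport hvc).norm
  have s1 : (∫ x in B, |v x|) ^ 2 ≤ V * ∫ x, v x ^ 2 := by
    have h2 := cs hBf i4.integrableOn (g := fun x => |v x|) (by simpa using i1.integrableOn)
    simp only [sq_abs] at h2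
    have e5 : ∫ x in B, v x ^ 2 = ∫ x, v x ^ 2 := by
      apply setIntegral_eq_integral_of_forall_compl_eq_zero
      intro x hx
      rw [hv0 x hx]; ring
    rwa [e5] at h2
  have s2 : (∫ x, ‖fderiv ℝ v x‖) ^ 2 ≤ V * ∫ x, ‖fderiv ℝ v x‖ ^ 2 := by
    have h2 := cs hBf i2.integrableOn (g := fun x => ‖fderiv ℝ v x‖) i3.integrableOn
    have e5 : ∫ x in B, ‖fderiv ℝ v x‖ ^ 2 = ∫ x, ‖fderiv ℝ v x‖ ^ 2 := by
      apply setIntegral_eq_integral_of_forall_compl_eq_zero
      intro x hx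
      rw [hfv0 x hx]; simp
    have e6 : ∫ x in B, ‖fderiv ℝ v x‖ = ∫ x, ‖fderiv ℝ v x‖ := by
      apply setIntegral_eq_integral_of_forall_compl_eq_zero
      intro x hx
      rw [hfv0 x hx]; simp
    rwa [e5, e6] at h2
  have n1 : 0 ≤ ∫ x, v x ^ 2 := integral_nonneg fun x => sq_nonneg _
  have n2 : 0 ≤ ∫ x, ‖fderiv ℝ v x‖ := integral_nonneg fun x => norm_nonneg _
  have n3 : 0 ≤ ∫ x, ‖fderiv ℝ v x‖ ^ 2 := integral_nonneg fun x => sq_nonneg _
  have s3 : ∫ x, v x ^ 2 ≤ (c * ∫ x, ‖fderiv ℝ v x‖) ^ 2 := by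
    have := pow_le_pow_left₀ (Real.sqrt_nonneg _) h1 2
    rwa [Real.sq_sqrt n1] at this
  calc (∫ x in B, |v x|) ^ 2 ≤ V * ∫ x, v x ^ 2 := s1
    _ ≤ V * (c * ∫ x, ‖fderiv ℝ v x‖) ^ 2 := mul_le_mul_of_nonneg_left s3 hV0
    _ = V * (c : ℝ) ^ 2 * (∫ x, ‖fderiv ℝ v x‖) ^ 2 := by ring
    _ ≤ V * (c : ℝ) ^ 2 * (V * ∫ x, ‖fderiv ℝ v x‖ ^ 2) := mul_le_mul_of_nonneg_left s2 (by positivity)
    _ = (c : ℝ) ^ 2 * V ^ 2 * ∫ x, ‖fderiv ℝ v x‖ ^ 2 := by ring
    _ ≤ ((c : ℝ) ^ 2 * V ^ 2 + 1) * ∫ x, ‖fderiv ℝ v x‖ ^ 2 := by nlinarith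

/-- `∫_{B(x,r)} log(1/|x-y|) dy → 0`. -/
lemma kato_bound (x : E2) {r : ℝ} (hr : 0 < r) :
    ∫⁻ y in {y : E2 | ‖x - y‖ < r}, ENNReal.ofReal (Real.log (1 / ‖x - y‖))
      ≤ ENNReal.ofReal (2 * Real.pi * r) := by
  set f : ℝ → ℝ := fun ρ => if ρ < r then ρ⁻¹ else 0 with hf
  have hfint : IntegrableOn (fun y : ℝ => y ^ (Module.finrank ℝ E2 - 1) • f y) (Ioi 0) ∧
      ∫ y in Ioi (0 : ℝ), y ^ (Module.finrank ℝ E2 - 1) • f y = r := by
    have e1 : EqOn (fun y : ℝ => y ^ (Module.finrank ℝ E2 - 1) • f y)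
        ((Iio r).indicator fun _ => (1:ℝ)) (Ioi 0) := by
      intro y hy
      simp only [finrank_euclideanSpace, Fintype.card_fin, smul_eq_mul, hf, indicator, mem_Iio]
      have hy0 : y ≠ 0 := (mem_Ioi.mp hy).ne'
      split_ifs with h
      · simp [hy0]
      · simp
    constructor
    · rw [integrableOn_congr_fun e1 measurableSet_Ioi]
      rw [integrableOn_indicator_iff measurableSet_Iio]
      refine integrableOn_const ?_
      rw [inter_comm, Ioi_inter_Iio]
      simp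
    · rw [setIntegral_congr_fun measurableSet_Ioi e1, setIntegral_indicator measurableSet_Iio,
        Ioi_inter_Iio]
      simp [hr.le]
  have hI : Integrable (fun z : E2 => f ‖z‖) := (integrable_fun_norm_addHaar volume).mpr hfint.1
  have hIv : ∫ z : E2, f ‖z‖ = 2 * Real.pi * r := by
    rw [integral_fun_norm_addHaar volume f, hfint.2]
    have : volume.real (Metric.ball (0 : E2) 1) = Real.pi := by
      rw [Measure.real, EuclideanSpace.volume_ball_fin_two]
      simp [Real.pi_pos.le]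
    rw [this]
    simp
    ring
  have hf0 : ∀ z : E2, 0 ≤ f ‖z‖ := by
    intro z
    simp only [hf]
    split_ifs <;> positivity
  rw [← hIv, ofReal_integral_eq_lintegral_ofReal hI (Filter.Eventually.of_forall hf0)]
  have hms : MeasurableSet {y : E2 | ‖x - y‖ < r} := measurableSet_lt (by fun_prop) measurable_const
  rw [← lintegral_indicator hms]
  have e2 : ∀ y, ({y : E2 | ‖x - y‖ < r}.indicator fun y => ENNReal.ofReal (Real.log (1 / ‖x - y‖))) y
      ≤ (fun z => ENNReal.ofReal (f ‖z‖)) (x - y) := by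
    intro y
    simp only [indicator, mem_ofPred_eq, hf]
    split_ifs with h
    · apply ENNReal.ofReal_le_ofReal
      rcases (norm_nonneg (x - y)).eq_or_lt with h0 | h0
      · rw [← h0]; simp
      · have := Real.log_le_sub_one_of_pos (show 0 < 1 / ‖x - y‖ by positivity)
        rw [one_div] at this ⊢
        linarith
    · simp
  refine (lintegral_mono e2).trans (le_of_eq ?_)
  exact lintegral_sub_left_eq_self (fun z : E2 => ENNReal.ofReal (f ‖z‖)) x

end Pool.Agent.R227.TM
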