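import Pool.Agent.R227.TM4

set_option autoImplicit false

open MeasureTheory Set
open scoped Topology ContDiff ENNReal NNReal

namespace Pool.Agent.R227.TM

lemma exists_eps {K0 D : ℝ} (hK : 0 < K0) (hD : 0 < D) (N : ℝ) :
    ∃ ε : ℝ, 0 < ε ∧ ε ≤ 1 / 2 ∧
      N ≤ D * ε ^ 2 * Real.exp (K0 * (-(1 / 2) * Real.log (2 * ε ^ 2)) ^ 2) := by
  set t : ℝ := max 1 (max (3 / K0) (2 * N / D)) with ht
  have t1 : 1 ≤ t := le_max_left _ _
  have t2 : 3 / K0 ≤ t := (le_max_left _ _).trans (le_max_right _ _)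
  have t3 : 2 * N / D ≤ t := (le_max_right _ _).trans (le_max_right _ _)
  have hs : (0:ℝ) < Real.sqrt 2 := by positivity
  have hs2 : Real.sqrt 2 ^ 2 = 2 := Real.sq_sqrt (by norm_num)
  refine ⟨Real.exp (-t) / Real.sqrt 2, by positivity, ?_, ?_⟩
  · have h1 : Real.exp (-t) ≤ 1 / 2 := by
      have h2 : Real.exp (-t) ≤ Real.exp (-1) := Real.exp_le_exp.mpr (by linarith)
      have h3 : Real.exp (-1) ≤ 1 / 2 := by
        rw [Real.exp_neg, one_div]
        apply inv_anti₀ (by norm_num)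
        have := Real.add_one_le_exp 1
        linarith
      linarith
    have h4 : 1 ≤ Real.sqrt 2 := by
      rw [Real.one_le_sqrt]; norm_num
    calc Real.exp (-t) / Real.sqrt 2 ≤ Real.exp (-t) := div_le_self (Real.exp_pos _).le h4
      _ ≤ 1 / 2 := h1
  · have e1 : (Real.exp (-t) / Real.sqrt 2) ^ 2 = Real.exp (-(2 * t)) / 2 := by
      rw [div_pow, hs2, ← Real.exp_nat_mul]
      congr 2
      push_cast; ring
    rw [e1]
    have e2 : 2 * (Real.exp (-(2 * t)) / 2) = Real.exp (-(2 * t)) := by ring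
    rw [e2, Real.log_exp]
    have e3 : -(1 / 2) * -(2 * t) = t := by ring
    rw [e3]
    have e4 : D * (Real.exp (-(2 * t)) / 2) * Real.exp (K0 * t ^ 2) = D / 2 * Real.exp (K0 * t ^ 2 - 2 * t) := by
      rw [sub_eq_add_neg, Real.exp_add]; ring
    rw [e4]
    have h5 : t ≤ K0 * t ^ 2 - 2 * t := by
      have : 3 ≤ K0 * t := by rwa [div_le_iff₀ hK, mul_comm] at t2
      nlinarith
    have h6 : t ≤ Real.exp (K0 * t ^ 2 - 2 * t) := by
      have := Real.add_one_le_exp (K0 * t ^ 2 - 2 * t)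
      linarith
    have h7 : N ≤ D / 2 * t := by
      rw [div_le_iff₀ hD] at t3
      linarith
    calc N ≤ D / 2 * t := h7
      _ ≤ D / 2 * Real.exp (K0 * t ^ 2 - 2 * t) := by gcongr

/-- second cutoff -/
noncomputable def cut2 (s : ℝ) : ℝ := Real.smoothTransition (2 - 2 * s)

lemma cut2_contDiff : ContDiff ℝ ∞ cut2 := by
  unfold cut2
  exact Real.smoothTransition.contDiff.comp (by fun_prop)

lemma cut2_one {s : ℝ} (hs : s ≤ 1 / 2) : cut2 s = 1 :=
  Real.smoothTransition.one_of_one_le (by linarith)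

lemma cut2_zero {s : ℝ} (hs : 1 ≤ s) : cut2 s = 0 :=
  Real.smoothTransition.zero_of_nonpos (by linarith)

lemma cut2_deriv_bound : ∃ M > 0, ∀ s ∈ Icc (1/2:ℝ) 1, |deriv cut2 s| ≤ M := by
  have c1 : Continuous (deriv cut2) := by
    have : ContDiff ℝ ∞ (deriv cut2) := contDiff_iff_contDiffAt.mpr fun x =>
      deriv_contDiffAt cut2_contDiff.contDiffAt
    exact this.continuous
  obtain ⟨M, hM⟩ := isCompact_Icc.exists_bound_of_continuousOn (s := Icc (1/2:ℝ) 1) c1.continuousOn
  refine ⟨|M| + 1, by positivity, fun s hs => ?_⟩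
  have := hM s hs
  rw [Real.norm_eq_abs] at this
  linarith [le_abs_self M]

/-- cutoff around the `k`-th peak -/
noncomputable def chi (k : ℕ) (z : E2) : ℝ := cut2 (sq (pt k) (rad k) z)

lemma chi_contDiff (k : ℕ) : ContDiff ℝ ∞ (chi k) := cut2_contDiff.comp (sq_contDiff _ _)

lemma chi_zero {k : ℕ} {z : E2} (h : rad k < ‖z - pt k‖) : chi k z = 0 := by
  apply cut2_zero
  by_contra hcon
  push Not at hcon
  have := (Par.sq_le_one_iff k z).mp hcon.le
  linarith

lemma tsupport_chi (k : ℕ) : tsupport (chi k) ⊆ Metric.closedBall (pt k) (rad k) := by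
  apply closure_minimal _ Metric.isClosed_closedBall
  intro z hz
  rw [Metric.mem_closedBall, dist_eq_norm]
  by_contra hcon
  push Not at hcon
  exact hz (chi_zero hcon)

lemma closedBall_sub (k : ℕ) : Metric.closedBall (pt k) (rad k) ⊆ Metric.ball 0 1 := by
  intro z hz
  rw [Metric.mem_closedBall, dist_eq_norm] at hz
  have := peak_in hz
  have h2 := half_pow_pos (k + 2)
  rw [Metric.mem_ball, dist_zero_right]
  linarith

lemma chi_grad (k : ℕ) (z : E2) :
    ‖fderiv ℝ (chi k) z‖ ^ 2 = (deriv cut2 (sq (pt k) (rad k) z)) ^ 2 * (4 / rad k ^ 2 * sq (pt k) (rad k) z) := by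
  rw [norm_fderiv_sq']
  have hr := rad_pos k
  have h1 : ∀ i, pd i (chi k) z = deriv cut2 (sq (pt k) (rad k) z) * (2 * (z i - pt k i) / rad k ^ 2) := by
    intro i
    unfold chi
    rw [pd_comp (cut2_contDiff.differentiable (by simp) _) ((sq_contDiff _ _).differentiable (by simp) z), pd_sq]
  simp_rw [h1, mul_pow]
  rw [← Finset.mul_sum]
  congr 1
  have h9 : ∀ i : Fin 2, (2 * (z i - pt k i) / rad k ^ 2) ^ 2 = 4 / rad k ^ 4 * (z i - pt k i) ^ 2 := by
    intro i
    field_simp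
    ring
  simp_rw [h9]
  rw [← Finset.mul_sum]
  unfold sq
  rw [EuclideanSpace.norm_sq_eq]
  simp only [Real.norm_eq_abs, sq_abs, PiLp.sub_apply]
  field_simp

lemma chi_grad_zero {k : ℕ} {z : E2} (h : sq (pt k) (rad k) z < 1 / 2 ∨ 1 < sq (pt k) (rad k) z) :
    fderiv ℝ (chi k) z = 0 := by
  have hc : Continuous (sq (pt k) (rad k)) := (sq_contDiff _ _).continuous
  rcases h with h | h
  · have : chi k =ᶠ[𝓝 z] fun _ => 1 := by
      filter_upwards [hc.continuousAt.eventually (gt_mem_nhds h)] with y hy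
      exact cut2_one (le_of_lt hy)
    rw [this.fderiv_eq]
    simp
  · have : chi k =ᶠ[𝓝 z] fun _ => 0 := by
      filter_upwards [hc.continuousAt.eventually (lt_mem_nhds h)] with y hy
      exact cut2_zero (le_of_lt hy)
    rw [this.fderiv_eq]
    simp

end Pool.Agent.R227.TM
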