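import Pool.Agent.R227.TM5

set_option autoImplicit false

open MeasureTheory Set
open scoped Topology ContDiff ENNReal NNReal

namespace Pool.Agent.R227.TM

namespace Par

variable (P : Par)

/-- the potential -/
noncomputable def V (x : E2) : ℝ := -lap P.w x / P.w x

lemma w_pos (z : E2) : 0 < P.w z := lt_of_lt_of_le one_pos (P.w_ge z)

lemma V_contDiffAt {z : E2} (hz : ‖z‖ < 1) : ContDiffAt ℝ ∞ P.V z := by
  have hw := P.w_contDiffAt hz
  have h1 : ContDiffAt ℝ ∞ (fun x => lap P.w x) z := by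
    unfold lap
    exact ContDiffAt.sum fun i _ => pd_contDiffAt (pd_contDiffAt hw i) i
  exact h1.neg.div hw (P.w_pos z).ne'

lemma V_nonneg {z : E2} (hz : ‖z‖ < 1) : 0 ≤ P.V z :=
  div_nonneg (by linarith [P.lap_w hz]) (P.w_pos z).le

lemma V_kato {K : Set E2} (hK : IsCompact K) (hKs : K ⊆ Metric.ball 0 1) {η : ℝ} (hη : 0 < η) :
    ∃ r₀ > 0, ∀ r, 0 < r → r < r₀ → ∀ x : E2,
      ∫⁻ y in K ∩ {y | ‖x - y‖ < r}, ENNReal.ofReal (Real.log (1 / ‖x - y‖) * |P.V y|)
        ≤ ENNReal.ofReal η := by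
  have hc : ContinuousOn P.V K := fun y hy =>
    (P.V_contDiffAt (by simpa using hKs hy)).continuousAt.continuousWithinAt
  obtain ⟨M, hM⟩ := hK.exists_bound_of_continuousOn hc
  set M0 := |M| + 1 with hM0
  have hM0p : 0 < M0 := by positivity
  have hpi := Real.pi_pos
  refine ⟨η / (2 * Real.pi * M0), by positivity, fun r hr hr2 x => ?_⟩
  have h1 : ∫⁻ y in K ∩ {y | ‖x - y‖ < r}, ENNReal.ofReal (Real.log (1 / ‖x - y‖) * |P.V y|)
      ≤ ∫⁻ y in K ∩ {y | ‖x - y‖ < r}, ENNReal.ofReal M0 * ENNReal.ofReal (Real.log (1 / ‖x - y‖)) := by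
    have hms : MeasurableSet (K ∩ {y : E2 | ‖x - y‖ < r}) :=
      hK.measurableSet.inter (measurableSet_lt (by fun_prop) measurable_const)
    apply setLIntegral_mono_ae' hms
    filter_upwards with y hy
    have h2 : |P.V y| ≤ M0 := by
      have := hM y hy.1
      rw [Real.norm_eq_abs] at this
      linarith [le_abs_self M]
    rw [← ENNReal.ofReal_mul hM0p.le]
    rcases le_total 0 (Real.log (1 / ‖x - y‖)) with h | h
    · apply ENNReal.ofReal_le_ofReal
      rw [mul_comm]
      gcongr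
    · rw [ENNReal.ofReal_of_nonpos (mul_nonpos_of_nonpos_of_nonneg h (abs_nonneg _))]
      exact zero_le
  calc _ ≤ _ := h1
    _ ≤ ∫⁻ y in {y | ‖x - y‖ < r}, ENNReal.ofReal M0 * ENNReal.ofReal (Real.log (1 / ‖x - y‖)) :=
        lintegral_mono_set inter_subset_right
    _ = ENNReal.ofReal M0 * ∫⁻ y in {y | ‖x - y‖ < r}, ENNReal.ofReal (Real.log (1 / ‖x - y‖)) :=
        lintegral_const_mul' _ _ ENNReal.ofReal_ne_top
    _ ≤ ENNReal.ofReal M0 * ENNReal.ofReal (2 * Real.pi * r) := by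
        gcongr
        exact kato_bound x hr
    _ = ENNReal.ofReal (M0 * (2 * Real.pi * r)) := (ENNReal.ofReal_mul hM0p.le).symm
    _ ≤ ENNReal.ofReal η := by
        apply ENNReal.ofReal_le_ofReal
        rw [lt_div_iff₀ (by positivity)] at hr2
        nlinarith

/-- the energy in ground-state form -/
lemma energy {u : E2 → ℝ} (hu : ContDiff ℝ ∞ u) (hc : HasCompactSupport u)
    (hs : tsupport u ⊆ Metric.ball 0 1) :
    (∫ x in Metric.ball 0 1, ‖fderiv ℝ u x‖ ^ 2) - ∫ x in Metric.ball 0 1, P.V x * u x ^ 2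
      = ∫ x, P.w x ^ 2 * ‖fderiv ℝ (fun x => (P.w x)⁻¹ * u x) x‖ ^ 2 := by
  have h := ground hu hc (w := P.w) (fun x hx => P.w_contDiffAt (by simpa using hs hx))
    (fun x _ => (P.w_pos x).ne')
  rw [← h.2.2.2.2]
  congr 1
  · apply setIntegral_eq_integral_of_forall_compl_eq_zero
    intro x hx
    have : fderiv ℝ u x = 0 :=
      image_eq_zero_of_notMem_tsupport fun hh => hx (hs (tsupport_fderiv_subset ℝ hh))
    rw [this]; simp
  · apply setIntegral_eq_integral_of_forall_compl_eq_zero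
    intro x hx
    have : u x = 0 := image_eq_zero_of_notMem_tsupport fun hh => hx (hs hh)
    rw [this]; simp

lemma w_le_two {z : E2} (hz : ‖z‖ < 1 / 4) : P.w z ≤ 2 := by
  rw [P.w_off]
  · exact w0_le z
  · intro k
    by_contra hcon
    push Not at hcon
    have h1 := peak_out hcon
    have h2 : (1 / 2 : ℝ) ^ (k + 1) ≤ (1 / 2 : ℝ) ^ 1 :=
      pow_le_pow_of_le_one (by norm_num) (by norm_num) (by omega)
    linarith

/-- weak coercivity -/
lemma coercive : ∃ δ > 0, ∀ u : E2 → ℝ, ContDiff ℝ ∞ u → HasCompactSupport u →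
    tsupport u ⊆ Metric.ball 0 1 →
    δ * (∫ x in Metric.ball (0 : E2) (1 / 4), u x) ^ 2 ≤
      (∫ x in Metric.ball 0 1, ‖fderiv ℝ u x‖ ^ 2) - ∫ x in Metric.ball 0 1, P.V x * u x ^ 2 := by
  obtain ⟨K, hK, hP⟩ := poincare
  refine ⟨1 / (4 * K), by positivity, fun u hu hc hs => ?_⟩
  rw [P.energy hu hc hs]
  have h := ground hu hc (w := P.w) (fun x hx => P.w_contDiffAt (by simpa using hs hx))
    (fun x _ => (P.w_pos x).ne')
  set v : E2 → ℝ := fun x => (P.w x)⁻¹ * u x with hv
  have hvs : ContDiff ℝ ∞ v := h.1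
  have hvt : tsupport v ⊆ tsupport u := tsupport_mul_subset_right
  have hvc : HasCompactSupport v := hc.of_isClosed_subset (isClosed_tsupport _) hvt
  have h1 := hP v hvs hvc (hvt.trans hs)
  have hvi : Integrable (fun x => |v x|) :=
    (hvs.continuous.integrable_of_hasCompactSupport hvc).norm
  have h2 : |∫ x in Metric.ball (0 : E2) (1 / 4), u x| ≤ 2 * ∫ x in Metric.ball (0 : E2) 1, |v x| := by
    calc |∫ x in Metric.ball (0 : E2) (1 / 4), u x|
        ≤ ∫ x in Metric.ball (0 : E2) (1 / 4), |u x| := abs_integral_le_integral_abs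
      _ ≤ ∫ x in Metric.ball (0 : E2) (1 / 4), 2 * |v x| := by
          apply setIntegral_mono_on
          · exact (hu.continuous.integrable_of_hasCompactSupport hc).norm.integrableOn
          · exact (hvi.const_mul 2).integrableOn
          · exact measurableSet_ball
          · intro x hx
            rw [Metric.mem_ball, dist_zero_right] at hx
            have hw := P.w_pos x
            have e : u x = P.w x * v x := by simp only [hv]; field_simp
            rw [e, abs_mul, abs_of_pos hw]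
            exact mul_le_mul_of_nonneg_right (P.w_le_two hx) (abs_nonneg _)
      _ = 2 * ∫ x in Metric.ball (0 : E2) (1 / 4), |v x| := integral_const_mul _ _
      _ ≤ 2 * ∫ x in Metric.ball (0 : E2) 1, |v x| := by
          refine mul_le_mul_of_nonneg_left ?_ (by norm_num)
          apply setIntegral_mono_set hvi.integrableOn
          · exact Filter.Eventually.of_forall fun x => abs_nonneg _
          · exact (Metric.ball_subset_ball (by norm_num)).eventuallyLE
  have h3 : ∫ x, ‖fderiv ℝ v x‖ ^ 2 ≤ ∫ x, P.w x ^ 2 * ‖fderiv ℝ v x‖ ^ 2 := by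
    apply integral_mono_of_nonneg
    · exact Filter.Eventually.of_forall fun x => sq_nonneg _
    · exact h.2.2.2.1
    · refine Filter.Eventually.of_forall fun x => ?_
      have := P.w_ge x
      have h4 : 1 ≤ P.w x ^ 2 := by nlinarith
      simp only
      nlinarith [sq_nonneg ‖fderiv ℝ v x‖]
  have h4 : (∫ x in Metric.ball (0 : E2) (1 / 4), u x) ^ 2
      ≤ 4 * (∫ x in Metric.ball (0 : E2) 1, |v x|) ^ 2 := by
    rw [← sq_abs]
    calc |∫ x in Metric.ball (0 : E2) (1 / 4), u x| ^ 2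
        ≤ (2 * ∫ x in Metric.ball (0 : E2) 1, |v x|) ^ 2 := pow_le_pow_left₀ (abs_nonneg _) h2 2
      _ = _ := by ring
  rw [one_div, inv_mul_le_iff₀ (by positivity)]
  calc (∫ x in Metric.ball (0 : E2) (1 / 4), u x) ^ 2
      ≤ 4 * (∫ x in Metric.ball (0 : E2) 1, |v x|) ^ 2 := h4
    _ ≤ 4 * (K * ∫ x, ‖fderiv ℝ v x‖ ^ 2) := by gcongr
    _ ≤ 4 * (K * ∫ x, P.w x ^ 2 * ‖fderiv ℝ v x‖ ^ 2) := by gcongr
    _ = _ := by ring

end Par

end Pool.Agent.R227.TM
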