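import Pool.Agent.R227.TM6

set_option autoImplicit false

open MeasureTheory Set
open scoped Topology ContDiff ENNReal NNReal

namespace Pool.Agent.R227.TM

lemma vol_ball (p : E2) {r : ℝ} (hr : 0 ≤ r) : (volume (Metric.ball p r)).toReal = Real.pi * r ^ 2 := by
  rw [EuclideanSpace.volume_ball_fin_two]
  rw [ENNReal.toReal_mul, ENNReal.toReal_pow, ENNReal.toReal_ofReal hr,
    ENNReal.toReal_ofReal Real.pi_pos.le]
  ring

lemma vol_closedBall (p : E2) {r : ℝ} (hr : 0 ≤ r) :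
    (volume (Metric.closedBall p r)).toReal = Real.pi * r ^ 2 := by
  rw [EuclideanSpace.volume_closedBall_fin_two]
  rw [ENNReal.toReal_mul, ENNReal.toReal_pow, ENNReal.toReal_ofReal hr,
    ENNReal.toReal_ofReal Real.pi_pos.le]
  ring

namespace Par

variable (P : Par)

/-- the test functions -/
noncomputable def tf (c : ℝ) (k : ℕ) (x : E2) : ℝ := P.w x * (c * chi k x)

lemma tsupport_cchi (c : ℝ) (k : ℕ) : tsupport (fun x => c * chi k x) ⊆ Metric.closedBall (pt k) (rad k) :=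
  (tsupport_mul_subset_right).trans (tsupport_chi k)

lemma tf_contDiff (c : ℝ) (k : ℕ) : ContDiff ℝ ∞ (P.tf c k) := by
  apply contDiff_mul' (f := P.w) (g := fun x => c * chi k x)
  · intro x hx
    exact P.w_contDiffAt (by simpa using closedBall_sub k (tsupport_cchi c k hx))
  · exact contDiff_const.mul (chi_contDiff k)

lemma tf_tsupport (c : ℝ) (k : ℕ) : tsupport (P.tf c k) ⊆ Metric.closedBall (pt k) (rad k) :=
  (tsupport_mul_subset_right).trans (tsupport_cchi c k)

lemma tf_hcs (c : ℝ) (k : ℕ) : HasCompactSupport (P.tf c k) :=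
  (isCompact_closedBall (pt k) (rad k)).of_isClosed_subset (isClosed_tsupport _) (P.tf_tsupport c k)

lemma tf_energy {M : ℝ} (hM : ∀ s ∈ Icc (1/2:ℝ) 1, |deriv cut2 s| ≤ M) (c : ℝ) (k : ℕ) :
    ∫ x, P.w x ^ 2 * ‖fderiv ℝ (fun x => (P.w x)⁻¹ * P.tf c k x) x‖ ^ 2
      ≤ 16 * Real.pi * c ^ 2 * M ^ 2 := by
  have hr := rad_pos k
  have e1 : (fun x => (P.w x)⁻¹ * P.tf c k x) = fun x => c * chi k x := by
    ext x
    have := P.w_pos x
    unfold tf
    field_simp
  rw [e1]
  have e2 : ∀ x, ‖fderiv ℝ (fun x => c * chi k x) x‖ ^ 2 = c ^ 2 * ‖fderiv ℝ (chi k) x‖ ^ 2 := by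
    intro x
    rw [fderiv_const_mul ((chi_contDiff k).differentiable (by simp) x), norm_smul, mul_pow,
      Real.norm_eq_abs, sq_abs]
  have hb : ∀ x, P.w x ^ 2 * ‖fderiv ℝ (fun x => c * chi k x) x‖ ^ 2
      ≤ (Metric.closedBall (pt k) (rad k)).indicator (fun _ => 16 * c ^ 2 * M ^ 2 / rad k ^ 2) x := by
    intro x
    rw [e2]
    by_cases hx : x ∈ Metric.closedBall (pt k) (rad k)
    · rw [indicator_of_mem hx]
      by_cases hs : sq (pt k) (rad k) x < 1 / 2
      · rw [chi_grad_zero (Or.inl hs)]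
        have h0 : P.w x ^ 2 * (c ^ 2 * ‖(0 : E2 →L[ℝ] ℝ)‖ ^ 2) = 0 := by rw [norm_zero]; ring
        rw [h0]
        positivity
      · push Not at hs
        rw [Metric.mem_closedBall, dist_eq_norm] at hx
        have hs1 : sq (pt k) (rad k) x ≤ 1 := (sq_le_one_iff k x).mpr hx
        have hw : P.w x ≤ 2 := by
          rw [P.w_peak hx, P.φ_zero hs, add_zero]
          exact w0_le x
        have hw2 : P.w x ^ 2 ≤ 4 := by
          have := P.w_pos x
          nlinarith
        rw [chi_grad]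
        have hd : (deriv cut2 (sq (pt k) (rad k) x)) ^ 2 ≤ M ^ 2 := by
          rw [← sq_abs]
          exact pow_le_pow_left₀ (abs_nonneg _) (hM _ ⟨hs, hs1⟩) 2
        have hs0 := sq_nonneg' (pt k) (rad k) x
        calc P.w x ^ 2 * (c ^ 2 * ((deriv cut2 (sq (pt k) (rad k) x)) ^ 2
              * (4 / rad k ^ 2 * sq (pt k) (rad k) x)))
            ≤ 4 * (c ^ 2 * (M ^ 2 * (4 / rad k ^ 2 * 1))) := by gcongr
          _ = 16 * c ^ 2 * M ^ 2 / rad k ^ 2 := by ring
    · rw [indicator_of_notMem hx]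
      have : 1 < sq (pt k) (rad k) x := by
        by_contra hcon
        push Not at hcon
        apply hx
        rw [Metric.mem_closedBall, dist_eq_norm]
        exact (sq_le_one_iff k x).mp hcon
      rw [chi_grad_zero (Or.inr this)]
      simp
  have hfin : volume (Metric.closedBall (pt k) (rad k)) ≠ ⊤ := measure_closedBall_lt_top.ne
  calc ∫ x, P.w x ^ 2 * ‖fderiv ℝ (fun x => c * chi k x) x‖ ^ 2
      ≤ ∫ x, (Metric.closedBall (pt k) (rad k)).indicator (fun _ => 16 * c ^ 2 * M ^ 2 / rad k ^ 2) x := by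
        apply integral_mono_of_nonneg
        · exact Filter.Eventually.of_forall fun x => by positivity
        · rw [integrable_indicator_iff measurableSet_closedBall]
          exact integrableOn_const hfin
        · exact Filter.Eventually.of_forall hb
    _ = 16 * Real.pi * c ^ 2 * M ^ 2 := by
        rw [integral_indicator measurableSet_closedBall, setIntegral_const, Measure.real,
          vol_closedBall _ hr.le, smul_eq_mul]
        field_simp

lemma tf_exp {c : ℝ} (hc : 0 < c) (k : ℕ) {α : ℝ} (hα : 0 < α) :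
    Real.pi * rad k ^ 2 * P.ε k ^ 2 *
      Real.exp (α * c ^ 2 * P.a k ^ 2 * (-(1 / 2) * Real.log (2 * P.ε k ^ 2)) ^ 2)
      ≤ ∫ x in Metric.ball 0 1, Real.exp (α * P.tf c k x ^ 2) := by
  have hr := rad_pos k
  have hε := P.hε k
  have hε2 := P.hε2 k
  have ha := P.a_pos k
  set B := Metric.ball (pt k) (P.ε k * rad k) with hB
  have hcont : Continuous (fun x => Real.exp (α * P.tf c k x ^ 2)) := by
    have := (P.tf_contDiff c k).continuous
    fun_prop
  have hint : IntegrableOn (fun x => Real.exp (α * P.tf c k x ^ 2)) (Metric.ball 0 1) := by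
    have : IntegrableOn (fun x => Real.exp (α * P.tf c k x ^ 2)) (Metric.closedBall 0 1) :=
      hcont.continuousOn.integrableOn_compact (isCompact_closedBall _ _)
    exact this.mono_set Metric.ball_subset_closedBall
  have hsub : B ⊆ Metric.ball 0 1 := by
    refine Subset.trans ?_ (closedBall_sub k)
    intro x hx
    rw [hB, Metric.mem_ball] at hx
    rw [Metric.mem_closedBall]
    nlinarith
  have hlow : ∀ x ∈ B, c * P.a k * (-(1 / 2) * Real.log (2 * P.ε k ^ 2)) ≤ P.tf c k x := by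
    intro x hx
    rw [hB, Metric.mem_ball, dist_eq_norm] at hx
    have hxr : ‖x - pt k‖ ≤ rad k := by nlinarith
    have hs : sq (pt k) (rad k) x ≤ P.ε k ^ 2 := by
      unfold sq
      rw [div_le_iff₀ (by positivity), ← mul_pow]
      exact pow_le_pow_left₀ (norm_nonneg _) hx.le 2
    have hs0 := sq_nonneg' (pt k) (rad k) x
    have hε4 : P.ε k ^ 2 ≤ 1 / 4 := by nlinarith
    unfold tf
    have hchi : chi k x = 1 := cut2_one (by linarith)
    rw [hchi, P.w_peak hxr]
    have hφ : P.a k * (-(1 / 2) * Real.log (2 * P.ε k ^ 2)) ≤ P.φ k x := by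
      unfold φ HH ell
      rw [cut_one (by linarith), one_mul]
      apply mul_le_mul_of_nonneg_left _ ha.le
      have : Real.log (sq (pt k) (rad k) x + P.ε k ^ 2) ≤ Real.log (2 * P.ε k ^ 2) :=
        Real.log_le_log (by positivity) (by linarith)
      linarith
    have := w0_ge x
    nlinarith
  have hlog : 0 ≤ -(1 / 2) * Real.log (2 * P.ε k ^ 2) := by
    have : Real.log (2 * P.ε k ^ 2) ≤ 0 := Real.log_nonpos (by positivity) (by nlinarith)
    linarith
  have h1 : ∀ x ∈ B, Real.exp (α * c ^ 2 * P.a k ^ 2 * (-(1 / 2) * Real.log (2 * P.ε k ^ 2)) ^ 2)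
      ≤ Real.exp (α * P.tf c k x ^ 2) := by
    intro x hx
    apply Real.exp_le_exp.mpr
    have h2 := pow_le_pow_left₀ (by positivity) (hlow x hx) 2
    calc α * c ^ 2 * P.a k ^ 2 * (-(1 / 2) * Real.log (2 * P.ε k ^ 2)) ^ 2
        = α * (c * P.a k * (-(1 / 2) * Real.log (2 * P.ε k ^ 2))) ^ 2 := by ring
      _ ≤ _ := by gcongr
  have hfin : volume B ≠ ⊤ := measure_ball_lt_top.ne
  calc Real.pi * rad k ^ 2 * P.ε k ^ 2 *
        Real.exp (α * c ^ 2 * P.a k ^ 2 * (-(1 / 2) * Real.log (2 * P.ε k ^ 2)) ^ 2)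
      = ∫ x in B, Real.exp (α * c ^ 2 * P.a k ^ 2 * (-(1 / 2) * Real.log (2 * P.ε k ^ 2)) ^ 2) := by
        rw [setIntegral_const, Measure.real, hB, vol_ball _ (by positivity), smul_eq_mul]
        ring
    _ ≤ ∫ x in B, Real.exp (α * P.tf c k x ^ 2) := by
        apply setIntegral_mono_on (integrableOn_const hfin) (hint.mono_set hsub) measurableSet_ball h1
    _ ≤ ∫ x in Metric.ball 0 1, Real.exp (α * P.tf c k x ^ 2) := by
        apply setIntegral_mono_set hint
        · exact Filter.Eventually.of_forall fun x => (Real.exp_pos _).le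
        · exact hsub.eventuallyLE

end Par

/-- everything together -/
theorem main : ∃ V : E2 → ℝ, ContDiffOn ℝ ∞ V (Metric.ball 0 1) ∧
    (∀ x ∈ Metric.ball (0 : E2) 1, 0 ≤ V x) ∧
    (∀ K ⊆ Metric.ball (0 : E2) 1, IsCompact K → ∀ η > 0, ∃ r₀ > 0, ∀ r, 0 < r → r < r₀ → ∀ x : E2,
      ∫⁻ y in K ∩ {y | ‖x - y‖ < r}, ENNReal.ofReal (Real.log (1 / ‖x - y‖) * |V y|)
        ≤ ENNReal.ofReal η) ∧
    (∃ δ > 0, ∀ u : E2 → ℝ, ContDiff ℝ ∞ u → HasCompactSupport u →
      tsupport u ⊆ Metric.ball 0 1 →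
      δ * (∫ x in Metric.ball (0 : E2) (1 / 4), u x) ^ 2 ≤
        (∫ x in Metric.ball 0 1, ‖fderiv ℝ u x‖ ^ 2) - ∫ x in Metric.ball 0 1, V x * u x ^ 2) ∧
    ∀ α > 0, ∀ M : ℝ, ∃ u : E2 → ℝ, ContDiff ℝ ∞ u ∧ HasCompactSupport u ∧
      tsupport u ⊆ Metric.ball 0 1 ∧
      (∫ x in Metric.ball 0 1, ‖fderiv ℝ u x‖ ^ 2) - (∫ x in Metric.ball 0 1, V x * u x ^ 2) ≤ 1 ∧
      M ≤ ∫ x in Metric.ball 0 1, Real.exp (α * u x ^ 2) := by
  obtain ⟨C, hC, hB⟩ := HH_bound
  obtain ⟨M, hM, hM2⟩ := cut2_deriv_bound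
  have hpi := Real.pi_pos
  set c : ℝ := 1 / Real.sqrt (16 * Real.pi * M ^ 2 + 1) with hc
  have hcp : 0 < c := by positivity
  have hc2 : c ^ 2 = 1 / (16 * Real.pi * M ^ 2 + 1) := by
    rw [hc, div_pow, Real.sq_sqrt (by positivity), one_pow]
  have hex : ∀ k : ℕ, ∃ ε : ℝ, 0 < ε ∧ ε ≤ 1 / 2 ∧
      (k : ℝ) ≤ (Real.pi * rad k ^ 2) * ε ^ 2 *
        Real.exp ((1 / (k + 1 : ℝ) * c ^ 2 * (rad k ^ 2 / (8 * C)) ^ 2) * (-(1 / 2) * Real.log (2 * ε ^ 2)) ^ 2) := by
    intro k
    have := rad_pos k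
    exact exists_eps (by positivity) (by positivity) _
  choose ε h1 h2 h3 using hex
  let P : Par := ⟨C, hC, hB, ε, h1, h2⟩
  refine ⟨P.V, ?_, ?_, ?_, P.coercive, ?_⟩
  · intro x hx
    exact (P.V_contDiffAt (by simpa using hx)).contDiffWithinAt
  · intro x hx
    exact P.V_nonneg (by simpa using hx)
  · intro K hKs hK η hη
    exact P.V_kato hK hKs hη
  · intro α hα N
    obtain ⟨k1, hk1⟩ := exists_nat_ge N
    obtain ⟨k2, hk2⟩ := exists_nat_ge (1 / α)
    set k := max k1 k2 with hk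
    have hkN : N ≤ (k : ℝ) := hk1.trans (by exact_mod_cast le_max_left _ _)
    have hkα : 1 / (k + 1 : ℝ) ≤ α := by
      have : 1 / α ≤ (k + 1 : ℝ) := by
        have : (k2 : ℝ) ≤ k := by exact_mod_cast le_max_right _ _
        linarith
      rw [div_le_iff₀ (by positivity)]
      rw [div_le_iff₀ hα] at this
      linarith
    have hsub : tsupport (P.tf c k) ⊆ Metric.ball 0 1 := (P.tf_tsupport c k).trans (closedBall_sub k)
    refine ⟨P.tf c k, P.tf_contDiff c k, P.tf_hcs c k, hsub, ?_, ?_⟩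
    · rw [P.energy (P.tf_contDiff c k) (P.tf_hcs c k) hsub]
      refine (P.tf_energy hM2 c k).trans ?_
      rw [hc2]
      rw [mul_one_div, div_mul_eq_mul_div, div_le_one (by positivity)]
      linarith
    · refine hkN.trans ((h3 k).trans ?_)
      refine le_trans ?_ (P.tf_exp hcp k hα)
      have hr := rad_pos k
      apply mul_le_mul_of_nonneg_left _ (by positivity)
      apply Real.exp_le_exp.mpr
      change (1 / (k + 1 : ℝ) * c ^ 2 * (rad k ^ 2 / (8 * C)) ^ 2) * (-(1 / 2) * Real.log (2 * ε k ^ 2)) ^ 2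
        ≤ α * c ^ 2 * (rad k ^ 2 / (8 * C)) ^ 2 * (-(1 / 2) * Real.log (2 * ε k ^ 2)) ^ 2
      gcongr

end Pool.Agent.R227.TM
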